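import Pool.Agent.Work.Monodromy.Interface5

/-!
# Phase 6, part SQ: polynomials whose critical points are semi-quasi-homogeneous

`BLUEPRINTSQ.md` contains the proofs.  Everything is in the namespace `Pool.Agent.Mono.RO`.
Block `X` : file `Pool/Agent/Work/Monodromy6/<X>.lean`, `theorem stmt_X : Stmt_X`.
-/

set_option autoImplicit false

namespace Pool.Agent.Mono.RO

open MvPolynomial TS

/-! ## Definitions -/

section

variable {E ι : Type}

/-- the part of weighted degree `D` -/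
noncomputable def ini (w : ι → ℕ) (D : ℕ) (F : MvPolynomial ι ℂ) : MvPolynomial ι ℂ :=
  weightedHomogeneousComponent w D F

/-- semi-quasi-homogeneous at the origin: all monomials have weighted degree at least `D`, and the
origin is the only critical point of the part of degree `D` -/
def SQ (w : ι → ℕ) (D : ℕ) (F : MvPolynomial ι ℂ) : Prop :=
  (∀ a, 1 ≤ w a) ∧ 1 ≤ D ∧ (∀ d ∈ F.support, D ≤ Finsupp.weight w d) ∧
    ∀ x : ι → ℂ, (∀ a, eval x (pderiv a (ini w D F)) = 0) ↔ x = 0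

/-- `f` is semi-quasi-homogeneous at `p` in the coordinates `φ` (with `φ(0) = p`), and the sum of
the weights divided by the degree is `r` -/
def SQAt [Fintype ι] [DecidableEq ι] (f : MvPolynomial ι ℂ) (p : ι → ℂ) (r : ℚ) : Prop :=
  ∃ (w : ι → ℕ) (D : ℕ) (φ : ι → MvPolynomial ι ℂ),
    (∀ a, eval (fun _ => 0) (φ a) = p a) ∧
    (Matrix.of fun a b => eval (fun _ => (0 : ℂ)) (pderiv b (φ a))).det ≠ 0 ∧
    SQ w D (bind₁ φ f - C (eval p f)) ∧ r = ((∑ a, w a : ℕ) : ℚ) / (D : ℚ)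

/-! ## Arcs: leading terms

`m a` are positive integers with `w a * m a = M`; the number `r` stands for the slope `r / M`. -/

/-- `ord y_a ≥ r / m a` -/
def Ar (m : ι → ℕ) (r : ℕ) : Set (ι → PowerSeries ℂ) :=
  {y | ∀ a l, l * m a < r → PowerSeries.coeff l (y a) = 0}

/-- the coefficients of order `r / m a` -/
noncomputable def ls (m : ι → ℕ) (r : ℕ) (y : ι → PowerSeries ℂ) (a : ι) : ℂ :=
  if m a ∣ r then PowerSeries.coeff (r / m a) (y a) else 0

/-- parameters and leading coefficients -/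
noncomputable def bsr (m : ι → ℕ) (r : ℕ) (z : (E → ℂ) × (ι → PowerSeries ℂ)) : E ⊕ ι → ℂ :=
  Sum.elim z.1 (ls m r z.2)

/-- arcs of slope at least `r`, leading coefficients in `R`, and the coefficients `l` of `F` with
`r D / M < l ≤ L` prescribed -/
def DNr (m : ι → ℕ) (M D r : ℕ) (F : MvPolynomial ι ℂ) (R : Set (E ⊕ ι → ℂ))
    (B : ℕ → MvPolynomial (E ⊕ ι) ℂ) (L : ℕ) : Set ((E → ℂ) × (ι → PowerSeries ℂ)) :=
  {z | z.2 ∈ Ar m r ∧ bsr m r z ∈ R ∧
    ∀ l ≤ L, r * D < l * M → PowerSeries.coeff l (aeval z.2 F) = eval (bsr m r z) (B l)}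

/-- the leading coefficients which may be nonzero -/
def Off (m : ι → ℕ) (r : ℕ) (z : ι → ℂ) : Prop := ∀ a, ¬ m a ∣ r → z a = 0

/-- leading terms of the coefficients of `F(y)` -/
def Stmt_LA : Prop :=
  ∀ (ι : Type) [Fintype ι] [DecidableEq ι] (w m : ι → ℕ) (M D : ℕ) (F : MvPolynomial ι ℂ),
    SQ w D F → 1 ≤ M → (∀ a, w a * m a = M) → ∀ r : ℕ, 1 ≤ r → ∀ y ∈ Ar m r,
      (∀ l, l * M < r * D → PowerSeries.coeff l (aeval y F) = 0) ∧
      (∀ l, l * M = r * D → PowerSeries.coeff l (aeval y F) = eval (ls m r y) (ini w D F)) ∧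
      ∀ j, eval (ls m r y) (pderiv j (ini w D F)) ≠ 0 → ∀ l, r * D < l * M →
        ∃ s : ℕ, s * M + r * D = l * M + r * w j ∧ r < s * m j ∧
          (∀ t : ℂ, PowerSeries.coeff l (aeval (Function.update y j
            (y j + PowerSeries.C t * PowerSeries.X ^ s)) F) =
              PowerSeries.coeff l (aeval y F) + t * eval (ls m r y) (pderiv j (ini w D F))) ∧
          ∀ y' ∈ Ar m r, (∀ a, a ≠ j → ∀ n, PowerSeries.coeff n (y' a) =
            PowerSeries.coeff n (y a)) → (∀ n < s, PowerSeries.coeff n (y' j) =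
              PowerSeries.coeff n (y j)) → ∀ l' < l,
                PowerSeries.coeff l' (aeval y' F) = PowerSeries.coeff l' (aeval y F)

/-- volumes: without conditions, and with prescribed coefficients -/
def Stmt_LB : Prop :=
  ∀ (P : HodgeMeasure) (ι : Type) [Fintype ι] [DecidableEq ι] (w m : ι → ℕ) (M D : ℕ)
    (F : MvPolynomial ι ℂ), SQ w D F → 1 ≤ M → (∀ a, w a * m a = M) → ∀ r : ℕ, 1 ≤ r →
    ∀ (E : Type) [Finite E] (R : Set (E ⊕ ι → ℂ)), Constructible R →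
      (∀ u ∈ R, Off m r fun a => u (Sum.inr a)) → ∀ (B : ℕ → MvPolynomial (E ⊕ ι) ℂ) (L : ℕ),
      (L * M ≤ r * D → vol P.rat xq (DNr m M D r F R B L) =
        xq ^ (∑ a, (r / m a + 1)) * P.rat.val R) ∧
      ((∀ u ∈ R, ∃ j, eval (fun a => u (Sum.inr a)) (pderiv j (ini w D F)) ≠ 0) →
        r * D / M ≤ L → vol P.rat xq (DNr m M D r F R B L) =
          xq ^ (∑ a, (r / m a + 1) + (L - r * D / M)) * P.rat.val R)

/-- arcs centred at the origin with `ord F(y) ≥ i` and `(p, coeff_i F(y)) ∈ R` -/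
def EXl (F : MvPolynomial ι ℂ) (i : ℕ) (R : Set (E ⊕ Unit → ℂ)) :
    Set ((E → ℂ) × (ι → PowerSeries ℂ)) :=
  {z | (∀ a, PowerSeries.coeff 0 (z.2 a) = 0) ∧
    (∀ l < i, PowerSeries.coeff l (aeval z.2 F) = 0) ∧
    Sum.elim z.1 (fun _ => PowerSeries.coeff i (aeval z.2 F)) ∈ R}

/-- arcs centred at the origin with `ord F(y) > i` -/
def TLl (F : MvPolynomial ι ℂ) (i : ℕ) (B : Set (E → ℂ)) :
    Set ((E → ℂ) × (ι → PowerSeries ℂ)) :=
  {z | z.1 ∈ B ∧ (∀ a, PowerSeries.coeff 0 (z.2 a) = 0) ∧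
    ∀ l ≤ i, PowerSeries.coeff l (aeval z.2 F) = 0}

/-- the class of the zeros of the leading form -/
noncomputable def zc (P : HodgeMeasure) [Finite ι] (w m : ι → ℕ) (D : ℕ) (F : MvPolynomial ι ℂ)
    (r : ℕ) : K :=
  P.rat.val {z : ι → ℂ | Off m r z ∧ z ≠ 0 ∧ eval z (ini w D F) = 0}

/-- the class of the pairs `(p, z)` with `(p, F₀(z)) ∈ R` -/
noncomputable def lc0 (P : HodgeMeasure) [Finite E] [Finite ι] (w m : ι → ℕ) (D : ℕ)
    (F : MvPolynomial ι ℂ) (r : ℕ) (R : Set (E ⊕ Unit → ℂ)) : K :=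
  P.rat.val {u : E ⊕ ι → ℂ | (Off m r fun a => u (Sum.inr a)) ∧
    Sum.elim (fun p => u (Sum.inl p))
      (fun _ => eval (fun a => u (Sum.inr a)) (ini w D F)) ∈ R}

end

/-- the local distribution -/
def Stmt_LC : Prop :=
  ∀ (P : HodgeMeasure) (ι : Type) [Fintype ι] [DecidableEq ι] (w m : ι → ℕ) (M D : ℕ)
    (F : MvPolynomial ι ℂ), SQ w D F → 1 ≤ M → (∀ a, w a * m a = M) →
    ∀ (E : Type) [Finite E],
    (∀ (R : Set (E ⊕ Unit → ℂ)), Constructible R → (∀ u ∈ R, u (Sum.inr ()) ≠ 0) →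
      ∀ i : ℕ, 1 ≤ i → vol P.rat xq (EXl F i R) =
        (if D ∣ M * i then xq ^ (∑ a, (M * i / D / m a + 1)) *
          lc0 P w m D F (M * i / D) R else 0) +
        (∑ r ∈ Finset.Ico 1 (M * i + 1), if r * D < M * i then
          xq ^ (∑ a, (r / m a + 1) + (i - r * D / M)) * zc P w m D F r else 0) *
            P.rat.val R) ∧
    ∀ (B : Set (E → ℂ)), Constructible B → ∀ i : ℕ, vol P.rat xq (TLl F i B) =
      (xq ^ (∑ a, (M * i / D / m a + 1)) +
        ∑ r ∈ Finset.Ico 1 (M * i + 1), if r * D ≤ M * i then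
          xq ^ (∑ a, (r / m a + 1) + (i - r * D / M)) * zc P w m D F r else 0) * P.rat.val B

/-- the sequences in `Stmt_LC` -/
def Stmt_LD : Prop :=
  ∀ (P : HodgeMeasure) (ι : Type) [Fintype ι] [DecidableEq ι] (w m : ι → ℕ) (M D : ℕ)
    (F : MvPolynomial ι ℂ), SQ w D F → 1 ≤ M → (∀ a, w a * m a = M) →
    ∀ Λ : Set ℚ, ((∑ a, w a : ℕ) : ℚ) / (D : ℚ) ∈ Λ → 0 < ((∑ a, w a : ℕ) : ℚ) / (D : ℚ) →
      (∀ i0 : ℕ, ESeq Λ fun i => if i % D = i0 ∧ D ∣ M * i then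
        xq ^ (∑ a, (M * i / D / m a + 1)) else 0) ∧
      ∃ c : K, (ESeq Λ fun i => (∑ r ∈ Finset.Ico 1 (M * i + 1), if r * D < M * i then
          xq ^ (∑ a, (r / m a + 1) + (i - r * D / M)) * zc P w m D F r else 0) - c * xq ^ i) ∧
        ESeq Λ fun i => (xq ^ (∑ a, (M * i / D / m a + 1)) +
        ∑ r ∈ Finset.Ico 1 (M * i + 1), if r * D ≤ M * i then
          xq ^ (∑ a, (r / m a + 1) + (i - r * D / M)) * zc P w m D F r else 0) - c * xq ^ i

/-- change of variables for arcs centred at a point -/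
def Stmt_CV : Prop :=
  ∀ (P : HodgeMeasure) (ι : Type) [Fintype ι] [DecidableEq ι] (p : ι → ℂ)
    (φ : ι → MvPolynomial ι ℂ), (∀ a, eval (fun _ => 0) (φ a) = p a) →
    (Matrix.of fun a b => eval (fun _ => (0 : ℂ)) (pderiv b (φ a))).det ≠ 0 →
    ∀ (E : Type) [Finite E] (S : Set ((E → ℂ) × (ι → PowerSeries ℂ))) (N : ℕ), 1 ≤ N →
      IsCyl (fun _ => N) S →
      vol P.rat xq {z : (E → ℂ) × (ι → PowerSeries ℂ) |
        (∀ a, PowerSeries.coeff 0 (z.2 a) = p a) ∧ z ∈ S} =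
      vol P.rat xq {z : (E → ℂ) × (ι → PowerSeries ℂ) |
        (∀ a, PowerSeries.coeff 0 (z.2 a) = 0) ∧ (z.1, fun a => aeval z.2 (φ a)) ∈ S}

/-- the distribution of a polynomial with semi-quasi-homogeneous critical points -/
def Stmt_LE : Prop :=
  ∀ (P : HodgeMeasure) (ι : Type) [Fintype ι] [DecidableEq ι] (f : MvPolynomial ι ℂ),
    f.totalDegree ≠ 0 → {p : ι → ℂ | ∀ a, eval p (pderiv a f) = 0}.Finite →
    (∀ p : ι → ℂ, (∀ a, eval p (pderiv a f) = 0) → ∃ r, SQAt f p r) →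
      Reg P f Set.univ fun c => {r | ∃ p : ι → ℂ, (∀ a, eval p (pderiv a f) = 0) ∧
        eval p f = c ∧ SQAt f p r}

/-! ## Witnesses -/

section

variable {ι : Type}

/-- functionals `v_i` at `p` which behave like `F^{β-i}/Γ(β-i+1)`, `v_0` a multiple of the
evaluation at `p` -/
def FW (p : ι → ℂ) (F : MvPolynomial ι ℂ) (β : ℂ) : Prop :=
  eval p F = 0 ∧ (∀ a, eval p (pderiv a F) = 0) ∧
    ∃ (v : ℕ → MvPolynomial ι ℂ →ₗ[ℂ] ℂ) (c : ℂ), c ≠ 0 ∧ (∀ g, v 0 g = c * eval p g) ∧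
      (∀ i a g, v (i + 1) (pderiv a F * g) = -v i (pderiv a g)) ∧
      ∀ (i : ℕ) (g : MvPolynomial ι ℂ), v (i + 1) (F * g) = (β - i) * v i g

end

/-- first syzygies of a system of parameters are Koszul, locally at the origin -/
def Stmt_K6 : Prop :=
  ∀ (ι : Type) [Fintype ι] [DecidableEq ι] (F : ι → MvPolynomial ι ℂ),
    (∀ x : ι → ℂ, (∀ a, eval x (F a) = 0) ↔ x = 0) →
    ∀ g : ι → MvPolynomial ι ℂ, ∑ a, g a * F a = 0 →
      ∃ (s : MvPolynomial ι ℂ) (A : ι → ι → MvPolynomial ι ℂ), eval (fun _ => 0) s ≠ 0 ∧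
        (∀ a b, A a b = -A b a) ∧ ∀ a, s * g a = ∑ b, A a b * F b

/-- weighted homogeneous polynomials with isolated critical points: functionals in the weighted
degrees `D i` -/
def Stmt_WD : Prop :=
  ∀ (ι : Type) [Fintype ι] [DecidableEq ι] (w : ι → ℕ) (D : ℕ) (F : MvPolynomial ι ℂ),
    SQ w D F → IsWeightedHomogeneous w F D →
    ∃ v : ℕ → MvPolynomial ι ℂ →ₗ[ℂ] ℂ, (∀ g, v 0 g = eval (fun _ => 0) g) ∧
      (∀ (i : ℕ) (g : MvPolynomial ι ℂ), (∀ d ∈ g.support, Finsupp.weight w d ≠ D * i) →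
        v i g = 0) ∧
      (∀ i a g, v (i + 1) (pderiv a F * g) = -v i (pderiv a g)) ∧
      ∀ (i : ℕ) (g : MvPolynomial ι ℂ),
        v (i + 1) (F * g) = (-((∑ a, w a : ℕ) : ℂ) / (D : ℂ) - i) * v i g

/-- the higher order terms -/
def Stmt_WC : Prop :=
  ∀ (ι : Type) [Fintype ι] [DecidableEq ι] (w : ι → ℕ) (D : ℕ) (F0 F : MvPolynomial ι ℂ) (β : ℂ),
    (∀ a, 1 ≤ w a) → 1 ≤ D → IsWeightedHomogeneous w F0 D →
    (∀ d ∈ (F - F0).support, D < Finsupp.weight w d) →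
    eval (fun _ => 0) F = 0 → (∀ a, eval (fun _ => 0) (pderiv a F) = 0) →
    ∀ v : ℕ → MvPolynomial ι ℂ →ₗ[ℂ] ℂ, (∀ g, v 0 g = eval (fun _ => 0) g) →
      (∀ (i : ℕ) (g : MvPolynomial ι ℂ), (∀ d ∈ g.support, Finsupp.weight w d ≠ D * i) →
        v i g = 0) →
      (∀ i a g, v (i + 1) (pderiv a F0 * g) = -v i (pderiv a g)) →
      (∀ (i : ℕ) (g : MvPolynomial ι ℂ), v (i + 1) (F0 * g) = (β - i) * v i g) →
      FW (fun _ => 0) F β

/-- change of coordinates -/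
def Stmt_WB : Prop :=
  ∀ (ι : Type) [Fintype ι] [DecidableEq ι] (p : ι → ℂ) (φ : ι → MvPolynomial ι ℂ)
    (f : MvPolynomial ι ℂ) (β : ℂ), (∀ a, eval (fun _ => 0) (φ a) = p a) →
    (Matrix.of fun a b => eval (fun _ => (0 : ℂ)) (pderiv b (φ a))).det ≠ 0 →
    FW (fun _ => 0) (bind₁ φ f) β → FW p f β

/-- from functionals to witnesses -/
def Stmt_WA : Prop :=
  ∀ (ι : Type) [Fintype ι] [DecidableEq ι] (p : ι → ℂ) (f : MvPolynomial ι ℂ) (β : ℂ),
    FW p f β → Wit f β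

/-- witnesses at semi-quasi-homogeneous critical points -/
def Stmt_WE : Prop :=
  ∀ (ι : Type) [Fintype ι] [DecidableEq ι] (f : MvPolynomial ι ℂ) (p : ι → ℂ) (r : ℚ),
    f.totalDegree ≠ 0 → (∀ a, eval p (pderiv a f) = 0) → SQAt f p r →
      0 < r ∧ WitClass (f - C (eval p f)) r

/-! ## The gate -/

def Stmt_SQ6 : Prop :=
  ∀ (ι : Type) [Fintype ι] [DecidableEq ι] (f : MvPolynomial ι ℂ), f.totalDegree ≠ 0 →
    {p : ι → ℂ | ∀ a, eval p (pderiv a f) = 0}.Finite →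
    (∀ p : ι → ℂ, (∀ a, eval p (pderiv a f) = 0) → ∃ r, SQAt f p r) → Good5 ι f

end Pool.Agent.Mono.RO
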