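import Pool.Agent.Work.Monodromy6.UnifAll

/-!
# (helper61) Change of variables for volumes
-/

set_option autoImplicit false
set_option linter.unusedSectionVars false

namespace Pool.Agent.Mono.RO

open MvPolynomial TS TS.VAAux TS.VPAux TS.VSAux

namespace CV

section

variable {E ι κ : Type}

/-- the coefficients below the level `K`, and the parameters -/
noncomputable def trd (K : ι → ℕ) (p : E → ℂ) (x : ι → PowerSeries ℂ) :
    E ⊕ (Σ i, Fin (K i)) → ℂ :=
  Sum.elim p fun s => PowerSeries.coeff (s.2 : ℕ) (x s.1)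

theorem trd_toArc (K : ι → ℕ) (v : E ⊕ (Σ i, Fin (K i)) → ℂ) :
    trd K (fun p => v (Sum.inl p)) (toArc K fun s => v (Sum.inr s)) = v := by
  funext s
  rcases s with s | s
  · rfl
  · exact coeff_toArc_lt K (fun s => v (Sum.inr s)) s.1 s.2

/-- Change of variables: `τ` maps `S'` into `S`, is polynomial in the coefficients below the
levels, and is bijective modulo the levels. -/
theorem vol_cv (P : HodgeMeasure) [Finite E] [Fintype ι] [Fintype κ] {K : ι → ℕ} {K' : κ → ℕ}
    {S : Set ((E → ℂ) × (ι → PowerSeries ℂ))} {S' : Set ((E → ℂ) × (κ → PowerSeries ℂ))}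
    (hS : IsCyl K S) (hS' : IsCyl K' S')
    (τ : (E → ℂ) → (κ → PowerSeries ℂ) → ι → PowerSeries ℂ)
    (φ : (Σ i, Fin (K i)) → MvPolynomial (E ⊕ (Σ j, Fin (K' j))) ℂ)
    (h1 : ∀ p x, (p, x) ∈ S' → ∀ s : Σ i, Fin (K i),
      PowerSeries.coeff (s.2 : ℕ) (τ p x s.1) = eval (trd K' p x) (φ s))
    (h2 : ∀ p x, (p, x) ∈ S' → (p, τ p x) ∈ S)
    (h3 : ∀ p x x', (p, x) ∈ S' → (p, x') ∈ S' →
      (∀ i, ∀ l < K i, PowerSeries.coeff l (τ p x i) = PowerSeries.coeff l (τ p x' i)) →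
        ∀ j, ∀ l < K' j, PowerSeries.coeff l (x j) = PowerSeries.coeff l (x' j))
    (h4 : ∀ p y, (p, y) ∈ S → ∃ x, (p, x) ∈ S' ∧
      ∀ i, ∀ l < K i, PowerSeries.coeff l (τ p x i) = PowerSeries.coeff l (y i)) :
    vol P.rat xq S * xq ^ (∑ j, K' j) = vol P.rat xq S' * xq ^ (∑ i, K i) := by
  have hL := L_mul P
  rw [vol_eq P.rat hL hS, vol_eq P.rat hL hS']
  have key : P.rat.val (sec K' S') = P.rat.val (sec K S) := by
    set Φ : E ⊕ (Σ i, Fin (K i)) → MvPolynomial (E ⊕ (Σ j, Fin (K' j))) ℂ :=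
      Sum.elim (fun p => X (Sum.inl p)) φ with hΦ
    have hev : ∀ p x, (p, x) ∈ S' → (fun a => eval (trd K' p x) (Φ a)) = trd K p (τ p x) := by
      intro p x hx
      funext a
      rcases a with a | a
      · simp only [hΦ, Sum.elim_inl, eval_X]
        rfl
      · exact (h1 p x hx a).symm
    refine P.rat.map _ _ Φ hS'.2 hS.2 ⟨?_, ?_, ?_⟩
    · intro v hv
      have hv' : ((fun p => v (Sum.inl p)), toArc K' fun s => v (Sum.inr s)) ∈ S' := hv
      have e1 := hev _ _ hv'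
      rw [trd_toArc] at e1
      change (fun a => eval v (Φ a)) ∈ sec K S
      rw [e1]
      have h5 := h2 _ _ hv'
      refine (hS.1 _ _ _ ?_).1 h5
      intro i l hl
      rw [coeff_toArc, dif_pos hl]
      rfl
    · intro v hv v' hv' hvv
      have g : ((fun p => v (Sum.inl p)), toArc K' fun s => v (Sum.inr s)) ∈ S' := hv
      have g' : ((fun p => v' (Sum.inl p)), toArc K' fun s => v' (Sum.inr s)) ∈ S' := hv'
      have e1 := hev _ _ g
      have e1' := hev _ _ g'
      rw [trd_toArc] at e1 e1'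
      have e2 : (fun a => eval v (Φ a)) = fun a => eval v' (Φ a) := hvv
      rw [e1, e1'] at e2
      have hp : (fun p => v (Sum.inl p)) = fun p => v' (Sum.inl p) := by
        funext p
        exact congrFun e2 (Sum.inl p)
      rw [← hp] at g' e2
      have h5 := h3 _ _ _ g g' (fun i l hl => congrFun e2 (Sum.inr ⟨i, ⟨l, hl⟩⟩))
      funext s
      rcases s with s | s
      · exact congrFun hp s
      · have h6 := h5 s.1 s.2 s.2.2
        rw [coeff_toArc_lt, coeff_toArc_lt] at h6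
        exact h6
    · intro y hy
      have hy' : ((fun p => y (Sum.inl p)), toArc K fun s => y (Sum.inr s)) ∈ S := hy
      obtain ⟨x, hx, hx'⟩ := h4 _ _ hy'
      refine ⟨trd K' (fun p => y (Sum.inl p)) x, ?_, ?_⟩
      · refine (hS'.1 _ _ _ ?_).1 hx
        intro j l hl
        rw [coeff_toArc, dif_pos hl]
        rfl
      · change (fun a => eval (trd K' (fun p => y (Sum.inl p)) x) (Φ a)) = y
        rw [hev _ _ hx]
        funext s
        rcases s with s | s
        · rfl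
        · exact (hx' s.1 s.2 s.2.2).trans (coeff_toArc_lt K (fun s => y (Sum.inr s)) s.1 s.2)
  rw [key]
  ring

variable {E' : Type}

/-- membership in a cylinder only depends on `trd` -/
theorem mem_trd {K : ι → ℕ} {S : Set ((E → ℂ) × (ι → PowerSeries ℂ))} (hS : IsCyl K S)
    {z z' : (E → ℂ) × (ι → PowerSeries ℂ)} (h : trd K z.1 z.2 = trd K z'.1 z'.2) :
    z ∈ S ↔ z' ∈ S := by
  rcases z with ⟨p, x⟩
  rcases z' with ⟨p', x'⟩
  have hp : p = p' := by
    funext e
    exact congrFun h (Sum.inl e)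
  subst hp
  exact hS.1 p x x' fun i l hl => congrFun h (Sum.inr ⟨i, ⟨l, hl⟩⟩)

/-- Change of variables which also changes the parameters. -/
theorem vol_cvp (P : HodgeMeasure) [Finite E] [Finite E'] [Fintype ι] [Fintype κ] {K : ι → ℕ}
    {K' : κ → ℕ} {S : Set ((E → ℂ) × (ι → PowerSeries ℂ))}
    {S' : Set ((E' → ℂ) × (κ → PowerSeries ℂ))} (hS : IsCyl K S) (hS' : IsCyl K' S')
    (τ : (E' → ℂ) × (κ → PowerSeries ℂ) → (E → ℂ) × (ι → PowerSeries ℂ))
    (φ : E ⊕ (Σ i, Fin (K i)) → MvPolynomial (E' ⊕ (Σ j, Fin (K' j))) ℂ)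
    (h1 : ∀ z ∈ S', trd K (τ z).1 (τ z).2 = fun a => eval (trd K' z.1 z.2) (φ a))
    (h2 : ∀ z ∈ S', τ z ∈ S)
    (h3 : ∀ z ∈ S', ∀ z' ∈ S', trd K (τ z).1 (τ z).2 = trd K (τ z').1 (τ z').2 →
      trd K' z.1 z.2 = trd K' z'.1 z'.2)
    (h4 : ∀ y ∈ S, ∃ z ∈ S', trd K (τ z).1 (τ z).2 = trd K y.1 y.2) :
    vol P.rat xq S * xq ^ (∑ j, K' j) = vol P.rat xq S' * xq ^ (∑ i, K i) := by
  have hL := L_mul P
  rw [vol_eq P.rat hL hS, vol_eq P.rat hL hS']
  have key : P.rat.val (sec K' S') = P.rat.val (sec K S) := by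
    -- the arc of a truncated point
    have hpt : ∀ v : E' ⊕ (Σ j, Fin (K' j)) → ℂ,
        trd K' (fun p => v (Sum.inl p)) (toArc K' fun s => v (Sum.inr s)) = v := trd_toArc K'
    have hpt2 : ∀ v : E ⊕ (Σ i, Fin (K i)) → ℂ,
        trd K (fun p => v (Sum.inl p)) (toArc K fun s => v (Sum.inr s)) = v := trd_toArc K
    refine P.rat.map _ _ φ hS'.2 hS.2 ⟨?_, ?_, ?_⟩
    · intro v hv
      have hv' : ((fun p => v (Sum.inl p)), toArc K' fun s => v (Sum.inr s)) ∈ S' := hv
      have e1 := h1 _ hv'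
      rw [hpt] at e1
      have e2 := h2 _ hv'
      refine (mem_trd hS ?_).1 e2
      rw [e1]
      exact (hpt2 (fun a => eval v (φ a))).symm
    · intro v hv v' hv' hvv
      have g : ((fun p => v (Sum.inl p)), toArc K' fun s => v (Sum.inr s)) ∈ S' := hv
      have g' : ((fun p => v' (Sum.inl p)), toArc K' fun s => v' (Sum.inr s)) ∈ S' := hv'
      have e1 := h1 _ g
      have e1' := h1 _ g'
      rw [hpt] at e1 e1'
      have e2 : (fun a => eval v (φ a)) = fun a => eval v' (φ a) := hvv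
      have e3 := h3 _ g _ g' (by rw [e1, e1', e2])
      rw [hpt, hpt] at e3
      exact e3
    · intro y hy
      have hy' : ((fun p => y (Sum.inl p)), toArc K fun s => y (Sum.inr s)) ∈ S := hy
      obtain ⟨z, hz, hz'⟩ := h4 _ hy'
      rw [hpt2] at hz'
      refine ⟨trd K' z.1 z.2, ?_, ?_⟩
      · refine (mem_trd hS' ?_).1 hz
        exact (hpt (trd K' z.1 z.2)).symm
      · change (fun a => eval (trd K' z.1 z.2) (φ a)) = y
        rw [← h1 z hz]
        exact hz'
  rw [key]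
  ring

end

end CV

end Pool.Agent.Mono.RO
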