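import Pool.Agent.Work.Monodromy6.CLV

/-!
# Block VRM: the arcs over a region with `G = 0` have volume zero
-/

set_option autoImplicit false

namespace Pool.Agent.Mono.PC

open MvPolynomial TS RO

namespace VRMAux

/-! ## Bounded sums -/

/-- `f` has the sum `S`, and the absolute values have sums `≤ C` -/
def HB (f : ℕ → ℝ) (S C : ℝ) : Prop := HasSum f S ∧ ∀ s : Finset ℕ, ∑ m ∈ s, |f m| ≤ C

theorem HB.nonneg {f : ℕ → ℝ} {S C : ℝ} (h : HB f S C) : 0 ≤ C := by
  have := h.2 ∅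
  simpa using this

theorem HB.congr {f g : ℕ → ℝ} {S S' C C' : ℝ} (h : HB f S C) (hf : ∀ m, g m = f m) (hS : S = S')
    (hC : C ≤ C') : HB g S' C' := by
  have e : g = f := funext hf
  subst e
  subst hS
  exact ⟨h.1, fun s => (h.2 s).trans hC⟩

theorem HB.add {f g : ℕ → ℝ} {S S' C C' : ℝ} (h : HB f S C) (h' : HB g S' C') :
    HB (fun m => f m + g m) (S + S') (C + C') := by
  refine ⟨h.1.add h'.1, fun s => ?_⟩
  calc ∑ m ∈ s, |f m + g m| ≤ ∑ m ∈ s, (|f m| + |g m|) :=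
        Finset.sum_le_sum fun m _ => abs_add_le _ _
    _ = ∑ m ∈ s, |f m| + ∑ m ∈ s, |g m| := Finset.sum_add_distrib
    _ ≤ C + C' := add_le_add (h.2 s) (h'.2 s)

theorem HB.smul {f : ℕ → ℝ} {S C : ℝ} (h : HB f S C) (c : ℝ) :
    HB (fun m => c * f m) (c * S) (|c| * C) := by
  refine ⟨h.1.mul_left c, fun s => ?_⟩
  have e : ∀ m ∈ s, |c * f m| = |c| * |f m| := fun m _ => abs_mul _ _
  rw [Finset.sum_congr rfl e, ← Finset.mul_sum]
  exact mul_le_mul_of_nonneg_left (h.2 s) (abs_nonneg c)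

theorem HB.single (a : ℕ) (v : ℝ) : HB (fun m => if m = a then v else 0) v |v| := by
  refine ⟨hasSum_ite_eq a v, fun s => ?_⟩
  have e : ∀ m ∈ s, |if m = a then v else 0| = if m = a then |v| else 0 := by
    intro m _
    split_ifs <;> simp
  rw [Finset.sum_congr rfl e, Finset.sum_ite_eq']
  split_ifs
  · exact le_refl _
  · exact abs_nonneg _

theorem HB.zero : HB (fun _ => 0) 0 0 := ⟨hasSum_zero, fun s => by simp⟩

theorem HB.sum {ι : Type} (F : Finset ι) (f : ι → ℕ → ℝ) (S C : ι → ℝ)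
    (h : ∀ i ∈ F, HB (f i) (S i) (C i)) :
    HB (fun m => ∑ i ∈ F, f i m) (∑ i ∈ F, S i) (∑ i ∈ F, C i) := by
  classical
  induction F using Finset.induction_on with
  | empty => simpa using HB.zero
  | insert a F ha ih =>
    have h1 := (h a (Finset.mem_insert_self _ _)).add
      (ih fun i hi => h i (Finset.mem_insert_of_mem hi))
    refine h1.congr (fun m => ?_) ?_ ?_
    · rw [Finset.sum_insert ha]
    · rw [Finset.sum_insert ha]
    · rw [Finset.sum_insert ha]

/-! ## One level -/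

section

variable (P : HodgeMeasure) (φ : K →+* ℝ)

/-- all levels of a region -/
def PK (G : P2) (p q : ℕ) : Prop :=
  ∃ C : ℝ, ∀ k : ℕ, 1 ≤ k → HB (fun m => φ (vN P G QF k (q * k / p + 1) m))
    (φ (RatFunc.X - 1) * φ xq ^ (q * k / p + 1)) C

variable {φ}

theorem phi_X (hφ : 1 < φ RatFunc.X) : φ xq * φ RatFunc.X = 1 ∧ 0 < φ xq ∧ φ xq < 1 := by
  have h1 : φ xq = (φ RatFunc.X)⁻¹ := by
    unfold xq
    rw [map_inv₀]
  have h0 : 0 < φ RatFunc.X := by linarith
  refine ⟨?_, ?_, ?_⟩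
  · rw [h1, inv_mul_cancel₀ h0.ne']
  · rw [h1]
    exact inv_pos.2 h0
  · rw [h1]
    exact inv_lt_one_of_one_lt₀ hφ

theorem pow_tel (hφ : 1 < φ RatFunc.X) (l : ℕ) :
    φ (xq ^ (l + 1) * (RatFunc.X - 1) ^ 2) =
      φ (RatFunc.X - 1) * (φ xq ^ l - φ xq ^ (l + 1)) := by
  obtain ⟨h1, _, _⟩ := phi_X hφ
  rw [map_mul, map_pow, map_pow, map_sub, map_one, pow_succ]
  linear_combination (φ xq ^ l * (φ RatFunc.X - 1)) * h1

theorem tel_nonneg (hφ : 1 < φ RatFunc.X) (l : ℕ) :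
    0 ≤ φ (RatFunc.X - 1) * (φ xq ^ l - φ xq ^ (l + 1)) := by
  obtain ⟨_, h2, h3⟩ := phi_X hφ
  apply mul_nonneg
  · rw [map_sub, map_one]
    linarith
  · rw [pow_succ]
    nlinarith [pow_pos h2 l]

theorem pk_fin0 (hφ : 1 < φ RatFunc.X) (hV : Stmt_VF0) (G : P2) (p q A : ℕ) (hp : 1 ≤ p)
    (hA : 1 ≤ A) (h1 : G.coeff (mon A 0) ≠ 0) (h2 : Low p q (p * A) G) : PK P φ G p q := by
  obtain ⟨_, hx0, hx1⟩ := phi_X hφ
  have hu : 0 ≤ φ (RatFunc.X - 1) := by
    rw [map_sub, map_one]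
    linarith
  refine ⟨φ (RatFunc.X - 1), fun k hk => ?_⟩
  refine (HB.single (A * k) (φ (RatFunc.X - 1) * φ xq ^ (q * k / p + 1))).congr (fun m => ?_) rfl ?_
  · rw [hV P G p q A hp hA h1 h2 Empty QF CLV.QU_QF k m hk, CLV.c1_QF P h1]
    split_ifs
    · rw [map_mul, map_pow, mul_comm]
    · rw [map_zero]
  · rw [abs_of_nonneg (mul_nonneg hu (pow_nonneg hx0.le _))]
    exact mul_le_of_le_one_right hu (pow_le_one₀ hx0.le hx1.le)

theorem pk_fin1 (hφ : 1 < φ RatFunc.X) (hV : Stmt_VF1) (g h : P2) (p q A₁ A₂ B : ℕ) (hp : 1 ≤ p)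
    (hB : 1 ≤ B) (g1 : g.coeff (mon A₁ 1) ≠ 0) (g2 : Low p q (p * A₁ + q) g)
    (g3 : ∀ d ∈ g.support, d 1 = 0 → p * A₁ + q < p * d 0)
    (h1 : h.coeff (mon A₂ 0) ≠ 0) (h2 : Low p q (p * A₂) h) : PK P φ (g ^ B * h) p q := by
  obtain ⟨hx, hx0, hx1⟩ := phi_X hφ
  have hu : 0 ≤ φ (RatFunc.X - 1) := by
    rw [map_sub, map_one]
    linarith
  refine ⟨φ (RatFunc.X - 1), fun k hk => ?_⟩
  set L := q * k / p with hL
  set f : ℕ → ℝ := fun m => φ (vN P (g ^ B * h) QF k (L + 1) m) with hf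
  set e : ℕ → ℕ := fun i => (B * A₁ + A₂) * k + B * (L + 1 + i) with he
  have hf' : ∀ m, f m = ∑ l ∈ Finset.Ioc L (L + m), if m = (B * A₁ + A₂) * k + B * l then
      φ (RatFunc.X - 1) * (φ xq ^ l - φ xq ^ (l + 1)) else 0 := by
    intro m
    rw [hf]
    change φ (vN P (g ^ B * h) QF k (L + 1) m) = _
    rw [hL, hV P g h p q A₁ A₂ B hp hB g1 g2 g3 h1 h2 Empty QF CLV.QU_QF k m hk, map_sum]
    refine Finset.sum_congr rfl fun l _ => ?_
    split_ifs
    · rw [CLV.c2_QF P (mul_ne_zero (pow_ne_zero _ g1) h1), pow_tel hφ]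
    · rw [map_zero]
  have hinj : Function.Injective e := by
    intro i j hij
    change (B * A₁ + A₂) * k + B * (L + 1 + i) = (B * A₁ + A₂) * k + B * (L + 1 + j) at hij
    have h3 := Nat.add_left_cancel hij
    have h4 := Nat.eq_of_mul_eq_mul_left hB h3
    omega
  have hfe : ∀ i, f (e i) = φ (RatFunc.X - 1) * (φ xq ^ (L + 1 + i) - φ xq ^ (L + 1 + i + 1)) := by
    intro i
    rw [hf', Finset.sum_eq_single (L + 1 + i)]
    · rw [if_pos rfl]
    · intro l _ hl
      rw [if_neg]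
      intro h3
      change (B * A₁ + A₂) * k + B * (L + 1 + i) = _ at h3
      have h4 := Nat.eq_of_mul_eq_mul_left hB (Nat.add_left_cancel h3)
      exact hl h4.symm
    · intro h3
      exfalso
      apply h3
      rw [Finset.mem_Ioc]
      have h4 : L + 1 + i ≤ e i := by
        change L + 1 + i ≤ (B * A₁ + A₂) * k + B * (L + 1 + i)
        exact (Nat.le_mul_of_pos_left _ hB).trans (Nat.le_add_left _ _)
      exact ⟨by rw [add_assoc]; exact Nat.lt_add_of_pos_right (by omega),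
        h4.trans (Nat.le_add_left _ _)⟩
  have hf0 : ∀ m, m ∉ Set.range e → f m = 0 := by
    intro m hm
    rw [hf']
    apply Finset.sum_eq_zero
    intro l hl
    rw [if_neg]
    intro h3
    apply hm
    rw [Finset.mem_Ioc] at hl
    refine ⟨l - (L + 1), ?_⟩
    change (B * A₁ + A₂) * k + B * (L + 1 + (l - (L + 1))) = m
    rw [Nat.add_sub_cancel' (by omega), h3]
  have hnn : ∀ m, 0 ≤ f m := by
    intro m
    by_cases hm : m ∈ Set.range e
    · obtain ⟨i, rfl⟩ := hm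
      rw [hfe]
      exact tel_nonneg hφ _
    · rw [hf0 m hm]
  have hsum : HasSum f (φ (RatFunc.X - 1) * φ xq ^ (L + 1)) := by
    rw [← hinj.hasSum_iff hf0]
    have h3 := (hasSum_geometric_of_lt_one hx0.le hx1).mul_left
      (φ (RatFunc.X - 1) * φ xq ^ (L + 1) * (1 - φ xq))
    have h5 : (1 - φ xq) * (1 - φ xq)⁻¹ = 1 := mul_inv_cancel₀ (by linarith)
    have h4 : φ (RatFunc.X - 1) * φ xq ^ (L + 1) * (1 - φ xq) * (1 - φ xq)⁻¹ =
        φ (RatFunc.X - 1) * φ xq ^ (L + 1) := by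
      rw [mul_assoc, h5, mul_one]
    rw [h4] at h3
    refine h3.congr_fun ?_ |> fun h => h
    intro i
    change f (e i) = _
    rw [hfe, pow_succ (φ xq) (L + 1 + i), pow_add (φ xq) (L + 1) i]
    ring
  refine ⟨hsum, fun s => ?_⟩
  have e1 : ∀ m ∈ s, |f m| = f m := fun m _ => abs_of_nonneg (hnn m)
  rw [Finset.sum_congr rfl e1]
  refine (sum_le_hasSum s (fun m _ => hnn m) hsum).trans ?_
  exact mul_le_of_le_one_right hu (pow_le_one₀ hx0.le hx1.le)

/-- descent through the cone -/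
theorem pk_cone (hφ : 1 < φ RatFunc.X) (hV : Stmt_VCONE) (G : P2) (p q p' q' A B : ℕ)
    (hpq : q * p' < q' * p) (hp : 1 ≤ p) (h0 : G.coeff (mon A B) ≠ 0)
    (h1 : Low p q (p * A + q * B) G) (h2 : Low p' q' (p' * A + q' * B) G) (k : ℕ) (hk : 1 ≤ k)
    (l₁ : ℕ) (hl₁ : ∀ l < l₁, p' * l < q' * k) (C : ℝ)
    (hC : HB (fun m => φ (vN P G QF k l₁ m)) (φ (RatFunc.X - 1) * φ xq ^ l₁) C) (d : ℕ) :
    ∀ l, l + d = l₁ → q * k < p * l →
      HB (fun m => φ (vN P G QF k l m)) (φ (RatFunc.X - 1) * φ xq ^ l)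
        (C + φ (RatFunc.X - 1) * (φ xq ^ l - φ xq ^ l₁)) := by
  induction d with
  | zero =>
    intro l hl _
    rw [add_zero] at hl
    subst hl
    rw [sub_self, mul_zero, add_zero]
    exact hC
  | succ d ih =>
    intro l hl hlk
    have h3 : q * k < p * (l + 1) := by
      rw [mul_add]
      omega
    have h4 := ih (l + 1) (by omega) h3
    have h5 := HB.single (A * k + B * l) (φ (RatFunc.X - 1) * (φ xq ^ l - φ xq ^ (l + 1)))
    refine (h5.add h4).congr (fun m => ?_) ?_ ?_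
    · rw [hV P G p q p' q' A B hpq hp h0 h1 h2 Empty QF CLV.QU_QF k l m hk hlk
        (hl₁ l (by omega)), map_add, CLV.c2_QF P h0]
      split_ifs
      · rw [pow_tel hφ]
      · rw [map_zero]
    · ring
    · rw [abs_of_nonneg (tel_nonneg hφ l)]
      apply le_of_eq
      ring

theorem pk_step (hφ : 1 < φ RatFunc.X) (hC : Stmt_VCONE) (hR : Stmt_VRAY) (G : P2)
    (p q p' q' aL bR : ℕ) (I : Polynomial ℂ) (hp : 1 ≤ p) (hpq : q * p' < q' * p)
    (he : IsEdge G p' q' aL bR I) (h1 : Low p q (p * aL + q * (bR + p' * I.natDegree)) G)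
    (h3 : ∀ lam : ℂ, lam ≠ 0 → I.eval (lam ^ p') = 0 → PK P φ (chart p' q' lam G) 1 0)
    (h4 : PK P φ G p' q') : PK P φ G p q := by
  classical
  obtain ⟨hx, hx0, hx1⟩ := phi_X hφ
  have hu : 0 ≤ φ (RatFunc.X - 1) := by
    rw [map_sub, map_one]
    linarith
  have hp' := he.hp
  have hq' := he.hq
  have hI : I ≠ 0 := by
    intro h
    have := he.coeff_zero
    rw [h] at this
    simp at this
  have hlead : G.coeff (mon aL (bR + p' * I.natDegree)) ≠ 0 := by
    rw [CLV.edge_lead he]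
    exact Polynomial.leadingCoeff_ne_zero.2 hI
  have hlow : Low p' q' (p' * aL + q' * (bR + p' * I.natDegree)) G := CLV.edge_low he
  have hroot0 : ∀ R ∈ I.roots.toFinset, R ≠ 0 := by
    intro R hR h
    rw [h] at hR
    have h3 := Multiset.mem_toFinset.1 hR
    rw [Polynomial.mem_roots hI, Polynomial.IsRoot, ← Polynomial.coeff_zero_eq_eval_zero] at h3
    exact he.coeff_zero h3
  have hρ : ∀ R : ℂ, ∃ r : ℂ, r ^ p' = R := fun R => IsAlgClosed.exists_pow_nat_eq R hp'
  choose ρ hρ using hρ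
  have hch : ∀ R : ℂ, ∃ D : ℝ, R ∈ I.roots.toFinset → ∀ k : ℕ, 1 ≤ k →
      HB (fun m => φ (vN P (chart p' q' (ρ R) G) QF k 1 m)) (φ (RatFunc.X - 1) * φ xq) D := by
    intro R
    by_cases hRr : R ∈ I.roots.toFinset
    · have hr0 : ρ R ≠ 0 := by
        intro h
        have h5 := hρ R
        rw [h, zero_pow (by omega)] at h5
        exact hroot0 R hRr h5.symm
      have hr1 : I.eval (ρ R ^ p') = 0 := by
        rw [hρ]
        have := Multiset.mem_toFinset.1 hRr
        rwa [Polynomial.mem_roots hI] at this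
      obtain ⟨D, hD⟩ := h3 (ρ R) hr0 hr1
      refine ⟨D, fun _ k hk => ?_⟩
      have h5 := hD k hk
      simpa using h5
    · exact ⟨0, fun h => absurd h hRr⟩
  choose D hD using hch
  obtain ⟨C', hC'⟩ := h4
  have hC'0 : 0 ≤ C' := (hC' 1 le_rfl).nonneg
  have hD0 : 0 ≤ ∑ R ∈ I.roots.toFinset, D R :=
    Finset.sum_nonneg fun R hR => (hD R hR 1 le_rfl).nonneg
  set E : ℝ := |φ (c2 P (edgePart p' q' aL bR I) QF)| + ∑ R ∈ I.roots.toFinset, D R + C' with hE
  refine ⟨E + φ (RatFunc.X - 1), fun k hk => ?_⟩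
  -- the end of the cone
  obtain ⟨l₁, hl1, hl2, hl3⟩ : ∃ l₁, (∀ l < l₁, p' * l < q' * k) ∧ q' * k ≤ p' * l₁ ∧
      HB (fun m => φ (vN P G QF k l₁ m)) (φ (RatFunc.X - 1) * φ xq ^ l₁) E := by
    by_cases hd : p' ∣ k
    · obtain ⟨k', rfl⟩ := hd
      have hk' : 1 ≤ k' := by
        rcases Nat.eq_zero_or_pos k' with h | h
        · rw [h] at hk
          omega
        · exact h
      refine ⟨q' * k', ?_, ?_, ?_⟩
      · intro l hl
        have h5 := Nat.mul_lt_mul_of_pos_left hl hp'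
        calc p' * l < p' * (q' * k') := h5
          _ = q' * (p' * k') := by ring
      · apply le_of_eq
        ring
      · have e0 : q' * (p' * k') / p' + 1 = q' * k' + 1 := by
          have : q' * (p' * k') = p' * (q' * k') := by ring
          rw [this, Nat.mul_div_cancel_left _ hp']
        have h5 := hC' (p' * k') hk
        rw [e0] at h5
        have h6 : HB (fun m => ∑ R ∈ I.roots.toFinset,
            φ xq ^ (q' * k') * φ (vN P (chart p' q' (ρ R) G) QF k' 1 m))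
            (∑ R ∈ I.roots.toFinset, φ xq ^ (q' * k') * (φ (RatFunc.X - 1) * φ xq))
            (∑ R ∈ I.roots.toFinset, D R) := by
          refine HB.sum _ _ _ _ fun R hRr => ?_
          refine ((hD R hRr k' hk').smul (φ xq ^ (q' * k'))).congr (fun _ => rfl) rfl ?_
          rw [abs_of_nonneg (pow_nonneg hx0.le _)]
          exact mul_le_of_le_one_left (hD R hRr 1 le_rfl).nonneg (pow_le_one₀ hx0.le hx1.le)
        have h7 := HB.single (edgeN p' q' aL bR I * k')
          (φ (xq ^ (q' * k' + 1) * c2 P (edgePart p' q' aL bR I) QF))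
        refine ((h7.add h6).add h5).congr (fun m => ?_) ?_ ?_
        · rw [hR P G p' q' aL bR I ρ he hρ Empty QF CLV.QU_QF k' m hk', map_add, map_add, map_sum]
          congr 1
          congr 1
          · split_ifs
            · rfl
            · rw [map_zero]
          · refine Finset.sum_congr rfl fun R _ => ?_
            rw [map_mul, map_pow]
        · rw [CLV.c2_edge P hp' hq' he.cop aL bR he.coeff_zero, Finset.sum_const, nsmul_eq_mul]
          simp only [map_mul, map_pow, map_sub, map_one, map_natCast]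
          have e1 : φ xq ^ (q' * k' + 1) = φ xq ^ (q' * k') * φ xq := pow_succ _ _
          rw [e1]
          linear_combination (φ xq ^ (q' * k') * (φ RatFunc.X - 1)) * hx
        · rw [hE]
          have h8 : |φ (xq ^ (q' * k' + 1) * c2 P (edgePart p' q' aL bR I) QF)| ≤
              |φ (c2 P (edgePart p' q' aL bR I) QF)| := by
            rw [map_mul, map_pow, abs_mul, abs_of_nonneg (pow_nonneg hx0.le _)]
            exact mul_le_of_le_one_left (abs_nonneg _) (pow_le_one₀ hx0.le hx1.le)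
          linarith
    · refine ⟨q' * k / p' + 1, ?_, ?_, ?_⟩
      · intro l hl
        have h5 : p' * l ≤ q' * k := by
          rw [mul_comm]
          exact (Nat.le_div_iff_mul_le hp').1 (Nat.lt_succ_iff.1 hl)
        rcases h5.lt_or_eq with h6 | h6
        · exact h6
        · exfalso
          apply hd
          exact he.cop.dvd_of_dvd_mul_left (Dvd.intro l h6)
      · have h5 := Nat.lt_succ_iff.2 (Nat.le_refl (q' * k / p'))
        exact ((Nat.div_lt_iff_lt_mul hp').1 h5).le.trans (le_of_eq (mul_comm _ _))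
      · refine (hC' k hk).congr (fun _ => rfl) rfl ?_
        rw [hE]
        have := abs_nonneg (φ (c2 P (edgePart p' q' aL bR I) QF))
        linarith
  have hLk : q * k < p * (q * k / p + 1) := by
    have h5 := Nat.lt_succ_iff.2 (Nat.le_refl (q * k / p))
    exact lt_of_lt_of_eq ((Nat.div_lt_iff_lt_mul hp).1 h5) (mul_comm _ _)
  have hle : q * k / p + 1 ≤ l₁ := by
    have h5 : q * k < l₁ * p := by
      have h6 : p' * (q * k) < p' * (l₁ * p) := by
        calc p' * (q * k) = q * p' * k := by ring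
          _ < q' * p * k := Nat.mul_lt_mul_of_pos_right hpq hk
          _ = p * (q' * k) := by ring
          _ ≤ p * (p' * l₁) := Nat.mul_le_mul_left _ hl2
          _ = p' * (l₁ * p) := by ring
      exact lt_of_mul_lt_mul_left h6 (Nat.zero_le _)
    exact (Nat.div_lt_iff_lt_mul hp).2 h5
  obtain ⟨d, hd⟩ := Nat.exists_eq_add_of_le hle
  have h6 := pk_cone P hφ hC G p q p' q' aL (bR + p' * I.natDegree) hpq hp hlead h1 hlow k hk l₁ hl1
    E hl3 d (q * k / p + 1) hd.symm hLk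
  refine h6.congr (fun _ => rfl) rfl ?_
  have h7 : φ xq ^ (q * k / p + 1) - φ xq ^ l₁ ≤ 1 := by
    have h8 := pow_le_one₀ (n := q * k / p + 1) hx0.le hx1.le
    have h9 := pow_nonneg hx0.le l₁
    linarith
  have h8 := mul_le_mul_of_nonneg_left h7 hu
  linarith

/-- all regions -/
theorem pk_all (hφ : 1 < φ RatFunc.X) (h0 : Stmt_VF0) (h1 : Stmt_VF1) (hC : Stmt_VCONE)
    (hR : Stmt_VRAY) (hS : Stmt_VSH) (Λ : Set ℚ) (G : P2) (ν p q : ℕ)
    (o : Option (ℂ × ℕ × ℕ × ℕ × ℕ)) (h : RB Λ G ν p q o) : PK P φ G p q := by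
  induction h with
  | fin0 G ν p q A hp hA g1 g2 g3 => exact pk_fin0 P hφ h0 G p q A hp hA g1 g2
  | fin1 g h ν p q A₁ A₂ B hp hB g1 g2 g3 k1 k2 hN =>
    exact pk_fin1 P hφ h1 g h p q A₁ A₂ B hp hB g1 g2 g3 k1 k2
  | step G ν p q p' q' aL bR I hp hpq he k1 hN k2 _ _ ih3 ih4 =>
    exact pk_step P hφ hC hR G p q p' q' aL bR I hp hpq he k1 ih3 ih4
  | close G ν p q c A B p' q' _ _ ih => exact ih
  | coord G ν p q o ψ hψ h ih =>
    obtain ⟨C, hC'⟩ := ih
    refine ⟨C, fun k hk => ?_⟩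
    refine (hC' k hk).congr (fun m => ?_) rfl le_rfl
    rw [hS P G k (q * k / p + 1) ψ _ Empty QF CLV.QU_QF m]
    intro j hj
    have h5 := hψ j hj
    have hp : 0 < p := by
      rcases Nat.eq_zero_or_pos p with h6 | h6
      · rw [h6] at h5
        omega
      · exact h6
    rw [Nat.succ_le_iff, Nat.div_lt_iff_lt_mul hp]
    calc q * k < p * j * k := Nat.mul_lt_mul_of_pos_right h5 hk
      _ = k * j * p := by ring

end

end VRMAux

open VRMAux in
theorem stmt_VRM (h0 : Stmt_VF0) (h1 : Stmt_VF1) (hC : Stmt_VCONE) (hR : Stmt_VRAY)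
    (hS : Stmt_VSH) : Stmt_VRM := by
  intro P φ Λ G ν p q o hφ hν h
  obtain ⟨hx, hx0, hx1⟩ := phi_X hφ
  obtain ⟨C, hC'⟩ := pk_all P hφ h0 h1 hC hR hS Λ G ν p q o h
  have hC0 : 0 ≤ C := (hC' 1 le_rfl).nonneg
  set F : ℕ × ℕ → ℝ := fun z => φ (xq ^ (ν * (z.1 + 1)) *
    vN P G QF (z.1 + 1) (q * (z.1 + 1) / p + 1) z.2) with hF
  have hFz : ∀ k m, F (k, m) = φ xq ^ (ν * (k + 1)) *
      φ (vN P G QF (k + 1) (q * (k + 1) / p + 1) m) := by
    intro k m
    rw [hF, ← map_pow, ← map_mul]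
  have hpow : ∀ k : ℕ, φ xq ^ (ν * (k + 1)) ≤ φ xq ^ k := by
    intro k
    apply pow_le_pow_of_le_one hx0.le hx1.le
    calc k ≤ 1 * (k + 1) := by omega
      _ ≤ ν * (k + 1) := Nat.mul_le_mul_right _ hν
  have hsumF : Summable F := by
    apply Summable.of_abs
    refine summable_of_sum_le (c := (1 - φ xq)⁻¹ * C) (fun z => abs_nonneg _) fun u => ?_
    have h2 : u ⊆ u.image Prod.fst ×ˢ u.image Prod.snd := by
      intro z hz
      rw [Finset.mem_product]
      exact ⟨Finset.mem_image_of_mem _ hz, Finset.mem_image_of_mem _ hz⟩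
    calc ∑ z ∈ u, |F z| ≤ ∑ z ∈ u.image Prod.fst ×ˢ u.image Prod.snd, |F z| :=
          Finset.sum_le_sum_of_subset_of_nonneg h2 fun _ _ _ => abs_nonneg _
      _ = ∑ k ∈ u.image Prod.fst, ∑ m ∈ u.image Prod.snd, |F (k, m)| := Finset.sum_product _ _ _
      _ ≤ ∑ k ∈ u.image Prod.fst, φ xq ^ k * C := by
          refine Finset.sum_le_sum fun k _ => ?_
          have e1 : ∀ m ∈ u.image Prod.snd, |F (k, m)| = φ xq ^ (ν * (k + 1)) *
              |φ (vN P G QF (k + 1) (q * (k + 1) / p + 1) m)| := by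
            intro m _
            rw [hFz, abs_mul, abs_of_nonneg (pow_nonneg hx0.le _)]
          rw [Finset.sum_congr rfl e1, ← Finset.mul_sum]
          exact mul_le_mul (hpow k) ((hC' (k + 1) (by omega)).2 _)
            (Finset.sum_nonneg fun _ _ => abs_nonneg _) (pow_nonneg hx0.le _)
      _ = (∑ k ∈ u.image Prod.fst, φ xq ^ k) * C := by rw [Finset.sum_mul]
      _ ≤ (1 - φ xq)⁻¹ * C := by
          apply mul_le_mul_of_nonneg_right _ hC0
          exact sum_le_hasSum _ (fun _ _ => pow_nonneg hx0.le _)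
            (hasSum_geometric_of_lt_one hx0.le hx1)
  refine ⟨∑' z, F z, ?_, hsumF.hasSum⟩
  refine hsumF.hasSum.prod_fiberwise fun k => ?_
  have h3 := (hC' (k + 1) (by omega)).1.mul_left (φ xq ^ (ν * (k + 1)))
  have e2 : φ ((RatFunc.X - 1) * xq ^ (ν * (k + 1) + (q * (k + 1) / p + 1))) =
      φ xq ^ (ν * (k + 1)) * (φ (RatFunc.X - 1) * φ xq ^ (q * (k + 1) / p + 1)) := by
    rw [map_mul, map_pow, pow_add]
    ring
  have h4 : (fun c => F (k, c)) = fun m => φ xq ^ (ν * (k + 1)) *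
      φ (vN P G QF (k + 1) (q * (k + 1) / p + 1) m) := funext fun m => hFz k m
  rw [e2, h4]
  exact h3

end Pool.Agent.Mono.PC
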