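import Pool.Agent.Work.Monodromy.Statement6
import Pool.Agent.Work.Monodromy.Interface6V
import Pool.Agent.Work.Monodromy6.InterfaceSQ
import Pool.Agent.Work.Monodromy5.Final5

/-!
# Formulas over plane curves
-/

set_option linter.unusedSectionVars false
set_option linter.style.haveILetI false

namespace Pool.Agent.Mono.RO

open MvPolynomial TS TS.FAux

theorem sqAt_of {ι : Type} [Fintype ι] [DecidableEq ι] {f : MvPolynomial ι ℂ} {p : ι → ℂ}
    (h : IsSemiQuasiHomogeneousAt f p) : ∃ r, SQAt f p r := by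
  obtain ⟨φ, w, D, h1, h2, h3, h4, h5, h6⟩ := h
  exact ⟨_, w, D, φ, h1, h2, ⟨h3, h4, h5, h6⟩, rfl⟩

theorem formula_good (hAdm : TS.Stmt_Adm) (hA : Stmt_Adm5) (hSQ : Stmt_SQ6) (hPC : PC.Stmt_PC)
    {ι : Type} {f : MvPolynomial ι ℂ} (h : Formula ι f) :
    ∀ [Fintype ι] [DecidableEq ι], GoodA ι f := by
  classical
  induction h with
  | plane f h =>
      intro i3 d3
      have h1 : Fin.fintype 2 = i3 := Subsingleton.elim _ _
      have h2 : instDecidableEqFin 2 = d3 := Subsingleton.elim _ _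
      subst h1 h2
      exact GoodA.of (hPC f h)
  | @isolated ι i1 d1 f h hfin hsq =>
      intro i3 d3
      have h1 : i1 = i3 := Subsingleton.elim _ _
      have h2 : d1 = d3 := Subsingleton.elim _ _
      subst h1 h2
      exact GoodA.of (hSQ ι f h hfin fun p hp => sqAt_of (hsq p hp))
  | @arrangement ι κ i1 i2 a b c m f ha hf h =>
      intro i3 d3
      have h1 : i1 = i3 := Subsingleton.elim _ _
      subst h1
      obtain ⟨β, hβ⟩ := composite_adm hAdm (Composite.arrangement a b c m f ha hf h)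
      exact ⟨β, hA.1 ι _ hβ⟩
  | @add ι κ f g hf hg ihf ihg =>
      intro i3 d3
      have : Finite ι := Finite.of_injective (Sum.inl : ι → ι ⊕ κ) Sum.inl_injective
      have : Finite κ := Finite.of_injective (Sum.inr : κ → ι ⊕ κ) Sum.inr_injective
      let _ := Fintype.ofFinite ι
      let _ := Fintype.ofFinite κ
      obtain ⟨β, hβ⟩ := ihf
      obtain ⟨γ, hγ⟩ := ihg
      refine good_inst (instFintypeSum ι κ) i3 (fun a b => instDecidableEqSum a b) d3 _
        ⟨sumAut β γ, ?_⟩
      rw [map_add, sumAut_inl, sumAut_inr]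
      exact (hA.2.2.1 ι κ _ _ hβ hγ).1
  | @mul ι κ f g hf hg ihf ihg =>
      intro i3 d3
      have : Finite ι := Finite.of_injective (Sum.inl : ι → ι ⊕ κ) Sum.inl_injective
      have : Finite κ := Finite.of_injective (Sum.inr : κ → ι ⊕ κ) Sum.inr_injective
      let _ := Fintype.ofFinite ι
      let _ := Fintype.ofFinite κ
      obtain ⟨β, hβ⟩ := ihf
      obtain ⟨γ, hγ⟩ := ihg
      refine good_inst (instFintypeSum ι κ) i3 (fun a b => instDecidableEqSum a b) d3 _
        ⟨sumAut β γ, ?_⟩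
      rw [map_mul, sumAut_inl, sumAut_inr]
      exact (hA.2.2.1 ι κ _ _ hβ hγ).2
  | @comp ι f p hp hf ih =>
      intro i3 d3
      obtain ⟨β, hβ⟩ := ih
      refine ⟨β, ?_⟩
      have h1 : β (Polynomial.aeval f p) = Polynomial.aeval (β f) p :=
        (Polynomial.aeval_algHom_apply β.toAlgHom f p).symm
      rw [h1]
      exact hA.2.2.2.1 _ _ p hp hβ
  | @rename ι κ f φ hφ hf ih =>
      intro i3 d3
      have : Finite ι := Finite.of_injective φ hφ
      let _ := Fintype.ofFinite ι
      obtain ⟨β, hβ⟩ := ih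
      let e : ι ⊕ ((Set.range φ)ᶜ : Set κ) ≃ κ :=
        (Equiv.sumCongr (Equiv.ofInjective φ hφ) (Equiv.refl _)).trans
          (Equiv.Set.sumCompl (Set.range φ))
      have h3 : (e ∘ Sum.inl : ι → κ) = φ := by
        funext i
        simp [e]
      let δ : MvPolynomial κ ℂ ≃ₐ[ℂ] MvPolynomial κ ℂ :=
        ((renameEquiv ℂ e).symm.trans (sumAut β AlgEquiv.refl)).trans (renameEquiv ℂ e)
      refine ⟨δ, ?_⟩
      have h4 : δ (MvPolynomial.rename φ f) = MvPolynomial.rename φ (β f) := by
        have h5 : (MvPolynomial.rename φ f : MvPolynomial κ ℂ) =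
            renameEquiv ℂ e (MvPolynomial.rename Sum.inl f) := by
          rw [renameEquiv_apply, rename_rename, h3]
        show renameEquiv ℂ e (sumAut β AlgEquiv.refl ((renameEquiv ℂ e).symm
          (MvPolynomial.rename φ f))) = _
        rw [h5, AlgEquiv.symm_apply_apply, sumAut_inl, renameEquiv_apply, rename_rename, h3]
      rw [h4]
      exact hA.2.2.2.2 ι κ _ φ hφ hβ
  | automorphism α hf ih =>
      intro i3 d3
      obtain ⟨β, hβ⟩ := ih
      refine ⟨α.symm.trans β, ?_⟩
      rw [AlgEquiv.trans_apply, AlgEquiv.symm_apply_apply]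
      exact hβ

/-- the monodromy conjecture for formulas over plane curves -/
theorem formula_top (hAdm : TS.Stmt_Adm) (hA : Stmt_Adm5) (hSQ : Stmt_SQ6) (hPC : PC.Stmt_PC)
    (hM : Stmt_TM5) {ι : Type} [Fintype ι] {f : MvPolynomial ι ℂ} (h : Formula ι f)
    (P : HodgeMeasure) (R : RatFunc ℚ) (hR : IsTopologicalZeta P f R) : GoodPoles f R := by
  classical
  exact good_goodA hM (formula_good hAdm hA hSQ hPC h) P 1 le_rfl R
    ((isTopologicalZeta_iff P f R).1 hR)

/-- the monodromy conjecture for formulas over plane curves, twisted -/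
theorem formula_tw (hAdm : TS.Stmt_Adm) (hA : Stmt_Adm5) (hSQ : Stmt_SQ6) (hPC : PC.Stmt_PC)
    (hM : Stmt_TM5) {ι : Type} [Fintype ι] {f : MvPolynomial ι ℂ} (h : Formula ι f)
    (P : HodgeMeasure) (e : ℕ) (he : 1 ≤ e) (R : RatFunc ℚ) (hR : IsTwTopZeta P f e R) :
    GoodPoles f R := by
  classical
  exact good_twisted f P (fun d hd R hR =>
    good_goodA hM (formula_good hAdm hA hSQ hPC h) P d hd R hR) e he R hR

end Pool.Agent.Mono.RO
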