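import Pool.Agent.Work.Monodromy6.K6A

/-!
# Block K6, part B: systems of parameters are weakly regular in modules of large depth
-/

set_option autoImplicit false

namespace Pool.Agent.Mono.RO.K6Aux

open RingTheory.Sequence IsLocalRing Module Pointwise CategoryTheory Abelian

universe u

variable {R : Type u} [CommRing R] [IsNoetherianRing R] [IsLocalRing R]

/-- (U): the length of a weakly regular sequence is at most the dimension of `R ⧸ P` for every
associated prime `P` -/
theorem le_dim_of_mem_ass : ∀ (rs : List R) (M : Type u) [AddCommGroup M] [Module R M]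
    [Module.Finite R M], (∀ r ∈ rs, r ∈ maximalIdeal R) → IsWeaklyRegular M rs →
      ∀ P ∈ associatedPrimes R M, (rs.length : WithBot ℕ∞) ≤ ringKrullDim (R ⧸ P)
  | [], M, _, _, _, _, _, P, hP => by
    have := hP.isPrime
    have : Nontrivial (R ⧸ P) := Ideal.Quotient.nontrivial_iff.2 this.ne_top
    simpa using ringKrullDim_nonneg_of_nontrivial (R := R ⧸ P)
  | y :: rs, M, _, _, _, hmem, hreg, P, hP => by
    have hPp : P.IsPrime := hP.isPrime
    rw [isWeaklyRegular_cons_iff] at hreg
    obtain ⟨hy, hrs⟩ := hreg
    obtain ⟨x, hx⟩ : ∃ x : M, P = (⊥ : Submodule R M).colon {x} :=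
      (isAssociatedPrime_iff.1 hP).2
    have hxP : ∀ p ∈ P, p • x = 0 := by
      intro p hp
      rw [hx, Submodule.mem_colon_singleton] at hp
      simpa using hp
    have hx0 : x ≠ 0 := by
      rintro rfl
      exact hPp.ne_top (by rw [hx]; ext; simp [Submodule.mem_colon_singleton])
    obtain ⟨x0, hx0P, hx0m⟩ : ∃ x0 : M, (∀ p ∈ P, p • x0 = 0) ∧
        Submodule.Quotient.mk (p := y • (⊤ : Submodule R M)) x0 ≠ 0 := by
      by_contra hcon
      push Not at hcon
      have hN : Submodule.torsionBySet R M (P : Set R) = ⊥ := by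
        refine Submodule.eq_bot_of_le_smul_of_le_jacobson_bot (Ideal.span {y}) _
          (IsNoetherian.noetherian _) ?_ ?_
        · intro m hm
          have hm' : ∀ p ∈ P, p • m = 0 := by
            intro p hp
            rw [Submodule.mem_torsionBySet_iff] at hm
            exact hm ⟨p, hp⟩
          have h1 := hcon m hm'
          rw [Submodule.Quotient.mk_eq_zero, Submodule.mem_smul_pointwise_iff_exists] at h1
          obtain ⟨m', -, rfl⟩ := h1
          refine Submodule.smul_mem_smul (Ideal.mem_span_singleton_self y) ?_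
          rw [Submodule.mem_torsionBySet_iff]
          intro p
          have h2 : y • ((p : R) • m') = 0 := by
            rw [smul_comm]
            exact hm' p p.2
          exact hy.right_eq_zero_of_smul h2
        · rw [Ideal.span_singleton_le_iff_mem, jacobson_eq_maximalIdeal ⊥ bot_ne_top]
          exact hmem y (by simp)
      have : x ∈ Submodule.torsionBySet R M (P : Set R) := by
        rw [Submodule.mem_torsionBySet_iff]
        exact fun p => hxP p p.2
      rw [hN] at this
      exact hx0 this
    obtain ⟨Q, hQ, hle⟩ := exists_le_isAssociatedPrime_of_isNoetherianRing R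
      (Submodule.Quotient.mk (p := y • (⊤ : Submodule R M)) x0) hx0m
    have hPQ : P ≤ Q := by
      refine le_trans (fun p hp => ?_) hle
      rw [Submodule.mem_colon_singleton, ← Submodule.Quotient.mk_smul, hx0P p hp]
      simp
    have hyQ : y ∈ Q := by
      refine hle ?_
      rw [Submodule.mem_colon_singleton, ← Submodule.Quotient.mk_smul]
      simp only [Submodule.mem_bot]
      rw [Submodule.Quotient.mk_eq_zero]
      exact Submodule.smul_mem_pointwise_smul _ _ _ trivial
    have hyP : y ∉ P := by
      intro h
      have h1 := hy.right_eq_zero_of_smul (hx0P y h)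
      rw [h1] at hx0m
      exact hx0m rfl
    have ih := le_dim_of_mem_ass rs (QuotSMulTop y M) (fun r hr => hmem r (by simp [hr])) hrs Q hQ
    have h2 : ringKrullDim (R ⧸ Q) + 1 ≤ ringKrullDim (R ⧸ P) := by
      refine ringKrullDim_succ_le_of_surjective (Ideal.Quotient.factor hPQ)
        (Ideal.Quotient.factor_surjective hPQ) (r := Ideal.Quotient.mk P y) ?_ ?_
      · rw [mem_nonZeroDivisors_iff_ne_zero]
        intro h
        exact hyP (Ideal.Quotient.eq_zero_iff_mem.1 h)
      · rw [Ideal.Quotient.factor_mk]
        exact Ideal.Quotient.eq_zero_iff_mem.2 hyQ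
    refine le_trans ?_ h2
    rw [List.length_cons, Nat.cast_add, Nat.cast_one]
    gcongr

/-- dividing by a list of elements of the maximal ideal lowers the dimension at most by the
length -/
theorem dim_le : ∀ (zs : List R) (M : Type u) [AddCommGroup M] [Module R M]
    [Module.Finite R M], (∀ z ∈ zs, z ∈ maximalIdeal R) →
      supportDim R M ≤ supportDim R (M ⧸ (Ideal.ofList zs • ⊤ : Submodule R M)) + zs.length
  | [], M, _, _, _, _ => by
    rw [Ideal.ofList_nil, Submodule.bot_smul]
    simpa using (supportDim_eq_of_equiv (Submodule.quotEquivOfEqBot ⊥ rfl)).symm.le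
  | z :: zs, M, _, _, _, h => by
    have h1 := supportDim_le_supportDim_quotSMulTop_succ (M := M) (h z (by simp))
    have h2 := dim_le zs (QuotSMulTop z M) (fun r hr => h r (by simp [hr]))
    rw [supportDim_eq_of_equiv (Submodule.quotOfListConsSMulTopEquivQuotSMulTopInner M z zs)]
    refine h1.trans ?_
    rw [List.length_cons, Nat.cast_add, Nat.cast_one, ← add_assoc]
    gcongr

omit [IsNoetherianRing R] [IsLocalRing R] in
theorem supportDim_mono {M N : Type u} [AddCommGroup M] [Module R M] [AddCommGroup N] [Module R N]
    (h : support R M ⊆ support R N) : supportDim R M ≤ supportDim R N :=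
  Order.krullDim_le_of_strictMono (fun x => ⟨x.1, h x.2⟩) fun _ _ hab => hab

/-- (T) -/
theorem weaklyRegular_of_dim : ∀ (n : ℕ) (M : Type u) [AddCommGroup M] [Module R M]
    [Module.Finite R M] [Nontrivial M],
    (∃ rs : List R, rs.length = n ∧ (∀ r ∈ rs, r ∈ maximalIdeal R) ∧ IsRegular M rs) →
    ∀ zs : List R, zs.length = n → (∀ z ∈ zs, z ∈ maximalIdeal R) →
      supportDim R (M ⧸ (Ideal.ofList zs • ⊤ : Submodule R M)) ≤ 0 → IsWeaklyRegular M zs
  | 0, M, _, _, _, _, _, zs, hzs, _, _ => by
    rw [List.length_eq_zero_iff] at hzs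
    subst hzs
    exact IsWeaklyRegular.nil R M
  | n + 1, M, _, _, _, _, ⟨rs, hlen, hrm, hrs⟩, [], hzs, _, _ => by simp at hzs
  | n + 1, M, _, _, _, _, ⟨rs, hlen, hrm, hrs⟩, z :: zs, hzs, hz, hdim => by
    have hzm : z ∈ maximalIdeal R := hz z (by simp)
    have hzs' : zs.length = n := by simpa using hzs
    have hdim' : supportDim R (QuotSMulTop z M ⧸
        (Ideal.ofList zs • ⊤ : Submodule R (QuotSMulTop z M))) ≤ 0 := by
      rwa [supportDim_eq_of_equiv
        (Submodule.quotOfListConsSMulTopEquivQuotSMulTopInner M z zs)] at hdim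
    have h1 : supportDim R (QuotSMulTop z M) ≤ n := by
      refine (dim_le zs (QuotSMulTop z M) (fun r hr => hz r (by simp [hr]))).trans ?_
      rw [hzs']
      calc _ ≤ (0 : WithBot ℕ∞) + n := by gcongr
        _ = n := zero_add _
    have hzreg : IsSMulRegular M z := by
      by_contra hcon
      have h2 : z ∈ ({r : R | IsSMulRegular M r}ᶜ : Set R) := hcon
      rw [← biUnion_associatedPrimes_eq_compl_regular R M] at h2
      simp only [Set.mem_iUnion] at h2
      obtain ⟨P, hP, hzP⟩ := h2
      have hPp : P.IsPrime := hP.isPrime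
      have h3 := le_dim_of_mem_ass rs M hrm hrs.toIsWeaklyRegular P hP
      have h4 : ringKrullDim (R ⧸ P) ≤ supportDim R (QuotSMulTop z M) := by
        rw [← supportDim_quotient_eq_ringKrullDim]
        apply supportDim_mono
        intro Q hQ
        rw [Module.support_eq_zeroLocus, Ideal.annihilator_quotient] at hQ
        rw [support_quotSMulTop]
        refine ⟨?_, ?_⟩
        · have h5 : (⟨P, hPp⟩ : PrimeSpectrum R) ∈ support R M := by
            rw [mem_support_iff_of_finite]
            have h6 := hP.annihilator_le
            rwa [Submodule.annihilator_top] at h6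
          exact mem_support_mono (p := ⟨P, hPp⟩) hQ h5
        · intro a ha
          rw [Set.mem_singleton_iff] at ha
          subst ha
          exact hQ hzP
      rw [hlen] at h3
      have h5 : ((n + 1 : ℕ) : WithBot ℕ∞) ≤ n := h3.trans (h4.trans h1)
      have h6 : n + 1 ≤ n := by exact_mod_cast h5
      omega
    have hnt : Nontrivial (QuotSMulTop z M) := nontrivial_quotSMulTop_of_mem_maximalIdeal M hzm
    have hlt : ∀ (L : Type u) [AddCommGroup L] [Module R L] [Module.Finite R L] [Nontrivial L],
        maximalIdeal R • (⊤ : Submodule R L) < ⊤ := by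
      intro L _ _ _ _
      refine lt_top_iff_ne_top.2 (Ne.symm ?_)
      exact Submodule.top_ne_ideal_smul_of_le_jacobson_annihilator
        ((maximalIdeal_le_jacobson _))
    have hdep : ∃ rs' : List R, rs'.length = n ∧ (∀ r ∈ rs', r ∈ maximalIdeal R) ∧
        IsRegular (QuotSMulTop z M) rs' := by
      have hsupp : Module.support R (ModuleCat.of R (R ⧸ maximalIdeal R)) =
          PrimeSpectrum.zeroLocus (maximalIdeal R) := by
        rw [Module.support_eq_zeroLocus, Ideal.annihilator_quotient]
      have hE := ModuleCat.subsingleton_ext_of_exists_isRegular (maximalIdeal R)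
        (ModuleCat.of R (R ⧸ maximalIdeal R)) hsupp.subset (ModuleCat.of R M) (hlt M) rs hrm hrs
      rw [hlen] at hE
      refine ModuleCat.exists_isRegular_of_exists_subsingleton_ext (maximalIdeal R) n
        (ModuleCat.of R (QuotSMulTop z M)) (hlt _) (ModuleCat.of R (R ⧸ maximalIdeal R)) hsupp ?_
      intro i hi
      have zero1 := AddCommGrpCat.isZero_of_iff_subsingleton.mpr (hE i (by omega))
      have zero2 := AddCommGrpCat.isZero_of_iff_subsingleton.mpr (hE (i + 1) (by omega))
      exact AddCommGrpCat.subsingleton_of_isZero <| ShortComplex.Exact.isZero_of_both_zeros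
        ((Ext.covariant_sequence_exact₃' (ModuleCat.of R (R ⧸ maximalIdeal R))
          (IsSMulRegular.smulShortComplex_shortExact (M := ModuleCat.of R M) hzreg)) i (i + 1) rfl)
        (zero1.eq_zero_of_src _) (zero2.eq_zero_of_tgt _)
    exact IsWeaklyRegular.cons hzreg (weaklyRegular_of_dim n (QuotSMulTop z M) hdep zs hzs'
      (fun r hr => hz r (by simp [hr])) hdim')

end Pool.Agent.Mono.RO.K6Aux
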