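import Pool.Agent.Work.Monodromy6.InterfaceSQ
import Pool.Agent.Work.Monodromy6.K6B

/-!
# Block K6: first syzygies of a system of parameters are Koszul
-/

set_option autoImplicit false

namespace Pool.Agent.Mono.RO.K6Aux

open RingTheory.Sequence IsLocalRing Module Pointwise MvPolynomial

theorem ofList_take {R : Type*} [CommRing R] {n : ℕ} (z : Fin n → R) (i : Fin n) :
    (Ideal.ofList ((List.ofFn z).take i) • ⊤ : Submodule R R) =
      Ideal.span (z '' {j | j < i}) := by
  rw [smul_eq_mul, Ideal.mul_top]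
  unfold Ideal.ofList
  congr 1
  ext x
  simp only [Set.mem_ofPred_eq, Set.mem_image]
  rw [List.mem_take_iff_getElem]
  constructor
  · rintro ⟨j, hj, rfl⟩
    simp only [List.length_ofFn] at hj
    refine ⟨⟨j, by omega⟩, ?_, by simp⟩
    show j < i.1
    omega
  · rintro ⟨j, hj, rfl⟩
    have : j.1 < i.1 := hj
    refine ⟨j.1, by simp; omega, by simp⟩

theorem list_of_reg0 {R : Type*} [CommRing R] {n : ℕ} (z : Fin n → R) (h : Reg0 z) :
    IsWeaklyRegular R (List.ofFn z) := by
  refine ⟨fun i hi => ?_⟩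
  simp only [List.length_ofFn] at hi
  rw [isSMulRegular_quotient_iff_mem_of_smul_mem, ofList_take z ⟨i, hi⟩]
  intro g hg
  refine h ⟨i, hi⟩ g ?_
  simpa [mul_comm] using hg

section

variable {ι : Type} [Fintype ι] [DecidableEq ι]

omit [Fintype ι] [DecidableEq ι] in
/-- the variables are a weakly regular sequence -/
theorem reg0_X {n : ℕ} (e : Fin n ≃ ι) :
    Reg0 fun i : Fin n => (X (e i) : MvPolynomial ι ℂ) := by
  intro i g hg
  have himg : (fun i : Fin n => (X (e i) : MvPolynomial ι ℂ)) '' {j | j < i} =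
      X '' (e '' {j | j < i}) := by
    rw [Set.image_image]
  rw [himg, mem_ideal_span_X_image] at hg ⊢
  intro m hm
  obtain ⟨a, ha, hma⟩ := hg (m + Finsupp.single (e i) 1) (by
    rw [MvPolynomial.mem_support_iff] at hm ⊢
    show coeff _ (g * X (e i)) ≠ 0
    rwa [coeff_mul_X])
  refine ⟨a, ha, ?_⟩
  obtain ⟨j, hj, rfl⟩ := ha
  have hji : e i ≠ e j := by
    intro h
    have hj' : j < i := hj
    rw [e.injective h] at hj'
    exact lt_irrefl _ hj'
  rwa [Finsupp.add_apply, Finsupp.single_eq_of_ne hji.symm, add_zero] at hma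

variable (ι) in
/-- the ideal of the origin -/
noncomputable def m0 : Ideal (MvPolynomial ι ℂ) := RingHom.ker (eval fun _ : ι => (0 : ℂ))

instance : (m0 ι).IsPrime := RingHom.ker_isPrime _

omit [Fintype ι] [DecidableEq ι] in
theorem mem_m0 (f : MvPolynomial ι ℂ) : f ∈ m0 ι ↔ eval (fun _ => (0 : ℂ)) f = 0 :=
  RingHom.mem_ker

theorem m0_le {Q : Ideal (MvPolynomial ι ℂ)} (h : ∀ a, X a ∈ Q) : m0 ι ≤ Q := by
  intro f hf
  rw [mem_m0] at hf
  have h1 : f ∈ Ideal.span (X '' (Set.univ : Set ι) : Set (MvPolynomial ι ℂ)) := by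
    rw [mem_ideal_span_X_image]
    intro m hm
    by_contra hcon
    push Not at hcon
    have hm0 : m = 0 := Finsupp.ext fun a => hcon a trivial
    rw [MvPolynomial.mem_support_iff, hm0] at hm
    apply hm
    rw [← hf, MvPolynomial.eval_zero', constantCoeff_eq]
  refine Ideal.span_le.2 ?_ h1
  rintro _ ⟨a, -, rfl⟩
  exact h a

omit [DecidableEq ι] in
/-- primes containing all `F a` contain the variables -/
theorem X_mem (F : ι → MvPolynomial ι ℂ) (hF : ∀ x : ι → ℂ, (∀ a, eval x (F a) = 0) ↔ x = 0)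
    {Q : Ideal (MvPolynomial ι ℂ)} (hQ : Q.IsPrime) (h : ∀ a, F a ∈ Q) (a : ι) : X a ∈ Q := by
  have h1 : (X a : MvPolynomial ι ℂ) ∈ (Ideal.span (Set.range F)).radical := by
    rw [← MvPolynomial.vanishingIdeal_zeroLocus_eq_radical (K := ℂ)]
    rw [MvPolynomial.mem_vanishingIdeal_iff]
    intro x hx
    rw [MvPolynomial.mem_zeroLocus_iff] at hx
    have hx0 : x = 0 := (hF x).1 fun b => by
      have := hx (F b) (Ideal.subset_span ⟨b, rfl⟩)
      simpa [MvPolynomial.aeval_eq_eval] using this
    simp [hx0]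
  have h2 : Ideal.span (Set.range F) ≤ Q := by
    rw [Ideal.span_le]
    rintro _ ⟨b, rfl⟩
    exact h b
  exact (Ideal.IsPrime.radical_le_iff hQ).2 h2 h1

end

end Pool.Agent.Mono.RO.K6Aux

namespace Pool.Agent.Mono.RO

open RingTheory.Sequence IsLocalRing Module Pointwise MvPolynomial K6Aux

theorem stmt_K6 : Stmt_K6 := by
  intro ι _ _ F hF g hg
  classical
  let S := Localization.AtPrime (m0 ι)
  obtain ⟨n, ⟨e'⟩⟩ := Finite.exists_equiv_fin ι
  let e : Fin n ≃ ι := e'.symm
  have hinj : Function.Injective (algebraMap (MvPolynomial ι ℂ) S) :=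
    IsLocalization.injective S (Ideal.primeCompl_le_nonZeroDivisors (m0 ι))
  have hF0 : ∀ a, F a ∈ m0 ι := by
    intro a
    rw [mem_m0]
    exact (hF _).2 rfl a
  have hreg : IsWeaklyRegular S (List.ofFn fun i : Fin n => algebraMap (MvPolynomial ι ℂ) S
      (F (e i))) := by
    refine weaklyRegular_of_dim n S ?_ _ (by simp) ?_ ?_
    · refine ⟨(List.ofFn fun i : Fin n => (X (e i) : MvPolynomial ι ℂ)).map
        (algebraMap (MvPolynomial ι ℂ) S), by simp, ?_, ?_⟩
      · intro r hr
        simp only [List.mem_map, List.mem_ofFn] at hr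
        obtain ⟨_, ⟨i, rfl⟩, rfl⟩ := hr
        rw [IsLocalization.AtPrime.to_map_mem_maximal_iff S (m0 ι), mem_m0]
        simp
      · refine IsWeaklyRegular.isRegular_of_isLocalization_of_mem S (m0 ι)
          (list_of_reg0 _ (reg0_X e)) ?_
        intro r hr
        simp only [List.mem_ofFn] at hr
        obtain ⟨i, rfl⟩ := hr
        rw [mem_m0]
        simp
    · intro z hz
      simp only [List.mem_ofFn] at hz
      obtain ⟨i, rfl⟩ := hz
      rw [IsLocalization.AtPrime.to_map_mem_maximal_iff S (m0 ι)]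
      exact hF0 _
    · have h0 : supportDim S (S ⧸ maximalIdeal S) = 0 := by
        rw [supportDim_quotient_eq_ringKrullDim]
        let := Ideal.Quotient.field (maximalIdeal S)
        exact ringKrullDim_eq_zero_of_field _
      rw [← h0]
      apply supportDim_mono
      intro Q hQ
      rw [smul_eq_mul, Ideal.mul_top, Module.support_eq_zeroLocus, Ideal.annihilator_quotient] at hQ
      rw [Module.support_eq_zeroLocus, Ideal.annihilator_quotient]
      have hQF : ∀ a, F a ∈ Q.asIdeal.comap (algebraMap (MvPolynomial ι ℂ) S) := by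
        intro a
        rw [Ideal.mem_comap]
        refine hQ (Ideal.subset_span ?_)
        simp only [Set.mem_ofPred_eq, List.mem_ofFn]
        exact ⟨e.symm a, by simp⟩
      have h1 : m0 ι ≤ Q.asIdeal.comap (algebraMap (MvPolynomial ι ℂ) S) :=
        m0_le fun a => X_mem F hF (Ideal.IsPrime.comap _) hQF a
      show (maximalIdeal S : Set S) ⊆ Q.asIdeal
      rw [← Localization.AtPrime.map_eq_maximalIdeal]
      exact Ideal.map_le_iff_le_comap.2 h1
  obtain ⟨A, hA, hgA⟩ := koszul n _ (reg0_of_list _ hreg)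
    (fun i => algebraMap (MvPolynomial ι ℂ) S (g (e i))) (by
      simp only [← map_mul, ← map_sum]
      rw [e.sum_comp fun a => g a * F a, hg, map_zero])
  obtain ⟨s, hs⟩ := IsLocalization.exist_integer_multiples_of_finite (m0 ι).primeCompl
    (fun p : Fin n × Fin n => A p.1 p.2)
  choose B hB using hs
  refine ⟨s, fun a b => B (e.symm a, e.symm b), ?_, ?_, ?_⟩
  · have := s.2
    rw [Ideal.mem_primeCompl_iff, mem_m0] at this
    exact this
  · intro a b
    apply hinj
    rw [map_neg, hB, hB]
    simp only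
    rw [hA, smul_neg]
  · intro a
    apply hinj
    rw [map_mul, map_sum]
    have h1 := hgA (e.symm a)
    simp only [Equiv.apply_symm_apply] at h1
    rw [h1, Finset.mul_sum, ← e.symm.sum_comp]
    refine Finset.sum_congr rfl fun b _ => ?_
    rw [map_mul, hB]
    simp only [Equiv.apply_symm_apply]
    rw [Algebra.smul_def]
    ring

end Pool.Agent.Mono.RO
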