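import Pool.Agent.Work.Monodromy6.InterfaceSQ

/-!
# Block WA of part SQ (helper63): from functionals to witnesses
-/

set_option autoImplicit false
set_option linter.unusedSectionVars false

namespace Pool.Agent.Mono.RO

open MvPolynomial TS

namespace WAAux

variable {ι : Type} [DecidableEq ι]

theorem pd_comm (i j : ι) (p : MvPolynomial ι ℂ) :
    pderiv i (pderiv j p) = pderiv j (pderiv i p) := by
  ext m
  rw [coeff_pderiv, coeff_pderiv, coeff_pderiv, coeff_pderiv]
  by_cases hij : i = j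
  · subst hij
    rfl
  · rw [add_right_comm m (Finsupp.single i 1) (Finsupp.single j 1)]
    simp only [Finsupp.add_apply, Finsupp.single_apply, if_neg hij, if_neg (Ne.symm hij), add_zero]
    ring

/-- the multiplication by a polynomial on the dual -/
noncomputable def dX' (p : MvPolynomial ι ℂ) : Module.End ℂ (MvPolynomial ι ℂ →ₗ[ℂ] ℂ) where
  toFun ψ := ψ.comp (LinearMap.mulLeft ℂ p)
  map_add' _ _ := rfl
  map_smul' _ _ := rfl

/-- minus the transpose of the derivative -/
noncomputable def dD' (i : ι) : Module.End ℂ (MvPolynomial ι ℂ →ₗ[ℂ] ℂ) where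
  toFun ψ := -ψ.comp ((pderiv i : Derivation ℂ (MvPolynomial ι ℂ) (MvPolynomial ι ℂ)) :
    MvPolynomial ι ℂ →ₗ[ℂ] MvPolynomial ι ℂ)
  map_add' a b := by
    refine LinearMap.ext fun φ => ?_
    change -(a (pderiv i φ) + b (pderiv i φ)) = -a (pderiv i φ) + -b (pderiv i φ)
    ring
  map_smul' c a := by
    refine LinearMap.ext fun φ => ?_
    change -(c * a (pderiv i φ)) = c * (-a (pderiv i φ))
    ring

theorem dX'_apply (p : MvPolynomial ι ℂ) (ψ : MvPolynomial ι ℂ →ₗ[ℂ] ℂ) (φ : MvPolynomial ι ℂ) :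
    dX' p ψ φ = ψ (p * φ) := rfl

theorem dD'_apply (i : ι) (ψ : MvPolynomial ι ℂ →ₗ[ℂ] ℂ) (φ : MvPolynomial ι ℂ) :
    dD' i ψ φ = -ψ (pderiv i φ) := rfl

/-- the dual of the polynomial ring -/
noncomputable def dualW (ι : Type) [DecidableEq ι] :
    BP.WMod ℂ (MvPolynomial ι ℂ →ₗ[ℂ] ℂ) ι where
  X' i := dX' (X i)
  D' i := dD' i
  XX i j := by
    refine LinearMap.ext fun ψ => LinearMap.ext fun φ => ?_
    rw [Module.End.mul_apply, Module.End.mul_apply, dX'_apply, dX'_apply, dX'_apply, dX'_apply]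
    congr 1
    ring
  DD i j := by
    refine LinearMap.ext fun ψ => LinearMap.ext fun φ => ?_
    rw [Module.End.mul_apply, Module.End.mul_apply, dD'_apply, dD'_apply, dD'_apply, dD'_apply,
      pd_comm i j]
  DX i j := by
    refine LinearMap.ext fun ψ => LinearMap.ext fun φ => ?_
    rw [LinearMap.add_apply, LinearMap.add_apply, Module.End.mul_apply, Module.End.mul_apply,
      dD'_apply, dX'_apply, dX'_apply, dD'_apply, Derivation.leibniz, map_add]
    simp only [smul_eq_mul]
    by_cases h : i = j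
    · subst h
      rw [if_pos rfl, pderiv_X_self, mul_one]
      change -ψ (X i * pderiv i φ) = -(ψ (X i * pderiv i φ) + ψ φ) + ψ φ
      ring
    · rw [if_neg h, pderiv_X_of_ne (Ne.symm h), mul_zero, map_zero, LinearMap.zero_apply,
        LinearMap.zero_apply, add_zero, add_zero]

theorem dualW_D (i : ι) (ψ : MvPolynomial ι ℂ →ₗ[ℂ] ℂ) (φ : MvPolynomial ι ℂ) :
    (dualW ι).D' i ψ φ = -ψ (pderiv i φ) := rfl

theorem dualW_pX (p : MvPolynomial ι ℂ) (ψ : MvPolynomial ι ℂ →ₗ[ℂ] ℂ) (φ : MvPolynomial ι ℂ) :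
    (dualW ι).pX p ψ φ = ψ (p * φ) := by
  induction p using MvPolynomial.induction_on generalizing ψ φ with
  | C a =>
    rw [← MvPolynomial.algebraMap_eq, AlgHom.commutes, ← Algebra.smul_def, map_smul]
    rfl
  | add p q hp hq =>
    rw [map_add, LinearMap.add_apply, LinearMap.add_apply, hp, hq, add_mul, map_add]
  | mul_X p i hp =>
    rw [map_mul, Module.End.mul_apply, hp, BP.WMod.pX_X]
    change ψ (X i * (p * φ)) = _
    congr 1
    ring

end WAAux

open WAAux

theorem stmt_WA : Stmt_WA := by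
  rintro ι _ _ p f β ⟨hf, hf', v, c, hc, h0, h1, h2⟩
  refine ⟨MvPolynomial ι ℂ →ₗ[ℂ] ℂ, inferInstance, inferInstance, dualW ι, v, ?_, ?_, ?_, ?_, ?_⟩
  · intro h
    have h3 := h0 1
    rw [h, map_one (eval p), mul_one, LinearMap.zero_apply] at h3
    exact hc h3.symm
  · refine LinearMap.ext fun φ => ?_
    rw [dualW_pX, h0, map_mul, hf]
    simp
  · intro a
    refine LinearMap.ext fun φ => ?_
    rw [dualW_pX, h0, map_mul, hf' a]
    simp
  · intro i a
    refine LinearMap.ext fun φ => ?_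
    rw [dualW_pX, dualW_D, h1]
  · intro i
    refine LinearMap.ext fun φ => ?_
    rw [dualW_pX, h2]
    rfl

end Pool.Agent.Mono.RO
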