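import Pool.Agent.Work.Monodromy6.InterfaceSQ
import Pool.Agent.Work.Monodromy6.WA

/-!
# Block WB of part SQ (helper63): change of coordinates for functionals
-/

set_option autoImplicit false
set_option linter.unusedSectionVars false

namespace Pool.Agent.Mono.RO

open MvPolynomial TS

namespace WBAux

/-! ## Derivatives of products and determinants -/

section

variable {A : Type} [CommRing A] [Algebra ℂ A] (D : Derivation ℂ A A)

theorem D_prod {ι : Type} [DecidableEq ι] (s : Finset ι) (f : ι → A) :
    D (∏ i ∈ s, f i) = ∑ j ∈ s, (∏ i ∈ s.erase j, f i) * D (f j) := by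
  induction s using Finset.induction_on with
  | empty => simp
  | insert a s ha ih =>
    rw [Finset.prod_insert ha, Derivation.leibniz, ih, Finset.sum_insert ha,
      Finset.erase_insert ha]
    simp only [smul_eq_mul]
    rw [add_comm, Finset.mul_sum]
    congr 1
    refine Finset.sum_congr rfl fun j hj => ?_
    have hja : j ≠ a := fun h => ha (h ▸ hj)
    rw [Finset.erase_insert_of_ne (Ne.symm hja), Finset.prod_insert (by
      simp only [Finset.mem_erase, not_and]
      exact fun _ => ha)]
    ring

/-- Jacobi's formula -/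
theorem D_det {ι : Type} [Fintype ι] [DecidableEq ι] (M : Matrix ι ι A) :
    D M.det = ∑ j, ∑ a, M.adjugate j a * D (M a j) := by
  have h1 : ∀ j, ∑ a, M.adjugate j a * D (M a j) =
      ∑ σ : Equiv.Perm ι, Equiv.Perm.sign σ •
        ((∏ i ∈ Finset.univ.erase j, M (σ i) i) * D (M (σ j) j)) := by
    intro j
    have h2 : ∑ a, M.adjugate j a * D (M a j) = M.cramer (fun a => D (M a j)) j := by
      rw [Matrix.cramer_eq_adjugate_mulVec]
      rfl
    rw [h2, Matrix.cramer_apply, Matrix.det_apply]
    refine Finset.sum_congr rfl fun σ _ => ?_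
    congr 1
    rw [← Finset.prod_erase_mul _ _ (Finset.mem_univ j)]
    congr 1
    · refine Finset.prod_congr rfl fun i hi => ?_
      rw [Matrix.updateCol_ne (Finset.ne_of_mem_erase hi)]
    · rw [Matrix.updateCol_self]
  simp only [h1]
  rw [Finset.sum_comm, Matrix.det_apply, map_sum]
  refine Finset.sum_congr rfl fun σ _ => ?_
  rw [← Finset.smul_sum, ← D_prod]
  rcases Int.units_eq_one_or (Equiv.Perm.sign σ) with h | h
  · rw [h, one_smul, one_smul]
  · rw [h]
    simp

end

section

variable {ι : Type} [Fintype ι] [DecidableEq ι] (φ : ι → MvPolynomial ι ℂ)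

/-- the Jacobian matrix -/
noncomputable def jac : Matrix ι ι (MvPolynomial ι ℂ) := Matrix.of fun a b => pderiv b (φ a)

theorem chain (g : MvPolynomial ι ℂ) (b : ι) :
    pderiv b (bind₁ φ g) = ∑ a, bind₁ φ (pderiv a g) * pderiv b (φ a) := by
  induction g using MvPolynomial.induction_on with
  | C c => simp
  | add p q hp hq =>
    rw [map_add, map_add, hp, hq, ← Finset.sum_add_distrib]
    refine Finset.sum_congr rfl fun a _ => ?_
    rw [map_add, map_add, add_mul]
  | mul_X p i hp =>
    rw [map_mul, bind₁_X_right, Derivation.leibniz, hp]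
    have h1 : ∀ a, bind₁ φ (pderiv a (p * X i)) * pderiv b (φ a) =
        (if a = i then bind₁ φ p * pderiv b (φ a) else 0) +
          φ i * (bind₁ φ (pderiv a p) * pderiv b (φ a)) := by
      intro a
      rw [Derivation.leibniz]
      by_cases h : a = i
      · subst h
        rw [pderiv_X_self, if_pos rfl, map_add]
        simp only [smul_eq_mul, map_mul, bind₁_X_right, mul_one]
        ring
      · rw [pderiv_X_of_ne (Ne.symm h), if_neg h, map_add]
        simp only [smul_eq_mul, map_mul, bind₁_X_right, mul_zero, map_zero]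
        ring
    simp only [h1]
    rw [Finset.sum_add_distrib, Finset.sum_ite_eq' Finset.univ i, if_pos (Finset.mem_univ _),
      ← Finset.mul_sum]
    simp only [smul_eq_mul]

/-- the Piola identity -/
theorem piola (hJ : (jac φ).det ≠ 0) (a : ι) : ∑ b, pderiv b ((jac φ).adjugate b a) = 0 := by
  set M := jac φ with hM
  have key : Matrix.vecMul (fun a => ∑ b, pderiv b (M.adjugate b a)) M = 0 := by
    funext c
    have h1 : ∀ b, ∑ a, M.adjugate b a * M a c = if b = c then M.det else 0 := by
      intro b
      have h2 := congrFun (congrFun M.adjugate_mul b) c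
      rw [Matrix.mul_apply] at h2
      rw [h2, Matrix.smul_apply, Matrix.one_apply]
      split_ifs <;> simp
    have h3 : ∑ b, pderiv b (∑ a, M.adjugate b a * M a c) = pderiv c M.det := by
      simp only [h1]
      have h4 : ∀ b, pderiv b (if b = c then M.det else 0) =
          if b = c then pderiv b M.det else 0 := by
        intro b
        split_ifs
        · rfl
        · exact map_zero _
      simp only [h4]
      rw [Finset.sum_ite_eq' Finset.univ c, if_pos (Finset.mem_univ _)]
    have h5 := D_det (pderiv c : Derivation ℂ (MvPolynomial ι ℂ) (MvPolynomial ι ℂ)) M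
    have h6 : ∀ b a, pderiv b (M a c) = pderiv c (M a b) := by
      intro b a
      exact WAAux.pd_comm b c (φ a)
    have h7 : ∑ b, pderiv b (∑ a, M.adjugate b a * M a c) =
        (∑ b, ∑ a, M.adjugate b a * pderiv c (M a b)) +
          ∑ b, ∑ a, pderiv b (M.adjugate b a) * M a c := by
      rw [← Finset.sum_add_distrib]
      refine Finset.sum_congr rfl fun b _ => ?_
      rw [map_sum, ← Finset.sum_add_distrib]
      refine Finset.sum_congr rfl fun a _ => ?_
      rw [Derivation.leibniz, h6 b a]
      simp only [smul_eq_mul]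
      ring
    rw [h3, ← h5] at h7
    have h8 : ∑ b, ∑ a, pderiv b (M.adjugate b a) * M a c = 0 := by
      have := h7
      exact (left_eq_add.1 this)
    rw [Pi.zero_apply, ← h8, Finset.sum_comm]
    change ∑ a, (∑ b, pderiv b (M.adjugate b a)) * M a c = _
    refine Finset.sum_congr rfl fun a _ => ?_
    rw [Finset.sum_mul]
  have h9 := Matrix.eq_zero_of_vecMul_eq_zero hJ key
  exact congrFun h9 a

/-- the determinant times a pulled back derivative -/
theorem det_bind (g : MvPolynomial ι ℂ) (a : ι) :
    (jac φ).det * bind₁ φ (pderiv a g) =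
      ∑ b, pderiv b (bind₁ φ g) * (jac φ).adjugate b a := by
  have h1 : ∀ c, ∑ b, jac φ c b * (jac φ).adjugate b a = if c = a then (jac φ).det else 0 := by
    intro c
    have h2 := congrFun (congrFun (jac φ).mul_adjugate c) a
    rw [Matrix.mul_apply] at h2
    rw [h2, Matrix.smul_apply, Matrix.one_apply]
    split_ifs <;> simp
  simp only [chain φ g, Finset.sum_mul]
  rw [Finset.sum_comm]
  have h3 : ∀ c, ∑ b, bind₁ φ (pderiv c g) * pderiv b (φ c) * (jac φ).adjugate b a =
      if c = a then bind₁ φ (pderiv c g) * (jac φ).det else 0 := by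
    intro c
    have h4 : ∑ b, bind₁ φ (pderiv c g) * pderiv b (φ c) * (jac φ).adjugate b a =
        bind₁ φ (pderiv c g) * ∑ b, jac φ c b * (jac φ).adjugate b a := by
      rw [Finset.mul_sum]
      refine Finset.sum_congr rfl fun b _ => ?_
      rw [mul_assoc]
      rfl
    rw [h4, h1]
    split_ifs
    · rfl
    · exact mul_zero _
  simp only [h3]
  rw [Finset.sum_ite_eq' Finset.univ a, if_pos (Finset.mem_univ _), mul_comm]

theorem eval_bind (F : MvPolynomial ι ℂ) (p : ι → ℂ)
    (hφ : ∀ a, eval (fun _ => 0) (φ a) = p a) :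
    eval (fun _ => 0) (bind₁ φ F) = eval p F := by
  have h1 : eval (fun _ => (0 : ℂ)) (bind₁ φ F) =
      eval (fun a => eval (fun _ => (0 : ℂ)) (φ a)) F := eval₂Hom_bind₁ _ _ _ _
  rw [h1]
  congr 2
  funext a
  exact hφ a

end

end WBAux

open WBAux

theorem stmt_WB : Stmt_WB := by
  rintro ι _ _ p φ f β hφ hJ ⟨hf, hf', v, c, hc, h0, h1, h2⟩
  have hdet : eval (fun _ => (0 : ℂ)) (jac φ).det =
      (Matrix.of fun a b => eval (fun _ => (0 : ℂ)) (pderiv b (φ a))).det := by
    rw [RingHom.map_det]
    rfl
  have hJ0 : eval (fun _ => (0 : ℂ)) (jac φ).det ≠ 0 := by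
    rw [hdet]
    exact hJ
  have hJ1 : (jac φ).det ≠ 0 := by
    intro h
    apply hJ0
    rw [h, map_zero]
  refine ⟨?_, ?_, fun i => (v i).comp ((LinearMap.mulLeft ℂ (jac φ).det).comp
    (bind₁ φ).toLinearMap), c * eval (fun _ => 0) (jac φ).det, mul_ne_zero hc hJ0, ?_, ?_, ?_⟩
  · rw [← eval_bind φ f p hφ]
    exact hf
  · have key : Matrix.vecMul (fun a => eval p (pderiv a f))
        (Matrix.of fun a b => eval (fun _ => (0 : ℂ)) (pderiv b (φ a))) = 0 := by
      funext b
      have h3 := hf' b
      rw [chain, map_sum] at h3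
      rw [Pi.zero_apply]
      refine Eq.trans ?_ h3
      change ∑ a, eval p (pderiv a f) * eval (fun _ => (0 : ℂ)) (pderiv b (φ a)) = _
      refine Finset.sum_congr rfl fun a _ => ?_
      rw [map_mul, eval_bind φ _ p hφ]
    have h4 := Matrix.eq_zero_of_vecMul_eq_zero hJ key
    exact fun a => congrFun h4 a
  · intro g
    change v 0 ((jac φ).det * bind₁ φ g) = _
    rw [h0, map_mul, eval_bind φ g p hφ]
    ring
  · intro i a g
    change v (i + 1) ((jac φ).det * bind₁ φ (pderiv a f * g)) =
      -v i ((jac φ).det * bind₁ φ (pderiv a g))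
    rw [map_mul (bind₁ φ), ← mul_assoc, det_bind, Finset.sum_mul, map_sum]
    have h3 : ∀ b, v (i + 1) (pderiv b (bind₁ φ f) * (jac φ).adjugate b a * bind₁ φ g) =
        -v i (pderiv b ((jac φ).adjugate b a * bind₁ φ g)) := by
      intro b
      rw [mul_assoc, h1]
    simp only [h3]
    rw [Finset.sum_neg_distrib, ← map_sum, det_bind]
    congr 2
    have h4 : ∀ b, pderiv b ((jac φ).adjugate b a * bind₁ φ g) =
        pderiv b (bind₁ φ g) * (jac φ).adjugate b a +
          pderiv b ((jac φ).adjugate b a) * bind₁ φ g := by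
      intro b
      rw [Derivation.leibniz]
      simp only [smul_eq_mul]
      ring
    simp only [h4]
    rw [Finset.sum_add_distrib, ← Finset.sum_mul (f := fun b => pderiv b ((jac φ).adjugate b a)),
      piola φ hJ1 a, zero_mul, add_zero]
  · intro i g
    change v (i + 1) ((jac φ).det * bind₁ φ (f * g)) = (β - i) * v i ((jac φ).det * bind₁ φ g)
    rw [map_mul (bind₁ φ), ← h2]
    congr 1
    ring

end Pool.Agent.Mono.RO
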