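import Pool.Agent.Work.Monodromy6.WD

/-!
# Block WC: the higher order terms
-/

set_option autoImplicit false

namespace Pool.Agent.Mono.RO.WCAux

open MvPolynomial WDAux

variable {ι : Type} [DecidableEq ι]

/-- truncated exponential series -/
noncomputable def SS (v : ℕ → MvPolynomial ι ℂ →ₗ[ℂ] ℂ) (h : MvPolynomial ι ℂ) (J i : ℕ) :
    MvPolynomial ι ℂ →ₗ[ℂ] ℂ :=
  ∑ j ∈ Finset.range J, ((j.factorial : ℂ)⁻¹) • (v (i + j)).comp (LinearMap.mulLeft ℂ (h ^ j))

omit [DecidableEq ι] in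
theorem SS_apply (v : ℕ → MvPolynomial ι ℂ →ₗ[ℂ] ℂ) (h : MvPolynomial ι ℂ) (J i : ℕ)
    (g : MvPolynomial ι ℂ) :
    SS v h J i g = ∑ j ∈ Finset.range J, (j.factorial : ℂ)⁻¹ * v (i + j) (h ^ j * g) := by
  simp [SS]

theorem van {w : ι → ℕ} {D : ℕ} {v : ℕ → MvPolynomial ι ℂ →ₗ[ℂ] ℂ}
    (hS : ∀ i, Sup w (D * i) (v i)) {h : MvPolynomial ι ℂ} (hh : h ∈ hi w (D + 1)) {i j : ℕ}
    (hij : D * i < j) (g : MvPolynomial ι ℂ) : v (i + j) (h ^ j * g) = 0 := by
  have h1 : h ^ j ∈ hi w ((D + 1) * j) := by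
    clear hij
    induction j with
    | zero => intro d _; simp
    | succ j ih =>
      rw [pow_succ]
      have := mul_hi ih hh
      rwa [← Nat.mul_succ] at this
  refine sup_hi ?_ (hS (i + j)) (Ideal.mul_mem_right g _ h1)
  rw [add_mul, mul_add]
  omega

theorem SS_eq {w : ι → ℕ} {D : ℕ} {v : ℕ → MvPolynomial ι ℂ →ₗ[ℂ] ℂ}
    (hS : ∀ i, Sup w (D * i) (v i)) {h : MvPolynomial ι ℂ} (hh : h ∈ hi w (D + 1)) {i J : ℕ}
    (hJ : D * i + 1 ≤ J) (g : MvPolynomial ι ℂ) : SS v h (D * i + 1) i g = SS v h J i g := by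
  rw [SS_apply, SS_apply]
  refine Finset.sum_subset (Finset.range_mono hJ) fun j _ hj => ?_
  rw [Finset.mem_range, not_lt] at hj
  rw [van hS hh (by omega), mul_zero]

end Pool.Agent.Mono.RO.WCAux

namespace Pool.Agent.Mono.RO

open MvPolynomial WDAux WCAux

theorem stmt_WC : Stmt_WC := by
  intro ι _ _ w D F0 F β hw hD hF0 hF hF00 hFd v hv0 hS hR hE
  set h : MvPolynomial ι ℂ := F - F0 with hh
  have hF' : F = F0 + h := by rw [hh]; ring
  have hhi : h ∈ hi w (D + 1) := fun d hd => hF d hd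
  have hfac : ∀ j : ℕ, ((j + 1).factorial : ℂ)⁻¹ * ((j + 1 : ℕ) : ℂ) = (j.factorial : ℂ)⁻¹ := by
    intro j
    have h1 : (j.factorial : ℂ) ≠ 0 := by exact_mod_cast j.factorial_ne_zero
    have h2 : ((j + 1 : ℕ) : ℂ) ≠ 0 := by exact_mod_cast j.succ_ne_zero
    rw [Nat.factorial_succ]
    push_cast at h2 ⊢
    field_simp
  refine ⟨hF00, hFd, fun i => SS v h (D * i + 1) i, 1, one_ne_zero, ?_, ?_, ?_⟩
  · intro g
    rw [SS_apply]
    simp [hv0]
  · intro i a g
    have hJ1 : D * (i + 1) + 1 ≤ D * (i + 1) + 1 + 1 := by omega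
    rw [SS_eq hS hhi hJ1, SS_eq hS hhi (J := D * (i + 1) + 1 + 1) (by rw [mul_add]; omega)]
    set J := D * (i + 1) + 1 with hJ
    have h1 : ∀ j, v (i + 1 + j) (h ^ j * (pderiv a F * g)) =
        v (i + 1 + j) (h ^ j * (pderiv a h * g)) - v (i + j) (h ^ j * pderiv a g) -
          v (i + j) (pderiv a (h ^ j) * g) := by
      intro j
      have h2 : h ^ j * (pderiv a F * g) = h ^ j * (pderiv a h * g) +
          pderiv a F0 * (h ^ j * g) := by
        rw [hF', map_add]
        ring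
      have h3 := hR (i + j) a (h ^ j * g)
      rw [show i + j + 1 = i + 1 + j by ring] at h3
      rw [h2, map_add, h3, Derivation.leibniz, map_add]
      simp only [smul_eq_mul]
      rw [mul_comm g (pderiv a (h ^ j))]
      ring
    rw [SS_apply, SS_apply]
    have h4 : ∑ j ∈ Finset.range (J + 1), (j.factorial : ℂ)⁻¹ * v (i + j) (pderiv a (h ^ j) * g) =
        ∑ j ∈ Finset.range (J + 1), (j.factorial : ℂ)⁻¹ *
          v (i + 1 + j) (h ^ j * (pderiv a h * g)) := by
      rw [Finset.sum_range_succ' _ J, Finset.sum_range_succ _ J]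
      have h5 : v (i + 1 + J) (h ^ J * (pderiv a h * g)) = 0 := van hS hhi (by omega) _
      have h55 : pderiv a (h ^ 0) = 0 := by rw [pow_zero, pderiv_one]
      rw [h5, h55, zero_mul, map_zero, mul_zero, mul_zero, add_zero, add_zero]
      refine Finset.sum_congr rfl fun j _ => ?_
      rw [Derivation.leibniz_pow]
      simp only [Nat.add_sub_cancel, smul_eq_mul, nsmul_eq_mul]
      have h6 : ((j + 1 : ℕ) : MvPolynomial ι ℂ) * (h ^ j * pderiv a h) * g =
          (j + 1) • (h ^ j * (pderiv a h * g)) := by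
        rw [nsmul_eq_mul]
        ring
      rw [h6, map_nsmul, nsmul_eq_mul, ← mul_assoc, hfac, show i + (j + 1) = i + 1 + j by ring]
    rw [Finset.sum_congr rfl fun j _ => by rw [h1 j]]
    simp only [mul_sub, Finset.sum_sub_distrib]
    rw [h4]
    ring
  · intro i g
    have hJ1 : D * (i + 1) + 1 ≤ D * (i + 1) + 1 + 1 := by omega
    rw [SS_eq hS hhi hJ1, SS_eq hS hhi (J := D * (i + 1) + 1 + 1) (by rw [mul_add]; omega)]
    set J := D * (i + 1) + 1 with hJ
    have h1 : ∀ j, v (i + 1 + j) (h ^ j * (F * g)) =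
        (β - i - j) * v (i + j) (h ^ j * g) + v (i + (j + 1)) (h ^ (j + 1) * g) := by
      intro j
      have h2 : h ^ j * (F * g) = F0 * (h ^ j * g) + h ^ (j + 1) * g := by
        rw [hF']
        ring
      have h3 := hE (i + j) (h ^ j * g)
      rw [show i + j + 1 = i + 1 + j by ring] at h3
      rw [h2, map_add, h3, show i + (j + 1) = i + 1 + j by ring]
      push_cast
      ring
    rw [SS_apply, SS_apply, Finset.sum_congr rfl fun j _ => by rw [h1 j]]
    simp only [mul_add, Finset.sum_add_distrib]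
    have h4 : ∑ j ∈ Finset.range (J + 1), (j.factorial : ℂ)⁻¹ *
        v (i + (j + 1)) (h ^ (j + 1) * g) =
        ∑ j ∈ Finset.range (J + 1), (j.factorial : ℂ)⁻¹ * (j * v (i + j) (h ^ j * g)) := by
      rw [Finset.sum_range_succ _ J, Finset.sum_range_succ' _ J]
      have h5 : v (i + (J + 1)) (h ^ (J + 1) * g) = 0 :=
        van hS hhi (by rw [hJ, mul_add]; omega) _
      rw [h5]
      simp only [mul_zero, add_zero, Nat.cast_zero, zero_mul]
      refine Finset.sum_congr rfl fun j _ => ?_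
      rw [← mul_assoc, hfac]
    rw [h4, ← Finset.sum_add_distrib, Finset.mul_sum]
    refine Finset.sum_congr rfl fun j _ => ?_
    ring

end Pool.Agent.Mono.RO
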