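import Pool.Agent.Work.Monodromy6.InterfaceSQ

/-!
# Block WD: functionals for weighted homogeneous polynomials with isolated critical points
-/

set_option autoImplicit false

namespace Pool.Agent.Mono.RO.WDAux

open MvPolynomial

variable {ι : Type} [Fintype ι] [DecidableEq ι]

omit [Fintype ι] [DecidableEq ι] in
theorem pd_comm (i j : ι) (p : MvPolynomial ι ℂ) :
    pderiv i (pderiv j p) = pderiv j (pderiv i p) := by
  have h : ⁅(pderiv i : Derivation ℂ (MvPolynomial ι ℂ) (MvPolynomial ι ℂ)),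
      (pderiv j : Derivation ℂ (MvPolynomial ι ℂ) (MvPolynomial ι ℂ))⁆ = 0 := by
    apply MvPolynomial.derivation_ext
    intro k
    classical
    rw [Derivation.commutator_apply]
    simp only [pderiv_X, Pi.single_apply]
    split_ifs <;> simp
  have h1 := DFunLike.congr_fun h p
  rw [Derivation.commutator_apply] at h1
  simpa [sub_eq_zero] using h1

/-- kills all monomials of weight different from `N` -/
def Sup (w : ι → ℕ) (N : ℕ) (v : MvPolynomial ι ℂ →ₗ[ℂ] ℂ) : Prop :=
  ∀ g : MvPolynomial ι ℂ, (∀ d ∈ g.support, Finsupp.weight w d ≠ N) → v g = 0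

/-- compatible with the relations between the partial derivatives -/
def Wf (F : MvPolynomial ι ℂ) (v : MvPolynomial ι ℂ →ₗ[ℂ] ℂ) : Prop :=
  ∀ g : ι → MvPolynomial ι ℂ, ∑ a, g a * pderiv a F = 0 → v (∑ a, pderiv a (g a)) = 0

/-- integration by parts -/
def Rel (F : MvPolynomial ι ℂ) (v v' : MvPolynomial ι ℂ →ₗ[ℂ] ℂ) : Prop :=
  ∀ a g, v' (pderiv a F * g) = -v (pderiv a g)

/-- polynomials all of whose monomials have weight at least `N` -/
def hi (w : ι → ℕ) (N : ℕ) : Ideal (MvPolynomial ι ℂ) where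
  carrier := {h | ∀ d ∈ h.support, N ≤ Finsupp.weight w d}
  zero_mem' := by simp
  add_mem' {a b} ha hb := by
    intro d hd
    rcases Finset.mem_union.1 (support_add hd) with h | h
    · exact ha d h
    · exact hb d h
  smul_mem' c a ha := by
    intro d hd
    rw [smul_eq_mul] at hd
    obtain ⟨x, -, y, hy, rfl⟩ := Finset.mem_add.1 (support_mul _ _ hd)
    rw [map_add]
    exact le_add_left (ha y hy)

omit [Fintype ι] in
theorem mem_hi {w : ι → ℕ} {N : ℕ} {h : MvPolynomial ι ℂ} :
    h ∈ hi w N ↔ ∀ d ∈ h.support, N ≤ Finsupp.weight w d := Iff.rfl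

omit [Fintype ι] in
theorem mul_hi {w : ι → ℕ} {N M : ℕ} {h k : MvPolynomial ι ℂ} (hh : h ∈ hi w N)
    (hk : k ∈ hi w M) : h * k ∈ hi w (N + M) := by
  intro d hd
  obtain ⟨x, hx, y, hy, rfl⟩ := Finset.mem_add.1 (support_mul _ _ hd)
  rw [map_add]
  exact add_le_add (hh x hx) (hk y hy)

omit [Fintype ι] in
theorem pow_hi {w : ι → ℕ} {h : MvPolynomial ι ℂ} (hh : h ∈ hi w 1) (K : ℕ) :
    h ^ K ∈ hi w K := by
  induction K with
  | zero => intro d _; exact Nat.zero_le _
  | succ K ih => rw [pow_succ]; exact mul_hi ih hh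

omit [Fintype ι] in
theorem pd_hi {w : ι → ℕ} {N : ℕ} {h : MvPolynomial ι ℂ} (a : ι) (hh : h ∈ hi w (N + w a)) :
    pderiv a h ∈ hi w N := by
  intro d hd
  have h1 : (d + Finsupp.single a 1) ∈ h.support := by
    rw [mem_support_iff] at hd ⊢
    intro h0
    apply hd
    rw [coeff_pderiv, h0]
    simp
  have h2 := hh _ h1
  rw [map_add, Finsupp.weight_single] at h2
  simp at h2
  omega

omit [Fintype ι] in
theorem sup_hi {w : ι → ℕ} {N M : ℕ} (hNM : N < M) {v : MvPolynomial ι ℂ →ₗ[ℂ] ℂ}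
    (hv : Sup w N v) {h : MvPolynomial ι ℂ} (hh : h ∈ hi w M) : v h = 0 :=
  hv h fun d hd => by have := hh d hd; omega

omit [Fintype ι] in
/-- polynomials without constant term -/
theorem hi_one {w : ι → ℕ} (hw : ∀ a, 1 ≤ w a) {h : MvPolynomial ι ℂ}
    (h0 : eval (fun _ => (0 : ℂ)) h = 0) : h ∈ hi w 1 := by
  intro d hd
  by_contra hcon
  have h1 : Finsupp.weight w d = 0 := by omega
  have h2 : d = 0 := by
    ext a
    by_contra ha
    have := Finsupp.le_weight w (s := a) (by have := hw a; omega) d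
    simp at ha
    omega
  subst h2
  rw [mem_support_iff] at hd
  apply hd
  rw [← h0, MvPolynomial.eval_zero', constantCoeff_eq]

omit [Fintype ι] in
/-- approximate inverses -/
theorem exists_inv {w : ι → ℕ} (hw : ∀ a, 1 ≤ w a) {s : MvPolynomial ι ℂ}
    (hs : eval (fun _ => (0 : ℂ)) s ≠ 0) (K : ℕ) : ∃ s', 1 - s' * s ∈ hi w K := by
  set c := eval (fun _ => (0 : ℂ)) s with hc
  set n : MvPolynomial ι ℂ := 1 - C c⁻¹ * s with hn
  have hn1 : n ∈ hi w 1 := by
    apply hi_one hw
    rw [hn, map_sub, map_one, map_mul, eval_C, ← hc, inv_mul_cancel₀ hs, sub_self]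
  refine ⟨(∑ k ∈ Finset.range K, n ^ k) * C c⁻¹, ?_⟩
  have h1 : (∑ k ∈ Finset.range K, n ^ k) * C c⁻¹ * s = 1 - n ^ K := by
    have h2 := geom_sum_mul_neg n K
    rw [← h2, mul_assoc]
    congr 1
    rw [hn]
    ring
  rw [h1]
  simpa using pow_hi hn1 K

/-- `Rel` and the support condition imply the relations -/
theorem wf_of_koszul (hK6 : Stmt_K6) {w : ι → ℕ} {F : MvPolynomial ι ℂ}
    (hw : ∀ a, 1 ≤ w a) (hF : ∀ x : ι → ℂ, (∀ a, eval x (pderiv a F) = 0) ↔ x = 0) (N : ℕ)
    (v' : MvPolynomial ι ℂ →ₗ[ℂ] ℂ) (hS : Sup w N v')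
    (hR : ∀ B : ι → ι → MvPolynomial ι ℂ, (∀ a b, B a b = -B b a) →
      v' (∑ b, pderiv b F * ∑ a, pderiv a (B a b)) = 0) : Wf F v' := by
  intro g hg
  obtain ⟨s, A, hs, hA, hgA⟩ := hK6 ι (fun a => pderiv a F) hF g hg
  obtain ⟨s', hs'⟩ := exists_inv hw hs (N + 1 + ∑ a, w a)
  have h1 : ∀ a, g a = ∑ b, (s' * A a b) * pderiv b F + (1 - s' * s) * g a := by
    intro a
    have h2 := hgA a
    calc g a = s' * (s * g a) + (1 - s' * s) * g a := by ring
      _ = _ := by
        rw [h2, Finset.mul_sum]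
        congr 1
        exact Finset.sum_congr rfl fun b _ => by ring
  have h3 : ∑ a, pderiv a (g a) = ∑ b, pderiv b F * ∑ a, pderiv a (s' * A a b) +
      ∑ a, ∑ b, (s' * A a b) * pderiv a (pderiv b F) +
        ∑ a, pderiv a ((1 - s' * s) * g a) := by
    have h4 : ∑ b, pderiv b F * ∑ a, pderiv a (s' * A a b) =
        ∑ a, ∑ b, pderiv b F * pderiv a (s' * A a b) := by
      rw [Finset.sum_comm]
      exact Finset.sum_congr rfl fun b _ => by rw [Finset.mul_sum]
    rw [h4, ← Finset.sum_add_distrib, ← Finset.sum_add_distrib]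
    refine Finset.sum_congr rfl fun a _ => ?_
    conv_lhs => rw [h1 a]
    rw [map_add, map_sum, ← Finset.sum_add_distrib]
    congr 1
    refine Finset.sum_congr rfl fun b _ => ?_
    rw [Derivation.leibniz]
    simp only [smul_eq_mul]
    ring
  have h5 : ∑ a, ∑ b, (s' * A a b) * pderiv a (pderiv b F) = 0 := by
    have h6 : ∑ a, ∑ b, (s' * A a b) * pderiv a (pderiv b F) =
        -∑ a, ∑ b, (s' * A a b) * pderiv a (pderiv b F) := by
      conv_lhs => rw [Finset.sum_comm]
      rw [← Finset.sum_neg_distrib]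
      refine Finset.sum_congr rfl fun a _ => ?_
      rw [← Finset.sum_neg_distrib]
      refine Finset.sum_congr rfl fun b _ => ?_
      rw [hA b a, pd_comm b a]
      ring
    exact self_eq_neg.1 h6
  have h7 : v' (∑ a, pderiv a ((1 - s' * s) * g a)) = 0 := by
    apply sup_hi (Nat.lt_succ_self N) hS
    refine Ideal.sum_mem _ fun a _ => pd_hi a ?_
    have h8 : (1 - s' * s) * g a ∈ hi w (N + 1 + ∑ a, w a) := Ideal.mul_mem_right _ _ hs'
    intro d hd
    refine le_trans ?_ (h8 d hd)
    have := Finset.single_le_sum (f := w) (fun _ _ => Nat.zero_le _) (Finset.mem_univ a)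
    omega
  rw [h3, h5, add_zero, map_add, h7, add_zero]
  apply hR
  intro a b
  rw [hA a b]
  ring

omit [DecidableEq ι] in
theorem symm_zero (v : MvPolynomial ι ℂ →ₗ[ℂ] ℂ) (B : ι → ι → MvPolynomial ι ℂ)
    (hB : ∀ a b, B a b = -B b a) : ∑ b, v (pderiv b (∑ a, pderiv a (B a b))) = 0 := by
  have h6 : ∑ b, v (pderiv b (∑ a, pderiv a (B a b))) =
      -∑ b, v (pderiv b (∑ a, pderiv a (B a b))) := by
    simp only [map_sum]
    conv_lhs => rw [Finset.sum_comm]
    rw [← Finset.sum_neg_distrib]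
    refine Finset.sum_congr rfl fun a _ => ?_
    rw [← Finset.sum_neg_distrib]
    refine Finset.sum_congr rfl fun b _ => ?_
    rw [hB a b, pd_comm b a]
    simp
  exact self_eq_neg.1 h6

omit [Fintype ι] [DecidableEq ι] in
/-- products with a homogeneous polynomial -/
theorem whc_mul {w : ι → ℕ} {P : MvPolynomial ι ℂ} {m : ℕ} (hP : IsWeightedHomogeneous w P m)
    (n : ℕ) (g : MvPolynomial ι ℂ) :
    weightedHomogeneousComponent w (n + m) (P * g) = P * weightedHomogeneousComponent w n g := by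
  induction g using MvPolynomial.induction_on' with
  | monomial d c =>
    have h1 : IsWeightedHomogeneous w (monomial d c) (Finsupp.weight w d) :=
      isWeightedHomogeneous_monomial w d c rfl
    have h2 := hP.mul h1
    by_cases h : Finsupp.weight w d = n
    · rw [h] at h1 h2
      rw [add_comm] at h2
      rw [h2.weightedHomogeneousComponent_same, h1.weightedHomogeneousComponent_same]
    · rw [h1.weightedHomogeneousComponent_ne n (Ne.symm h), mul_zero,
        h2.weightedHomogeneousComponent_ne (n + m) (by omega)]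
  | add p q hp hq => rw [mul_add, map_add, hp, hq, map_add, mul_add]

omit [Fintype ι] [DecidableEq ι] in
theorem sup_comp {w : ι → ℕ} {N : ℕ} {v : MvPolynomial ι ℂ →ₗ[ℂ] ℂ} (hv : Sup w N v)
    (g : MvPolynomial ι ℂ) : v (weightedHomogeneousComponent w N g) = v g := by
  have h1 : v (g - weightedHomogeneousComponent w N g) = 0 := by
    apply hv
    intro d hd hdN
    rw [mem_support_iff] at hd
    apply hd
    rw [coeff_sub, coeff_weightedHomogeneousComponent, if_pos hdN, sub_self]
  rw [map_sub, sub_eq_zero] at h1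
  exact h1.symm

omit [Fintype ι] [DecidableEq ι] in
theorem pd_comp (w : ι → ℕ) (N : ℕ) (a : ι) (g : MvPolynomial ι ℂ) :
    pderiv a (weightedHomogeneousComponent w (N + w a) g) =
      weightedHomogeneousComponent w N (pderiv a g) := by
  ext d
  rw [coeff_pderiv, coeff_weightedHomogeneousComponent, coeff_weightedHomogeneousComponent,
    coeff_pderiv, map_add, Finsupp.weight_single]
  simp only [one_smul, add_left_inj]
  split_ifs <;> simp

/-- the next functional -/
theorem exists_next {w : ι → ℕ} {D : ℕ} {F : MvPolynomial ι ℂ} (hwD : ∀ a, w a ≤ D)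
    (hF : IsWeightedHomogeneous w F D) (i : ℕ) (v : MvPolynomial ι ℂ →ₗ[ℂ] ℂ)
    (hS : Sup w (D * i) v) (hW : Wf F v) :
    ∃ v' : MvPolynomial ι ℂ →ₗ[ℂ] ℂ, Sup w (D * (i + 1)) v' ∧ Rel F v v' := by
  let T : (ι → MvPolynomial ι ℂ) →ₗ[ℂ] MvPolynomial ι ℂ :=
    ∑ a, (LinearMap.mulRight ℂ (pderiv a F)).comp (LinearMap.proj a)
  let L : (ι → MvPolynomial ι ℂ) →ₗ[ℂ] ℂ :=
    -v.comp (∑ a, (pderiv a : Derivation ℂ (MvPolynomial ι ℂ) _).toLinearMap.comp
      (LinearMap.proj a))
  have hT : ∀ g, T g = ∑ a, g a * pderiv a F := fun g => by simp [T]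
  have hL : ∀ g, L g = -v (∑ a, pderiv a (g a)) := fun g => by simp [L]
  have hmem : L ∈ LinearMap.range T.dualMap := by
    rw [LinearMap.range_dualMap_eq_dualAnnihilator_ker, Submodule.mem_dualAnnihilator]
    intro g hg
    rw [LinearMap.mem_ker, hT] at hg
    rw [hL, hW g hg, neg_zero]
  obtain ⟨u, hu⟩ := hmem
  have huT : ∀ g : ι → MvPolynomial ι ℂ, u (∑ a, g a * pderiv a F) = -v (∑ a, pderiv a (g a)) := by
    intro g
    rw [← hT, ← hL, ← hu]
    rfl
  refine ⟨u.comp (weightedHomogeneousComponent w (D * (i + 1))), ?_, ?_⟩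
  · intro g hg
    have h1 : weightedHomogeneousComponent w (D * (i + 1)) g = 0 :=
      weightedHomogeneousComponent_eq_zero' _ _ fun d hd => hg d hd
    rw [LinearMap.comp_apply, h1, map_zero]
  · intro a g
    have h1 : IsWeightedHomogeneous w (pderiv a F) (D - w a) :=
      hF.pderiv (Nat.sub_add_cancel (hwD a))
    have h2 : D * (i + 1) = (D * i + w a) + (D - w a) := by
      have := hwD a
      rw [mul_add, mul_one]
      omega
    rw [LinearMap.comp_apply, h2, whc_mul h1]
    have h3 := huT (Pi.single a (weightedHomogeneousComponent w (D * i + w a) g))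
    rw [Finset.sum_eq_single a (fun b _ hb => by rw [Pi.single_eq_of_ne hb, zero_mul])
      (fun h => absurd (Finset.mem_univ a) h), Finset.sum_eq_single a
      (fun b _ hb => by rw [Pi.single_eq_of_ne hb, map_zero])
      (fun h => absurd (Finset.mem_univ a) h), Pi.single_eq_same] at h3
    rw [mul_comm, h3, pd_comp, sup_comp hS]

omit [DecidableEq ι] in
theorem euler_aux {w : ι → ℕ} {N : ℕ} {v : MvPolynomial ι ℂ →ₗ[ℂ] ℂ} (hS : Sup w N v)
    (g : MvPolynomial ι ℂ) : v (∑ a, w a • (X a * pderiv a g)) = (N : ℕ) * v g := by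
  induction g using MvPolynomial.induction_on' with
  | monomial d c =>
    have h8 : IsWeightedHomogeneous w (monomial d c) (Finsupp.weight w d) :=
      isWeightedHomogeneous_monomial w d c rfl
    rw [h8.sum_weight_X_mul_pderiv, map_nsmul, nsmul_eq_mul]
    by_cases h : Finsupp.weight w d = N
    · rw [h]
    · have h9 : v (monomial d c) = 0 := by
        apply hS
        intro e he
        have := support_monomial_subset he
        rw [Finset.mem_singleton] at this
        rwa [this]
      rw [h9, mul_zero, mul_zero]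
  | add p q hp hq =>
    simp only [map_add, mul_add, smul_add, Finset.sum_add_distrib]
    rw [hp, hq]

/-- Euler's relation -/
theorem euler {w : ι → ℕ} {D : ℕ} {F : MvPolynomial ι ℂ} (hD : 1 ≤ D)
    (hF : IsWeightedHomogeneous w F D) (i : ℕ) (v v' : MvPolynomial ι ℂ →ₗ[ℂ] ℂ)
    (hS : Sup w (D * i) v) (hR : Rel F v v') (g : MvPolynomial ι ℂ) :
    v' (F * g) = (-((∑ a, w a : ℕ) : ℂ) / (D : ℂ) - i) * v g := by
  have hDC : (D : ℂ) ≠ 0 := by
    have : (D : ℂ) = ((D : ℕ) : ℂ) := rfl
    exact_mod_cast (by omega : D ≠ 0)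
  have h1 : (D : ℂ) * v' (F * g) = -∑ a, (w a : ℂ) * v (pderiv a (X a * g)) := by
    have h2 := hF.sum_weight_X_mul_pderiv
    have h3 : (D : ℂ) * v' (F * g) = v' ((D • F) * g) := by
      rw [smul_mul_assoc, map_nsmul, nsmul_eq_mul]
    rw [h3, ← h2, Finset.sum_mul, map_sum, ← Finset.sum_neg_distrib]
    refine Finset.sum_congr rfl fun a _ => ?_
    have h4 : w a • (X a * pderiv a F) * g = w a • (pderiv a F * (X a * g)) := by
      simp only [nsmul_eq_mul]
      ring
    rw [h4, map_nsmul, hR, nsmul_eq_mul]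
    ring
  have h5 : ∑ a, (w a : ℂ) * v (pderiv a (X a * g)) = ((∑ a, w a : ℕ) + (D * i : ℕ)) * v g := by
    have h6 : ∀ a, (w a : ℂ) * v (pderiv a (X a * g)) = w a * v g + v (w a • (X a * pderiv a g)) := by
      intro a
      rw [Derivation.leibniz, pderiv_X_self, map_add, map_nsmul, nsmul_eq_mul]
      simp only [smul_eq_mul, mul_one]
      ring
    rw [Finset.sum_congr rfl fun a _ => h6 a, Finset.sum_add_distrib, ← Finset.sum_mul, ← map_sum]
    rw [euler_aux hS, Nat.cast_sum]
    push_cast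
    ring
  rw [h5] at h1
  have h10 : v' (F * g) = -(((∑ a, w a : ℕ) + (D * i : ℕ)) * v g) / D := by
    field_simp
    rw [mul_comm]
    exact h1
  rw [h10]
  push_cast
  field_simp
  ring

end Pool.Agent.Mono.RO.WDAux

namespace Pool.Agent.Mono.RO

open MvPolynomial WDAux

theorem stmt_WD (hK6 : Stmt_K6) : Stmt_WD := by
  intro ι _ _ w D F hSQ hF
  obtain ⟨hw, hD, -, hcrit⟩ := hSQ
  have hini : ini w D F = F := hF.weightedHomogeneousComponent_same
  rw [hini] at hcrit
  have hwD : ∀ a, w a ≤ D := by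
    intro a
    by_contra hcon
    push Not at hcon
    -- `F` does not contain `x_a`
    have h0 : ∀ d ∈ F.support, d a = 0 := by
      intro d hd
      have h1 : Finsupp.weight w d = D := hF (mem_support_iff.1 hd)
      by_contra h2
      have h3 := Finsupp.le_weight_of_ne_zero' (w := w) h2
      omega
    have h5 : (Pi.single a (1 : ℂ) : ι → ℂ) = 0 := by
      rw [← hcrit]
      intro b
      have h6 : eval (0 : ι → ℂ) (pderiv b F) = 0 := (hcrit 0).2 rfl b
      rw [← h6]
      rw [eval_eq, eval_eq]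
      refine Finset.sum_congr rfl fun d hd => ?_
      congr 1
      have h7 : d a = 0 := by
        rw [mem_support_iff, coeff_pderiv] at hd
        have h8 : coeff (d + Finsupp.single b 1) F ≠ 0 := by
          intro h; apply hd; rw [h]; simp
        have h9 := h0 _ (mem_support_iff.2 h8)
        rw [Finsupp.add_apply] at h9
        omega
      refine Finset.prod_congr rfl fun c hc => ?_
      have : c ≠ a := by
        rintro rfl
        rw [Finsupp.mem_support_iff] at hc
        exact hc h7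
      rw [Pi.single_eq_of_ne this, Pi.zero_apply]
    have h6 := congrFun h5 a
    simp at h6
  let P : ℕ → (MvPolynomial ι ℂ →ₗ[ℂ] ℂ) → Prop := fun i v => Sup w (D * i) v ∧ Wf F v
  have hstep : ∀ i v, P i v → ∃ v', P (i + 1) v' ∧ Rel F v v' := by
    rintro i v ⟨hS, hW⟩
    obtain ⟨v', hS', hR⟩ := exists_next hwD hF i v hS hW
    refine ⟨v', ⟨hS', ?_⟩, hR⟩
    refine wf_of_koszul hK6 hw hcrit _ v' hS' ?_
    intro B hB
    rw [map_sum]
    have := symm_zero v B hB
    rw [Finset.sum_congr rfl fun b _ => hR b _, Finset.sum_neg_distrib, this, neg_zero]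
  let v0 : MvPolynomial ι ℂ →ₗ[ℂ] ℂ := (aeval fun _ : ι => (0 : ℂ)).toLinearMap
  have hv0 : ∀ g, v0 g = eval (fun _ => 0) g := fun g => by
    simp [v0]
  have h0 : P 0 v0 := by
    have hS0 : Sup w (D * 0) v0 := by
      intro g hg
      rw [hv0, MvPolynomial.eval_zero', constantCoeff_eq]
      by_contra hcon
      exact hg 0 (mem_support_iff.2 hcon) (by simp)
    refine ⟨hS0, wf_of_koszul hK6 hw hcrit _ v0 hS0 ?_⟩
    intro B hB
    rw [hv0, map_sum]
    refine Finset.sum_eq_zero fun b _ => ?_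
    rw [map_mul]
    have : eval (fun _ => (0 : ℂ)) (pderiv b F) = 0 := (hcrit _).2 rfl b
    rw [this, zero_mul]
  choose nx hnx using hstep
  let seq : ∀ i : ℕ, {v // P i v} := fun i =>
    Nat.rec (motive := fun i => {v // P i v}) ⟨v0, h0⟩ (fun i v => ⟨nx i v.1 v.2, (hnx i v.1 v.2).1⟩) i
  have hrel : ∀ i, Rel F (seq i).1 (seq (i + 1)).1 := fun i => (hnx i (seq i).1 (seq i).2).2
  refine ⟨fun i => (seq i).1, hv0, fun i g hg => (seq i).2.1 g hg, fun i a g => hrel i a g,
    fun i g => euler hD hF i _ _ (seq i).2.1 (hrel i) g⟩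

end Pool.Agent.Mono.RO
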