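import Pool.Agent.Work.Monodromy6.InterfaceSQ
import Pool.Agent.Work.Monodromy6.WA
import Pool.Agent.Work.Monodromy6.WB
import Pool.Agent.Work.Monodromy6.WC
import Pool.Agent.Work.Monodromy6.WD
import Pool.Agent.Work.Monodromy6.K6

/-!
# Block WE of part SQ (helper2): witnesses at semi-quasi-homogeneous critical points
-/

set_option autoImplicit false

namespace Pool.Agent.Mono.RO

open MvPolynomial TS

namespace WEAux

variable {ι : Type}

theorem coeff_ini (w : ι → ℕ) (D : ℕ) (F : MvPolynomial ι ℂ) (d : ι →₀ ℕ) :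
    coeff d (ini w D F) = if Finsupp.weight w d = D then coeff d F else 0 := by
  classical
  rw [ini, coeff_weightedHomogeneousComponent]

theorem ini_homog (w : ι → ℕ) (D : ℕ) (F : MvPolynomial ι ℂ) :
    IsWeightedHomogeneous w (ini w D F) D :=
  weightedHomogeneousComponent_isWeightedHomogeneous D F

theorem ini_ini (w : ι → ℕ) (D : ℕ) (F : MvPolynomial ι ℂ) :
    ini w D (ini w D F) = ini w D F := by
  ext d
  rw [coeff_ini, coeff_ini]
  split_ifs <;> rfl

theorem rest_support {w : ι → ℕ} {D : ℕ} {F : MvPolynomial ι ℂ}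
    (h : ∀ d ∈ F.support, D ≤ Finsupp.weight w d) :
    ∀ d ∈ (F - ini w D F).support, D < Finsupp.weight w d := by
  intro d hd
  rw [mem_support_iff, coeff_sub, coeff_ini] at hd
  by_cases h1 : Finsupp.weight w d = D
  · rw [if_pos h1, sub_self] at hd
    exact absurd rfl hd
  · rw [if_neg h1, sub_zero] at hd
    exact lt_of_le_of_ne (h d (mem_support_iff.mpr hd)) (Ne.symm h1)

theorem SQ_ini {w : ι → ℕ} {D : ℕ} {F : MvPolynomial ι ℂ} (h : SQ w D F) :
    SQ w D (ini w D F) := by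
  obtain ⟨hw, hD, _, h0⟩ := h
  refine ⟨hw, hD, ?_, ?_⟩
  · intro d hd
    rw [mem_support_iff, coeff_ini] at hd
    by_cases h1 : Finsupp.weight w d = D
    · exact h1.ge
    · rw [if_neg h1] at hd
      exact absurd rfl hd
  · rw [ini_ini]
    exact h0

theorem nonempty_of_td {f : MvPolynomial ι ℂ} (h : f.totalDegree ≠ 0) : Nonempty ι := by
  by_contra h1
  rw [not_nonempty_iff] at h1
  apply h
  rw [eq_C_of_isEmpty f, totalDegree_C]

end WEAux

open WEAux

theorem stmt_WE : Stmt_WE := by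
  classical
  rintro ι _ _ f p r htd hcrit ⟨w, D, φ, hφ, hJ, hSQ, hr⟩
  obtain ⟨a0⟩ := nonempty_of_td htd
  have hSQ' := hSQ
  obtain ⟨hw, hD, hsup, hini⟩ := hSQ'
  have hD' : (0 : ℚ) < (D : ℚ) := by exact_mod_cast hD
  have hS : 1 ≤ ∑ a, w a := le_trans (hw a0)
    (Finset.single_le_sum (f := w) (fun _ _ => Nat.zero_le _) (Finset.mem_univ a0))
  have hS' : (0 : ℚ) < ((∑ a, w a : ℕ) : ℚ) := by exact_mod_cast hS
  have hr0 : 0 < r := by
    rw [hr]
    exact div_pos hS' hD'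
  refine ⟨hr0, -r, 0, by linarith, by simp, ?_⟩
  have hbg : bind₁ φ (f - C (eval p f)) = bind₁ φ f - C (eval p f) := by
    rw [map_sub, bind₁_C_right]
  have he0 : eval (fun _ => (0 : ℂ)) (bind₁ φ f - C (eval p f)) = 0 := by
    rw [map_sub, WBAux.eval_bind φ f p hφ, eval_C, sub_self]
  have hg0 : ∀ b, eval (fun _ => (0 : ℂ)) (pderiv b (bind₁ φ f - C (eval p f))) = 0 := by
    intro b
    rw [map_sub, pderiv_C, sub_zero, WBAux.chain φ f b, map_sum]
    refine Finset.sum_eq_zero fun a _ => ?_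
    rw [map_mul, WBAux.eval_bind φ _ p hφ, hcrit a, zero_mul]
  obtain ⟨v, h0, h1, h2, h3⟩ := stmt_WD stmt_K6 ι w D _ (SQ_ini hSQ) (ini_homog w D _)
  have hFW0 := stmt_WC ι w D _ _ _ hw hD (ini_homog w D _) (rest_support hsup) he0 hg0 v h0 h1 h2 h3
  have hFW : FW p (f - C (eval p f)) (-((∑ a, w a : ℕ) : ℂ) / (D : ℂ)) := by
    refine stmt_WB ι p φ _ _ hφ hJ ?_
    rw [hbg]
    exact hFW0
  have hW := stmt_WA ι p _ _ hFW
  have hβ : ((-r : ℚ) : ℂ) = -((∑ a, w a : ℕ) : ℂ) / (D : ℂ) := by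
    rw [hr]
    push_cast
    ring
  rw [hβ]
  exact hW

end Pool.Agent.Mono.RO
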