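import Pool.Agent.Work.Monodromy.Interface6V
import Pool.Agent.Work.Monodromy5.O5
import Pool.Agent.Work.Monodromy5.VGB

/-!
# Block VSM (helper35): smooth points, arcs which start in `Z`
-/

set_option autoImplicit false
set_option linter.unusedSectionVars false

namespace Pool.Agent.Mono.PC

open MvPolynomial TS RO

namespace VSMAux

open O5Aux VGAux

section

variable {E ι : Type} [Fintype ι]

/-- the points with origin in `Z` -/
def ZP (Z : Set (ι → ℂ)) : Set (E ⊕ ι → ℂ) := {u | (fun j => u (Sum.inr j)) ∈ Z}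

theorem con_ZP {Z : Set (ι → ℂ)} (hZ : Constructible Z) : Constructible (ZP (E := E) Z) :=
  Constructible.comap Sum.inr hZ

theorem bs_ZP (Z : Set (ι → ℂ)) (z : (E → ℂ) × (ι → PowerSeries ℂ)) :
    bs z ∈ ZP Z ↔ (fun a => PowerSeries.coeff 0 (z.2 a)) ∈ Z := Iff.rfl

theorem Cy_SDz [Finite E] (f : MvPolynomial ι ℂ) {Z : Set (ι → ℂ)} (hZ : Constructible Z)
    (w : Bool) {Q : Set (E ⊕ Bool → ℂ)} (hQ : Constructible Q) (i : ℕ) :
    Cy (SDz f Z w Q i) := by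
  refine Cy.and (Cy.and (Cy.cutH f w i) (Cy.mem hQ (RF_dat f w i))) ?_
  exact Cy.mem hZ fun a => RF.arc a 0

theorem DN_inter (f : MvPolynomial ι ℂ) (R : Set (E ⊕ ι → ℂ)) (Z : Set (ι → ℂ))
    (B : ℕ → MvPolynomial (E ⊕ ι) ℂ) (N : ℕ) (z : (E → ℂ) × (ι → PowerSeries ℂ)) :
    z ∈ DN f (R ∩ ZP Z) B N ↔ z ∈ DN f R B N ∧ (fun a => PowerSeries.coeff 0 (z.2 a)) ∈ Z := by
  constructor
  · rintro ⟨⟨h1, h2⟩, h3⟩
    exact ⟨⟨h1, h3⟩, h2⟩
  · rintro ⟨⟨h1, h3⟩, h2⟩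
    exact ⟨⟨h1, h2⟩, h3⟩

theorem vol_SDz [Finite E] (P : HodgeMeasure) (f : MvPolynomial ι ℂ) {Z : Set (ι → ℂ)}
    (hZ : Constructible Z) (hf : ∀ x ∈ Z, ∃ i, eval x (pderiv i f) ≠ 0) {Q : Set (E ⊕ Bool → ℂ)}
    (hQ : Constructible Q) {i : ℕ} (hi : 1 ≤ i) :
    vol P.rat xq (SDz f Z true Q i) =
      xq ^ (Fintype.card ι + i) * P.rat.val (RP f Q ∩ ZP Z) := by
  have hR : Constructible (RP f Q ∩ ZP Z) := (con_RP f hQ).inter (con_ZP hZ)
  rw [← vol_DN P f i (BP f i fun _ => 0) Finset.univ _ hR ?_]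
  · refine (vol_base P (Cy_DN f hR _ _) (Cy_SDz f hZ true hQ i) Sum.inl ?_ ?_ ?_).symm
    · intro z hz
      rw [DN_inter] at hz
      have h1 := ((mem_DN_iff f Q hi 0 (fun _ => 0) z).1 hz.1).1
      rw [O5Aux.PD_zero] at h1
      exact ⟨h1, hz.2⟩
    · intro z hz z' hz' h1 h2
      rw [DN_inter] at hz hz'
      have h3 := ((mem_DN_iff f Q hi 0 (fun _ => 0) z).1 hz.1).2
      have h4 := ((mem_DN_iff f Q hi 0 (fun _ => 0) z').1 hz'.1).2
      funext s
      rcases s with p | ⟨⟩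
      · exact congrFun h1 p
      · rw [h3, h4, h2]
    · intro z hz
      refine ⟨Sum.elim z.1 fun _ => PowerSeries.coeff i (aeval z.2 f), rfl, ?_⟩
      rw [DN_inter]
      refine ⟨(mem_DN_iff f Q hi 0 (fun _ => 0) _).2 ⟨?_, rfl⟩, hz.2⟩
      rw [O5Aux.PD_zero]
      exact hz.1
  · intro u hu
    obtain ⟨j, hj⟩ := hf (fun j => u (Sum.inr j)) hu.2
    exact ⟨j, Finset.mem_univ j, hj⟩

theorem SDz_false (f : MvPolynomial ι ℂ) (Z : Set (ι → ℂ)) (Q : Set (E ⊕ Bool → ℂ)) (i : ℕ) :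
    SDz f Z false Q i = DN f (RT f Q ∩ ZP Z) (fun _ => 0) i := by
  ext z
  rw [DN_inter, ← SD_false]
  exact Iff.rfl

end

end VSMAux

open VSMAux O5Aux VGAux

/-- smooth points -/
theorem stmt_VSM : Stmt_VSM := by
  classical
  intro P ι _ f Z hZ hf
  refine ⟨⟨ι, inferInstance, Z, f, xq ^ Fintype.card ι⟩, ⟨?_, ?_⟩, ⟨?_, ?_⟩⟩
  · intro G hG
    rw [List.mem_singleton] at hG
    subst hG
    refine ⟨con_ex hZ, ?_⟩
    rintro (τ : ι ⊕ Unit → ℂ) ⟨h1, h2⟩
    refine ⟨Set.mem_univ _, fun _ => ?_⟩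
    have h3 : eval τ (MvPolynomial.X (Sum.inr ()) : MvPolynomial (ι ⊕ Unit) ℂ) ≠ 0 := by
      rw [eval_X]
      exact h2
    exact h3
  · intro E _ Q hQ i hi
    rw [vol_SDz P f hZ hf hQ.1 (hi rfl)]
    simp only [List.map_cons, List.map_nil, List.sum_cons, List.sum_nil, add_zero]
    rw [pow_add]
    change _ = (xq ^ Fintype.card ι * xq ^ i) * _
    congr 1
    rw [← P.rat.reindex ((Equiv.sumAssoc E Unit ι).trans
      (Equiv.sumCongr (Equiv.refl E) (Equiv.sumComm Unit ι))) ((con_RP f hQ.1).inter (con_ZP hZ))]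
    unfold Fam2.cl
    congr 1
    ext (z : E ⊕ (ι ⊕ Unit) → ℂ)
    constructor
    · rintro ⟨hz, hz2⟩
      have hz' : Sum.elim (fun p => z (Sum.inl p)) (fun b : Bool =>
          if b then eval (fun j => z (Sum.inr (Sum.inl j))) f else z (Sum.inr (Sum.inr ()))) ∈
            Q := hz
      refine ⟨⟨hz2, (hQ.2 _ hz').2 rfl⟩, ?_⟩
      rw [← ev_ex] at hz'
      exact hz'
    · rintro ⟨⟨hz1, -⟩, hz⟩
      have hz' : (Sum.elim (fun p => z (Sum.inl p)) (fun b : Bool =>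
        if b then eval (fun s => z (Sum.inr s)) (rename Sum.inl f : MvPolynomial (ι ⊕ Unit) ℂ) else
          eval (fun s => z (Sum.inr s)) (MvPolynomial.X (Sum.inr ()) :
            MvPolynomial (ι ⊕ Unit) ℂ))) ∈ Q := hz
      rw [ev_ex] at hz'
      exact ⟨hz', hz1⟩
  · intro G hG
    rw [List.mem_singleton] at hG
    subst hG
    exact ⟨hZ, fun τ h => ⟨Set.mem_univ _, fun h' => absurd h' (by decide)⟩⟩
  · intro E _ Q hQ i _
    rw [SDz_false, vol_DN P f i _ Finset.univ _ ((con_RT f hQ.1).inter (con_ZP hZ)) ?_]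
    · simp only [List.map_cons, List.map_nil, List.sum_cons, List.sum_nil, add_zero]
      rw [pow_add]
      change _ = (xq ^ Fintype.card ι * xq ^ i) * _
      congr 1
      unfold Fam2.cl
      congr 1
      ext (z : E ⊕ ι → ℂ)
      constructor
      · rintro ⟨hz, hz2⟩
        have hz' : Sum.elim (fun p => z (Sum.inl p)) (fun b : Bool =>
            if b then eval (fun j => z (Sum.inr j)) f else 0) ∈ Q := hz
        refine ⟨hz2, ?_⟩
        rw [← ev_tl] at hz'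
        exact hz'
      · rintro ⟨hz2, hz⟩
        have hz' : (Sum.elim (fun p => z (Sum.inl p)) (fun b : Bool =>
          if b then eval (fun s => z (Sum.inr s)) f else
            eval (fun s => z (Sum.inr s)) (0 : MvPolynomial ι ℂ))) ∈ Q := hz
        rw [ev_tl] at hz'
        exact ⟨hz', hz2⟩
    · intro u hu
      obtain ⟨j, hj⟩ := hf (fun j => u (Sum.inr j)) hu.2
      exact ⟨j, Finset.mem_univ j, hj⟩

end Pool.Agent.Mono.PC
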