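import Pool.Agent.Work.Monodromy6.CERT0

set_option autoImplicit false

namespace Pool.Agent.Mono.PC

open Polynomial

namespace ALGAux

/-- multiplicity decomposition -/
theorem decomp {R : Type} [CommRing R] [IsDomain R] [UniqueFactorizationMonoid R] (a : R)
    (ha : a ≠ 0) :
    ∃ (n : ℕ) (g : ℕ → R), (∀ j, n < j → g j = 1) ∧ a = ∏ j ∈ Finset.Icc 1 n, g j ^ j ∧
      Squarefree (∏ j ∈ Finset.Icc 1 n, g j) := by
  classical
  revert ha
  refine UniqueFactorizationMonoid.induction_on_coprime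
    (P := fun a => a ≠ 0 → ∃ (n : ℕ) (g : ℕ → R), (∀ j, n < j → g j = 1) ∧
      a = ∏ j ∈ Finset.Icc 1 n, g j ^ j ∧ Squarefree (∏ j ∈ Finset.Icc 1 n, g j)) a ?_ ?_ ?_ ?_
  · intro h
    exact absurd rfl h
  · intro x hx _
    refine ⟨1, fun j => if j = 1 then x else 1, ?_, ?_, ?_⟩
    · intro j hj
      simp [show j ≠ 1 by omega]
    · simp
    · simpa using hx.squarefree
  · intro p i hp _
    rcases Nat.eq_zero_or_pos i with hi | hi
    · subst hi
      exact ⟨0, fun _ => 1, fun _ _ => rfl, by simp, by simp⟩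
    · refine ⟨i, fun j => if j = i then p else 1, ?_, ?_, ?_⟩
      · intro j hj
        simp [show j ≠ i by omega]
      · rw [Finset.prod_eq_single i]
        · simp
        · intro j _ hj
          simp [hj]
        · intro h
          exact absurd (Finset.mem_Icc.2 ⟨hi, le_refl _⟩) h
      · rw [Finset.prod_eq_single i]
        · simpa using hp.irreducible.squarefree
        · intro j _ hj
          simp [hj]
        · intro h
          exact absurd (Finset.mem_Icc.2 ⟨hi, le_refl _⟩) h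
  · intro x y hxy hx hy hne
    have hx0 : x ≠ 0 := left_ne_zero_of_mul hne
    have hy0 : y ≠ 0 := right_ne_zero_of_mul hne
    obtain ⟨n, g, h1, h2, h3⟩ := hx hx0
    obtain ⟨m, k, l1, l2, l3⟩ := hy hy0
    have ext : ∀ (n N : ℕ) (g : ℕ → R), n ≤ N → (∀ j, n < j → g j = 1) →
        (∏ j ∈ Finset.Icc 1 n, g j ^ j = ∏ j ∈ Finset.Icc 1 N, g j ^ j ∧
        ∏ j ∈ Finset.Icc 1 n, g j = ∏ j ∈ Finset.Icc 1 N, g j) := by
      intro n N g hnN hg
      constructor
      · apply Finset.prod_subset (Finset.Icc_subset_Icc_right hnN)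
        intro j _ hj2
        rw [hg j (by simp only [Finset.mem_Icc] at *; omega), one_pow]
      · apply Finset.prod_subset (Finset.Icc_subset_Icc_right hnN)
        intro j _ hj2
        rw [hg j (by simp only [Finset.mem_Icc] at *; omega)]
    have e1 := ext n (max n m) g (le_max_left _ _) h1
    have e2 := ext m (max n m) k (le_max_right _ _) l1
    refine ⟨max n m, fun j => g j * k j, ?_, ?_, ?_⟩
    · intro j hj
      simp only
      rw [h1 j (lt_of_le_of_lt (le_max_left _ _) hj), l1 j (lt_of_le_of_lt (le_max_right _ _) hj),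
        one_mul]
    · simp only [mul_pow, Finset.prod_mul_distrib]
      rw [← e1.1, ← e2.1, ← h2, ← l2]
    · simp only [Finset.prod_mul_distrib]
      rw [← e1.2, ← e2.2]
      rw [squarefree_mul_iff]
      refine ⟨?_, h3, l3⟩
      have d1 : ∏ j ∈ Finset.Icc 1 n, g j ∣ x := by
        rw [h2]
        exact Finset.prod_dvd_prod_of_dvd _ _ fun j hj =>
          dvd_pow_self _ (by simp only [Finset.mem_Icc] at hj; omega)
      have d2 : ∏ j ∈ Finset.Icc 1 m, k j ∣ y := by
        rw [l2]
        exact Finset.prod_dvd_prod_of_dvd _ _ fun j hj =>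
          dvd_pow_self _ (by simp only [Finset.mem_Icc] at hj; omega)
      exact (hxy.of_dvd_left d1).of_dvd_right d2

/-- `x` and `φ` are algebraically dependent modulo `r` -/
theorem exists_rel (r φ : (Polynomial ℂ)[X]) (hr : Prime r) :
    ∃ M : (Polynomial ℂ)[X], M ≠ 0 ∧ r ∣ aevalAeval (C X) φ M := by
  classical
  have : IsDomain (AdjoinRoot r) := AdjoinRoot.isDomain_of_prime hr
  have hroot : IsAlgebraic (Polynomial ℂ) (AdjoinRoot.root r) := by
    refine ⟨r, hr.ne_zero, ?_⟩
    rw [AdjoinRoot.aeval_eq, AdjoinRoot.mk_self]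
  have halg : ∀ ψ : (Polynomial ℂ)[X], IsAlgebraic (Polynomial ℂ) (AdjoinRoot.mk r ψ) := by
    intro ψ
    induction ψ using Polynomial.induction_on' with
    | add p q hp hq =>
      rw [map_add]
      exact hp.add hq
    | monomial n a =>
      rw [← C_mul_X_pow_eq_monomial, map_mul, map_pow, AdjoinRoot.mk_C, AdjoinRoot.mk_X]
      exact (isAlgebraic_algebraMap a).mul (hroot.pow n)
  obtain ⟨M, hM, h⟩ := halg φ
  refine ⟨M, hM, ?_⟩
  rw [← AdjoinRoot.mk_eq_zero, ← h]
  clear h hM
  induction M using Polynomial.induction_on' with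
  | add p q hp hq => simp only [map_add, hp, hq]
  | monomial n a =>
    rw [← C_mul_X_pow_eq_monomial, map_mul, map_pow, map_mul, map_pow, map_mul, map_pow,
      aevalAeval_C, aeval_C, aeval_X]
    congr 1
    · have h1 : aeval (C X : (Polynomial ℂ)[X]) a = C a := by
        induction a using Polynomial.induction_on' with
        | add p q hp hq => simp only [map_add, hp, hq]
        | monomial n a =>
          rw [← C_mul_X_pow_eq_monomial]
          simp
      rw [h1]
      rfl
    · simp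

/-- the derivation `g_y ∂_x - g_x ∂_y` -/
noncomputable def ham (g : MvPolynomial (Fin 2) ℂ) :
    Derivation ℂ (MvPolynomial (Fin 2) ℂ) (MvPolynomial (Fin 2) ℂ) :=
  (MvPolynomial.pderiv 1 g) • MvPolynomial.pderiv 0 - (MvPolynomial.pderiv 0 g) •
    MvPolynomial.pderiv 1

theorem ham_apply (g h : MvPolynomial (Fin 2) ℂ) :
    ham g h = MvPolynomial.pderiv 1 g * MvPolynomial.pderiv 0 h -
      MvPolynomial.pderiv 0 g * MvPolynomial.pderiv 1 h := by
  simp [ham]

/-- chain rule modulo `p` -/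
theorem chain (p f : MvPolynomial (Fin 2) ℂ) (h : p ∣ ham p f) (M : (Polynomial ℂ)[X]) :
    p ∣ ham p (aevalAeval f (MvPolynomial.X 0) M) -
      aevalAeval f (MvPolynomial.X 0) (derivative M) * MvPolynomial.pderiv 1 p := by
  induction M using Polynomial.induction_on' with
  | add a b ha hb =>
    have := dvd_add ha hb
    simp only [map_add]
    convert this using 1
    ring
  | monomial n a =>
    rw [← C_mul_X_pow_eq_monomial]
    have h1 : ham p (MvPolynomial.X 0) = MvPolynomial.pderiv 1 p := by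
      rw [ham_apply]
      simp [MvPolynomial.pderiv_X]
    have e1 : aevalAeval f (MvPolynomial.X 0) (C a * X ^ n) =
        aeval f a * MvPolynomial.X 0 ^ n := by
      rw [map_mul, map_pow, aevalAeval_C, aevalAeval_Y]
    have e2 : aevalAeval f (MvPolynomial.X 0) (derivative (C a * X ^ n)) =
        aeval f a * ((n : MvPolynomial (Fin 2) ℂ) * MvPolynomial.X 0 ^ (n - 1)) := by
      rw [derivative_mul, derivative_C, zero_mul, zero_add, derivative_X_pow, map_mul,
        aevalAeval_C, map_mul, map_pow, aevalAeval_Y]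
      simp
    rw [e1, e2, Derivation.leibniz, Derivation.map_aeval, Derivation.leibniz_pow, h1]
    obtain ⟨w, hw⟩ := h
    rw [hw]
    refine ⟨MvPolynomial.X 0 ^ n * (aeval f (derivative a) * w), ?_⟩
    simp only [smul_eq_mul, nsmul_eq_mul]
    ring

/-- `f` is constant on the curve `p = 0` if its partial derivatives vanish there; `p` involves `y` -/
theorem const1 (p f : MvPolynomial (Fin 2) ℂ) (hp : Irreducible p)
    (hdeg : ((Bivariate.equivMvPolynomial ℂ).symm p).natDegree ≠ 0)
    (h0 : p ∣ MvPolynomial.pderiv 0 f) (h1 : p ∣ MvPolynomial.pderiv 1 f) :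
    ∃ c : ℂ, p ∣ f - MvPolynomial.C c := by
  classical
  set e := Bivariate.equivMvPolynomial ℂ with he
  set r := e.symm p with hr
  have hpr : Prime p := hp.prime
  have hrp : Prime r := (MulEquiv.prime_iff e.symm).2 hpr
  have hpy : ¬ p ∣ MvPolynomial.pderiv 1 p := by
    intro h
    have h2 : MvPolynomial.pderiv 1 p = e (derivative r) := by
      rw [he, ← Bivariate.pderiv_one_equivMvPolynomial]
      simp [hr, he]
    have h3 : r ∣ derivative r := by
      have := map_dvd e.symm h
      rwa [h2, AlgEquiv.symm_apply_apply] at this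
    have h5 : derivative r ≠ 0 := fun h0 => hdeg (derivative_eq_zero.1 h0)
    have h6 := natDegree_le_of_dvd h3 h5
    have h7 := natDegree_derivative_lt hdeg
    omega
  have hf : p ∣ ham p f := by
    rw [ham_apply]
    exact dvd_sub (dvd_mul_of_dvd_right h0 _) (dvd_mul_of_dvd_right h1 _)
  have hex : ∃ n : ℕ, ∃ M : (Polynomial ℂ)[X], M ≠ 0 ∧ M.natDegree = n ∧
      p ∣ aevalAeval f (MvPolynomial.X 0) M := by
    obtain ⟨M, hM, hd⟩ := exists_rel r (e.symm f) hrp
    refine ⟨_, Bivariate.swap M, ?_, rfl, ?_⟩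
    · exact (map_ne_zero_iff _ Bivariate.swap.injective).2 hM
    · rw [Bivariate.aevalAeval_swap]
      have h2 := map_dvd e hd
      have h3 : e (aevalAeval (C X) (e.symm f) M) = aevalAeval (MvPolynomial.X 0) f M := by
        have h4 : (e.toAlgHom).comp (aevalAeval (C X) (e.symm f)) =
            aevalAeval (MvPolynomial.X 0) f := by
          ext <;> simp [he]
        exact DFunLike.congr_fun h4 M
      rw [h3] at h2
      simpa [hr] using h2
  obtain ⟨M, hM, hn, hd⟩ := Nat.find_spec hex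
  have hmin := fun m hm => Nat.find_min hex (m := m) hm
  have hdegM : M.natDegree = 0 := by
    by_contra hne
    have h2 := chain p f hf M
    have h3 : p ∣ ham p (aevalAeval f (MvPolynomial.X 0) M) := by
      obtain ⟨w, hw⟩ := hd
      rw [hw, Derivation.leibniz]
      have h4 : ham p p = 0 := by
        rw [ham_apply]
        ring
      rw [h4, smul_zero, add_zero, smul_eq_mul]
      exact Dvd.intro _ rfl
    have h5 : p ∣ aevalAeval f (MvPolynomial.X 0) (derivative M) * MvPolynomial.pderiv 1 p :=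
      (dvd_sub_right h3).1 h2
    have h6 := (hpr.dvd_or_dvd h5).resolve_right hpy
    have h7 : derivative M ≠ 0 := fun h0 => hne (derivative_eq_zero.1 h0)
    refine hmin _ ?_ ⟨derivative M, h7, rfl, h6⟩
    rw [← hn]
    exact natDegree_derivative_lt hne
  obtain ⟨a, ha⟩ := natDegree_eq_zero.1 hdegM
  rw [← ha, aevalAeval_C] at hd
  have ha0 : a ≠ 0 := by
    rintro rfl
    apply hM
    rw [← ha, map_zero]
  have hsplit := IsAlgClosed.splits a
  rw [hsplit.eq_prod_roots] at hd
  rw [map_mul, aeval_C, map_multiset_prod, Multiset.map_map] at hd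
  rcases hpr.dvd_or_dvd hd with h2 | h2
  · exfalso
    apply hpr.not_isUnit
    refine isUnit_of_dvd_unit h2 ?_
    exact (isUnit_iff_ne_zero.2 (leadingCoeff_ne_zero.2 ha0)).map (algebraMap ℂ _)
  · obtain ⟨q, hq, hpq⟩ := hpr.exists_mem_multiset_dvd h2
    obtain ⟨c, _, rfl⟩ := Multiset.mem_map.1 hq
    refine ⟨c, ?_⟩
    simpa using hpq

/-- exchange of the variables -/
noncomputable def sw : MvPolynomial (Fin 2) ℂ ≃ₐ[ℂ] MvPolynomial (Fin 2) ℂ :=
  MvPolynomial.renameEquiv ℂ (Equiv.swap (0 : Fin 2) 1)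

theorem sw_apply (p : MvPolynomial (Fin 2) ℂ) :
    sw p = MvPolynomial.rename (Equiv.swap (0 : Fin 2) 1) p := rfl

theorem pderiv_sw0 (p : MvPolynomial (Fin 2) ℂ) :
    MvPolynomial.pderiv 0 (sw p) = sw (MvPolynomial.pderiv 1 p) := by
  have := MvPolynomial.pderiv_rename (R := ℂ) (Equiv.swap (0 : Fin 2) 1).injective 1 p
  simpa [sw_apply] using this

theorem pderiv_sw1 (p : MvPolynomial (Fin 2) ℂ) :
    MvPolynomial.pderiv 1 (sw p) = sw (MvPolynomial.pderiv 0 p) := by
  have := MvPolynomial.pderiv_rename (R := ℂ) (Equiv.swap (0 : Fin 2) 1).injective 0 p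
  simpa [sw_apply] using this

theorem e_C (u : Polynomial ℂ) :
    Bivariate.equivMvPolynomial ℂ (C u) = aeval (MvPolynomial.X 0 : MvPolynomial (Fin 2) ℂ) u := by
  simp only [Bivariate.equivMvPolynomial, AlgEquiv.ofAlgHom_apply, aevalAeval_C]

/-- `f` is constant on the curve `p = 0` if its partial derivatives vanish there -/
theorem const2 (p f : MvPolynomial (Fin 2) ℂ) (hp : Irreducible p)
    (h0 : p ∣ MvPolynomial.pderiv 0 f) (h1 : p ∣ MvPolynomial.pderiv 1 f) :
    ∃ c : ℂ, p ∣ f - MvPolynomial.C c := by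
  classical
  by_cases hdeg : ((Bivariate.equivMvPolynomial ℂ).symm p).natDegree = 0
  · obtain ⟨u, hu⟩ := natDegree_eq_zero.1 hdeg
    have hpu : p = aeval (MvPolynomial.X 0 : MvPolynomial (Fin 2) ℂ) u := by
      rw [← e_C, hu, AlgEquiv.apply_symm_apply]
    have hsp : (Bivariate.equivMvPolynomial ℂ).symm (sw p) = u.map C := by
      have h2 : sw p = aeval (MvPolynomial.X 1 : MvPolynomial (Fin 2) ℂ) u := by
        rw [hpu, sw_apply, ← Polynomial.aeval_algHom_apply, MvPolynomial.rename_X,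
          Equiv.swap_apply_left]
      rw [h2, AlgEquiv.symm_apply_eq, ← Bivariate.swap_C]
      simp only [Bivariate.equivMvPolynomial, AlgEquiv.ofAlgHom_apply,
        Bivariate.aevalAeval_swap, aevalAeval_C]
    have hdeg2 : ((Bivariate.equivMvPolynomial ℂ).symm (sw p)).natDegree ≠ 0 := by
      rw [hsp, natDegree_map_eq_of_injective (C_injective)]
      intro h
      obtain ⟨c, rfl⟩ := natDegree_eq_zero.1 h
      rw [aeval_C] at hpu
      by_cases hc : c = 0
      · apply hp.ne_zero
        rw [hpu, hc, map_zero]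
      · apply hp.not_isUnit
        rw [hpu]
        exact (isUnit_iff_ne_zero.2 hc).map _
    have hirr : Irreducible (sw p) := (MulEquiv.irreducible_iff sw).2 hp
    obtain ⟨c, hc⟩ := const1 (sw p) (sw f) hirr hdeg2
      (by rw [pderiv_sw0]; exact map_dvd sw h1) (by rw [pderiv_sw1]; exact map_dvd sw h0)
    refine ⟨c, ?_⟩
    have h3 := map_dvd sw.symm hc
    rw [AlgEquiv.symm_apply_apply, map_sub, AlgEquiv.symm_apply_apply] at h3
    convert h3 using 2
    rw [eq_comm, AlgEquiv.symm_apply_eq, sw_apply, MvPolynomial.rename_C]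
  · exact const1 p f hp hdeg h0 h1

/-- finitely many points with prescribed coordinates -/
theorem fin_of_roots (Z : Set (Fin 2 → ℂ)) (ρ σ : Polynomial ℂ) (hρ : ρ ≠ 0) (hσ : σ ≠ 0)
    (h : ∀ x ∈ Z, ρ.eval (x 0) = 0 ∧ σ.eval (x 1) = 0) : Z.Finite := by
  classical
  have h1 : (Set.pi Set.univ (![(ρ.roots.toFinset : Set ℂ), (σ.roots.toFinset : Set ℂ)])).Finite := by
    apply Set.Finite.pi
    intro i
    fin_cases i
    · exact Finset.finite_toSet _
    · exact Finset.finite_toSet _
  refine h1.subset ?_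
  intro x hx
  obtain ⟨a, b⟩ := h x hx
  simp only [Set.mem_pi, Set.mem_univ, forall_true_left]
  intro i
  fin_cases i
  · simpa [hρ] using a
  · simpa [hσ] using b

theorem eval_aeval_X (x : Fin 2 → ℂ) (i : Fin 2) (ρ : Polynomial ℂ) :
    MvPolynomial.eval x (aeval (MvPolynomial.X i : MvPolynomial (Fin 2) ℂ) ρ) = ρ.eval (x i) := by
  rw [Polynomial.aeval_def, Polynomial.hom_eval₂]
  have : (MvPolynomial.eval x).comp (algebraMap ℂ (MvPolynomial (Fin 2) ℂ)) = RingHom.id ℂ := by
    ext
    simp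
  rw [this, MvPolynomial.eval_X]
  simp [Polynomial.eval₂_id]

theorem eval_sw (x : Fin 2 → ℂ) (p : MvPolynomial (Fin 2) ℂ) :
    MvPolynomial.eval x (sw p) = MvPolynomial.eval (fun i => x (Equiv.swap (0 : Fin 2) 1 i)) p := by
  rw [sw_apply, MvPolynomial.eval_rename]
  rfl

/-- elimination of `y` for two relatively prime polynomials -/
theorem elim2 (a b : MvPolynomial (Fin 2) ℂ) (ha : a ≠ 0) (h : IsRelPrime a b) :
    ∃ ρ : Polynomial ℂ, ρ ≠ 0 ∧ ∀ x : Fin 2 → ℂ, MvPolynomial.eval x a = 0 →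
      MvPolynomial.eval x b = 0 → ρ.eval (x 0) = 0 := by
  classical
  have := Classical.arbitrary (NormalizedGCDMonoid (Polynomial ℂ))
  let e := Bivariate.equivMvPolynomial ℂ
  obtain ⟨u, v, ρ, hρ, h2⟩ := CertAux.elim (e.symm a) (e.symm b)
    ((map_ne_zero_iff _ e.symm.injective).2 ha) (by
      intro q hq h1 h2
      exfalso
      apply hq.not_isUnit
      have h3 := h (by simpa using map_dvd e h1) (by simpa using map_dvd e h2)
      simpa using h3.map e.symm)
  refine ⟨ρ, hρ, fun x hxa hxb => ?_⟩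
  have h3 := congrArg e h2
  rw [map_add, map_mul, map_mul, AlgEquiv.apply_symm_apply, AlgEquiv.apply_symm_apply, e_C] at h3
  have h4 := congrArg (MvPolynomial.eval x) h3
  rw [eval_aeval_X] at h4
  rw [← h4]
  simp [hxa, hxb]

/-- two relatively prime polynomials have finitely many common zeros -/
theorem fin_common (a b : MvPolynomial (Fin 2) ℂ) (ha : a ≠ 0) (h : IsRelPrime a b) :
    {x : Fin 2 → ℂ | MvPolynomial.eval x a = 0 ∧ MvPolynomial.eval x b = 0}.Finite := by
  obtain ⟨ρ, hρ, h1⟩ := elim2 a b ha h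
  have hsw : IsRelPrime (sw a) (sw b) := by
    intro d h1 h2
    have h3 := h (by simpa using map_dvd sw.symm h1) (by simpa using map_dvd sw.symm h2)
    simpa using h3.map sw
  obtain ⟨σ, hσ, h2⟩ := elim2 (sw a) (sw b) ((map_ne_zero_iff _ sw.injective).2 ha) hsw
  refine fin_of_roots _ ρ σ hρ hσ ?_
  rintro x ⟨hxa, hxb⟩
  refine ⟨h1 x hxa hxb, ?_⟩
  have h3 := h2 (fun i => x (Equiv.swap (0 : Fin 2) 1 i))
  rw [eval_sw, eval_sw] at h3
  simp only [Equiv.swap_apply_self] at h3
  simpa using h3 (by simpa using hxa) (by simpa using hxb)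

/-- a squarefree curve has finitely many singular points -/
theorem fin_sing (S : MvPolynomial (Fin 2) ℂ) (hS : Squarefree S) :
    {x : Fin 2 → ℂ | MvPolynomial.eval x S = 0 ∧
      ∀ i, MvPolynomial.eval x (MvPolynomial.pderiv i S) = 0}.Finite := by
  obtain ⟨a, b, ρ, hρ, h1⟩ := cert_main S hS
  have hsw : Squarefree (sw S) := by
    intro d hd
    have h2 := hS (sw.symm d) (by
      have := map_dvd sw.symm hd
      rwa [map_mul, AlgEquiv.symm_apply_apply] at this)
    simpa using h2.map sw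
  obtain ⟨a', b', σ, hσ, h2⟩ := cert_main (sw S) hsw
  refine fin_of_roots _ ρ σ hρ hσ ?_
  rintro x ⟨hx, hd⟩
  have h3 := congrArg (MvPolynomial.eval x) h1
  have h4 := congrArg (MvPolynomial.eval fun i => x (Equiv.swap (0 : Fin 2) 1 i)) h2
  rw [eval_aeval_X] at h3 h4
  constructor
  · rw [← h3]
    simp [hx, hd 1]
  · rw [pderiv_sw1, map_add, map_mul, map_mul, eval_sw, eval_sw] at h4
    simp only [Equiv.swap_apply_self] at h4
    have e1 : (Equiv.swap (0 : Fin 2) 1) 0 = 1 := Equiv.swap_apply_left 0 1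
    rw [e1] at h4
    rw [← h4]
    simp [hx, hd 0]

/-- if `f` is constant on the common components of `a = 0` and `b = 0`, then it has finitely many
values on `a = b = 0` -/
theorem fin_values (a b f : MvPolynomial (Fin 2) ℂ) (ha : a ≠ 0)
    (h : ∀ p, Irreducible p → p ∣ a → p ∣ b → ∃ c : ℂ, p ∣ f - MvPolynomial.C c) :
    {c : ℂ | ∃ x : Fin 2 → ℂ, MvPolynomial.eval x a = 0 ∧ MvPolynomial.eval x b = 0 ∧
      MvPolynomial.eval x f = c}.Finite := by
  classical
  have key : ∀ p, Irreducible p → p ∣ a →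
      {c : ℂ | ∃ x : Fin 2 → ℂ, MvPolynomial.eval x p = 0 ∧ MvPolynomial.eval x b = 0 ∧
        MvPolynomial.eval x f = c}.Finite := by
    intro p hp hpa
    by_cases hpb : p ∣ b
    · obtain ⟨c, w, hw⟩ := h p hp hpa hpb
      refine (Set.finite_singleton c).subset ?_
      rintro _ ⟨x, hx, _, rfl⟩
      have := congrArg (MvPolynomial.eval x) hw
      rw [map_mul, hx, zero_mul, map_sub, MvPolynomial.eval_C, sub_eq_zero] at this
      exact this
    · have h1 := fin_common p b hp.ne_zero ((hp.isRelPrime_iff_not_dvd).2 hpb)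
      refine (h1.image (fun x => MvPolynomial.eval x f)).subset ?_
      rintro _ ⟨x, hx, hb, rfl⟩
      exact ⟨x, ⟨hx, hb⟩, rfl⟩
  have h2 : (⋃ p ∈ (UniqueFactorizationMonoid.factors a).toFinset,
      {c : ℂ | ∃ x : Fin 2 → ℂ, MvPolynomial.eval x p = 0 ∧ MvPolynomial.eval x b = 0 ∧
        MvPolynomial.eval x f = c}).Finite := by
    refine Set.Finite.biUnion (Finset.finite_toSet _) ?_
    intro p hp
    have hp' := Multiset.mem_toFinset.1 hp
    exact key p (UniqueFactorizationMonoid.irreducible_of_factor p hp')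
      (UniqueFactorizationMonoid.dvd_of_mem_factors hp')
  refine h2.subset ?_
  rintro _ ⟨x, hx, hb, rfl⟩
  have h3 := UniqueFactorizationMonoid.factors_prod ha
  have h4 : MvPolynomial.eval x (UniqueFactorizationMonoid.factors a).prod = 0 := by
    obtain ⟨u, hu⟩ := h3
    have h5 := congrArg (MvPolynomial.eval x) hu
    rw [map_mul, hx] at h5
    rcases mul_eq_zero.1 h5 with h6 | h6
    · exact h6
    · exact absurd h6 ((u.isUnit.map (MvPolynomial.eval x)).ne_zero)
  rw [map_multiset_prod, Multiset.prod_eq_zero_iff] at h4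
  obtain ⟨p, hp, hpx⟩ := Multiset.mem_map.1 h4
  simp only [Set.mem_iUnion]
  exact ⟨p, Multiset.mem_toFinset.2 hp, x, hpx, hb, rfl⟩

theorem pderiv_ne (f : MvPolynomial (Fin 2) ℂ) (hf : f.totalDegree ≠ 0) :
    MvPolynomial.pderiv 0 f ≠ 0 ∨ MvPolynomial.pderiv 1 f ≠ 0 := by
  classical
  by_contra hcon
  push Not at hcon
  obtain ⟨h0, h1⟩ := hcon
  apply hf
  set e := Bivariate.equivMvPolynomial ℂ with he
  have h2 : derivative (e.symm f) = 0 := by
    have := Bivariate.pderiv_one_equivMvPolynomial (e.symm f)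
    rw [← he, AlgEquiv.apply_symm_apply, h1] at this
    exact ((map_eq_zero_iff _ e.injective).1 this.symm)
  obtain ⟨u, hu⟩ := natDegree_eq_zero.1 (derivative_eq_zero.1 h2)
  have hfu : f = aeval (MvPolynomial.X 0 : MvPolynomial (Fin 2) ℂ) u := by
    rw [← e_C, hu, AlgEquiv.apply_symm_apply]
  have h3 : aeval (MvPolynomial.X 0 : MvPolynomial (Fin 2) ℂ) (derivative u) = 0 := by
    rw [hfu, Derivation.map_aeval] at h0
    simpa using h0
  rw [← e_C] at h3
  have h4 := (map_eq_zero_iff _ e.injective).1 h3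
  obtain ⟨c, rfl⟩ := natDegree_eq_zero.1 (derivative_eq_zero.1 (C_eq_zero.1 h4))
  rw [hfu, aeval_C]
  exact MvPolynomial.totalDegree_C c

theorem fin_crit (f : MvPolynomial (Fin 2) ℂ) (hf : f.totalDegree ≠ 0) :
    {c : ℂ | ∃ x : Fin 2 → ℂ, (∀ i, MvPolynomial.eval x (MvPolynomial.pderiv i f) = 0) ∧
      MvPolynomial.eval x f = c}.Finite := by
  rcases pderiv_ne f hf with h | h
  · refine (fin_values _ (MvPolynomial.pderiv 1 f) f h fun p hp h1 h2 =>
      const2 p f hp h1 h2).subset ?_
    rintro c ⟨x, hx, hc⟩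
    exact ⟨x, hx 0, hx 1, hc⟩
  · refine (fin_values _ (MvPolynomial.pderiv 0 f) f h fun p hp h1 h2 =>
      const2 p f hp h2 h1).subset ?_
    rintro c ⟨x, hx, hc⟩
    exact ⟨x, hx 1, hx 0, hc⟩

/-- critical values, multiple components, singular points -/
theorem alg_main (f : MvPolynomial (Fin 2) ℂ) (hf : f.totalDegree ≠ 0) : ∃ crit : Finset ℂ,
    (∀ x : Fin 2 → ℂ, (∀ i, MvPolynomial.eval x (MvPolynomial.pderiv i f) = 0) →
      MvPolynomial.eval x f ∈ crit) ∧
    ∀ c ∈ crit, ∃ (n : ℕ) (g : ℕ → MvPolynomial (Fin 2) ℂ),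
      f = MvPolynomial.C c + ∏ j ∈ Finset.Icc 1 n, g j ^ j ∧
      Squarefree (∏ j ∈ Finset.Icc 1 n, g j) ∧
      {x : Fin 2 → ℂ | MvPolynomial.eval x f = c ∧
        ∀ i, MvPolynomial.eval x (MvPolynomial.pderiv i (∏ j ∈ Finset.Icc 1 n, g j)) = 0}.Finite := by
  classical
  refine ⟨(fin_crit f hf).toFinset, ?_, ?_⟩
  · intro x hx
    rw [Set.Finite.mem_toFinset]
    exact ⟨x, hx, rfl⟩
  · intro c _
    have hne : f - MvPolynomial.C c ≠ 0 := by
      intro h0
      apply hf
      rw [sub_eq_zero.1 h0]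
      exact MvPolynomial.totalDegree_C c
    obtain ⟨n, g, _, h2, h3⟩ := decomp (f - MvPolynomial.C c) hne
    refine ⟨n, g, by rw [← h2]; ring, h3, ?_⟩
    refine (fin_sing _ h3).subset ?_
    rintro x ⟨hx, hd⟩
    refine ⟨?_, hd⟩
    have h4 := congrArg (MvPolynomial.eval x) h2
    rw [map_sub, hx, MvPolynomial.eval_C, sub_self, map_prod] at h4
    obtain ⟨j, hj, hj0⟩ := Finset.prod_eq_zero_iff.1 h4.symm
    rw [map_pow] at hj0
    rw [map_prod]
    exact Finset.prod_eq_zero hj (eq_zero_of_pow_eq_zero hj0)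

end ALGAux

end Pool.Agent.Mono.PC
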