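import Pool.Agent.Work.Monodromy.Interface6V
import Pool.Agent.Work.Monodromy6.ALG0

/-! Phase 6, volume part: critical values, multiple components, singular points. -/

set_option autoImplicit false

namespace Pool.Agent.Mono.PC

theorem stmt_ALG : Stmt_ALG := ALGAux.alg_main

end Pool.Agent.Mono.PC
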