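import Pool.Agent.Work.Monodromy.Defs6

/-!
# Phase 6: a polynomial in two variables has finitely many critical values (helper17)
-/

set_option autoImplicit false

namespace Pool.Agent.Mono.PC.ALGA

open MvPolynomial

/-- the maximal ideal of a point -/
noncomputable def M (x : Fin 2 → ℂ) : Ideal P2 := RingHom.ker (eval x : P2 →+* ℂ)

theorem mem_M (x : Fin 2 → ℂ) (g : P2) : g ∈ M x ↔ eval x g = 0 := Iff.rfl

theorem M_inj : Function.Injective M := by
  intro x y h
  funext i
  have h1 : (X i - C (x i) : P2) ∈ M x := by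
    rw [mem_M]; simp
  rw [h, mem_M] at h1
  simp only [map_sub, eval_X, eval_C] at h1
  exact (sub_eq_zero.1 h1).symm

instance M_max (x : Fin 2 → ℂ) : (M x).IsMaximal := by
  unfold M
  apply RingHom.ker_isMaximal_of_surjective
  intro c
  exact ⟨C c, by simp⟩

theorem dim2 : ringKrullDim P2 = 2 := by
  rw [MvPolynomial.ringKrullDim_of_isNoetherianRing]
  simp

theorem fin_points (p b : P2) (hp : Irreducible p) (hb : ¬ p ∣ b) :
    {x : Fin 2 → ℂ | eval x p = 0 ∧ eval x b = 0}.Finite := by
  classical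
  set J : Ideal P2 := Ideal.span {p, b} with hJ
  have hfin : J.minimalPrimes.Finite := Ideal.finite_minimalPrimes_of_isNoetherianRing P2 J
  refine Set.Finite.of_finite_image (f := M) (hfin.subset ?_) M_inj.injOn
  rintro _ ⟨x, ⟨hx1, hx2⟩, rfl⟩
  have hJM : J ≤ M x := by
    rw [hJ, Ideal.span_le]
    intro z hz
    simp only [Set.mem_insert_iff, Set.mem_singleton_iff] at hz
    rcases hz with rfl | rfl
    · exact hx1
    · exact hx2
  obtain ⟨q, hq, hqM⟩ := Ideal.exists_minimalPrimes_le hJM
  by_cases hqe : q = M x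
  · rwa [← hqe]
  exfalso
  have hqlt : q < M x := lt_of_le_of_ne hqM hqe
  have hqp : q.IsPrime := hq.1.1
  have hpp : Prime p := hp.prime
  have hPp : (Ideal.span {p} : Ideal P2).IsPrime := (Ideal.span_singleton_prime hp.ne_zero).2 hpp
  have hJq : J ≤ q := hq.1.2
  have hpq : p ∈ q := hJq (Ideal.subset_span (by simp))
  have hbq : b ∈ q := hJq (Ideal.subset_span (by simp))
  have h1 : (Ideal.span {p} : Ideal P2) < q := by
    refine lt_of_le_of_ne ((Ideal.span_singleton_le_iff_mem _).2 hpq) ?_
    intro h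
    rw [← h, Ideal.mem_span_singleton] at hbq
    exact hb hbq
  have h0 : (⊥ : Ideal P2) < Ideal.span {p} := by
    rw [bot_lt_iff_ne_bot]
    intro h
    rw [Ideal.span_singleton_eq_bot] at h
    exact hp.ne_zero h
  have : (⊥ : Ideal P2).IsPrime := Ideal.isPrime_bot
  have e1 := Ideal.height_add_one_le_of_lt_of_isPrime h0
  have e2 := Ideal.height_add_one_le_of_lt_of_isPrime h1
  have e3 := Ideal.height_add_one_le_of_lt_of_isPrime hqlt
  have e4 : ((M x).height : WithBot ℕ∞) ≤ 2 := by
    rw [← dim2]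
    exact Ideal.height_le_ringKrullDim_of_isPrime
  have e5 : (M x).height ≤ 2 := WithBot.coe_le_coe.1 e4
  have e6 : (3 : ℕ∞) ≤ (M x).height := by
    calc (3 : ℕ∞) = 0 + 1 + 1 + 1 := by norm_num
      _ ≤ (⊥ : Ideal P2).height + 1 + 1 + 1 := by gcongr; exact zero_le
      _ ≤ _ := le_trans (by gcongr; exact le_trans (by gcongr) e2) e3
  have := e6.trans e5
  exact absurd this (by decide)

/-- common zeros of relatively prime polynomials -/
theorem fin_coprime (a b : P2) (ha : a ≠ 0) (h : IsRelPrime a b) :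
    {x : Fin 2 → ℂ | eval x a = 0 ∧ eval x b = 0}.Finite := by
  classical
  have h1 : {x : Fin 2 → ℂ | eval x a = 0 ∧ eval x b = 0} ⊆
      ⋃ p ∈ (UniqueFactorizationMonoid.factors a).toFinset,
        {x : Fin 2 → ℂ | eval x p = 0 ∧ eval x b = 0} := by
    rintro x ⟨hx1, hx2⟩
    have hprod := UniqueFactorizationMonoid.factors_prod ha
    obtain ⟨u, hu⟩ := hprod
    have h2 : eval x (UniqueFactorizationMonoid.factors a).prod = 0 := by
      have h3 : eval x ((UniqueFactorizationMonoid.factors a).prod * (u : P2)) = 0 := by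
        rw [hu]; exact hx1
      rw [map_mul] at h3
      rcases mul_eq_zero.1 h3 with h4 | h4
      · exact h4
      · exact absurd h4 ((u.isUnit.map (eval x)).ne_zero)
    rw [map_multiset_prod, Multiset.prod_eq_zero_iff] at h2
    obtain ⟨p, hp1, hp2⟩ := Multiset.mem_map.1 h2
    simp only [Set.mem_iUnion, Multiset.mem_toFinset]
    exact ⟨p, hp1, hp2, hx2⟩
  refine Set.Finite.subset ?_ h1
  refine Set.Finite.biUnion (Finset.finite_toSet _) ?_
  intro p hp
  have hp' : p ∈ UniqueFactorizationMonoid.factors a := by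
    simpa using hp
  have hirr := UniqueFactorizationMonoid.irreducible_of_factor p hp'
  refine fin_points p b hirr ?_
  intro hb
  exact hirr.not_isUnit (h (UniqueFactorizationMonoid.dvd_of_mem_factors hp') hb)

theorem deg_pderiv_lt (p : P2) (i : Fin 2) (h : pderiv i p ≠ 0) :
    degreeOf i (pderiv i p) < degreeOf i p := by
  have hpos : 0 < degreeOf i p := by
    rw [Nat.pos_iff_ne_zero]
    intro h0
    apply h
    apply pderiv_eq_zero_of_notMem_vars
    intro hv
    obtain ⟨d, hd1, hd2⟩ := (mem_vars_iff_mem_support (p := p) i).1 hv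
    have := (degreeOf_le_iff (n := i) (f := p)).1 le_rfl d hd1
    have h3 : d i ≠ 0 := by simpa using hd2
    omega
  rw [degreeOf_lt_iff hpos]
  intro m hm
  rw [mem_support_iff, coeff_pderiv] at hm
  have hm2 : coeff (m + Finsupp.single i 1) p ≠ 0 := fun h0 => hm (by rw [h0]; simp)
  have := (degreeOf_le_iff (n := i) (f := p)).1 le_rfl (m + Finsupp.single i 1)
    (by rwa [mem_support_iff])
  simp only [Finsupp.add_apply, Finsupp.single_eq_same] at this
  omega

/-- the derivative in direction of a variable is not divisible -/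
theorem not_dvd_pderiv (p : P2) (i : Fin 2) (h : pderiv i p ≠ 0) : ¬ p ∣ pderiv i p := by
  rintro ⟨q, hq⟩
  have hp0 : p ≠ 0 := by
    rintro rfl
    simp at h
  have hq0 : q ≠ 0 := by
    rintro rfl
    exact h (by simpa using hq)
  have h1 : degreeOf i (pderiv i p) = degreeOf i p + degreeOf i q := by
    rw [hq, degreeOf_mul_eq hp0 hq0]
  have h2 := deg_pderiv_lt p i h
  omega

theorem coeff_eq_zero (p : P2) (i : Fin 2) (h : pderiv i p = 0) (d : Fin 2 →₀ ℕ) (hi : d i ≠ 0) :
    coeff d p = 0 := by
  have h1 := congrArg (coeff (d - Finsupp.single i 1)) h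
  rw [coeff_pderiv, coeff_zero] at h1
  have h2 : d - Finsupp.single i 1 + Finsupp.single i 1 = d := by
    apply tsub_add_cancel_of_le
    rw [Finsupp.single_le_iff]
    omega
  rw [h2] at h1
  rcases mul_eq_zero.1 h1 with h3 | h3
  · exact h3
  · exfalso
    exact (Nat.cast_add_one_ne_zero _ :
      ((((d - Finsupp.single i 1 : Fin 2 →₀ ℕ) i : ℕ) : ℂ) + 1 ≠ 0)) h3

theorem eq_C (p : P2) (hcon : ∀ i, pderiv i p = 0) : p = C (coeff 0 p) := by
  ext d
  rw [coeff_C]
  by_cases hd : 0 = d
  · rw [if_pos hd, ← hd]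
  · rw [if_neg hd]
    obtain ⟨i, hi⟩ : ∃ i, d i ≠ 0 := by
      by_contra h0
      push Not at h0
      exact hd (Finsupp.ext fun i => (h0 i).symm)
    exact coeff_eq_zero p i (hcon i) d hi

theorem exists_pderiv (p : P2) (hp : Irreducible p) : ∃ i, pderiv i p ≠ 0 := by
  by_contra hcon
  push Not at hcon
  have hconst : p = C (coeff 0 p) := eq_C p hcon
  have hu : IsUnit p := by
    rw [hconst]
    apply IsUnit.map
    rw [isUnit_iff_ne_zero]
    intro h0
    rw [h0] at hconst
    exact hp.ne_zero (by rw [hconst]; simp)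
  exact hp.not_isUnit hu

/-- three functions on a curve: `f` and a coordinate are algebraically dependent -/
theorem dependent (p f : P2) (hp : Irreducible p) (j : Fin 2) :
    ∃ P : P2, P ≠ 0 ∧ p ∣ aeval ![f, X j] P := by
  classical
  have hpp : Prime p := hp.prime
  have hPp : (Ideal.span {p} : Ideal P2).IsPrime := (Ideal.span_singleton_prime hp.ne_zero).2 hpp
  by_contra hcon
  push Not at hcon
  let R := P2 ⧸ (Ideal.span {p} : Ideal P2)
  let π : P2 →ₐ[ℂ] R := Ideal.Quotient.mkₐ ℂ (Ideal.span {p})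
  have hπ : ∀ g : P2, π g = 0 ↔ p ∣ g := fun g => by
    rw [← Ideal.mem_span_singleton]
    exact Ideal.Quotient.eq_zero_iff_mem
  have hπs : Function.Surjective π := Ideal.Quotient.mkₐ_surjective ℂ _
  have : IsDomain R := Ideal.Quotient.isDomain _
  have hind : AlgebraicIndependent ℂ (fun k => π (![f, X j] k)) := by
    rw [algebraicIndependent_iff]
    intro P hP
    by_contra h0
    apply hcon P h0
    rw [← hπ]
    rw [← hP, MvPolynomial.comp_aeval_apply]
  have hcard := hind.lift_cardinalMk_le_trdeg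
  have hgen : Algebra.adjoin ℂ (Set.range fun k : Fin 2 => π (X k)) = ⊤ := by
    have h1 : (Set.range fun k : Fin 2 => π (X k)) = π '' Set.range (X : Fin 2 → P2) := by
      rw [← Set.range_comp]; rfl
    rw [h1, Algebra.adjoin_image, MvPolynomial.adjoin_range_X, Algebra.map_top]
    exact (AlgHom.range_eq_top _).2 hπs
  have : Algebra.IsAlgebraic (Algebra.adjoin ℂ (Set.range fun k : Fin 2 => π (X k))) R := by
    refine ⟨fun r => ?_⟩
    have hr : r ∈ Algebra.adjoin ℂ (Set.range fun k : Fin 2 => π (X k)) := by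
      rw [hgen]; trivial
    exact isAlgebraic_algebraMap
      (⟨r, hr⟩ : Algebra.adjoin ℂ (Set.range fun k : Fin 2 => π (X k)))
  have hbas : IsTranscendenceBasis ℂ (fun k : Fin 2 => π (X k)) :=
    Algebra.IsAlgebraic.isTranscendenceBasis_of_lift_le_trdeg_of_finite ℂ _ hcard
  have hind2 := hbas.1
  rw [algebraicIndependent_iff] at hind2
  have := hind2 p (by
    have h1 : π (aeval X p) = aeval (fun k : Fin 2 => π (X k)) p :=
      MvPolynomial.comp_aeval_apply (f := fun k : Fin 2 => (X k : P2)) π p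
    rw [← h1, aeval_X_left_apply, hπ])
  exact hp.ne_zero this

/-- chain rule -/
theorem der_aeval (k : Fin 2) (v : Fin 2 → P2) (F : P2) :
    pderiv k (aeval v F) =
      aeval v (pderiv 0 F) * pderiv k (v 0) + aeval v (pderiv 1 F) * pderiv k (v 1) := by
  induction F using MvPolynomial.induction_on with
  | C a => simp
  | add p q hp hq =>
    rw [map_add, map_add, hp, hq, map_add, map_add, map_add, map_add]
    ring
  | mul_X p i hp =>
    rw [map_mul, Derivation.leibniz, hp, Derivation.leibniz, Derivation.leibniz, map_add, map_add]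
    simp only [smul_eq_mul, map_mul, aeval_X]
    fin_cases i
    · simp only [Fin.zero_eta, pderiv_X_self, map_one, Fin.isValue]
      rw [pderiv_X_of_ne (show (0 : Fin 2) ≠ 1 by decide), map_zero]
      ring
    · simp only [Fin.mk_one, pderiv_X_self, map_one, Fin.isValue]
      rw [pderiv_X_of_ne (show (1 : Fin 2) ≠ 0 by decide), map_zero]
      ring

/-- `f` is constant on an irreducible curve of critical points -/
theorem crit_comp (f p : P2) (hp : Irreducible p) (h : ∀ i, p ∣ pderiv i f) :
    ∃ c : ℂ, p ∣ f - C c := by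
  classical
  have hpp : Prime p := hp.prime
  obtain ⟨i, hi⟩ := exists_pderiv p hp
  obtain ⟨j, hj⟩ : ∃ j : Fin 2, j ≠ i := ⟨i + 1, by fin_cases i <;> decide⟩
  -- a relation of minimal degree
  let S : Set P2 := {P | P ≠ 0 ∧ p ∣ aeval ![f, X j] P}
  obtain ⟨P, ⟨hP0, hPd⟩, hmin⟩ : ∃ P ∈ S, ∀ Q ∈ S, degreeOf 1 P ≤ degreeOf 1 Q := by
    obtain ⟨P0, hP0⟩ := dependent p f hp j
    have hne : ∃ n, ∃ P ∈ S, degreeOf 1 P = n := ⟨_, P0, hP0, rfl⟩
    obtain ⟨P, hPS, hPn⟩ := Nat.find_spec hne
    refine ⟨P, hPS, fun Q hQ => ?_⟩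
    rw [hPn]
    exact Nat.find_min' hne ⟨Q, hQ, rfl⟩
  have hder : pderiv 1 P = 0 := by
    by_contra hne
    have hlt := deg_pderiv_lt P 1 hne
    have hmem : pderiv 1 P ∈ S := by
      refine ⟨hne, ?_⟩
      obtain ⟨s, hs⟩ := hPd
      have e1 : pderiv i p * pderiv j (aeval ![f, X j] P) -
          pderiv j p * pderiv i (aeval ![f, X j] P) =
          p * (pderiv i p * pderiv j s - pderiv j p * pderiv i s) := by
        rw [hs, Derivation.leibniz, Derivation.leibniz]
        simp only [smul_eq_mul]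
        ring
      rw [der_aeval, der_aeval] at e1
      simp only [Matrix.cons_val_zero, Matrix.cons_val_one, pderiv_X_self] at e1
      rw [pderiv_X_of_ne hj] at e1
      obtain ⟨ui, hui⟩ := h i
      obtain ⟨uj, huj⟩ := h j
      rw [hui, huj] at e1
      have e2 : p ∣ pderiv i p * aeval ![f, X j] (pderiv 1 P) := by
        refine ⟨(pderiv i p * pderiv j s - pderiv j p * pderiv i s) -
          (pderiv i p * aeval ![f, X j] (pderiv 0 P) * uj -
            pderiv j p * aeval ![f, X j] (pderiv 0 P) * ui), ?_⟩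
        linear_combination e1
      rcases hpp.dvd_or_dvd e2 with h1 | h1
      · exact absurd h1 (not_dvd_pderiv p i hi)
      · exact h1
    have := hmin _ hmem
    omega
  have hvars : (1 : Fin 2) ∉ P.vars := by
    intro hv
    obtain ⟨d, hd1, hd2⟩ := (mem_vars_iff_mem_support (p := P) 1).1 hv
    have h3 : d 1 ≠ 0 := by simpa using hd2
    rw [mem_support_iff] at hd1
    exact hd1 (coeff_eq_zero P 1 hder d h3)
  have hcongr : ∀ {B : Type} [CommRing B] [Algebra ℂ B] (a b b' : B),
      aeval ![a, b] P = aeval ![a, b'] P := by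
    intro B _ _ a b b'
    refine eval₂Hom_congr' rfl ?_ rfl
    intro k hk _
    fin_cases k
    · rfl
    · exact absurd hk hvars
  set Pt : Polynomial ℂ := aeval ![Polynomial.X, 0] P with hPt
  have hev : ∀ {B : Type} [CommRing B] [Algebra ℂ B] (a b : B),
      aeval ![a, b] P = Polynomial.aeval a Pt := by
    intro B _ _ a b
    rw [hcongr a b 0, hPt, MvPolynomial.comp_aeval_apply]
    congr 2
    funext k
    fin_cases k <;> simp
  have hPt0 : Pt ≠ 0 := by
    intro h0
    apply hP0
    have h1 : aeval ![X 0, X 1] P = P := by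
      have : (![X 0, X 1] : Fin 2 → P2) = X := by
        funext k; fin_cases k <;> rfl
      rw [this, aeval_X_left_apply]
    rw [← h1, hev, h0, map_zero]
  rw [hev] at hPd
  have hsp := (IsAlgClosed.splits Pt).eq_prod_roots
  rw [hsp, map_mul, map_multiset_prod] at hPd
  rcases hpp.dvd_or_dvd hPd with h1 | h1
  · exfalso
    have hu : IsUnit (Polynomial.aeval f (Polynomial.C Pt.leadingCoeff)) := by
      rw [Polynomial.aeval_C]
      apply IsUnit.map
      rw [isUnit_iff_ne_zero]
      simpa using hPt0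
    exact hp.not_isUnit (isUnit_of_dvd_unit h1 hu)
  · obtain ⟨q, hq1, hq2⟩ := hpp.exists_mem_multiset_dvd h1
    rw [Multiset.map_map] at hq1
    obtain ⟨c, -, rfl⟩ := Multiset.mem_map.1 hq1
    refine ⟨c, ?_⟩
    simpa [algebraMap_eq] using hq2

/-- a polynomial in two variables has finitely many critical values -/
theorem algA (f : P2) : ∃ crit : Finset ℂ, ∀ x : Fin 2 → ℂ,
    (∀ i, eval x (pderiv i f) = 0) → eval x f ∈ crit := by
  classical
  by_cases hconst : ∀ i, pderiv i f = 0
  · refine ⟨{coeff 0 f}, fun x _ => ?_⟩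
    rw [eq_C f hconst]
    simp
  push Not at hconst
  obtain ⟨i, hi⟩ := hconst
  obtain ⟨j, hj⟩ : ∃ j : Fin 2, j ≠ i := ⟨i + 1, by fin_cases i <;> decide⟩
  obtain ⟨a, b, d, hab, ha, hb⟩ :=
    UniqueFactorizationMonoid.exists_reduced_factors (pderiv i f) hi (pderiv j f)
  have hd0 : d ≠ 0 := by
    rintro rfl
    exact hi (by rw [← ha]; simp)
  have ha0 : a ≠ 0 := by
    rintro rfl
    exact hi (by rw [← ha]; simp)
  have hfin := fin_coprime a b ha0 hab
  have hcd : ∀ p ∈ UniqueFactorizationMonoid.factors d, ∃ c : ℂ, p ∣ f - C c := by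
    intro p hp
    have hirr := UniqueFactorizationMonoid.irreducible_of_factor p hp
    have hpd : p ∣ d := UniqueFactorizationMonoid.dvd_of_mem_factors hp
    refine crit_comp f p hirr ?_
    intro k
    by_cases hk : k = i
    · rw [hk, ← ha]
      exact hpd.mul_right a
    · have hk2 : k = j := by
        fin_cases i <;> fin_cases j <;> fin_cases k <;> simp_all
      rw [hk2, ← hb]
      exact hpd.mul_right b
  choose! c hc using hcd
  refine ⟨(UniqueFactorizationMonoid.factors d).toFinset.image c ∪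
    hfin.toFinset.image (fun x => eval x f), ?_⟩
  intro x hx
  rw [Finset.mem_union]
  have h1 : eval x d * eval x a = 0 := by
    rw [← map_mul, ha]; exact hx i
  have h2 : eval x d * eval x b = 0 := by
    rw [← map_mul, hb]; exact hx j
  by_cases hxd : eval x d = 0
  · left
    obtain ⟨u, hu⟩ := UniqueFactorizationMonoid.factors_prod hd0
    have h3 : eval x (UniqueFactorizationMonoid.factors d).prod = 0 := by
      have h4 : eval x ((UniqueFactorizationMonoid.factors d).prod * (u : P2)) = 0 := by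
        rw [hu]; exact hxd
      rw [map_mul] at h4
      rcases mul_eq_zero.1 h4 with h5 | h5
      · exact h5
      · exact absurd h5 ((u.isUnit.map (eval x)).ne_zero)
    rw [map_multiset_prod, Multiset.prod_eq_zero_iff] at h3
    obtain ⟨p, hp1, hp2⟩ := Multiset.mem_map.1 h3
    obtain ⟨s, hs⟩ := hc p hp1
    have h6 : eval x (f - C (c p)) = 0 := by
      rw [hs, map_mul, hp2, zero_mul]
    rw [map_sub, eval_C, sub_eq_zero] at h6
    rw [h6]
    exact Finset.mem_image_of_mem _ (by simpa using hp1)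
  · right
    refine Finset.mem_image.2 ⟨x, ?_, rfl⟩
    rw [Set.Finite.mem_toFinset]
    exact ⟨(mul_eq_zero.1 h1).resolve_left hxd, (mul_eq_zero.1 h2).resolve_left hxd⟩

end Pool.Agent.Mono.PC.ALGA
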