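import Mathlib

set_option autoImplicit false

namespace Pool.Agent.Mono.PC

open Polynomial

namespace CertAux

section general

variable {R : Type} [CommRing R] [IsDomain R] [IsGCDMonoid R]

/-- elimination: two polynomials over `R` without common irreducible factor of positive degree -/
theorem elim (a b : R[X]) (ha : a ≠ 0)
    (h : ∀ p : R[X], Irreducible p → p ∣ a → p ∣ b → p.natDegree = 0) :
    ∃ (u v : R[X]) (ρ : R), ρ ≠ 0 ∧ u * a + v * b = C ρ := by
  classical
  let K := FractionRing R
  have := Classical.arbitrary (NormalizedGCDMonoid R)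
  have hinj : Function.Injective (Polynomial.map (algebraMap R K)) :=
    map_injective _ (IsFractionRing.injective R K)
  have hcop : IsCoprime (a.map (algebraMap R K)) (b.map (algebraMap R K)) := by
    by_contra hc
    rw [← EuclideanDomain.gcd_isUnit_iff] at hc
    have ha0 : a.map (algebraMap R K) ≠ 0 := fun h0 => ha (hinj (by simpa using h0))
    have hg0 : EuclideanDomain.gcd (a.map (algebraMap R K)) (b.map (algebraMap R K)) ≠ 0 := by
      intro h0
      exact ha0 (EuclideanDomain.gcd_eq_zero_iff.1 h0).1
    obtain ⟨q, hq, hqd⟩ := WfDvdMonoid.exists_irreducible_factor hc hg0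
    have hqa := hqd.trans (EuclideanDomain.gcd_dvd_left _ _)
    have hqb := hqd.trans (EuclideanDomain.gcd_dvd_right _ _)
    obtain ⟨c, c0, hc1⟩ := IsLocalization.integerNormalization_spec (nonZeroDivisors R) q
    set q' := IsLocalization.integerNormalization (nonZeroDivisors R) q with hq'
    have hc0 : (algebraMap R K c) ≠ 0 := by
      intro h0
      exact nonZeroDivisors.ne_zero c0 ((IsFractionRing.injective R K) (by simpa using h0))
    have hq'0 : q' ≠ 0 := by
      intro h0
      rw [hq', IsFractionRing.integerNormalization_eq_zero_iff] at h0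
      exact hq.ne_zero h0
    have hcont : algebraMap R K q'.content ≠ 0 := by
      intro h0
      have : q'.content = 0 := (IsFractionRing.injective R K) (by simpa using h0)
      exact hq'0 (content_eq_zero_iff.1 this)
    have hprim := q'.isPrimitive_primPart
    -- `q'.primPart.map` is a unit times `q`
    have hmap : C (algebraMap R K q'.content) * q'.primPart.map (algebraMap R K)
        = C (algebraMap R K c) * q := by
      rw [← map_C, ← Polynomial.map_mul, ← q'.eq_C_content_mul_primPart, hc1]
      simp [Algebra.smul_def]
    have hass : Associated q (q'.primPart.map (algebraMap R K)) := by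
      have hu : IsUnit (C (algebraMap R K c) : K[X]) := (isUnit_iff_ne_zero.2 hc0).map C
      have hv : IsUnit (C (algebraMap R K q'.content) : K[X]) :=
        (isUnit_iff_ne_zero.2 hcont).map C
      have h1 : Associated q (C (algebraMap R K c) * q) := by
        obtain ⟨u, hu⟩ := hu
        rw [← hu]
        exact (associated_unit_mul_left q _ u.isUnit).symm
      have h2 : Associated (q'.primPart.map (algebraMap R K))
          (C (algebraMap R K q'.content) * q'.primPart.map (algebraMap R K)) := by
        obtain ⟨u, hu⟩ := hv
        rw [← hu]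
        exact (associated_unit_mul_left _ _ u.isUnit).symm
      rw [← hmap] at h1
      exact h1.trans h2.symm
    have hirr : Irreducible q'.primPart :=
      hprim.irreducible_of_irreducible_map_of_injective (IsFractionRing.injective R K)
        (hass.irreducible hq)
    have h3 := h q'.primPart hirr
      (hprim.dvd_of_fraction_map_dvd_fraction_map (K := K) (hass.symm.dvd.trans hqa))
      (hprim.dvd_of_fraction_map_dvd_fraction_map (K := K) (hass.symm.dvd.trans hqb))
    have h4 : (q'.primPart.map (algebraMap R K)).natDegree = 0 := by
      rw [natDegree_map_eq_of_injective (IsFractionRing.injective R K), h3]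
    have h5 := (hass.irreducible hq)
    have h6 := h5.natDegree_pos
    omega
  obtain ⟨U, V, hUV⟩ := hcop
  obtain ⟨c, c0, hc⟩ := IsLocalization.integerNormalization_spec (nonZeroDivisors R) U
  obtain ⟨d, d0, hd⟩ := IsLocalization.integerNormalization_spec (nonZeroDivisors R) V
  refine ⟨C d * IsLocalization.integerNormalization (nonZeroDivisors R) U,
    C c * IsLocalization.integerNormalization (nonZeroDivisors R) V, c * d,
    mul_ne_zero (nonZeroDivisors.ne_zero c0) (nonZeroDivisors.ne_zero d0), ?_⟩
  apply hinj
  simp only [Polynomial.map_add, Polynomial.map_mul, map_C, hc, hd, Algebra.smul_def,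
    Polynomial.algebraMap_apply]
  have : C (algebraMap R K (c * d)) = C (algebraMap R K c) * C (algebraMap R K d) := by
    rw [← C_mul, ← map_mul]
  rw [this, ← mul_one (C (algebraMap R K c) * C (algebraMap R K d)), ← hUV]
  ring

end general

/-- a squarefree polynomial and its derivative -/
theorem elim_derivative (r : (Polynomial ℂ)[X]) (hr : Squarefree r) :
    ∃ (u v : (Polynomial ℂ)[X]) (ρ : Polynomial ℂ), ρ ≠ 0 ∧
      u * r + v * derivative r = C ρ := by
  classical
  have := Classical.arbitrary (NormalizedGCDMonoid (Polynomial ℂ))
  have hr0 : r ≠ 0 := hr.ne_zero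
  have hcont : r.content ≠ 0 := fun h0 => hr0 (content_eq_zero_iff.1 h0)
  have hsq : Squarefree r.primPart := hr.squarefree_of_dvd r.primPart_dvd
  obtain ⟨u, v, ρ, hρ, h⟩ := elim r.primPart (derivative r.primPart) hsq.ne_zero (by
    intro p hp h1 h2
    by_contra hdeg
    obtain ⟨m, hm⟩ := h1
    have hpr := hp.prime
    rw [hm, derivative_mul] at h2
    have h3 : p ∣ derivative p * m := (dvd_add_left (Dvd.intro _ rfl)).1 h2
    rcases hpr.dvd_or_dvd h3 with h4 | h4
    · have h5 : derivative p ≠ 0 := by
        intro h0
        exact hdeg (derivative_eq_zero.1 h0)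
      have h6 := natDegree_le_of_dvd h4 h5
      have h7 := natDegree_derivative_lt hdeg
      omega
    · apply hp.not_isUnit
      apply hsq
      rw [hm]
      exact mul_dvd_mul_left p h4)
  refine ⟨u, v, r.content * ρ, mul_ne_zero hcont hρ, ?_⟩
  have h1 : r = C r.content * r.primPart := r.eq_C_content_mul_primPart
  have h2 : derivative r = C r.content * derivative r.primPart := by
    conv_lhs => rw [h1]
    rw [derivative_mul, derivative_C, zero_mul, zero_add]
  have h3 := congrArg (u * ·) h1
  rw [C_mul, ← h, h2, h3]
  ring

end CertAux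

/-- elimination of `y` from a squarefree polynomial and its `y`-derivative -/
theorem cert_main (R : MvPolynomial (Fin 2) ℂ) (hR : Squarefree R) :
    ∃ (a b : MvPolynomial (Fin 2) ℂ) (ρ : Polynomial ℂ), ρ ≠ 0 ∧
      a * R + b * MvPolynomial.pderiv 1 R = Polynomial.aeval (MvPolynomial.X 0) ρ := by
  classical
  let e := Bivariate.equivMvPolynomial ℂ
  have hsq : Squarefree (e.symm R) := by
    intro x hx
    have h1 : e x * e x ∣ R := by
      have := map_dvd e hx
      simpa using this
    have h2 := hR _ h1
    have := h2.map e.symm
    simpa using this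
  obtain ⟨u, v, ρ, hρ, h⟩ := CertAux.elim_derivative _ hsq
  refine ⟨e u, e v, ρ, hρ, ?_⟩
  have h1 : MvPolynomial.pderiv 1 R = e (derivative (e.symm R)) := by
    rw [← Bivariate.pderiv_one_equivMvPolynomial]
    simp [e]
  have h2 : e (C ρ) = Polynomial.aeval (MvPolynomial.X 0) ρ := by
    simp only [e, Bivariate.equivMvPolynomial, AlgEquiv.ofAlgHom_apply, aevalAeval_C]
  rw [h1, ← h2, ← h, map_add, map_mul, map_mul]
  simp

end Pool.Agent.Mono.PC
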