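import Pool.Agent.Work.Monodromy6.TDefs
import Pool.Agent.Work.Monodromy6.CERT0

/-! Phase 6, part T: the certificate for squarefree polynomials. -/

set_option autoImplicit false

namespace Pool.Agent.Mono.PC

theorem stmt_CERT : Stmt_CERT := cert_main

end Pool.Agent.Mono.PC
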