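import Pool.Agent.Work.Monodromy6.JAC6

/-!
# Blocks CH6 and LF6: curvettes and monomials in a chart, leading forms along an edge
-/

set_option autoImplicit false
set_option linter.unusedSectionVars false

namespace Pool.Agent.Mono.PC

open MvPolynomial TS

namespace CH6Aux

/-- value at the origin -/
noncomputable def e0 : P2 →ₐ[ℂ] ℂ := aeval (0 : Fin 2 → ℂ)

theorem e0_eq (F : P2) : eval 0 F = e0 F :=
  (congrArg (fun g : P2 →+* ℂ => g F) (coe_aeval_eq_eval (0 : Fin 2 → ℂ))).symm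

theorem e0_C (a : ℂ) : e0 (C a) = a := by simp [e0]

theorem e0_X (i : Fin 2) : e0 (X i) = 0 := by simp [e0]

/-- decomposition of a polynomial -/
theorem decomp (F : P2) : ∃ A B : P2, F = C (e0 F) + X 0 * A + X 1 * B := by
  induction F using MvPolynomial.induction_on with
  | C a => exact ⟨0, 0, by rw [e0_C]; simp⟩
  | add p q hp hq =>
    obtain ⟨A, B, h⟩ := hp
    obtain ⟨A', B', h'⟩ := hq
    refine ⟨A + A', B + B', ?_⟩
    rw [map_add, map_add]
    conv_lhs => rw [h, h']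
    ring
  | mul_X p i hp =>
    fin_cases i
    · exact ⟨p, 0, by simp [e0_X]; ring⟩
    · exact ⟨0, p, by simp [e0_X]; ring⟩

/-- curvettes and monomials -/
def CA (ρ : P2 →ₐ[ℂ] P2) (e : ℕ) : Prop :=
  (∃ χ η : P2, ρ χ = X 0 ^ e * η ∧ e0 η = 0 ∧ e0 (pderiv 1 η) ≠ 0) ∧
    ∀ n : ℕ, e ≤ n → ∃ φ ω : P2, ρ φ = X 0 ^ n * ω ∧ e0 ω ≠ 0

/-- approximation of the axis by curvettes -/
theorem approx {ρ : P2 →ₐ[ℂ] P2} {e : ℕ} (h : CA ρ e) (K : ℕ) :
    ∃ χ h g : P2, ρ χ = X 0 ^ e * (X 1 * h + X 0 ^ (K + 1) * g) ∧ e0 h ≠ 0 := by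
  obtain ⟨⟨χ, η, h1, h2, h3⟩, hb⟩ := h
  induction K with
  | zero =>
    obtain ⟨A, B, hAB⟩ := decomp η
    rw [h2] at hAB
    refine ⟨χ, B, A, ?_, ?_⟩
    · rw [h1, hAB]
      simp only [map_zero]
      ring
    · have h4 : e0 (pderiv 1 η) = e0 B := by
        rw [hAB]
        simp only [map_zero, zero_add, map_add, Derivation.leibniz, smul_eq_mul, map_mul, e0_X,
          zero_mul, pderiv_X_self, mul_one]
        rw [pderiv_X_of_ne (show (0 : Fin 2) ≠ 1 by decide), map_zero]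
        ring
      rw [← h4]
      exact h3
  | succ K ih =>
    obtain ⟨χ, h, g, h4, h5⟩ := ih
    obtain ⟨φ, ω, h6, h7⟩ := hb (e + (K + 1)) (by omega)
    obtain ⟨A, B, hAB⟩ := decomp (g - C (e0 g / e0 ω) * ω)
    have h8 : e0 (g - C (e0 g / e0 ω) * ω) = 0 := by
      rw [map_sub, map_mul, e0_C, div_mul_cancel₀ _ h7, sub_self]
    rw [h8, map_zero, zero_add] at hAB
    refine ⟨χ - C (e0 g / e0 ω) * φ, h + X 0 ^ (K + 1) * B, A, ?_, ?_⟩
    · have h9 : ρ (C (e0 g / e0 ω)) = C (e0 g / e0 ω) := ρ.commutes _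
      rw [map_sub, map_mul, h9, h4, h6]
      have h10 : g = X 0 * A + X 1 * B + C (e0 g / e0 ω) * ω := by
        rw [← hAB]
        ring
      conv_lhs => rw [h10]
      have h11 : e0 (X 0 * A + X 1 * B + C (e0 g / e0 ω) * ω) = e0 g := by rw [← h10]
      rw [h11]
      ring
    · rw [map_add, map_mul, map_pow, e0_X, zero_pow (by omega), zero_mul, add_zero]
      exact h5

/-- the toric step with a root -/
noncomputable def tst (p q : ℕ) (lam : ℂ) (Θ : Polynomial ℂ) : P2 →ₐ[ℂ] P2 :=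
  aeval ![X 0 ^ p, X 0 ^ q * (C lam + X 1 + X 0 * Polynomial.aeval (X 0 : P2) Θ)]

theorem tst_zero (p q : ℕ) (lam : ℂ) (Θ : Polynomial ℂ) : tst p q lam Θ (X 0) = X 0 ^ p := by
  rw [tst, aeval_X]
  rfl

theorem tst_one (p q : ℕ) (lam : ℂ) (Θ : Polynomial ℂ) : tst p q lam Θ (X 1) =
    X 0 ^ q * (C lam + X 1 + X 0 * Polynomial.aeval (X 0 : P2) Θ) := by
  rw [tst, aeval_X]
  rfl

theorem chart_step (M H p q : ℕ) (Φ : Polynomial ℂ) (lam : ℂ) (Θ : Polynomial ℂ) :
    chartMap (p * M) (p * H + q) (Φ.comp (Polynomial.X ^ p) +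
      Polynomial.C lam * Polynomial.X ^ (p * H + q) +
          Polynomial.X ^ (p * H + q + 1) * Θ) = (tst p q lam Θ).comp (chartMap M H Φ) := by
  refine MvPolynomial.algHom_ext fun i => ?_
  fin_cases i
  · simp only [Fin.zero_eta, AlgHom.comp_apply]
    rw [chartMap, chartMap, aeval_X, aeval_X]
    simp only [Matrix.cons_val_zero, map_pow, tst_zero]
    rw [pow_mul]
  · simp only [Fin.mk_one, AlgHom.comp_apply]
    rw [chartMap, chartMap, aeval_X, aeval_X]
    simp only [Matrix.cons_val_one, Matrix.cons_val_zero, map_add, map_mul, map_pow, tst_zero,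
      tst_one, Polynomial.aeval_X, Polynomial.aeval_C, Polynomial.aeval_comp]
    rw [← Polynomial.aeval_algHom_apply, tst_zero, MvPolynomial.algebraMap_eq]
    ring

theorem e0_tst (p q : ℕ) (lam : ℂ) (Θ : Polynomial ℂ) (hp : 1 ≤ p) (hq : 1 ≤ q) (F : P2) :
    e0 (tst p q lam Θ F) = e0 F := by
  have h : e0.comp (tst p q lam Θ) = e0 := by
    refine MvPolynomial.algHom_ext fun i => ?_
    fin_cases i
    · simp only [Fin.zero_eta, AlgHom.comp_apply]
      rw [tst_zero, map_pow, e0_X, zero_pow (by omega)]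
    · simp only [Fin.mk_one, AlgHom.comp_apply]
      rw [tst_one, map_mul, map_pow, e0_X, e0_X, zero_pow (by omega), zero_mul]
  exact congrArg (fun f : P2 →ₐ[ℂ] ℂ => f F) h

theorem e0_pd_tst (p q : ℕ) (lam : ℂ) (Θ : Polynomial ℂ) (hq : 1 ≤ q) (F : P2) :
    e0 (pderiv 1 (tst p q lam Θ F)) = 0 := by
  rw [JAC6Aux.der_aeval (pderiv 1) (tst p q lam Θ) F, tst_zero, tst_one]
  have h1 : (pderiv 1 : Derivation ℂ P2 P2) (X 0 ^ p) = 0 := by
    rw [Derivation.leibniz_pow, pderiv_X_of_ne (show (0 : Fin 2) ≠ 1 by decide)]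
    simp
  have h2 : e0 ((pderiv 1 : Derivation ℂ P2 P2)
      (X 0 ^ q * (C lam + X 1 + X 0 * Polynomial.aeval (X 0 : P2) Θ))) = 0 := by
    rw [Derivation.leibniz, Derivation.leibniz_pow,
      pderiv_X_of_ne (show (0 : Fin 2) ≠ 1 by decide)]
    rw [smul_zero, smul_zero, smul_zero, add_zero, smul_eq_mul, map_mul, map_pow, e0_X,
      zero_pow (by omega), zero_mul]
  rw [h1, mul_zero, zero_add, map_mul, h2, mul_zero]

/-- the step -/
theorem step {ρ : P2 →ₐ[ℂ] P2} {e : ℕ} (h : CA ρ e) (p q : ℕ) (hp : 1 ≤ p) (hq : 1 ≤ q)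
    (hpq : p.Coprime q) (lam : ℂ) (hl : lam ≠ 0) (Θ : Polynomial ℂ) :
    CA ((tst p q lam Θ).comp ρ) (p * (p * e + q)) := by
  obtain ⟨χ, h, g, h1, h2⟩ := approx h q
  have hb := (‹CA ρ e›).2
  set T := tst p q lam Θ with hT
  -- the leading term of the curvette
  set L : P2 := (C lam + X 1 + X 0 * Polynomial.aeval (X 0 : P2) Θ) * T h +
    X 0 ^ (p * (q + 1) - q) * T g with hL
  have hK : q < p * (q + 1) := by nlinarith
  have hχ : (T.comp ρ) χ = X 0 ^ (p * e + q) * L := by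
    rw [AlgHom.comp_apply, h1, map_mul, map_add, map_mul, map_mul, map_pow, map_pow, hT, tst_zero,
      tst_one, ← hT, hL]
    have e1 : (X 0 ^ p : P2) ^ (q + 1) = X 0 ^ q * X 0 ^ (p * (q + 1) - q) := by
      rw [← pow_mul, ← pow_add]
      congr 1
      omega
    rw [e1, ← pow_mul, pow_add]
    ring
  have hL0 : e0 L = lam * e0 h := by
    rw [hL, map_add, map_mul, map_add, map_add, map_mul, map_mul, map_pow, e0_C, e0_X, e0_X,
      zero_pow (by omega), e0_tst p q lam Θ hp hq]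
    ring
  have hL1 : e0 (pderiv 1 L) = e0 h := by
    have e1 : pderiv 1 (C lam + X 1 + X 0 * Polynomial.aeval (X 0 : P2) Θ : P2) = 1 +
        X 0 * pderiv 1 (Polynomial.aeval (X 0 : P2) Θ) := by
      rw [map_add, map_add, pderiv_C, pderiv_X_self, Derivation.leibniz,
        pderiv_X_of_ne (show (0 : Fin 2) ≠ 1 by decide)]
      simp
    have e2 : pderiv 1 (X 0 ^ (p * (q + 1) - q) * T g : P2) =
        X 0 ^ (p * (q + 1) - q) * pderiv 1 (T g) := by
      rw [Derivation.leibniz, Derivation.leibniz_pow,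
        pderiv_X_of_ne (show (0 : Fin 2) ≠ 1 by decide)]
      simp
    rw [hL, map_add, e2, Derivation.leibniz, e1]
    simp only [smul_eq_mul, map_add, map_mul, map_pow, map_one, e0_X, e0_C]
    rw [zero_pow (by omega), e0_pd_tst p q lam Θ hq, e0_tst p q lam Θ hp hq]
    ring
  have hφ : ∀ n, e ≤ n → ∃ φ ω : P2, (T.comp ρ) φ = X 0 ^ (p * n) * ω ∧ e0 ω ≠ 0 ∧
      e0 (pderiv 1 ω) = 0 := by
    intro n hn
    obtain ⟨φ, ω, h3, h4⟩ := hb n hn
    refine ⟨φ, T ω, ?_, ?_, e0_pd_tst p q lam Θ hq ω⟩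
    · rw [AlgHom.comp_apply, h3, map_mul, map_pow, hT, tst_zero, ← pow_mul]
    · rw [hT, e0_tst p q lam Θ hp hq]
      exact h4
  refine ⟨?_, ?_⟩
  · obtain ⟨φ, ω, h3, h4, h5⟩ := hφ (p * e + q) (by nlinarith)
    refine ⟨χ ^ p - C ((e0 L) ^ p / e0 ω) * φ, L ^ p - C ((e0 L) ^ p / e0 ω) * ω, ?_, ?_, ?_⟩
    · have h6 : (T.comp ρ) (C ((e0 L) ^ p / e0 ω)) = C ((e0 L) ^ p / e0 ω) :=
        (T.comp ρ).commutes _
      rw [map_sub, map_pow, map_mul, h6, hχ, h3, mul_pow, ← pow_mul, mul_comm (p * e + q) p]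
      ring
    · rw [map_sub, map_pow, map_mul, e0_C, div_mul_cancel₀ _ h4, sub_self]
    · rw [map_sub, Derivation.leibniz_pow, Derivation.leibniz, pderiv_C]
      simp only [smul_eq_mul, nsmul_eq_mul, map_sub, map_mul, map_pow, e0_C,
        mul_zero, add_zero, map_natCast]
      rw [h5, hL1, hL0, mul_zero, sub_zero]
      refine mul_ne_zero ?_ (mul_ne_zero (pow_ne_zero _ (mul_ne_zero hl h2)) h2)
      have : p ≠ 0 := by omega
      exact_mod_cast this
  · intro n hn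
    -- `n = (p e + q) a + p b`
    have hco : Nat.Coprime (p * e + q) p := by
      have : Nat.Coprime q p := hpq.symm
      simpa [Nat.coprime_mul_right_add_left, Nat.coprime_add_mul_left_left, mul_comm, add_comm]
        using this
    obtain ⟨a, ha, hab⟩ : ∃ a < p, (p * e + q) * a ≡ n [MOD p] := by
      have : NeZero p := ⟨by omega⟩
      have hu : IsUnit ((p * e + q : ℕ) : ZMod p) := (ZMod.isUnit_iff_coprime _ _).2 hco
      obtain ⟨u, hu⟩ := hu
      refine ⟨((u⁻¹ : (ZMod p)ˣ) * (n : ZMod p) : ZMod p).val, ZMod.val_lt _, ?_⟩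
      rw [← ZMod.natCast_eq_natCast_iff, Nat.cast_mul, ZMod.natCast_zmod_val, ← hu,
        Units.mul_inv_cancel_left]
    have ha2 : (p * e + q) * a ≤ (p * e + q) * (p - 1) := Nat.mul_le_mul_left _ (by omega)
    have ha3 : (p * e + q) * (p - 1) + (p * e + q) = p * (p * e + q) := by
      obtain ⟨r, rfl⟩ : ∃ r, p = r + 1 := ⟨p - 1, by omega⟩
      simp only [Nat.add_sub_cancel]
      ring
    obtain ⟨b, hb2⟩ := (Nat.modEq_iff_dvd' (by omega)).1 hab
    have hbe : e ≤ b := by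
      by_contra hlt
      push Not at hlt
      have : p * b ≤ p * e := Nat.mul_le_mul_left _ hlt.le
      omega
    obtain ⟨φ, ω, h3, h4, h5⟩ := hφ b hbe
    refine ⟨χ ^ a * φ, L ^ a * ω, ?_, ?_⟩
    · rw [map_mul, map_pow, hχ, h3, mul_pow, ← pow_mul]
      have : n = (p * e + q) * a + p * b := by omega
      rw [this, pow_add]
      ring
    · rw [map_mul, map_pow]
      exact mul_ne_zero (pow_ne_zero _ (by rw [hL0]; exact mul_ne_zero hl h2)) h4

theorem ca_base (Φ : Polynomial ℂ) (h : Φ.coeff 0 = 0) : CA (chartMap 1 0 Φ) 0 := by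
  have hX0 : chartMap 1 0 Φ (X 0) = X 0 := by
    rw [chartMap, aeval_X]
    simp
  have hX1 : chartMap 1 0 Φ (X 1) = Polynomial.aeval (X 0 : P2) Φ + X 1 := by
    rw [chartMap, aeval_X]
    simp
  refine ⟨⟨X 1, Polynomial.aeval (X 0 : P2) Φ + X 1, ?_, ?_, ?_⟩, fun n _ => ⟨X 0 ^ n, 1, ?_, ?_⟩⟩
  · rw [hX1]
    simp
  · rw [map_add, e0_X, add_zero, ← Polynomial.aeval_algHom_apply, e0_X,
      ← Polynomial.coeff_zero_eq_aeval_zero, h]
  · have h1 : pderiv 1 (Polynomial.aeval (X 0 : P2) Φ) = 0 := by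
      rw [Derivation.map_aeval, pderiv_X_of_ne (show (0 : Fin 2) ≠ 1 by decide), smul_zero]
    rw [map_add, h1, pderiv_X_self, zero_add, map_one]
    exact one_ne_zero
  · rw [map_pow, hX0, mul_one]
  · simp

theorem ca_chart {M H e : ℕ} {Φ : Polynomial ℂ} (hc : Chart M H e Φ) :
    CA (chartMap M H Φ) e ∧ 1 ≤ M ∧ M + H ≤ e + 1 := by
  induction hc with
  | base Φ h => exact ⟨ca_base Φ h, le_rfl, le_rfl⟩
  | @step M H e Φ hc p q hp hq hpq lam hl Θ ih =>
    obtain ⟨h1, h2, h3⟩ := ih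
    refine ⟨?_, ?_, ?_⟩
    · rw [chart_step]
      exact step h1 p q hp hq hpq lam hl Θ
    · exact Nat.mul_pos hp h2
    · have h4 : p * (M + H) ≤ p * (e + 1) := Nat.mul_le_mul_left _ h3
      have h5 : p * e ≤ p * (p * e) := Nat.le_mul_of_pos_left _ hp
      have h6 : p + q ≤ p * q + 1 := by
        obtain ⟨r, rfl⟩ : ∃ r, p = r + 1 := ⟨p - 1, by omega⟩
        obtain ⟨t, rfl⟩ : ∃ t, q = t + 1 := ⟨q - 1, by omega⟩
        ring_nf
        omega
      have h7 : p * (p * e + q) = p * (p * e) + p * q := by ring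
      have h8 : p * (e + 1) = p * e + p := by ring
      have h9 : p * (M + H) = p * M + p * H := by ring
      omega

end CH6Aux

open CH6Aux

theorem stmt_CH6 : Stmt_CH6 := by
  intro M H e Φ hc
  obtain ⟨⟨⟨χ, η, h1, h2, h3⟩, h4⟩, h5⟩ := ca_chart hc
  refine ⟨⟨χ, η, h1, by rw [e0_eq]; exact h2, by rw [e0_eq]; exact h3⟩, fun n hn => ?_, h5⟩
  obtain ⟨φ, ω, h6, h7⟩ := h4 n hn
  exact ⟨φ, ω, h6, by rw [e0_eq]; exact h7⟩

end Pool.Agent.Mono.PC
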