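import Pool.Agent.Work.Monodromy.Interface6V
import Mathlib.NumberTheory.Transcendental.Liouville.LiouvilleNumber

/-!
# Phase 6, blocks EMB and ESUM (helper63)

An embedding of the field of rational functions into the real numbers, and summability of
exponential sequences with positive exponents.
-/

set_option autoImplicit false

namespace Pool.Agent.Mono.PC

open MvPolynomial TS RO

namespace EmbAux

/-- evaluation at a transcendental number is injective on polynomials -/
theorem inj_aeval (x : ℝ) (hx : Transcendental ℚ x) :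
    Function.Injective (Polynomial.aeval (R := ℚ) x) :=
  transcendental_iff_injective.1 hx

/-- a transcendental number larger than one -/
theorem exists_trans : ∃ x : ℝ, Transcendental ℚ x ∧ 1 < x := by
  have h1 : Transcendental ℤ (liouvilleNumber (2 : ℕ)) := transcendental_liouvilleNumber (le_refl 2)
  have h2 : Transcendental ℚ (liouvilleNumber (2 : ℕ)) := by
    intro h
    exact h1 ((IsFractionRing.isAlgebraic_iff ℤ ℚ ℝ).2 h)
  refine ⟨liouvilleNumber (2 : ℕ), h2, ?_⟩
  have h3 := LiouvilleNumber.partialSum_add_remainder (m := ((2 : ℕ) : ℝ)) (by norm_num) 1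
  have h4 := LiouvilleNumber.remainder_pos (m := ((2 : ℕ) : ℝ)) (by norm_num) 1
  have h5 : LiouvilleNumber.partialSum ((2 : ℕ) : ℝ) 1 = 1 := by
    simp [LiouvilleNumber.partialSum, Finset.sum_range_succ]
    norm_num
  rw [← h3, h5]
  linarith

theorem emb : ∃ φ : K →+* ℝ, 1 < φ RatFunc.X := by
  obtain ⟨x, hx, h1⟩ := exists_trans
  have hinj := inj_aeval x hx
  let φ : K →+* ℝ := IsFractionRing.lift (A := Polynomial ℚ) (K := K)
    (g := (Polynomial.aeval (R := ℚ) x).toRingHom) hinj
  refine ⟨φ, ?_⟩
  have : φ RatFunc.X = x := by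
    rw [← RatFunc.algebraMap_X]
    exact (IsFractionRing.lift_algebraMap hinj Polynomial.X).trans (by simp)
  rw [this]
  exact h1

end EmbAux

theorem stmt_EMB : Stmt_EMB := EmbAux.emb

namespace EsumAux

/-- one factor of the denominator -/
theorem step (φ : K →+* ℝ) (hφ : 1 < φ RatFunc.X) (N ν : ℕ) (hN : 1 ≤ N) (hν : 1 ≤ ν)
    (f g : PowerSeries K) (hg : Summable fun m => |φ (PowerSeries.coeff m g)|)
    (h : ((1 - Polynomial.C (xq ^ ν) * Polynomial.X ^ N : Polynomial K) : PowerSeries K) * f = g) :
    Summable fun m => |φ (PowerSeries.coeff m f)| := by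
  set r : ℝ := φ (xq ^ ν) with hr
  have hx0 : 0 < φ RatFunc.X := lt_trans one_pos hφ
  have hxq : φ xq = (φ RatFunc.X)⁻¹ := by simp [xq, map_inv₀]
  have hxq0 : 0 < φ xq := by rw [hxq]; positivity
  have hxq1 : φ xq < 1 := by rw [hxq]; exact inv_lt_one_of_one_lt₀ hφ
  have hr0 : 0 ≤ r := by rw [hr, map_pow]; positivity
  have hr1 : r < 1 := by rw [hr, map_pow]; exact pow_lt_one₀ hxq0.le hxq1 (by omega)
  -- recursion
  have hrec : ∀ m, PowerSeries.coeff m f = PowerSeries.coeff m g +
      if N ≤ m then xq ^ ν * PowerSeries.coeff (m - N) f else 0 := by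
    intro m
    have h2 := congrArg (PowerSeries.coeff m) h
    have e1 : ((1 - Polynomial.C (xq ^ ν) * Polynomial.X ^ N : Polynomial K) : PowerSeries K) * f
        = f - PowerSeries.C (xq ^ ν) * (PowerSeries.X ^ N * f) := by
      push_cast
      ring
    rw [e1, map_sub, PowerSeries.coeff_C_mul, PowerSeries.coeff_X_pow_mul'] at h2
    rw [← h2]
    split_ifs <;> ring
  have hle : ∀ m, |φ (PowerSeries.coeff m f)| ≤ |φ (PowerSeries.coeff m g)| +
      if N ≤ m then r * |φ (PowerSeries.coeff (m - N) f)| else 0 := by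
    intro m
    rw [hrec m, map_add]
    refine le_trans (abs_add_le _ _) (add_le_add le_rfl ?_)
    split_ifs with hm
    · rw [map_mul, abs_mul, abs_of_nonneg hr0]
    · simp
  set G : ℝ := ∑' m, |φ (PowerSeries.coeff m g)| with hG
  refine summable_of_sum_range_le (c := G / (1 - r)) (fun n => abs_nonneg _) (fun n => ?_)
  have hs : ∑ m ∈ Finset.range n, (if N ≤ m then r * |φ (PowerSeries.coeff (m - N) f)| else 0) ≤
      r * ∑ m ∈ Finset.range n, |φ (PowerSeries.coeff m f)| := by
    rw [← Finset.sum_filter, Finset.mul_sum]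
    have : ∑ m ∈ (Finset.range n).filter (fun m => N ≤ m),
        r * |φ (PowerSeries.coeff (m - N) f)| =
        ∑ j ∈ ((Finset.range n).filter (fun m => N ≤ m)).image (fun m => m - N),
          r * |φ (PowerSeries.coeff j f)| := by
      rw [Finset.sum_image]
      intro a ha b hb hab
      simp only [Finset.coe_filter, Finset.mem_range, Set.mem_ofPred_eq] at ha hb
      simp only at hab
      omega
    rw [this]
    refine Finset.sum_le_sum_of_subset_of_nonneg ?_ (fun i _ _ => by positivity)
    intro j hj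
    simp only [Finset.mem_image, Finset.mem_filter, Finset.mem_range] at hj ⊢
    obtain ⟨a, ⟨h1, h2⟩, rfl⟩ := hj
    omega
  have hG' : ∑ m ∈ Finset.range n, |φ (PowerSeries.coeff m g)| ≤ G :=
    hg.sum_le_tsum _ (fun i _ => abs_nonneg _)
  have hall : ∑ m ∈ Finset.range n, |φ (PowerSeries.coeff m f)| ≤
      G + r * ∑ m ∈ Finset.range n, |φ (PowerSeries.coeff m f)| := by
    calc _ ≤ ∑ m ∈ Finset.range n, (|φ (PowerSeries.coeff m g)| +
          if N ≤ m then r * |φ (PowerSeries.coeff (m - N) f)| else 0) :=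
          Finset.sum_le_sum fun m _ => hle m
      _ = _ := Finset.sum_add_distrib
      _ ≤ _ := add_le_add hG' hs
  rw [le_div_iff₀ (by linarith)]
  linarith

theorem main (φ : K →+* ℝ) (hφ : 1 < φ RatFunc.X) :
    ∀ (l : List (ℕ × ℕ)), (∀ q ∈ l, 1 ≤ q.1 ∧ 1 ≤ q.2) → ∀ (f g : PowerSeries K),
      (Summable fun m => |φ (PowerSeries.coeff m g)|) → (denP l : PowerSeries K) * f = g →
        Summable fun m => |φ (PowerSeries.coeff m f)| := by
  intro l
  induction l with
  | nil =>
    intro _ f g hg h
    have : f = g := by simpa [denP] using h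
    rw [this]
    exact hg
  | cons q l ih =>
    intro hl f g hg h
    have hq := hl q (by simp)
    refine ih (fun q' hq' => hl q' (by simp [hq'])) f ((denP l : PowerSeries K) * f) ?_ rfl
    refine step φ hφ q.1 q.2 hq.1 hq.2 _ g hg ?_
    rw [← h, ← mul_assoc]
    congr 1
    simp [denP]

end EsumAux

theorem stmt_ESUM : Stmt_ESUM := by
  rintro φ κ hφ ⟨l, num, hl, h⟩
  have h1 : Summable fun m => |φ (PowerSeries.coeff m (PowerSeries.mk κ))| := by
    refine EsumAux.main φ hφ l (fun q hq => ⟨(hl q hq).1, ?_⟩) _ _ ?_ h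
    · have h2 := (hl q hq).2
      have h3 : (0 : ℚ) < (q.2 : ℚ) / (q.1 : ℚ) := h2
      rcases Nat.eq_zero_or_pos q.2 with h0 | h0
      · rw [h0] at h3
        simp at h3
      · exact h0
    · refine summable_of_ne_finset_zero (s := Finset.range (num.natDegree + 1)) (fun m hm => ?_)
      have : num.coeff m = 0 := Polynomial.coeff_eq_zero_of_natDegree_lt (by
        simp at hm; omega)
      simp [this]
  simpa using h1

end Pool.Agent.Mono.PC
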