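import Pool.Agent.Work.Monodromy6.EWA

/-!
# Block EW6: assembly of the witness side
-/

set_option autoImplicit false

namespace Pool.Agent.Mono.PC

open MvPolynomial TS

namespace EWB

/-! ### the derivation `d/dZ` and logarithmic derivatives -/

theorem Cmap (c : ℂ) : (RatFunc.C c : KZ) = algebraMap ℂ KZ c := by
  rw [RatFunc.algebraMap_eq_C]

theorem ZZ_eq : (ZZ : KZ) = algebraMap (Polynomial ℂ) KZ Polynomial.X := RatFunc.algebraMap_X.symm

theorem DZ_alg (h : Polynomial ℂ) :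
    DZ (algebraMap (Polynomial ℂ) KZ h) = algebraMap (Polynomial ℂ) KZ (Polynomial.derivative h) :=
  locDer_algebraMap _ _ _

theorem DZ_ZZ : DZ ZZ = 1 := by
  rw [ZZ_eq, DZ_alg]
  simp

theorem DZ_C (c : ℂ) : DZ (RatFunc.C c) = 0 := by
  rw [Cmap]
  exact DZ.map_algebraMap c

theorem ZZ_ne : (ZZ : KZ) ≠ 0 := RatFunc.X_ne_zero

theorem LP_ne (P : ℂ) : (ZZ : KZ) - RatFunc.C P ≠ 0 := by
  intro h
  have h1 := congrArg DZ h
  rw [map_sub, DZ_ZZ, DZ_C, map_zero, sub_zero] at h1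
  exact one_ne_zero h1

theorem C_ne {c : ℂ} (hc : c ≠ 0) : (RatFunc.C c : KZ) ≠ 0 := by
  intro h
  apply hc
  exact RatFunc.C_injective (by rw [h, map_zero])

/-- logarithmic derivative -/
noncomputable def dl (x : KZ) : KZ := DZ x / x

theorem dl_mul {x y : KZ} (hx : x ≠ 0) (hy : y ≠ 0) : dl (x * y) = dl x + dl y := by
  unfold dl
  rw [DZ.leibniz]
  simp only [smul_eq_mul]
  field_simp
  ring

theorem dl_one : dl (1 : KZ) = 0 := by
  unfold dl
  rw [DZ.map_one_eq_zero, zero_div]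

theorem dl_inv {x : KZ} (hx : x ≠ 0) : dl x⁻¹ = -dl x := by
  have h := dl_mul hx (inv_ne_zero hx)
  rw [mul_inv_cancel₀ hx, dl_one] at h
  linear_combination -h

theorem dl_pow {x : KZ} (hx : x ≠ 0) (n : ℕ) : dl (x ^ n) = n * dl x := by
  induction n with
  | zero => simp [dl_one]
  | succ n ih =>
    rw [pow_succ, dl_mul (pow_ne_zero n hx) hx, ih]
    push_cast
    ring

theorem dl_C (c : ℂ) : dl (RatFunc.C c) = 0 := by
  unfold dl
  rw [DZ_C, zero_div]

theorem dl_LP (P : ℂ) : dl (ZZ - RatFunc.C P) = (ZZ - RatFunc.C P)⁻¹ := by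
  unfold dl
  rw [map_sub, DZ_ZZ, DZ_C, sub_zero, one_div]

theorem dl_ZZ : dl ZZ = ZZ⁻¹ := by
  unfold dl
  rw [DZ_ZZ, one_div]

theorem dl_prod {ι : Type} (s : Finset ι) (f : ι → KZ) (hf : ∀ i ∈ s, f i ≠ 0) :
    dl (∏ i ∈ s, f i) = ∑ i ∈ s, dl (f i) := by
  classical
  induction s using Finset.induction_on with
  | empty => simp [dl_one]
  | insert a s ha ih =>
    rw [Finset.prod_insert ha, Finset.sum_insert ha, dl_mul (hf a (Finset.mem_insert_self _ _))
      (Finset.prod_ne_zero_iff.2 fun i hi => hf i (Finset.mem_insert_of_mem hi)),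
      ih fun i hi => hf i (Finset.mem_insert_of_mem hi)]

theorem dl_mprod (s : Multiset ℂ) (f : ℂ → KZ) (hf : ∀ i ∈ s, f i ≠ 0) :
    dl (s.map f).prod = (s.map fun i => dl (f i)).sum := by
  induction s using Multiset.induction_on with
  | empty => simp [dl_one]
  | cons a s ih =>
    rw [Multiset.map_cons, Multiset.prod_cons, Multiset.map_cons, Multiset.sum_cons,
      dl_mul (hf a (Multiset.mem_cons_self _ _)), ih fun i hi => hf i (Multiset.mem_cons_of_mem hi)]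
    apply Multiset.prod_ne_zero
    intro h
    obtain ⟨i, hi, h0⟩ := Multiset.mem_map.1 h
    exact hf i (Multiset.mem_cons_of_mem hi) h0

/-! ### the coordinate `Y` -/

/-- the point `Y = y` in the coordinate `Z` -/
noncomputable def ps (y₁ y : ℂ) : ℂ := (y - y₁)⁻¹

theorem ps_ne {y₁ y : ℂ} (h : y ≠ y₁) : ps y₁ y ≠ 0 := inv_ne_zero (sub_ne_zero.2 h)

theorem ps_inj {y₁ y y' : ℂ} (h : ps y₁ y = ps y₁ y') : y = y' := by
  unfold ps at h
  have h1 := inv_injective h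
  linear_combination h1

theorem ps_back {y₁ y : ℂ} : y₁ + (ps y₁ y)⁻¹ = y := by
  unfold ps
  rw [inv_inv]
  ring

theorem YY_sub {y₁ y : ℂ} (h : y ≠ y₁) :
    YY y₁ - RatFunc.C y = RatFunc.C (y₁ - y) * ((ZZ - RatFunc.C (ps y₁ y)) * ZZ⁻¹) := by
  have h1 : (RatFunc.C (y₁ - y) : KZ) * RatFunc.C (ps y₁ y) = -1 := by
    rw [← map_mul]
    have h2 : (y₁ - y) * ps y₁ y = -1 := by
      unfold ps
      have h3 : y - y₁ ≠ 0 := sub_ne_zero.2 h
      field_simp
      ring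
    rw [h2, map_neg, map_one]
  have h2 : (ZZ : KZ) * ZZ⁻¹ = 1 := mul_inv_cancel₀ ZZ_ne
  unfold YY
  have h3 : (RatFunc.C (y₁ - y) : KZ) = RatFunc.C y₁ - RatFunc.C y := map_sub _ _ _
  rw [h3] at h1 ⊢
  linear_combination (-(RatFunc.C y₁ - RatFunc.C y)) * h2 + (ZZ : KZ)⁻¹ * h1

theorem YY_sub_self (y₁ : ℂ) : YY y₁ - RatFunc.C y₁ = ZZ⁻¹ := by
  unfold YY
  ring

theorem YY_sub_ne (y₁ y : ℂ) : YY y₁ - RatFunc.C y ≠ 0 := by
  by_cases h : y = y₁
  · rw [h, YY_sub_self]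
    exact inv_ne_zero ZZ_ne
  · rw [YY_sub h]
    exact mul_ne_zero (C_ne (sub_ne_zero.2 (Ne.symm h)))
      (mul_ne_zero (LP_ne _) (inv_ne_zero ZZ_ne))

theorem dl_YY_sub {y₁ y : ℂ} (h : y ≠ y₁) :
    dl (YY y₁ - RatFunc.C y) = (ZZ - RatFunc.C (ps y₁ y))⁻¹ - ZZ⁻¹ := by
  rw [YY_sub h, dl_mul (C_ne (sub_ne_zero.2 (Ne.symm h)))
      (mul_ne_zero (LP_ne _) (inv_ne_zero ZZ_ne)), dl_C,
    dl_mul (LP_ne _) (inv_ne_zero ZZ_ne), dl_LP, dl_inv ZZ_ne, dl_ZZ]
  ring

theorem dl_YY_sub_self (y₁ : ℂ) : dl (YY y₁ - RatFunc.C y₁) = -ZZ⁻¹ := by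
  rw [YY_sub_self, dl_inv ZZ_ne, dl_ZZ]

theorem YY_ne (y₁ : ℂ) : YY y₁ ≠ 0 := by
  have h := YY_sub_ne y₁ 0
  rwa [map_zero, sub_zero] at h

theorem YY_form {y₁ : ℂ} (h : y₁ ≠ 0) :
    YY y₁ = RatFunc.C y₁ * ((ZZ - RatFunc.C (ps y₁ 0)) * ZZ⁻¹) := by
  have h1 := YY_sub (y₁ := y₁) (y := 0) (Ne.symm h)
  rwa [map_zero, sub_zero, sub_zero] at h1

theorem dl_YY {y₁ : ℂ} (h : y₁ ≠ 0) :
    dl (YY y₁) = (ZZ - RatFunc.C (ps y₁ 0))⁻¹ - ZZ⁻¹ := by
  have h1 := dl_YY_sub (y₁ := y₁) (y := 0) (Ne.symm h)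
  rwa [map_zero, sub_zero] at h1

/-- the edge polynomial at `Y` -/
theorem aeval_prod (y₁ : ℂ) (I : Polynomial ℂ) :
    Polynomial.aeval (YY y₁) I =
      RatFunc.C I.leadingCoeff * (I.roots.map fun y => YY y₁ - RatFunc.C y).prod := by
  have h1 : I = Polynomial.C I.leadingCoeff *
      (I.roots.map fun y => Polynomial.X - Polynomial.C y).prod :=
    (IsAlgClosed.splits I).eq_prod_roots
  conv_lhs => rw [h1]
  rw [map_mul, Polynomial.aeval_C, map_multiset_prod, Multiset.map_map, Cmap]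
  congr 2
  apply Multiset.map_congr rfl
  intro y _
  simp [Cmap]

theorem aeval_ne (y₁ : ℂ) {I : Polynomial ℂ} (hI : I ≠ 0) : Polynomial.aeval (YY y₁) I ≠ 0 := by
  rw [aeval_prod]
  refine mul_ne_zero (C_ne (Polynomial.leadingCoeff_ne_zero.2 hI)) ?_
  apply Multiset.prod_ne_zero
  intro h
  obtain ⟨y, _, h0⟩ := Multiset.mem_map.1 h
  exact YY_sub_ne y₁ y h0

theorem dl_aeval (y₁ : ℂ) {I : Polynomial ℂ} (hI : I ≠ 0) (hy : I.IsRoot y₁) :
    dl (Polynomial.aeval (YY y₁) I) =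
      ∑ y ∈ I.roots.toFinset.erase y₁, (I.roots.count y : KZ) * (ZZ - RatFunc.C (ps y₁ y))⁻¹
        - (I.natDegree : KZ) * ZZ⁻¹ := by
  have hn : (I.natDegree : KZ) = ∑ y ∈ I.roots.toFinset, (I.roots.count y : KZ) := by
    have h1 : I.roots.card = I.natDegree :=
      ((Polynomial.splits_iff_card_roots).1 (IsAlgClosed.splits I))
    rw [← h1, ← Multiset.toFinset_sum_count_eq I.roots]
    push_cast
    rfl
  have hmem : y₁ ∈ I.roots.toFinset := by
    rw [Multiset.mem_toFinset, Polynomial.mem_roots hI]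
    exact hy
  rw [aeval_prod, dl_mul (C_ne (Polynomial.leadingCoeff_ne_zero.2 hI)), dl_C, zero_add, dl_mprod _ _
    fun y _ => YY_sub_ne y₁ y, Finset.sum_multiset_map_count, hn, Finset.sum_mul,
    ← Finset.add_sum_erase _ _ hmem, ← Finset.add_sum_erase _ _ hmem, dl_YY_sub_self]
  · have h2 : ∀ y ∈ I.roots.toFinset.erase y₁, (I.roots.count y) • dl (YY y₁ - RatFunc.C y) =
        (I.roots.count y : KZ) * (ZZ - RatFunc.C (ps y₁ y))⁻¹ - (I.roots.count y : KZ) * ZZ⁻¹ := by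
      intro y hy'
      rw [dl_YY_sub (Finset.ne_of_mem_erase hy'), nsmul_eq_mul]
      ring
    rw [Finset.sum_congr rfl h2, Finset.sum_sub_distrib, nsmul_eq_mul]
    ring
  · apply Multiset.prod_ne_zero
    intro h
    obtain ⟨y, _, h0⟩ := Multiset.mem_map.1 h
    exact YY_sub_ne y₁ y h0

/-! ### the expansion along the edge -/

theorem toric_mono (p q p' q' : ℕ) (y₁ : ℂ) (a b : ℕ) :
    toric p q p' q' y₁ (X 0 ^ a * X 1 ^ b) =
      PowerSeries.C (YY y₁ ^ (p' * a + q' * b)) * PowerSeries.X ^ (p * a + q * b) := by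
  have h := EWAux.toric_mono p q p' q' y₁ 1 a b
  rwa [map_one, map_one, one_mul, one_mul] at h

theorem psC (c : ℂ) : algebraMap ℂ (PowerSeries KZ) c = PowerSeries.C (RatFunc.C c) := by
  rw [Cmap, IsScalarTower.algebraMap_apply ℂ KZ (PowerSeries KZ)]
  rfl

theorem toric_C (p q p' q' : ℕ) (y₁ : ℂ) (c : ℂ) :
    toric p q p' q' y₁ (C c) = PowerSeries.C (RatFunc.C c) := by
  rw [← psC]
  exact (toric p q p' q' y₁).commutes c

theorem toric_edge (p q p' q' aL bR : ℕ) (y₁ : ℂ) (I : Polynomial ℂ) (hpq : p * q' = p' * q + 1) :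
    toric p q p' q' y₁ (edgePart p q aL bR I) = PowerSeries.X ^ (edgeN p q aL bR I) *
      PowerSeries.C (YY y₁ ^ (p' * aL + q' * bR + p' * q * I.natDegree) *
        Polynomial.aeval (YY y₁) I) := by
  unfold edgePart
  rw [map_sum, Polynomial.aeval_eq_sum_range, Finset.mul_sum, map_sum, Finset.mul_sum]
  refine Finset.sum_congr rfl fun k hk => ?_
  have hk' : k ≤ I.natDegree := Nat.lt_succ_iff.1 (Finset.mem_range.1 hk)
  obtain ⟨l, hl⟩ := Nat.exists_eq_add_of_le hk'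
  rw [mul_assoc, map_mul, toric_mono, toric_C, Algebra.smul_def, ← Cmap]
  have e1 : p * (aL + q * (I.natDegree - k)) + q * (bR + p * k) = edgeN p q aL bR I := by
    unfold edgeN
    rw [hl, Nat.add_sub_cancel_left]
    ring
  have e2 : p' * (aL + q * (I.natDegree - k)) + q' * (bR + p * k) =
      (p' * aL + q' * bR + p' * q * I.natDegree) + k := by
    rw [hl, Nat.add_sub_cancel_left]
    have h3 : q' * (p * k) = (p' * q + 1) * k := by
      rw [← hpq]
      ring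
    calc p' * (aL + q * l) + q' * (bR + p * k)
        = p' * aL + p' * q * l + q' * bR + q' * (p * k) := by ring
      _ = _ := by
        rw [h3]
        ring
  rw [e1, e2, pow_add]
  simp only [map_mul]
  ring

theorem toric_above (p q p' q' N : ℕ) (y₁ : ℂ) (R : P2) (hR : Above p q N R) :
    ∃ R' : PowerSeries KZ, toric p q p' q' y₁ R = PowerSeries.X ^ (N + 1) * R' := by
  have h1 : PowerSeries.X ^ (N + 1) ∣ toric p q p' q' y₁ R := by
    rw [R.as_sum, map_sum]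
    refine Finset.dvd_sum fun d hd => ?_
    have h2 := hR d hd
    have h3 : (monomial d (coeff d R) : P2) = C (coeff d R) * (X 0 ^ (d 0) * X 1 ^ (d 1)) := by
      rw [monomial_eq, Finsupp.prod_fintype _ _ (fun _ => pow_zero _), Fin.prod_univ_two]
    rw [h3, map_mul, toric_mono]
    exact Dvd.dvd.mul_left (Dvd.dvd.mul_left (pow_dvd_pow _ (by omega)) _) _
  obtain ⟨R', hR'⟩ := h1
  exact ⟨R', hR'⟩

theorem toric_expand {F : P2} {p q aL bR : ℕ} {I : Polynomial ℂ} (hE : IsEdge F p q aL bR I)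
    (p' q' : ℕ) (hpq : p * q' = p' * q + 1) (y₁ : ℂ) :
    ∃ G : PowerSeries KZ, toric p q p' q' y₁ F = PowerSeries.X ^ (edgeN p q aL bR I) * G ∧
      PowerSeries.constantCoeff G = YY y₁ ^ (p' * aL + q' * bR + p' * q * I.natDegree) *
        Polynomial.aeval (YY y₁) I := by
  obtain ⟨R', hR'⟩ := toric_above p q p' q' _ y₁ _ hE.above
  refine ⟨PowerSeries.C (YY y₁ ^ (p' * aL + q' * bR + p' * q * I.natDegree) *
    Polynomial.aeval (YY y₁) I) + PowerSeries.X * R', ?_, ?_⟩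
  · have h1 : F = edgePart p q aL bR I + (F - edgePart p q aL bR I) := by ring
    rw [h1, map_add, hR', toric_edge p q p' q' aL bR y₁ I hpq]
    ring
  · rw [map_add, PowerSeries.constantCoeff_C, map_mul, PowerSeries.constantCoeff_X, zero_mul,
      add_zero]

/-! ### the numerator -/

theorem numerator (y₁ : ℂ) (I h : Polynomial ℂ) (hI : I.IsRoot y₁) (hn : 1 ≤ I.natDegree)
    (j : ℕ) (hj : h.natDegree ≤ j) :
    ∃ P : Polynomial ℂ, P.natDegree ≤ I.natDegree * j ∧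
      Polynomial.aeval (YY y₁) P =
        algebraMap (Polynomial ℂ) KZ h * Polynomial.aeval (YY y₁) I ^ j := by
  obtain ⟨I₁, hI₁⟩ : Polynomial.X - Polynomial.C y₁ ∣ I := Polynomial.dvd_iff_isRoot.2 hI
  have hI0 : I ≠ 0 := by
    intro h0
    rw [h0] at hn
    simp at hn
  have hI₁0 : I₁ ≠ 0 := by
    intro h0
    apply hI0
    rw [hI₁, h0, mul_zero]
  have hdeg : I.natDegree = 1 + I₁.natDegree := by
    rw [hI₁, Polynomial.natDegree_mul (Polynomial.X_sub_C_ne_zero y₁) hI₁0,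
      Polynomial.natDegree_X_sub_C]
  set R : Polynomial ℂ := ∑ k ∈ Finset.range (h.natDegree + 1),
    Polynomial.C (h.coeff k) * (Polynomial.X - Polynomial.C y₁) ^ (j - k) with hR
  have hRdeg : R.natDegree ≤ j := by
    apply Polynomial.natDegree_sum_le_of_forall_le
    intro k _
    refine (Polynomial.natDegree_C_mul_le _ _).trans ?_
    rw [Polynomial.natDegree_pow, Polynomial.natDegree_X_sub_C, mul_one]
    exact Nat.sub_le _ _
  have hXC : Polynomial.aeval (YY y₁) (Polynomial.X - Polynomial.C y₁) = (ZZ : KZ)⁻¹ := by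
    rw [map_sub, Polynomial.aeval_X, Polynomial.aeval_C, ← Cmap, YY_sub_self]
  have hRv : Polynomial.aeval (YY y₁) R = algebraMap (Polynomial ℂ) KZ h * ((ZZ : KZ)⁻¹) ^ j := by
    rw [hR, map_sum]
    conv_rhs => rw [h.as_sum_range' (h.natDegree + 1) (Nat.lt_succ_self _)]
    rw [map_sum, Finset.sum_mul]
    refine Finset.sum_congr rfl fun k hk => ?_
    have hk' : k ≤ j := (Nat.lt_succ_iff.1 (Finset.mem_range.1 hk)).trans hj
    rw [map_mul, map_pow, hXC, Polynomial.aeval_C, ← Cmap, ← Polynomial.C_mul_X_pow_eq_monomial,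
      map_mul, map_pow, ← ZZ_eq, RatFunc.algebraMap_C, mul_assoc]
    congr 1
    obtain ⟨l, hl⟩ := Nat.exists_eq_add_of_le hk'
    rw [hl, Nat.add_sub_cancel_left, pow_add, ← mul_assoc, ← mul_pow, mul_inv_cancel₀ ZZ_ne,
      one_pow, one_mul]
  refine ⟨R * I₁ ^ j, ?_, ?_⟩
  · refine Polynomial.natDegree_mul_le.trans ?_
    rw [Polynomial.natDegree_pow, hdeg]
    nlinarith
  · rw [map_mul, map_pow, hRv]
    conv_rhs => rw [hI₁, map_mul, hXC, mul_pow]
    ring

/-! ### leading forms -/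

theorem lead (hLF : Stmt_LF6) {M H e : ℕ} {Φ : Polynomial ℂ} (hc : Chart M H e Φ) (p q p' q' : ℕ)
    (hp : 1 ≤ p) (hq : 1 ≤ q) (hpq : p * q' = p' * q + 1) (y₁ : ℂ) (m : ℕ) (P : Polynomial ℂ)
    (hP : P.natDegree ≤ m) :
    ∃ (φ : P2) (φ' : PowerSeries KZ),
      toric p q p' q' y₁ (chartMap M H Φ φ) = PowerSeries.X ^ (p * (p * e + q) * m) * φ' ∧
      PowerSeries.constantCoeff φ' =
        YY y₁ ^ (p' * (p * e + q) * m) * Polynomial.aeval (YY y₁) P := by
  have h1 : ∀ a : ℕ, ∃ (φ : P2) (c : ℂ) (φ' : PowerSeries KZ), a ≤ m → (c ≠ 0 ∧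
        toric p q p' q' y₁ (chartMap M H Φ φ) = PowerSeries.X ^ (p * (p * e + q) * m) * φ' ∧
        PowerSeries.constantCoeff φ' = RatFunc.C c * YY y₁ ^ (p' * (p * e + q) * m + a)) := by
    intro a
    by_cases ha : a ≤ m
    · obtain ⟨φ, c, φ', h⟩ := hLF M H e Φ hc p q p' q' hp hq hpq y₁ m a ha
      exact ⟨φ, c, φ', fun _ => h⟩
    · exact ⟨0, 0, 0, fun h => absurd h ha⟩
  choose φ c φ' hφ using h1
  refine ⟨∑ a ∈ Finset.range (m + 1), C (P.coeff a / c a) * φ a,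
    ∑ a ∈ Finset.range (m + 1), PowerSeries.C (RatFunc.C (P.coeff a / c a)) * φ' a, ?_, ?_⟩
  · rw [map_sum, map_sum, Finset.mul_sum]
    refine Finset.sum_congr rfl fun a ha => ?_
    have ha' : a ≤ m := Nat.lt_succ_iff.1 (Finset.mem_range.1 ha)
    have h2 : chartMap M H Φ (C (P.coeff a / c a)) = C (P.coeff a / c a) :=
      (chartMap M H Φ).commutes _
    rw [map_mul, h2, map_mul, toric_C, (hφ a ha').2.1]
    ring
  · rw [map_sum, Polynomial.aeval_eq_sum_range' (Nat.lt_succ_of_le hP), Finset.mul_sum]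
    refine Finset.sum_congr rfl fun a ha => ?_
    have ha' : a ≤ m := Nat.lt_succ_iff.1 (Finset.mem_range.1 ha)
    rw [map_mul, PowerSeries.constantCoeff_C, (hφ a ha').2.2, Algebra.smul_def, ← Cmap, pow_add,
      ← mul_assoc, ← mul_assoc, ← map_mul, div_mul_cancel₀ _ (hφ a ha').1]
    ring

/-- constant terms -/
theorem const_toric (p q p' q' : ℕ) (hp : 1 ≤ p) (hq : 1 ≤ q) (y₁ : ℂ) (F : P2) :
    ∃ c : ℂ, PowerSeries.constantCoeff (toric p q p' q' y₁ F) = RatFunc.C c := by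
  refine ⟨eval 0 F, ?_⟩
  induction F using MvPolynomial.induction_on with
  | C a => rw [toric_C, eval_C, PowerSeries.constantCoeff_C]
  | add f g hf hg => rw [map_add, map_add, map_add, hf, hg, map_add]
  | mul_X f i hf =>
    rw [map_mul, map_mul, hf, map_mul, eval_X]
    have h1 : PowerSeries.constantCoeff (toric p q p' q' y₁ (X i)) = 0 := by
      unfold toric
      rw [aeval_X]
      fin_cases i
      · simp [Nat.one_le_iff_ne_zero.1 hp]
      · simp [Nat.one_le_iff_ne_zero.1 hq]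
    rw [h1]
    simp

/-! ### numbers -/

section Num

variable {p q p' q' K aL bR n e : ℕ}

theorem num_A (hpq : p * q' = p' * q + 1) :
    p * (p' * aL + q' * bR + p' * q * n) = p' * (p * aL + q * (bR + p * n)) + bR := by
  have h1 : p * (q' * bR) = (p' * q + 1) * bR := by
    rw [← hpq]
    ring
  calc p * (p' * aL + q' * bR + p' * q * n) = p * p' * aL + p * (q' * bR) + p * p' * q * n := by ring
    _ = _ := by
      rw [h1]
      ring

theorem num_B (hpq : p * q' = p' * q + 1) :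
    q * ((p' * aL + q' * bR + p' * q * n) + n) + aL = q' * (p * aL + q * (bR + p * n)) := by
  have h1 : q' * (p * aL) = (p' * q + 1) * aL := by
    rw [← hpq]
    ring
  have h2 : q' * (q * (p * n)) = (p' * q + 1) * (q * n) := by
    rw [← hpq]
    ring
  have h3 : q' * (p * aL + q * (bR + p * n)) =
      q' * (p * aL) + q' * (q * bR) + q' * (q * (p * n)) := by ring
  rw [h3, h1, h2]
  ring

/-- the exponent at `Y = 0` -/
theorem al0 (hp : 1 ≤ p) (hpq : p * q' = p' * q + 1) (N : ℕ) (hN : N = p * aL + q * (bR + p * n))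
    (hN0 : 1 ≤ N) :
    (p : ℚ) * (((p' * K + q' : ℕ) : ℚ) - ((p * K + q : ℕ) : ℚ) / (N : ℚ) *
      ((p' * aL + q' * bR + p' * q * n : ℕ) : ℚ)) =
    1 - (bR : ℚ) * (((p * K + q : ℕ) : ℚ) / (N : ℚ)) := by
  have h1 : ((p * (p' * aL + q' * bR + p' * q * n) : ℕ) : ℚ) = ((p' * N + bR : ℕ) : ℚ) := by
    rw [hN, num_A hpq]
  have h2 : ((p * q' : ℕ) : ℚ) = ((p' * q + 1 : ℕ) : ℚ) := by rw [hpq]
  have hN' : (N : ℚ) ≠ 0 := by
    have : 0 < N := hN0
    positivity
  push_cast at h1 h2 ⊢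
  field_simp
  linear_combination (-((p : ℚ) * K + q)) * h1 + (N : ℚ) * h2

/-- the exponent at `Y = infinity` -/
theorem alinf (hpq : p * q' = p' * q + 1) (N : ℕ) (hN : N = p * aL + q * (bR + p * n))
    (hN0 : 1 ≤ N) (hq : 1 ≤ q) :
    (N : ℚ) * (((p * K + q : ℕ) : ℚ) / (N : ℚ) *
      (((p' * aL + q' * bR + p' * q * n : ℕ) : ℚ) + n) - ((p' * K + q' : ℕ) : ℚ)) =
    (K : ℚ) * ((bR : ℚ) + p * n) - aL := by
  have h1 : ((q * ((p' * aL + q' * bR + p' * q * n) + n) + aL : ℕ) : ℚ) = ((q' * N : ℕ) : ℚ) := by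
    rw [hN, num_B hpq]
  have h2 : ((p * q' : ℕ) : ℚ) = ((p' * q + 1 : ℕ) : ℚ) := by rw [hpq]
  have h3 : (N : ℚ) = p * aL + q * (bR + p * n) := by
    rw [hN]
    push_cast
    ring
  have hN' : (N : ℚ) ≠ 0 := by
    have : 0 < N := hN0
    positivity
  have hq' : (q : ℚ) ≠ 0 := by
    have : 0 < q := hq
    positivity
  apply mul_left_cancel₀ hq'
  push_cast at h1 h2 ⊢
  have h4 : (q : ℚ) * ((N : ℚ) * (((p : ℚ) * K + q) / N *
      (((p' : ℚ) * aL + q' * bR + p' * q * n) + n) - (p' * K + q'))) =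
      ((p : ℚ) * K + q) * (q * (((p' : ℚ) * aL + q' * bR + p' * q * n) + n)) -
        q * N * (p' * K + q') := by
    field_simp
  rw [h4]
  linear_combination ((p : ℚ) * K + q) * h1 + (N : ℚ) * K * h2 + (K : ℚ) * h3

end Num

/-! ### the special points -/

/-- the special points except `y₁`, in the coordinate `Z` -/
noncomputable def SS (y₁ : ℂ) (I : Polynomial ℂ) (c1 c2 : Prop) [Decidable c1] [Decidable c2] :
    Finset ℂ :=
  ((I.roots.toFinset.erase y₁).image (ps y₁) ∪ (if c1 then {ps y₁ 0} else ∅)) ∪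
    (if c2 then {0} else ∅)

theorem sum_SS {W : Type} [AddCommMonoid W] (y₁ : ℂ) (hy : y₁ ≠ 0) (I : Polynomial ℂ)
    (h0 : I.coeff 0 ≠ 0) (c1 c2 : Prop) [Decidable c1] [Decidable c2] (f : ℂ → W) :
    ∑ P ∈ SS y₁ I c1 c2, f P = ∑ y ∈ I.roots.toFinset.erase y₁, f (ps y₁ y) +
      (if c1 then f (ps y₁ 0) else 0) + (if c2 then f 0 else 0) := by
  have hI : I ≠ 0 := by
    intro h
    rw [h] at h0
    simp at h0
  unfold SS
  rw [Finset.sum_union, Finset.sum_union, Finset.sum_image]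
  · congr 1
    · congr 1
      split_ifs <;> simp
    · split_ifs <;> simp
  · intro y _ y' _ h
    exact ps_inj h
  · split_ifs
    · rw [Finset.disjoint_singleton_right, Finset.mem_image]
      rintro ⟨y, hy1, h⟩
      have h2 := ps_inj h
      rw [h2] at hy1
      have h3 := Multiset.mem_toFinset.1 (Finset.mem_of_mem_erase hy1)
      rw [Polynomial.mem_roots hI, Polynomial.IsRoot, ← Polynomial.coeff_zero_eq_eval_zero] at h3
      exact h0 h3
    · exact Finset.disjoint_empty_right _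
  · by_cases hc2 : c2
    · rw [if_pos hc2, Finset.disjoint_singleton_right, Finset.mem_union, Finset.mem_image]
      rintro (⟨y, hy1, h⟩ | h)
      · exact ps_ne (Finset.ne_of_mem_erase hy1) h
      · split_ifs at h with hc1
        · exact ps_ne (Ne.symm hy) (Finset.mem_singleton.1 h).symm
        · exact absurd h (Finset.notMem_empty _)
    · rw [if_neg hc2]
      exact Finset.disjoint_empty_right _

/-- the exponents -/
noncomputable def aa (y₁ : ℂ) (I : Polynomial ℂ) (r α₀ αi : ℚ) (P : ℂ) : ℚ :=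
  if P = 0 then αi else if P = ps y₁ 0 then α₀ else 1 - r * (I.roots.count (y₁ + P⁻¹) : ℚ)

theorem aa_zero (y₁ : ℂ) (I : Polynomial ℂ) (r α₀ αi : ℚ) : aa y₁ I r α₀ αi 0 = αi := if_pos rfl

theorem aa_ps0 {y₁ : ℂ} (hy : y₁ ≠ 0) (I : Polynomial ℂ) (r α₀ αi : ℚ) :
    aa y₁ I r α₀ αi (ps y₁ 0) = α₀ := by
  unfold aa
  rw [if_neg (ps_ne (Ne.symm hy)), if_pos rfl]

theorem aa_ps {y₁ y : ℂ} (h1 : y ≠ y₁) (h2 : y ≠ 0) (I : Polynomial ℂ) (r α₀ αi : ℚ) :
    aa y₁ I r α₀ αi (ps y₁ y) = 1 - r * (I.roots.count y : ℚ) := by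
  unfold aa
  rw [if_neg (ps_ne h1), if_neg fun h => h2 (ps_inj h), ps_back]

/-- the logarithmic derivative of the gauge factor -/
theorem gauge (y₁ : ℂ) (hy : y₁ ≠ 0) (I : Polynomial ℂ) (h0 : I.coeff 0 ≠ 0) (hroot : I.IsRoot y₁)
    (A ν' : ℕ) (c1 c2 : Prop) [Decidable c1] [Decidable c2] (r α₀ αi : ℚ)
    (h1 : α₀ = ν' - r * A) (h2 : αi = r * ((A : ℚ) + I.natDegree) - ν') (h3 : ¬ c1 → α₀ = 1)
    (h4 : ¬ c2 → αi = 1) :
    tau (SS y₁ I c1 c2) (aa y₁ I r α₀ αi) +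
      dl ((YY y₁ ^ ν')⁻¹ * (ZZ * (ZZ - RatFunc.C (ps y₁ 0))) *
        ∏ P ∈ SS y₁ I c1 c2, (ZZ - RatFunc.C P)⁻¹) +
      RatFunc.C ((r : ℚ) : ℂ) * dl (YY y₁ ^ A * Polynomial.aeval (YY y₁) I) = 0 := by
  have hI : I ≠ 0 := by
    intro h
    rw [h] at h0
    simp at h0
  have hYY := YY_ne y₁
  have hprod : ∏ P ∈ SS y₁ I c1 c2, (ZZ - RatFunc.C P)⁻¹ ≠ (0 : KZ) :=
    Finset.prod_ne_zero_iff.2 fun P _ => inv_ne_zero (LP_ne P)
  have e1 : dl (∏ P ∈ SS y₁ I c1 c2, (ZZ - RatFunc.C P)⁻¹) =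
      -∑ P ∈ SS y₁ I c1 c2, (ZZ - RatFunc.C P)⁻¹ := by
    rw [dl_prod _ _ fun P _ => inv_ne_zero (LP_ne P), ← Finset.sum_neg_distrib]
    exact Finset.sum_congr rfl fun P _ => by rw [dl_inv (LP_ne P), dl_LP]
  rw [dl_mul (mul_ne_zero (inv_ne_zero (pow_ne_zero _ hYY)) (mul_ne_zero ZZ_ne (LP_ne _))) hprod,
    dl_mul (inv_ne_zero (pow_ne_zero _ hYY)) (mul_ne_zero ZZ_ne (LP_ne _)),
    dl_mul ZZ_ne (LP_ne _), dl_inv (pow_ne_zero _ hYY), dl_pow hYY, dl_ZZ, dl_LP, e1,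
    dl_mul (pow_ne_zero _ hYY) (aeval_ne y₁ hI), dl_pow hYY, dl_aeval y₁ hI hroot, dl_YY hy]
  unfold tau
  rw [sum_SS y₁ hy I h0, sum_SS y₁ hy I h0, aa_zero, aa_ps0 hy]
  have hT : ∀ y ∈ I.roots.toFinset.erase y₁, RatFunc.C ((aa y₁ I r α₀ αi (ps y₁ y) : ℚ) : ℂ) *
      (ZZ - RatFunc.C (ps y₁ y))⁻¹ = (ZZ - RatFunc.C (ps y₁ y))⁻¹ -
        RatFunc.C ((r : ℚ) : ℂ) * ((I.roots.count y : KZ) * (ZZ - RatFunc.C (ps y₁ y))⁻¹) := by
    intro y hy'
    have hy0 : y ≠ 0 := by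
      intro h
      rw [h] at hy'
      have h3 := Multiset.mem_toFinset.1 (Finset.mem_of_mem_erase hy')
      rw [Polynomial.mem_roots hI, Polynomial.IsRoot, ← Polynomial.coeff_zero_eq_eval_zero] at h3
      exact h0 h3
    rw [aa_ps (Finset.ne_of_mem_erase hy') hy0]
    push_cast
    rw [map_sub, map_one, map_mul, map_natCast]
    ring
  rw [Finset.sum_congr rfl hT, Finset.sum_sub_distrib, ← Finset.mul_sum]
  have hz0 : (ZZ : KZ) - RatFunc.C 0 = ZZ := by rw [map_zero, sub_zero]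
  have g1 : (RatFunc.C ((α₀ : ℚ) : ℂ) : KZ) =
      (ν' : KZ) - RatFunc.C ((r : ℚ) : ℂ) * (A : KZ) := by
    rw [h1]
    push_cast
    rw [map_sub, map_mul, map_natCast, map_natCast]
  have g2 : (RatFunc.C ((αi : ℚ) : ℂ) : KZ) =
      RatFunc.C ((r : ℚ) : ℂ) * ((A : KZ) + (I.natDegree : KZ)) - (ν' : KZ) := by
    rw [h2]
    push_cast
    rw [map_sub, map_mul, map_add, map_natCast, map_natCast, map_natCast]
  have g3 : ¬ c1 → (ν' : KZ) - RatFunc.C ((r : ℚ) : ℂ) * (A : KZ) = 1 := by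
    intro hc
    rw [← g1, h3 hc]
    push_cast
    rw [map_one]
  have g4 : ¬ c2 → RatFunc.C ((r : ℚ) : ℂ) * ((A : KZ) + (I.natDegree : KZ)) - (ν' : KZ) = 1 := by
    intro hc
    rw [← g2, h4 hc]
    push_cast
    rw [map_one]
  rw [g1, g2, hz0]
  by_cases hc1 : c1 <;> by_cases hc2 : c2
  · simp only [if_pos hc1, if_pos hc2]
    ring
  · simp only [if_pos hc1, if_neg hc2]
    linear_combination (-(ZZ : KZ)⁻¹) * g4 hc2
  · simp only [if_neg hc1, if_pos hc2]
    linear_combination (-(ZZ - RatFunc.C (ps y₁ 0) : KZ)⁻¹) * g3 hc1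
  · simp only [if_neg hc1, if_neg hc2]
    linear_combination (-(ZZ : KZ)⁻¹) * g4 hc2 + (-(ZZ - RatFunc.C (ps y₁ 0) : KZ)⁻¹) * g3 hc1

/-- multiplication by the gauge factor -/
theorem twist (U G₀ τ c W g : KZ) (hU : U ≠ 0) (h : τ + dl U + c * dl G₀ = 0)
    (hg : DZ g - c * (DZ G₀ / G₀) * g = W) : DZ (U * g) + τ * (U * g) = U * W := by
  have h1 : DZ U = U * dl U := by
    unfold dl
    field_simp
  rw [DZ.leibniz, smul_eq_mul, smul_eq_mul, h1, ← hg]
  unfold dl at h ⊢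
  linear_combination (U * g) * h

theorem final_alg {Y Z L u h G κ c M : KZ} {y : KZ} {ν' j : ℕ} (hY : Y ≠ 0) (hZ : Z ≠ 0)
    (hG : G ≠ 0) (hy : y ≠ 0) (hYf : Y = y * (L * Z⁻¹)) (hν : 1 ≤ ν')
    (hκ : κ * (c * -M) = y) :
    ((Y ^ ν')⁻¹ * (Z * L) * u) * (κ * h * G ^ j * (c * (-M * Y ^ (ν' - 1) * Z⁻¹ ^ 2)) *
      (G ^ j)⁻¹) = h * u := by
  obtain ⟨k, rfl⟩ := Nat.exists_eq_add_of_le' hν
  rw [Nat.add_sub_cancel]
  have h1 : L = Y * Z * y⁻¹ := by
    rw [hYf]
    field_simp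
  rw [h1]
  have h2 : ((Y ^ (k + 1))⁻¹ * (Z * (Y * Z * y⁻¹)) * u) * (κ * h * G ^ j *
      (c * (-M * Y ^ k * Z⁻¹ ^ 2)) * (G ^ j)⁻¹) = (κ * (c * -M)) * y⁻¹ * h * u := by
    field_simp
    ring
  rw [h2, hκ, mul_inv_cancel₀ hy, one_mul]

end EWB

open EWB in
theorem stmt_EW6 (hNV : Stmt_NV6) (hRES : Stmt_RES6) (hCH : Stmt_CH6) (hLF : Stmt_LF6)
    (hJ : Stmt_JAC6) : Stmt_EW6 := by
  rintro f r ⟨α, M, H, e, Φ, p, q, aL, bR, I, hc, hE, heb, hsp, hr⟩
  obtain ⟨_, _, hM, hKe⟩ := hCH M H e Φ hc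
  obtain ⟨p', q', hpq⟩ := EWAux.exists_pq p q hE.hp hE.hq hE.cop
  have hp := hE.hp
  have hq := hE.hq
  have hI : I ≠ 0 := by
    intro h
    have := hE.deg
    rw [h] at this
    simp at this
  obtain ⟨y₁, hroot⟩ : ∃ y, I.IsRoot y := by
    apply IsAlgClosed.exists_root
    rw [Polynomial.degree_eq_natDegree hI]
    have := hE.deg
    intro h
    have h1 : I.natDegree = 0 := by exact_mod_cast h
    omega
  have hy : y₁ ≠ 0 := by
    intro h
    rw [h, Polynomial.IsRoot, ← Polynomial.coeff_zero_eq_eval_zero] at hroot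
    exact hE.coeff_zero hroot
  set n := I.natDegree with hn
  set K := M + H with hK
  have hN : edgeN p q aL bR I = p * aL + q * (bR + p * n) := rfl
  set N := edgeN p q aL bR I with hNdef
  have hn1 : 1 ≤ n := hE.deg
  have hbL : 1 ≤ bR + p * n := by nlinarith
  have hqbL : bR + p * n ≤ q * (bR + p * n) := Nat.le_mul_of_pos_left _ hq
  have hN1 : 1 ≤ N := by
    rw [hN]
    omega
  have hK1 : 1 ≤ K := by omega
  set ν := p * K + q with hν
  set ν' := p' * K + q' with hν'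
  set A := p' * aL + q' * bR + p' * q * n with hA
  have hq'1 : 1 ≤ q' := by
    rcases Nat.eq_zero_or_pos q' with h | h
    · rw [h] at hpq
      omega
    · exact h
  have hν'1 : 1 ≤ ν' := by omega
  have hNQ : (0 : ℚ) < N := by exact_mod_cast hN1
  have hνQ : (0 : ℚ) < ν := by
    have : 0 < ν := by omega
    exact_mod_cast this
  have hr0 : 0 < r := by
    rw [hr]
    exact div_pos hνQ hNQ
  set α₀ : ℚ := ν' - r * A with hα₀
  set αi : ℚ := r * ((A : ℚ) + n) - ν' with hαi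
  have f0 : (p : ℚ) * α₀ = 1 - bR * r := by
    have := al0 (K := K) (aL := aL) (bR := bR) (n := n) (q := q) (p' := p') (q' := q') hp hpq N hN
      hN1
    rw [hα₀, hr]
    exact this
  have fi : (N : ℚ) * αi = K * ((bR : ℚ) + p * n) - aL := by
    have := alinf (K := K) (aL := aL) (bR := bR) (n := n) (p := p) (p' := p') (q' := q') hpq N hN
      hN1 hq
    rw [hαi, hr]
    exact this
  have hNQ' : (N : ℚ) = p * aL + q * (bR + p * n) := by
    rw [hN]
    push_cast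
    ring
  have g3 : ¬ (2 ≤ p ∨ 1 ≤ bR) → α₀ = 1 := by
    intro h
    have hp1 : p = 1 := by omega
    have hb0 : bR = 0 := by omega
    rw [hp1, hb0] at f0
    push_cast at f0
    linarith
  have g4 : ¬ (2 ≤ q ∨ 1 ≤ aL) → αi = 1 := by
    intro h
    have hq1 : q = 1 := by omega
    have ha0 : aL = 0 := by omega
    have he0 : e = 0 := by
      rw [ha0] at heb
      rcases Nat.eq_zero_or_pos e with h0 | h0
      · exact h0
      · have := Nat.mul_le_mul h0 hbL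
        omega
    have hK' : K = 1 := by omega
    rw [hK', ha0] at fi
    rw [hq1, ha0] at hNQ'
    push_cast at fi hNQ'
    have h5 : (N : ℚ) * αi = N * 1 := by
      rw [fi, hNQ']
      ring
    exact mul_left_cancel₀ hNQ.ne' h5
  have l3 : (2 ≤ p ∨ 1 ≤ bR) → α₀ < 1 := by
    intro h
    have hpQ : (1 : ℚ) ≤ p := by exact_mod_cast hp
    have hb : (0 : ℚ) ≤ bR * r := by positivity
    by_contra h1
    push Not at h1
    rcases h with h | h
    · have : (2 : ℚ) ≤ p := by exact_mod_cast h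
      nlinarith
    · have : (1 : ℚ) ≤ bR := by exact_mod_cast h
      nlinarith
  have l4 : (2 ≤ q ∨ 1 ≤ aL) → αi < 1 := by
    intro h
    have h1 : K * (bR + p * n) < aL + N := by
      have h2 : K * (bR + p * n) ≤ (e + 1) * (bR + p * n) := Nat.mul_le_mul_right _ hKe
      have h3 : (e + 1) * (bR + p * n) ≤ aL + (bR + p * n) := by
        have : (e + 1) * (bR + p * n) = e * (bR + p * n) + (bR + p * n) := by ring
        omega
      have h4 : bR + p * n < N := by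
        rw [hN]
        rcases h with h | h
        · have := Nat.mul_le_mul h (le_refl (bR + p * n))
          omega
        · have := Nat.mul_le_mul hp h
          omega
      omega
    have h2 : (K : ℚ) * ((bR : ℚ) + p * n) < aL + N := by exact_mod_cast h1
    have h3 : (N : ℚ) * αi < N * 1 := by
      rw [fi]
      linarith
    exact lt_of_mul_lt_mul_left h3 hNQ.le
  have hT0 : ∀ y ∈ I.roots.toFinset.erase y₁, y ≠ 0 := by
    intro y hy' h
    rw [h] at hy'
    have h3 := Multiset.mem_toFinset.1 (Finset.mem_of_mem_erase hy')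
    rw [Polynomial.mem_roots hI, Polynomial.IsRoot, ← Polynomial.coeff_zero_eq_eval_zero] at h3
    exact hE.coeff_zero h3
  -- the exponents are smaller than one
  have hlt : ∀ P ∈ SS y₁ I (2 ≤ p ∨ 1 ≤ bR) (2 ≤ q ∨ 1 ≤ aL), aa y₁ I r α₀ αi P < 1 := by
    intro P hP
    unfold SS at hP
    rw [Finset.mem_union, Finset.mem_union, Finset.mem_image] at hP
    rcases hP with (⟨y, hy1, rfl⟩ | hP) | hP
    · rw [aa_ps (Finset.ne_of_mem_erase hy1) (hT0 y hy1)]
      have h1 : 1 ≤ I.roots.count y :=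
        Multiset.one_le_count_iff_mem.2 (Multiset.mem_toFinset.1 (Finset.mem_of_mem_erase hy1))
      have h2 : (1 : ℚ) ≤ (I.roots.count y : ℚ) := by exact_mod_cast h1
      nlinarith
    · split_ifs at hP with hc1
      · rw [Finset.mem_singleton.1 hP, aa_ps0 hy]
        exact l3 hc1
      · exact absurd hP (Finset.notMem_empty _)
    · split_ifs at hP with hc2
      · rw [Finset.mem_singleton.1 hP, aa_zero]
        exact l4 hc2
      · exact absurd hP (Finset.notMem_empty _)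
  have hmem : y₁ ∈ I.roots.toFinset := by
    rw [Multiset.mem_toFinset, Polynomial.mem_roots hI]
    exact hroot
  have hcardT : (I.roots.toFinset.erase y₁).card + 1 = I.roots.toFinset.card :=
    Finset.card_erase_add_one hmem
  have hcard : (SS y₁ I (2 ≤ p ∨ 1 ≤ bR) (2 ≤ q ∨ 1 ≤ aL)).card + 1 = special p q aL bR I := by
    rw [Finset.card_eq_sum_ones, sum_SS y₁ hy I hE.coeff_zero, ← Finset.card_eq_sum_ones]
    unfold special
    omega
  have hcond : 2 ≤ (SS y₁ I (2 ≤ p ∨ 1 ≤ bR) (2 ≤ q ∨ 1 ≤ aL)).card ∨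
      ∃ (P : ℂ) (k : ℕ), SS y₁ I (2 ≤ p ∨ 1 ≤ bR) (2 ≤ q ∨ 1 ≤ aL) = {P} ∧
        aa y₁ I r α₀ αi P = -(k : ℚ) := by
    rcases hsp with hsp | ⟨hp1, hq1, ha0, hb0, hn2, hr2⟩
    · left
      omega
    · right
      have hc1 : ¬ (2 ≤ p ∨ 1 ≤ bR) := by omega
      have hc2 : ¬ (2 ≤ q ∨ 1 ≤ aL) := by omega
      have hT1 : (I.roots.toFinset.erase y₁).card = 1 := by omega
      obtain ⟨y, hyT⟩ := Finset.card_eq_one.1 hT1
      have hyT' : y ∈ I.roots.toFinset.erase y₁ := by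
        rw [hyT]
        exact Finset.mem_singleton_self y
      refine ⟨ps y₁ y, 0, ?_, ?_⟩
      · unfold SS
        rw [if_neg hc1, if_neg hc2, hyT]
        simp
      · rw [aa_ps (Finset.ne_of_mem_erase hyT') (hT0 y hyT')]
        have he0 : e = 0 := by
          rw [ha0] at heb
          rcases Nat.eq_zero_or_pos e with h0 | h0
          · exact h0
          · have := Nat.mul_le_mul h0 hbL
            omega
        have hK' : K = 1 := by omega
        have hr1 : r = 1 := by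
          rw [hr, hN, hν, hK', hp1, hq1, ha0, hb0, hn2]
          norm_num
        have hcount : I.roots.count y = 1 := by
          have h1 : I.roots.card = n := (Polynomial.splits_iff_card_roots).1 (IsAlgClosed.splits I)
          have h2 : I.roots.toFinset.card = I.roots.card := by rw [hr2, h1, hn2]
          have h3 : I.roots.Nodup := by
            rw [← Multiset.dedup_card_eq_card_iff_nodup]
            exact h2
          exact Multiset.count_eq_one_of_mem h3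
            (Multiset.mem_toFinset.1 (Finset.mem_of_mem_erase hyT'))
        rw [hr1, hcount]
        norm_num
  obtain ⟨h, hh⟩ := hNV (SS y₁ I (2 ≤ p ∨ 1 ≤ bR) (2 ≤ q ∨ 1 ≤ aL)) (aa y₁ I r α₀ αi)
    (fun P hP k hk hk' => by
      have h1 := hlt P hP
      rw [hk'] at h1
      have h2 : (1 : ℚ) ≤ k := by exact_mod_cast hk
      linarith) hcond
  set D := h.natDegree with hD
  set j := p * (p * e + q) * (D + 1) with hj
  have hpe : 1 ≤ p * (p * e + q) := by
    have h1 : 1 ≤ p * e + q := by omega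
    exact le_trans (by norm_num) (Nat.mul_le_mul hp h1)
  have hDj : D ≤ j := by
    have := Nat.mul_le_mul hpe (le_refl (D + 1))
    omega
  obtain ⟨P, hPdeg, hPval⟩ := numerator y₁ I h hroot hE.deg j hDj
  rw [← hn] at hPdeg
  -- the Jacobian
  obtain ⟨cJ, hcJ, hcJ'⟩ := hJ.2 α
  have hMC : (M : ℂ) ≠ 0 := by
    have : M ≠ 0 := by omega
    exact_mod_cast this
  set κ : ℂ := y₁ / (cJ * -(M : ℂ)) with hκ
  have hκ' : κ * (cJ * -(M : ℂ)) = y₁ := div_mul_cancel₀ _ (mul_ne_zero hcJ (neg_ne_zero.2 hMC))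
  obtain ⟨φ₀, φ', hφ, hφ'⟩ := lead hLF hc p q p' q' hp hq hpq y₁ (N * (D + 1))
    (Polynomial.C κ * (Polynomial.X ^ ((p * e + q) * (D + 1) * bR) * P)) (by
      refine (Polynomial.natDegree_C_mul_le _ _).trans ((Polynomial.natDegree_mul_le).trans ?_)
      rw [Polynomial.natDegree_X_pow]
      have h1 : (p * e + q) * (D + 1) * bR + n * j = ((p * e + q) * (bR + p * n)) * (D + 1) := by
        rw [hj]
        ring
      have h2 : (p * e + q) * (bR + p * n) ≤ N := by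
        have h3 := Nat.mul_le_mul_left p heb
        have h4 : (p * e + q) * (bR + p * n) = p * (e * (bR + p * n)) + q * (bR + p * n) := by ring
        rw [hN, h4]
        omega
      calc (p * e + q) * (D + 1) * bR + P.natDegree ≤ (p * e + q) * (D + 1) * bR + n * j := by
            omega
        _ ≤ N * (D + 1) := by
            rw [h1]
            exact Nat.mul_le_mul_right _ h2)
  obtain ⟨G, hG, hG0⟩ := toric_expand hE p' q' hpq y₁
  have hYY := YY_ne y₁
  have hG0' : PowerSeries.constantCoeff G = YY y₁ ^ A * Polynomial.aeval (YY y₁) I := hG0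
  have hGne : PowerSeries.constantCoeff G ≠ 0 := by
    rw [hG0']
    exact mul_ne_zero (pow_ne_zero _ hYY) (aeval_ne y₁ hI)
  have hval : PowerSeries.constantCoeff φ' = RatFunc.C κ * algebraMap (Polynomial ℂ) KZ h *
      (YY y₁ ^ A * Polynomial.aeval (YY y₁) I) ^ j := by
    rw [hφ', map_mul, map_mul, map_pow, Polynomial.aeval_X, Polynomial.aeval_C, ← Cmap, hPval]
    have h1 : p' * (p * e + q) * (N * (D + 1)) + (p * e + q) * (D + 1) * bR = A * j := by
      have h2 : p * A = p' * N + bR := by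
        rw [hN, hA]
        exact num_A hpq
      calc p' * (p * e + q) * (N * (D + 1)) + (p * e + q) * (D + 1) * bR
          = (p' * N + bR) * ((p * e + q) * (D + 1)) := by ring
        _ = A * j := by
          rw [← h2, hj]
          ring
    rw [mul_pow, ← pow_mul (YY y₁) A j, ← h1, pow_add]
    ring
  set σ : P2 →ₐ[ℂ] PowerSeries KZ :=
    ((toric p q p' q' y₁).comp (chartMap M H Φ)).comp (α : P2 →ₐ[ℂ] P2) with hσ
  have hσv : ∀ F : P2, σ F = toric p q p' q' y₁ (chartMap M H Φ (α F)) := fun F => rfl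
  have hJσ : jac σ = PowerSeries.X ^ (ν - 1) * (PowerSeries.C (RatFunc.C cJ) * PowerSeries.C
      (-(M : KZ) * YY y₁ ^ (ν' - 1) * (ZZ⁻¹) ^ 2)) := by
    rw [hσ, hcJ', hJ.1 M H p q p' q' Φ y₁ hM hp hq hpq]
    ring
  rw [hr]
  refine hRES f σ (fun i => ?_) N ν j G _ φ' (α.symm φ₀) hN1 (by omega) ?_ hGne hJσ ?_ ?_
  · rw [hσv]
    exact const_toric p q p' q' hp hq y₁ _
  · rw [hσv]
    exact hG
  · rw [hσv, α.apply_symm_apply, hφ]
    congr 2
    rw [hj]
    ring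
  · intro g hg
    have hrC : ((r : ℚ) : ℂ) = (ν : ℂ) / (N : ℂ) := by
      rw [hr]
      push_cast
      rfl
    have hgauge := gauge y₁ hy I hE.coeff_zero hroot A ν' (2 ≤ p ∨ 1 ≤ bR) (2 ≤ q ∨ 1 ≤ aL) r α₀ αi
      hα₀ hαi g3 g4
    rw [hrC, ← hG0'] at hgauge
    have hU : (YY y₁ ^ ν')⁻¹ * (ZZ * (ZZ - RatFunc.C (ps y₁ 0))) *
        ∏ P ∈ SS y₁ I (2 ≤ p ∨ 1 ≤ bR) (2 ≤ q ∨ 1 ≤ aL), (ZZ - RatFunc.C P)⁻¹ ≠ (0 : KZ) :=
      mul_ne_zero (mul_ne_zero (inv_ne_zero (pow_ne_zero _ hYY)) (mul_ne_zero ZZ_ne (LP_ne _)))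
        (Finset.prod_ne_zero_iff.2 fun P _ => inv_ne_zero (LP_ne P))
    have key := twist _ _ _ _ _ g hU hgauge hg
    refine hh _ (key.trans ?_)
    rw [hval, map_mul, PowerSeries.constantCoeff_C, PowerSeries.constantCoeff_C, ← hG0']
    refine final_alg hYY ZZ_ne hGne (C_ne hy) (YY_form hy) hν'1 ?_
    rw [← map_natCast (RatFunc.C : ℂ →+* KZ), ← map_neg, ← map_mul, ← map_mul, hκ']

end Pool.Agent.Mono.PC
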