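import Pool.Agent.Work.Monodromy.Interface6W

/-!
# Block JAC6: Jacobians
-/

set_option autoImplicit false
set_option linter.unusedSectionVars false

namespace Pool.Agent.Mono.PC

open MvPolynomial TS

namespace JAC6Aux

/-- `dZ` as a derivation -/
noncomputable def dZD : Derivation ℂ (PowerSeries KZ) (PowerSeries KZ) where
  toFun := dZ
  map_add' F G := by
    ext n
    simp [dZ]
  map_smul' c F := by
    ext n
    simp [dZ]
  map_one_eq_zero' := by
    ext n
    change PowerSeries.coeff n (dZ 1) = _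
    rw [dZ, PowerSeries.coeff_mk, PowerSeries.coeff_one]
    split_ifs <;> simp
  leibniz' F G := by
    ext n
    change PowerSeries.coeff n (dZ (F * G)) = PowerSeries.coeff n (F * dZ G + G * dZ F)
    rw [mul_comm G (dZ F), map_add, dZ, PowerSeries.coeff_mk, PowerSeries.coeff_mul,
      PowerSeries.coeff_mul, PowerSeries.coeff_mul, map_sum, ← Finset.sum_add_distrib]
    refine Finset.sum_congr rfl fun x _ => ?_
    rw [dZ, dZ, PowerSeries.coeff_mk, PowerSeries.coeff_mk, Derivation.leibniz, smul_eq_mul,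
      smul_eq_mul]
    ring

/-- `dX` as a derivation over `ℂ` -/
noncomputable def dXD : Derivation ℂ (PowerSeries KZ) (PowerSeries KZ) :=
  (PowerSeries.derivative KZ).restrictScalars ℂ

theorem dXD_apply (F : PowerSeries KZ) : dXD F = dX F := rfl

theorem dZD_apply (F : PowerSeries KZ) : dZD F = dZ F := rfl

theorem dZ_C (a : KZ) : dZ (PowerSeries.C a) = PowerSeries.C (DZ a) := by
  ext n
  rw [dZ, PowerSeries.coeff_mk, PowerSeries.coeff_C, PowerSeries.coeff_C]
  split_ifs <;> simp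

theorem dX_C (a : KZ) : dX (PowerSeries.C a) = 0 := by
  simp [dX]

theorem dZ_X : dZ (PowerSeries.X : PowerSeries KZ) = 0 := by
  ext n
  rw [dZ, PowerSeries.coeff_mk, PowerSeries.coeff_X]
  split_ifs <;> simp

theorem dX_X : dX (PowerSeries.X : PowerSeries KZ) = 1 := by
  simp [dX]

theorem DZ_ZZ : DZ ZZ = 1 := by
  have h := locDer_algebraMap (K := KZ) (nonZeroDivisors (Polynomial ℂ))
    (Polynomial.derivative' (R := ℂ)) (Polynomial.X : Polynomial ℂ)
  rw [RatFunc.algebraMap_X] at h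
  rw [DZ, ZZ, h]
  simp

theorem DZ_C (a : ℂ) : DZ (RatFunc.C a) = 0 := by
  have h : (RatFunc.C a : KZ) = algebraMap ℂ KZ a := rfl
  rw [h]
  exact Derivation.map_algebraMap _ _

theorem DZ_YY (y₁ : ℂ) : DZ (YY y₁) = -(ZZ⁻¹ ^ 2) := by
  rw [YY, map_add, DZ_C, zero_add, Derivation.leibniz_inv, DZ_ZZ]
  simp

/-- the pull back of `dx ∧ dy` under a chart map -/
theorem wedge {R : Type} [CommRing R] [Algebra ℂ R] (D1 D2 : Derivation ℂ R R) (s v : R)
    (M H : ℕ) (Φ : Polynomial ℂ) :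
    D1 (s ^ M) * D2 (Polynomial.aeval s Φ + s ^ H * v) -
      D2 (s ^ M) * D1 (Polynomial.aeval s Φ + s ^ H * v) =
      M * s ^ (M - 1) * s ^ H * (D1 s * D2 v - D2 s * D1 v) := by
  have h1 : ∀ D : Derivation ℂ R R, D (s ^ M) = M * s ^ (M - 1) * D s := by
    intro D
    rw [Derivation.leibniz_pow]
    simp only [smul_eq_mul, nsmul_eq_mul]
    ring
  have h2 : ∀ D : Derivation ℂ R R, D (Polynomial.aeval s Φ + s ^ H * v) =
      Polynomial.aeval s (Polynomial.derivative Φ) * D s + s ^ H * D v +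
        v * (H * s ^ (H - 1) * D s) := by
    intro D
    rw [map_add, Derivation.map_aeval, Derivation.leibniz, Derivation.leibniz_pow]
    simp only [smul_eq_mul, nsmul_eq_mul]
    ring
  rw [h1, h1, h2, h2]
  ring

/-- `D1(φ x) D2(φ y) - D2(φ x) D1(φ y)` -/
noncomputable def wd {R : Type} [CommRing R] [Algebra ℂ R] (D1 D2 : Derivation ℂ R R)
    (φ : P2 →ₐ[ℂ] R) : R :=
  D1 (φ (X 0)) * D2 (φ (X 1)) - D2 (φ (X 0)) * D1 (φ (X 1))

/-- chain rule for a derivation -/
theorem der_aeval {R : Type} [CommRing R] [Algebra ℂ R] (D : Derivation ℂ R R)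
    (σ : P2 →ₐ[ℂ] R) (F : P2) :
    D (σ F) = σ (pderiv 0 F) * D (σ (X 0)) + σ (pderiv 1 F) * D (σ (X 1)) := by
  induction F using MvPolynomial.induction_on with
  | C a =>
    have : σ (C a) = algebraMap ℂ R a := σ.commutes a
    rw [this, Derivation.map_algebraMap]
    simp
  | add p q hp hq =>
    rw [map_add, map_add, hp, hq, map_add, map_add, map_add, map_add]
    ring
  | mul_X p i hp =>
    rw [map_mul, Derivation.leibniz, hp, Derivation.leibniz, Derivation.leibniz, map_add, map_add]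
    simp only [smul_eq_mul, map_mul]
    fin_cases i
    · simp only [Fin.zero_eta, pderiv_X_self, map_one, Fin.isValue]
      rw [pderiv_X_of_ne (show (0 : Fin 2) ≠ 1 by decide), map_zero]
      ring
    · simp only [Fin.mk_one, pderiv_X_self, map_one, Fin.isValue]
      rw [pderiv_X_of_ne (show (1 : Fin 2) ≠ 0 by decide), map_zero]
      ring

/-- chain rule for the Jacobian determinant -/
theorem wd_comp {R : Type} [CommRing R] [Algebra ℂ R] (D1 D2 : Derivation ℂ R R)
    (σ : P2 →ₐ[ℂ] R) (φ : P2 →ₐ[ℂ] P2) :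
    wd D1 D2 (σ.comp φ) = σ (wd (pderiv 0) (pderiv 1) φ) * wd D1 D2 σ := by
  simp only [wd, AlgHom.comp_apply]
  rw [der_aeval D1 σ (φ (X 0)), der_aeval D1 σ (φ (X 1)), der_aeval D2 σ (φ (X 0)),
    der_aeval D2 σ (φ (X 1))]
  simp only [map_sub, map_mul]
  ring

end JAC6Aux

open JAC6Aux

theorem stmt_JAC6 : Stmt_JAC6 := by
  refine ⟨?_, ?_⟩
  · intro M H p q p' q' Φ y₁ hM hp hq hpq
    obtain ⟨M, rfl⟩ : ∃ k, M = k + 1 := ⟨M - 1, by omega⟩
    obtain ⟨p, rfl⟩ : ∃ k, p = k + 1 := ⟨p - 1, by omega⟩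
    obtain ⟨q, rfl⟩ : ∃ k, q = k + 1 := ⟨q - 1, by omega⟩
    obtain ⟨q', rfl⟩ : ∃ k, q' = k + 1 := ⟨q' - 1, by
      rcases Nat.eq_zero_or_pos q' with h | h
      · subst h
        omega
      · omega⟩
    set Y : PowerSeries KZ := PowerSeries.C (YY y₁) with hY
    set T : PowerSeries KZ := PowerSeries.X with hT
    set W : PowerSeries KZ := PowerSeries.C (ZZ⁻¹) with hW
    set s : PowerSeries KZ := Y ^ p' * T ^ (p + 1) with hs
    set v : PowerSeries KZ := Y ^ (q' + 1) * T ^ (q + 1) with hv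
    have hx : ((toric (p + 1) (q + 1) p' (q' + 1) y₁).comp (chartMap (M + 1) H Φ)) (X 0) =
        s ^ (M + 1) := by
      rw [AlgHom.comp_apply, chartMap, aeval_X]
      simp only [Matrix.cons_val_zero, map_pow, toric, aeval_X]
      rfl
    have hy : ((toric (p + 1) (q + 1) p' (q' + 1) y₁).comp (chartMap (M + 1) H Φ)) (X 1) =
        Polynomial.aeval s Φ + s ^ H * v := by
      rw [AlgHom.comp_apply, chartMap, aeval_X]
      simp only [Matrix.cons_val_one, Matrix.cons_val_zero, map_add, map_mul, map_pow]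
      rw [← Polynomial.aeval_algHom_apply]
      simp only [toric, aeval_X, Matrix.cons_val_zero, Matrix.cons_val_one, map_pow]
      rfl
    have hDY : dZD Y = -(W ^ 2) := by
      rw [dZD_apply, hY, dZ_C, DZ_YY, map_neg, map_pow]
    have hDX : dXD Y = 0 := by rw [dXD_apply, hY, dX_C]
    have hDT : dZD T = 0 := by rw [dZD_apply, hT, dZ_X]
    have hDT2 : dXD T = 1 := by rw [dXD_apply, hT, dX_X]
    have hg : ∀ (D : Derivation ℂ (PowerSeries KZ) (PowerSeries KZ)) (a b : ℕ),
        D (Y ^ a * T ^ b) = Y ^ a * (b * T ^ (b - 1) * D T) + T ^ b * (a * Y ^ (a - 1) * D Y) := by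
      intro D a b
      rw [Derivation.leibniz, Derivation.leibniz_pow, Derivation.leibniz_pow]
      simp only [smul_eq_mul, nsmul_eq_mul]
      ring
    have hrel : ((p : PowerSeries KZ) + 1) * (q' + 1) = p' * (q + 1) + 1 := by
      exact_mod_cast congrArg (fun n : ℕ => (n : PowerSeries KZ)) hpq
    have hsv : dXD s * dZD v - dZD s * dXD v = -(Y ^ (p' + q') * W ^ 2 * T ^ (p + q + 1)) := by
      rw [hs, hv, hg, hg, hg, hg, hDY, hDX, hDT, hDT2]
      rcases p' with _ | p'
      · simp only [Nat.add_sub_cancel]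
        push_cast at hrel ⊢
        linear_combination (-(Y ^ q' * W ^ 2 * T ^ (p + q + 1))) * hrel
      · simp only [Nat.add_sub_cancel]
        push_cast at hrel ⊢
        linear_combination (-(Y ^ (p' + 1 + q') * W ^ 2 * T ^ (p + q + 1))) * hrel
    have key := wedge dXD dZD s v (M + 1) H Φ
    rw [hsv] at key
    rw [jac, hx, hy]
    have e1 : (p + 1) * (M + 1 + H) + (q + 1) - 1 = (p + 1) * (M + H) + (p + q + 1) := by
      have : (p + 1) * (M + 1 + H) + (q + 1) = ((p + 1) * (M + H) + (p + q + 1)) + 1 := by ring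
      omega
    have e2 : p' * (M + 1 + H) + (q' + 1) - 1 = p' * (M + H) + (p' + q') := by
      have : p' * (M + 1 + H) + (q' + 1) = (p' * (M + H) + (p' + q')) + 1 := by ring
      omega
    rw [e1, e2]
    have e3 : PowerSeries.C (-((M + 1 : ℕ) : KZ) * YY y₁ ^ (p' * (M + H) + (p' + q')) *
        ZZ⁻¹ ^ 2) = -((M + 1 : ℕ) : PowerSeries KZ) * Y ^ (p' * (M + H) + (p' + q')) * W ^ 2 := by
      rw [map_mul, map_mul, map_neg, map_natCast, map_pow, map_pow]
    rw [e3]
    refine Eq.trans key ?_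
    rw [hs]
    simp only [Nat.add_sub_cancel]
    ring
  · intro α
    -- the Jacobian determinant of `α` is a unit
    have hJ : ∀ φ ψ : P2 →ₐ[ℂ] P2, wd (pderiv 0) (pderiv 1) (ψ.comp φ) =
        ψ (wd (pderiv 0) (pderiv 1) φ) * wd (pderiv 0) (pderiv 1) ψ := fun φ ψ =>
      wd_comp _ _ ψ φ
    have h1 := hJ (α.symm : P2 →ₐ[ℂ] P2) (α : P2 →ₐ[ℂ] P2)
    have h2 : (α : P2 →ₐ[ℂ] P2).comp (α.symm : P2 →ₐ[ℂ] P2) = AlgHom.id ℂ P2 := by
      refine MvPolynomial.algHom_ext fun i => ?_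
      simp
    have h3 : wd (pderiv 0) (pderiv 1) (AlgHom.id ℂ P2) = 1 := by
      simp [wd, pderiv_X]
    rw [h2, h3] at h1
    have h4 : IsUnit (wd (pderiv 0) (pderiv 1) (α : P2 →ₐ[ℂ] P2)) :=
      IsUnit.of_mul_eq_one _ (by rw [mul_comm]; exact h1.symm)
    obtain ⟨c, hc, hce⟩ := MvPolynomial.isUnit_iff_eq_C_of_isReduced.1 h4
    refine ⟨c, hc.ne_zero, fun σ => ?_⟩
    have h5 := wd_comp dXD dZD σ (α : P2 →ₐ[ℂ] P2)
    rw [hce] at h5
    have h6 : σ (C c) = PowerSeries.C (RatFunc.C c : KZ) := by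
      have : σ (C c) = algebraMap ℂ (PowerSeries KZ) c := σ.commutes c
      rw [this, PowerSeries.algebraMap_apply]
      rfl
    rw [h6] at h5
    exact h5

end Pool.Agent.Mono.PC
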