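import Pool.Agent.Work.Monodromy6.CH6

/-!
# Block LF6: leading forms along an edge
-/

set_option autoImplicit false
set_option linter.unusedSectionVars false

namespace Pool.Agent.Mono.PC

open MvPolynomial TS

namespace LF6Aux

open CH6Aux

theorem toric_zero (p q p' q' : ℕ) (y₁ : ℂ) : toric p q p' q' y₁ (X 0) =
    PowerSeries.C (YY y₁ ^ p') * PowerSeries.X ^ p := by
  rw [toric, aeval_X]
  rfl

theorem toric_one (p q p' q' : ℕ) (y₁ : ℂ) : toric p q p' q' y₁ (X 1) =
    PowerSeries.C (YY y₁ ^ q') * PowerSeries.X ^ q := by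
  rw [toric, aeval_X]
  rfl

theorem cc_toric (p q p' q' : ℕ) (y₁ : ℂ) (hp : 1 ≤ p) (hq : 1 ≤ q) (F : P2) :
    PowerSeries.constantCoeff (toric p q p' q' y₁ F) = RatFunc.C (e0 F) := by
  have hX : ∀ (a : KZ) (n : ℕ), 1 ≤ n →
      PowerSeries.constantCoeff (PowerSeries.C a * PowerSeries.X ^ n : PowerSeries KZ) = 0 := by
    intro a n hn
    rw [map_mul, map_pow, PowerSeries.constantCoeff_X, zero_pow (by omega), mul_zero]
  induction F using MvPolynomial.induction_on with
  | C a =>
    have : toric p q p' q' y₁ (C a) = algebraMap ℂ (PowerSeries KZ) a :=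
      (toric p q p' q' y₁).commutes a
    rw [this, PowerSeries.algebraMap_apply, PowerSeries.constantCoeff_C, e0_C]
    rfl
  | add p q hp hq => rw [map_add, map_add, hp, hq, map_add, map_add]
  | mul_X F i hF =>
    have h0 : PowerSeries.constantCoeff (toric p q p' q' y₁ (X i)) = 0 := by
      fin_cases i
      · simp only [Fin.zero_eta]
        rw [toric_zero]
        exact hX _ _ hp
      · simp only [Fin.mk_one]
        rw [toric_one]
        exact hX _ _ hq
    rw [map_mul, map_mul, h0, mul_zero, map_mul, e0_X, mul_zero, map_zero]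

end LF6Aux

open CH6Aux LF6Aux

theorem stmt_LF6 : Stmt_LF6 := by
  intro M H e Φ hc p q p' q' hp hq hpq y₁ m a ham
  obtain ⟨hCA, -, -⟩ := ca_chart hc
  obtain ⟨χ, h, g, h1, h2⟩ := approx hCA q
  obtain ⟨φ, ω, h3, h4⟩ := hCA.2 (p * e + q) (by nlinarith)
  set τ := toric p q p' q' y₁ with hτ
  set Y : KZ := YY y₁ with hY
  have hK : q < p * (q + 1) := by nlinarith
  set L : PowerSeries KZ := PowerSeries.C (Y ^ (p' * e)) * (PowerSeries.C (Y ^ q') * τ h +
    PowerSeries.C (Y ^ (p' * (q + 1))) * PowerSeries.X ^ (p * (q + 1) - q) * τ g) with hL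
  set W : PowerSeries KZ := PowerSeries.C (Y ^ (p' * (p * e + q))) * τ ω with hW
  have hχ : τ (chartMap M H Φ χ) = PowerSeries.X ^ (p * e + q) * L := by
    have e1 : (PowerSeries.X ^ p : PowerSeries KZ) ^ (q + 1) =
        PowerSeries.X ^ q * PowerSeries.X ^ (p * (q + 1) - q) := by
      rw [← pow_mul, ← pow_add]
      congr 1
      omega
    rw [h1, map_mul, map_add, map_mul, map_mul, map_pow, map_pow, hτ, toric_zero, toric_one, ← hτ,
      ← hY, hL, mul_pow, mul_pow, e1]
    simp only [map_pow, pow_mul, pow_add, map_mul]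
    ring
  have hφ : τ (chartMap M H Φ φ) = PowerSeries.X ^ (p * (p * e + q)) * W := by
    rw [h3, map_mul, map_pow, hτ, toric_zero, ← hτ, ← hY, hW, mul_pow]
    simp only [map_pow, pow_mul]
    ring
  have hL0 : PowerSeries.constantCoeff L = RatFunc.C (e0 h) * Y ^ (p' * e + q') := by
    rw [hL]
    simp only [map_mul, map_add, PowerSeries.constantCoeff_C, map_pow,
      PowerSeries.constantCoeff_X]
    rw [hτ, cc_toric p q p' q' y₁ hp hq, zero_pow (by omega)]
    ring
  have hW0 : PowerSeries.constantCoeff W = RatFunc.C (e0 ω) * Y ^ (p' * (p * e + q)) := by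
    rw [hW]
    simp only [map_mul, PowerSeries.constantCoeff_C]
    rw [hτ, cc_toric p q p' q' y₁ hp hq]
    ring
  clear_value L W
  obtain ⟨k, rfl⟩ : ∃ k, m = a + k := ⟨m - a, by omega⟩
  refine ⟨χ ^ (p * a) * φ ^ k, e0 h ^ (p * a) * e0 ω ^ k, L ^ (p * a) * W ^ k,
    mul_ne_zero (pow_ne_zero _ h2) (pow_ne_zero _ h4), ?_, ?_⟩
  · rw [map_mul, map_pow, map_pow, map_mul, map_pow, map_pow, hχ, hφ, mul_pow, mul_pow]
    have e1 : p * (p * e + q) * (a + k) = (p * e + q) * (p * a) + p * (p * e + q) * k := by ring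
    rw [e1, pow_add (PowerSeries.X : PowerSeries KZ) ((p * e + q) * (p * a)),
      pow_mul (PowerSeries.X : PowerSeries KZ) (p * e + q) (p * a),
      pow_mul (PowerSeries.X : PowerSeries KZ) (p * (p * e + q)) k]
    ring
  · rw [map_mul, map_pow, map_pow, hL0, hW0, mul_pow, mul_pow, ← pow_mul, ← pow_mul, map_mul,
      map_pow, map_pow]
    have e1 : p' * (p * e + q) * (a + k) + a =
        (p' * e + q') * (p * a) + p' * (p * e + q) * k := by
      have : (p' * e + q') * (p * a) = p' * e * p * a + (p * q') * a := by ring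
      rw [this, hpq]
      ring
    rw [e1, pow_add]
    ring

end Pool.Agent.Mono.PC
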