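import Pool.Agent.Work.Monodromy.Interface6W

/-!
# Block NV6: a form which is not exact
-/

set_option autoImplicit false

namespace Pool.Agent.Mono.PC

open Polynomial

namespace NVAux

/-- the inclusion of the polynomials -/
noncomputable abbrev em : Polynomial ℂ →+* KZ := algebraMap (Polynomial ℂ) KZ

theorem em_inj : Function.Injective em := RatFunc.algebraMap_injective ℂ

theorem DZ_em (p : Polynomial ℂ) : DZ (em p) = em (derivative p) :=
  locDer_algebraMap _ _ _

theorem ZZ_sub (P : ℂ) : ZZ - RatFunc.C P = em (X - C P) := by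
  rw [map_sub]
  simp [ZZ]

theorem ZZ_sub_ne (P : ℂ) : ZZ - RatFunc.C P ≠ 0 := by
  rw [ZZ_sub]
  intro h
  exact X_sub_C_ne_zero P (em_inj (by rw [h, map_zero]))

noncomputable def WW (S : Finset ℂ) : Polynomial ℂ := ∏ P ∈ S, (X - C P)

noncomputable def AA (S : Finset ℂ) (a : ℂ → ℚ) : Polynomial ℂ :=
  ∑ P ∈ S, C ((a P : ℚ) : ℂ) * WW (S.erase P)

theorem WW_ne (S : Finset ℂ) : em (WW S) ≠ 0 := by
  intro h
  have h1 : WW S = 0 := em_inj (by rw [h, map_zero])
  unfold WW at h1
  rw [Finset.prod_eq_zero_iff] at h1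
  obtain ⟨P, _, hP⟩ := h1
  exact X_sub_C_ne_zero P hP

theorem prod_inv (S : Finset ℂ) : ∏ P ∈ S, (ZZ - RatFunc.C P)⁻¹ = (em (WW S))⁻¹ := by
  unfold WW
  rw [map_prod, Finset.prod_inv_distrib]
  congr 1
  exact Finset.prod_congr rfl fun P _ => ZZ_sub P

theorem tau_eq (S : Finset ℂ) (a : ℂ → ℚ) : tau S a * em (WW S) = em (AA S a) := by
  classical
  unfold tau AA
  rw [Finset.sum_mul, map_sum]
  refine Finset.sum_congr rfl fun P hP => ?_
  have h1 : WW S = (X - C P) * WW (S.erase P) := (Finset.mul_prod_erase S _ hP).symm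
  rw [h1, map_mul, map_mul, ZZ_sub]
  have h2 : em (X - C P) ≠ 0 := by
    rw [← ZZ_sub]
    exact ZZ_sub_ne P
  have h3 : em (C ((a P : ℚ) : ℂ)) = RatFunc.C ((a P : ℚ) : ℂ) := by simp
  rw [h3]
  field_simp

/-- solutions are polynomials -/
theorem sol_poly (S : Finset ℂ) (a : ℂ → ℚ) (ha : ∀ P ∈ S, ∀ n : ℕ, 1 ≤ n → a P ≠ n)
    (h : Polynomial ℂ) (g : KZ)
    (hg : DZ g + tau S a * g = em h * ∏ P ∈ S, (ZZ - RatFunc.C P)⁻¹) :
    ∃ u : Polynomial ℂ, WW S * derivative u + AA S a * u = h := by
  classical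
  set u := g.num with hu
  set w := g.denom with hw
  have hw0 : w ≠ 0 := g.denom_ne_zero
  have hcop : IsCoprime u w := g.isCoprime_num_denom
  have hw0' : em w ≠ 0 := fun h0 => hw0 (em_inj (by rw [h0, map_zero]))
  have hguw : g * em w = em u := by
    have h1 := g.num_div_denom
    rw [← h1]
    exact div_mul_cancel₀ _ hw0'
  have hD : DZ g * em w + g * em (derivative w) = em (derivative u) := by
    have h1 := congrArg DZ hguw
    rw [Derivation.leibniz, DZ_em, DZ_em, smul_eq_mul, smul_eq_mul] at h1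
    rw [← h1]
    ring
  have hW := WW_ne S
  have htau := tau_eq S a
  rw [prod_inv] at hg
  -- the equation for polynomials
  have key : WW S * (derivative u * w - u * derivative w) + AA S a * u * w = h * w ^ 2 := by
    apply em_inj
    simp only [map_add, map_mul, map_sub, map_pow]
    have h2 : (DZ g + tau S a * g) * em (WW S) = em h := by
      rw [hg, mul_assoc, inv_mul_cancel₀ hW, mul_one]
    have h3 : em (WW S) * (em (derivative u) * em w - em u * em (derivative w)) +
        em (AA S a) * em u * em w = ((DZ g + tau S a * g) * em (WW S)) * em w ^ 2 := by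
      rw [← hD, ← hguw, ← htau]
      ring
    rw [h3, h2]
  -- the denominator is constant
  have hdeg : w.natDegree = 0 := by
    by_contra hd
    obtain ⟨Q, hQ⟩ := IsAlgClosed.exists_root w (by
      intro h0
      apply hd
      exact natDegree_eq_of_degree_eq_some h0)
    obtain ⟨w1, hw1, hnd⟩ := exists_eq_pow_rootMultiplicity_mul_and_not_dvd w hw0 Q
    set k := rootMultiplicity Q w with hk
    have hk1 : 1 ≤ k := (rootMultiplicity_pos hw0).2 hQ
    have hw1Q : w1.eval Q ≠ 0 := by
      intro h0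
      exact hnd (dvd_iff_isRoot.2 h0)
    have huQ : u.eval Q ≠ 0 := by
      intro h0
      obtain ⟨x, y, hxy⟩ := hcop
      have h1 := congrArg (eval Q) hxy
      rw [eval_add, eval_mul, eval_mul, h0, hQ, mul_zero, mul_zero, add_zero, eval_one] at h1
      exact zero_ne_one h1
    obtain ⟨j, hj⟩ : ∃ j, k = j + 1 := ⟨k - 1, by omega⟩
    have hdw : derivative w = (X - C Q) ^ j * (C ((k : ℕ) : ℂ) * w1 + (X - C Q) * derivative w1) := by
      rw [hw1, hj, derivative_mul, derivative_X_sub_C_pow]
      simp only [Nat.add_sub_cancel]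
      push_cast
      simp only [map_add, map_natCast, map_one]
      ring
    -- divide the equation by `(X - Q)^j`
    have key2 : WW S * (derivative u * ((X - C Q) * w1) - u * (C ((k : ℕ) : ℂ) * w1 +
        (X - C Q) * derivative w1)) + AA S a * u * ((X - C Q) * w1) =
        h * ((X - C Q) ^ (j + 2) * w1 ^ 2) := by
      have hne : (X - C Q) ^ j ≠ 0 := pow_ne_zero _ (X_sub_C_ne_zero Q)
      apply mul_left_cancel₀ hne
      have h1 := key
      rw [hdw] at h1
      rw [hw1, hj] at h1
      have h2 : (X - C Q) ^ j * (WW S * (derivative u * ((X - C Q) * w1) - u *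
          (C (((j + 1 : ℕ) : ℕ) : ℂ) * w1 + (X - C Q) * derivative w1)) +
            AA S a * u * ((X - C Q) * w1)) = WW S * (derivative u * ((X - C Q) ^ (j + 1) * w1) -
          u * ((X - C Q) ^ j * (C (((j + 1 : ℕ) : ℕ) : ℂ) * w1 + (X - C Q) * derivative w1))) +
            AA S a * u * ((X - C Q) ^ (j + 1) * w1) := by ring
      rw [hj, h2, h1]
      ring
    have e1 := congrArg (eval Q) key2
    simp only [eval_add, eval_mul, eval_sub, eval_pow, eval_X, eval_C, sub_self, zero_mul,
      mul_zero, add_zero] at e1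
    rw [zero_pow (by omega), zero_mul, mul_zero, zero_sub, mul_neg, neg_eq_zero] at e1
    have hkc : ((k : ℕ) : ℂ) ≠ 0 := by
      rw [Nat.cast_ne_zero]
      omega
    have hWQ : (WW S).eval Q = 0 := by
      rcases mul_eq_zero.1 e1 with h1 | h1
      · exact h1
      · exact absurd h1 (mul_ne_zero huQ (mul_ne_zero hkc hw1Q))
    have hQS : Q ∈ S := by
      unfold WW at hWQ
      rw [eval_prod, Finset.prod_eq_zero_iff] at hWQ
      obtain ⟨P, hP, hP0⟩ := hWQ
      rw [eval_sub, eval_X, eval_C, sub_eq_zero] at hP0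
      rw [hP0]
      exact hP
    -- divide once more
    have hWS : WW S = (X - C Q) * WW (S.erase Q) := (Finset.mul_prod_erase S _ hQS).symm
    have key3 : WW (S.erase Q) * (derivative u * ((X - C Q) * w1) - u * (C ((k : ℕ) : ℂ) * w1 +
        (X - C Q) * derivative w1)) + AA S a * u * w1 = h * ((X - C Q) ^ (j + 1) * w1 ^ 2) := by
      apply mul_left_cancel₀ (X_sub_C_ne_zero Q)
      have h1 := key2
      rw [hWS] at h1
      linear_combination h1
    have e2 := congrArg (eval Q) key3
    simp only [eval_add, eval_mul, eval_sub, eval_pow, eval_X, eval_C, sub_self, zero_mul,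
      mul_zero, add_zero] at e2
    rw [zero_pow (by omega), zero_mul, mul_zero, zero_sub] at e2
    have hAQ : (AA S a).eval Q = ((a Q : ℚ) : ℂ) * (WW (S.erase Q)).eval Q := by
      unfold AA
      rw [eval_finsetSum, Finset.sum_eq_single Q]
      · rw [eval_mul, eval_C]
      · intro P hP hPQ
        have h1 : Q ∈ S.erase P := Finset.mem_erase.2 ⟨fun h0 => hPQ h0.symm, hQS⟩
        rw [eval_mul]
        unfold WW
        rw [eval_prod, Finset.prod_eq_zero h1 (by rw [eval_sub, eval_X, eval_C, sub_self]),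
          mul_zero]
      · intro h0
        exact absurd hQS h0
    have hW1 : (WW (S.erase Q)).eval Q ≠ 0 := by
      unfold WW
      rw [eval_prod, Finset.prod_ne_zero_iff]
      intro P hP
      rw [eval_sub, eval_X, eval_C, sub_ne_zero]
      exact (Finset.ne_of_mem_erase hP).symm
    rw [hAQ] at e2
    have e3 : (((a Q : ℚ) : ℂ) - ((k : ℕ) : ℂ)) * ((WW (S.erase Q)).eval Q * u.eval Q *
        w1.eval Q) = 0 := by linear_combination e2
    rcases mul_eq_zero.1 e3 with h1 | h1
    · apply ha Q hQS k hk1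
      have h2 : ((a Q : ℚ) : ℂ) = (((k : ℕ) : ℚ) : ℂ) := by
        rw [sub_eq_zero] at h1
        rw [h1]
        push_cast
        rfl
      exact_mod_cast h2
    · exact mul_ne_zero (mul_ne_zero hW1 huQ) hw1Q h1
  have hw1 : w = 1 := (g.monic_denom).natDegree_eq_zero.1 hdeg
  refine ⟨u, ?_⟩
  rw [hw1] at key
  simpa using key

theorem WW_monic (S : Finset ℂ) : (WW S).Monic := monic_prod_of_monic _ _ fun P _ => monic_X_sub_C P

theorem WW_deg (S : Finset ℂ) : (WW S).natDegree = S.card := by
  unfold WW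
  rw [natDegree_prod_of_monic _ _ fun P _ => monic_X_sub_C P]
  simp

theorem AA_deg (S : Finset ℂ) (a : ℂ → ℚ) : (AA S a).natDegree ≤ S.card - 1 := by
  classical
  unfold AA
  apply natDegree_sum_le_of_forall_le
  intro P hP
  refine (natDegree_C_mul_le _ _).trans ?_
  rw [WW_deg, Finset.card_erase_of_mem hP]

/-- the operator -/
noncomputable def TT (S : Finset ℂ) (a : ℂ → ℚ) : Polynomial ℂ →ₗ[ℂ] Polynomial ℂ :=
  (LinearMap.mulLeft ℂ (WW S)).comp derivative + LinearMap.mulLeft ℂ (AA S a)

theorem TT_apply (S : Finset ℂ) (a : ℂ → ℚ) (u : Polynomial ℂ) :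
    TT S a u = WW S * derivative u + AA S a * u := rfl

theorem TT_coeff (S : Finset ℂ) (a : ℂ → ℚ) (hS : 1 ≤ S.card) (u : Polynomial ℂ) (d : ℕ)
    (hd : u.natDegree = d) (hd1 : 1 ≤ d) : (TT S a u).coeff (S.card - 1 + d) =
      ((d : ℂ) + (AA S a).coeff (S.card - 1)) * u.coeff d := by
  rw [TT_apply, coeff_add]
  obtain ⟨e, rfl⟩ : ∃ e, d = e + 1 := ⟨d - 1, by omega⟩
  have h1 : S.card - 1 + (e + 1) = S.card + e := by omega
  have h2 : (WW S * derivative u).coeff (S.card + e) = ((e : ℂ) + 1) * u.coeff (e + 1) := by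
    have h3 : (derivative u).natDegree ≤ e := by
      have := natDegree_derivative_le u
      omega
    rw [coeff_mul_add_eq_of_natDegree_le (WW_deg S).le h3]
    have h4 : (WW S).coeff S.card = 1 := by
      have := WW_monic S
      rw [Monic, leadingCoeff, WW_deg] at this
      exact this
    rw [h4, one_mul, coeff_derivative]
    ring
  rw [coeff_mul_add_eq_of_natDegree_le (AA_deg S a) hd.le, h1, h2]
  push_cast
  ring

/-- the operator is not surjective -/
theorem TT_not_surj (S : Finset ℂ) (a : ℂ → ℚ) (hS : 2 ≤ S.card) :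
    ∃ h, ∀ u, TT S a u ≠ h := by
  by_contra hcon
  push Not at hcon
  obtain ⟨N, hN1, hN⟩ : ∃ N : ℕ, 1 ≤ N ∧ ∀ d : ℕ, N ≤ d →
      (d : ℂ) + (AA S a).coeff (S.card - 1) ≠ 0 := by
    by_cases h : ∃ d0 : ℕ, (d0 : ℂ) + (AA S a).coeff (S.card - 1) = 0
    · obtain ⟨d0, hd0⟩ := h
      refine ⟨d0 + 1, by omega, fun d hd h1 => ?_⟩
      have h2 : (d : ℂ) = d0 := by linear_combination h1 - hd0
      have h3 : d = d0 := by exact_mod_cast h2
      omega
    · push Not at h
      exact ⟨1, le_rfl, fun d _ => h d⟩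
  have hsub : degreeLT ℂ (N + (S.card - 1)) ≤ (degreeLT ℂ N).map (TT S a) := by
    intro h hh
    obtain ⟨u, hu⟩ := hcon h
    refine ⟨u, ?_, hu⟩
    rw [SetLike.mem_coe, mem_degreeLT]
    by_contra hlt
    push Not at hlt
    have hu0 : u ≠ 0 := by
      rintro rfl
      rw [degree_zero] at hlt
      simp at hlt
    have hNd : N ≤ u.natDegree := by
      rw [degree_eq_natDegree hu0] at hlt
      exact_mod_cast hlt
    have h1 := TT_coeff S a (by omega) u u.natDegree rfl (by omega)
    rw [hu] at h1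
    have h2 : h.coeff (S.card - 1 + u.natDegree) = 0 := by
      rw [mem_degreeLT] at hh
      apply coeff_eq_zero_of_degree_lt
      refine lt_of_lt_of_le hh ?_
      have : N + (S.card - 1) ≤ S.card - 1 + u.natDegree := by omega
      exact_mod_cast this
    rw [h2] at h1
    rcases mul_eq_zero.1 h1.symm with h3 | h3
    · exact hN _ hNd h3
    · exact hu0 (leadingCoeff_eq_zero.1 h3)
  have hfin : ∀ n : ℕ, Module.finrank ℂ (degreeLT ℂ n) = n := by
    intro n
    rw [(degreeLTEquiv ℂ n).finrank_eq]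
    simp
  have hfd : ∀ n : ℕ, Module.Finite ℂ (degreeLT ℂ n) := fun n =>
    Module.Finite.equiv (degreeLTEquiv ℂ n).symm
  have := hfd N
  have := hfd (N + (S.card - 1))
  have h1 : Module.finrank ℂ (degreeLT ℂ (N + (S.card - 1))) ≤
      Module.finrank ℂ ((degreeLT ℂ N).map (TT S a)) := Submodule.finrank_mono hsub
  have h2 : Module.finrank ℂ ((degreeLT ℂ N).map (TT S a)) ≤ Module.finrank ℂ (degreeLT ℂ N) :=
    Submodule.finrank_map_le _ _
  rw [hfin] at h1
  rw [hfin] at h2
  omega

/-- one point -/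
theorem TT_one (P : ℂ) (a : ℂ → ℚ) (n : ℕ) (ha : a P = -(n : ℚ)) :
    ∃ h, ∀ u, TT {P} a u ≠ h := by
  refine ⟨(X - C P) ^ n, fun u hu => ?_⟩
  have hW : WW {P} = X - C P := by simp [WW]
  have hA : AA {P} a = -C ((n : ℕ) : ℂ) := by
    unfold AA
    rw [Finset.sum_singleton]
    have h1 : WW (({P} : Finset ℂ).erase P) = 1 := by
      rw [Finset.erase_singleton]
      simp [WW]
    rw [h1, mul_one, ha]
    push_cast
    rw [map_neg]
  rw [TT_apply, hW, hA] at hu
  set v := u.comp (X + C P) with hv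
  have hdv : derivative v = (derivative u).comp (X + C P) := by
    rw [hv, derivative_comp]
    simp
  have h1 := congrArg (fun p : Polynomial ℂ => p.comp (X + C P)) hu
  simp only [add_comp, mul_comp, sub_comp, X_comp, C_comp, neg_comp, pow_comp,
    add_sub_cancel_right] at h1
  rw [← hdv, ← hv] at h1
  have h2 := congrArg (fun p : Polynomial ℂ => p.coeff n) h1
  simp only [coeff_add, neg_mul, coeff_neg, coeff_C_mul, coeff_X_pow, if_true] at h2
  rcases n with _ | k
  · simp at h2
  · rw [coeff_X_mul, coeff_derivative] at h2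
    push_cast at h2
    apply zero_ne_one (α := ℂ)
    linear_combination h2

end NVAux

open NVAux

theorem stmt_NV6 : Stmt_NV6 := by
  intro S a ha hS
  obtain ⟨h, hh⟩ : ∃ h, ∀ u, TT S a u ≠ h := by
    rcases hS with hS | ⟨P, n, rfl, hP⟩
    · exact TT_not_surj S a hS
    · exact TT_one P a n hP
  refine ⟨h, fun g hg => ?_⟩
  obtain ⟨u, hu⟩ := sol_poly S a ha h g hg
  exact hh u hu

end Pool.Agent.Mono.PC
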