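import Pool.Agent.Work.Monodromy.Interface6W
import Mathlib.RingTheory.PowerSeries.Binomial
import Mathlib.RingTheory.PowerSeries.Substitution

/-!
# Block RES6: witnesses from residues along `X = 0`

The witness is `φ ↦ ℓ (coefficient of X^(N j) in σ φ * J' * U * G^(-j))` with `U = (G / G₀)^(-ν/N)`;
`ℓ` is a linear form which vanishes on `g' - (ν/N) (G₀'/G₀) g`.
-/

set_option autoImplicit false
set_option linter.unusedSectionVars false

namespace Pool.Agent.Mono.PC

open MvPolynomial TS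

namespace RESAux

/-! ### roots of power series -/

section root

variable {K : Type} [Field K] [CharZero K]

theorem binom_pow (N : ℕ) (r : ℚ) :
    PowerSeries.binomialSeries K ((N : ℚ) * r) = PowerSeries.binomialSeries K r ^ N := by
  induction N with
  | zero => simp
  | succ n ih =>
    rw [pow_succ, ← ih, ← PowerSeries.binomialSeries_add]
    congr 1
    push_cast
    ring

theorem exists_root (H : PowerSeries K) (hH : PowerSeries.constantCoeff H = 1) (N : ℕ)
    (hN : 1 ≤ N) : ∃ W : PowerSeries K, W ^ N = H ∧ PowerSeries.constantCoeff W = 1 := by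
  have hN0 : (N : ℚ) ≠ 0 := by
    have : N ≠ 0 := by omega
    exact_mod_cast this
  have h0 : PowerSeries.constantCoeff (H - 1) = 0 := by simp [hH]
  have hs : PowerSeries.HasSubst (H - 1) := PowerSeries.HasSubst.of_constantCoeff_zero' h0
  set B : PowerSeries K := PowerSeries.binomialSeries K ((N : ℚ)⁻¹) with hB
  have hBN : B ^ N = 1 + PowerSeries.X := by
    rw [hB, ← binom_pow, mul_inv_cancel₀ hN0]
    have := PowerSeries.binomialSeries_nat (R := ℚ) (A := K) 1
    rw [Nat.cast_one, pow_one] at this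
    exact this
  refine ⟨PowerSeries.subst (H - 1) B, ?_, ?_⟩
  · rw [← PowerSeries.subst_pow hs, hBN, PowerSeries.subst_add hs, PowerSeries.subst_X hs]
    have h1 : PowerSeries.subst (H - 1) (1 : PowerSeries K) = 1 := by
      rw [← PowerSeries.coe_substAlgHom hs, map_one]
    rw [h1]
    ring
  · have h1 : PowerSeries.subst (H - 1) (1 : PowerSeries K) = 1 := by
      rw [← PowerSeries.coe_substAlgHom hs, map_one]
    have h2 : PowerSeries.subst (H - 1) (B - 1) = PowerSeries.subst (H - 1) B - 1 := by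
      rw [PowerSeries.subst_sub hs, h1]
    have h3 := PowerSeries.constantCoeff_subst_eq_zero (a := H - 1) h0 (B - 1) (by
      rw [map_sub, hB]
      simp)
    rw [h2] at h3
    have h4 : PowerSeries.constantCoeff (PowerSeries.subst (H - 1) B - 1) = 0 := h3
    rw [map_sub, map_one, sub_eq_zero] at h4
    exact h4

end root

/-! ### derivations -/

/-- `dZ` as a derivation -/
noncomputable def dZD : Derivation ℂ (PowerSeries KZ) (PowerSeries KZ) where
  toFun := dZ
  map_add' F G := by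
    ext n
    simp [dZ]
  map_smul' c F := by
    ext n
    simp [dZ]
  map_one_eq_zero' := by
    ext n
    change PowerSeries.coeff n (dZ 1) = _
    rw [dZ, PowerSeries.coeff_mk, PowerSeries.coeff_one]
    split_ifs <;> simp
  leibniz' F G := by
    ext n
    change PowerSeries.coeff n (dZ (F * G)) = PowerSeries.coeff n (F * dZ G + G * dZ F)
    rw [mul_comm G (dZ F), map_add, dZ, PowerSeries.coeff_mk, PowerSeries.coeff_mul,
      PowerSeries.coeff_mul, PowerSeries.coeff_mul, map_sum, ← Finset.sum_add_distrib]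
    refine Finset.sum_congr rfl fun x _ => ?_
    rw [dZ, dZ, PowerSeries.coeff_mk, PowerSeries.coeff_mk, Derivation.leibniz, smul_eq_mul,
      smul_eq_mul]
    ring

/-- `dX` as a derivation over `ℂ` -/
noncomputable def dXD : Derivation ℂ (PowerSeries KZ) (PowerSeries KZ) :=
  (PowerSeries.derivative KZ).restrictScalars ℂ

theorem dXD_apply (F : PowerSeries KZ) : dXD F = dX F := rfl

theorem dZD_apply (F : PowerSeries KZ) : dZD F = dZ F := rfl

theorem dZ_C (a : KZ) : dZD (PowerSeries.C a) = PowerSeries.C (DZ a) := by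
  ext n
  rw [dZD_apply, dZ, PowerSeries.coeff_mk, PowerSeries.coeff_C, PowerSeries.coeff_C]
  split_ifs <;> simp

theorem dX_C (a : KZ) : dXD (PowerSeries.C a) = 0 := by
  simp [dXD]

theorem dZ_X : dZD (PowerSeries.X : PowerSeries KZ) = 0 := by
  ext n
  rw [dZD_apply, dZ, PowerSeries.coeff_mk, PowerSeries.coeff_X]
  split_ifs <;> simp

theorem dX_X : dXD (PowerSeries.X : PowerSeries KZ) = 1 := by
  simp [dXD]

theorem DZ_C (a : ℂ) : DZ (RatFunc.C a) = 0 := by
  have h : (RatFunc.C a : KZ) = algebraMap ℂ KZ a := rfl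
  rw [h]
  exact Derivation.map_algebraMap _ _

theorem dXZ (F : PowerSeries KZ) : dXD (dZD F) = dZD (dXD F) := by
  ext n
  rw [dXD_apply, dZD_apply, dZD_apply, dXD_apply, dX, dX, dZ, dZ, PowerSeries.coeff_mk,
    PowerSeries.coeff_derivative, PowerSeries.coeff_derivative, PowerSeries.coeff_mk,
    Derivation.leibniz]
  have : DZ ((n : KZ) + 1) = 0 := by
    have h : ((n : KZ) + 1) = RatFunc.C ((n : ℂ) + 1) := by simp
    rw [h, DZ_C]
  rw [this, smul_zero, zero_add, smul_eq_mul, mul_comm]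

/-- the bracket -/
noncomputable def br (A B : PowerSeries KZ) : PowerSeries KZ := dXD A * dZD B - dZD A * dXD B

theorem chain (D : Derivation ℂ (PowerSeries KZ) (PowerSeries KZ)) (σ : P2 →ₐ[ℂ] PowerSeries KZ)
    (φ : P2) : D (σ φ) = σ (pderiv 0 φ) * D (σ (X 0)) + σ (pderiv 1 φ) * D (σ (X 1)) := by
  induction φ using MvPolynomial.induction_on with
  | C a =>
    have h : σ (C a) = algebraMap ℂ (PowerSeries KZ) a := σ.commutes a
    rw [h, Derivation.map_algebraMap, pderiv_C, pderiv_C, map_zero]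
    ring
  | add p q hp hq =>
    rw [map_add, map_add, hp, hq, map_add, map_add, map_add, map_add]
    ring
  | mul_X p i hp =>
    rw [map_mul, Derivation.leibniz, hp, Derivation.leibniz, Derivation.leibniz]
    simp only [smul_eq_mul, map_add, map_mul]
    fin_cases i
    · simp [pderiv_X]
      ring
    · simp [pderiv_X]
      ring

theorem br0 (σ : P2 →ₐ[ℂ] PowerSeries KZ) (φ : P2) :
    br (σ φ) (σ (X 1)) = jac σ * σ (pderiv 0 φ) := by
  rw [br, chain dXD σ φ, chain dZD σ φ, jac, ← dXD_apply, ← dXD_apply, ← dZD_apply, ← dZD_apply]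
  ring

theorem br1 (σ : P2 →ₐ[ℂ] PowerSeries KZ) (φ : P2) :
    br (σ φ) (σ (X 0)) = -(jac σ * σ (pderiv 1 φ)) := by
  rw [br, chain dXD σ φ, chain dZD σ φ, jac, ← dXD_apply, ← dXD_apply, ← dZD_apply, ← dZD_apply]
  ring

/-- for each `a` there is a coordinate `h` and a sign with `{σ φ, h} = ε Jac σ(∂_a φ)` -/
theorem exists_br (σ : P2 →ₐ[ℂ] PowerSeries KZ) (a : Fin 2) :
    ∃ (b : Fin 2) (ε : ℂ), ε * ε = 1 ∧ ∀ φ : P2, br (σ φ) (σ (X b)) =
      algebraMap ℂ (PowerSeries KZ) ε * (jac σ * σ (pderiv a φ)) := by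
  fin_cases a
  · refine ⟨1, 1, by ring, fun φ => ?_⟩
    rw [br0, map_one, one_mul]
    rfl
  · refine ⟨0, -1, by ring, fun φ => ?_⟩
    rw [br1, map_neg, map_one]
    simp

/-! ### the main identity -/

/-- `θ g = g' - (ν/N) (G₀'/G₀) g` -/
noncomputable def theta (c : ℂ) (l : KZ) : KZ →ₗ[ℂ] KZ :=
  (DZ : KZ →ₗ[ℂ] KZ) - LinearMap.mulLeft ℂ (RatFunc.C c * l)

theorem theta_apply (c : ℂ) (l g : KZ) : theta c l g = DZ g - RatFunc.C c * l * g := rfl

theorem coeff_dX (n : ℕ) (hn : 1 ≤ n) (B : PowerSeries KZ) :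
    PowerSeries.coeff (n - 1) (dXD B) = n * PowerSeries.coeff n B := by
  obtain ⟨n, rfl⟩ : ∃ k, n = k + 1 := ⟨n - 1, by omega⟩
  rw [dXD_apply, dX, PowerSeries.coeff_derivative, Nat.add_sub_cancel]
  push_cast
  ring

theorem coeff_dZ (n : ℕ) (B : PowerSeries KZ) :
    PowerSeries.coeff n (dZD B) = DZ (PowerSeries.coeff n B) := by
  rw [dZD_apply, dZ, PowerSeries.coeff_mk]

theorem br_XG (N : ℕ) (hN : 1 ≤ N) (G h : PowerSeries KZ) :
    br (PowerSeries.X ^ N * G) h = PowerSeries.X ^ (N - 1) * ((N : PowerSeries KZ) *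
      (G * dZD h) + PowerSeries.X * br G h) := by
  obtain ⟨N, rfl⟩ : ∃ k, N = k + 1 := ⟨N - 1, by omega⟩
  rw [br, br, Derivation.leibniz, Derivation.leibniz, Derivation.leibniz_pow,
    Derivation.leibniz_pow, dX_X, dZ_X]
  simp only [smul_eq_mul, nsmul_eq_mul, Nat.add_sub_cancel]
  push_cast
  ring

/-- the main identity -/
theorem mainL (N ν n : ℕ) (hN : 1 ≤ N) (hn : 1 ≤ n) (G Gi A T h : PowerSeries KZ) (l : KZ)
    (hG : G * Gi = 1)
    (hX : (N : PowerSeries KZ) * G * dXD T = -(n : PowerSeries KZ) * T * dXD G)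
    (hZ : (N : PowerSeries KZ) * G * dZD T = -(n : PowerSeries KZ) * T * dZD G +
      (ν : PowerSeries KZ) * PowerSeries.C l * G * T) :
    (n : KZ) * PowerSeries.coeff (n + N - 1) (br (PowerSeries.X ^ N * G) h * (A * (T * Gi))) =
      (N : KZ) * PowerSeries.coeff (n - 1) (br A h * T) +
        (N : KZ) * theta ((ν : ℂ) / N) l (PowerSeries.coeff (n - 1) (A * T * dXD h)) := by
  have hN0 : (N : KZ) ≠ 0 := by
    have : N ≠ 0 := by omega
    exact_mod_cast this
  have e1 := br_XG N hN G h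
  have e2 : br (PowerSeries.X ^ N * G) h * (A * (T * Gi)) = PowerSeries.X ^ (N - 1) *
      ((N : PowerSeries KZ) * (dZD h * A * T) + PowerSeries.X * (br G h * A * T * Gi)) := by
    rw [e1]
    linear_combination (PowerSeries.X ^ (N - 1) * (N : PowerSeries KZ) * dZD h * A * T) * hG
  have e3 : n + N - 1 = n + (N - 1) := by omega
  have hcast : ∀ (m k : ℕ) (B : PowerSeries KZ), PowerSeries.coeff k ((m : PowerSeries KZ) * B) =
      m * PowerSeries.coeff k B := by
    intro m k B
    rw [← map_natCast (PowerSeries.C (R := KZ)), PowerSeries.coeff_C_mul]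
  have e4 : PowerSeries.coeff (n + N - 1) (br (PowerSeries.X ^ N * G) h * (A * (T * Gi))) =
      N * PowerSeries.coeff n (dZD h * A * T) +
        PowerSeries.coeff (n - 1) (br G h * A * T * Gi) := by
    rw [e2, e3, PowerSeries.coeff_X_pow_mul, map_add, hcast]
    congr 1
    obtain ⟨n, rfl⟩ : ∃ k, n = k + 1 := ⟨n - 1, by omega⟩
    rw [mul_comm, PowerSeries.coeff_succ_mul_X, Nat.add_sub_cancel]
  have key : (N : PowerSeries KZ) * dXD (dZD h * A * T) +
      (n : PowerSeries KZ) * (br G h * A * T * Gi) = (N : PowerSeries KZ) * (br A h * T) +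
      ((N : PowerSeries KZ) * dZD (A * T * dXD h) -
        (ν : PowerSeries KZ) * (PowerSeries.C l * (A * T * dXD h))) := by
    have h1 : (n : PowerSeries KZ) * T * dXD G * Gi + (N : PowerSeries KZ) * dXD T = 0 := by
      linear_combination Gi * hX - ((N : PowerSeries KZ) * dXD T) * hG
    have h2 : (n : PowerSeries KZ) * T * dZD G * Gi + (N : PowerSeries KZ) * dZD T -
        (ν : PowerSeries KZ) * PowerSeries.C l * T = 0 := by
      linear_combination Gi * hZ - ((N : PowerSeries KZ) * dZD T -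
        (ν : PowerSeries KZ) * PowerSeries.C l * T) * hG
    have h3 := dXZ h
    rw [br, br, Derivation.leibniz, Derivation.leibniz, Derivation.leibniz, Derivation.leibniz]
    simp only [smul_eq_mul]
    linear_combination (dZD h * A) * h1 - (dXD h * A) * h2 + ((N : PowerSeries KZ) * A * T) * h3
  have k2 := congrArg (PowerSeries.coeff (n - 1)) key
  rw [map_add, map_add, map_sub, hcast, hcast, hcast, hcast, hcast, coeff_dX n hn, coeff_dZ,
    PowerSeries.coeff_C_mul] at k2
  rw [e4, theta_apply]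
  have h5 : RatFunc.C ((ν : ℂ) / N) = (ν : KZ) / N := by simp
  rw [h5]
  field_simp
  linear_combination k2

/-! ### powers -/

theorem step (D : Derivation ℂ (PowerSeries KZ) (PowerSeries KZ)) (N n : ℕ)
    (G Gi T μ : PowerSeries KZ) (hG : G * Gi = 1)
    (h : (N : PowerSeries KZ) * G * D T = -(n : PowerSeries KZ) * T * D G + μ * G * T) :
    (N : PowerSeries KZ) * G * D (T * Gi) =
      -((n + N : ℕ) : PowerSeries KZ) * (T * Gi) * D G + μ * G * (T * Gi) := by
  have h1 : D (G * Gi) = 0 := by rw [hG, Derivation.map_one_eq_zero]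
  rw [Derivation.leibniz] at h1 ⊢
  simp only [smul_eq_mul] at h1 ⊢
  push_cast
  linear_combination Gi * h + ((N : PowerSeries KZ) * T) * h1

theorem powU (D : Derivation ℂ (PowerSeries KZ) (PowerSeries KZ)) (N ν : ℕ) (hN : 1 ≤ N)
    (W Wi H : PowerSeries KZ) (hW : W ^ N = H) (hWi : W * Wi = 1) :
    (N : PowerSeries KZ) * H * D (Wi ^ ν) = -(ν : PowerSeries KZ) * Wi ^ ν * D H := by
  have h1 : D W * Wi + W * D Wi = 0 := by
    have h : D (W * Wi) = 0 := by rw [hWi, Derivation.map_one_eq_zero]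
    rw [Derivation.leibniz] at h
    simp only [smul_eq_mul] at h
    linear_combination h
  have h2 : W * D H = (N : PowerSeries KZ) * H * D W := by
    obtain ⟨N, rfl⟩ : ∃ k, N = k + 1 := ⟨N - 1, by omega⟩
    rw [← hW, Derivation.leibniz_pow]
    simp only [smul_eq_mul, nsmul_eq_mul, Nat.add_sub_cancel]
    ring
  have h3 : (N : PowerSeries KZ) * H * D Wi = -(Wi * D H) := by
    linear_combination (Wi * (N : PowerSeries KZ) * H) * h1 + (Wi * Wi) * h2 -
      (Wi * D H + (N : PowerSeries KZ) * H * D Wi) * hWi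
  rcases ν with _ | ν
  · simp
  · rw [Derivation.leibniz_pow]
    simp only [smul_eq_mul, nsmul_eq_mul, Nat.add_sub_cancel]
    linear_combination (((ν + 1 : ℕ) : PowerSeries KZ) * Wi ^ ν) * h3

/-! ### the dual of the polynomial ring -/

theorem pd_comm (i j : Fin 2) (p : P2) : pderiv i (pderiv j p) = pderiv j (pderiv i p) := by
  ext m
  rw [coeff_pderiv, coeff_pderiv, coeff_pderiv, coeff_pderiv]
  by_cases hij : i = j
  · subst hij
    rfl
  · rw [add_right_comm m (Finsupp.single i 1) (Finsupp.single j 1)]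
    simp only [Finsupp.add_apply, Finsupp.single_apply, if_neg hij, if_neg (Ne.symm hij), add_zero]
    ring

/-- the multiplication by a polynomial on the dual -/
noncomputable def dX' (p : P2) : Module.End ℂ (P2 →ₗ[ℂ] ℂ) where
  toFun ψ := ψ.comp (LinearMap.mulLeft ℂ p)
  map_add' _ _ := rfl
  map_smul' _ _ := rfl

/-- minus the transpose of the derivative -/
noncomputable def dD' (i : Fin 2) : Module.End ℂ (P2 →ₗ[ℂ] ℂ) where
  toFun ψ := -ψ.comp ((pderiv i : Derivation ℂ P2 P2) : P2 →ₗ[ℂ] P2)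
  map_add' a b := by
    refine LinearMap.ext fun φ => ?_
    change -(a (pderiv i φ) + b (pderiv i φ)) = -a (pderiv i φ) + -b (pderiv i φ)
    ring
  map_smul' c a := by
    refine LinearMap.ext fun φ => ?_
    change -(c * a (pderiv i φ)) = c * (-a (pderiv i φ))
    ring

theorem dX'_apply (p : P2) (ψ : P2 →ₗ[ℂ] ℂ) (φ : P2) : dX' p ψ φ = ψ (p * φ) := rfl

theorem dD'_apply (i : Fin 2) (ψ : P2 →ₗ[ℂ] ℂ) (φ : P2) : dD' i ψ φ = -ψ (pderiv i φ) := rfl

/-- the dual of `ℂ[x, y]` -/
noncomputable def dualW : BP.WMod ℂ (P2 →ₗ[ℂ] ℂ) (Fin 2) where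
  X' i := dX' (X i)
  D' i := dD' i
  XX i j := by
    refine LinearMap.ext fun ψ => LinearMap.ext fun φ => ?_
    rw [Module.End.mul_apply, Module.End.mul_apply, dX'_apply, dX'_apply, dX'_apply, dX'_apply]
    congr 1
    ring
  DD i j := by
    refine LinearMap.ext fun ψ => LinearMap.ext fun φ => ?_
    rw [Module.End.mul_apply, Module.End.mul_apply, dD'_apply, dD'_apply, dD'_apply, dD'_apply,
      pd_comm i j]
  DX i j := by
    refine LinearMap.ext fun ψ => LinearMap.ext fun φ => ?_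
    rw [LinearMap.add_apply, LinearMap.add_apply, Module.End.mul_apply, Module.End.mul_apply,
      dD'_apply, dX'_apply, dX'_apply, dD'_apply, Derivation.leibniz, map_add]
    simp only [smul_eq_mul]
    by_cases h : i = j
    · subst h
      rw [if_pos rfl, pderiv_X_self, mul_one]
      change -ψ (X i * pderiv i φ) = -(ψ (X i * pderiv i φ) + ψ φ) + ψ φ
      ring
    · rw [if_neg h, pderiv_X_of_ne (Ne.symm h), mul_zero, map_zero, LinearMap.zero_apply,
        LinearMap.zero_apply, add_zero, add_zero]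

theorem dualW_D (i : Fin 2) (ψ : P2 →ₗ[ℂ] ℂ) (φ : P2) : dualW.D' i ψ φ = -ψ (pderiv i φ) := rfl

theorem dualW_pX (p : P2) (ψ : P2 →ₗ[ℂ] ℂ) (φ : P2) : dualW.pX p ψ φ = ψ (p * φ) := by
  induction p using MvPolynomial.induction_on generalizing ψ φ with
  | C a =>
    rw [← MvPolynomial.algebraMap_eq, AlgHom.commutes, ← Algebra.smul_def, map_smul]
    rfl
  | add p q hp hq =>
    rw [map_add, LinearMap.add_apply, LinearMap.add_apply, hp, hq, add_mul, map_add]
  | mul_X p i hp =>
    rw [map_mul, Module.End.mul_apply, hp, BP.WMod.pX_X]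
    change ψ (X i * (p * φ)) = _
    congr 1
    ring

/-- witnesses from linear forms -/
theorem witClass_of (f : P2) (β : ℚ) (hβ : β < 0) (v : ℕ → (P2 →ₗ[ℂ] ℂ)) (j : ℕ) (hj : v j ≠ 0)
    (h0 : ∀ φ, v 0 (f * φ) = 0) (h0' : ∀ a φ, v 0 (pderiv a f * φ) = 0)
    (h1 : ∀ i φ, v (i + 1) (f * φ) = ((β : ℂ) - i) * v i φ)
    (h2 : ∀ i a φ, v (i + 1) (pderiv a f * φ) = -v i (pderiv a φ)) : WitClass f (-β) := by
  classical
  have hex : ∃ j, v j ≠ 0 := ⟨j, hj⟩
  set k := Nat.find hex with hk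
  have hk0 : v k ≠ 0 := Nat.find_spec hex
  have hkm : ∀ i, i < k → v i = 0 := by
    intro i hi
    by_contra hne
    exact Nat.find_min hex hi hne
  refine ⟨β - k, -(k : ℤ), ?_, ?_, P2 →ₗ[ℂ] ℂ, inferInstance, inferInstance, dualW,
    fun i => v (k + i), hk0, ?_, ?_, ?_, ?_⟩
  · have : (0 : ℚ) ≤ k := Nat.cast_nonneg k
    linarith
  · push_cast
    ring
  · refine LinearMap.ext fun φ => ?_
    rw [dualW_pX]
    change v (k + 0) (f * φ) = 0
    rw [Nat.add_zero]
    rcases Nat.eq_zero_or_pos k with h | h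
    · rw [h]
      exact h0 φ
    · obtain ⟨l, hl⟩ : ∃ l, k = l + 1 := ⟨k - 1, by omega⟩
      rw [hl, h1, hkm l (by omega)]
      simp
  · intro a
    refine LinearMap.ext fun φ => ?_
    rw [dualW_pX]
    change v (k + 0) (pderiv a f * φ) = 0
    rw [Nat.add_zero]
    rcases Nat.eq_zero_or_pos k with h | h
    · rw [h]
      exact h0' a φ
    · obtain ⟨l, hl⟩ : ∃ l, k = l + 1 := ⟨k - 1, by omega⟩
      rw [hl, h2, hkm l (by omega)]
      simp
  · intro i a
    refine LinearMap.ext fun φ => ?_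
    rw [dualW_pX, dualW_D]
    change -v (k + i) (pderiv a φ) = v (k + i + 1) (pderiv a f * φ)
    rw [h2]
  · intro i
    refine LinearMap.ext fun φ => ?_
    rw [dualW_pX]
    change v (k + i + 1) (f * φ) = _ * v (k + i) φ
    rw [h1]
    push_cast
    ring

theorem exists_form (θ : KZ →ₗ[ℂ] KZ) (e : KZ) (he : ∀ g, θ g ≠ e) :
    ∃ l : KZ →ₗ[ℂ] ℂ, (∀ g, l (θ g) = 0) ∧ l e ≠ 0 := by
  have hne : e ∉ LinearMap.range θ := by
    rintro ⟨g, hg⟩
    exact he g hg
  obtain ⟨l, hl, hle⟩ := Submodule.exists_le_ker_of_notMem hne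
  exact ⟨l, fun g => hle ⟨g, rfl⟩, hl⟩

theorem stepAll (D : Derivation ℂ (PowerSeries KZ) (PowerSeries KZ)) (N ν : ℕ)
    (G Gi U μ : PowerSeries KZ) (hG : G * Gi = 1)
    (h : (N : PowerSeries KZ) * G * D U = -(ν : PowerSeries KZ) * U * D G + μ * G * U) (j : ℕ) :
    (N : PowerSeries KZ) * G * D (U * Gi ^ j) =
      -((ν + N * j : ℕ) : PowerSeries KZ) * (U * Gi ^ j) * D G + μ * G * (U * Gi ^ j) := by
  induction j with
  | zero => simpa using h
  | succ j ih =>
    have := step D N (ν + N * j) G Gi (U * Gi ^ j) μ hG ih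
    rw [show ν + N * (j + 1) = ν + N * j + N by ring, pow_succ, ← mul_assoc]
    exact this

theorem scale (D : Derivation ℂ (PowerSeries KZ) (PowerSeries KZ)) (N ν : ℕ)
    (G H U c ci μ : PowerSeries KZ) (hH : H = G * ci) (hc : c * ci = 1)
    (hD : c * D ci = -μ)
    (h : (N : PowerSeries KZ) * H * D U = -(ν : PowerSeries KZ) * U * D H) :
    (N : PowerSeries KZ) * G * D U = -(ν : PowerSeries KZ) * U * D G +
      ((ν : PowerSeries KZ) * μ) * G * U := by
  have h1 : D H = G * D ci + ci * D G := by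
    rw [hH, Derivation.leibniz]
    simp only [smul_eq_mul]
  rw [h1, hH] at h
  linear_combination c * h - ((N : PowerSeries KZ) * G * D U + (ν : PowerSeries KZ) * U * D G) * hc
    - ((ν : PowerSeries KZ) * U * G) * hD

theorem up (D : Derivation ℂ (PowerSeries KZ) (PowerSeries KZ)) (N n : ℕ)
    (G U μ : PowerSeries KZ)
    (h : (N : PowerSeries KZ) * G * D U = -((n + N : ℕ) : PowerSeries KZ) * U * D G + μ * G * U) :
    (N : PowerSeries KZ) * G * D (U * G) =
      -(n : PowerSeries KZ) * (U * G) * D G + μ * G * (U * G) := by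
  rw [Derivation.leibniz]
  simp only [smul_eq_mul]
  push_cast at h ⊢
  linear_combination G * h

/-- existence of the power `U = (G/G₀)^(-ν/N)` -/
theorem exists_U (N ν : ℕ) (hN : 1 ≤ N) (G : PowerSeries KZ)
    (hG : PowerSeries.constantCoeff G ≠ 0) :
    ∃ U : PowerSeries KZ, PowerSeries.constantCoeff U = 1 ∧
      (N : PowerSeries KZ) * G * dXD U = -(ν : PowerSeries KZ) * U * dXD G ∧
      (N : PowerSeries KZ) * G * dZD U = -(ν : PowerSeries KZ) * U * dZD G +
        ((ν : PowerSeries KZ) * PowerSeries.C (DZ (PowerSeries.constantCoeff G) /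
          PowerSeries.constantCoeff G)) * G * U := by
  set g := PowerSeries.constantCoeff G with hg
  have hH0 : PowerSeries.constantCoeff (G * PowerSeries.C g⁻¹) = 1 := by
    rw [map_mul, ← hg, PowerSeries.constantCoeff_C, mul_inv_cancel₀ hG]
  obtain ⟨W, hW, hW0⟩ := exists_root (G * PowerSeries.C g⁻¹) hH0 N hN
  have hWi : W * W⁻¹ = 1 := PowerSeries.mul_inv_cancel W (by rw [hW0]; exact one_ne_zero)
  have hU0 : PowerSeries.constantCoeff (W⁻¹) = 1 := by
    have h := congrArg PowerSeries.constantCoeff hWi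
    rwa [map_mul, hW0, one_mul, map_one] at h
  have hc : (PowerSeries.C g : PowerSeries KZ) * PowerSeries.C g⁻¹ = 1 := by
    rw [← map_mul, mul_inv_cancel₀ hG, map_one]
  refine ⟨(W⁻¹) ^ ν, by rw [map_pow, hU0, one_pow], ?_, ?_⟩
  · have h := scale dXD N ν G (G * PowerSeries.C g⁻¹) ((W⁻¹) ^ ν) (PowerSeries.C g)
      (PowerSeries.C g⁻¹) 0 rfl hc (by rw [dX_C, mul_zero, neg_zero])
      (powU dXD N ν hN W W⁻¹ _ hW hWi)
    rw [h]
    ring
  · refine scale dZD N ν G (G * PowerSeries.C g⁻¹) ((W⁻¹) ^ ν) (PowerSeries.C g)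
      (PowerSeries.C g⁻¹) _ rfl hc ?_ (powU dZD N ν hN W W⁻¹ _ hW hWi)
    rw [dZ_C, ← map_mul, ← map_neg, Derivation.leibniz_inv]
    congr 1
    simp only [smul_eq_mul]
    field_simp

theorem core (f : P2) (σ : P2 →ₐ[ℂ] PowerSeries KZ)
    (hc : ∀ i, ∃ c : ℂ, PowerSeries.constantCoeff (σ (X i)) = RatFunc.C c)
    (N ν j : ℕ) (G J' φ' : PowerSeries KZ) (φ : P2) (hN : 1 ≤ N) (hν : 1 ≤ ν)
    (hf : σ f = PowerSeries.X ^ N * G) (hG : PowerSeries.constantCoeff G ≠ 0)
    (hjac : jac σ = PowerSeries.X ^ (ν - 1) * J') (hφ : σ φ = PowerSeries.X ^ (N * j) * φ')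
    (hne : ∀ g : KZ, DZ g - RatFunc.C ((ν : ℂ) / (N : ℂ)) *
        (DZ (PowerSeries.constantCoeff G) / PowerSeries.constantCoeff G) * g ≠
      PowerSeries.constantCoeff φ' * PowerSeries.constantCoeff J' *
        (PowerSeries.constantCoeff G ^ j)⁻¹) :
    WitClass f ((ν : ℚ) / (N : ℚ)) := by
  have hNC : (N : ℂ) ≠ 0 := by
    have : N ≠ 0 := by omega
    exact_mod_cast this
  obtain ⟨U, hU0, hUX, hUZ⟩ := exists_U N ν hN G hG
  set l : KZ := DZ (PowerSeries.constantCoeff G) / PowerSeries.constantCoeff G with hl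
  have hGi : G * G⁻¹ = 1 := PowerSeries.mul_inv_cancel G hG
  have hGi0 : PowerSeries.constantCoeff (G⁻¹) = (PowerSeries.constantCoeff G)⁻¹ :=
    PowerSeries.constantCoeff_inv G
  set T : ℕ → PowerSeries KZ := fun k => U * (G⁻¹) ^ k with hT
  have hTs : ∀ k, T k * G⁻¹ = T (k + 1) := fun k => by
    rw [hT]
    change U * (G⁻¹) ^ k * G⁻¹ = U * (G⁻¹) ^ (k + 1)
    ring
  have hTX : ∀ k, (N : PowerSeries KZ) * G * dXD (T k) =
      -((ν + N * k : ℕ) : PowerSeries KZ) * T k * dXD G := by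
    intro k
    have := stepAll dXD N ν G G⁻¹ U 0 hGi (by rw [hUX]; ring) k
    rw [zero_mul, zero_mul, add_zero] at this
    exact this
  have hTZ : ∀ k, (N : PowerSeries KZ) * G * dZD (T k) =
      -((ν + N * k : ℕ) : PowerSeries KZ) * T k * dZD G +
        (ν : PowerSeries KZ) * PowerSeries.C l * G * T k := fun k =>
    stepAll dZD N ν G G⁻¹ U _ hGi hUZ k
  obtain ⟨L, hL, hLe⟩ := exists_form (theta ((ν : ℂ) / N) l)
    (PowerSeries.constantCoeff φ' * PowerSeries.constantCoeff J' *
        (PowerSeries.constantCoeff G ^ j)⁻¹) hne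
  set β : ℚ := -((ν : ℚ) / N) with hβ
  have hβ0 : β < 0 := by
    have h1 : (0 : ℚ) < ν := by exact_mod_cast hν
    have h2 : (0 : ℚ) < N := by exact_mod_cast hN
    rw [hβ]
    have := div_pos h1 h2
    linarith
  have hβC : ((β : ℚ) : ℂ) * N = -ν := by
    rw [hβ]
    push_cast
    field_simp
  let c : ℕ → ℂ := fun i => ∏ k ∈ Finset.range i, ((β : ℂ) - k)
  have hcs : ∀ i, c (i + 1) = c i * ((β : ℂ) - i) := fun i => Finset.prod_range_succ _ _
  have hc0 : ∀ i, c i ≠ 0 := by
    intro i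
    refine Finset.prod_ne_zero_iff.mpr fun k _ => ?_
    intro h
    have h1 : ((β - k : ℚ) : ℂ) = 0 := by
      push_cast
      exact h
    have h2 : β - k = 0 := by exact_mod_cast h1
    have h3 : (0 : ℚ) ≤ k := Nat.cast_nonneg k
    linarith
  let r : ℕ → P2 → KZ := fun k ψ => PowerSeries.coeff (N * k) (σ ψ * (J' * T k))
  have hsm : ∀ (n : ℕ) (a : ℂ) (A : PowerSeries KZ),
      PowerSeries.coeff n (a • A) = a • PowerSeries.coeff n A := fun n a A =>
    LinearMap.map_smul_of_tower _ a A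
  let v : ℕ → (P2 →ₗ[ℂ] ℂ) := fun k =>
    { toFun := fun ψ => c k * L (r k ψ)
      map_add' := fun x y => by
        change c k * L (PowerSeries.coeff (N * k) (σ (x + y) * (J' * T k))) = _
        rw [map_add, add_mul, map_add, map_add, mul_add]
      map_smul' := fun a x => by
        change c k * L (PowerSeries.coeff (N * k) (σ (a • x) * (J' * T k))) = a * _
        rw [map_smul, smul_mul_assoc, hsm, map_smul, smul_eq_mul]
        ring }
  have hv : ∀ k ψ, v k ψ = c k * L (r k ψ) := fun k ψ => rfl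
  have hr1 : ∀ k ψ, r (k + 1) (f * ψ) = r k ψ := by
    intro k ψ
    change PowerSeries.coeff (N * (k + 1)) (σ (f * ψ) * (J' * T (k + 1))) = _
    have e : σ (f * ψ) * (J' * T (k + 1)) = PowerSeries.X ^ N * (σ ψ * (J' * T k)) := by
      rw [map_mul, hf, ← hTs]
      linear_combination (PowerSeries.X ^ N * σ ψ * J' * T k) * hGi
    rw [e, show N * (k + 1) = N * k + N by ring, PowerSeries.coeff_X_pow_mul]
  have hmain : ∀ (k : ℕ) (a : Fin 2) (ψ : P2),
      ((β : ℂ) - (k : ℂ)) * L (r (k + 1) (pderiv a f * ψ)) = -L (r k (pderiv a ψ)) := by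
    intro k a ψ
    obtain ⟨b, ε, hε, hbr⟩ := exists_br σ a
    have h1 := mainL N ν (ν + N * k) hN (by omega) G G⁻¹ (σ ψ) (T k) (σ (X b)) l hGi (hTX k)
      (hTZ k)
    have e1 : br (PowerSeries.X ^ N * G) (σ (X b)) * (σ ψ * (T k * G⁻¹)) =
        PowerSeries.X ^ (ν - 1) * (ε • (σ (pderiv a f * ψ) * (J' * T (k + 1)))) := by
      rw [← hf, hbr, hjac, hTs, Algebra.smul_def, map_mul]
      ring
    have e2 : br (σ ψ) (σ (X b)) * T k =
        PowerSeries.X ^ (ν - 1) * (ε • (σ (pderiv a ψ) * (J' * T k))) := by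
      rw [hbr, hjac, Algebra.smul_def]
      ring
    rw [e1, e2, show ν + N * k + N - 1 = N * (k + 1) + (ν - 1) by
        have : N * (k + 1) = N * k + N := by ring
        omega,
      show ν + N * k - 1 = N * k + (ν - 1) by omega, PowerSeries.coeff_X_pow_mul,
      PowerSeries.coeff_X_pow_mul, hsm, hsm, ← nsmul_eq_mul, ← nsmul_eq_mul, ← nsmul_eq_mul] at h1
    have h2 := congrArg L h1
    rw [map_add, map_nsmul, map_nsmul, map_nsmul, hL, map_smul, map_smul, smul_zero, add_zero] at h2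
    simp only [nsmul_eq_mul, smul_eq_mul] at h2
    change ((ν + N * k : ℕ) : ℂ) * (ε * L (r (k + 1) (pderiv a f * ψ))) =
      (N : ℂ) * (ε * L (r k (pderiv a ψ))) at h2
    push_cast at h2
    have h3 : (N : ℂ) * (((β : ℂ) - (k : ℂ)) * L (r (k + 1) (pderiv a f * ψ)) +
        L (r k (pderiv a ψ))) = 0 := by
      linear_combination (-ε) * h2 + (((ν : ℂ) + (N : ℂ) * (k : ℂ)) *
        L (r (k + 1) (pderiv a f * ψ)) - (N : ℂ) * L (r k (pderiv a ψ))) * hε +
        L (r (k + 1) (pderiv a f * ψ)) * hβC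
    have h4 := (mul_eq_zero.mp h3).resolve_left hNC
    linear_combination h4
  have hzero : ∀ a ψ, L (r 0 (pderiv a f * ψ)) = 0 := by
    intro a ψ
    obtain ⟨b, ε, hε, hbr⟩ := exists_br σ a
    have e1 : br (PowerSeries.X ^ N * G) (σ (X b)) * (σ ψ * U) =
        PowerSeries.X ^ (ν - 1) * (ε • (σ (pderiv a f * ψ) * (J' * T 0))) := by
      have hT0 : T 0 = U := by
        rw [hT]
        simp
      rw [← hf, hbr, hjac, hT0, Algebra.smul_def, map_mul]
      ring
    have e2 : PowerSeries.coeff (ν - 1) (br (PowerSeries.X ^ N * G) (σ (X b)) * (σ ψ * U)) =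
        ε • r 0 (pderiv a f * ψ) := by
      rw [e1]
      have := PowerSeries.coeff_X_pow_mul (ε • (σ (pderiv a f * ψ) * (J' * T 0))) (ν - 1) 0
      rw [zero_add] at this
      rw [this, hsm]
      rfl
    suffices h : L (PowerSeries.coeff (ν - 1)
        (br (PowerSeries.X ^ N * G) (σ (X b)) * (σ ψ * U))) = 0 by
      rw [e2, map_smul, smul_eq_mul] at h
      linear_combination ε * h - L (r 0 (pderiv a f * ψ)) * hε
    rcases le_or_gt ν N with hle | hlt
    · rw [br_XG N hN]
      have e3 : PowerSeries.X ^ (N - 1) * ((N : PowerSeries KZ) * (G * dZD (σ (X b))) +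
          PowerSeries.X * br G (σ (X b))) * (σ ψ * U) = PowerSeries.X ^ (N - 1) *
          (((N : PowerSeries KZ) * (G * dZD (σ (X b))) +
            PowerSeries.X * br G (σ (X b))) * (σ ψ * U)) := by ring
      rw [e3, PowerSeries.coeff_X_pow_mul']
      split_ifs with h
      · have h5 : ν - 1 - (N - 1) = 0 := by omega
        have h6 : PowerSeries.constantCoeff (dZD (σ (X b))) = 0 := by
          obtain ⟨z, hz⟩ := hc b
          rw [← PowerSeries.coeff_zero_eq_constantCoeff_apply, coeff_dZ,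
            PowerSeries.coeff_zero_eq_constantCoeff_apply, hz, DZ_C]
        have h7 : PowerSeries.constantCoeff (((N : PowerSeries KZ) * (G * dZD (σ (X b))) +
            PowerSeries.X * br G (σ (X b))) * (σ ψ * U)) = 0 := by
          rw [map_mul, map_add, map_mul, map_mul, map_mul, PowerSeries.constantCoeff_X, zero_mul,
            add_zero, h6, mul_zero, mul_zero, zero_mul]
        rw [h5, PowerSeries.coeff_zero_eq_constantCoeff_apply, h7, map_zero]
      · rw [map_zero]
    · obtain ⟨n, hn⟩ : ∃ n, ν = n + N := ⟨ν - N, by omega⟩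
      have hn1 : 1 ≤ n := by omega
      have hX' := up dXD N n G U 0 (by rw [← hn, hUX]; ring)
      rw [zero_mul, zero_mul, add_zero] at hX'
      have hZ' := up dZD N n G U ((ν : PowerSeries KZ) * PowerSeries.C l) (by rw [← hn, hUZ])
      have h1 := mainL N ν n hN hn1 G G⁻¹ (σ ψ) (U * G) (σ (X b)) l hGi hX' hZ'
      have e4 : U * G * G⁻¹ = U := by rw [mul_assoc, hGi, mul_one]
      have e5 : br (σ ψ) (σ (X b)) * (U * G) = PowerSeries.X ^ (ν - 1) *
          (ε • (σ (pderiv a ψ) * (J' * (U * G)))) := by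
        rw [hbr, hjac, Algebra.smul_def]
        ring
      rw [e4, e5, PowerSeries.coeff_X_pow_mul', if_neg (by omega), mul_zero, zero_add,
        ← hn, ← nsmul_eq_mul, ← nsmul_eq_mul] at h1
      have h2 := congrArg L h1
      rw [map_nsmul, map_nsmul, hL, smul_zero, nsmul_eq_mul] at h2
      refine (mul_eq_zero.mp h2).resolve_left ?_
      have : n ≠ 0 := by omega
      exact_mod_cast this
  have hvj : v j ≠ 0 := by
    intro h
    have h1 : v j φ = 0 := by rw [h]; rfl
    rw [hv] at h1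
    refine (mul_ne_zero (hc0 j) ?_) h1
    have e : r j φ = PowerSeries.constantCoeff φ' * PowerSeries.constantCoeff J' *
        (PowerSeries.constantCoeff G ^ j)⁻¹ := by
      change PowerSeries.coeff (N * j) (σ φ * (J' * T j)) = _
      have := PowerSeries.coeff_X_pow_mul (φ' * (J' * T j)) (N * j) 0
      rw [zero_add] at this
      rw [hφ, mul_assoc, this, PowerSeries.coeff_zero_eq_constantCoeff_apply, map_mul, map_mul]
      have hT0 : PowerSeries.constantCoeff (T j) = (PowerSeries.constantCoeff G ^ j)⁻¹ := by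
        change PowerSeries.constantCoeff (U * (G⁻¹) ^ j) = _
        rw [map_mul, map_pow, hU0, hGi0, one_mul, inv_pow]
      rw [hT0]
      ring
    rw [e]
    exact hLe
  have hres := witClass_of f β hβ0 v j hvj ?_ ?_ ?_ ?_
  · rw [hβ, neg_neg] at hres
    exact hres
  · intro ψ
    rw [hv]
    have : r 0 (f * ψ) = 0 := by
      change PowerSeries.coeff (N * 0) (σ (f * ψ) * (J' * T 0)) = 0
      have e : σ (f * ψ) * (J' * T 0) = PowerSeries.X ^ N * (G * σ ψ * (J' * T 0)) := by
        rw [map_mul, hf]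
        ring
      rw [e, PowerSeries.coeff_X_pow_mul', if_neg (by omega)]
    rw [this, map_zero, mul_zero]
  · intro a ψ
    rw [hv, hzero, mul_zero]
  · intro i ψ
    rw [hv, hv, hr1, hcs]
    ring
  · intro i a ψ
    rw [hv, hv, hcs, mul_assoc, hmain]
    ring

end RESAux

theorem stmt_RES6 : Stmt_RES6 := RESAux.core

end Pool.Agent.Mono.PC
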