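import Pool.Agent.Work.Monodromy.Interface6V

/-!
# Blocks SB, SC3: the points of a cone
-/

set_option autoImplicit false

namespace Pool.Agent.Mono.PC

open MvPolynomial TS RO

namespace SBAux

/-- coordinates along the two rays -/
theorem coords {p q p' q' k l D i j : ℕ} (hD : q * p' + D = p * q') (hi : q' * k = p' * l + i)
    (hj : p * l = q * k + j) : D * k = p * i + p' * j ∧ D * l = q * i + q' * j := by
  constructor
  · have h1 : (q * p' + D) * k = p * (p' * l + i) := by
      rw [hD, mul_assoc, hi]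
    have h2 : p' * (p * l) = p' * (q * k + j) := by rw [hj]
    zify at h1 h2 ⊢
    linear_combination h1 + h2
  · have h1 : (q * p' + D) * l = q' * (q * k + j) := by
      rw [hD, ← hj]
      ring
    have h2 : q * (q' * k) = q * (p' * l + i) := by rw [hi]
    zify at h1 h2 ⊢
    linear_combination h1 + h2

theorem weight {p q A B p' q' m k l D i j : ℕ} (hD : q * p' + D = p * q')
    (hi : q' * k = p' * l + i) (hj : p * l = q * k + j) (hm : A * k + B * l = m) :
    D * m = (p * A + q * B) * i + (p' * A + q' * B) * j := by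
  obtain ⟨h1, h2⟩ := coords hD hi hj
  rw [← hm]
  calc D * (A * k + B * l) = A * (D * k) + B * (D * l) := by ring
    _ = _ := by
      rw [h1, h2]
      ring

end SBAux

open SBAux in
theorem stmt_SB : Stmt_SB := by
  intro p q A B p' q' m k l h h1 h2 hk hl hm
  obtain ⟨D, hD⟩ := Nat.exists_eq_add_of_lt h
  obtain ⟨j, hj⟩ := Nat.exists_eq_add_of_lt hk
  obtain ⟨i, hi⟩ := Nat.exists_eq_add_of_lt hl
  have hD' : q * p' + (D + 1) = p * q' := by
    rw [mul_comm p q', hD, add_assoc]
  have hj' : p * l = q * k + (j + 1) := by rw [hj, add_assoc]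
  have hi' : q' * k = p' * l + (i + 1) := by rw [hi, add_assoc]
  have hw := weight hD' hi' hj' hm
  obtain ⟨c1, c2⟩ := coords hD' hi' hj'
  have hi2 : i + 1 ≤ (D + 1) * m := by
    rw [hw]
    calc i + 1 = 1 * (i + 1) := (one_mul _).symm
      _ ≤ (p * A + q * B) * (i + 1) := Nat.mul_le_mul_right _ h1
      _ ≤ _ := Nat.le_add_right _ _
  have hj2 : j + 1 ≤ (D + 1) * m := by
    rw [hw]
    calc j + 1 = 1 * (j + 1) := (one_mul _).symm
      _ ≤ (p' * A + q' * B) * (j + 1) := Nat.mul_le_mul_right _ h2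
      _ ≤ _ := Nat.le_add_left _ _
  constructor
  · apply Nat.le_of_mul_le_mul_left _ (Nat.succ_pos D)
    change (D + 1) * k ≤ (D + 1) * ((p + p') * m)
    rw [c1]
    calc p * (i + 1) + p' * (j + 1) ≤ p * ((D + 1) * m) + p' * ((D + 1) * m) :=
          Nat.add_le_add (Nat.mul_le_mul_left _ hi2) (Nat.mul_le_mul_left _ hj2)
      _ = _ := by ring
  · apply Nat.le_of_mul_le_mul_left _ (Nat.succ_pos D)
    change (D + 1) * l ≤ (D + 1) * ((q + q') * m)
    rw [c2]
    calc q * (i + 1) + q' * (j + 1) ≤ q * ((D + 1) * m) + q' * ((D + 1) * m) :=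
          Nat.add_le_add (Nat.mul_le_mul_left _ hi2) (Nat.mul_le_mul_left _ hj2)
      _ = _ := by ring

theorem stmt_SC3 : Stmt_SC3 := by
  intro p q A B p' q' m
  unfold coneS
  rw [Finset.sum_comm, add_comm q' q, add_comm p' p]
  refine Finset.sum_congr rfl fun l _ => Finset.sum_congr rfl fun k _ => ?_
  have h : (q * k < p * l ∧ p' * l < q' * k ∧ A * k + B * l = m) ↔
      (p' * l < q' * k ∧ q * k < p * l ∧ B * l + A * k = m) := by
    rw [add_comm (B * l)]
    tauto
  rw [if_congr h rfl rfl, one_mul, one_mul, add_comm k l]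

end Pool.Agent.Mono.PC
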