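import Pool.Agent.Work.Monodromy6.SC1
import Pool.Agent.Work.Monodromy4.TMa

/-!
# Blocks SC2, SF0: cones up to an axis
-/

set_option autoImplicit false

namespace Pool.Agent.Mono.PC

open MvPolynomial TS RO

namespace SCAux

theorem xq_ne0 : (xq : K) ≠ 0 := inv_ne_zero RatFunc.X_ne_zero

/-- a sequence with `κ (m + N) = x^ν κ m` -/
theorem eseq_per {Λ : Set ℚ} {κ : ℕ → K} (N ν : ℕ) (hN : 1 ≤ N)
    (hΛ : ((ν : ℚ) / (N : ℚ)) ∈ Λ) (h : ∀ m, κ (m + N) = xq ^ ν * κ m) : ESeq Λ κ := by
  refine eseq_rec (κ' := fun m => if N ≤ m then 0 else κ m) N ν hN hΛ ?_ ?_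
  · exact Q1Aux.fin N fun m hm => if_pos hm
  · intro m
    by_cases hm : N ≤ m
    · rw [if_pos hm, if_pos hm, zero_add, ← h, Nat.sub_add_cancel hm]
    · rw [if_neg hm, if_neg hm, add_zero]

theorem ratio_ne_one {ν A : ℕ} (h : ν ≠ A) : (xq : K) ^ ν * (xq ^ A)⁻¹ ≠ 1 := by
  intro h1
  have h2 : (xq : K) ^ ν = xq ^ A := by
    have := congrArg (fun z => z * xq ^ A) h1
    simpa [mul_assoc, inv_mul_cancel₀ (pow_ne_zero A xq_ne0)] using this
  rcases lt_or_gt_of_ne h with hlt | hlt
  · obtain ⟨d, hd⟩ := Nat.exists_eq_add_of_lt hlt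
    apply TMAux.xq_pow_ne_one (m := d + 1) (Nat.succ_pos d)
    apply mul_left_cancel₀ (pow_ne_zero ν xq_ne0)
    rw [← pow_add, mul_one, h2, hd, add_assoc]
  · obtain ⟨d, hd⟩ := Nat.exists_eq_add_of_lt hlt
    apply TMAux.xq_pow_ne_one (m := d + 1) (Nat.succ_pos d)
    apply mul_left_cancel₀ (pow_ne_zero A xq_ne0)
    rw [← pow_add, mul_one, ← h2, hd, add_assoc]

end SCAux

open SCAux

theorem stmt_SF0 : Stmt_SF0 := by
  intro ν p q A hp hA
  refine eseq_per (p * A) (p * ν + q) (Nat.mul_pos hp hA) ?_ ?_
  · unfold rate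
    rw [Set.mem_singleton_iff, mul_zero, add_zero]
  · intro m
    by_cases hd : A ∣ m
    · obtain ⟨k, rfl⟩ := hd
      have e1 : A * k + p * A = A * (k + p) := by ring
      rw [e1, if_pos (Dvd.intro _ rfl), if_pos (Dvd.intro _ rfl), Nat.mul_div_cancel_left _ hA,
        Nat.mul_div_cancel_left _ hA, ← pow_add]
      congr 1
      have e2 : q * (k + p) / p = q * k / p + q := by
        rw [mul_add, Nat.add_mul_div_right _ _ hp]
      rw [e2]
      ring
    · rw [if_neg hd, if_neg, mul_zero]
      intro h
      exact hd ((Nat.dvd_add_left (Dvd.intro_left _ rfl)).1 h)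

theorem stmt_SC2 : Stmt_SC2 := by
  intro ν p q A hp hN hν
  set N := p * A + q with hNd
  set y : K := xq ^ ν * (xq ^ A)⁻¹ with hy
  have hy1 : y ≠ 1 := ratio_ne_one hν
  have hy1' : y - 1 ≠ 0 := sub_ne_zero.2 hy1
  have hyk : ∀ k, y ^ k * xq ^ (A * k) = xq ^ (ν * k) := by
    intro k
    rw [hy, mul_pow, inv_pow, ← pow_mul, ← pow_mul, mul_assoc,
      inv_mul_cancel₀ (pow_ne_zero _ xq_ne0), mul_one]
  -- the number of terms
  set E : ℕ → ℕ := fun m => (p * m + N - 1) / N with hE
  have hEk : ∀ m k, k < E m ↔ N * k < p * m := by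
    intro m k
    rw [hE, ← Nat.succ_le_iff, Nat.le_div_iff_mul_le hN]
    have e1 : k.succ * N = N * k + N := by
      rw [Nat.succ_mul, mul_comm]
    rw [e1]
    omega
  have hEN : ∀ m, E (m + N) = E m + p := by
    intro m
    rw [hE]
    change (p * (m + N) + N - 1) / N = (p * m + N - 1) / N + p
    have e1 : p * (m + N) + N - 1 = (p * m + N - 1) + p * N := by
      rw [mul_add]
      omega
    rw [e1, Nat.add_mul_div_right _ _ hN]
  refine ⟨-(y / (y - 1)), fun m => xq ^ m * y ^ (E m) * (y - 1)⁻¹, ?_, ?_⟩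
  · refine eseq_per N (p * ν + q) hN ?_ ?_
    · unfold rate
      rw [Set.mem_singleton_iff, mul_one]
    · intro m
      rw [hEN, pow_add, pow_add]
      have e1 : xq ^ N * y ^ p = xq ^ (p * ν + q) := by
        rw [hNd, pow_add, pow_add, mul_comm p ν, ← hyk p, mul_comm p A]
        ring
      rw [← e1]
      ring
  · intro m hm
    -- the inner sum
    have hin : ∀ k ∈ Finset.range ((p + 0) * m + 1),
        (∑ l ∈ Finset.range ((q + 1) * m + 1),
          if q * k < p * l ∧ 0 * l < 1 * k ∧ A * k + 1 * l = m then xq ^ (ν * k + l) else 0) =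
        if 1 ≤ k ∧ k < E m then xq ^ m * y ^ k else 0 := by
      intro k _
      by_cases hk : 1 ≤ k ∧ k < E m
      · obtain ⟨hk1, hk2⟩ := hk
        have hk3 := (hEk m k).1 hk2
        have hAk : A * k ≤ m := by
          have h1 : p * (A * k) ≤ p * m := by
            have : p * (A * k) ≤ N * k := by
              rw [hNd, ← mul_assoc]
              exact Nat.mul_le_mul_right _ (Nat.le_add_right _ _)
            omega
          exact Nat.le_of_mul_le_mul_left h1 hp
        obtain ⟨l, hl⟩ := Nat.exists_eq_add_of_le hAk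
        rw [if_pos ⟨hk1, hk2⟩, Finset.sum_eq_single l]
        · rw [if_pos]
          · rw [pow_add, ← hyk k, hl, pow_add]
            ring
          · refine ⟨?_, by omega, by omega⟩
            have e1 : N * k = p * (A * k) + q * k := by
              rw [hNd]
              ring
            have e2 : p * m = p * (A * k) + p * l := by
              rw [← mul_add, ← hl]
            omega
        · intro l' _ hl'
          rw [if_neg]
          rintro ⟨_, _, h⟩
          omega
        · intro hl'
          exfalso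
          apply hl'
          rw [Finset.mem_range]
          have : m ≤ (q + 1) * m := Nat.le_mul_of_pos_left _ (Nat.succ_pos q)
          omega
      · rw [if_neg hk]
        apply Finset.sum_eq_zero
        intro l _
        rw [if_neg]
        rintro ⟨h1, h2, h3⟩
        apply hk
        refine ⟨by omega, (hEk m k).2 ?_⟩
        have e1 : N * k = p * (A * k) + q * k := by
          rw [hNd]
          ring
        have e2 : p * m = p * (A * k) + p * l := by
          rw [← mul_add]
          congr 1
          omega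
        omega
    unfold coneS
    rw [Finset.sum_congr rfl hin, ← Finset.sum_filter]
    have hfil : (Finset.range ((p + 0) * m + 1)).filter (fun k => 1 ≤ k ∧ k < E m) =
        (Finset.range (E m)).erase 0 := by
      ext k
      rw [Finset.mem_filter, Finset.mem_erase, Finset.mem_range, Finset.mem_range]
      constructor
      · rintro ⟨_, h1, h2⟩
        exact ⟨by omega, h2⟩
      · rintro ⟨h1, h2⟩
        refine ⟨?_, by omega, h2⟩
        have h3 := (hEk m k).1 h2
        have h4 : k ≤ N * k := Nat.le_mul_of_pos_left _ hN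
        rw [add_zero]
        omega
    have hE1 : 0 < E m := by
      rw [hEk m 0, mul_zero]
      exact Nat.mul_pos hp hm
    have hsum : ∑ k ∈ (Finset.range (E m)).erase 0, xq ^ m * y ^ k =
        xq ^ m * ((y ^ (E m) - 1) / (y - 1)) - xq ^ m := by
      have h1 := Finset.add_sum_erase (Finset.range (E m)) (fun k => xq ^ m * y ^ k)
        (Finset.mem_range.2 hE1)
      have h2 : ∑ k ∈ Finset.range (E m), xq ^ m * y ^ k =
          xq ^ m * ((y ^ (E m) - 1) / (y - 1)) := by
        rw [← Finset.mul_sum, geom_sum_eq hy1]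
      rw [h2] at h1
      rw [← h1, pow_zero]
      ring
    rw [hfil, hsum]
    field_simp
    ring

end Pool.Agent.Mono.PC
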