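import Pool.Agent.Work.Monodromy6.TJ
import Pool.Agent.Work.Monodromy.Interface6W

/-! Phase 6, block TREE. -/

set_option autoImplicit false
set_option linter.unusedSimpArgs false
set_option linter.unusedVariables false

namespace Pool.Agent.Mono.PC

namespace TT

open MvPolynomial

variable {Λ : Set ℚ} {n : ℕ} {g : ℕ → P2}

/-! ## Reduction to generic position -/

lemma good0_shift (ψ : Polynomial ℂ) (h0 : ψ.coeff 0 = 0)
    (h : Good0 Λ (FF n (fun j => shiftE ψ (g j)))) : Good0 Λ (FF n g) := by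
  rw [FF_map] at h
  exact Good0.coord _ ψ h0 h

lemma good0_swp (h : Good0 Λ (FF n (fun j => swpE (g j)))) : Good0 Λ (FF n g) := by
  rw [FF_map] at h
  exact Good0.swap _ h

/-- two tangents in generic position: reduction to the normal form -/
lemma level_two_gen (hCERT : Stmt_CERT) (hP : Pre Λ n g) (hF : Gen (FF n g)) (hR : Gen (RR n g))
    (ht : (inF 1 1 (RR n g)).roots.toFinset.card = 2) : Good0 Λ (FF n g) := by
  classical
  have hC := hP.ctx hCERT
  have heR0 := inF_ne_zero le_rfl 1 hR.ne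
  have hR2 : 2 ≤ ordN 1 1 (RR n g) := by
    have h1 := Multiset.toFinset_card_le (inF 1 1 (RR n g)).roots
    have h2 := Polynomial.card_roots' (inF 1 1 (RR n g))
    rw [hR.natDegree] at h2
    omega
  have hnode : ordN 1 1 (FF n g) = 2 → (1 : ℚ) ∈ Λ := by
    intro h2
    refine hP.exp 1 (goodExp_pcExp ?_) one_pos
    exact node_exp hF hR (RR_dvd_FF n g) h2 (by omega) ht.ge
  obtain ⟨l1, l2, hl12, hl⟩ := Finset.card_eq_two.1 ht
  have hroots : ∀ x, (inF 1 1 (RR n g)).eval x = 0 ↔ x = l1 ∨ x = l2 := by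
    intro x
    have : x ∈ (inF 1 1 (RR n g)).roots.toFinset ↔ x = l1 ∨ x = l2 := by rw [hl]; simp
    rw [← this, Multiset.mem_toFinset, Polynomial.mem_roots heR0]; rfl
  -- first shift
  set R1 := shift (lin l1) (RR n g) with hR1d
  have hR10 : R1 ≠ 0 := shift_ne_zero _ hR.ne
  have ho1 : ordN 1 1 R1 = ordN 1 1 (RR n g) := ordN11_lin l1 hR.ne
  have hi1 : inF 1 1 R1 = (inF 1 1 (RR n g)).comp (Polynomial.X + Polynomial.C l1) :=
    inF11_lin l1 hR.ne
  have hd1 : (inF 1 1 R1).natDegree = ordN 1 1 R1 := by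
    rw [hi1, Polynomial.natDegree_comp, Polynomial.natDegree_X_add_C, mul_one, hR.natDegree, ho1]
  have hr1 : ∀ x, (inF 1 1 R1).eval x = 0 ↔ x = 0 ∨ x = l2 - l1 := by
    intro x
    rw [hi1, Polynomial.eval_comp, hroots]
    simp only [Polynomial.eval_add, Polynomial.eval_X, Polynomial.eval_C]
    constructor
    · rintro (h | h)
      · left; linear_combination h
      · right; linear_combination h
    · rintro (h | h)
      · left; rw [h]; ring
      · right; rw [h]; ring
  have hδ : l2 - l1 ≠ 0 := sub_ne_zero.2 hl12.symm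
  -- exchange
  set R2 := swp R1 with hR2d
  have hR20 : R2 ≠ 0 := swp_ne_zero hR10
  have ho2 : ordN 1 1 R2 = ordN 1 1 R1 := ordN11_swp hR10
  have hi2 : inF 1 1 R2 = (inF 1 1 R1).reflect (ordN 1 1 R1) := inF11_swp hR10
  have he20 := inF_ne_zero le_rfl 1 hR20
  have hc20 : (inF 1 1 R2).coeff 0 ≠ 0 := by
    rw [hi2, Polynomial.coeff_reflect, Polynomial.revAt_le (Nat.zero_le _), Nat.sub_zero, ← hd1,
      Polynomial.coeff_natDegree]
    exact Polynomial.leadingCoeff_ne_zero.2 (inF_ne_zero le_rfl 1 hR10)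
  have hr2 : ∀ x, (inF 1 1 R2).eval x = 0 → x = (l2 - l1)⁻¹ := by
    intro x hx
    have hx0 : x ≠ 0 := by
      rintro rfl
      rw [← Polynomial.coeff_zero_eq_eval_zero] at hx
      exact hc20 hx
    rw [hi2, eval_reflect (inF11_natDegree_le R1) hx0, hr1] at hx
    rcases hx with h | h
    · exact absurd h (inv_ne_zero hx0)
    · rw [← h, inv_inv]
  have hr2' : (inF 1 1 R2).eval (l2 - l1)⁻¹ = 0 := by
    rw [hi2, eval_reflect (inF11_natDegree_le R1) (inv_ne_zero hδ), inv_inv, hr1]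
    exact Or.inr rfl
  have hd2 : (inF 1 1 R2).natDegree < ordN 1 1 R2 := by
    refine lt_of_le_of_ne (inF11_natDegree_le R2) fun heq => ?_
    have h1 : (inF 1 1 R2).coeff (ordN 1 1 R2) ≠ 0 := by
      rw [← heq, Polynomial.coeff_natDegree]; exact Polynomial.leadingCoeff_ne_zero.2 he20
    apply h1
    rw [hi2, ho2, Polynomial.coeff_reflect, Polynomial.revAt_le le_rfl, Nat.sub_self,
      Polynomial.coeff_zero_eq_eval_zero, hr1]
    exact Or.inl rfl
  have hd2' : 1 ≤ (inF 1 1 R2).natDegree := by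
    by_contra h0
    obtain ⟨c, hc⟩ := Polynomial.natDegree_eq_zero.1 (show (inF 1 1 R2).natDegree = 0 by omega)
    have hc0 : c ≠ 0 := by rintro rfl; exact he20 (by rw [← hc, map_zero])
    rw [← hc, Polynomial.eval_C] at hr2'
    exact hc0 hr2'
  -- second shift
  obtain ⟨c, hc, hmono⟩ := mono_of_root he20 _ hr2
  set R3 := shift (lin (l2 - l1)⁻¹) R2 with hR3d
  have hR30 : R3 ≠ 0 := shift_ne_zero _ hR20
  have ho3 : ordN 1 1 R3 = ordN 1 1 R2 := ordN11_lin _ hR20
  have hi3 : inF 1 1 R3 = Polynomial.C c * Polynomial.X ^ (inF 1 1 R2).natDegree := by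
    rw [hR3d, inF11_lin _ hR20, hmono]
  have hV3 := vtx_of_mono hR30 hc hi3
  -- the family
  refine good0_shift (lin l1) (lin_coeff_zero l1) (good0_swp
    (good0_shift (lin (l2 - l1)⁻¹) (lin_coeff_zero _) ?_))
  have hP3 := ((hP.map (shiftE (lin l1))).map swpE).map (shiftE (lin (l2 - l1)⁻¹))
  have eR : RR n (fun j => shiftE (lin (l2 - l1)⁻¹) (swpE (shiftE (lin l1) (g j)))) = R3 := by
    rw [RR_map (g := fun j => swpE (shiftE (lin l1) (g j))),
      RR_map (g := fun j => shiftE (lin l1) (g j)), RR_map]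
    rfl
  have eF : FF n (fun j => shiftE (lin (l2 - l1)⁻¹) (swpE (shiftE (lin l1) (g j)))) =
      shift (lin (l2 - l1)⁻¹) (swp (shift (lin l1) (FF n g))) := by
    rw [FF_map (g := fun j => swpE (shiftE (lin l1) (g j))),
      FF_map (g := fun j => shiftE (lin l1) (g j)), FF_map]
    rfl
  refine level_two hCERT hP3 (AR := ordN 1 1 R3 - (inF 1 1 R2).natDegree)
    (BR := (inF 1 1 R2).natDegree) hc (by omega) hd2' (by rw [eR]; exact hV3)
    (by rw [eR]; exact hi3) ?_
  intro h
  apply hnode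
  rw [eF, ordN11_lin _ (swp_ne_zero (shift_ne_zero _ hF.ne)),
    ordN11_swp (shift_ne_zero _ hF.ne), ordN11_lin _ hF.ne] at h
  exact h

/-- generic position -/
theorem level_gen (hCERT : Stmt_CERT) (hP : Pre Λ n g) (hR : Gen (RR n g))
    (h2 : 2 ≤ ordN 1 1 (RR n g)) : Good0 Λ (FF n g) := by
  classical
  have hC := hP.ctx hCERT
  have hF : Gen (FF n g) := hR.transfer hC.FF_ne (GRdvd n g)
  have heR0 := inF_ne_zero le_rfl 1 hR.ne
  rcases lt_trichotomy (inF 1 1 (RR n g)).roots.toFinset.card 2 with ht | ht | ht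
  · -- one tangent
    have hex : ∃ δ : ℂ, (inF 1 1 (RR n g)).eval δ = 0 :=
      Complex.exists_root (f := inF 1 1 (RR n g))
        (Polynomial.natDegree_pos_iff_degree_pos.1 (by rw [hR.natDegree]; omega))
    obtain ⟨δ, hδ⟩ := hex
    have hall : ∀ x, (inF 1 1 (RR n g)).eval x = 0 → x = δ := by
      intro x hx
      have h1 : x ∈ (inF 1 1 (RR n g)).roots.toFinset := by
        rw [Multiset.mem_toFinset, Polynomial.mem_roots heR0]; exact hx
      have h2 : δ ∈ (inF 1 1 (RR n g)).roots.toFinset := by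
        rw [Multiset.mem_toFinset, Polynomial.mem_roots heR0]; exact hδ
      exact Finset.card_le_one.1 (by omega) x h1 δ h2
    obtain ⟨c, hc, hmono⟩ := mono_of_root heR0 δ hall
    refine good0_shift (lin δ) (lin_coeff_zero δ) ?_
    have hP1 := hP.map (shiftE (lin δ))
    have eR : RR n (fun j => shiftE (lin δ) (g j)) = shift (lin δ) (RR n g) := RR_map _
    refine level_one (hP1.ctx hCERT) ?_ hc ?_
    · rw [eR, ordN11_lin δ hR.ne]; exact h2
    · rw [eR, ordN11_lin δ hR.ne, inF11_lin δ hR.ne, hmono, hR.natDegree]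
  · exact level_two_gen hCERT hP hF hR ht
  · exact level_three hC hF hR ht

/-- a point where a polynomial does not vanish -/
lemma exists_eval_ne {e : Polynomial ℂ} (he : e ≠ 0) : ∃ x : ℂ, e.eval x ≠ 0 := by
  by_contra hall
  push Not at hall
  exact he (Polynomial.funext fun x => by rw [hall x, Polynomial.eval_zero])

theorem level0 (hCERT : Stmt_CERT) (hP : Pre Λ n g) (h2 : 2 ≤ ordN 1 1 (RR n g)) :
    Good0 Λ (FF n g) := by
  have hC := hP.ctx hCERT
  have hR0 := hC.RR_ne
  obtain ⟨l1, hl1⟩ := exists_eval_ne (inF_ne_zero le_rfl 1 hR0)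
  set R1 := shift (lin l1) (RR n g) with hR1d
  have hR10 : R1 ≠ 0 := shift_ne_zero _ hR0
  have ho1 : ordN 1 1 R1 = ordN 1 1 (RR n g) := ordN11_lin l1 hR0
  have hi1 : inF 1 1 R1 = (inF 1 1 (RR n g)).comp (Polynomial.X + Polynomial.C l1) :=
    inF11_lin l1 hR0
  have hc1 : (inF 1 1 R1).coeff 0 ≠ 0 := by
    rw [hi1, Polynomial.coeff_zero_eq_eval_zero, Polynomial.eval_comp]
    simpa using hl1
  set R2 := swp R1 with hR2d
  have hR20 : R2 ≠ 0 := swp_ne_zero hR10
  have ho2 : ordN 1 1 R2 = ordN 1 1 R1 := ordN11_swp hR10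
  have hi2 : inF 1 1 R2 = (inF 1 1 R1).reflect (ordN 1 1 R1) := inF11_swp hR10
  have hd2 : (inF 1 1 R2).natDegree = ordN 1 1 R2 := by
    apply le_antisymm (inF11_natDegree_le R2)
    apply Polynomial.le_natDegree_of_ne_zero
    rw [hi2, ho2, Polynomial.coeff_reflect, Polynomial.revAt_le le_rfl, Nat.sub_self]
    exact hc1
  obtain ⟨l2, hl2⟩ := exists_eval_ne (inF_ne_zero le_rfl 1 hR20)
  set R3 := shift (lin l2) R2 with hR3d
  have hR30 : R3 ≠ 0 := shift_ne_zero _ hR20
  have ho3 : ordN 1 1 R3 = ordN 1 1 R2 := ordN11_lin l2 hR20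
  have hi3 : inF 1 1 R3 = (inF 1 1 R2).comp (Polynomial.X + Polynomial.C l2) :=
    inF11_lin l2 hR20
  have hd3 : (inF 1 1 R3).natDegree = ordN 1 1 R3 := by
    rw [hi3, Polynomial.natDegree_comp, Polynomial.natDegree_X_add_C, mul_one, hd2, ho3]
  have hGen : Gen R3 := by
    refine ⟨hR30, ?_, ?_⟩
    · have h1 : (inF 1 1 R3).coeff (ordN 1 1 R3) ≠ 0 := by
        rw [← hd3, Polynomial.coeff_natDegree]
        exact Polynomial.leadingCoeff_ne_zero.2 (inF_ne_zero le_rfl 1 hR30)
      rwa [inF11_coeff le_rfl, Nat.sub_self] at h1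
    · rw [hi3, Polynomial.coeff_zero_eq_eval_zero, Polynomial.eval_comp]
      simpa using hl2
  refine good0_shift (lin l1) (lin_coeff_zero l1) (good0_swp
    (good0_shift (lin l2) (lin_coeff_zero _) ?_))
  have hP3 := ((hP.map (shiftE (lin l1))).map swpE).map (shiftE (lin l2))
  have eR : RR n (fun j => shiftE (lin l2) (swpE (shiftE (lin l1) (g j)))) = R3 := by
    rw [RR_map (g := fun j => swpE (shiftE (lin l1) (g j))),
      RR_map (g := fun j => shiftE (lin l1) (g j)), RR_map]
    rfl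
  refine level_gen hCERT hP3 (by rw [eR]; exact hGen) ?_
  rw [eR, ho3, ho2, ho1]
  exact h2

/-! ## The start -/

lemma pderiv_transE (x₀ : Fin 2 → ℂ) (i : Fin 2) (F : P2) :
    pderiv i (transE x₀ F) = transE x₀ (pderiv i F) := by
  have hX : ∀ j, transE x₀ (X j) = X j + C (x₀ j) := by
    intro j; simp [transE]
  have hCc : ∀ a : ℂ, transE x₀ (C a) = C a := by
    intro a; simp [transE]
  induction F using MvPolynomial.induction_on with
  | C a => rw [hCc, pderiv_C, map_zero]
  | add p q hp hq => simp only [map_add, hp, hq]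
  | mul_X p j hp =>
    rw [map_mul, Derivation.leibniz, Derivation.leibniz, hp, hX, map_add, pderiv_C, add_zero]
    simp only [smul_eq_mul, map_add, map_mul, hX]
    by_cases hij : i = j
    · subst hij
      simp
    · rw [pderiv_X_of_ne (fun h => hij h.symm)]
      simp

lemma eval_zero_transE (x₀ : Fin 2 → ℂ) (F : P2) :
    MvPolynomial.eval 0 (transE x₀ F) = MvPolynomial.eval x₀ F := by
  have : ((MvPolynomial.eval (0 : Fin 2 → ℂ)).comp (transE x₀ : P2 →+* P2)) =
      MvPolynomial.eval x₀ := by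
    apply MvPolynomial.ringHom_ext
    · intro a; simp [transE]
    · intro i; simp [transE]
  exact RingHom.congr_fun this F

lemma low_two_of {P : P2} (h0 : MvPolynomial.eval 0 P = 0)
    (h1 : ∀ i, MvPolynomial.eval 0 (pderiv i P) = 0) : Low 1 1 2 P := by
  intro d hd
  by_contra hlt
  push Not at hlt
  rw [mem_support_iff] at hd
  apply hd
  have hcc : ∀ Q : P2, MvPolynomial.eval 0 Q = 0 → Q.coeff 0 = 0 := by
    intro Q hQ
    rw [MvPolynomial.eval_zero, constantCoeff_eq] at hQ
    exact hQ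
  have hs : ∀ i : Fin 2, P.coeff (Finsupp.single i 1) = 0 := by
    intro i
    have h2 := hcc _ (h1 i)
    rw [coeff_pderiv] at h2
    simpa using h2
  rcases Nat.eq_zero_or_pos (d 0) with h2 | h2
  · rcases Nat.eq_zero_or_pos (d 1) with h3 | h3
    · have : d = 0 := ext2 (by simpa using h2) (by simpa using h3)
      rw [this]; exact hcc _ h0
    · have : d = Finsupp.single 1 1 := ext2 (by simpa using h2) (by simp; omega)
      rw [this]; exact hs 1
  · have : d = Finsupp.single 0 1 := ext2 (by simp; omega) (by simp; omega)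
    rw [this]; exact hs 0

open TS in
/-- the multiple factors -/
lemma wit_mul (hM : Stmt_MF6) {n : ℕ} {g : ℕ → P2} (hsq : Squarefree (RR n g)) {j : ℕ}
    (hj : j ∈ Finset.Icc 1 n) (hj2 : 2 ≤ j) (hu : ¬ IsUnit (g j)) :
    WitClass (FF n g) (1 / (j : ℚ)) := by
  classical
  have hgj : g j ≠ 0 := by
    intro h0
    exact hsq.ne_zero (Finset.prod_eq_zero hj h0)
  obtain ⟨π, hπ, u, hπu⟩ := WfDvdMonoid.exists_irreducible_factor hu hgj
  have hprime : Prime π := UniqueFactorizationMonoid.irreducible_iff_prime.1 hπ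
  set h : P2 := u ^ j * ∏ i ∈ (Finset.Icc 1 n).erase j, g i ^ i with hh
  have hFF : FF n g = π ^ j * h := by
    unfold FF
    rw [← Finset.mul_prod_erase (Finset.Icc 1 n) (fun i => g i ^ i) hj, hh]
    rw [hπu, mul_pow]; ring
  have hRR : RR n g = g j * ∏ i ∈ (Finset.Icc 1 n).erase j, g i := by
    unfold RR
    rw [Finset.mul_prod_erase (Finset.Icc 1 n) (fun i => g i) hj]
  have hnd : ¬ π ∣ h := by
    intro hd
    have hsq2 : ¬ π * π ∣ RR n g := fun h2 => hπ.not_isUnit (hsq _ h2)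
    rcases hprime.dvd_or_dvd hd with h1 | h1
    · have h2 := hprime.dvd_of_dvd_pow h1
      apply hsq2
      rw [hRR, hπu]
      exact dvd_mul_of_dvd_left (mul_dvd_mul_left π h2) _
    · obtain ⟨i, hi, h2⟩ := (hprime.dvd_finsetProd_iff _).1 h1
      have h3 := hprime.dvd_of_dvd_pow h2
      apply hsq2
      rw [hRR]
      exact mul_dvd_mul ⟨u, hπu⟩ (h3.trans (Finset.dvd_prod_of_mem g hi))
  have hW := hM (Fin 2) π h j hj2 hπ hnd
  have hj0 : (0 : ℚ) < j := by
    have : 0 < j := by omega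
    exact_mod_cast this
  refine ⟨-1 / (j : ℚ), 0, ?_, ?_, ?_⟩
  · exact div_neg_of_neg_of_pos (by norm_num) hj0
  · push_cast; ring
  · rw [hFF]
    have : (((-1 / (j : ℚ)) : ℚ) : ℂ) = -1 / (j : ℂ) := by push_cast; ring
    rw [this]
    exact hW

end TT

open TT MvPolynomial TS in
theorem stmt_TREE (hE : Stmt_EW6) (hM : Stmt_MF6) (hC : Stmt_CERT) : Stmt_TREE := by
  intro f c n g hf hfg hsq x₀ hx₀ hcrit
  have hFF : f - C c = TT.FF n g := by rw [hfg, TT.FF]; ring
  have hsq' : Squarefree (TT.RR n g) := hsq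
  have hPre : Pre {r : ℚ | 0 < r ∧ WitClass (f - C c) r} n g := by
    refine ⟨hsq', ?_, ?_⟩
    · intro r hr hr0
      exact ⟨hr0, by rw [hFF]; exact hE _ _ hr⟩
    · intro j hj hj2 hu
      refine ⟨?_, by rw [hFF]; exact wit_mul hM hsq' hj hj2 hu⟩
      have : (0 : ℚ) < j := by
        have : 0 < j := by omega
        exact_mod_cast this
      positivity
  have hP := hPre.map (transE x₀)
  have hF : aeval (fun i => X i + C (x₀ i)) f - C c = TT.FF n (fun j => transE x₀ (g j)) := by
    rw [FF_map, ← hFF, map_sub]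
    congr 1
    simp [transE]
  rw [hF]
  refine level0 hC hP ?_
  rw [RR_map]
  have hlow : Low 1 1 2 (transE x₀ (TT.RR n g)) := by
    apply low_two_of
    · rw [eval_zero_transE]
      have h1 : MvPolynomial.eval x₀ (TT.FF n g) = 0 := by
        rw [← hFF, map_sub, hx₀, eval_C, sub_self]
      unfold TT.FF at h1
      rw [map_prod, Finset.prod_eq_zero_iff] at h1
      obtain ⟨j, hj, h2⟩ := h1
      rw [map_pow] at h2
      unfold TT.RR
      rw [map_prod]
      exact Finset.prod_eq_zero hj (pow_eq_zero_iff (by have := (Finset.mem_Icc.1 hj).1; omega) |>.1 h2)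
    · intro i
      rw [pderiv_transE, eval_zero_transE]
      exact hcrit i
  have hne : transE x₀ (TT.RR n g) ≠ 0 := by
    intro h0
    exact hsq'.ne_zero ((transE x₀).injective (by rw [h0, map_zero]))
  obtain ⟨A, B, hV⟩ := exists_vtx le_rfl 1 hne
  rw [hV.ord le_rfl]
  have := hlow _ (mem_support_iff.2 hV.ne)
  simpa using this

end Pool.Agent.Mono.PC
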