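import Pool.Agent.Work.Monodromy6.VF0

/-!
# Phase 6, volume part: a point in an open cone (helper80)
-/

set_option autoImplicit false
set_option linter.unusedSectionVars false

namespace Pool.Agent.Mono.PC

open MvPolynomial TS RO RO.VGAux RO.TG5Aux

namespace PL

/-- the only leading monomial in an open cone -/
theorem vertex1 {G : P2} {p q p' q' A B k l : ℕ} (hD : q * p' < q' * p)
    (hL : Low p q (p * A + q * B) G) (hL' : Low p' q' (p' * A + q' * B) G)
    (h1 : q * k < p * l) (h2 : p' * l < q' * k) :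
    ∀ d ∈ G.support, d ≠ mon A B → k * A + l * B < k * d 0 + l * d 1 := by
  intro d hd hne
  have a1 := hL d hd
  have a2 := hL' d hd
  have hD' : (0 : ℤ) < q' * p - q * p' := by
    have : (q * p' : ℤ) < q' * p := by exact_mod_cast hD
    linarith
  have hi : (0 : ℤ) < q' * k - p' * l := by
    have : (p' * l : ℤ) < q' * k := by exact_mod_cast h2
    linarith
  have hj : (0 : ℤ) < p * l - q * k := by
    have : (q * k : ℤ) < p * l := by exact_mod_cast h1
    linarith
  have b1 : (0 : ℤ) ≤ p * (d 0 - A) + q * (d 1 - B) := by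
    have : (p * A + q * B : ℤ) ≤ p * d 0 + q * d 1 := by exact_mod_cast a1
    linarith
  have b2 : (0 : ℤ) ≤ p' * (d 0 - A) + q' * (d 1 - B) := by
    have : (p' * A + q' * B : ℤ) ≤ p' * d 0 + q' * d 1 := by exact_mod_cast a2
    linarith
  have key : ((q' * p - q * p' : ℤ)) * (k * (d 0 - A) + l * (d 1 - B)) =
      (q' * k - p' * l) * (p * (d 0 - A) + q * (d 1 - B)) +
        (p * l - q * k) * (p' * (d 0 - A) + q' * (d 1 - B)) := by ring
  have hnn : (0 : ℤ) ≤ k * (d 0 - A) + l * (d 1 - B) := by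
    by_contra hneg
    push Not at hneg
    have e1 := mul_neg_of_pos_of_neg hD' hneg
    have e2 := mul_nonneg hi.le b1
    have e3 := mul_nonneg hj.le b2
    linarith
  have hne' : (k * (d 0 - A) + l * (d 1 - B) : ℤ) ≠ 0 := by
    intro h0
    rw [h0, mul_zero] at key
    have e2 := mul_nonneg hi.le b1
    have e3 := mul_nonneg hj.le b2
    have f1 : (p * (d 0 - A) + q * (d 1 - B) : ℤ) = 0 := by
      have : (q' * k - p' * l : ℤ) * (p * (d 0 - A) + q * (d 1 - B)) = 0 := by linarith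
      rcases mul_eq_zero.1 this with h | h
      · exact absurd h hi.ne'
      · exact h
    have f2 : (p' * (d 0 - A) + q' * (d 1 - B) : ℤ) = 0 := by
      have : (p * l - q * k : ℤ) * (p' * (d 0 - A) + q' * (d 1 - B)) = 0 := by linarith
      rcases mul_eq_zero.1 this with h | h
      · exact absurd h hj.ne'
      · exact h
    have g1 : (q' * p - q * p' : ℤ) * (d 0 - A) = 0 := by linear_combination q' * f1 - q * f2
    have g2 : (q' * p - q * p' : ℤ) * (d 1 - B) = 0 := by linear_combination p * f2 - p' * f1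
    have i1 : (d 0 : ℤ) = A := by
      rcases mul_eq_zero.1 g1 with h | h
      · exact absurd h hD'.ne'
      · linarith
    have i2 : (d 1 : ℤ) = B := by
      rcases mul_eq_zero.1 g2 with h | h
      · exact absurd h hD'.ne'
      · linarith
    exact hne (eq_mon (by exact_mod_cast i1) (by exact_mod_cast i2))
  have hpos : (0 : ℤ) < k * (d 0 - A) + l * (d 1 - B) := lt_of_le_of_ne hnn hne'.symm
  have : (k * A + l * B : ℤ) < k * d 0 + l * d 1 := by linarith
  exact_mod_cast this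

/-- `E ⊕ Fin 2` and `(E ⊕ Unit) ⊕ Unit` -/
def e2 (E : Type) : E ⊕ Fin 2 ≃ (E ⊕ Unit) ⊕ Unit where
  toFun := Sum.elim (fun e => Sum.inl (Sum.inl e))
    fun i => if i = 0 then Sum.inl (Sum.inr ()) else Sum.inr ()
  invFun := Sum.elim (Sum.elim Sum.inl fun _ => Sum.inr 0) fun _ => Sum.inr 1
  left_inv := by
    rintro (e | i)
    · rfl
    · fin_cases i <;> rfl
  right_inv := by
    rintro ((e | i) | i) <;> rfl

theorem con_c2 {E : Type} [Finite E] (u : P2) {Q : Set (E ⊕ Unit → ℂ)}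
    (hQ : Constructible Q) : Constructible {z : E ⊕ Fin 2 → ℂ | z (Sum.inr 0) ≠ 0 ∧
      z (Sum.inr 1) ≠ 0 ∧
      (Sum.elim (fun e => z (Sum.inl e)) fun _ => eval (fun i => z (Sum.inr i)) u) ∈ Q} := by
  refine (con_ne (IP.coord _)).inter ((con_ne (IP.coord _)).inter
    (con_pre (F := fun z : E ⊕ Fin 2 → ℂ =>
      Sum.elim (fun e => z (Sum.inl e)) fun _ => eval (fun i => z (Sum.inr i)) u) ?_ hQ))
  rintro (e | e)
  · exact IP.coord _
  · exact IP.ev u fun a => IP.coord _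

/-- the parameters of the point `(k, l)` -/
def Rc {E : Type} (u : P2) (Q : Set (E ⊕ Unit → ℂ)) : Set ((E ⊕ Unit) ⊕ Unit → ℂ) :=
  {z | z (Sum.inl (Sum.inr ())) ≠ 0 ∧ z (Sum.inr ()) ≠ 0 ∧
    (Sum.elim (fun e => z (Sum.inl (Sum.inl e))) fun _ =>
      eval ![z (Sum.inl (Sum.inr ())), z (Sum.inr ())] u) ∈ Q}

theorem con_Rc {E : Type} [Finite E] (u : P2) {Q : Set (E ⊕ Unit → ℂ)}
    (hQ : Constructible Q) : Constructible (Rc u Q) := by
  refine (con_ne (IP.coord _)).inter ((con_ne (IP.coord _)).inter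
    (con_pre (F := fun z : (E ⊕ Unit) ⊕ Unit → ℂ =>
      Sum.elim (fun e => z (Sum.inl (Sum.inl e))) fun _ =>
        eval ![z (Sum.inl (Sum.inr ())), z (Sum.inr ())] u) ?_ hQ))
  rintro (e | e)
  · exact IP.coord _
  · have h := IP.ev (ι := (E ⊕ Unit) ⊕ Unit) u (τ := fun (a : Fin 2) z =>
      (![z (Sum.inl (Sum.inr ())), z (Sum.inr ())] : Fin 2 → ℂ) a) (by
        intro a
        fin_cases a
        · exact IP.coord _
        · exact IP.coord _)
    exact h

theorem val_Rc {E : Type} [Finite E] (P : HodgeMeasure) (u : P2) {Q : Set (E ⊕ Unit → ℂ)}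
    (hQ : Constructible Q) : P.rat.val (Rc u Q) = c2 P u Q := by
  refine P.rat.map _ _ (fun j => X (e2 E j)) (con_Rc u hQ) (con_c2 u hQ) ⟨?_, ?_, ?_⟩
  · rintro z ⟨h1, h2, h3⟩
    have e1 : (fun j => eval z (X (e2 E j) : MvPolynomial ((E ⊕ Unit) ⊕ Unit) ℂ)) =
        fun j => z (e2 E j) := funext fun j => eval_X _
    change (fun j => eval z (X (e2 E j) : MvPolynomial ((E ⊕ Unit) ⊕ Unit) ℂ)) ∈ _
    rw [e1]
    refine ⟨h1, h2, ?_⟩
    have e3 : (fun i : Fin 2 => z (e2 E (Sum.inr i))) =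
        ![z (Sum.inl (Sum.inr ())), z (Sum.inr ())] := by
      funext i
      fin_cases i <;> rfl
    change (Sum.elim (fun e => z (Sum.inl (Sum.inl e))) fun _ =>
      eval (fun i : Fin 2 => z (e2 E (Sum.inr i))) u) ∈ Q
    rw [e3]
    exact h3
  · intro z _ z' _ h
    funext s
    have := congrFun h ((e2 E).symm s)
    simpa only [eval_X, Equiv.apply_symm_apply] using this
  · rintro y ⟨h1, h2, h3⟩
    refine ⟨fun s => y ((e2 E).symm s), ⟨h1, h2, ?_⟩, ?_⟩
    · have e3 : (fun i : Fin 2 => y (Sum.inr i)) =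
          ![y ((e2 E).symm (Sum.inl (Sum.inr ()))), y ((e2 E).symm (Sum.inr ()))] := by
        funext i
        fin_cases i <;> rfl
      change (Sum.elim (fun e => y (Sum.inl e)) fun _ =>
        eval ![y ((e2 E).symm (Sum.inl (Sum.inr ()))), y ((e2 E).symm (Sum.inr ()))] u) ∈ Q
      rw [← e3]
      exact h3
    · funext j
      simp only [eval_X, Equiv.symm_apply_apply]

end PL

open PL

theorem stmt_VCONE : Stmt_VCONE := by
  intro P G p q p' q' A B hD hp hc hL hL' E _ Q hQ k l m hk h1 h2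
  have hv := vertex1 hD hL hL' h1 h2
  set u : P2 := C (G.coeff (mon A B)) * X 0 ^ A * X 1 ^ B with hu
  have hev : ∀ a b : ℂ, eval ![a, b] u = G.coeff (mon A B) * a ^ A * b ^ B := by
    intro a b
    simp [hu]
  have hord : ∀ (a : ℂ) (w : PowerSeries ℂ), a ≠ 0 →
      (∀ j < l, PowerSeries.coeff j w = 0) → PowerSeries.coeff l w ≠ 0 → ∀ pp : E → ℂ,
      (Lead Q m pp (ev G k a w) ↔ m = A * k + B * l ∧
        (Sum.elim pp fun _ => eval ![a, PowerSeries.coeff l w] u) ∈ Q) := by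
    intro a w ha hw hb pp
    obtain ⟨e1, e2⟩ := ev_vertex G k l A B a w hw hv
    have e3 : PowerSeries.coeff (k * A + l * B) (ev G k a w) ≠ 0 := by
      rw [e2]
      exact mul_ne_zero (mul_ne_zero hc (pow_ne_zero _ ha)) (pow_ne_zero _ hb)
    rw [lead_of_ord hQ e1 e3 m, e2, Nat.mul_comm k A, Nat.mul_comm l B, hev]
  have hcy1 : Cy {z : (E ⊕ Unit → ℂ) × (Unit → PowerSeries ℂ) | z ∈ NS G Q k l m ∧
      ¬ PowerSeries.coeff l (z.2 ()) = 0} :=
    Cy.and (cy_NS G hQ.1 k l m) (Cy.not (Cy.zero (RF.arc () l)))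
  have hsplit : NS G Q k l m = {z : (E ⊕ Unit → ℂ) × (Unit → PowerSeries ℂ) |
      z ∈ NS G Q k l m ∧ ¬ PowerSeries.coeff l (z.2 ()) = 0} ∪ NS G Q k (l + 1) m := by
    ext z
    constructor
    · intro hz
      by_cases h0 : PowerSeries.coeff l (z.2 ()) = 0
      · right
        refine ⟨hz.1, fun j hj => ?_, hz.2.2⟩
        rcases Nat.lt_succ_iff_lt_or_eq.1 hj with h | h
        · exact hz.2.1 j h
        · rw [h]
          exact h0
      · left
        exact ⟨hz, h0⟩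
    · rintro (h | h)
      · exact h.1
      · exact ⟨h.1, fun j hj => h.2.1 j (Nat.lt_succ_of_lt hj), h.2.2⟩
  have hdis : Disjoint {z : (E ⊕ Unit → ℂ) × (Unit → PowerSeries ℂ) |
      z ∈ NS G Q k l m ∧ ¬ PowerSeries.coeff l (z.2 ()) = 0} (NS G Q k (l + 1) m) := by
    rw [Set.disjoint_left]
    rintro z ⟨_, h0⟩ h
    exact h0 (h.2.1 l (Nat.lt_succ_self l))
  unfold vN
  have hvol : vol P.rat xq (NS G Q k l m) = vol P.rat xq
      {z : (E ⊕ Unit → ℂ) × (Unit → PowerSeries ℂ) |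
        z ∈ NS G Q k l m ∧ ¬ PowerSeries.coeff l (z.2 ()) = 0} +
      vol P.rat xq (NS G Q k (l + 1) m) := by
    conv_lhs => rw [hsplit]
    exact vol_uni P hcy1 (cy_NS G hQ.1 k (l + 1) m) hdis
  rw [hvol]
  congr 1
  by_cases hm : m = A * k + B * l
  · rw [if_pos hm]
    have hset : {z : (E ⊕ Unit → ℂ) × (Unit → PowerSeries ℂ) |
        z ∈ NS G Q k l m ∧ ¬ PowerSeries.coeff l (z.2 ()) = 0} =
        {z : (E ⊕ Unit → ℂ) × (Unit → PowerSeries ℂ) |
          (∀ j < l, PowerSeries.coeff j (z.2 ()) = 0) ∧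
            (Sum.elim z.1 fun _ => PowerSeries.coeff l (z.2 ())) ∈ Rc u Q} := by
      ext z
      constructor
      · rintro ⟨⟨a1, a2, a3⟩, a4⟩
        exact ⟨a2, a1, a4, ((hord _ _ a1 a2 a4 _).1 a3).2⟩
      · rintro ⟨a2, a1, a4, a3⟩
        exact ⟨⟨a1, a2, (hord _ _ a1 a2 a4 _).2 ⟨hm, a3⟩⟩, a4⟩
    rw [hset, vol_pl1 P (con_Rc u hQ.1), val_Rc P u hQ.1]
  · rw [if_neg hm]
    have hset : {z : (E ⊕ Unit → ℂ) × (Unit → PowerSeries ℂ) |
        z ∈ NS G Q k l m ∧ ¬ PowerSeries.coeff l (z.2 ()) = 0} = ∅ := by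
      rw [Set.eq_empty_iff_forall_notMem]
      rintro z ⟨⟨a1, a2, a3⟩, a4⟩
      exact hm ((hord _ _ a1 a2 a4 _).1 a3).1
    rw [hset]
    exact vol_empty P.rat (TS.VAAux.L_mul P)

end Pool.Agent.Mono.PC
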