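import Pool.Agent.Work.Monodromy6.PL
import Pool.Agent.Work.Monodromy5.TG5D

/-!
# Phase 6, volume part: last region with `B = 0` (helper80)
-/

set_option autoImplicit false
set_option linter.unusedSectionVars false

namespace Pool.Agent.Mono.PC

open MvPolynomial TS RO RO.VGAux RO.TG5Aux

namespace PL

theorem mon_zero (A B : ℕ) : (mon A B) 0 = A := by simp [mon]

theorem mon_one (A B : ℕ) : (mon A B) 1 = B := by simp [mon]

theorem eq_mon {d : Fin 2 →₀ ℕ} {A B : ℕ} (h0 : d 0 = A) (h1 : d 1 = B) : d = mon A B := by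
  ext i
  fin_cases i
  · rw [Fin.zero_eta, h0, mon_zero]
  · rw [Fin.mk_one, h1, mon_one]

theorem con_c1 {E : Type} [Finite E] (c : ℂ) (A : ℕ) {Q : Set (E ⊕ Unit → ℂ)}
    (hQ : Constructible Q) : Constructible {z : E ⊕ Unit → ℂ | z (Sum.inr ()) ≠ 0 ∧
      (Sum.elim (fun e => z (Sum.inl e)) fun _ => c * z (Sum.inr ()) ^ A) ∈ Q} := by
  refine (con_ne (IP.coord _)).inter (con_pre (F := fun z : E ⊕ Unit → ℂ =>
    Sum.elim (fun e => z (Sum.inl e)) fun _ => c * z (Sum.inr ()) ^ A) ?_ hQ)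
  rintro (e | e)
  · exact IP.coord _
  · refine ⟨C c * X (Sum.inr ()) ^ A, fun x => ?_⟩
    simp

/-- the only leading monomial in the last region -/
theorem vertex0 {G : P2} {p q A k : ℕ} (hp : 1 ≤ p) (hL : Low p q (p * A) G) (hk : 1 ≤ k) :
    ∀ d ∈ G.support, d ≠ mon A 0 →
      k * A + (q * k / p + 1) * 0 < k * d 0 + (q * k / p + 1) * d 1 := by
  intro d hd hne
  have h1 := hL d hd
  rcases Nat.eq_zero_or_pos (d 1) with h0 | h0
  · rw [h0, Nat.mul_zero, Nat.add_zero] at h1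
    have h2 : A ≤ d 0 := Nat.le_of_mul_le_mul_left h1 hp
    have h3 : A ≠ d 0 := fun h => hne (eq_mon h.symm h0)
    have h4 : A < d 0 := lt_of_le_of_ne h2 h3
    rw [h0, Nat.mul_zero, Nat.add_zero, Nat.add_zero]
    exact Nat.mul_lt_mul_of_pos_left h4 hk
  · have h2 : q * k < p * (q * k / p + 1) := Nat.lt_mul_div_succ (q * k) hp
    have h3 : (q * k) * d 1 < (p * (q * k / p + 1)) * d 1 := Nat.mul_lt_mul_of_pos_right h2 h0
    have h4 : k * (p * A) ≤ k * (p * d 0 + q * d 1) := Nat.mul_le_mul_left k h1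
    refine Nat.lt_of_mul_lt_mul_left (a := p) ?_
    calc p * (k * A + (q * k / p + 1) * 0) = k * (p * A) := by ring
      _ ≤ k * (p * d 0 + q * d 1) := h4
      _ = p * (k * d 0) + (q * k) * d 1 := by ring
      _ < p * (k * d 0) + (p * (q * k / p + 1)) * d 1 := Nat.add_lt_add_left h3 _
      _ = p * (k * d 0 + (q * k / p + 1) * d 1) := by ring

end PL

open PL

theorem stmt_VF0 : Stmt_VF0 := by
  intro P G p q A hp hA hc hL E _ Q hQ k m hk
  have hv := vertex0 (G := G) (q := q) hp hL hk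
  have hord : ∀ (a : ℂ) (w : PowerSeries ℂ), a ≠ 0 →
      (∀ j < q * k / p + 1, PowerSeries.coeff j w = 0) → ∀ pp : E → ℂ,
      (Lead Q m pp (ev G k a w) ↔ m = A * k ∧
        (Sum.elim pp fun _ => G.coeff (mon A 0) * a ^ A) ∈ Q) := by
    intro a w ha hw pp
    obtain ⟨h1, h2⟩ := ev_vertex G k (q * k / p + 1) A 0 a w hw hv
    rw [pow_zero, mul_one] at h2
    rw [Nat.mul_zero, Nat.add_zero] at h1 h2
    have h3 : PowerSeries.coeff (k * A) (ev G k a w) ≠ 0 := by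
      rw [h2]
      exact mul_ne_zero hc (pow_ne_zero _ ha)
    rw [lead_of_ord hQ h1 h3 m, h2, Nat.mul_comm k A]
  unfold vN
  by_cases hm : m = A * k
  · rw [if_pos hm]
    have hset : NS G Q k (q * k / p + 1) m = {z : (E ⊕ Unit → ℂ) × (Unit → PowerSeries ℂ) |
        (∀ j < q * k / p + 1, PowerSeries.coeff j (z.2 ()) = 0) ∧ z.1 ∈
          {z : E ⊕ Unit → ℂ | z (Sum.inr ()) ≠ 0 ∧
            (Sum.elim (fun e => z (Sum.inl e)) fun _ => G.coeff (mon A 0) *
              z (Sum.inr ()) ^ A) ∈ Q}} := by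
      ext z
      constructor
      · rintro ⟨h1, h2, h3⟩
        exact ⟨h2, h1, ((hord _ _ h1 h2 _).1 h3).2⟩
      · rintro ⟨h2, h1, h3⟩
        exact ⟨h1, h2, (hord _ _ h1 h2 _).2 ⟨hm, h3⟩⟩
    rw [hset, vol_pl0 P (con_c1 _ A hQ.1)]
    rfl
  · rw [if_neg hm]
    have hset : NS G Q k (q * k / p + 1) m = ∅ := by
      rw [Set.eq_empty_iff_forall_notMem]
      rintro z ⟨h1, h2, h3⟩
      exact hm ((hord _ _ h1 h2 _).1 h3).1
    rw [hset]
    exact vol_empty P.rat (TS.VAAux.L_mul P)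

end Pool.Agent.Mono.PC
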