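import Pool.Agent.Work.Monodromy6.PL

/-!
# Phase 6, volume part: block VF1 (helper73)
-/

set_option autoImplicit false
set_option linter.unusedSectionVars false

namespace Pool.Agent.Mono.PC

open MvPolynomial TS RO RO.VGAux

namespace VF1Aux

/-! ## Triangularity -/

theorem pow_sub_dvd {L j : ℕ} {w w' : PowerSeries ℂ} (hw : PowerSeries.X ^ L ∣ w)
    (hw' : PowerSeries.X ^ L ∣ w') (hd : PowerSeries.X ^ j ∣ w - w') (n : ℕ) :
    PowerSeries.X ^ (j + L * n) ∣ w ^ (n + 1) - w' ^ (n + 1) := by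
  induction n with
  | zero => simpa using hd
  | succ n ih =>
    have e : w ^ (n + 1 + 1) - w' ^ (n + 1 + 1) =
        w * (w ^ (n + 1) - w' ^ (n + 1)) + (w - w') * w' ^ (n + 1) := by ring
    rw [e]
    refine dvd_add ?_ ?_
    · have h1 : PowerSeries.X ^ L * PowerSeries.X ^ (j + L * n) ∣
          w * (w ^ (n + 1) - w' ^ (n + 1)) := mul_dvd_mul hw ih
      rw [← pow_add] at h1
      refine dvd_trans (pow_dvd_pow _ ?_) h1
      rw [mul_add]
      omega
    · have h1 : PowerSeries.X ^ j * (PowerSeries.X ^ L) ^ (n + 1) ∣ (w - w') * w' ^ (n + 1) :=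
        mul_dvd_mul hd (pow_dvd_pow_of_dvd hw' _)
      rw [← pow_mul, ← pow_add] at h1
      exact h1

theorem lt_L (p q k : ℕ) (hp : 1 ≤ p) : q * k < p * (q * k / p + 1) :=
  Nat.lt_mul_div_succ _ (by omega)

theorem arith1 {p q k L A α n : ℕ} (hp : 1 ≤ p) (hk : 1 ≤ k) (hL : q * k < p * L)
    (h : p * A + q ≤ p * α + q * (n + 1)) (hne : ¬ (α = A ∧ n = 0)) :
    k * A < k * α + L * n := by
  have h1 : p * A ≤ p * α + q * n := by
    have : q * (n + 1) = q * n + q := by ring
    omega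
  rcases Nat.eq_zero_or_pos n with rfl | hn
  · have h2 : A ≤ α := by
      have : p * A ≤ p * α := by simpa using h1
      exact Nat.le_of_mul_le_mul_left this (by omega)
    have h3 : A < α := by
      rcases Nat.lt_or_ge A α with h | h
      · exact h
      · exact absurd ⟨by omega, rfl⟩ hne
    have h4 : k * A < k * α := (Nat.mul_lt_mul_left (by omega)).2 h3
    simpa using h4
  · have h2 : p * (k * A) < p * (k * α + L * n) := by
      have h3 : k * (p * A) ≤ k * (p * α + q * n) := Nat.mul_le_mul_left _ h1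
      have h4 : (q * k) * n < (p * L) * n := (Nat.mul_lt_mul_right hn).2 hL
      have e1 : p * (k * A) = k * (p * A) := by ring
      have e2 : p * (k * α + L * n) = k * (p * α) + (p * L) * n := by ring
      have e3 : k * (p * α + q * n) = k * (p * α) + (q * k) * n := by ring
      omega
    exact Nat.lt_of_mul_lt_mul_left h2

theorem arith0 {p q k L A α : ℕ} (hp : 1 ≤ p) (hk : 1 ≤ k) (hL : L = q * k / p + 1)
    (h : p * A + q < p * α) : k * A + L ≤ k * α := by
  have h1 : A < α := by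
    have : p * A < p * α := by omega
    exact Nat.lt_of_mul_lt_mul_left this
  obtain ⟨δ, rfl⟩ := Nat.exists_eq_add_of_lt h1
  have h2 : q < p * (δ + 1) := by
    have e : p * (A + δ + 1) = p * A + p * (δ + 1) := by ring
    omega
  have h3 : q * k < (k * (δ + 1)) * p := by
    have h4 : q * k < (p * (δ + 1)) * k := (Nat.mul_lt_mul_right (by omega)).2 h2
    calc q * k < (p * (δ + 1)) * k := h4
      _ = (k * (δ + 1)) * p := by ring
  have h5 : q * k / p < k * (δ + 1) := (Nat.div_lt_iff_lt_mul (by omega)).2 h3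
  have e : k * (A + δ + 1) = k * A + k * (δ + 1) := by ring
  omega

/-- the hypotheses on `g` -/
structure Hg (g : P2) (p q k L A : ℕ) : Prop where
  hp : 1 ≤ p
  hk : 1 ≤ k
  hL : L = q * k / p + 1
  c : g.coeff (mon A 1) ≠ 0
  low : Low p q (p * A + q) g
  zero : ∀ d ∈ g.support, d 1 = 0 → p * A + q < p * d 0

variable {g : P2} {p q k L A : ℕ}

theorem mon0 (a b : ℕ) : (mon a b) 0 = a := by simp [mon]

theorem mon1 (a b : ℕ) : (mon a b) 1 = b := by simp [mon]

theorem eq_mon {d : Fin 2 →₀ ℕ} {a b : ℕ} (h0 : d 0 = a) (h1 : d 1 = b) : d = mon a b := by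
  ext i
  fin_cases i
  · simpa [mon] using h0
  · simpa [mon] using h1

theorem Hg.dvd (H : Hg g p q k L A) (a : ℂ) {w : PowerSeries ℂ} (hw : PowerSeries.X ^ L ∣ w) :
    PowerSeries.X ^ (k * A + L) ∣ ev g k a w := by
  rw [PL.ev_eq]
  refine Finset.dvd_sum fun d hd => Dvd.dvd.mul_left ?_ _
  have hLt := lt_L p q k H.hp
  rw [← H.hL] at hLt
  have h1 : PowerSeries.X ^ (k * d 0 + L * d 1) ∣
      (PowerSeries.C a * PowerSeries.X ^ k) ^ d 0 * w ^ d 1 := by
    rw [pow_add]
    refine mul_dvd_mul ?_ ?_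
    · rw [mul_pow, ← pow_mul]
      exact Dvd.intro_left _ rfl
    · rw [pow_mul]
      exact pow_dvd_pow_of_dvd hw _
  refine dvd_trans (pow_dvd_pow _ ?_) h1
  rcases Nat.eq_zero_or_pos (d 1) with h0 | h0
  · have := arith0 H.hp H.hk H.hL (H.zero d hd h0)
    rw [h0]
    omega
  · obtain ⟨n, hn⟩ : ∃ n, d 1 = n + 1 := ⟨d 1 - 1, by omega⟩
    have hl := H.low d hd
    rw [hn] at hl
    by_cases hc : d 0 = A ∧ n = 0
    · rw [hn, hc.1, hc.2]
      simp
    · have := arith1 H.hp H.hk hLt hl hc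
      rw [hn]
      have e : L * (n + 1) = L * n + L := by ring
      omega

/-- the main triangularity -/
theorem Hg.tri (H : Hg g p q k L A) (a : ℂ) {w w' : PowerSeries ℂ} (hw : PowerSeries.X ^ L ∣ w)
    (hw' : PowerSeries.X ^ L ∣ w') {j : ℕ} (hd : PowerSeries.X ^ j ∣ w - w') :
    PowerSeries.X ^ (k * A + j + 1) ∣ ev g k a w - ev g k a w' -
      PowerSeries.C (g.coeff (mon A 1) * a ^ A) * PowerSeries.X ^ (k * A) * (w - w') := by
  have hLt := lt_L p q k H.hp
  rw [← H.hL] at hLt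
  have hs : mon A 1 ∈ g.support := by
    rw [mem_support_iff]
    exact H.c
  rw [PL.ev_eq, PL.ev_eq, ← Finset.sum_sub_distrib, ← Finset.add_sum_erase _ _ hs]
  have e1 : PowerSeries.C (g.coeff (mon A 1)) *
        ((PowerSeries.C a * PowerSeries.X ^ k) ^ (mon A 1) 0 * w ^ (mon A 1) 1) -
      PowerSeries.C (g.coeff (mon A 1)) *
        ((PowerSeries.C a * PowerSeries.X ^ k) ^ (mon A 1) 0 * w' ^ (mon A 1) 1) =
      PowerSeries.C (g.coeff (mon A 1) * a ^ A) * PowerSeries.X ^ (k * A) * (w - w') := by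
    rw [mon0, mon1, mul_pow, ← pow_mul, map_mul, map_pow]
    ring
  rw [e1, add_sub_cancel_left]
  refine Finset.dvd_sum fun d hd' => ?_
  obtain ⟨hne, hds⟩ := Finset.mem_erase.1 hd'
  have e2 : PowerSeries.C (g.coeff d) * ((PowerSeries.C a * PowerSeries.X ^ k) ^ d 0 * w ^ d 1) -
      PowerSeries.C (g.coeff d) * ((PowerSeries.C a * PowerSeries.X ^ k) ^ d 0 * w' ^ d 1) =
      PowerSeries.C (g.coeff d) * ((PowerSeries.C a * PowerSeries.X ^ k) ^ d 0 *
        (w ^ d 1 - w' ^ d 1)) := by ring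
  rw [e2]
  refine Dvd.dvd.mul_left ?_ _
  rcases Nat.eq_zero_or_pos (d 1) with h0 | h0
  · rw [h0]
    simp
  · obtain ⟨n, hn⟩ : ∃ n, d 1 = n + 1 := ⟨d 1 - 1, by omega⟩
    have hl := H.low d hds
    rw [hn] at hl
    have hc : ¬ (d 0 = A ∧ n = 0) := by
      rintro ⟨h1, h2⟩
      refine hne (eq_mon h1 ?_)
      rw [hn, h2]
    have h3 := arith1 H.hp H.hk hLt hl hc
    have h1 : PowerSeries.X ^ (k * d 0 + (j + L * n)) ∣
        (PowerSeries.C a * PowerSeries.X ^ k) ^ d 0 * (w ^ d 1 - w' ^ d 1) := by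
      rw [pow_add]
      refine mul_dvd_mul ?_ ?_
      · rw [mul_pow, ← pow_mul]
        exact Dvd.intro_left _ rfl
      · rw [hn]
        exact pow_sub_dvd hw hw' hd n
    exact dvd_trans (pow_dvd_pow _ (by omega)) h1

/-- in terms of coefficients -/
theorem Hg.tri_coeff (H : Hg g p q k L A) (a : ℂ) {w w' : PowerSeries ℂ}
    (hw : ∀ j < L, PowerSeries.coeff j w = 0) (hw' : ∀ j < L, PowerSeries.coeff j w' = 0) {j : ℕ}
    (hd : ∀ i < j, PowerSeries.coeff i w = PowerSeries.coeff i w') :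
    PowerSeries.coeff (k * A + j) (ev g k a w) - PowerSeries.coeff (k * A + j) (ev g k a w') =
      g.coeff (mon A 1) * a ^ A * (PowerSeries.coeff j w - PowerSeries.coeff j w') := by
  have h1 := H.tri a (PowerSeries.X_pow_dvd_iff.2 hw) (PowerSeries.X_pow_dvd_iff.2 hw') (j := j)
    (PowerSeries.X_pow_dvd_iff.2 fun i hi => by rw [map_sub, hd i hi, sub_self])
  have h2 := PowerSeries.X_pow_dvd_iff.1 h1 (k * A + j) (by omega)
  rw [map_sub, map_sub, sub_eq_zero] at h2
  rw [h2, mul_assoc, PowerSeries.coeff_C_mul, PowerSeries.coeff_X_pow_mul', if_pos (by omega),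
    Nat.add_sub_cancel_left, map_sub]

/-- coefficients below are not changed -/
theorem Hg.same (H : Hg g p q k L A) (a : ℂ) {w w' : PowerSeries ℂ}
    (hw : ∀ j < L, PowerSeries.coeff j w = 0) (hw' : ∀ j < L, PowerSeries.coeff j w' = 0) {j : ℕ}
    (hd : ∀ i < j + 1, PowerSeries.coeff i w = PowerSeries.coeff i w') :
    PowerSeries.coeff (k * A + j) (ev g k a w) = PowerSeries.coeff (k * A + j) (ev g k a w') := by
  have h := H.tri_coeff a hw hw' (j := j) fun i hi => hd i (by omega)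
  rw [hd j (by omega), sub_self, mul_zero, sub_eq_zero] at h
  exact h

theorem Hg.uniq (H : Hg g p q k L A) {a : ℂ} (ha : a ≠ 0) {w w' : PowerSeries ℂ}
    (hw : ∀ j < L, PowerSeries.coeff j w = 0) (hw' : ∀ j < L, PowerSeries.coeff j w' = 0) (n : ℕ)
    (h : ∀ j < n, PowerSeries.coeff (k * A + j) (ev g k a w) =
      PowerSeries.coeff (k * A + j) (ev g k a w')) :
    ∀ j < n, PowerSeries.coeff j w = PowerSeries.coeff j w' := by
  intro j
  induction j using Nat.strong_induction_on with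
  | _ j ih =>
    intro hj
    have h1 := H.tri_coeff a hw hw' (j := j) fun i hi => ih i hi (by omega)
    rw [h j hj, sub_self] at h1
    have h2 : g.coeff (mon A 1) * a ^ A ≠ 0 := mul_ne_zero H.c (pow_ne_zero _ ha)
    exact sub_eq_zero.1 ((mul_eq_zero.1 h1.symm).resolve_left h2)

theorem Hg.exist (H : Hg g p q k L A) {a : ℂ} (ha : a ≠ 0) (y : PowerSeries ℂ) (v : ℕ → ℂ)
    (n : ℕ) : ∃ w : PowerSeries ℂ, (∀ j < L, PowerSeries.coeff j w = 0) ∧
      (∀ j, L ≤ j → j < L + n → PowerSeries.coeff (k * A + j) (ev g k a w) = v j) ∧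
      ∀ j, L + n ≤ j → PowerSeries.coeff j w = PowerSeries.coeff j y := by
  induction n with
  | zero =>
    refine ⟨PowerSeries.mk fun j => if j < L then 0 else PowerSeries.coeff j y, ?_, ?_, ?_⟩
    · intro j hj
      rw [PowerSeries.coeff_mk, if_pos hj]
    · intro j h1 h2
      omega
    · intro j hj
      rw [PowerSeries.coeff_mk, if_neg (by omega)]
  | succ n ih =>
    obtain ⟨w, h1, h2, h3⟩ := ih
    have hc : g.coeff (mon A 1) * a ^ A ≠ 0 := mul_ne_zero H.c (pow_ne_zero _ ha)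
    set δ : ℂ := (v (L + n) - PowerSeries.coeff (k * A + (L + n)) (ev g k a w)) /
      (g.coeff (mon A 1) * a ^ A) with hδ
    set w' : PowerSeries ℂ := w + PowerSeries.monomial (L + n) δ with hw'
    have hco : ∀ j, PowerSeries.coeff j w' =
        PowerSeries.coeff j w + if j = L + n then δ else 0 := by
      intro j
      rw [hw', map_add, PowerSeries.coeff_monomial]
    have g1 : ∀ j < L, PowerSeries.coeff j w' = 0 := by
      intro j hj
      rw [hco, h1 j hj, if_neg (by omega), add_zero]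
    refine ⟨w', g1, ?_, ?_⟩
    · intro j hj hj'
      rcases Nat.lt_or_ge j (L + n) with h | h
      · rw [← h2 j hj h]
        refine H.same a g1 h1 fun i hi => ?_
        rw [hco, if_neg (by omega), add_zero]
      · have hjn : j = L + n := by omega
        subst hjn
        have h4 := H.tri_coeff a g1 h1 (j := L + n) fun i hi => by
          rw [hco, if_neg (by omega), add_zero]
        rw [hco, if_pos rfl, add_sub_cancel_left, hδ, mul_div_cancel₀ _ hc] at h4
        linear_combination h4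
    · intro j hj
      rw [hco, if_neg (by omega), add_zero]
      exact h3 j (by omega)

/-! ## The leading coefficient -/

variable {h : P2} {A₂ B : ℕ}

/-- order and leading coefficient of `h` -/
theorem h_lead (hp : 1 ≤ p) (hk : 1 ≤ k) (hL : L = q * k / p + 1) (h2 : Low p q (p * A₂) h)
    (a : ℂ) (w : PowerSeries ℂ) (hw : ∀ j < L, PowerSeries.coeff j w = 0) :
    (∀ n < k * A₂, PowerSeries.coeff n (ev h k a w) = 0) ∧
      PowerSeries.coeff (k * A₂) (ev h k a w) = h.coeff (mon A₂ 0) * a ^ A₂ := by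
  have hLt := lt_L p q k hp
  rw [← hL] at hLt
  have h3 := PL.ev_vertex h k L A₂ 0 a w hw (by
    intro d hd hne
    have hl := h2 d hd
    rcases Nat.eq_zero_or_pos (d 1) with h0 | h0
    · have h4 : A₂ ≤ d 0 := by
        rw [h0] at hl
        exact Nat.le_of_mul_le_mul_left (by simpa using hl) (by omega : 0 < p)
      have h5 : d 0 ≠ A₂ := fun h6 => hne (eq_mon h6 h0)
      have h6 : k * A₂ < k * d 0 := (Nat.mul_lt_mul_left (by omega)).2 (by omega)
      rw [h0]
      simpa using h6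
    · have h4 : p * (k * A₂) < p * (k * d 0 + L * d 1) := by
        have h5 : k * (p * A₂) ≤ k * (p * d 0 + q * d 1) := Nat.mul_le_mul_left _ hl
        have h6 : (q * k) * d 1 < (p * L) * d 1 := (Nat.mul_lt_mul_right h0).2 hLt
        have e1 : p * (k * A₂) = k * (p * A₂) := by ring
        have e2 : p * (k * d 0 + L * d 1) = k * (p * d 0) + (p * L) * d 1 := by ring
        have e3 : k * (p * d 0 + q * d 1) = k * (p * d 0) + (q * k) * d 1 := by ring
        omega
      have := Nat.lt_of_mul_lt_mul_left h4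
      simpa using this)
  simpa using h3

/-- order and leading coefficient of the product -/
theorem prod_lead (H : Hg g p q k L A) (h2 : Low p q (p * A₂) h)
    (a : ℂ) (w : PowerSeries ℂ) (hw : ∀ j < L, PowerSeries.coeff j w = 0) (l : ℕ)
    (hl : ∀ j < k * A + l, PowerSeries.coeff j (ev g k a w) = 0) :
    (∀ n < (B * A + A₂) * k + B * l, PowerSeries.coeff n (ev (g ^ B * h) k a w) = 0) ∧
      PowerSeries.coeff ((B * A + A₂) * k + B * l) (ev (g ^ B * h) k a w) =
        PowerSeries.coeff (k * A + l) (ev g k a w) ^ B * (h.coeff (mon A₂ 0) * a ^ A₂) := by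
  obtain ⟨u, hu⟩ := PowerSeries.X_pow_dvd_iff.2 hl
  obtain ⟨v, hv⟩ := PowerSeries.X_pow_dvd_iff.2 (h_lead H.hp H.hk H.hL h2 a w hw).1
  have hv0 := (h_lead H.hp H.hk H.hL h2 a w hw).2
  have hcu : PowerSeries.coeff (k * A + l) (ev g k a w) = PowerSeries.constantCoeff u := by
    rw [hu, PowerSeries.coeff_X_pow_mul', if_pos le_rfl, Nat.sub_self,
      PowerSeries.coeff_zero_eq_constantCoeff_apply]
  rw [hv, PowerSeries.coeff_X_pow_mul', if_pos le_rfl, Nat.sub_self,
      PowerSeries.coeff_zero_eq_constantCoeff_apply] at hv0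
  have e : ev (g ^ B * h) k a w = PowerSeries.X ^ ((B * A + A₂) * k + B * l) * (u ^ B * v) := by
    have e0 : ev (g ^ B * h) k a w = ev g k a w ^ B * ev h k a w := by
      simp only [ev, map_mul, map_pow]
    rw [e0, hu, hv, mul_pow, ← pow_mul]
    have e1 : (B * A + A₂) * k + B * l = (k * A + l) * B + k * A₂ := by ring
    rw [e1, pow_add]
    ring
  constructor
  · intro n hn
    rw [e, PowerSeries.coeff_X_pow_mul', if_neg (by omega)]
  · rw [e, PowerSeries.coeff_X_pow_mul', if_pos le_rfl, Nat.sub_self,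
      PowerSeries.coeff_zero_eq_constantCoeff_apply, map_mul, map_pow, hv0, hcu]

/-- the arcs with the leading coefficient in `Q` -/
theorem lead_iff {E : Type} {Q : Set (E ⊕ Unit → ℂ)} (hQ : QU Q) (H : Hg g p q k L A)
    (hB : 1 ≤ B) (hc : h.coeff (mon A₂ 0) ≠ 0) (h2 : Low p q (p * A₂) h) {a : ℂ} (ha : a ≠ 0)
    (w : PowerSeries ℂ) (hw : ∀ j < L, PowerSeries.coeff j w = 0) (m : ℕ) (pp : E → ℂ) :
    Lead Q m pp (ev (g ^ B * h) k a w) ↔ ∃ l, L ≤ l ∧ m = (B * A + A₂) * k + B * l ∧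
      (∀ j < l, PowerSeries.coeff (k * A + j) (ev g k a w) = 0) ∧
      (Sum.elim pp fun _ => PowerSeries.coeff (k * A + l) (ev g k a w) ^ B *
        (h.coeff (mon A₂ 0) * a ^ A₂)) ∈ Q := by
  have hdv := PowerSeries.X_pow_dvd_iff.1 (H.dvd a (PowerSeries.X_pow_dvd_iff.2 hw))
  constructor
  · intro hl
    by_cases hz : ev g k a w = 0
    · exfalso
      have e0 : ev (g ^ B * h) k a w = 0 := by
        have e0 : ev (g ^ B * h) k a w = ev g k a w ^ B * ev h k a w := by
          simp only [ev, map_mul, map_pow]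
        rw [e0, hz, zero_pow (by omega), zero_mul]
      rw [e0] at hl
      exact hQ.2 _ hl.2 (by simp)
    · -- the order of `g`
      obtain ⟨n, hn⟩ : ∃ n, PowerSeries.coeff n (ev g k a w) ≠ 0 := by
        by_contra hcon
        push Not at hcon
        exact hz (PowerSeries.ext fun n => by rw [hcon n, map_zero])
      classical
      have hex : ∃ n, PowerSeries.coeff n (ev g k a w) ≠ 0 := ⟨n, hn⟩
      set n0 := Nat.find hex with hn0
      have hf : PowerSeries.coeff n0 (ev g k a w) ≠ 0 := Nat.find_spec hex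
      have hlt : ∀ i < n0, PowerSeries.coeff i (ev g k a w) = 0 := by
        intro i hi
        by_contra hcon
        exact absurd (Nat.find_min' hex hcon) (by omega)
      have hge : k * A + L ≤ n0 := by
        by_contra hcon
        exact hf (hdv n0 (by omega))
      obtain ⟨l, hl'⟩ : ∃ l, n0 = k * A + l := ⟨n0 - k * A, by omega⟩
      have h5 := prod_lead (B := B) H h2 a w hw l (fun j hj => hlt j (by omega))
      have hne : PowerSeries.coeff ((B * A + A₂) * k + B * l) (ev (g ^ B * h) k a w) ≠ 0 := by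
        rw [h5.2, ← hl']
        exact mul_ne_zero (pow_ne_zero _ hf) (mul_ne_zero hc (pow_ne_zero _ ha))
      obtain ⟨h6, h7⟩ := (PL.lead_of_ord hQ h5.1 hne m).1 hl
      refine ⟨l, by omega, h6, fun j hj => hlt _ (by omega), ?_⟩
      rw [h5.2] at h7
      exact h7
  · rintro ⟨l, hLl, rfl, h3, h4⟩
    have h5 := prod_lead (B := B) H h2 a w hw l (fun j hj => by
      rcases Nat.lt_or_ge j (k * A) with h6 | h6
      · exact hdv j (by omega)
      · obtain ⟨i, rfl⟩ := Nat.exists_eq_add_of_le h6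
        exact h3 i (by omega))
    refine ⟨h5.1, ?_⟩
    rw [h5.2]
    exact h4

/-! ## Volumes -/

variable {E : Type} [Finite E]

/-- the additional parameter -/
def rr (E : Type) : E ⊕ Unit → E ⊕ Fin 2 := Sum.elim Sum.inl fun _ => Sum.inr 0

/-- the set in `c2` -/
def R2 (u : P2) (Q : Set (E ⊕ Unit → ℂ)) : Set (E ⊕ Fin 2 → ℂ) :=
  {z : E ⊕ Fin 2 → ℂ | z (Sum.inr 0) ≠ 0 ∧ z (Sum.inr 1) ≠ 0 ∧
    (Sum.elim (fun e => z (Sum.inl e)) fun _ => eval (fun i => z (Sum.inr i)) u) ∈ Q}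

theorem con_R2 (u : P2) {Q : Set (E ⊕ Unit → ℂ)} (hQ : Constructible Q) :
    Constructible (R2 u Q) := by
  have h1 : Constructible {z : E ⊕ Fin 2 → ℂ |
      (Sum.elim (fun e => z (Sum.inl e)) fun _ => eval (fun i => z (Sum.inr i)) u) ∈ Q} := by
    have h := Constructible.preimage (fun j : E ⊕ Unit => Sum.elim (fun e => (X (Sum.inl e) :
      MvPolynomial (E ⊕ Fin 2) ℂ)) (fun _ => rename Sum.inr u) j) hQ
    convert h using 1
    ext z
    have e : (Sum.elim (fun e => z (Sum.inl e)) fun _ => eval (fun i => z (Sum.inr i)) u) =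
        fun j : E ⊕ Unit => eval z (Sum.elim (fun e => (X (Sum.inl e) :
          MvPolynomial (E ⊕ Fin 2) ℂ)) (fun _ => rename Sum.inr u) j) := by
      funext j
      rcases j with j | j
      · simp
      · simp only [Sum.elim_inr, eval_rename]
        rfl
    simp only [Set.mem_ofPred_eq]
    rw [e]
  have h2 := TS.TKAux.cne (X (Sum.inr 0) : MvPolynomial (E ⊕ Fin 2) ℂ)
  have h3 := TS.TKAux.cne (X (Sum.inr 1) : MvPolynomial (E ⊕ Fin 2) ℂ)
  simp only [eval_X] at h2 h3
  exact TS.TKAux.cand h2 (TS.TKAux.cand h3 h1)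

/-- the unit -/
noncomputable def uu (g h : P2) (A A₂ B : ℕ) : P2 :=
  C (g.coeff (mon A 1) ^ B * h.coeff (mon A₂ 0)) * X 0 ^ (B * A + A₂) * X 1 ^ B

theorem eval_uu (g h : P2) (A A₂ B : ℕ) (a b : ℂ) (z : Fin 2 → ℂ) (h0 : z 0 = a) (h1 : z 1 = b) :
    eval z (uu g h A A₂ B) = (g.coeff (mon A 1) * a ^ A * b) ^ B *
      (h.coeff (mon A₂ 0) * a ^ A₂) := by
  rw [uu]
  simp only [map_mul, map_pow, eval_C, eval_X, h0, h1]
  rw [mul_pow, mul_pow, ← pow_mul, mul_comm A B, pow_add]
  ring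

/-- the graph -/
def Gr (g h : P2) (Q : Set (E ⊕ Unit → ℂ)) (k L m A B l : ℕ) :
    Set ((E ⊕ Fin 2 → ℂ) × (Unit → PowerSeries ℂ)) :=
  {z | ((fun e => z.1 (rr E e)), z.2) ∈ NS (g ^ B * h) Q k L m ∧
    g.coeff (mon A 1) * z.1 (Sum.inr 0) ^ A * z.1 (Sum.inr 1) =
      PowerSeries.coeff (k * A + l) (ev g k (z.1 (Sum.inr 0)) (z.2 ()))}

theorem cy_Gr (g h : P2) {Q : Set (E ⊕ Unit → ℂ)} (hQ : Constructible Q) (k L m A B l : ℕ) :
    Cy (Gr g h Q k L m A B l) := by
  refine Cy.and ?_ ?_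
  · exact Cy.pull (PL.cy_NS (g ^ B * h) hQ k L m) (φ := fun s z => z.1 (rr E s))
      (fun s => RF.par _) id
  · refine Cy.eq ?_ (PL.RF.ev g k (Sum.inr 0) () (k * A + l))
    have h1 : RF fun z : (E ⊕ Fin 2 → ℂ) × (Unit → PowerSeries ℂ) =>
        MvPolynomial.eval (fun s => z.1 s)
          (C (g.coeff (mon A 1)) * X (Sum.inr 0) ^ A * X (Sum.inr 1) :
            MvPolynomial (E ⊕ Fin 2) ℂ) := RF.eval (fun s => RF.par s) _
    simpa only [map_mul, map_pow, eval_C, eval_X] using h1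

/-- arcs `0` up to the level `l` over the set in `c2` -/
def TT (u : P2) (Q : Set (E ⊕ Unit → ℂ)) (l : ℕ) :
    Set ((E ⊕ Fin 2 → ℂ) × (Unit → PowerSeries ℂ)) :=
  {z | (∀ j < l + 1, PowerSeries.coeff j (z.2 ()) = 0) ∧ z.1 ∈ R2 u Q}

theorem cy_TT (u : P2) {Q : Set (E ⊕ Unit → ℂ)} (hQ : Constructible Q) (l : ℕ) :
    Cy (TT u Q l) :=
  Cy.and (Cy.all_lt (l + 1) fun j _ => Cy.zero (RF.arc () j)) (Cy.param (con_R2 u hQ))

theorem vol_NS_Gr (P : HodgeMeasure) {Q : Set (E ⊕ Unit → ℂ)} (hQ : QU Q)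
    (H : Hg g p q k L A) (m l : ℕ) :
    vol P.rat xq (Gr g h Q k L m A B l) = vol P.rat xq (NS (g ^ B * h) Q k L m) := by
  refine vol_base P (cy_Gr g h hQ.1 k L m A B l) (PL.cy_NS _ hQ.1 k L m) (rr E) ?_ ?_ ?_
  · intro z hz
    exact hz.1
  · rintro z ⟨⟨ha, -⟩, h2⟩ z' ⟨-, h2'⟩ h3 h4
    have e0 : z.1 (Sum.inr 0) = z'.1 (Sum.inr 0) := congrFun h3 (Sum.inr ())
    have ha' : z.1 (Sum.inr 0) ≠ 0 := ha
    rw [← h4, ← e0] at h2'
    funext s
    rcases s with s | s
    · exact congrFun h3 (Sum.inl s)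
    · fin_cases s
      · exact e0
      · have h5 : g.coeff (mon A 1) * z.1 (Sum.inr 0) ^ A * z.1 (Sum.inr 1) =
            g.coeff (mon A 1) * z.1 (Sum.inr 0) ^ A * z'.1 (Sum.inr 1) := by
          rw [h2, h2']
        exact mul_left_cancel₀ (mul_ne_zero H.c (pow_ne_zero _ ha')) h5
  · intro z hz
    have ha : z.1 (Sum.inr ()) ≠ 0 := hz.1
    refine ⟨Sum.elim (fun e => z.1 (Sum.inl e)) ![z.1 (Sum.inr ()),
      PowerSeries.coeff (k * A + l) (ev g k (z.1 (Sum.inr ())) (z.2 ())) /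
        (g.coeff (mon A 1) * z.1 (Sum.inr ()) ^ A)], ?_, ?_, ?_⟩
    · funext e
      rcases e with e | e
      · rfl
      · rfl
    · have e1 : (fun e => (Sum.elim (fun e => z.1 (Sum.inl e)) ![z.1 (Sum.inr ()),
          PowerSeries.coeff (k * A + l) (ev g k (z.1 (Sum.inr ())) (z.2 ())) /
          (g.coeff (mon A 1) * z.1 (Sum.inr ()) ^ A)] : E ⊕ Fin 2 → ℂ) (rr E e)) = z.1 := by
        funext e
        rcases e with e | e
        · rfl
        · rfl
      change ((fun e => (Sum.elim (fun e => z.1 (Sum.inl e)) ![z.1 (Sum.inr ()),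
          PowerSeries.coeff (k * A + l) (ev g k (z.1 (Sum.inr ())) (z.2 ())) /
          (g.coeff (mon A 1) * z.1 (Sum.inr ()) ^ A)] : E ⊕ Fin 2 → ℂ) (rr E e)), z.2) ∈ _
      rw [e1]
      exact hz
    · have hc := mul_ne_zero H.c (pow_ne_zero A ha)
      simp only [Sum.elim_inr, Matrix.cons_val_zero, Matrix.cons_val_one]
      rw [mul_div_cancel₀ _ hc]

theorem vol_Gr_TT (P : HodgeMeasure) {Q : Set (E ⊕ Unit → ℂ)} (hQ : QU Q)
    (H : Hg g p q k L A) (hB : 1 ≤ B) (hc : h.coeff (mon A₂ 0) ≠ 0) (h2 : Low p q (p * A₂) h)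
    (l m : ℕ) (hl : L ≤ l) (hm : m = (B * A + A₂) * k + B * l) :
    vol P.rat xq (Gr g h Q k L m A B l) = vol P.rat xq (TT (uu g h A A₂ B) Q l) := by
  obtain ⟨N1, hN1⟩ := cy_Gr g h hQ.1 k L m A B l
  obtain ⟨N2, hN2⟩ := cy_TT (uu g h A A₂ B) hQ.1 l
  set N := max N1 N2 with hN
  have key := CV.vol_cv P (K := fun _ : Unit => N) (K' := fun _ : Unit => N)
    (hN2 N (le_max_right _ _)) (hN1 N (le_max_left _ _))
    (fun _ x _ => PowerSeries.mk fun j => if j ≤ l then 0 else PowerSeries.coeff j (x ()))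
    (fun s => if (s.2 : ℕ) ≤ l then 0 else X (Sum.inr s)) ?_ ?_ ?_ ?_
  · have hx : (xq : K) ^ (∑ _ : Unit, N) ≠ 0 := pow_ne_zero _ (inv_ne_zero RatFunc.X_ne_zero)
    exact (mul_right_cancel₀ hx key).symm
  · intro pp x _ s
    simp only [PowerSeries.coeff_mk]
    split_ifs with h
    · simp
    · rw [eval_X]
      rfl
  · rintro pp x ⟨⟨ha, hw, hlead⟩, h4⟩
    have ha' : pp (Sum.inr 0) ≠ 0 := ha
    refine ⟨fun j hj => ?_, ?_⟩
    · simp only [PowerSeries.coeff_mk]
      rw [if_pos (by omega)]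
    · obtain ⟨l', hl', hm', h5, h6⟩ := (lead_iff hQ H hB hc h2 ha' (x ()) hw m _).1 hlead
      have hll : l = l' := by
        have : B * l = B * l' := by omega
        exact Nat.eq_of_mul_eq_mul_left (by omega) this
      subst hll
      have h7 := hQ.2 _ h6
      have h4' : g.coeff (mon A 1) * pp (Sum.inr 0) ^ A * pp (Sum.inr 1) =
        PowerSeries.coeff (k * A + l) (ev g k (pp (Sum.inr 0)) (x ())) := h4
      rw [← h4'] at h6 h7
      refine ⟨ha', ?_, ?_⟩
      · intro h8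
        have h8' : pp (Sum.inr 1) = 0 := h8
        apply h7
        simp only [Sum.elim_inr]
        rw [h8', mul_zero, zero_pow (by omega), zero_mul]
      · rw [eval_uu g h A A₂ B (pp (Sum.inr 0)) (pp (Sum.inr 1)) _ rfl rfl]
        exact h6
  · rintro pp x x' ⟨⟨ha, hw, hlead⟩, h4⟩ ⟨⟨-, hw', hlead'⟩, h4'⟩ h5
    have ha' : pp (Sum.inr 0) ≠ 0 := ha
    obtain ⟨l1, -, hm1, h6, -⟩ := (lead_iff hQ H hB hc h2 ha' (x ()) hw m _).1 hlead
    obtain ⟨l2, -, hm2, h7, -⟩ := (lead_iff hQ H hB hc h2 ha' (x' ()) hw' m _).1 hlead'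
    have hl1 : l = l1 := Nat.eq_of_mul_eq_mul_left (by omega : 0 < B) (by omega)
    have hl2 : l = l2 := Nat.eq_of_mul_eq_mul_left (by omega : 0 < B) (by omega)
    subst hl1
    subst hl2
    have h8 := H.uniq ha' hw hw' (l + 1) (fun j hj => by
      rcases Nat.lt_or_ge j l with h | h
      · exact (h6 j h).trans (h7 j h).symm
      · have : j = l := by omega
        subst this
        exact h4.symm.trans h4')
    intro i j hj
    rcases Nat.lt_or_ge j (l + 1) with h | h
    · exact h8 j h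
    · have h9 := h5 () j hj
      simp only [PowerSeries.coeff_mk] at h9
      rw [if_neg (by omega), if_neg (by omega)] at h9
      exact h9
  · rintro pp y ⟨hy, ha, hb, hQ'⟩
    obtain ⟨w, h5, h6, h7⟩ := H.exist ha (y ())
      (fun j => if j < l then 0 else g.coeff (mon A 1) * pp (Sum.inr 0) ^ A * pp (Sum.inr 1))
      (l + 1 - L)
    have h6l : PowerSeries.coeff (k * A + l) (ev g k (pp (Sum.inr 0)) w) =
        g.coeff (mon A 1) * pp (Sum.inr 0) ^ A * pp (Sum.inr 1) := by
      rw [h6 l hl (by omega), if_neg (by omega)]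
    have hdv := PowerSeries.X_pow_dvd_iff.1
      (H.dvd (pp (Sum.inr 0)) (PowerSeries.X_pow_dvd_iff.2 h5))
    refine ⟨fun _ => w, ⟨⟨ha, h5, ?_⟩, h6l.symm⟩, ?_⟩
    · refine (lead_iff hQ H hB hc h2 ha w h5 m _).2 ⟨l, hl, hm, ?_, ?_⟩
      · intro j hj
        rcases Nat.lt_or_ge j L with h | h
        · exact hdv _ (by omega)
        · rw [h6 j h (by omega), if_pos hj]
      · have e := eval_uu g h A A₂ B (pp (Sum.inr 0)) (pp (Sum.inr 1))
          (fun i => pp (Sum.inr i)) rfl rfl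
        rw [e] at hQ'
        have e2 : (Sum.elim (fun e => (fun e => pp (rr E e)) (Sum.inl e)) fun _ : Unit =>
            PowerSeries.coeff (k * A + l) (ev g k (pp (Sum.inr 0)) w) ^ B *
              (h.coeff (mon A₂ 0) * pp (Sum.inr 0) ^ A₂)) =
            Sum.elim (fun e => pp (Sum.inl e)) fun _ : Unit =>
              (g.coeff (mon A 1) * pp (Sum.inr 0) ^ A * pp (Sum.inr 1)) ^ B *
                (h.coeff (mon A₂ 0) * pp (Sum.inr 0) ^ A₂) := by
          rw [h6l]
          rfl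
        exact e2 ▸ hQ'
    · intro i j _
      simp only [PowerSeries.coeff_mk]
      split_ifs with h
      · exact (hy j (by omega)).symm
      · exact h7 j (by omega)

end VF1Aux

open VF1Aux in
theorem stmt_VF1 : Stmt_VF1 := by
  intro P g h p q A₁ A₂ B hp hB hg hlow hzero hh hlow2 E _ Q hQ k m hk
  set L := q * k / p + 1 with hL
  have H : Hg g p q k L A₁ := ⟨hp, hk, hL, hg, hlow, hzero⟩
  have hval : ∀ l, L ≤ l → m = (B * A₁ + A₂) * k + B * l →
      vN P (g ^ B * h) Q k L m = xq ^ (l + 1) *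
        c2 P (C (g.coeff (mon A₁ 1) ^ B * h.coeff (mon A₂ 0)) *
              X 0 ^ (B * A₁ + A₂) * X 1 ^ B) Q := by
    intro l hl hm
    rw [vN, ← vol_NS_Gr (B := B) (h := h) P hQ H m l, vol_Gr_TT P hQ H hB hh hlow2 l m hl hm]
    exact PL.vol_pl0 P (con_R2 _ hQ.1) (l + 1)
  by_cases hex : ∃ l, L ≤ l ∧ m = (B * A₁ + A₂) * k + B * l
  · obtain ⟨l, hl, hm⟩ := hex
    rw [hval l hl hm, Finset.sum_eq_single_of_mem l]
    · rw [if_pos hm]
    · rw [Finset.mem_Ioc]
      have h9 : l ≤ B * l := Nat.le_mul_of_pos_left _ (by omega)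
      have h10 : q * k / p + 1 ≤ l := hl
      generalize q * k / p = t at h10
      constructor
      · omega
      · omega
    · intro l' _ hne
      rw [if_neg]
      intro hm'
      exact hne (Nat.eq_of_mul_eq_mul_left (by omega : 0 < B) (by omega))
  · rw [Finset.sum_eq_zero]
    · rw [vN]
      have e : NS (g ^ B * h) Q k L m = ∅ := by
        ext z
        simp only [Set.mem_empty_iff_false, iff_false]
        rintro ⟨ha, hw, hlead⟩
        obtain ⟨l, hl, hm, -⟩ := (lead_iff hQ H hB hh hlow2 ha (z.2 ()) hw m _).1 hlead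
        exact hex ⟨l, hl, hm⟩
      rw [e]
      exact vol_empty P.rat (VAAux.L_mul P)
    · intro l hl
      rw [if_neg]
      intro hm
      exact hex ⟨l, by have := Finset.mem_Ioc.1 hl; omega, hm⟩

end Pool.Agent.Mono.PC
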