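import Pool.Agent.Work.Monodromy.Interface6V
import Pool.Agent.Work.Monodromy5.VGC

/-!
# Block VGL: gluing of the distributions over a finite partition of the base points
-/

set_option autoImplicit false

namespace Pool.Agent.Mono.PC

open MvPolynomial TS RO VGAux

theorem VGLAux.Cy_SDz {E ι : Type} [Finite E] [Fintype ι] (f : MvPolynomial ι ℂ)
    {Z : Set (ι → ℂ)} (hZ : Constructible Z) (w : Bool) {Q : Set (E ⊕ Bool → ℂ)}
    (hQ : Constructible Q) (i : ℕ) : Cy (SDz f Z w Q i) :=
  Cy.and (Cy.SD f w hQ i) (Cy.mem hZ (φ := fun a z => PowerSeries.coeff 0 (z.2 a))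
    fun a => RF.arc a 0)

theorem stmt_VGL : Stmt_VGL := by
  intro P ι _ f w n Z Gs hZ hdis hcov hG
  refine ⟨?_, ?_⟩
  · intro G hGm
    rw [List.mem_flatten] at hGm
    obtain ⟨l, hl, hGl⟩ := hGm
    rw [List.mem_ofFn] at hl
    obtain ⟨j, rfl⟩ := hl
    exact (hG j).1 G hGl
  · intro E _ Q hQ i hi
    have h1 : SD f w Q i = ⋃ j ∈ (Finset.univ : Finset (Fin n)), SDz f (Z j) w Q i := by
      ext z
      simp only [Set.mem_iUnion, Finset.mem_univ, exists_const]
      constructor
      · intro hz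
        obtain ⟨j, hj⟩ := hcov (fun a => PowerSeries.coeff 0 (z.2 a))
        exact ⟨j, hz, hj⟩
      · rintro ⟨j, hz, -⟩
        exact hz
    rw [h1, vol_biU P Finset.univ (fun j _ => VGLAux.Cy_SDz f (hZ j) w hQ.1 i)
      (fun a _ b _ hab => by
        rw [Set.disjoint_left]
        intro z hz hz'
        exact Set.disjoint_left.mp (hdis a b hab) hz.2 hz'.2)]
    rw [Finset.sum_congr rfl (fun j _ => (hG j).2 E Q hQ i hi), List.map_flatten, List.sum_flatten,
      List.map_ofFn, List.map_ofFn, List.sum_ofFn]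
    rfl

end Pool.Agent.Mono.PC
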