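import Pool.Agent.Work.Monodromy6.SCD

/-!
# Functionals which are given by families (helper61)
-/

set_option autoImplicit false
set_option linter.unusedSectionVars false
set_option linter.unusedVariables false

namespace Pool.Agent.Mono.PC

open MvPolynomial TS RO

/-- `Φ` is given by a Haar part and families with exponents in `Λ` -/
def Rep (P : HodgeMeasure) (Λ : Set ℚ)
    (Φ : ∀ (E : Type) [Finite E], Set (E ⊕ Unit → ℂ) → ℕ → K) : Prop :=
  ∃ (α : K) (ts : List Fam), (∀ t ∈ ts, t.Good ∧ ESeq Λ t.κ) ∧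
    ∀ (E : Type) [Finite E] (Q : Set (E ⊕ Unit → ℂ)), QU Q → ∀ m : ℕ, 1 ≤ m →
      Φ E Q m = ((haar α :: ts).map fun t => t.κ m * fcl P t Q).sum

namespace REP

variable {P : HodgeMeasure} {Λ : Set ℚ}
  {Φ Ψ : ∀ (E : Type) [Finite E], Set (E ⊕ Unit → ℂ) → ℕ → K}

theorem congr (h : Rep P Λ Φ) (h' : ∀ (E : Type) [Finite E] (Q : Set (E ⊕ Unit → ℂ)), QU Q →
    ∀ m : ℕ, 1 ≤ m → Ψ E Q m = Φ E Q m) : Rep P Λ Ψ := by
  obtain ⟨α, ts, h1, h2⟩ := h
  exact ⟨α, ts, h1, fun E _ Q hQ m hm => (h' E Q hQ m hm).trans (h2 E Q hQ m hm)⟩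

theorem mono {Λ' : Set ℚ} (hΛ : Λ ⊆ Λ') (h : Rep P Λ Φ) : Rep P Λ' Φ := by
  obtain ⟨α, ts, h1, h2⟩ := h
  obtain ⟨q1, -⟩ := stmt_Q1
  exact ⟨α, ts, fun t ht => ⟨(h1 t ht).1, q1 _ _ _ hΛ (h1 t ht).2⟩, h2⟩

theorem add (h : Rep P Λ Φ) (h' : Rep P Λ Ψ) :
    Rep P Λ fun E _ Q m => Φ E Q m + Ψ E Q m := by
  obtain ⟨α, ts, h1, h2⟩ := h
  obtain ⟨β, us, h3, h4⟩ := h'
  refine ⟨α + β, ts ++ us, ?_, ?_⟩
  · intro t ht
    rcases List.mem_append.1 ht with ht | ht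
    · exact h1 t ht
    · exact h3 t ht
  · intro E _ Q hQ m hm
    beta_reduce
    rw [h2 E Q hQ m hm, h4 E Q hQ m hm]
    simp only [List.map_cons, List.sum_cons, List.map_append, List.sum_append]
    rw [SCD.fcl_haar P α 1, SCD.fcl_haar P β 1, SCD.fcl_haar P (α + β) 1]
    simp only [haar]
    ring

/-- the family with the sequence multiplied by `c` -/
noncomputable def scal (c : K) (t : Fam) : Fam where
  σ := t.σ
  fin := t.fin
  S := t.S
  u := t.u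
  κ := fun m => c * t.κ m

theorem smul (c : K) (h : Rep P Λ Φ) : Rep P Λ fun E _ Q m => c * Φ E Q m := by
  obtain ⟨α, ts, h1, h2⟩ := h
  obtain ⟨-, -, q3, -⟩ := stmt_Q1
  refine ⟨c * α, ts.map (scal c), ?_, ?_⟩
  · intro t ht
    obtain ⟨t', ht', rfl⟩ := List.mem_map.1 ht
    exact ⟨(h1 t' ht').1, q3 _ _ _ (h1 t' ht').2⟩
  · intro E _ Q hQ m hm
    beta_reduce
    rw [h2 E Q hQ m hm]
    simp only [List.map_cons, List.sum_cons, List.map_map]
    rw [SCD.fcl_haar P α 1, SCD.fcl_haar P (c * α) 1, mul_add, ← List.sum_map_mul_left]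
    congr 1
    · simp only [haar]
      ring
    · congr 1
      refine List.map_congr_left fun t _ => ?_
      change c * (t.κ m * fcl P t Q) = (c * t.κ m) * fcl P t Q
      ring

theorem zero : Rep P Λ fun _ _ _ _ => 0 := by
  refine ⟨0, [], by simp, ?_⟩
  intro E _ Q _ m _
  simp [haar]

theorem fam (t : Fam) (h1 : t.Good) (h2 : ESeq Λ t.κ) :
    Rep P Λ fun E _ Q m => t.κ m * fcl P t Q := by
  refine ⟨0, [t], ?_, ?_⟩
  · intro t' ht'
    rw [List.mem_singleton] at ht'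
    subst ht'
    exact ⟨h1, h2⟩
  · intro E _ Q _ m _
    simp [haar]

theorem haar' (α : K) : Rep P Λ fun E _ Q m => (haar α).κ m * fcl P (haar α) Q := by
  refine ⟨α, [], by simp, ?_⟩
  intro E _ Q _ m _
  simp

theorem sum {ι : Type*} (s : Finset ι)
    {F : ι → ∀ (E : Type) [Finite E], Set (E ⊕ Unit → ℂ) → ℕ → K}
    (h : ∀ i ∈ s, Rep P Λ (F i)) : Rep P Λ fun E _ Q m => ∑ i ∈ s, F i E Q m := by
  classical
  induction s using Finset.induction_on with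
  | empty =>
    refine congr zero ?_
    intro E _ Q _ m _
    simp
  | insert a s ha ih =>
    refine congr (add (h a (Finset.mem_insert_self a s))
      (ih fun i hi => h i (Finset.mem_insert_of_mem hi))) ?_
    intro E _ Q _ m _
    rw [Finset.sum_insert ha]

/-- the families `(a, b)` -/
theorem fam2 (u : P2) (κ : ℕ → K) (hκ : ESeq Λ κ) :
    Rep P Λ fun E _ Q m => κ m * c2 P u Q := by
  refine congr (fam (SCD.fam2 u κ) (SCD.fam2_good u κ) hκ) ?_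
  intro E _ Q hQ m _
  rw [SCD.fcl_fam2 P u κ hQ]
  rfl

/-- a resolved region -/
theorem re {G : P2} {ν p q : ℕ} (h : RE P Λ G ν p q none) : ∃ C₀ : ℕ, ∀ D : ℕ, C₀ ≤ D →
    Rep P Λ fun E _ Q m => ∑ k ∈ Finset.Icc 1 (D * m),
      xq ^ (ν * k) * vN P G Q k (q * k / p + 1) m := by
  obtain ⟨α, ts, C₀, h1, h2⟩ := h
  refine ⟨C₀, fun D hD => ⟨α, ts, h1, ?_⟩⟩
  intro E _ Q hQ m hm
  beta_reduce
  rw [h2 E Q hQ m (D * m) hm (Nat.mul_le_mul_right _ hD)]
  simp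

/-- a region resolved up to the first cone -/
theorem re' {G : P2} {ν p q : ℕ} {c : ℂ} {A B p' q' : ℕ}
    (h : RE P Λ G ν p q (some (c, A, B, p', q'))) : ∃ C₀ : ℕ, ∀ D : ℕ, C₀ ≤ D →
    Rep P Λ fun E _ Q m => (∑ k ∈ Finset.Icc 1 (D * m),
      xq ^ (ν * k) * vN P G Q k (q * k / p + 1) m) -
        xq * coneS ν p q A B p' q' m * c2 P (C c * X 0 ^ A * X 1 ^ B) Q := by
  obtain ⟨α, ts, C₀, h1, h2⟩ := h
  refine ⟨C₀, fun D hD => ⟨α, ts, h1, ?_⟩⟩
  intro E _ Q hQ m hm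
  beta_reduce
  rw [h2 E Q hQ m (D * m) hm (Nat.mul_le_mul_right _ hD)]
  simp

end REP

end Pool.Agent.Mono.PC
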