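import Pool.Agent.Work.Monodromy6.SCD

/-!
# Block VRE: the recursion, exact part (helper30)
-/

set_option autoImplicit false

namespace Pool.Agent.Mono.PC

open MvPolynomial TS RO

namespace VRE_

/-! ## Distributions given by families -/

/-- `F` is given by a Haar part and families with exponents in `Λ` -/
def HasT (P : HodgeMeasure) (Λ : Set ℚ)
    (F : (E : Type) → [Finite E] → Set (E ⊕ Unit → ℂ) → ℕ → K) : Prop :=
  ∃ (α : K) (ts : List Fam), (∀ t ∈ ts, t.Good ∧ ESeq Λ t.κ) ∧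
    ∀ (E : Type) [Finite E] (Q : Set (E ⊕ Unit → ℂ)), QU Q → ∀ m : ℕ, 1 ≤ m →
      F E Q m = ((haar α :: ts).map fun t => t.κ m * fcl P t Q).sum

theorem haar_term (P : HodgeMeasure) (α : K) {E : Type} [Finite E] (Q : Set (E ⊕ Unit → ℂ))
    (m : ℕ) : (haar α).κ m * fcl P (haar α) Q = α * xq ^ m * fcl P (haar 1) Q := rfl

theorem HasT.add {P : HodgeMeasure} {Λ : Set ℚ}
    {F G : (E : Type) → [Finite E] → Set (E ⊕ Unit → ℂ) → ℕ → K} (hF : HasT P Λ F)
    (hG : HasT P Λ G) : HasT P Λ (fun E _ Q m => F E Q m + G E Q m) := by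
  obtain ⟨α, ts, h1, h2⟩ := hF
  obtain ⟨β, ss, g1, g2⟩ := hG
  refine ⟨α + β, ts ++ ss, ?_, ?_⟩
  · intro t ht
    rcases List.mem_append.1 ht with h | h
    · exact h1 t h
    · exact g1 t h
  · intro E _ Q hQ m hm
    change F E Q m + G E Q m = _
    rw [h2 E Q hQ m hm, g2 E Q hQ m hm]
    simp only [List.map_cons, List.sum_cons, List.map_append, List.sum_append]
    rw [haar_term, haar_term, haar_term]
    ring

theorem HasT.zero (P : HodgeMeasure) (Λ : Set ℚ) : HasT P Λ (fun _ _ _ _ => 0) := by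
  refine ⟨0, [], by simp, ?_⟩
  intro E _ Q hQ m hm
  simp only [List.map_cons, List.sum_cons, List.map_nil, List.sum_nil]
  rw [haar_term]
  ring

theorem HasT.single {P : HodgeMeasure} {Λ : Set ℚ} (t : Fam) (h1 : t.Good) (h2 : ESeq Λ t.κ) :
    HasT P Λ (fun _ _ Q m => t.κ m * fcl P t Q) := by
  refine ⟨0, [t], ?_, ?_⟩
  · intro s hs
    rw [List.mem_singleton] at hs
    subst hs
    exact ⟨h1, h2⟩
  · intro E _ Q hQ m hm
    simp only [List.map_cons, List.sum_cons, List.map_nil, List.sum_nil]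
    rw [haar_term]
    ring

theorem HasT.haar (P : HodgeMeasure) (Λ : Set ℚ) (α : K) :
    HasT P Λ (fun _ _ Q m => α * xq ^ m * fcl P (haar 1) Q) := by
  refine ⟨α, [], by simp, ?_⟩
  intro E _ Q hQ m hm
  simp only [List.map_cons, List.sum_cons, List.map_nil, List.sum_nil]
  rw [haar_term]
  ring

theorem HasT.congr {P : HodgeMeasure} {Λ : Set ℚ}
    {F G : (E : Type) → [Finite E] → Set (E ⊕ Unit → ℂ) → ℕ → K} (hF : HasT P Λ F)
    (h : ∀ (E : Type) [Finite E] (Q : Set (E ⊕ Unit → ℂ)), QU Q → ∀ m : ℕ, 1 ≤ m →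
      G E Q m = F E Q m) : HasT P Λ G := by
  obtain ⟨α, ts, h1, h2⟩ := hF
  refine ⟨α, ts, h1, ?_⟩
  intro E _ Q hQ m hm
  rw [h E Q hQ m hm, h2 E Q hQ m hm]

theorem HasT.sum {P : HodgeMeasure} {Λ : Set ℚ} {α : Type} (s : Finset α)
    (F : α → (E : Type) → [Finite E] → Set (E ⊕ Unit → ℂ) → ℕ → K)
    (hF : ∀ a ∈ s, HasT P Λ (F a)) : HasT P Λ (fun E _ Q m => ∑ a ∈ s, F a E Q m) := by
  classical
  induction s using Finset.induction_on with
  | empty => simpa using HasT.zero P Λ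
  | insert a s ha ih =>
    refine ((hF a (Finset.mem_insert_self a s)).add
      (ih fun b hb => hF b (Finset.mem_insert_of_mem hb))).congr ?_
    intro E _ Q _ m _
    exact Finset.sum_insert ha

/-- the term of the last cone -/
noncomputable def mainT (P : HodgeMeasure) (ν p q : ℕ) (o : Option (ℂ × ℕ × ℕ × ℕ × ℕ)) {E : Type}
    [Finite E] (Q : Set (E ⊕ Unit → ℂ)) (m : ℕ) : K :=
  match o with
  | none => 0
  | some (c, A, B, p', q') => xq * coneS ν p q A B p' q' m * c2 P (C c * X 0 ^ A * X 1 ^ B) Q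

/-- the recursion in terms of `HasT` -/
def RE' (P : HodgeMeasure) (Λ : Set ℚ) (G : P2) (ν p q : ℕ)
    (o : Option (ℂ × ℕ × ℕ × ℕ × ℕ)) : Prop :=
  ∃ F : (E : Type) → [Finite E] → Set (E ⊕ Unit → ℂ) → ℕ → K, HasT P Λ F ∧ ∃ C₀ : ℕ,
    ∀ (E : Type) [Finite E] (Q : Set (E ⊕ Unit → ℂ)), QU Q → ∀ m N : ℕ, 1 ≤ m → C₀ * m ≤ N →
      ∑ k ∈ Finset.Icc 1 N, xq ^ (ν * k) * vN P G Q k (q * k / p + 1) m =
        mainT P ν p q o Q m + F E Q m

theorem re_of {P : HodgeMeasure} {Λ : Set ℚ} {G : P2} {ν p q : ℕ}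
    {o : Option (ℂ × ℕ × ℕ × ℕ × ℕ)} (h : RE' P Λ G ν p q o) : RE P Λ G ν p q o := by
  obtain ⟨F, ⟨α, ts, h1, h2⟩, C₀, h⟩ := h
  refine ⟨α, ts, C₀, h1, ?_⟩
  intro E _ Q hQ m N hm hN
  have h3 := h E Q hQ m N hm hN
  rw [h2 E Q hQ m hm] at h3
  rcases o with _ | ⟨c, A, B, p', q'⟩ <;> exact h3

/-! ## Sums -/

theorem pick (N₀ m M : ℕ) (hN : 1 ≤ N₀) (hm : 1 ≤ m) (hM : m ≤ M) (g : ℕ → K) :
    ∑ k ∈ Finset.Icc 1 M, (if m = N₀ * k then g k else 0) =
      if N₀ ∣ m then g (m / N₀) else 0 := by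
  classical
  split_ifs with h
  · obtain ⟨a, rfl⟩ := h
    have ha : N₀ * a / N₀ = a := Nat.mul_div_cancel_left a (by omega)
    rw [ha]
    have ha1 : 1 ≤ a := by
      rcases Nat.eq_zero_or_pos a with h | h
      · subst h; simp at hm
      · exact h
    have ha2 : a ≤ M := le_trans (Nat.le_mul_of_pos_left a hN) hM
    rw [Finset.sum_eq_single a]
    · simp
    · intro b _ hb
      rw [if_neg]
      intro h
      exact hb (Nat.eq_of_mul_eq_mul_left hN h).symm
    · intro h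
      exact absurd (Finset.mem_Icc.2 ⟨ha1, ha2⟩) h
  · refine Finset.sum_eq_zero ?_
    intro k _
    rw [if_neg]
    rintro rfl
    exact h (dvd_mul_right _ _)

theorem sum_dvd (p N : ℕ) (hp : 1 ≤ p) (F : ℕ → K) :
    ∑ k ∈ Finset.Icc 1 N, (if p ∣ k then F (k / p) else 0) = ∑ k ∈ Finset.Icc 1 (N / p), F k := by
  classical
  rw [← Finset.sum_filter]
  refine Finset.sum_nbij' (fun k => k / p) (fun k => p * k) ?_ ?_ ?_ ?_ ?_
  · intro k hk
    rw [Finset.mem_filter, Finset.mem_Icc] at hk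
    obtain ⟨⟨h1, h2⟩, a, rfl⟩ := hk
    rw [Finset.mem_Icc, Nat.mul_div_cancel_left a (by omega)]
    refine ⟨?_, ?_⟩
    · rcases Nat.eq_zero_or_pos a with h | h
      · subst h; simp at h1
      · exact h
    · rw [Nat.le_div_iff_mul_le hp, Nat.mul_comm]
      exact h2
  · intro k hk
    rw [Finset.mem_Icc] at hk
    rw [Finset.mem_filter, Finset.mem_Icc]
    refine ⟨⟨Nat.mul_pos hp hk.1, ?_⟩, dvd_mul_right _ _⟩
    have h := (Nat.le_div_iff_mul_le hp).1 hk.2
    rw [Nat.mul_comm]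
    exact h
  · intro k hk
    rw [Finset.mem_filter] at hk
    exact Nat.mul_div_cancel' hk.2
  · intro k _
    exact Nat.mul_div_cancel_left k (by omega)
  · intro k _
    rfl

theorem cone_sum (hSB : Stmt_SB) (ν p q A B p' q' m N : ℕ) (hpp : q * p' < q' * p)
    (h1 : 1 ≤ p * A + q * B) (h2 : 1 ≤ p' * A + q' * B) (hN : (p + p') * m ≤ N) (I : ℕ → Finset ℕ)
    (hI : ∀ k, 1 ≤ k → ∀ l, m = A * k + B * l → (l ∈ I k ↔ q * k < p * l ∧ p' * l < q' * k))
    (c : K) :
    ∑ k ∈ Finset.Icc 1 N, xq ^ (ν * k) * ∑ l ∈ I k,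
      (if m = A * k + B * l then xq ^ (l + 1) * c else 0) = xq * coneS ν p q A B p' q' m * c := by
  classical
  set f : ℕ → ℕ → K := fun k l => if q * k < p * l ∧ p' * l < q' * k ∧ A * k + B * l = m then
    xq ^ (ν * k) * (xq ^ (l + 1) * c) else 0 with hf
  have hf0 : ∀ k l, ¬ (q * k < p * l ∧ p' * l < q' * k ∧ A * k + B * l = m) → f k l = 0 := by
    intro k l h
    simp only [hf]
    rw [if_neg h]
  have hR : xq * coneS ν p q A B p' q' m * c = ∑ k ∈ Finset.range ((p + p') * m + 1),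
      ∑ l ∈ Finset.range ((q + q') * m + 1), f k l := by
    rw [coneS, Finset.mul_sum, Finset.sum_mul]
    refine Finset.sum_congr rfl fun k _ => ?_
    rw [Finset.mul_sum, Finset.sum_mul]
    refine Finset.sum_congr rfl fun l _ => ?_
    simp only [hf]
    split_ifs
    · rw [pow_add, pow_add, pow_one]; ring
    · ring
  have hin : ∀ k, 1 ≤ k → xq ^ (ν * k) * ∑ l ∈ I k,
      (if m = A * k + B * l then xq ^ (l + 1) * c else 0) =
        ∑ l ∈ Finset.range ((q + q') * m + 1), f k l := by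
    intro k hk
    have e1 : xq ^ (ν * k) * ∑ l ∈ I k, (if m = A * k + B * l then xq ^ (l + 1) * c else 0) =
        ∑ l ∈ I k, f k l := by
      rw [Finset.mul_sum]
      refine Finset.sum_congr rfl fun l hl => ?_
      simp only [hf]
      by_cases h : m = A * k + B * l
      · have h3 := (hI k hk l h).1 hl
        rw [if_pos h, if_pos ⟨h3.1, h3.2, h.symm⟩]
      · rw [if_neg h, if_neg (fun h4 => h h4.2.2.symm)]
        ring
    rw [e1]
    have e2 : ∑ l ∈ I k, f k l = ∑ l ∈ I k ∪ Finset.range ((q + q') * m + 1), f k l := by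
      refine Finset.sum_subset Finset.subset_union_left ?_
      intro l _ hl
      refine hf0 k l fun h => hl ?_
      exact (hI k hk l h.2.2.symm).2 ⟨h.1, h.2.1⟩
    have e3 : ∑ l ∈ Finset.range ((q + q') * m + 1), f k l =
        ∑ l ∈ I k ∪ Finset.range ((q + q') * m + 1), f k l := by
      refine Finset.sum_subset Finset.subset_union_right ?_
      intro l _ hl
      refine hf0 k l fun h => hl ?_
      have h3 := (hSB p q A B p' q' m k l hpp h1 h2 h.1 h.2.1 h.2.2).2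
      exact Finset.mem_range.2 (by omega)
    rw [e2, e3]
  rw [hR]
  have e0 : ∑ k ∈ Finset.Icc 1 N, xq ^ (ν * k) * ∑ l ∈ I k,
      (if m = A * k + B * l then xq ^ (l + 1) * c else 0) =
        ∑ k ∈ Finset.Icc 1 N, ∑ l ∈ Finset.range ((q + q') * m + 1), f k l :=
    Finset.sum_congr rfl fun k hk => hin k (Finset.mem_Icc.1 hk).1
  rw [e0]
  have e4 : ∑ k ∈ Finset.Icc 1 N, ∑ l ∈ Finset.range ((q + q') * m + 1), f k l =
      ∑ k ∈ Finset.range (N + 1), ∑ l ∈ Finset.range ((q + q') * m + 1), f k l := by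
    refine Finset.sum_subset ?_ ?_
    · intro k hk
      rw [Finset.mem_Icc] at hk
      exact Finset.mem_range.2 (by omega)
    · intro k hk hk'
      rw [Finset.mem_range] at hk
      rw [Finset.mem_Icc] at hk'
      have hk0 : k = 0 := by omega
      subst hk0
      refine Finset.sum_eq_zero fun l _ => hf0 0 l ?_
      rintro ⟨_, h, _⟩
      simp at h
  have e5 : ∑ k ∈ Finset.range ((p + p') * m + 1), ∑ l ∈ Finset.range ((q + q') * m + 1), f k l =
      ∑ k ∈ Finset.range (N + 1), ∑ l ∈ Finset.range ((q + q') * m + 1), f k l := by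
    refine Finset.sum_subset ?_ ?_
    · intro k hk
      rw [Finset.mem_range] at hk
      exact Finset.mem_range.2 (by omega)
    · intro k _ hk'
      refine Finset.sum_eq_zero fun l _ => hf0 k l ?_
      intro h
      have h3 := (hSB p q A B p' q' m k l hpp h1 h2 h.1 h.2.1 h.2.2).1
      rw [Finset.mem_range] at hk'
      omega
  rw [e4, e5]

/-! ## Classes -/

theorem fcl_mk (P : HodgeMeasure) {E σ : Type} [Finite E] [Finite σ] (S : Set (σ → ℂ))
    (u : MvPolynomial σ ℂ) (κ : ℕ → K) (Q : Set (E ⊕ Unit → ℂ)) {R : Set (E ⊕ σ → ℂ)}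
    (h : ∀ z : E ⊕ σ → ℂ, z ∈ R ↔ (fun s => z (Sum.inr s)) ∈ S ∧
      (Sum.elim (fun e => z (Sum.inl e)) fun _ => eval (fun s => z (Sum.inr s)) u) ∈ Q) :
    fcl P ⟨σ, inferInstance, S, u, κ⟩ Q = P.rat.val R := by
  have e : R = {z : E ⊕ σ → ℂ | (fun s => z (Sum.inr s)) ∈ S ∧
      (Sum.elim (fun e => z (Sum.inl e)) fun _ => eval (fun s => z (Sum.inr s)) u) ∈ Q} := by
    ext z
    exact h z
  rw [e]
  rfl

/-- the family of the last region -/
noncomputable def fam1 (c : ℂ) (A : ℕ) (κ : ℕ → K) : Fam where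
  σ := Unit
  fin := inferInstance
  S := {τ | τ () ≠ 0}
  u := C c * X () ^ A
  κ := κ

theorem fam1_good (c : ℂ) (hc : c ≠ 0) (A : ℕ) (κ : ℕ → K) : (fam1 c A κ).Good := by
  have h1 : Constructible {τ : Unit → ℂ | τ () ≠ 0} := by
    simpa only [eval_X] using Constructible.ne (X () : MvPolynomial Unit ℂ)
  have h2 : ∀ τ : Unit → ℂ, τ () ≠ 0 → eval τ (C c * X () ^ A : MvPolynomial Unit ℂ) ≠ 0 := by
    intro τ h
    simp only [map_mul, map_pow, eval_C, eval_X]
    exact mul_ne_zero hc (pow_ne_zero _ h)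
  exact ⟨h1, h2⟩

theorem fcl_fam1 (P : HodgeMeasure) (c : ℂ) (A : ℕ) (κ : ℕ → K) {E : Type} [Finite E]
    (Q : Set (E ⊕ Unit → ℂ)) : fcl P (fam1 c A κ) Q = c1 P c A Q := by
  refine fcl_mk P _ _ _ Q ?_
  intro z
  simp only [map_mul, map_pow, eval_C, eval_X]
  exact Iff.rfl

theorem HasT.smul {P : HodgeMeasure} {Λ : Set ℚ}
    {F : (E : Type) → [Finite E] → Set (E ⊕ Unit → ℂ) → ℕ → K} (hF : HasT P Λ F) (a : K) :
    HasT P Λ (fun E _ Q m => a * F E Q m) := by
  obtain ⟨α, ts, h1, h2⟩ := hF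
  refine ⟨a * α, ts.map fun t => { t with κ := fun m => a * t.κ m }, ?_, ?_⟩
  · intro t ht
    obtain ⟨s, hs, rfl⟩ := List.mem_map.1 ht
    exact ⟨(h1 s hs).1, stmt_Q1.2.2.1 _ _ a (h1 s hs).2⟩
  · intro E _ Q hQ m hm
    change a * F E Q m = _
    rw [h2 E Q hQ m hm]
    simp only [List.map_cons, List.sum_cons, List.map_map]
    rw [haar_term, haar_term, mul_add, ← List.sum_map_mul_left]
    have e : (ts.map fun t => a * (t.κ m * fcl P t Q)) =
        ts.map ((fun t => t.κ m * fcl P t Q) ∘ fun t : Fam => { t with κ := fun m => a * t.κ m }) := by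
      refine List.map_congr_left fun t _ => ?_
      change a * (t.κ m * fcl P t Q) = a * t.κ m * fcl P t Q
      ring
    rw [e]
    ring

/-! ## The edge -/

theorem mon_zero (a b : ℕ) : mon a b 0 = a := by simp [mon]

theorem mon_one (a b : ℕ) : mon a b 1 = b := by simp [mon]

theorem term_eq (c : ℂ) (a b : ℕ) : (C c * X 0 ^ a * X 1 ^ b : P2) = monomial (mon a b) c := by
  rw [C_mul_X_pow_eq_monomial, X_pow_eq_monomial, monomial_mul, mul_one, mon]

theorem edge_low (p q aL bR : ℕ) (I : Polynomial ℂ) :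
    ∀ d ∈ (edgePart p q aL bR I).support, p * d 0 + q * d 1 = edgeN p q aL bR I := by
  classical
  intro d hd
  rw [edgePart] at hd
  have h := MvPolynomial.support_sum hd
  rw [Finset.mem_biUnion] at h
  obtain ⟨k, hk, hd⟩ := h
  rw [term_eq] at hd
  have h2 := Finset.mem_singleton.1 (support_monomial_subset hd)
  rw [h2, mon_zero, mon_one, edgeN]
  rw [Finset.mem_range] at hk
  obtain ⟨j, hj⟩ : ∃ j, I.natDegree = k + j := ⟨I.natDegree - k, by omega⟩
  rw [hj, Nat.add_sub_cancel_left]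
  ring

theorem low_of_edge {G : P2} {p q aL bR : ℕ} {I : Polynomial ℂ} (he : IsEdge G p q aL bR I) :
    Low p q (edgeN p q aL bR I) G := by
  classical
  intro d hd
  have h : G = (G - edgePart p q aL bR I) + edgePart p q aL bR I := by ring
  rw [h] at hd
  rcases Finset.mem_union.1 (support_add hd) with h1 | h1
  · exact (he.above d h1).le
  · exact (edge_low p q aL bR I d h1).ge

theorem coeff_edge {G : P2} {p q aL bR : ℕ} {I : Polynomial ℂ} (he : IsEdge G p q aL bR I) :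
    G.coeff (mon aL (bR + p * I.natDegree)) = I.leadingCoeff := by
  classical
  have h : G = (G - edgePart p q aL bR I) + edgePart p q aL bR I := by ring
  rw [h, coeff_add]
  have h1 : (G - edgePart p q aL bR I).coeff (mon aL (bR + p * I.natDegree)) = 0 := by
    by_contra h2
    have h3 := he.above _ (mem_support_iff.2 h2)
    rw [mon_zero, mon_one, edgeN] at h3
    exact lt_irrefl _ h3
  rw [h1, zero_add, edgePart, coeff_sum, Finset.sum_eq_single I.natDegree]
  · rw [term_eq, Nat.sub_self, mul_zero, add_zero, coeff_monomial, if_pos rfl]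
    rfl
  · intro k _ hk
    rw [term_eq, coeff_monomial, if_neg]
    intro h4
    have h5 := congrArg (fun f => f 1) h4
    simp only [mon_one] at h5
    have h6 : p * k = p * I.natDegree := by omega
    exact hk (Nat.eq_of_mul_eq_mul_left he.hp h6)
  · intro h4
    exact absurd (Finset.mem_range.2 (Nat.lt_succ_self _)) h4

/-! ## One value of `k` -/

theorem per_k (hVC : Stmt_VCONE) (P : HodgeMeasure) (G : P2) (p q p' q' A B : ℕ)
    (hpp : q * p' < q' * p) (hp : 1 ≤ p) (hG : G.coeff (mon A B) ≠ 0)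
    (h1 : Low p q (p * A + q * B) G) (h2 : Low p' q' (p' * A + q' * B) G) {E : Type} [Finite E]
    (Q : Set (E ⊕ Unit → ℂ)) (hQ : QU Q) (k m L : ℕ) (hk : 1 ≤ k) (hL : q * k < p * L) :
    ∀ l, L ≤ l → (∀ i, L ≤ i → i < l → p' * i < q' * k) →
      vN P G Q k L m = ∑ i ∈ Finset.Ico L l, (if m = A * k + B * i then xq ^ (i + 1) *
        c2 P (C (G.coeff (mon A B)) * X 0 ^ A * X 1 ^ B) Q else 0) + vN P G Q k l m := by
  intro l hl
  induction l, hl using Nat.le_induction with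
  | base => intro _; simp
  | succ l hl ih =>
    intro h
    rw [ih fun i hi hi' => h i hi (by omega), Finset.sum_Ico_succ_top hl, add_assoc]
    congr 1
    refine hVC P G p q p' q' A B hpp hp hG h1 h2 E Q hQ k l m hk ?_ (h l hl (Nat.lt_succ_self l))
    exact lt_of_lt_of_le hL (Nat.mul_le_mul_left p hl)

/-- the end of the cone -/
def l1 (p' q' k : ℕ) : ℕ := if p' ∣ k then q' * (k / p') else q' * k / p' + 1

theorem l1_iff {p' q' k : ℕ} (hp' : 1 ≤ p') (hc : p'.Coprime q') (l : ℕ) :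
    l < l1 p' q' k ↔ p' * l < q' * k := by
  rw [l1]
  split_ifs with h
  · obtain ⟨j, rfl⟩ := h
    rw [Nat.mul_div_cancel_left j (by omega), show q' * (p' * j) = p' * (q' * j) by ring]
    exact (Nat.mul_lt_mul_left (by omega)).symm
  · rw [Nat.lt_succ_iff, Nat.le_div_iff_mul_le (by omega), Nat.mul_comm l p']
    constructor
    · intro h1
      refine lt_of_le_of_ne h1 ?_
      intro h2
      apply h
      exact hc.dvd_of_dvd_mul_left (Dvd.intro l h2)
    · exact fun h1 => h1.le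

theorem L_le {p q p' q' k : ℕ} (hp' : 1 ≤ p') (hc : p'.Coprime q')
    (hpp : q * p' < q' * p) (hk : 1 ≤ k) : q * k / p + 1 ≤ l1 p' q' k := by
  have h1 : q * k / p < l1 p' q' k := by
    rw [l1_iff hp' hc]
    have h2 : q * k / p * p ≤ q * k := Nat.div_mul_le_self _ _
    by_contra h3
    push Not at h3
    have h4 : q' * k * p ≤ p' * (q * k / p) * p := Nat.mul_le_mul_right p h3
    have h5 : p' * (q * k / p * p) ≤ p' * (q * k) := Nat.mul_le_mul_left p' h2
    have h6 : q * p' * k < q' * p * k := (Nat.mul_lt_mul_right (by omega)).2 hpp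
    nlinarith
  exact h1

theorem lt_iff_div {p q k l : ℕ} (hp : 1 ≤ p) : q * k / p + 1 ≤ l ↔ q * k < p * l := by
  rw [Nat.succ_le_iff, Nat.div_lt_iff_lt_mul (by omega), Nat.mul_comm l p]

/-! ## The cases -/

theorem case_fin0 (hVF0 : Stmt_VF0) (hSF0 : Stmt_SF0) (P : HodgeMeasure) (Λ : Set ℚ) (G : P2)
    (ν p q A : ℕ) (hp : 1 ≤ p) (hA : 1 ≤ A) (h1 : G.coeff (mon A 0) ≠ 0)
    (h2 : Low p q (p * A) G) (h3 : rate ν A 0 p q ∈ Λ) : RE' P Λ G ν p q none := by
  obtain ⟨q1, q2, q3, -⟩ := stmt_Q1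
  have hE : ESeq Λ fun m => xq * (if A ∣ m then xq ^ (ν * (m / A) + q * (m / A) / p) else 0) := by
    refine q3 _ _ xq (q1 _ _ _ ?_ (hSF0 ν p q A hp hA))
    rintro r rfl
    exact h3
  refine ⟨_, HasT.single (P := P) (fam1 (G.coeff (mon A 0)) A _) (fam1_good _ h1 A _) hE, 1, ?_⟩
  intro E _ Q hQ m N hm hN
  rw [one_mul] at hN
  have e : ∀ k ∈ Finset.Icc 1 N, xq ^ (ν * k) * vN P G Q k (q * k / p + 1) m =
      if m = A * k then xq ^ (ν * k) * (xq ^ (q * k / p + 1) * c1 P (G.coeff (mon A 0)) A Q)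
        else 0 := by
    intro k hk
    rw [hVF0 P G p q A hp hA h1 h2 E Q hQ k m (Finset.mem_Icc.1 hk).1]
    split_ifs
    · rfl
    · rw [mul_zero]
  rw [Finset.sum_congr rfl e, pick A m N hA hm hN, fcl_fam1]
  change _ = 0 + xq * _ * _
  split_ifs
  · rw [pow_add, pow_add, pow_one]
    ring
  · ring

theorem case_fin1 (hVF1 : Stmt_VF1) (hSB : Stmt_SB) (P : HodgeMeasure) (Λ : Set ℚ) (g h : P2)
    (ν p q A₁ A₂ B : ℕ) (hp : 1 ≤ p) (hB : 1 ≤ B)
    (g1 : g.coeff (mon A₁ 1) ≠ 0) (g2 : Low p q (p * A₁ + q) g)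
    (g3 : ∀ d ∈ g.support, d 1 = 0 → p * A₁ + q < p * d 0)
    (h1 : h.coeff (mon A₂ 0) ≠ 0) (h2 : Low p q (p * A₂) h)
    (hN : 1 ≤ p * (B * A₁ + A₂) + q * B) : RE' P Λ (g ^ B * h) ν p q
      (some (g.coeff (mon A₁ 1) ^ B * h.coeff (mon A₂ 0), B * A₁ + A₂, B, 0, 1)) := by
  refine ⟨_, HasT.zero P Λ, p, ?_⟩
  intro E _ Q hQ m N hm hN'
  rw [add_zero]
  have e : ∀ k ∈ Finset.Icc 1 N, xq ^ (ν * k) * vN P (g ^ B * h) Q k (q * k / p + 1) m =
      xq ^ (ν * k) * ∑ l ∈ Finset.Ioc (q * k / p) (q * k / p + m),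
        (if m = (B * A₁ + A₂) * k + B * l then xq ^ (l + 1) * c2 P
          (C (g.coeff (mon A₁ 1) ^ B * h.coeff (mon A₂ 0)) *
              X 0 ^ (B * A₁ + A₂) * X 1 ^ B) Q else 0) := by
    intro k hk
    rw [hVF1 P g h p q A₁ A₂ B hp hB g1 g2 g3 h1 h2 E Q hQ k m (Finset.mem_Icc.1 hk).1]
  rw [Finset.sum_congr rfl e]
  refine cone_sum hSB ν p q (B * A₁ + A₂) B 0 1 m N (by omega) hN (by omega) (by omega)
    (fun k => Finset.Ioc (q * k / p) (q * k / p + m)) ?_ _
  intro k hk l hl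
  rw [Finset.mem_Ioc, ← lt_iff_div hp, Nat.succ_le_iff]
  have h3 : l ≤ B * l := Nat.le_mul_of_pos_left l hB
  generalize q * k / p = s
  constructor
  · rintro ⟨h4, _⟩
    exact ⟨h4, by omega⟩
  · rintro ⟨h4, _⟩
    exact ⟨h4, by omega⟩

theorem case_step (hVCONE : Stmt_VCONE) (hVRAY : Stmt_VRAY) (hSB : Stmt_SB) (P : HodgeMeasure)
    (Λ : Set ℚ) (G : P2) (ν p q p' q' aL bR : ℕ) (I : Polynomial ℂ) (hp : 1 ≤ p)
    (hpq : q * p' < q' * p) (he : IsEdge G p' q' aL bR I)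
    (h1 : Low p q (p * aL + q * (bR + p' * I.natDegree)) G)
    (hN : 1 ≤ p * aL + q * (bR + p' * I.natDegree))
    (h2 : rate ν aL (bR + p' * I.natDegree) p' q' ∈ Λ)
    (h3 : ∀ lam : ℂ, lam ≠ 0 → I.eval (lam ^ p') = 0 →
      RE' P Λ (chart p' q' lam G) (p' * ν + q') 1 0 none)
    (h4 : RE' P Λ G ν p' q' none) :
    RE' P Λ G ν p q (some (I.leadingCoeff, aL, bR + p' * I.natDegree, p', q')) := by
  classical
  obtain ⟨q1, q2, q3, q4, q5, -⟩ := stmt_Q1
  set B := bR + p' * I.natDegree with hB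
  set N₀ := edgeN p' q' aL bR I with hN₀
  have hN₀' : N₀ = p' * aL + q' * B := rfl
  have hp' := he.hp
  have hq' := he.hq
  have hB1 : 1 ≤ B := by
    have : 1 ≤ p' * I.natDegree := Nat.mul_pos hp' he.deg
    omega
  have hN₀1 : 1 ≤ N₀ := by
    have : 1 ≤ q' * B := Nat.mul_pos hq' hB1
    omega
  have hroot : ∀ R : ℂ, ∃ z : ℂ, z ^ p' = R := fun R => IsAlgClosed.exists_pow_nat_eq R (by omega)
  choose ρ hρ using hroot
  have hch : ∀ R ∈ I.roots.toFinset, RE' P Λ (chart p' q' (ρ R) G) (p' * ν + q') 1 0 none := by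
    intro R hR
    rw [Multiset.mem_toFinset, Polynomial.mem_roots'] at hR
    refine h3 (ρ R) ?_ ?_
    · intro h0
      have h5 : R = 0 := by
        rw [← hρ R, h0, zero_pow (by omega)]
      have h6 := hR.2
      rw [h5, Polynomial.IsRoot, ← Polynomial.coeff_zero_eq_eval_zero] at h6
      exact he.coeff_zero h6
    · rw [hρ R]
      exact hR.2
  unfold RE' at hch
  choose! F hF C₁ hC₁ using hch
  obtain ⟨F₄, hF₄, C₄, hC₄⟩ := h4
  have hE : ESeq Λ fun m => xq * (if N₀ ∣ m then xq ^ ((p' * ν + q') * (m / N₀)) else 0) := by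
    refine q3 _ _ xq (q5 Λ N₀ (p' * ν + q') hN₀1 ?_)
    have h5 : (((p' * ν + q' : ℕ) : ℚ) / (N₀ : ℚ)) = rate ν aL B p' q' := by
      rw [rate, hN₀']
    rw [h5]
    exact h2
  refine ⟨_, ((HasT.single (P := P) (SCD.fam2 (edgePart p' q' aL bR I) _)
    (SCD.fam2_good _ _) hE).add (HasT.sum I.roots.toFinset F hF)).add hF₄,
    (p + p') + p' + p' * (∑ R ∈ I.roots.toFinset, C₁ R) + C₄, ?_⟩
  intro E _ Q hQ m N hm hCN
  have hm1 : (p + p') * m ≤ N := le_trans (Nat.mul_le_mul_right m (by omega)) hCN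
  have hm2 : p' * m ≤ N := le_trans (Nat.mul_le_mul_right m (by omega)) hCN
  have hm3 : m ≤ N / p' := by
    rw [Nat.le_div_iff_mul_le (by omega), Nat.mul_comm]
    exact hm2
  have hm4 : C₄ * m ≤ N := le_trans (Nat.mul_le_mul_right m (by omega)) hCN
  have hm5 : ∀ R ∈ I.roots.toFinset, C₁ R * m ≤ N / p' := by
    intro R hR
    rw [Nat.le_div_iff_mul_le (by omega)]
    have h5 : C₁ R ≤ ∑ R ∈ I.roots.toFinset, C₁ R :=
      Finset.single_le_sum (f := C₁) (fun _ _ => Nat.zero_le _) hR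
    have h6 : C₁ R * m * p' = p' * C₁ R * m := by ring
    rw [h6]
    refine le_trans (Nat.mul_le_mul_right m ?_) hCN
    have h7 : p' * C₁ R ≤ p' * ∑ R ∈ I.roots.toFinset, C₁ R := Nat.mul_le_mul_left p' h5
    omega
  have hcG : G.coeff (mon aL B) = I.leadingCoeff := coeff_edge he
  have hcG0 : G.coeff (mon aL B) ≠ 0 := by
    rw [hcG]
    intro h9
    rw [Polynomial.leadingCoeff_eq_zero] at h9
    have h5 := he.deg
    rw [h9, Polynomial.natDegree_zero] at h5
    omega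
  have hlow' : Low p' q' (p' * aL + q' * B) G := low_of_edge he
  set cE := c2 P (edgePart p' q' aL bR I) Q with hcE
  set cV := c2 P (C I.leadingCoeff * X 0 ^ aL * X 1 ^ B) Q with hcV
  set H : ℕ → K := fun j => xq ^ (ν * (p' * j)) * ((if m = N₀ * j then xq ^ (q' * j + 1) * cE
    else 0) + ∑ R ∈ I.roots.toFinset, xq ^ (q' * j) * vN P (chart p' q' (ρ R) G) Q j 1 m) with hH
  have e : ∀ k ∈ Finset.Icc 1 N, xq ^ (ν * k) * vN P G Q k (q * k / p + 1) m =
      xq ^ (ν * k) * (∑ l ∈ Finset.Ico (q * k / p + 1) (l1 p' q' k),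
        (if m = aL * k + B * l then xq ^ (l + 1) * cV else 0)) +
      ((if p' ∣ k then H (k / p') else 0) +
        xq ^ (ν * k) * vN P G Q k (q' * k / p' + 1) m) := by
    intro k hk
    have hk1 := (Finset.mem_Icc.1 hk).1
    have h5 := per_k hVCONE P G p q p' q' aL B hpq hp hcG0 h1 hlow' Q hQ k m (q * k / p + 1) hk1
      ((lt_iff_div hp).1 le_rfl) (l1 p' q' k) (L_le hp' he.cop hpq hk1)
      (fun i _ hi => (l1_iff hp' he.cop i).1 hi)
    rw [h5, mul_add, hcG]
    congr 1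
    rw [l1]
    split_ifs with hd
    · obtain ⟨j, rfl⟩ := hd
      have hj : 1 ≤ j := by
        rcases Nat.eq_zero_or_pos j with h | h
        · subst h; simp at hk1
        · exact h
      rw [Nat.mul_div_cancel_left j (by omega), show q' * (p' * j) = p' * (q' * j) by ring,
        Nat.mul_div_cancel_left (q' * j) (by omega),
        hVRAY P G p' q' aL bR I ρ he hρ E Q hQ j m hj]
      simp only [hH]
      ring
    · rw [zero_add]
  rw [Finset.sum_congr rfl e, Finset.sum_add_distrib, Finset.sum_add_distrib,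
    sum_dvd p' N hp' H, hC₄ E Q hQ m N hm hm4]
  have e1 : ∑ k ∈ Finset.Icc 1 N, xq ^ (ν * k) * (∑ l ∈ Finset.Ico (q * k / p + 1) (l1 p' q' k),
        (if m = aL * k + B * l then xq ^ (l + 1) * cV else 0)) =
      xq * coneS ν p q aL B p' q' m * cV := by
    refine cone_sum hSB ν p q aL B p' q' m N hpq hN (by rw [← hN₀']; exact hN₀1) hm1
      (fun k => Finset.Ico (q * k / p + 1) (l1 p' q' k)) ?_ _
    intro k hk l hl
    rw [Finset.mem_Ico, lt_iff_div hp, l1_iff hp' he.cop]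
  have e2 : ∑ j ∈ Finset.Icc 1 (N / p'), H j =
      (if N₀ ∣ m then xq ^ ((p' * ν + q') * (m / N₀)) * (xq * cE) else 0) +
        ∑ R ∈ I.roots.toFinset, F R E Q m := by
    have e3 : ∀ j ∈ Finset.Icc 1 (N / p'), H j =
        (if m = N₀ * j then xq ^ ((p' * ν + q') * j) * (xq * cE) else 0) +
          ∑ R ∈ I.roots.toFinset, xq ^ ((p' * ν + q') * j) *
            vN P (chart p' q' (ρ R) G) Q j (0 * j / 1 + 1) m := by
      intro j _
      simp only [hH]
      rw [mul_add, Finset.mul_sum]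
      congr 1
      · split_ifs
        · rw [show (p' * ν + q') * j = ν * (p' * j) + q' * j by ring, pow_add, pow_add, pow_one]
          ring
        · ring
      · refine Finset.sum_congr rfl fun R _ => ?_
        rw [show (p' * ν + q') * j = ν * (p' * j) + q' * j by ring, pow_add, zero_mul,
          Nat.zero_div, zero_add]
        ring
    rw [Finset.sum_congr rfl e3, Finset.sum_add_distrib, pick N₀ m (N / p') hN₀1 hm hm3
      (fun j => xq ^ ((p' * ν + q') * j) * (xq * cE)), Finset.sum_comm]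
    congr 1
    refine Finset.sum_congr rfl fun R hR => ?_
    rw [hC₁ R hR E Q hQ m (N / p') hm (hm5 R hR)]
    exact zero_add _
  rw [e1, e2, SCD.fcl_fam2 P _ _ hQ]
  change _ = xq * coneS ν p q aL B p' q' m * cV + (xq * _ * cE + _ + _)
  have e4 : mainT P ν p' q' none Q m = 0 := rfl
  rw [e4]
  split_ifs
  · ring
  · ring

theorem case_close (hSC1 : Stmt_SC1) (hSC2 : Stmt_SC2) (hSC3 : Stmt_SC3) (P : HodgeMeasure)
    (Λ : Set ℚ) (G : P2) (ν p q : ℕ) (c : ℂ) (A B p' q' : ℕ) (hc : c ≠ 0) (hp : 1 ≤ p)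
    (hpq : q * p' < q' * p) (h2 : SCond Λ ν p q A B p' q')
    (h1 : RE' P Λ G ν p q (some (c, A, B, p', q'))) : RE' P Λ G ν p q none := by
  obtain ⟨F, hF, C₀, h⟩ := h1
  obtain ⟨α, t, t1, t2, t3⟩ := SCD.scd hSC1 hSC2 hSC3 P hp hpq h2 c hc
  have h5 : HasT P Λ (fun E _ Q m => coneS ν p q A B p' q' m *
      c2 P (C c * X 0 ^ A * X 1 ^ B) Q) := by
    refine ⟨α, [t], ?_, ?_⟩
    · intro s hs
      rw [List.mem_singleton] at hs
      subst hs
      exact ⟨t1, t2⟩
    · intro E _ Q hQ m hm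
      simp only [List.map_cons, List.sum_cons, List.map_nil, List.sum_nil, add_zero]
      exact t3 E Q hQ m hm
  refine ⟨_, (h5.smul xq).add hF, C₀, ?_⟩
  intro E _ Q hQ m N hm hN
  rw [h E Q hQ m N hm hN]
  change xq * coneS ν p q A B p' q' m * c2 P (C c * X 0 ^ A * X 1 ^ B) Q + _ = 0 + (xq * _ + _)
  ring

theorem case_coord (hVSH : Stmt_VSH) (P : HodgeMeasure)
    (Λ : Set ℚ) (G : P2) (ν p q : ℕ) (o : Option (ℂ × ℕ × ℕ × ℕ × ℕ)) (ψ : Polynomial ℂ)
    (hψ : ∀ j ∈ ψ.support, q < p * j) (h : RE' P Λ (shift ψ G) ν p q o) :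
    RE' P Λ G ν p q o := by
  obtain ⟨F, hF, C₀, h⟩ := h
  refine ⟨F, hF, C₀, ?_⟩
  intro E _ Q hQ m N hm hN
  rw [← h E Q hQ m N hm hN]
  refine Finset.sum_congr rfl fun k hk => ?_
  have hk1 := (Finset.mem_Icc.1 hk).1
  rw [hVSH P G k (q * k / p + 1) ψ ?_ E Q hQ m]
  intro j hj
  have h5 := hψ j hj
  have hp : 1 ≤ p := by
    rcases Nat.eq_zero_or_pos p with h | h
    · subst h; simp at h5
    · exact h
  rw [lt_iff_div hp]
  calc q * k < p * j * k := (Nat.mul_lt_mul_right (by omega)).2 h5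
    _ = p * (k * j) := by ring

end VRE_

/-- the recursion, exact part -/
theorem stmt_VRE (hVF0 : Stmt_VF0) (hVF1 : Stmt_VF1) (hVCONE : Stmt_VCONE) (hVRAY : Stmt_VRAY)
    (hVSH : Stmt_VSH) (hSB : Stmt_SB) (hSC1 : Stmt_SC1) (hSC2 : Stmt_SC2) (hSC3 : Stmt_SC3)
    (hSF0 : Stmt_SF0) : Stmt_VRE := by
  intro P Λ G ν p q o hν h
  clear hν
  refine VRE_.re_of ?_
  induction h with
  | fin0 G ν p q A hp hA h1 h2 h3 =>
    exact VRE_.case_fin0 hVF0 hSF0 P Λ G ν p q A hp hA h1 h2 h3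
  | fin1 g h ν p q A₁ A₂ B hp hB g1 g2 g3 h1 h2 hN =>
    exact VRE_.case_fin1 hVF1 hSB P Λ g h ν p q A₁ A₂ B hp hB g1 g2 g3 h1 h2 hN
  | step G ν p q p' q' aL bR I hp hpq he h1 hN h2 _ _ ih3 ih4 =>
    exact VRE_.case_step hVCONE hVRAY hSB P Λ G ν p q p' q' aL bR I hp hpq he h1 hN h2
      (fun lam hl hr => ih3 lam hl hr) ih4
  | close G ν p q c A B p' q' h1 h2 ih =>
    obtain ⟨hc, hpq, hp, -⟩ := SCD.rbf h1 c A B p' q' rfl
    exact VRE_.case_close hSC1 hSC2 hSC3 P Λ G ν p q c A B p' q' hc hp hpq h2 ih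
  | coord G ν p q o ψ hψ h ih => exact VRE_.case_coord hVSH P Λ G ν p q o ψ hψ ih

end Pool.Agent.Mono.PC
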