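import Pool.Agent.Work.Monodromy6.DEC
import Pool.Agent.Work.Monodromy6.REP
import Pool.Agent.Work.Monodromy6.VRE

/-!
# Block VL0 (helper61): the distribution at the origin
-/

set_option autoImplicit false
set_option linter.unusedSectionVars false
set_option linter.unusedVariables false

namespace Pool.Agent.Mono.PC

open MvPolynomial TS RO

namespace VL0Aux

/-! ## Sums over multiples -/

theorem sum_mult (p M : ℕ) (hp : 1 ≤ p) (g : ℕ → K) :
    ∑ k ∈ Finset.Icc 1 (p * M), (if p ∣ k then g (k / p) else 0) =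
      ∑ k ∈ Finset.Icc 1 M, g k := by
  rw [← Finset.sum_filter]
  symm
  refine Finset.sum_bij (fun k _ => p * k) ?_ ?_ ?_ ?_
  · intro k hk
    rw [Finset.mem_Icc] at hk
    rw [Finset.mem_filter, Finset.mem_Icc]
    exact ⟨⟨Nat.mul_pos hp hk.1, Nat.mul_le_mul_left _ hk.2⟩, Dvd.intro _ rfl⟩
  · intro a _ b _ h
    exact Nat.eq_of_mul_eq_mul_left hp h
  · intro b hb
    rw [Finset.mem_filter, Finset.mem_Icc] at hb
    obtain ⟨⟨h1, h2⟩, r, rfl⟩ := hb
    refine ⟨r, ?_, rfl⟩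
    rw [Finset.mem_Icc]
    exact ⟨Nat.pos_of_ne_zero (by rintro rfl; simp at h1), Nat.le_of_mul_le_mul_left h2 hp⟩
  · intro k _
    rw [Nat.mul_div_cancel_left k hp]

/-! ## Splitting of the cone -/

/-- the sum over a box -/
noncomputable def coneT (ν p q A B p' q' m M : ℕ) : K :=
  ∑ k ∈ Finset.range M, ∑ l ∈ Finset.range M,
    if q * k < p * l ∧ p' * l < q' * k ∧ A * k + B * l = m then xq ^ (ν * k + l) else 0

theorem coneS_eq (hSB : Stmt_SB) (ν p q A B p' q' m M : ℕ) (h1 : q * p' < q' * p)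
    (h2 : 1 ≤ p * A + q * B) (h3 : 1 ≤ p' * A + q' * B) (h4 : (p + p') * m < M)
    (h5 : (q + q') * m < M) : coneS ν p q A B p' q' m = coneT ν p q A B p' q' m M := by
  unfold coneS coneT
  have e1 : Finset.range ((p + p') * m + 1) ⊆ Finset.range M :=
    Finset.range_subset_range.2 h4
  have e2 : Finset.range ((q + q') * m + 1) ⊆ Finset.range M :=
    Finset.range_subset_range.2 h5
  rw [← Finset.sum_subset e1]
  · refine Finset.sum_congr rfl fun k _ => ?_
    refine Finset.sum_subset e2 fun l _ hl => ?_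
    rw [if_neg]
    rintro ⟨h6, h7, h8⟩
    have := (hSB p q A B p' q' m k l h1 h2 h3 h6 h7 h8).2
    rw [Finset.mem_range] at hl
    omega
  · intro k _ hk
    refine Finset.sum_eq_zero fun l _ => ?_
    rw [if_neg]
    rintro ⟨h6, h7, h8⟩
    have := (hSB p q A B p' q' m k l h1 h2 h3 h6 h7 h8).1
    rw [Finset.mem_range] at hk
    omega

theorem diag_sum (A B m M : ℕ) (hAB : 1 ≤ A + B) (hM : m < M) :
    ∑ k ∈ Finset.range M, ∑ l ∈ Finset.range M,
      (if k = l ∧ 1 ≤ k ∧ A * k + B * l = m then xq ^ (1 * k + l) else 0) =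
    ∑ k ∈ Finset.Icc 1 m, if m = A * k + B * k then xq ^ (2 * k) else 0 := by
  have h1 : ∀ k ∈ Finset.range M, ∑ l ∈ Finset.range M,
      (if k = l ∧ 1 ≤ k ∧ A * k + B * l = m then xq ^ (1 * k + l) else 0) =
        if 1 ≤ k ∧ A * k + B * k = m then xq ^ (2 * k) else 0 := by
    intro k hk
    rw [Finset.sum_eq_single k]
    · by_cases h : 1 ≤ k ∧ A * k + B * k = m
      · rw [if_pos ⟨rfl, h.1, h.2⟩, if_pos h]
        congr 1
        omega
      · rw [if_neg h, if_neg fun h' => h ⟨h'.2.1, h'.2.2⟩]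
    · intro l _ hl
      rw [if_neg fun h' => hl h'.1.symm]
    · intro h
      exact absurd hk h
  rw [Finset.sum_congr rfl h1]
  symm
  have e1 : Finset.Icc 1 m ⊆ Finset.range M := by
    intro k hk
    rw [Finset.mem_Icc] at hk
    rw [Finset.mem_range]
    omega
  rw [← Finset.sum_subset e1]
  · refine Finset.sum_congr rfl fun k hk => ?_
    rw [Finset.mem_Icc] at hk
    by_cases h : m = A * k + B * k
    · rw [if_pos h, if_pos ⟨hk.1, h.symm⟩]
    · rw [if_neg h, if_neg fun h' => h h'.2.symm]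
  · intro k _ hk
    rw [if_neg]
    rintro ⟨h2, h3⟩
    apply hk
    rw [Finset.mem_Icc]
    refine ⟨h2, ?_⟩
    rw [← h3, ← add_mul]
    exact Nat.le_mul_of_pos_left k hAB

theorem cone_split (hSB : Stmt_SB) (h3 : Stmt_SC3) (A B p' q' p'' q'' m : ℕ)
    (h1 : p' < q') (h2 : q'' < p'') (hA : 1 ≤ A) (hB : 1 ≤ B) :
    coneS 1 p'' q'' A B p' q' m = coneS 1 1 1 A B p' q' m +
      (∑ k ∈ Finset.Icc 1 m, if m = A * k + B * k then xq ^ (2 * k) else 0) +
        coneS 1 1 1 B A q'' p'' m := by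
  have e0 : coneS 1 1 1 B A q'' p'' m = coneS 1 p'' q'' A B 1 1 m := by
    rw [h3 1 1 B A q'' p'' m]
  rw [e0]
  set M := (p'' + q'' + p' + q' + 2) * m + 1 with hM
  have hp'' : 1 ≤ p'' := by omega
  have hq' : 1 ≤ q' := by omega
  have n1 : 1 ≤ p'' * A + q'' * B := by
    have : 1 ≤ p'' * A := Nat.mul_pos hp'' hA
    omega
  have n2 : 1 ≤ p' * A + q' * B := by
    have : 1 ≤ q' * B := Nat.mul_pos hq' hB
    omega
  have n3 : 1 ≤ 1 * A + 1 * B := by omega
  have s1 : q'' * p' < q' * p'' := by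
    calc q'' * p' ≤ p'' * p' := Nat.mul_le_mul_right _ h2.le
      _ < p'' * q' := Nat.mul_lt_mul_of_pos_left h1 hp''
      _ = q' * p'' := mul_comm _ _
  have b1 : ∀ a b : ℕ, a ≤ p'' + q'' + p' + q' + 2 → a * m < M := by
    intro a b ha
    have := Nat.mul_le_mul_right m ha
    omega
  rw [coneS_eq hSB 1 p'' q'' A B p' q' m M s1 n1 n2 (b1 _ 0 (by omega)) (b1 _ 0 (by omega)),
    coneS_eq hSB 1 1 1 A B p' q' m M (by omega) n3 n2 (b1 _ 0 (by omega)) (b1 _ 0 (by omega)),
    coneS_eq hSB 1 p'' q'' A B 1 1 m M (by omega) n1 n3 (b1 _ 0 (by omega)) (b1 _ 0 (by omega)),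
    ← diag_sum A B m M (by omega) (by
      have : m ≤ (p'' + q'' + p' + q' + 2) * m := Nat.le_mul_of_pos_left m (by omega)
      omega)]
  unfold coneT
  rw [← Finset.sum_add_distrib, ← Finset.sum_add_distrib]
  refine Finset.sum_congr rfl fun k _ => ?_
  rw [← Finset.sum_add_distrib, ← Finset.sum_add_distrib]
  refine Finset.sum_congr rfl fun l _ => ?_
  rcases lt_trichotomy k l with h | h | h
  · -- right of the diagonal
    have g1 : 1 * k < 1 * l := by omega
    have g2 : q'' * k < p'' * l := by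
      calc q'' * k ≤ p'' * k := Nat.mul_le_mul_right _ h2.le
        _ < p'' * l := Nat.mul_lt_mul_of_pos_left h hp''
    have g3 : ¬ (1 * l < 1 * k) := by omega
    have g4 : k ≠ l := by omega
    simp only [g1, g2, g3, g4, true_and, false_and, and_false, if_false, add_zero]
  · subst h
    have g1 : ¬ (1 * k < 1 * k) := lt_irrefl _
    simp only [g1, false_and, and_false, if_false, true_and, zero_add, add_zero]
    by_cases hk : 1 ≤ k
    · have g2 : q'' * k < p'' * k := Nat.mul_lt_mul_of_pos_right h2 hk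
      have g3 : p' * k < q' * k := Nat.mul_lt_mul_of_pos_right h1 hk
      simp only [g2, g3, hk, true_and]
    · have g2 : ¬ q'' * k < p'' * k := by
        have : k = 0 := by omega
        subst this
        simp
      simp only [g2, hk, false_and, if_false]
  · have g1 : 1 * l < 1 * k := by omega
    have g2 : p' * l < q' * k := by
      calc p' * l ≤ q' * l := Nat.mul_le_mul_right _ h1.le
        _ < q' * k := Nat.mul_lt_mul_of_pos_left h hq'
    have g3 : ¬ (1 * k < 1 * l) := by omega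
    have g4 : k ≠ l := by omega
    simp only [g1, g2, g3, g4, true_and, false_and, if_false, zero_add]

/-! ## The cases -/

theorem case_edge (hRAY : Stmt_VRAY) (P : HodgeMeasure) (Λ : Set ℚ) (F : P2)
    (p q aL bR : ℕ) (I : Polynomial ℂ) (he : IsEdge F p q aL bR I)
    (h1 : rate 1 aL (bR + p * I.natDegree) p q ∈ Λ)
    (h2 : ∀ lam : ℂ, lam ≠ 0 → I.eval (lam ^ p) = 0 →
      RE P Λ (chart p q lam F) (p + q) 1 0 none)
    (h3 : RE P Λ F 1 p q none) (h4 : RE P Λ (swp F) 1 q p none) :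
    Rep P Λ fun E _ Q m => vol P.rat xq (LS F Q m) := by
  classical
  obtain ⟨q1, q2, q3, q4, q5, -⟩ := stmt_Q1
  set N₀ := edgeN p q aL bR I with hN₀
  have hp := he.hp
  have hq := he.hq
  have hN₀1 : 1 ≤ N₀ := by
    have e1 : 1 ≤ p * I.natDegree := Nat.mul_pos hp he.deg
    have e2 : 1 ≤ q * (bR + p * I.natDegree) := Nat.mul_pos hq (by omega)
    rw [hN₀, edgeN]
    omega
  have hroot : ∀ R : ℂ, ∃ z : ℂ, z ^ p = R := fun R => IsAlgClosed.exists_pow_nat_eq R (by omega)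
  choose ρ hρ using hroot
  have hch : ∀ R : ℂ, ∃ C₀ : ℕ, R ∈ I.roots.toFinset → ∀ D : ℕ, C₀ ≤ D →
      Rep P Λ fun E _ Q m => ∑ k ∈ Finset.Icc 1 (D * m),
        xq ^ ((p + q) * k) * vN P (chart p q (ρ R) F) Q k (0 * k / 1 + 1) m := by
    intro R
    by_cases hR : R ∈ I.roots.toFinset
    · have hR' := hR
      rw [Multiset.mem_toFinset, Polynomial.mem_roots'] at hR'
      obtain ⟨C₀, h5⟩ := REP.re (h2 (ρ R) (by
        intro h0
        have h5 : R = 0 := by
          rw [← hρ R, h0, zero_pow (by omega)]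
        have h6 := hR'.2
        rw [h5, Polynomial.IsRoot, ← Polynomial.coeff_zero_eq_eval_zero] at h6
        exact he.coeff_zero h6) (by
        rw [hρ R]
        exact hR'.2))
      exact ⟨C₀, fun _ => h5⟩
    · exact ⟨0, fun h => absurd h hR⟩
  choose C₁ hC₁ using hch
  obtain ⟨C₃, hC₃⟩ := REP.re h3
  obtain ⟨C₄, hC₄⟩ := REP.re h4
  set D := C₃ + C₄ + (∑ R ∈ I.roots.toFinset, C₁ R) + p + q + 1 with hD
  have hpD : D ≤ p * D := Nat.le_mul_of_pos_left D hp
  have hD1 : ∀ R ∈ I.roots.toFinset, C₁ R ≤ D := by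
    intro R hR
    have h5 : C₁ R ≤ ∑ R ∈ I.roots.toFinset, C₁ R :=
      Finset.single_le_sum (f := C₁) (fun _ _ => Nat.zero_le _) hR
    omega
  have hE : ESeq Λ fun m => xq ^ 2 * (if N₀ ∣ m then xq ^ ((p + q) * (m / N₀)) else 0) := by
    refine q3 _ _ (xq ^ 2) (q5 Λ N₀ (p + q) hN₀1 ?_)
    have h5 : (((p + q : ℕ) : ℚ) / (N₀ : ℚ)) = rate 1 aL (bR + p * I.natDegree) p q := by
      rw [rate, hN₀, edgeN, mul_one]
    rw [h5]
    exact h1
  have hR3 := REP.smul xq (hC₃ (p * D) (by omega))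
  have hR4 := REP.smul xq (hC₄ (p * D) (by omega))
  have hR1 := REP.smul xq (REP.sum I.roots.toFinset fun R hR => hC₁ R hR D (hD1 R hR))
  have hR0 := REP.fam2 (P := P) (edgePart p q aL bR I) _ hE
  refine REP.congr (REP.add (REP.add (REP.add hR0 hR1) hR3) hR4) ?_
  intro E _ Q hQ m hm
  set cE := c2 P (edgePart p q aL bR I) Q with hcE
  set H : ℕ → K := fun j => xq ^ (p * j + 1) * ((if m = N₀ * j then xq ^ (q * j + 1) * cE
    else 0) + ∑ R ∈ I.roots.toFinset, xq ^ (q * j) * vN P (chart p q (ρ R) F) Q j 1 m) with hH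
  rw [DEC.dec P F hp hq he.cop hN₀1 (VRE_.low_of_edge he) hQ (m := m) (n := p * (D * m)) (by
    rw [← mul_assoc]
    exact Nat.mul_le_mul_right m (by omega))]
  have e : ∀ k ∈ Finset.Icc 1 (p * (D * m)), xq ^ (k + 1) * vN P F Q k (LA p q k) m =
      (if p ∣ k then H (k / p) else 0) + xq * (xq ^ (1 * k) * vN P F Q k (q * k / p + 1) m) := by
    intro k hk
    have hk1 := (Finset.mem_Icc.1 hk).1
    rw [LA]
    split_ifs with hd
    · obtain ⟨j, rfl⟩ := hd
      have hj : 1 ≤ j := by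
        rcases Nat.eq_zero_or_pos j with h | h
        · subst h; simp at hk1
        · exact h
      rw [Nat.mul_div_cancel_left j (by omega), show q * (p * j) = p * (q * j) by ring,
        Nat.mul_div_cancel_left (q * j) (by omega),
        hRAY P F p q aL bR I ρ he hρ E Q hQ j m hj]
      simp only [hH]
      rw [one_mul, pow_succ]
      ring
    · rw [zero_add, one_mul, pow_succ]
      ring
  have e3 : ∀ j ∈ Finset.Icc 1 (D * m), H j =
      (if m = N₀ * j then xq ^ ((p + q) * j) * (xq ^ 2 * cE) else 0) +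
        xq * ∑ R ∈ I.roots.toFinset, xq ^ ((p + q) * j) *
          vN P (chart p q (ρ R) F) Q j (0 * j / 1 + 1) m := by
    intro j _
    simp only [hH]
    rw [mul_add, Finset.mul_sum, Finset.mul_sum]
    congr 1
    · split_ifs
      · rw [show (p + q) * j = p * j + q * j by ring, pow_add, pow_add, pow_add, pow_one]
        ring
      · ring
    · refine Finset.sum_congr rfl fun R _ => ?_
      rw [show (p + q) * j = p * j + q * j by ring, pow_add, pow_add, zero_mul,
        Nat.zero_div, zero_add, pow_one]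
      ring
  have hm3 : m ≤ D * m := Nat.le_mul_of_pos_left m (by omega)
  rw [Finset.sum_congr rfl e, Finset.sum_add_distrib, sum_mult p (D * m) hp H,
    Finset.sum_congr rfl e3, Finset.sum_add_distrib, VRE_.pick N₀ m (D * m) hN₀1 hm hm3
      (fun j => xq ^ ((p + q) * j) * (xq ^ 2 * cE)), ← Finset.mul_sum, Finset.sum_comm,
    ← Finset.mul_sum, ← mul_assoc p D m]
  have e5 : ∑ l ∈ Finset.Icc 1 (p * D * m), xq ^ (l + 1) * vN P (swp F) Q l (p * l / q + 1) m =
      xq * ∑ l ∈ Finset.Icc 1 (p * D * m), xq ^ (1 * l) * vN P (swp F) Q l (p * l / q + 1) m := by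
    rw [Finset.mul_sum]
    refine Finset.sum_congr rfl fun l _ => ?_
    rw [one_mul, pow_succ]
    ring
  rw [e5]
  split_ifs <;> ring

theorem low_two {F : P2} {A B : ℕ} {c : ℂ} (h1 : Above 1 1 (A + B) (F - C c * X 0 ^ A * X 1 ^ B))
    (p q n : ℕ) (hp : p = n + 1 ∧ q = n ∨ p = n ∧ q = n + 1) (hn : A + B ≤ n) :
    Low p q (p * A + q * B) F := by
  classical
  intro d hd
  have h : F = (F - C c * X 0 ^ A * X 1 ^ B) + C c * X 0 ^ A * X 1 ^ B := by ring
  rw [h] at hd
  rcases Finset.mem_union.1 (support_add hd) with h2 | h2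
  · have h3 := h1 d h2
    rw [one_mul, one_mul] at h3
    have h4 : n * (A + B + 1) ≤ n * (d 0 + d 1) := Nat.mul_le_mul_left n h3
    rcases hp with ⟨rfl, rfl⟩ | ⟨rfl, rfl⟩
    · nlinarith
    · nlinarith
  · rw [VRE_.term_eq] at h2
    have h3 := Finset.mem_singleton.1 (support_monomial_subset h2)
    rw [h3, VRE_.mon_zero, VRE_.mon_one]

theorem coeff_two {F : P2} {A B : ℕ} {c : ℂ}
    (h1 : Above 1 1 (A + B) (F - C c * X 0 ^ A * X 1 ^ B)) : F.coeff (mon A B) = c := by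
  classical
  have h : F = (F - C c * X 0 ^ A * X 1 ^ B) + C c * X 0 ^ A * X 1 ^ B := by ring
  rw [h, coeff_add]
  have h2 : (F - C c * X 0 ^ A * X 1 ^ B).coeff (mon A B) = 0 := by
    by_contra h2
    have h3 := h1 _ (mem_support_iff.2 h2)
    rw [VRE_.mon_zero, VRE_.mon_one, one_mul, one_mul] at h3
    exact lt_irrefl _ h3
  rw [h2, zero_add, VRE_.term_eq, coeff_monomial, if_pos rfl]

theorem case_two (hCONE : Stmt_VCONE) (hSB : Stmt_SB) (hSC1 : Stmt_SC1) (hSC2 : Stmt_SC2)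
    (hSC3 : Stmt_SC3) (P : HodgeMeasure) (Λ : Set ℚ) (F : P2) (A B : ℕ) (c : ℂ)
    (p' q' p'' q'' : ℕ) (hA : 1 ≤ A) (hB : 1 ≤ B) (hc : c ≠ 0) (hpq : p' < q') (hpq' : q'' < p'')
    (h1 : Above 1 1 (A + B) (F - C c * X 0 ^ A * X 1 ^ B))
    (h2 : RE P Λ F 1 1 1 (some (c, A, B, p', q')))
    (h3 : RE P Λ (swp F) 1 1 1 (some (c, B, A, q'', p'')))
    (h4 : SCond Λ 1 p'' q'' A B p' q') :
    Rep P Λ fun E _ Q m => vol P.rat xq (LS F Q m) := by
  classical
  obtain ⟨C₂, hC₂⟩ := REP.re' h2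
  obtain ⟨C₃, hC₃⟩ := REP.re' h3
  have hp'' : 1 ≤ p'' := by omega
  have hpq2 : q'' * p' < q' * p'' := by
    calc q'' * p' ≤ p'' * p' := Nat.mul_le_mul_right _ hpq'.le
      _ < p'' * q' := Nat.mul_lt_mul_of_pos_left hpq hp''
      _ = q' * p'' := mul_comm _ _
  obtain ⟨α, t, t1, t2, t3⟩ := SCD.scd hSC1 hSC2 hSC3 P hp'' hpq2 h4 c hc
  have h5 : Rep P Λ fun E _ Q m => coneS 1 p'' q'' A B p' q' m *
      c2 P (C c * X 0 ^ A * X 1 ^ B) Q := by
    refine REP.congr (REP.add (REP.haar' (P := P) (Λ := Λ) α) (REP.fam (P := P) t t1 t2)) ?_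
    intro E _ Q hQ m hm
    exact t3 E Q hQ m hm
  set D := C₂ + C₃ + 2 with hD
  have hR2 := REP.smul xq (hC₂ D (by omega))
  have hR3 := REP.smul xq (hC₃ D (by omega))
  refine REP.congr (REP.add (REP.add hR2 hR3) (REP.smul (xq ^ 2) h5)) ?_
  intro E _ Q hQ m hm
  set cV := c2 P (C c * X 0 ^ A * X 1 ^ B) Q with hcV
  have hsw : c2 P (C c * X 0 ^ B * X 1 ^ A) Q = cV := SCD.c2_swap P c B A hQ.1
  rw [hsw]
  have hlow : Low 1 1 (A + B) F := by
    intro d hd
    have h : F = (F - C c * X 0 ^ A * X 1 ^ B) + C c * X 0 ^ A * X 1 ^ B := by ring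
    rw [h] at hd
    rcases Finset.mem_union.1 (support_add hd) with h6 | h6
    · exact (h1 d h6).le
    · rw [VRE_.term_eq] at h6
      have h7 := Finset.mem_singleton.1 (support_monomial_subset h6)
      rw [h7, VRE_.mon_zero, VRE_.mon_one, one_mul, one_mul]
  rw [DEC.dec P F le_rfl le_rfl (Nat.coprime_one_left 1) (by omega) hlow hQ (m := m) (n := D * m)
    (Nat.mul_le_mul_right m (by omega))]
  have e : ∀ k ∈ Finset.Icc 1 (D * m), xq ^ (k + 1) * vN P F Q k (LA 1 1 k) m =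
      (if m = (A + B) * k then xq ^ (2 * k) * (xq ^ 2 * cV) else 0) +
        xq * (xq ^ (1 * k) * vN P F Q k (1 * k / 1 + 1) m) := by
    intro k hk
    have hk1 := (Finset.mem_Icc.1 hk).1
    have e1 : LA 1 1 k = k := by
      rw [LA, if_pos (one_dvd k), Nat.div_one, one_mul]
    have hc2 := coeff_two h1
    have hn1 : 1 ≤ A + B := by omega
    have e2 := hCONE P F (A + B + 1) (A + B) (A + B) (A + B + 1) A B (by nlinarith) (by omega)
      (by rw [hc2]; exact hc) (low_two h1 _ _ (A + B) (Or.inl ⟨rfl, rfl⟩) le_rfl)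
      (low_two h1 _ _ (A + B) (Or.inr ⟨rfl, rfl⟩) le_rfl) E Q hQ k k m hk1
      (Nat.mul_lt_mul_of_pos_right (Nat.lt_succ_self _) hk1)
      (Nat.mul_lt_mul_of_pos_right (Nat.lt_succ_self _) hk1)
    rw [e1, e2, hc2, one_mul, Nat.div_one, mul_add, pow_succ]
    have e3 : (m = A * k + B * k) ↔ m = (A + B) * k := by rw [add_mul]
    simp only [e3]
    congr 1
    · split_ifs
      · rw [two_mul, pow_add]
        ring
      · ring
    · ring
  have e5 : ∑ l ∈ Finset.Icc 1 (D * m), xq ^ (l + 1) * vN P (swp F) Q l (1 * l / 1 + 1) m =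
      xq * ∑ l ∈ Finset.Icc 1 (D * m), xq ^ (1 * l) * vN P (swp F) Q l (1 * l / 1 + 1) m := by
    rw [Finset.mul_sum]
    refine Finset.sum_congr rfl fun l _ => ?_
    rw [one_mul, pow_succ]
    ring
  have hm3 : m ≤ D * m := Nat.le_mul_of_pos_left m (by omega)
  have e6 : (∑ k ∈ Finset.Icc 1 m, if m = A * k + B * k then xq ^ (2 * k) else 0 : K) =
      if (A + B) ∣ m then xq ^ (2 * (m / (A + B))) else 0 := by
    have e7 := VRE_.pick (A + B) m m (by omega) hm le_rfl (fun k => (xq ^ (2 * k) : K))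
    rw [← e7]
    refine Finset.sum_congr rfl fun k _ => ?_
    rw [add_mul]
  rw [Finset.sum_congr rfl e, Finset.sum_add_distrib, VRE_.pick (A + B) m (D * m) (by omega) hm hm3
      (fun j => xq ^ (2 * j) * (xq ^ 2 * cV)), ← Finset.mul_sum, e5,
    cone_split hSB hSC3 A B p' q' p'' q'' m hpq hpq' hA hB, e6]
  split_ifs <;> ring

end VL0Aux

/-- the distribution at the origin -/
theorem stmt_VL0 (hRE : Stmt_VRE) (hRAY : Stmt_VRAY) (hCONE : Stmt_VCONE) (hAUT : Stmt_VAUT)
    (hSB : Stmt_SB) (hSC1 : Stmt_SC1) (hSC2 : Stmt_SC2) (hSC3 : Stmt_SC3) : Stmt_VL0 := by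
  intro P Λ F h
  change Rep P Λ fun E _ Q m => vol P.rat xq (LS F Q m)
  induction h with
  | edge F p q aL bR I he h1 h2 h3 h4 =>
    have hp := he.hp
    exact VL0Aux.case_edge hRAY P Λ F p q aL bR I he h1
      (fun lam hl hr => hRE P Λ _ _ _ _ _ (by omega) (h2 lam hl hr))
      (hRE P Λ _ _ _ _ _ le_rfl h3) (hRE P Λ _ _ _ _ _ le_rfl h4)
  | two F A B c p' q' p'' q'' hA hB h1 h2 h3 h4 =>
    obtain ⟨hc, hpq, -⟩ := SCD.rbf h2 c A B p' q' rfl
    obtain ⟨-, hpq', -⟩ := SCD.rbf h3 c B A q'' p'' rfl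
    exact VL0Aux.case_two hCONE hSB hSC1 hSC2 hSC3 P Λ F A B c p' q' p'' q'' hA hB hc
      (by omega) (by omega) h1 (hRE P Λ _ _ _ _ _ le_rfl h2) (hRE P Λ _ _ _ _ _ le_rfl h3) h4
  | coord F ψ h0 h ih =>
    refine REP.congr ih ?_
    intro E _ Q hQ m hm
    exact ((hAUT P F ψ h0 E Q hQ m).1).symm
  | swap F h ih =>
    refine REP.congr ih ?_
    intro E _ Q hQ m hm
    exact ((hAUT P F 0 (by simp) E Q hQ m).2).symm

end Pool.Agent.Mono.PC
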