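import Pool.Agent.Work.Monodromy6.VREP

/-!
# Decomposition of the arcs at the origin (helper61)
-/

set_option autoImplicit false
set_option linter.unusedSectionVars false

namespace Pool.Agent.Mono.PC

open MvPolynomial TS RO TS.VAAux TS.VPAux TS.VSAux RO.VGAux

/-- `⌈q k / p⌉` for coprime `p, q` -/
def LA (p q k : ℕ) : ℕ := if p ∣ k then q * (k / p) else q * k / p + 1

namespace DEC

theorem lt_LA {p q k : ℕ} (hp : 1 ≤ p) (hc : p.Coprime q) (j : ℕ) :
    j < LA p q k ↔ p * j < q * k := by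
  unfold LA
  split_ifs with h
  · obtain ⟨r, rfl⟩ := h
    rw [Nat.mul_div_cancel_left r hp]
    constructor
    · intro h1
      calc p * j < p * (q * r) := Nat.mul_lt_mul_of_pos_left h1 hp
        _ = q * (p * r) := by ring
    · intro h1
      have h2 : p * j < p * (q * r) := by
        calc p * j < q * (p * r) := h1
          _ = p * (q * r) := by ring
      exact Nat.lt_of_mul_lt_mul_left h2
  · constructor
    · intro h1
      have h2 : j ≤ q * k / p := Nat.lt_succ_iff.1 h1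
      rw [Nat.le_div_iff_mul_le hp] at h2
      rcases Nat.lt_or_ge (p * j) (q * k) with h3 | h3
      · exact h3
      · exfalso
        apply h
        have h4 : p * j = q * k := by
          rw [mul_comm p j]
          have : q * k ≤ j * p := by rw [mul_comm j p]; exact h3
          omega
        have h5 : p ∣ q * k := ⟨j, h4.symm⟩
        exact hc.dvd_of_dvd_mul_left h5
    · intro h1
      refine Nat.lt_succ_iff.2 ((Nat.le_div_iff_mul_le hp).2 ?_)
      rw [mul_comm]
      exact h1.le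

theorem mul_LA {p q k : ℕ} (hp : 1 ≤ p) (hc : p.Coprime q) : q * k ≤ p * LA p q k := by
  by_contra h
  have h1 := (lt_LA hp hc (k := k) (LA p q k)).2 (by omega)
  exact absurd h1 (lt_irrefl _)

/-- the order of `F(x, y)` -/
theorem ord_ge (F : P2) (z : Fin 2 → PowerSeries ℂ) (a b r : ℕ)
    (h0 : ∀ j < a, PowerSeries.coeff j (z 0) = 0) (h1 : ∀ j < b, PowerSeries.coeff j (z 1) = 0)
    (h : ∀ d ∈ F.support, r ≤ a * d 0 + b * d 1) :
    ∀ j < r, PowerSeries.coeff j (aeval z F) = 0 := by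
  rw [← PowerSeries.X_pow_dvd_iff]
  have e1 : aeval z F = ∑ d ∈ F.support, PowerSeries.C (F.coeff d) * ∏ i, z i ^ d i := by
    rw [aeval_def, eval₂_eq']
    rfl
  rw [e1]
  refine Finset.dvd_sum fun d hd => Dvd.dvd.mul_left ?_ _
  rw [Fin.prod_univ_two]
  have e2 := pow_dvd_pow_of_dvd (PowerSeries.X_pow_dvd_iff.2 h0) (d 0)
  have e3 := pow_dvd_pow_of_dvd (PowerSeries.X_pow_dvd_iff.2 h1) (d 1)
  rw [← pow_mul] at e2 e3
  refine dvd_trans ?_ (mul_dvd_mul e2 e3)
  rw [← pow_add]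
  exact pow_dvd_pow _ (h d hd)

section

variable {E : Type}

/-- `ord x = k`, `ord y ≥ L` -/
def AS (F : P2) (Q : Set (E ⊕ Unit → ℂ)) (k L m : ℕ) :
    Set ((E → ℂ) × (Fin 2 → PowerSeries ℂ)) :=
  {z | (∀ j < k, PowerSeries.coeff j (z.2 0) = 0) ∧ PowerSeries.coeff k (z.2 0) ≠ 0 ∧
    (∀ j < L, PowerSeries.coeff j (z.2 1) = 0) ∧ Lead Q m z.1 (aeval z.2 F)}

/-- `ord y = l`, `ord x ≥ L` -/
def BS (F : P2) (Q : Set (E ⊕ Unit → ℂ)) (l L m : ℕ) :
    Set ((E → ℂ) × (Fin 2 → PowerSeries ℂ)) :=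
  {z | (∀ j < l, PowerSeries.coeff j (z.2 1) = 0) ∧ PowerSeries.coeff l (z.2 1) ≠ 0 ∧
    (∀ j < L, PowerSeries.coeff j (z.2 0) = 0) ∧ Lead Q m z.1 (aeval z.2 F)}

theorem Cy_Lead [Finite E] (F : P2) {Q : Set (E ⊕ Unit → ℂ)} (hQ : Constructible Q) (m : ℕ) :
    Cy {z : (E → ℂ) × (Fin 2 → PowerSeries ℂ) | Lead Q m z.1 (aeval z.2 F)} := by
  refine Cy.and (Cy.all_lt m fun j _ => Cy.zero (RF.coef F j)) (Cy.mem hQ fun s => ?_)
  rcases s with s | s
  · exact RF.par s
  · exact RF.coef F m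

theorem Cy_AS [Finite E] (F : P2) {Q : Set (E ⊕ Unit → ℂ)} (hQ : Constructible Q)
    (k L m : ℕ) : Cy (AS F Q k L m) :=
  Cy.and (Cy.all_lt k fun j _ => Cy.zero (RF.arc 0 j)) (Cy.and (Cy.not (Cy.zero (RF.arc 0 k)))
    (Cy.and (Cy.all_lt L fun j _ => Cy.zero (RF.arc 1 j)) (Cy_Lead F hQ m)))

theorem Cy_BS [Finite E] (F : P2) {Q : Set (E ⊕ Unit → ℂ)} (hQ : Constructible Q)
    (k L m : ℕ) : Cy (BS F Q k L m) :=
  Cy.and (Cy.all_lt k fun j _ => Cy.zero (RF.arc 1 j)) (Cy.and (Cy.not (Cy.zero (RF.arc 1 k)))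
    (Cy.and (Cy.all_lt L fun j _ => Cy.zero (RF.arc 0 j)) (Cy_Lead F hQ m)))

/-- exchange of the two arcs -/
theorem vol_sw [Finite E] (P : HodgeMeasure) {S : Set ((E → ℂ) × (Fin 2 → PowerSeries ℂ))}
    (hS : Cy S) : vol P.rat xq {z : (E → ℂ) × (Fin 2 → PowerSeries ℂ) |
      (z.1, fun i : Fin 2 => z.2 (if i = 0 then 1 else 0)) ∈ S} = vol P.rat xq S := by
  have hS' : Cy {z : (E → ℂ) × (Fin 2 → PowerSeries ℂ) |
      (z.1, fun i : Fin 2 => z.2 (if i = 0 then 1 else 0)) ∈ S} :=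
    Cy.pull hS (fun e => RF.par e) (fun i : Fin 2 => if i = 0 then 1 else 0)
  obtain ⟨N, hN⟩ := hS
  obtain ⟨N', hN'⟩ := hS'
  have h1 := hN (max N N') (le_max_left _ _)
  have h2 := hN' (max N N') (le_max_right _ _)
  have hsw : ∀ x : Fin 2 → PowerSeries ℂ, (fun i : Fin 2 => (fun i : Fin 2 =>
      x (if i = 0 then 1 else 0)) (if i = 0 then 1 else 0)) = x := by
    intro x
    funext i
    fin_cases i <;> rfl
  have key := CV.vol_cv P h1 h2 (fun _ x => fun i : Fin 2 => x (if i = 0 then 1 else 0))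
    (fun s => X (Sum.inr ⟨if s.1 = 0 then 1 else 0, s.2⟩)) ?_ ?_ ?_ ?_
  · have hx : xq ≠ 0 := by
      rw [xq]
      exact inv_ne_zero RatFunc.X_ne_zero
    exact (mul_right_cancel₀ (pow_ne_zero _ hx) key).symm
  · intro p x _ s
    rw [eval_X]
    rfl
  · intro p x hx
    exact hx
  · intro p x x' _ _ h j l hl
    have h3 := h (if j = 0 then 1 else 0) l hl
    have e1 := congrFun (hsw x) j
    have e2 := congrFun (hsw x') j
    dsimp only at e1 e2 h3
    rw [e1, e2] at h3
    exact h3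
  · intro p y hy
    refine ⟨fun i => y (if i = 0 then 1 else 0), ?_, fun i l _ => ?_⟩
    · change (p, (fun i : Fin 2 => (fun i : Fin 2 =>
        y (if i = 0 then 1 else 0)) (if i = 0 then 1 else 0))) ∈ S
      rw [hsw]
      exact hy
    · have e1 := congrFun (hsw y) i
      dsimp only at e1 ⊢
      rw [e1]

theorem aeval_swp (F : P2) (z : Fin 2 → PowerSeries ℂ) :
    aeval z (swp F) = aeval (fun i : Fin 2 => z (if i = 0 then 1 else 0)) F := by
  rw [swp, aeval_def, aeval_def, ← aeval_def, ← aeval_def, comp_aeval_apply]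
  congr 2
  funext i
  fin_cases i <;> simp

theorem vol_BS [Finite E] (P : HodgeMeasure) (F : P2) {Q : Set (E ⊕ Unit → ℂ)} (hQ : QU Q)
    (l L m : ℕ) (hl : 1 ≤ l) : vol P.rat xq (BS F Q l L m) = xq ^ (l + 1) * vN P (swp F) Q l L m := by
  rw [← stmt_VREP P (swp F) E Q hQ l L m hl, ← vol_sw P (Cy_BS F hQ.1 l L m)]
  congr 1
  ext z
  simp only [BS, Set.mem_ofPred_eq, aeval_swp]
  rfl

theorem vol_AS [Finite E] (P : HodgeMeasure) (F : P2) {Q : Set (E ⊕ Unit → ℂ)} (hQ : QU Q)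
    (k L m : ℕ) (hk : 1 ≤ k) : vol P.rat xq (AS F Q k L m) = xq ^ (k + 1) * vN P F Q k L m :=
  stmt_VREP P F E Q hQ k L m hk

theorem cover (F : P2) {p q N : ℕ} (hp : 1 ≤ p) (hq : 1 ≤ q) (hc : p.Coprime q) (hN : 1 ≤ N)
    (hF : Low p q N F) {Q : Set (E ⊕ Unit → ℂ)} (hQ : QU Q) {m n : ℕ} (hn : (p + q) * m ≤ n) :
    LS F Q m = (⋃ k ∈ Finset.Icc 1 n, AS F Q k (LA p q k) m) ∪
      ⋃ l ∈ Finset.Icc 1 n, BS F Q l (p * l / q + 1) m := by
  classical
  have hpm : p * m ≤ n := le_trans (Nat.mul_le_mul_right _ (Nat.le_add_right _ _)) hn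
  have hqm : q * m ≤ n := le_trans (Nat.mul_le_mul_right _ (Nat.le_add_left _ _)) hn
  ext z
  simp only [Set.mem_union, Set.mem_iUnion, Finset.mem_Icc, exists_prop]
  constructor
  · rintro ⟨h0, h1, h2⟩
    have hm : PowerSeries.coeff m (aeval z.2 F) ≠ 0 := hQ.2 _ h2
    have hx0 := h0 0
    have hy0 := h0 1
    -- the part with `ord y = l`, `ord x > p l / q`
    have hB : ∀ l, (∀ j < l, PowerSeries.coeff j (z.2 1) = 0) →
        PowerSeries.coeff l (z.2 1) ≠ 0 →
        (∀ j < p * l / q + 1, PowerSeries.coeff j (z.2 0) = 0) →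
        ∃ l, (1 ≤ l ∧ l ≤ n) ∧ z ∈ BS F Q l (p * l / q + 1) m := by
      intro l h3 h4 h5
      refine ⟨l, ⟨?_, ?_⟩, h3, h4, h5, h1, h2⟩
      · rcases Nat.eq_zero_or_pos l with h6 | h6
        · rw [h6] at h4
          exact absurd hy0 h4
        · exact h6
      · by_contra h6
        apply hm
        refine ord_ge F z.2 (p * l / q + 1) l (m + 1) h5 h3 ?_ m (Nat.lt_succ_self m)
        intro d hd
        have h7 := hF d hd
        have h8 : p * l ≤ q * (p * l / q + 1) := by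
          rw [mul_add, mul_one]
          exact (Nat.lt_mul_div_succ (p * l) hq).le
        by_contra h9
        have h10 : (p * l / q + 1) * d 0 + l * d 1 ≤ m := by omega
        have h11 : q * ((p * l / q + 1) * d 0 + l * d 1) ≤ q * m := Nat.mul_le_mul_left _ h10
        have h12 : l * (p * d 0 + q * d 1) ≤ q * ((p * l / q + 1) * d 0 + l * d 1) := by
          calc l * (p * d 0 + q * d 1) = (p * l) * d 0 + q * (l * d 1) := by ring
            _ ≤ (q * (p * l / q + 1)) * d 0 + q * (l * d 1) :=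
              Nat.add_le_add_right (Nat.mul_le_mul_right _ h8) _
            _ = q * ((p * l / q + 1) * d 0 + l * d 1) := by ring
        have h13 : l * 1 ≤ l * (p * d 0 + q * d 1) := Nat.mul_le_mul_left _ (by omega)
        omega
    by_cases hx : ∃ j, PowerSeries.coeff j (z.2 0) ≠ 0
    · obtain ⟨k, hk1, hk2⟩ : ∃ k, PowerSeries.coeff k (z.2 0) ≠ 0 ∧
          ∀ j < k, PowerSeries.coeff j (z.2 0) = 0 := by
        refine ⟨Nat.find hx, Nat.find_spec hx, fun j hj => ?_⟩
        by_contra h3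
        exact Nat.find_min hx hj h3
      by_cases hy : ∃ j, p * j < q * k ∧ PowerSeries.coeff j (z.2 1) ≠ 0
      · right
        obtain ⟨j0, hj0, hj1⟩ := hy
        have hy' : ∃ j, PowerSeries.coeff j (z.2 1) ≠ 0 := ⟨j0, hj1⟩
        obtain ⟨l, hl1, hl2, hl3⟩ : ∃ l, PowerSeries.coeff l (z.2 1) ≠ 0 ∧
            (∀ j < l, PowerSeries.coeff j (z.2 1) = 0) ∧ l ≤ j0 := by
          refine ⟨Nat.find hy', Nat.find_spec hy', fun j hj => ?_, Nat.find_min' hy' hj1⟩
          by_contra h3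
          exact Nat.find_min hy' hj h3
        refine hB l hl2 hl1 fun j hj => hk2 j ?_
        have h3 : j ≤ p * l / q := Nat.lt_succ_iff.1 hj
        rw [Nat.le_div_iff_mul_le hq] at h3
        have h4 : p * l ≤ p * j0 := Nat.mul_le_mul_left _ hl3
        have h5 : q * j < q * k := by
          rw [mul_comm q j]
          omega
        exact Nat.lt_of_mul_lt_mul_left h5
      · left
        have hy2 : ∀ j < LA p q k, PowerSeries.coeff j (z.2 1) = 0 := by
          intro j hj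
          by_contra h3
          exact hy ⟨j, (lt_LA hp hc j).1 hj, h3⟩
        refine ⟨k, ⟨?_, ?_⟩, hk2, hk1, hy2, h1, h2⟩
        · rcases Nat.eq_zero_or_pos k with h6 | h6
          · rw [h6] at hk1
            exact absurd hx0 hk1
          · exact h6
        · by_contra h6
          apply hm
          refine ord_ge F z.2 k (LA p q k) (m + 1) hk2 hy2 ?_ m (Nat.lt_succ_self m)
          intro d hd
          have h7 := hF d hd
          have h8 := mul_LA hp hc (q := q) (k := k)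
          by_contra h9
          have h10 : k * d 0 + LA p q k * d 1 ≤ m := by omega
          have h11 : p * (k * d 0 + LA p q k * d 1) ≤ p * m := Nat.mul_le_mul_left _ h10
          have h12 : k * (p * d 0 + q * d 1) ≤ p * (k * d 0 + LA p q k * d 1) := by
            calc k * (p * d 0 + q * d 1) = p * (k * d 0) + (q * k) * d 1 := by ring
              _ ≤ p * (k * d 0) + (p * LA p q k) * d 1 :=
                Nat.add_le_add_left (Nat.mul_le_mul_right _ h8) _
              _ = p * (k * d 0 + LA p q k * d 1) := by ring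
          have h13 : k * 1 ≤ k * (p * d 0 + q * d 1) := Nat.mul_le_mul_left _ (by omega)
          omega
    · right
      have hx' : ∀ j, PowerSeries.coeff j (z.2 0) = 0 := fun j => by
        by_contra h3
        exact hx ⟨j, h3⟩
      by_cases hy : ∃ j, PowerSeries.coeff j (z.2 1) ≠ 0
      · obtain ⟨l, hl1, hl2⟩ : ∃ l, PowerSeries.coeff l (z.2 1) ≠ 0 ∧
            (∀ j < l, PowerSeries.coeff j (z.2 1) = 0) := by
          refine ⟨Nat.find hy, Nat.find_spec hy, fun j hj => ?_⟩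
          by_contra h3
          exact Nat.find_min hy hj h3
        exact hB l hl2 hl1 fun j _ => hx' j
      · exfalso
        apply hm
        refine ord_ge F z.2 (m + 1) (m + 1) (m + 1) (fun j _ => hx' j) (fun j _ => ?_) ?_ m
          (Nat.lt_succ_self m)
        · by_contra h3
          exact hy ⟨j, h3⟩
        · intro d hd
          have h7 := hF d hd
          have h8 : 1 ≤ d 0 + d 1 := by
            by_contra h9
            have e0 : d 0 = 0 := by omega
            have e1 : d 1 = 0 := by omega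
            rw [e0, e1] at h7
            omega
          calc m + 1 = (m + 1) * 1 := (mul_one _).symm
            _ ≤ (m + 1) * (d 0 + d 1) := Nat.mul_le_mul_left _ h8
            _ = (m + 1) * d 0 + (m + 1) * d 1 := by ring
  · rintro (⟨k, ⟨hk1, -⟩, h1, h2, h3, h4⟩ | ⟨l, ⟨hl1, -⟩, h1, h2, h3, h4⟩)
    · refine ⟨fun i => ?_, h4⟩
      fin_cases i
      · exact h1 0 hk1
      · exact h3 0 ((lt_LA hp hc 0).2 (by rw [mul_zero]; exact Nat.mul_pos hq hk1))
    · refine ⟨fun i => ?_, h4⟩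
      fin_cases i
      · exact h3 0 (Nat.succ_pos _)
      · exact h1 0 hl1

/-- the decomposition -/
theorem dec [Finite E] (P : HodgeMeasure) (F : P2) {p q N : ℕ} (hp : 1 ≤ p) (hq : 1 ≤ q)
    (hc : p.Coprime q) (hN : 1 ≤ N) (hF : Low p q N F) {Q : Set (E ⊕ Unit → ℂ)} (hQ : QU Q)
    {m n : ℕ} (hn : (p + q) * m ≤ n) :
    vol P.rat xq (LS F Q m) =
      (∑ k ∈ Finset.Icc 1 n, xq ^ (k + 1) * vN P F Q k (LA p q k) m) +
        ∑ l ∈ Finset.Icc 1 n, xq ^ (l + 1) * vN P (swp F) Q l (p * l / q + 1) m := by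
  classical
  rw [cover F hp hq hc hN hF hQ hn]
  have hA : ∀ k ∈ Finset.Icc 1 n, Cy (AS F Q k (LA p q k) m) := fun k _ => Cy_AS F hQ.1 _ _ _
  have hB : ∀ l ∈ Finset.Icc 1 n, Cy (BS F Q l (p * l / q + 1) m) :=
    fun k _ => Cy_BS F hQ.1 _ _ _
  rw [vol_uni P (Cy.biUnion _ hA) (Cy.biUnion _ hB), vol_biU P _ hA, vol_biU P _ hB]
  · congr 1
    · refine Finset.sum_congr rfl fun k hk => ?_
      exact vol_AS P F hQ k _ m (Finset.mem_Icc.1 hk).1
    · refine Finset.sum_congr rfl fun l hl => ?_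
      exact vol_BS P F hQ l _ m (Finset.mem_Icc.1 hl).1
  · intro a _ b _ hab
    rw [Set.disjoint_left]
    rintro z ⟨h1, h2, -⟩ ⟨h3, h4, -⟩
    rcases Nat.lt_or_gt_of_ne hab with h | h
    · exact h2 (h3 a h)
    · exact h4 (h1 b h)
  · intro a _ b _ hab
    rw [Set.disjoint_left]
    rintro z ⟨h1, h2, -⟩ ⟨h3, h4, -⟩
    rcases Nat.lt_or_gt_of_ne hab with h | h
    · exact h2 (h3 a h)
    · exact h4 (h1 b h)
  · rw [Set.disjoint_left]
    intro z hz hz'
    simp only [Set.mem_iUnion, Finset.mem_Icc, exists_prop] at hz hz'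
    obtain ⟨k, -, h1, h2, h3, -⟩ := hz
    obtain ⟨l, -, h4, h5, h6, -⟩ := hz'
    have h7 : ¬ l < LA p q k := fun h => h5 (h3 l h)
    rw [lt_LA hp hc] at h7
    have h8 : ¬ k < p * l / q + 1 := fun h => h2 (h6 k h)
    have h9 : p * l / q < k := by omega
    rw [Nat.div_lt_iff_lt_mul hq] at h9
    rw [mul_comm k q] at h9
    omega

end

end DEC

end Pool.Agent.Mono.PC
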