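import Pool.Agent.Work.Monodromy.Interface6V
import Pool.Agent.Work.Monodromy4.Q1
import Pool.Agent.Work.Monodromy.Tor

/-!
# The cone between two rays: Haar part and exponential part (helper61)
-/

set_option autoImplicit false
set_option linter.unusedSectionVars false

namespace Pool.Agent.Mono.PC

open MvPolynomial TS RO TS.VAAux TS.VPAux TS.VSAux

namespace SCD

/-- facts about resolved regions up to the first cone -/
theorem rbf {Λ : Set ℚ} {G : P2} {ν p q : ℕ} {o : Option (ℂ × ℕ × ℕ × ℕ × ℕ)}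
    (h : RB Λ G ν p q o) : ∀ (c : ℂ) (A B p' q' : ℕ), o = some (c, A, B, p', q') →
      c ≠ 0 ∧ q * p' < q' * p ∧ 1 ≤ p ∧ 1 ≤ B ∧ 1 ≤ p * A + q * B ∧ 1 ≤ p' * A + q' * B := by
  induction h with
  | fin0 => intro c A B p' q' h; cases h
  | fin1 g h ν p q A₁ A₂ B hp hB g1 g2 g3 h1 h2 hN =>
    intro c A B' p' q' h
    simp only [Option.some.injEq, Prod.mk.injEq] at h
    obtain ⟨rfl, rfl, rfl, rfl, rfl⟩ := h
    refine ⟨mul_ne_zero (pow_ne_zero _ g1) h1, by omega, hp, hB, hN, ?_⟩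
    omega
  | step G ν p q p' q' aL bR I hp hpq he h1 hN h2 h3 h4 _ _ =>
    intro c A B' p'' q'' h
    simp only [Option.some.injEq, Prod.mk.injEq] at h
    obtain ⟨rfl, rfl, rfl, rfl, rfl⟩ := h
    have h5 := he.deg
    have h6 := he.hp
    have h7 := he.hq
    have h8 : 1 ≤ p' * I.natDegree := Nat.mul_pos h6 h5
    refine ⟨?_, hpq, hp, by omega, hN, ?_⟩
    · intro h9
      rw [Polynomial.leadingCoeff_eq_zero] at h9
      rw [h9, Polynomial.natDegree_zero] at h5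
      omega
    · have : 1 ≤ q' * (bR + p' * I.natDegree) := Nat.mul_pos h7 (by omega)
      omega
  | close => intro c A B p' q' h; cases h
  | coord G ν p q o ψ hψ h ih => exact ih

/-! ## Classes -/

section

variable {E : Type} [Finite E] (P : HodgeMeasure)

/-- the family `(a, b) ∈ (ℂ^*)²`, `u(a, b) ≠ 0` -/
noncomputable def fam2 (u : P2) (κ : ℕ → K) : Fam where
  σ := Fin 2
  fin := inferInstance
  S := {z | z 0 ≠ 0 ∧ z 1 ≠ 0 ∧ eval z u ≠ 0}
  u := u
  κ := κ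

theorem fam2_good (u : P2) (κ : ℕ → K) : (fam2 u κ).Good := by
  refine ⟨?_, fun τ hτ => hτ.2.2⟩
  have h0 := Constructible.ne (X 0 : P2)
  have h1 := Constructible.ne (X 1 : P2)
  simp only [eval_X] at h0 h1
  exact Constructible.and h0 (Constructible.and h1 (Constructible.ne u))

theorem fcl_fam2 (u : P2) (κ : ℕ → K) {Q : Set (E ⊕ Unit → ℂ)} (hQ : QU Q) :
    fcl P (fam2 u κ) Q = c2 P u Q := by
  unfold fcl c2
  congr 1
  ext z
  constructor
  · rintro ⟨⟨h0, h1, -⟩, h2⟩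
    exact ⟨h0, h1, h2⟩
  · rintro ⟨h0, h1, h2⟩
    exact ⟨⟨h0, h1, hQ.2 _ h2⟩, h2⟩

theorem con_c2 (u : P2) {Q : Set (E ⊕ Unit → ℂ)} (hQ : Constructible Q) :
    Constructible {z : E ⊕ Fin 2 → ℂ | z (Sum.inr 0) ≠ 0 ∧ z (Sum.inr 1) ≠ 0 ∧
      (Sum.elim (fun e => z (Sum.inl e)) fun _ => eval (fun i => z (Sum.inr i)) u) ∈ Q} := by
  have h0 := Constructible.ne (X (Sum.inr 0) : MvPolynomial (E ⊕ Fin 2) ℂ)
  have h1 := Constructible.ne (X (Sum.inr 1) : MvPolynomial (E ⊕ Fin 2) ℂ)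
  simp only [eval_X] at h0 h1
  refine Constructible.and h0 (Constructible.and h1 ?_)
  have h2 := Constructible.preimage (Sum.elim (fun e => X (Sum.inl e)) fun _ =>
    rename Sum.inr u : E ⊕ Unit → MvPolynomial (E ⊕ Fin 2) ℂ) hQ
  convert h2 using 1
  ext z
  simp only [Set.mem_ofPred_eq]
  have : (Sum.elim (fun e => z (Sum.inl e)) fun _ => eval (fun i => z (Sum.inr i)) u) =
      fun j => eval z ((Sum.elim (fun e => X (Sum.inl e)) fun _ =>
        rename Sum.inr u : E ⊕ Unit → MvPolynomial (E ⊕ Fin 2) ℂ) j) := by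
    funext j
    rcases j with j | j
    · simp
    · simp only [Sum.elim_inr, eval_rename]
      rfl
  rw [this]

theorem con_fclh {Q : Set (E ⊕ Unit → ℂ)} (hQ : Constructible Q) :
    Constructible {z : E ⊕ Unit → ℂ | (fun s => z (Sum.inr s)) ∈ {τ : Unit → ℂ | τ () ≠ 0} ∧
      (Sum.elim (fun e => z (Sum.inl e)) fun _ =>
        eval (fun s => z (Sum.inr s)) (X () : MvPolynomial Unit ℂ)) ∈ Q} := by
  have h0 := Constructible.ne (X (Sum.inr ()) : MvPolynomial (E ⊕ Unit) ℂ)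
  simp only [eval_X] at h0
  have e1 : ∀ z : E ⊕ Unit → ℂ, (Sum.elim (fun e => z (Sum.inl e)) fun _ =>
      eval (fun s => z (Sum.inr s)) (X () : MvPolynomial Unit ℂ)) = z := by
    intro z
    funext j
    rcases j with j | ⟨⟩
    · rfl
    · simp
  have h1 := Constructible.and h0 hQ
  convert h1 using 1
  ext z
  simp only [Set.mem_ofPred_eq, e1]
  exact Iff.rfl

/-- the class of the Haar family -/
theorem fcl_haar (α β : K) (Q : Set (E ⊕ Unit → ℂ)) : fcl P (haar α) Q = fcl P (haar β) Q := rfl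

theorem eval_mono (z : Fin 2 → ℂ) (c : ℂ) (A B : ℕ) :
    eval z (C c * X 0 ^ A * X 1 ^ B : P2) = c * z 0 ^ A * z 1 ^ B := by
  simp

theorem c2_swap (c : ℂ) (A B : ℕ) {Q : Set (E ⊕ Unit → ℂ)} (hQ : Constructible Q) :
    c2 P (C c * X 0 ^ A * X 1 ^ B) Q = c2 P (C c * X 0 ^ B * X 1 ^ A) Q := by
  unfold c2
  refine P.rat.val_of_inv (con_c2 _ hQ) (con_c2 _ hQ) (Sum.elim (fun e => X (Sum.inl e))
    ![X (Sum.inr 1), X (Sum.inr 0)]) (fun y => Sum.elim (fun e => y (Sum.inl e))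
      ![y (Sum.inr 1), y (Sum.inr 0)]) ?_ ?_ ?_ ?_
  · rintro z ⟨h0, h1, h2⟩
    refine ⟨by simpa using h1, by simpa using h0, ?_⟩
    rw [eval_mono] at h2 ⊢
    convert h2 using 1
    funext j
    rcases j with j | j
    · simp
    · simp [mul_right_comm]
  · rintro z ⟨h0, h1, h2⟩
    refine ⟨by simpa using h1, by simpa using h0, ?_⟩
    rw [eval_mono] at h2 ⊢
    convert h2 using 1
    funext j
    rcases j with j | j
    · simp
    · simp [mul_right_comm]
  · rintro z -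
    funext j
    rcases j with j | j
    · simp
    · fin_cases j <;> simp
  · rintro z -
    funext j
    rcases j with j | j
    · simp
    · fin_cases j <;> simp

/-- `B = 1`: a Haar part -/
theorem c2_haar (c : ℂ) (hc : c ≠ 0) (A : ℕ) {Q : Set (E ⊕ Unit → ℂ)} (hQ : QU Q) :
    c2 P (C c * X 0 ^ A * X 1 ^ 1) Q = (RatFunc.X - 1) * fcl P (haar 1) Q := by
  have hst : Constructible {t : Unit → ℂ | t () ≠ 0} := by
    have := Constructible.ne (X () : MvPolynomial Unit ℂ)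
    simpa using this
  have h1 := P.rat.prod _ _ (con_fclh hQ.1) hst
  have h2 : P.rat.val {t : Unit → ℂ | t () ≠ 0} = RatFunc.X - 1 := by
    rw [TorX.val_star, P.rat_L]
  have h3 : fcl P (haar 1) Q = P.rat.val {z : E ⊕ Unit → ℂ | (fun s => z (Sum.inr s)) ∈
      {τ : Unit → ℂ | τ () ≠ 0} ∧ (Sum.elim (fun e => z (Sum.inl e)) fun _ =>
        eval (fun s => z (Sum.inr s)) (X () : MvPolynomial Unit ℂ)) ∈ Q} := rfl
  rw [h3, ← h2, mul_comm (P.rat.val {t : Unit → ℂ | t () ≠ 0}), ← h1]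
  have e1 : ∀ z : E ⊕ Unit → ℂ, (Sum.elim (fun e => z (Sum.inl e)) fun _ =>
      eval (fun s => z (Sum.inr s)) (X () : MvPolynomial Unit ℂ)) = z := by
    intro z
    funext j
    rcases j with j | ⟨⟩
    · rfl
    · simp
  unfold c2
  refine P.rat.val_of_inv (con_c2 _ hQ.1) (Constructible.prodSet (con_fclh hQ.1) hst)
    (Sum.elim (Sum.elim (fun e => X (Sum.inl e)) fun _ => C c * X (Sum.inr 0) ^ A *
      X (Sum.inr 1)) fun _ => X (Sum.inr 0))
    (fun y => Sum.elim (fun e => y (Sum.inl (Sum.inl e))) ![y (Sum.inr ()),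
      y (Sum.inl (Sum.inr ())) / (c * y (Sum.inr ()) ^ A)]) ?_ ?_ ?_ ?_
  · rintro z ⟨h4, h5, h6⟩
    rw [eval_mono] at h6
    have h7 : (fun i => (fun j => eval z ((Sum.elim (Sum.elim (fun e => X (Sum.inl e))
        fun _ => C c * X (Sum.inr 0) ^ A * X (Sum.inr 1)) fun _ => X (Sum.inr 0) :
          (E ⊕ Unit) ⊕ Unit → MvPolynomial (E ⊕ Fin 2) ℂ) j)) (Sum.inl i)) =
        (Sum.elim (fun e => z (Sum.inl e)) fun _ => c * z (Sum.inr 0) ^ A *
          z (Sum.inr 1) ^ 1 : E ⊕ Unit → ℂ) := by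
      funext j
      rcases j with j | j
      · simp
      · simp
    refine ⟨?_, by simpa using h4⟩
    rw [h7]
    refine ⟨?_, by rw [e1]; exact h6⟩
    change c * z (Sum.inr 0) ^ A * z (Sum.inr 1) ^ 1 ≠ 0
    exact mul_ne_zero (mul_ne_zero hc (pow_ne_zero _ h4)) (pow_ne_zero _ h5)
  · rintro y ⟨⟨h4, h5'⟩, h6⟩
    have h5 : (fun i => y (Sum.inl i)) ∈ Q :=
      (congrArg (fun f => f ∈ Q) (e1 fun i => y (Sum.inl i))).mp h5'
    have h4' : y (Sum.inl (Sum.inr ())) ≠ 0 := h4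
    have h6' : y (Sum.inr ()) ≠ 0 := h6
    have h8 : c * y (Sum.inr ()) ^ A ≠ 0 := mul_ne_zero hc (pow_ne_zero _ h6')
    refine ⟨by simpa using h6', ?_, ?_⟩
    · have : y (Sum.inl (Sum.inr ())) / (c * y (Sum.inr ()) ^ A) ≠ 0 := div_ne_zero h4' h8
      simpa using this
    · rw [eval_mono]
      convert h5 using 1
      funext j
      rcases j with j | ⟨⟩
      · rfl
      · simp only [Sum.elim_inr, Matrix.cons_val_zero, Matrix.cons_val_one, pow_one]
        field_simp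
  · rintro z ⟨h4, h5, h6⟩
    funext j
    rcases j with j | j
    · simp
    · fin_cases j
      · simp
      · simp only [Sum.elim_inr, Fin.mk_one, Matrix.cons_val_one, Matrix.cons_val_zero,
          Sum.elim_inl, map_mul, eval_C, map_pow, eval_X]
        field_simp
  · rintro y ⟨⟨h4, h5⟩, h6⟩
    have h6' : y (Sum.inr ()) ≠ 0 := h6
    funext j
    rcases j with (j | ⟨⟩) | ⟨⟩
    · simp
    · simp only [Sum.elim_inl, Sum.elim_inr, map_mul, eval_C, map_pow, eval_X,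
        Matrix.cons_val_zero, Matrix.cons_val_one]
      field_simp
    · simp

end

/-- the cone between two rays -/
theorem scd (h1 : Stmt_SC1) (h2 : Stmt_SC2) (h3 : Stmt_SC3) (P : HodgeMeasure) {Λ : Set ℚ}
    {ν p q A B p' q' : ℕ} (hp : 1 ≤ p) (hpq : q * p' < q' * p) (hS : SCond Λ ν p q A B p' q')
    (c : ℂ) (hc : c ≠ 0) :
    ∃ (α : K) (t : Fam), t.Good ∧ ESeq Λ t.κ ∧ ∀ (E : Type) [Finite E]
      (Q : Set (E ⊕ Unit → ℂ)), QU Q → ∀ m : ℕ, 1 ≤ m →
        coneS ν p q A B p' q' m * c2 P (C c * X 0 ^ A * X 1 ^ B) Q =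
          (haar α).κ m * fcl P (haar α) Q + t.κ m * fcl P t Q := by
  obtain ⟨hN, hN', hS⟩ := hS
  obtain ⟨q1, q2, -⟩ := stmt_Q1
  have main : ∀ (a : K) (κ : ℕ → K), ESeq Λ κ →
      (∀ m, 1 ≤ m → coneS ν p q A B p' q' m = a * xq ^ m + κ m) → (a = 0 ∨ B = 1 ∨ A = 1) →
      ∃ (α : K) (t : Fam), t.Good ∧ ESeq Λ t.κ ∧ ∀ (E : Type) [Finite E]
      (Q : Set (E ⊕ Unit → ℂ)), QU Q → ∀ m : ℕ, 1 ≤ m →
        coneS ν p q A B p' q' m * c2 P (C c * X 0 ^ A * X 1 ^ B) Q =
          (haar α).κ m * fcl P (haar α) Q + t.κ m * fcl P t Q := by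
    intro a κ hκ hm ha
    refine ⟨a * (RatFunc.X - 1), fam2 (C c * X 0 ^ A * X 1 ^ B) κ, fam2_good _ _, hκ, ?_⟩
    intro E _ Q hQ m hm1
    rw [fcl_fam2 P _ _ hQ, hm m hm1, fcl_haar P _ 1]
    change _ = a * (RatFunc.X - 1) * xq ^ m * _ + κ m * _
    have h5 : a * c2 P (C c * X 0 ^ A * X 1 ^ B) Q =
        a * ((RatFunc.X - 1) * fcl P (haar 1) Q) := by
      rcases ha with ha | ha | ha
      · rw [ha, zero_mul, zero_mul]
      · subst ha
        rw [c2_haar P c hc A hQ]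
      · subst ha
        rw [c2_swap P c 1 B hQ.1, c2_haar P c hc B hQ]
    linear_combination xq ^ m * h5
  rcases hS with ⟨r1, r2⟩ | ⟨e1, e2, e3, r1, r2⟩ | ⟨e1, e2, e3, e4, r1, r2⟩
  · refine main 0 (fun m => coneS ν p q A B p' q' m) ?_ (fun m _ => by ring) (Or.inl rfl)
    refine q1 _ _ _ ?_ (h1 ν p q A B p' q' hpq hN hN')
    rintro r (rfl | rfl)
    · exact r1
    · exact r2
  · subst e1 e2 e3
    have h6 : ν ≠ A := by
      rintro rfl
      apply r2
      have h7 : ((p * ν + q * 1 : ℕ) : ℚ) ≠ 0 := by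
        have : p * ν + q * 1 ≠ 0 := by omega
        exact_mod_cast this
      rw [rate]
      rw [show p * ν + q = p * ν + q * 1 by omega]
      exact div_self h7
    obtain ⟨a, κ, hκ, hm⟩ := h2 ν p q A hp (by omega) h6
    refine main a κ (q1 _ _ _ ?_ hκ) hm (Or.inr (Or.inl rfl))
    rintro r rfl
    exact r1
  · subst e1 e2 e3 e4
    -- the mirror image
    have h6 : 1 ≤ q' := by
      by_contra h7
      have : q' = 0 := by omega
      subst this
      omega
    have h7 : (1 : ℕ) ≠ B := by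
      rintro rfl
      apply r2
      have h7 : ((p' * 1 + q' * 1 : ℕ) : ℚ) ≠ 0 := by
        have : p' * 1 + q' * 1 ≠ 0 := by omega
        exact_mod_cast this
      rw [rate]
      rw [show p' * 1 + q' = p' * 1 + q' * 1 by omega]
      exact div_self h7
    obtain ⟨a, κ, hκ, hm⟩ := h2 1 q' p' B h6 (by omega) h7
    refine main a κ (q1 _ _ _ ?_ hκ) ?_ (Or.inr (Or.inr rfl))
    · rintro r rfl
      have : rate 1 B 1 q' p' = rate 1 1 B p' q' := by
        rw [rate, rate]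
        congr 2
        · omega
        · omega
      rw [this]
      exact r1
    · intro m hm1
      rw [h3 1 0 1 B p' q' m]
      exact hm m hm1

end SCD

end Pool.Agent.Mono.PC
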