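import Pool.Agent.Work.Monodromy6.VRM
import Pool.Agent.Work.Monodromy6.DEC
import Pool.Agent.Work.Monodromy6.SCD

/-!
# Block VM0: the mass at the origin
-/

set_option autoImplicit false

namespace Pool.Agent.Mono.PC

open MvPolynomial TS RO

namespace VM0Aux

open VRMAux

/-! ## Double sums -/

/-- sums of weighted levels, in both orders -/
theorem dbl {ρ : ℝ} (h0 : 0 < ρ) (h1 : ρ < 1) (a : ℕ → ℕ → ℝ) (s : ℕ → ℝ) (E : ℝ)
    (h : ∀ k, HB (a k) (s k) E) :
    ∃ (T : ℝ) (A : ℕ → ℝ), HasSum (fun k => ρ ^ (k + 2) * s k) T ∧ HasSum A T ∧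
      ∀ m, HasSum (fun k => ρ ^ (k + 2) * a k m) (A m) := by
  have hE : 0 ≤ E := (h 0).nonneg
  set F : ℕ × ℕ → ℝ := fun z => ρ ^ (z.1 + 2) * a z.1 z.2 with hF
  have hpow : ∀ k : ℕ, ρ ^ (k + 2) ≤ ρ ^ k := by
    intro k
    exact pow_le_pow_of_le_one h0.le h1.le (by omega)
  have hsumF : Summable F := by
    apply Summable.of_abs
    refine summable_of_sum_le (c := (1 - ρ)⁻¹ * E) (fun z => abs_nonneg _) fun u => ?_
    have h2 : u ⊆ u.image Prod.fst ×ˢ u.image Prod.snd := by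
      intro z hz
      rw [Finset.mem_product]
      exact ⟨Finset.mem_image_of_mem _ hz, Finset.mem_image_of_mem _ hz⟩
    calc ∑ z ∈ u, |F z| ≤ ∑ z ∈ u.image Prod.fst ×ˢ u.image Prod.snd, |F z| :=
          Finset.sum_le_sum_of_subset_of_nonneg h2 fun _ _ _ => abs_nonneg _
      _ = ∑ k ∈ u.image Prod.fst, ∑ m ∈ u.image Prod.snd, |F (k, m)| := Finset.sum_product _ _ _
      _ ≤ ∑ k ∈ u.image Prod.fst, ρ ^ k * E := by
          refine Finset.sum_le_sum fun k _ => ?_
          have e1 : ∀ m ∈ u.image Prod.snd, |F (k, m)| = ρ ^ (k + 2) * |a k m| := by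
            intro m _
            change |ρ ^ (k + 2) * a k m| = _
            rw [abs_mul, abs_of_nonneg (pow_nonneg h0.le _)]
          rw [Finset.sum_congr rfl e1, ← Finset.mul_sum]
          exact mul_le_mul (hpow k) ((h k).2 _)
            (Finset.sum_nonneg fun _ _ => abs_nonneg _) (pow_nonneg h0.le _)
      _ = (∑ k ∈ u.image Prod.fst, ρ ^ k) * E := by rw [Finset.sum_mul]
      _ ≤ (1 - ρ)⁻¹ * E := by
          apply mul_le_mul_of_nonneg_right _ hE
          exact sum_le_hasSum _ (fun _ _ => pow_nonneg h0.le _)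
            (hasSum_geometric_of_lt_one h0.le h1)
  have hsw : Summable fun z : ℕ × ℕ => F (z.2, z.1) :=
    (Equiv.prodComm ℕ ℕ).summable_iff.2 hsumF
  have hsw' : HasSum (fun z : ℕ × ℕ => F (z.2, z.1)) (∑' z, F z) :=
    (Equiv.prodComm ℕ ℕ).hasSum_iff.2 hsumF.hasSum
  have hfib : ∀ m, Summable fun k => F (k, m) := fun m => hsw.prod_factor m
  refine ⟨∑' z, F z, fun m => ∑' k, F (k, m), ?_, ?_, fun m => (hfib m).hasSum⟩
  · refine hsumF.hasSum.prod_fiberwise fun k => ?_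
    exact (h k).1.mul_left _
  · exact hsw'.prod_fiberwise fun m => (hfib m).hasSum

/-- the tail of a geometric series -/
theorem geo_tail {ρ u : ℝ} (h0 : 0 < ρ) (h1 : ρ < 1) (hu : ρ * u = 1) (L : ℕ) (hL : 1 ≤ L) :
    HasSum (fun l : ℕ => if L ≤ l + 1 then (u - 1) * ρ ^ (l + 2) else 0) (ρ ^ L) := by
  obtain ⟨L', rfl⟩ := Nat.exists_eq_add_of_le' hL
  have h2 := (hasSum_nat_add_iff (f := fun l : ℕ => if L' + 1 ≤ l + 1 then (u - 1) * ρ ^ (l + 2)
    else 0) L' (g := ρ ^ (L' + 1))).1 ?_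
  · have h3 : ∑ i ∈ Finset.range L', (if L' + 1 ≤ i + 1 then (u - 1) * ρ ^ (i + 2) else 0) = 0 := by
      apply Finset.sum_eq_zero
      intro i hi
      rw [Finset.mem_range] at hi
      rw [if_neg (by omega)]
    rw [h3, add_zero] at h2
    exact h2
  · have h3 := (hasSum_geometric_of_lt_one h0.le h1).mul_left ((u - 1) * ρ ^ (L' + 2))
    have h4 : (u - 1) * ρ ^ (L' + 2) * (1 - ρ)⁻¹ = ρ ^ (L' + 1) := by
      have h5 : 1 - ρ ≠ 0 := by linarith
      rw [mul_inv_eq_iff_eq_mul₀ h5, pow_succ ρ (L' + 1)]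
      linear_combination ρ ^ (L' + 1) * hu
    rw [h4] at h3
    have h6 : (fun n => if L' + 1 ≤ n + L' + 1 then (u - 1) * ρ ^ (n + L' + 2) else 0) =
        fun n => (u - 1) * ρ ^ (L' + 2) * ρ ^ n := by
      funext n
      rw [if_pos (by omega), mul_assoc, ← pow_add]
      congr 2
      omega
    change HasSum (fun n => if L' + 1 ≤ n + L' + 1 then (u - 1) * ρ ^ (n + L' + 2) else 0) _
    rw [h6]
    exact h3

/-- the two halves of the quadrant -/
theorem halves {ρ u : ℝ} (h0 : 0 < ρ) (h1 : ρ < 1) (hu : ρ * u = 1) {p q : ℕ} (hp : 1 ≤ p)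
    (hq : 1 ≤ q) (hc : p.Coprime q) {T₁ T₂ : ℝ}
    (hT₁ : HasSum (fun k : ℕ => ρ ^ (k + 2) * ((u - 1) * ρ ^ LA p q (k + 1))) T₁)
    (hT₂ : HasSum (fun l : ℕ => ρ ^ (l + 2) * ((u - 1) * ρ ^ (p * (l + 1) / q + 1))) T₂) :
    T₁ + T₂ = ρ ^ 2 := by
  have hu1 : 0 < u - 1 := by
    by_contra h
    have : u ≤ 1 := by linarith
    nlinarith
  have hg : HasSum (fun l : ℕ => (u - 1) * ρ ^ (l + 2)) ρ := by
    have h2 := geo_tail h0 h1 hu 1 le_rfl
    rw [pow_one] at h2
    have h3 : (fun l : ℕ => if 1 ≤ l + 1 then (u - 1) * ρ ^ (l + 2) else 0) =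
        fun l : ℕ => (u - 1) * ρ ^ (l + 2) := by
      funext l
      rw [if_pos (by omega)]
    rw [h3] at h2
    exact h2
  have hnn : ∀ l : ℕ, 0 ≤ (u - 1) * ρ ^ (l + 2) := fun l => mul_nonneg hu1.le (pow_nonneg h0.le _)
  set W : ℕ × ℕ → ℝ := fun z => (u - 1) * ρ ^ (z.1 + 2) * ((u - 1) * ρ ^ (z.2 + 2)) with hW
  have hWnn : ∀ z, 0 ≤ W z := fun z => mul_nonneg (hnn z.1) (hnn z.2)
  have hWs : Summable W := hg.summable.mul_of_nonneg hg.summable hnn hnn
  have hWsum : HasSum W (ρ * ρ) := by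
    have h2 : HasSum (fun k : ℕ => (u - 1) * ρ ^ (k + 2) * ρ) (∑' z, W z) :=
      hWs.hasSum.prod_fiberwise fun k => hg.mul_left _
    have h3 := hg.mul_right ρ
    rw [← h2.unique h3]
    exact hWs.hasSum
  set W₁ : ℕ × ℕ → ℝ := fun z => if LA p q (z.1 + 1) ≤ z.2 + 1 then W z else 0 with hW₁
  set W₂ : ℕ × ℕ → ℝ := fun z => if p * (z.2 + 1) / q + 1 ≤ z.1 + 1 then W z else 0 with hW₂
  have hs₁ : Summable W₁ := by
    refine Summable.of_nonneg_of_le (fun z => ?_) (fun z => ?_) hWs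
    · change 0 ≤ (if LA p q (z.1 + 1) ≤ z.2 + 1 then W z else 0)
      split_ifs
      · exact hWnn z
      · exact le_rfl
    · change (if LA p q (z.1 + 1) ≤ z.2 + 1 then W z else 0) ≤ W z
      split_ifs
      · exact le_rfl
      · exact hWnn z
  have hs₂ : Summable W₂ := by
    refine Summable.of_nonneg_of_le (fun z => ?_) (fun z => ?_) hWs
    · change 0 ≤ (if p * (z.2 + 1) / q + 1 ≤ z.1 + 1 then W z else 0)
      split_ifs
      · exact hWnn z
      · exact le_rfl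
    · change (if p * (z.2 + 1) / q + 1 ≤ z.1 + 1 then W z else 0) ≤ W z
      split_ifs
      · exact le_rfl
      · exact hWnn z
  have hLA : ∀ k : ℕ, 1 ≤ LA p q (k + 1) := by
    intro k
    have : 0 < LA p q (k + 1) := by
      rw [DEC.lt_LA hp hc, mul_zero]
      exact Nat.mul_pos hq (Nat.succ_pos k)
    exact this
  have hadd : ∀ z, W z = W₁ z + W₂ z := by
    intro z
    change W z = (if LA p q (z.1 + 1) ≤ z.2 + 1 then W z else 0) +
      (if p * (z.2 + 1) / q + 1 ≤ z.1 + 1 then W z else 0)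
    by_cases h : LA p q (z.1 + 1) ≤ z.2 + 1
    · rw [if_pos h, if_neg, add_zero]
      intro h2
      have h3 : ¬ z.2 + 1 < LA p q (z.1 + 1) := by omega
      rw [DEC.lt_LA hp hc] at h3
      have h4 : p * (z.2 + 1) / q < z.1 + 1 := by omega
      rw [Nat.div_lt_iff_lt_mul hq, mul_comm (z.1 + 1) q] at h4
      exact h3 h4
    · rw [if_neg h, if_pos, zero_add]
      have h3 : z.2 + 1 < LA p q (z.1 + 1) := by omega
      rw [DEC.lt_LA hp hc] at h3
      have h4 : p * (z.2 + 1) / q < z.1 + 1 := by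
        rw [Nat.div_lt_iff_lt_mul hq, mul_comm (z.1 + 1) q]
        exact h3
      omega
  have e₁ : HasSum (fun k : ℕ => ρ ^ (k + 2) * ((u - 1) * ρ ^ LA p q (k + 1))) (∑' z, W₁ z) := by
    refine hs₁.hasSum.prod_fiberwise fun k => ?_
    have h2 := (geo_tail h0 h1 hu (LA p q (k + 1)) (hLA k)).mul_left ((u - 1) * ρ ^ (k + 2))
    have h3 : (u - 1) * ρ ^ (k + 2) * ρ ^ LA p q (k + 1) =
        ρ ^ (k + 2) * ((u - 1) * ρ ^ LA p q (k + 1)) := by ring
    rw [h3] at h2
    refine h2.congr_fun ?_ |> fun h => h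
    intro l
    change (if LA p q (k + 1) ≤ l + 1 then W (k, l) else 0) = _
    split_ifs
    · rfl
    · rw [mul_zero]
  have e₂ : HasSum (fun l : ℕ => ρ ^ (l + 2) * ((u - 1) * ρ ^ (p * (l + 1) / q + 1)))
      (∑' z, W₂ z) := by
    have hsw : HasSum (fun z : ℕ × ℕ => W₂ (z.2, z.1)) (∑' z, W₂ z) :=
      (Equiv.prodComm ℕ ℕ).hasSum_iff.2 hs₂.hasSum
    refine hsw.prod_fiberwise fun l => ?_
    have h2 := (geo_tail h0 h1 hu (p * (l + 1) / q + 1) (Nat.le_add_left 1 _)).mul_left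
      ((u - 1) * ρ ^ (l + 2))
    have h3 : (u - 1) * ρ ^ (l + 2) * ρ ^ (p * (l + 1) / q + 1) =
        ρ ^ (l + 2) * ((u - 1) * ρ ^ (p * (l + 1) / q + 1)) := by ring
    rw [h3] at h2
    refine h2.congr_fun ?_ |> fun h => h
    intro k
    change (if p * (l + 1) / q + 1 ≤ k + 1 then W (k, l) else 0) = _
    split_ifs
    · exact mul_comm _ _
    · rw [mul_zero]
  have h2 : HasSum W (∑' z, W₁ z + ∑' z, W₂ z) := by
    have h3 := hs₁.hasSum.add hs₂.hasSum
    refine h3.congr_fun ?_ |> fun h => h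
    exact hadd
  rw [hT₁.unique e₁, hT₂.unique e₂, h2.unique hWsum, pow_two]

/-! ## The decomposition at the origin -/

section

variable (P : HodgeMeasure) (φ : K →+* ℝ)

variable {φ}

theorem sum_Icc_shift (n : ℕ) (f : ℕ → ℝ) :
    ∑ k ∈ Finset.Icc 1 n, f k = ∑ k ∈ Finset.range n, f (k + 1) := by
  rw [Finset.sum_bij' (fun k _ => k - 1) (fun k _ => k + 1)]
  · intro k hk
    rw [Finset.mem_Icc] at hk
    rw [Finset.mem_range]
    omega
  · intro k hk
    rw [Finset.mem_range] at hk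
    rw [Finset.mem_Icc]
    omega
  · intro k hk
    rw [Finset.mem_Icc] at hk
    omega
  · intro k _
    omega
  · intro k hk
    rw [Finset.mem_Icc] at hk
    rw [Nat.sub_add_cancel hk.1]

theorem mass (hφ : 1 < φ RatFunc.X) (F : P2) {p q N : ℕ} (hp : 1 ≤ p) (hq : 1 ≤ q)
    (hc : p.Coprime q) (hN : 1 ≤ N) (hF : Low p q N F) (E E' : ℝ)
    (h1 : ∀ k, 1 ≤ k → HB (fun m => φ (vN P F QF k (LA p q k) m))
      (φ (RatFunc.X - 1) * φ xq ^ LA p q k) E)
    (h2 : ∀ k, 1 ≤ k → HB (fun m => φ (vN P (swp F) QF k (p * k / q + 1) m))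
      (φ (RatFunc.X - 1) * φ xq ^ (p * k / q + 1)) E') :
    HasSum (fun m : ℕ => φ (vol P.rat xq (LS F QF m))) (φ (xq ^ 2)) := by
  obtain ⟨hx, hx0, hx1⟩ := phi_X hφ
  have hu : φ (RatFunc.X - 1) = φ RatFunc.X - 1 := by rw [map_sub, map_one]
  obtain ⟨T₁, A₁, t1, t2, t3⟩ := dbl hx0 hx1
    (fun k m => φ (vN P F QF (k + 1) (LA p q (k + 1)) m)) _ E fun k => h1 (k + 1) (by omega)
  obtain ⟨T₂, A₂, s1, s2, s3⟩ := dbl hx0 hx1
    (fun k m => φ (vN P (swp F) QF (k + 1) (p * (k + 1) / q + 1) m)) _ E'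
    fun k => h2 (k + 1) (by omega)
  rw [hu] at t1 s1
  have hT := halves hx0 hx1 hx hp hq hc t1 s1
  have h3 := t2.add s2
  rw [hT, ← map_pow] at h3
  refine h3.congr_fun ?_ |> fun h => h
  intro m
  have l1 := (t3 m).tendsto_sum_nat
  have l2 := (s3 m).tendsto_sum_nat
  have l3 := l1.add l2
  have l4 : Filter.Tendsto (fun n : ℕ => (∑ k ∈ Finset.range n, φ xq ^ (k + 2) *
      φ (vN P F QF (k + 1) (LA p q (k + 1)) m)) + ∑ k ∈ Finset.range n, φ xq ^ (k + 2) *
      φ (vN P (swp F) QF (k + 1) (p * (k + 1) / q + 1) m)) Filter.atTop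
      (nhds (φ (vol P.rat xq (LS F QF m)))) := by
    refine Filter.Tendsto.congr' ?_ tendsto_const_nhds
    rw [Filter.EventuallyEq, Filter.eventually_atTop]
    refine ⟨(p + q) * m, fun n hn => ?_⟩
    rw [DEC.dec P F hp hq hc hN hF CLV.QU_QF hn, map_add, map_sum, map_sum, sum_Icc_shift,
      sum_Icc_shift]
    congr 1
    · refine Finset.sum_congr rfl fun k _ => ?_
      rw [map_mul, map_pow]
    · refine Finset.sum_congr rfl fun k _ => ?_
      rw [map_mul, map_pow]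
  exact tendsto_nhds_unique l4 l3

/-- the levels of the closed half -/
theorem pk_LA (hφ : 1 < φ RatFunc.X) (hR : Stmt_VRAY) (G : P2) (p q aL bR : ℕ)
    (I : Polynomial ℂ) (he : IsEdge G p q aL bR I)
    (h3 : ∀ lam : ℂ, lam ≠ 0 → I.eval (lam ^ p) = 0 → PK P φ (chart p q lam G) 1 0)
    (h4 : PK P φ G p q) : ∃ E : ℝ, ∀ k, 1 ≤ k → HB (fun m => φ (vN P G QF k (LA p q k) m))
      (φ (RatFunc.X - 1) * φ xq ^ LA p q k) E := by
  classical
  obtain ⟨hx, hx0, hx1⟩ := phi_X hφ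
  have hp := he.hp
  have hq := he.hq
  have hI : I ≠ 0 := by
    intro h
    have := he.coeff_zero
    rw [h] at this
    simp at this
  have hroot0 : ∀ R ∈ I.roots.toFinset, R ≠ 0 := by
    intro R hR h
    rw [h] at hR
    have h3 := Multiset.mem_toFinset.1 hR
    rw [Polynomial.mem_roots hI, Polynomial.IsRoot, ← Polynomial.coeff_zero_eq_eval_zero] at h3
    exact he.coeff_zero h3
  have hρ : ∀ R : ℂ, ∃ r : ℂ, r ^ p = R := fun R => IsAlgClosed.exists_pow_nat_eq R hp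
  choose ρ hρ using hρ
  have hch : ∀ R : ℂ, ∃ D : ℝ, R ∈ I.roots.toFinset → ∀ k : ℕ, 1 ≤ k →
      HB (fun m => φ (vN P (chart p q (ρ R) G) QF k 1 m)) (φ (RatFunc.X - 1) * φ xq) D := by
    intro R
    by_cases hRr : R ∈ I.roots.toFinset
    · have hr0 : ρ R ≠ 0 := by
        intro h
        have h5 := hρ R
        rw [h, zero_pow (by omega)] at h5
        exact hroot0 R hRr h5.symm
      have hr1 : I.eval (ρ R ^ p) = 0 := by
        rw [hρ]
        have := Multiset.mem_toFinset.1 hRr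
        rwa [Polynomial.mem_roots hI] at this
      obtain ⟨D, hD⟩ := h3 (ρ R) hr0 hr1
      refine ⟨D, fun _ k hk => ?_⟩
      have h5 := hD k hk
      simpa using h5
    · exact ⟨0, fun h => absurd h hRr⟩
  choose D hD using hch
  obtain ⟨C', hC'⟩ := h4
  have hC'0 : 0 ≤ C' := (hC' 1 le_rfl).nonneg
  have hD0 : 0 ≤ ∑ R ∈ I.roots.toFinset, D R :=
    Finset.sum_nonneg fun R hR => (hD R hR 1 le_rfl).nonneg
  set E : ℝ := |φ (c2 P (edgePart p q aL bR I) QF)| + ∑ R ∈ I.roots.toFinset, D R + C' with hE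
  refine ⟨E, fun k hk => ?_⟩
  unfold LA
  split_ifs with hd
  · obtain ⟨k', rfl⟩ := hd
    have hk' : 1 ≤ k' := by
      rcases Nat.eq_zero_or_pos k' with h | h
      · rw [h] at hk
        omega
      · exact h
    rw [Nat.mul_div_cancel_left _ hp]
    have e0 : q * (p * k') / p + 1 = q * k' + 1 := by
      have : q * (p * k') = p * (q * k') := by ring
      rw [this, Nat.mul_div_cancel_left _ hp]
    have h5 := hC' (p * k') hk
    rw [e0] at h5
    have h6 : HB (fun m => ∑ R ∈ I.roots.toFinset,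
        φ xq ^ (q * k') * φ (vN P (chart p q (ρ R) G) QF k' 1 m))
        (∑ R ∈ I.roots.toFinset, φ xq ^ (q * k') * (φ (RatFunc.X - 1) * φ xq))
        (∑ R ∈ I.roots.toFinset, D R) := by
      refine HB.sum _ _ _ _ fun R hRr => ?_
      refine ((hD R hRr k' hk').smul (φ xq ^ (q * k'))).congr (fun _ => rfl) rfl ?_
      rw [abs_of_nonneg (pow_nonneg hx0.le _)]
      exact mul_le_of_le_one_left (hD R hRr 1 le_rfl).nonneg (pow_le_one₀ hx0.le hx1.le)
    have h7 := HB.single (edgeN p q aL bR I * k')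
      (φ (xq ^ (q * k' + 1) * c2 P (edgePart p q aL bR I) QF))
    refine ((h7.add h6).add h5).congr (fun m => ?_) ?_ ?_
    · rw [hR P G p q aL bR I ρ he hρ Empty QF CLV.QU_QF k' m hk', map_add, map_add, map_sum]
      congr 1
      congr 1
      · split_ifs
        · rfl
        · rw [map_zero]
      · refine Finset.sum_congr rfl fun R _ => ?_
        rw [map_mul, map_pow]
    · rw [CLV.c2_edge P hp hq he.cop aL bR he.coeff_zero, Finset.sum_const, nsmul_eq_mul]
      simp only [map_mul, map_pow, map_sub, map_one, map_natCast]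
      have e1 : φ xq ^ (q * k' + 1) = φ xq ^ (q * k') * φ xq := pow_succ _ _
      rw [e1]
      linear_combination (φ xq ^ (q * k') * (φ RatFunc.X - 1)) * hx
    · rw [hE]
      have h8 : |φ (xq ^ (q * k' + 1) * c2 P (edgePart p q aL bR I) QF)| ≤
          |φ (c2 P (edgePart p q aL bR I) QF)| := by
        rw [map_mul, map_pow, abs_mul, abs_of_nonneg (pow_nonneg hx0.le _)]
        exact mul_le_of_le_one_left (abs_nonneg _) (pow_le_one₀ hx0.le hx1.le)
      linarith
  · refine (hC' k hk).congr (fun _ => rfl) rfl ?_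
    rw [hE]
    have := abs_nonneg (φ (c2 P (edgePart p q aL bR I) QF))
    linarith

/-- the middle ray when `F` has the leading term `c x^A y^B` -/
theorem pk_mid (hφ : 1 < φ RatFunc.X) (hC : Stmt_VCONE) (F : P2) (A B : ℕ) (c : ℂ) (hc : c ≠ 0)
    (h1 : Above 1 1 (A + B) (F - C c * X 0 ^ A * X 1 ^ B)) (h2 : PK P φ F 1 1) :
    ∃ E : ℝ, ∀ k, 1 ≤ k → HB (fun m => φ (vN P F QF k (LA 1 1 k) m))
      (φ (RatFunc.X - 1) * φ xq ^ LA 1 1 k) E := by
  obtain ⟨hx, hx0, hx1⟩ := phi_X hφ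
  have hmono : (C c * X 0 ^ A * X 1 ^ B : P2) = monomial (mon A B) c := by
    rw [X_pow_eq_monomial, X_pow_eq_monomial, C_apply, monomial_mul, monomial_mul, mul_one,
      mul_one, zero_add]
    rfl
  have hcoef : F.coeff (mon A B) = c := by
    by_contra h
    have h3 : mon A B ∈ (F - C c * X 0 ^ A * X 1 ^ B).support := by
      rw [mem_support_iff, coeff_sub, hmono, coeff_monomial, if_pos rfl, sub_ne_zero]
      exact h
    have h4 := h1 _ h3
    rw [CLV.mon_apply0, CLV.mon_apply1] at h4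
    omega
  have hsup : ∀ d ∈ F.support, (d 0 = A ∧ d 1 = B) ∨ A + B < d 0 + d 1 := by
    intro d hd
    by_cases h : mon A B = d
    · left
      rw [← h, CLV.mon_apply0, CLV.mon_apply1]
      exact ⟨rfl, rfl⟩
    · right
      have h3 : d ∈ (F - C c * X 0 ^ A * X 1 ^ B).support := by
        rw [mem_support_iff, coeff_sub, hmono, coeff_monomial, if_neg h, sub_zero]
        exact mem_support_iff.1 hd
      have h4 := h1 _ h3
      omega
  obtain ⟨M, hM⟩ : ∃ M, M = A + B := ⟨_, rfl⟩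
  have hl1 : Low (M + 1) M ((M + 1) * A + M * B) F := by
    intro d hd
    rcases hsup d hd with ⟨h3, h4⟩ | h3
    · rw [h3, h4]
    · have h4 : M * (A + B + 1) ≤ M * (d 0 + d 1) := Nat.mul_le_mul_left _ h3
      calc (M + 1) * A + M * B = M * (A + B) + A := by ring
        _ ≤ M * (A + B) + M := by omega
        _ = M * (A + B + 1) := by ring
        _ ≤ M * (d 0 + d 1) := h4
        _ ≤ M * (d 0 + d 1) + d 0 := Nat.le_add_right _ _
        _ = (M + 1) * d 0 + M * d 1 := by ring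
  have hl2 : Low M (M + 1) (M * A + (M + 1) * B) F := by
    intro d hd
    rcases hsup d hd with ⟨h3, h4⟩ | h3
    · rw [h3, h4]
    · have h4 : M * (A + B + 1) ≤ M * (d 0 + d 1) := Nat.mul_le_mul_left _ h3
      calc M * A + (M + 1) * B = M * (A + B) + B := by ring
        _ ≤ M * (A + B) + M := by omega
        _ = M * (A + B + 1) := by ring
        _ ≤ M * (d 0 + d 1) := h4
        _ ≤ M * (d 0 + d 1) + d 1 := Nat.le_add_right _ _
        _ = M * d 0 + (M + 1) * d 1 := by ring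
  obtain ⟨D, hD⟩ := h2
  refine ⟨φ (RatFunc.X - 1) + D, fun k hk => ?_⟩
  have hLA : LA 1 1 k = k := by
    unfold LA
    rw [if_pos (one_dvd k), Nat.div_one, one_mul]
  have e1 : 1 * k / 1 + 1 = k + 1 := by rw [Nat.div_one, one_mul]
  have h5 := hD k hk
  rw [e1] at h5
  rw [hLA]
  have h6 := HB.single (A * k + B * k) (φ (RatFunc.X - 1) * (φ xq ^ k - φ xq ^ (k + 1)))
  have hlt : M * k < (M + 1) * k := Nat.mul_lt_mul_of_pos_right (Nat.lt_succ_self M) hk
  refine (h6.add h5).congr (fun m => ?_) ?_ ?_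
  · rw [hC P F (M + 1) M M (M + 1) A B (by nlinarith) (by omega) (by rw [hcoef]; exact hc) hl1 hl2
      Empty QF CLV.QU_QF k k m hk hlt hlt, map_add, hcoef, CLV.c2_QF P hc]
    split_ifs
    · rw [pow_tel hφ]
    · rw [map_zero]
  · ring
  · rw [abs_of_nonneg (tel_nonneg hφ k)]
    have h7 : φ xq ^ k - φ xq ^ (k + 1) ≤ 1 := by
      have h8 := pow_le_one₀ (n := k) hx0.le hx1.le
      have h9 := pow_nonneg hx0.le (k + 1)
      linarith
    have hu : 0 ≤ φ (RatFunc.X - 1) := by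
      rw [map_sub, map_one]
      linarith
    have h8 := mul_le_mul_of_nonneg_left h7 hu
    linarith

end

end VM0Aux

open VRMAux VM0Aux in
theorem stmt_VM0 (h0 : Stmt_VF0) (h1 : Stmt_VF1) (hC : Stmt_VCONE) (hR : Stmt_VRAY)
    (hS : Stmt_VSH) (hA : Stmt_VAUT) : Stmt_VM0 := by
  intro P φ Λ F hφ h
  induction h with
  | edge F p q aL bR I he k1 k2 k3 k4 =>
    obtain ⟨E, hE⟩ := pk_LA P hφ hR F p q aL bR I he
      (fun lam hl hl2 => pk_all P hφ h0 h1 hC hR hS Λ _ _ 1 0 none (k2 lam hl hl2))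
      (pk_all P hφ h0 h1 hC hR hS Λ _ _ p q none k3)
    obtain ⟨E', hE'⟩ := pk_all P hφ h0 h1 hC hR hS Λ _ _ q p none k4
    refine mass P hφ F he.hp he.hq he.cop (N := edgeN p q aL bR I) ?_ (CLV.edge_low he) E E' hE hE'
    have h5 := he.deg
    have h6 := he.hp
    have h7 := he.hq
    have h8 : 1 ≤ p * I.natDegree := Nat.mul_pos h6 h5
    have h9 : 1 ≤ q * (bR + p * I.natDegree) := Nat.mul_pos h7 (by omega)
    unfold edgeN
    omega
  | two F A B c p' q' p'' q'' hA' hB' k1 k2 k3 k4 =>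
    obtain ⟨hc, _⟩ := SCD.rbf k2 c A B p' q' rfl
    obtain ⟨E, hE⟩ := pk_mid P hφ hC F A B c hc k1 (pk_all P hφ h0 h1 hC hR hS Λ _ _ 1 1 _ k2)
    obtain ⟨E', hE'⟩ := pk_all P hφ h0 h1 hC hR hS Λ _ _ 1 1 _ k3
    refine mass P hφ F le_rfl le_rfl (Nat.coprime_one_left 1) (N := A + B) (by omega) ?_ E E' hE hE'
    intro d hd
    have hmono : (C c * X 0 ^ A * X 1 ^ B : P2) = monomial (mon A B) c := by
      rw [X_pow_eq_monomial, X_pow_eq_monomial, C_apply, monomial_mul, monomial_mul, mul_one,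
        mul_one, zero_add]
      rfl
    by_cases h : mon A B = d
    · rw [← h, CLV.mon_apply0, CLV.mon_apply1]
      omega
    · have h3 : d ∈ (F - C c * X 0 ^ A * X 1 ^ B).support := by
        rw [mem_support_iff, coeff_sub, hmono, coeff_monomial, if_neg h, sub_zero]
        exact mem_support_iff.1 hd
      exact (k1 _ h3).le
  | coord F ψ hψ _ ih =>
    have e : (fun m : ℕ => φ (vol P.rat xq (LS F QF m))) =
        fun m => φ (vol P.rat xq (LS (shift ψ F) QF m)) := by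
      funext m
      rw [(hA P F ψ hψ Empty QF CLV.QU_QF m).1]
    rw [e]
    exact ih
  | swap F _ ih =>
    have e : (fun m : ℕ => φ (vol P.rat xq (LS F QF m))) =
        fun m => φ (vol P.rat xq (LS (swp F) QF m)) := by
      funext m
      rw [(hA P F 0 (by simp) Empty QF CLV.QU_QF m).2]
    rw [e]
    exact ih

end Pool.Agent.Mono.PC
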