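import Pool.Agent.Work.Monodromy6.VSM
import Pool.Agent.Work.Monodromy5.TC5

/-!
# Block VMU (helper35): smooth points of a multiple component
-/

set_option autoImplicit false
set_option linter.unusedSectionVars false

namespace Pool.Agent.Mono.PC

open MvPolynomial TS RO

namespace VMUAux

open O5Aux VGAux VSMAux

/-! ## Powers of power series -/

theorem lead_pow (G H : PowerSeries ℂ) (e l : ℕ) (h : ∀ j < l, PowerSeries.coeff j G = 0) :
    (∀ j < e * l, PowerSeries.coeff j (G ^ e * H) = 0) ∧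
      PowerSeries.coeff (e * l) (G ^ e * H) =
        PowerSeries.coeff l G ^ e * PowerSeries.coeff 0 H := by
  obtain ⟨G', rfl⟩ := PowerSeries.X_pow_dvd_iff.2 h
  have e1 : (PowerSeries.X ^ l * G') ^ e * H = PowerSeries.X ^ (e * l) * (G' ^ e * H) := by
    rw [mul_pow, ← pow_mul, mul_comm l e, mul_assoc]
  rw [e1]
  refine ⟨fun j hj => ?_, ?_⟩
  · rw [PowerSeries.coeff_X_pow_mul', if_neg (by omega)]
  · rw [PowerSeries.coeff_X_pow_mul', if_pos le_rfl, PowerSeries.coeff_X_pow_mul',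
      if_pos le_rfl, Nat.sub_self, Nat.sub_self, PowerSeries.coeff_zero_eq_constantCoeff_apply,
      PowerSeries.coeff_zero_eq_constantCoeff_apply, PowerSeries.coeff_zero_eq_constantCoeff_apply,
      map_mul, map_pow]

theorem van_pow (G H : PowerSeries ℂ) (e N : ℕ) (he : 1 ≤ e) (hH : PowerSeries.coeff 0 H ≠ 0)
    (h : ∀ j < N, PowerSeries.coeff j (G ^ e * H) = 0) :
    ∀ j, e * j < N → PowerSeries.coeff j G = 0 := by
  intro j
  induction j using Nat.strong_induction_on with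
  | _ j ih =>
    intro hj
    have h1 : ∀ k < j, PowerSeries.coeff k G = 0 := fun k hk =>
      ih k hk (lt_of_le_of_lt (Nat.mul_le_mul le_rfl hk.le) hj)
    have h2 := (lead_pow G H e j h1).2
    rw [h _ hj] at h2
    rcases mul_eq_zero.1 h2.symm with h3 | h3
    · exact pow_eq_zero_iff (by omega) |>.1 h3
    · exact absurd h3 hH

section

variable {E ι : Type} [Fintype ι]

/-- origins in `Z`, `a ≠ 0`, `(p, c, a^e h(x₀)) ∈ Q` -/
def RM (h : MvPolynomial ι ℂ) (c : ℂ) (e : ℕ) (Z : Set (ι → ℂ)) (Q : Set (E ⊕ Bool → ℂ)) :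
    Set ((E ⊕ Unit) ⊕ ι → ℂ) :=
  {u | (fun j => u (Sum.inr j)) ∈ Z ∧ u (Sum.inl (Sum.inr ())) ≠ 0 ∧
    Sum.elim (fun p => u (Sum.inl (Sum.inl p))) (fun b : Bool =>
      if b then c else u (Sum.inl (Sum.inr ())) ^ e * eval (fun j => u (Sum.inr j)) h) ∈ Q}

theorem con_RM (h : MvPolynomial ι ℂ) (c : ℂ) (e : ℕ) {Z : Set (ι → ℂ)} (hZ : Constructible Z)
    {Q : Set (E ⊕ Bool → ℂ)} (hQ : Constructible Q) : Constructible (RM h c e Z Q) := by
  refine Constructible.and (Constructible.comap Sum.inr hZ) (Constructible.and ?_ ?_)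
  · have h1 := Constructible.ne (X (Sum.inl (Sum.inr ())) : MvPolynomial ((E ⊕ Unit) ⊕ ι) ℂ)
    simpa only [eval_X] using h1
  · have h1 := Constructible.preimage (Sum.elim
      (fun p => (X (Sum.inl (Sum.inl p)) : MvPolynomial ((E ⊕ Unit) ⊕ ι) ℂ))
      (fun b : Bool => if b then C c else X (Sum.inl (Sum.inr ())) ^ e * rename Sum.inr h)) hQ
    convert h1 using 3 with u
    apply TC5Aux.mem_cgr
    funext s
    rcases s with p | b
    · simp
    · rcases b with _ | _
      · simp only [Sum.elim_inr, Bool.false_eq_true, if_false, map_mul, map_pow, eval_X,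
          eval_rename]
        rfl
      · simp

/-- the prescribed coefficients of `g(x)` -/
noncomputable def BM (l : ℕ) (l' : ℕ) : MvPolynomial ((E ⊕ Unit) ⊕ ι) ℂ :=
  if l' + 1 < l then 0 else X (Sum.inl (Sum.inr ()))

variable {f g h : MvPolynomial ι ℂ} {c : ℂ} {e : ℕ} {Z : Set (ι → ℂ)}

theorem coeff_zero' (f : MvPolynomial ι ℂ) (x : ι → PowerSeries ℂ) :
    PowerSeries.coeff 0 (aeval x f) = eval (fun a => PowerSeries.coeff 0 (x a)) f := by
  classical
  rw [PowerSeries.coeff_zero_eq_constantCoeff_apply, GJetAux.constantCoeff_aeval]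
  simp only [PowerSeries.coeff_zero_eq_constantCoeff_apply]

theorem coeff_f (hf : f = C c + g ^ e * h) (x : ι → PowerSeries ℂ) {j : ℕ} (hj : 1 ≤ j) :
    PowerSeries.coeff j (aeval x f) = PowerSeries.coeff j (aeval x g ^ e * aeval x h) := by
  rw [hf, map_add, map_mul, map_pow, map_add]
  have e1 : aeval x (C c : MvPolynomial ι ℂ) = PowerSeries.C c := by
    rw [aeval_C]
    rfl
  rw [e1, PowerSeries.coeff_C, if_neg (by omega), zero_add]

theorem van0 (he : 2 ≤ e) {x : ι → PowerSeries ℂ} (h0 : PowerSeries.coeff 0 (aeval x g) = 0) :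
    PowerSeries.coeff 0 (aeval x g ^ e * aeval x h) = 0 := by
  rw [PowerSeries.coeff_zero_eq_constantCoeff_apply] at h0 ⊢
  rw [map_mul, map_pow, h0, zero_pow (by omega), zero_mul]

/-- exact: characterisation of the arcs -/
theorem exact_iff (he : 2 ≤ e) (hf : f = C c + g ^ e * h) {x : ι → PowerSeries ℂ}
    (hg0 : PowerSeries.coeff 0 (aeval x g) = 0) (hh0 : PowerSeries.coeff 0 (aeval x h) ≠ 0)
    {i : ℕ} (hi : 1 ≤ i) :
    ((∀ j, 1 ≤ j → j < i → PowerSeries.coeff j (aeval x f) = 0) ∧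
      PowerSeries.coeff i (aeval x f) ≠ 0) ↔
    ∃ l, i = e * l ∧ (∀ j < l, PowerSeries.coeff j (aeval x g) = 0) ∧
      PowerSeries.coeff l (aeval x g) ≠ 0 := by
  have hz := van0 (h := h) he hg0
  constructor
  · rintro ⟨h1, h2⟩
    rw [coeff_f hf x hi] at h2
    have h3 : ∀ j < i, PowerSeries.coeff j (aeval x g ^ e * aeval x h) = 0 := by
      intro j hj
      rcases Nat.eq_zero_or_pos j with rfl | hj'
      · exact hz
      · rw [← coeff_f hf x hj']
        exact h1 j hj' hj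
    have h4 := van_pow _ _ e i (by omega) hh0 h3
    by_cases hd : e ∣ i
    · obtain ⟨l, rfl⟩ := hd
      have h5 : ∀ j < l, PowerSeries.coeff j (aeval x g) = 0 := fun j hj =>
        h4 j (Nat.mul_lt_mul_of_pos_left hj (by omega))
      refine ⟨l, rfl, h5, fun h6 => h2 ?_⟩
      rw [(lead_pow _ _ e l h5).2, h6, zero_pow (by omega), zero_mul]
    · exfalso
      apply h2
      have h5 : ∀ j < i / e + 1, PowerSeries.coeff j (aeval x g) = 0 := by
        intro j hj
        apply h4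
        have h6 : e * (i / e) < i := by
          refine lt_of_le_of_ne (Nat.mul_div_le i e) fun h => hd ⟨i / e, h.symm⟩
        exact lt_of_le_of_lt (Nat.mul_le_mul le_rfl (by omega)) h6
      exact (lead_pow _ _ e _ h5).1 i (Nat.lt_mul_div_succ i (by omega))
  · rintro ⟨l, rfl, h1, h2⟩
    have h3 := lead_pow (aeval x g) (aeval x h) e l h1
    refine ⟨fun j hj hj' => ?_, ?_⟩
    · rw [coeff_f hf x hj]
      exact h3.1 j hj'
    · rw [coeff_f hf x hi, h3.2]
      exact mul_ne_zero (pow_ne_zero _ h2) hh0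

/-- tail: characterisation of the arcs -/
theorem tail_iff (he : 2 ≤ e) (hf : f = C c + g ^ e * h) {x : ι → PowerSeries ℂ}
    (hg0 : PowerSeries.coeff 0 (aeval x g) = 0) (hh0 : PowerSeries.coeff 0 (aeval x h) ≠ 0)
    (i : ℕ) :
    (∀ j, 1 ≤ j → j < i + 1 → PowerSeries.coeff j (aeval x f) = 0) ↔
      ∀ l < i / e, PowerSeries.coeff (l + 1) (aeval x g) = 0 := by
  have hz := van0 (h := h) he hg0
  constructor
  · intro h1 l hl
    have h3 : ∀ j < i + 1, PowerSeries.coeff j (aeval x g ^ e * aeval x h) = 0 := by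
      intro j hj
      rcases Nat.eq_zero_or_pos j with rfl | hj'
      · exact hz
      · rw [← coeff_f hf x hj']
        exact h1 j hj' hj
    refine van_pow _ _ e (i + 1) (by omega) hh0 h3 _ ?_
    have h4 : e * (l + 1) ≤ e * (i / e) := Nat.mul_le_mul le_rfl (by omega)
    have h5 := Nat.mul_div_le i e
    omega
  · intro h1 j hj hj'
    have h2 : ∀ j < i / e + 1, PowerSeries.coeff j (aeval x g) = 0 := by
      intro j hj
      rcases Nat.eq_zero_or_pos j with rfl | hj'
      · exact hg0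
      · have := h1 (j - 1) (by omega)
        rwa [Nat.sub_add_cancel hj'] at this
    rw [coeff_f hf x hj]
    refine (lead_pow _ _ e _ h2).1 j (lt_of_lt_of_le hj' ?_)
    exact Nat.lt_mul_div_succ i (by omega)

theorem coeff_f0 (he : 2 ≤ e) (hf : f = C c + g ^ e * h) {x : ι → PowerSeries ℂ}
    (hg0 : PowerSeries.coeff 0 (aeval x g) = 0) : PowerSeries.coeff 0 (aeval x f) = c := by
  rw [hf, map_add, map_mul, map_pow, map_add, van0 (h := h) he hg0, add_zero]
  have e1 : aeval x (C c : MvPolynomial ι ℂ) = PowerSeries.C c := by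
    rw [aeval_C]
    rfl
  rw [e1, PowerSeries.coeff_C, if_pos rfl]

theorem mem_DM (he : 2 ≤ e) (hf : f = C c + g ^ e * h)
    (hZ : ∀ x ∈ Z, eval x g = 0 ∧ eval x h ≠ 0 ∧ ∃ i, eval x (pderiv i g) ≠ 0)
    {Q : Set (E ⊕ Bool → ℂ)} (hQ : QOk Set.univ true Q) {l : ℕ} (hl : 1 ≤ l)
    (z : (E ⊕ Unit → ℂ) × (ι → PowerSeries ℂ)) :
    z ∈ DN g (RM h c e Z Q) (BM l) l ↔
      ((fun p => z.1 (Sum.inl p)), z.2) ∈ SDz f Z true Q (e * l) ∧
        z.1 (Sum.inr ()) = PowerSeries.coeff l (aeval z.2 g) := by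
  have hel : 1 ≤ e * l := Nat.mul_pos (by omega) hl
  have hu : (fun a => PowerSeries.coeff 0 (z.2 a)) ∈ Z →
      (∀ j < l, PowerSeries.coeff j (aeval z.2 g) = 0) →
      z.1 (Sum.inr ()) = PowerSeries.coeff l (aeval z.2 g) →
      (Sum.elim (fun p => bs z (Sum.inl (Sum.inl p))) (fun b : Bool =>
        if b then c else bs z (Sum.inl (Sum.inr ())) ^ e *
          eval (fun j => bs z (Sum.inr j)) h)) =
      Sum.elim (fun p => z.1 (Sum.inl p)) (dat true (e * l) (aeval z.2 f)) := by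
    intro hz hv ha
    have hg0 : PowerSeries.coeff 0 (aeval z.2 g) = 0 := by
      rw [coeff_zero']; exact (hZ _ hz).1
    funext s
    rcases s with p | b
    · rfl
    · rcases b with _ | _
      · have h1 : dat true (e * l) (aeval z.2 f) false = PowerSeries.coeff (e * l) (aeval z.2 f) :=
          rfl
        simp only [Sum.elim_inr, Bool.false_eq_true, if_false]
        rw [h1, coeff_f hf _ hel, (lead_pow _ _ e l hv).2, coeff_zero' h, ← ha]
        rfl
      · have h1 : dat true (e * l) (aeval z.2 f) true = PowerSeries.coeff 0 (aeval z.2 f) := rfl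
        simp only [Sum.elim_inr, if_true]
        rw [h1, coeff_f0 he hf hg0]
  constructor
  · rintro ⟨⟨h1, h2, h3⟩, h4⟩
    have hz : (fun a => PowerSeries.coeff 0 (z.2 a)) ∈ Z := h1
    have hg0 : PowerSeries.coeff 0 (aeval z.2 g) = 0 := by
      rw [coeff_zero']; exact (hZ _ hz).1
    have hh0 : PowerSeries.coeff 0 (aeval z.2 h) ≠ 0 := by
      rw [coeff_zero']; exact (hZ _ hz).2.1
    have hv : ∀ j < l, PowerSeries.coeff j (aeval z.2 g) = 0 := by
      intro j hj
      rcases Nat.eq_zero_or_pos j with rfl | hj'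
      · exact hg0
      · have h5 := h4 (j - 1) (by omega)
        rw [Nat.sub_add_cancel hj', BM, if_pos (by omega), map_zero] at h5
        exact h5
    have ha : z.1 (Sum.inr ()) = PowerSeries.coeff l (aeval z.2 g) := by
      have h5 := h4 (l - 1) (by omega)
      rw [Nat.sub_add_cancel hl, BM, if_neg (by omega), eval_X] at h5
      exact h5.symm
    have hne : PowerSeries.coeff l (aeval z.2 g) ≠ 0 := by
      rw [← ha]
      exact h2
    have h6 := (exact_iff he hf hg0 hh0 hel).2 ⟨l, rfl, hv, hne⟩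
    refine ⟨⟨⟨fun j hj hj' => h6.1 j hj hj', ?_⟩, hz⟩, ha⟩
    rw [hu hz hv ha] at h3
    exact h3
  · rintro ⟨⟨⟨h1, h2⟩, hz⟩, ha⟩
    have hz : (fun a => PowerSeries.coeff 0 (z.2 a)) ∈ Z := hz
    have hg0 : PowerSeries.coeff 0 (aeval z.2 g) = 0 := by
      rw [coeff_zero']; exact (hZ _ hz).1
    have hh0 : PowerSeries.coeff 0 (aeval z.2 h) ≠ 0 := by
      rw [coeff_zero']; exact (hZ _ hz).2.1
    have hne : PowerSeries.coeff (e * l) (aeval z.2 f) ≠ 0 := (hQ.2 _ h2).2 rfl
    obtain ⟨l', hl', hv, hnz⟩ := (exact_iff he hf hg0 hh0 hel).1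
      ⟨fun j hj hj' => h1 j hj hj', hne⟩
    have hll : l = l' := Nat.eq_of_mul_eq_mul_left (by omega) hl'
    subst hll
    refine ⟨⟨hz, ?_, ?_⟩, fun j hj => ?_⟩
    · change z.1 (Sum.inr ()) ≠ 0
      rw [ha]
      exact hnz
    · rw [hu hz hv ha]
      exact h2
    · rw [BM]
      split_ifs with hj'
      · rw [map_zero]
        exact hv _ hj'
      · have : j + 1 = l := by omega
        rw [this, eval_X]
        exact ha.symm

theorem vol_MU [Finite E] (P : HodgeMeasure) (he : 2 ≤ e) (hf : f = C c + g ^ e * h)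
    (hZc : Constructible Z)
    (hZ : ∀ x ∈ Z, eval x g = 0 ∧ eval x h ≠ 0 ∧ ∃ i, eval x (pderiv i g) ≠ 0)
    {Q : Set (E ⊕ Bool → ℂ)} (hQ : QOk Set.univ true Q) {l : ℕ} (hl : 1 ≤ l) :
    vol P.rat xq (SDz f Z true Q (e * l)) =
      xq ^ (Fintype.card ι + l) * P.rat.val (RM h c e Z Q) := by
  have hR : Constructible (RM h c e Z Q) := con_RM h c e hZc hQ.1
  rw [← vol_DN P g l (BM l) Finset.univ _ hR ?_]
  · refine (vol_base P (Cy_DN g hR _ _) (Cy_SDz f hZc true hQ.1 _) Sum.inl ?_ ?_ ?_).symm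
    · intro z hz
      exact ((mem_DM he hf hZ hQ hl z).1 hz).1
    · intro z hz z' hz' h1 h2
      have h3 := ((mem_DM he hf hZ hQ hl z).1 hz).2
      have h4 := ((mem_DM he hf hZ hQ hl z').1 hz').2
      funext s
      rcases s with p | ⟨⟩
      · exact congrFun h1 p
      · rw [h3, h4, h2]
    · intro z hz
      refine ⟨Sum.elim z.1 fun _ => PowerSeries.coeff l (aeval z.2 g), rfl, ?_⟩
      exact (mem_DM he hf hZ hQ hl _).2 ⟨hz, rfl⟩
  · intro u hu
    obtain ⟨j, hj⟩ := (hZ (fun j => u (Sum.inr j)) hu.1).2.2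
    exact ⟨j, Finset.mem_univ j, hj⟩

theorem vol_MU0 [Finite E] (P : HodgeMeasure) (he : 2 ≤ e) (hf : f = C c + g ^ e * h)
    (hZ : ∀ x ∈ Z, eval x g = 0 ∧ eval x h ≠ 0 ∧ ∃ i, eval x (pderiv i g) ≠ 0)
    {Q : Set (E ⊕ Bool → ℂ)} (hQ : QOk Set.univ true Q) {i : ℕ} (hi : 1 ≤ i) (hd : ¬ e ∣ i) :
    vol P.rat xq (SDz f Z true Q i) = 0 := by
  have h0 : SDz f Z true Q i = ∅ := by
    ext z
    rw [Set.mem_empty_iff_false, iff_false]
    rintro ⟨⟨h1, h2⟩, hz⟩
    have hz : (fun a => PowerSeries.coeff 0 (z.2 a)) ∈ Z := hz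
    have hg0 : PowerSeries.coeff 0 (aeval z.2 g) = 0 := by
      rw [coeff_zero']; exact (hZ _ hz).1
    have hh0 : PowerSeries.coeff 0 (aeval z.2 h) ≠ 0 := by
      rw [coeff_zero']; exact (hZ _ hz).2.1
    have hne : PowerSeries.coeff i (aeval z.2 f) ≠ 0 := (hQ.2 _ h2).2 rfl
    obtain ⟨l, hl, -⟩ := (exact_iff he hf hg0 hh0 hi).1 ⟨fun j hj hj' => h1 j hj hj', hne⟩
    exact hd ⟨l, hl⟩
  rw [h0, vol_empty P.rat (VAAux.L_mul P)]

/-- points, for the tail -/
def RMt (c : ℂ) (Z : Set (ι → ℂ)) (Q : Set (E ⊕ Bool → ℂ)) : Set (E ⊕ ι → ℂ) :=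
  {u | (fun p => u (Sum.inl p)) ∈ {w : E → ℂ | Sum.elim (fun p => w p) (fun b : Bool =>
    if b then c else 0) ∈ Q} ∧ (fun j => u (Sum.inr j)) ∈ Z}

theorem tail_eq (he : 2 ≤ e) (hf : f = C c + g ^ e * h)
    (hZ : ∀ x ∈ Z, eval x g = 0 ∧ eval x h ≠ 0 ∧ ∃ i, eval x (pderiv i g) ≠ 0)
    (Q : Set (E ⊕ Bool → ℂ)) (i : ℕ) :
    SDz f Z false Q i = DN g (RMt c Z Q) (fun _ => 0) (i / e) := by
  ext z
  have hu : (fun a => PowerSeries.coeff 0 (z.2 a)) ∈ Z →
      Sum.elim (fun p => bs z (Sum.inl p)) (fun b : Bool => if b then c else 0) =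
      Sum.elim z.1 (dat false i (aeval z.2 f)) := by
    intro hz
    have hg0 : PowerSeries.coeff 0 (aeval z.2 g) = 0 := by
      rw [coeff_zero']; exact (hZ _ hz).1
    funext s
    rcases s with p | b
    · rfl
    · rcases b with _ | _
      · simp [dat, ldc]
      · have h1 : dat false i (aeval z.2 f) true = PowerSeries.coeff 0 (aeval z.2 f) := rfl
        simp only [Sum.elim_inr, if_true]
        rw [h1, coeff_f0 he hf hg0]
  constructor
  · rintro ⟨⟨h1, h2⟩, hz⟩
    have hz : (fun a => PowerSeries.coeff 0 (z.2 a)) ∈ Z := hz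
    have hg0 : PowerSeries.coeff 0 (aeval z.2 g) = 0 := by
      rw [coeff_zero']; exact (hZ _ hz).1
    have hh0 : PowerSeries.coeff 0 (aeval z.2 h) ≠ 0 := by
      rw [coeff_zero']; exact (hZ _ hz).2.1
    refine ⟨⟨?_, hz⟩, fun l hl => ?_⟩
    · change Sum.elim (fun p => bs z (Sum.inl p)) (fun b : Bool => if b then c else 0) ∈ Q
      rw [hu hz]
      exact h2
    · rw [map_zero]
      exact (tail_iff he hf hg0 hh0 i).1 (fun j hj hj' => h1 j hj hj') l hl
  · rintro ⟨⟨h1, hz⟩, h2⟩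
    have hz : (fun a => PowerSeries.coeff 0 (z.2 a)) ∈ Z := hz
    have hg0 : PowerSeries.coeff 0 (aeval z.2 g) = 0 := by
      rw [coeff_zero']; exact (hZ _ hz).1
    have hh0 : PowerSeries.coeff 0 (aeval z.2 h) ≠ 0 := by
      rw [coeff_zero']; exact (hZ _ hz).2.1
    have h1 : Sum.elim (fun p => bs z (Sum.inl p)) (fun b : Bool => if b then c else 0) ∈ Q := h1
    rw [hu hz] at h1
    refine ⟨⟨fun j hj hj' => ?_, h1⟩, hz⟩
    refine (tail_iff he hf hg0 hh0 i).2 (fun l hl => ?_) j hj hj'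
    have := h2 l hl
    rwa [map_zero] at this

end

end VMUAux

open VMUAux VSMAux O5Aux VGAux

/-- smooth points of a multiple component -/
theorem stmt_VMU : Stmt_VMU := by
  classical
  intro P ι _ f g h c e Z hZc he hf hZ
  refine ⟨⟨ι ⊕ Unit, inferInstance, {z | (fun s => z (Sum.inl s)) ∈ Z ∧ z (Sum.inr ()) ≠ 0},
    MvPolynomial.X (Sum.inr ()) ^ e * rename Sum.inl h,
    fun i => if e ∣ i then xq ^ Fintype.card ι * xq ^ (i / e) else 0⟩,
    fun i => (xq ^ Fintype.card ι * P.rat.val Z) * xq ^ (i / e), ?_, ?_, ⟨?_, ?_⟩, ⟨?_, ?_⟩⟩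
  · exact TC5Aux.eseq_hpow _ e (by omega) (Set.mem_singleton _) _
  · exact TC5Aux.eseq_hfloor _ e (by omega) (Set.mem_singleton _) _
  · intro G hG
    rw [List.mem_singleton] at hG
    subst hG
    refine ⟨con_ex hZc, ?_⟩
    rintro (τ : ι ⊕ Unit → ℂ) ⟨h1, h2⟩
    refine ⟨Set.mem_univ _, fun _ => ?_⟩
    have h3 : eval τ (MvPolynomial.X (Sum.inr ()) ^ e * rename Sum.inl h :
        MvPolynomial (ι ⊕ Unit) ℂ) ≠ 0 := by
      rw [map_mul, map_pow, eval_X, eval_rename]
      exact mul_ne_zero (pow_ne_zero _ h2) (hZ _ h1).2.1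
    exact h3
  · intro E _ Q hQ i hi
    simp only [List.map_cons, List.map_nil, List.sum_cons, List.sum_nil, add_zero]
    by_cases hd : e ∣ i
    · obtain ⟨l, rfl⟩ := hd
      have hl : 1 ≤ l := by
        rcases Nat.eq_zero_or_pos l with rfl | h
        · have := hi rfl
          omega
        · exact h
      rw [vol_MU P he hf hZc hZ hQ hl]
      have e1 : (atv (⟨ι ⊕ Unit, inferInstance,
          {z | (fun s => z (Sum.inl s)) ∈ Z ∧ z (Sum.inr ()) ≠ 0},
          MvPolynomial.X (Sum.inr ()) ^ e * rename Sum.inl h,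
          fun i => if e ∣ i then xq ^ Fintype.card ι * xq ^ (i / e) else 0⟩ : Fam) c).κ (e * l) =
          xq ^ (Fintype.card ι + l) := by
        change (if e ∣ e * l then xq ^ Fintype.card ι * xq ^ (e * l / e) else 0) = _
        rw [if_pos (Dvd.intro l rfl), Nat.mul_div_cancel_left _ (by omega), pow_add]
      rw [e1]
      congr 1
      rw [← P.rat.reindex ((Equiv.sumAssoc E Unit ι).trans
        (Equiv.sumCongr (Equiv.refl E) (Equiv.sumComm Unit ι))) (con_RM h c e hZc hQ.1)]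
      unfold Fam2.cl
      congr 1
      ext (z : E ⊕ (ι ⊕ Unit) → ℂ)
      have hpt : (Sum.elim (fun p => z (Sum.inl p)) (fun b : Bool =>
          if b then eval (fun s => z (Sum.inr s)) (C c : MvPolynomial (ι ⊕ Unit) ℂ) else
            eval (fun s => z (Sum.inr s)) (MvPolynomial.X (Sum.inr ()) ^ e * rename Sum.inl h :
              MvPolynomial (ι ⊕ Unit) ℂ))) =
          Sum.elim (fun p => z (Sum.inl p)) (fun b : Bool =>
            if b then c else z (Sum.inr (Sum.inr ())) ^ e *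
              eval (fun j => z (Sum.inr (Sum.inl j))) h) := by
        funext s
        rcases s with p | b
        · rfl
        · rcases b with _ | _
          · simp only [Sum.elim_inr, Bool.false_eq_true, if_false, map_mul, map_pow, eval_X,
              eval_rename]
            rfl
          · simp
      constructor
      · rintro ⟨h1, h2, h3⟩
        refine ⟨⟨h1, h2⟩, ?_⟩
        have h3' : Sum.elim (fun p => z (Sum.inl p)) (fun b : Bool =>
            if b then c else z (Sum.inr (Sum.inr ())) ^ e *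
              eval (fun j => z (Sum.inr (Sum.inl j))) h) ∈ Q := h3
        rw [← hpt] at h3'
        exact h3'
      · rintro ⟨⟨h1, h2⟩, h3⟩
        have h3' : (Sum.elim (fun p => z (Sum.inl p)) (fun b : Bool =>
          if b then eval (fun s => z (Sum.inr s)) (C c : MvPolynomial (ι ⊕ Unit) ℂ) else
            eval (fun s => z (Sum.inr s)) (MvPolynomial.X (Sum.inr ()) ^ e * rename Sum.inl h :
              MvPolynomial (ι ⊕ Unit) ℂ))) ∈ Q := h3
        rw [hpt] at h3'
        exact ⟨h1, h2, h3'⟩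
    · rw [vol_MU0 P he hf hZ hQ (hi rfl) hd]
      have e1 : (atv (⟨ι ⊕ Unit, inferInstance,
          {z | (fun s => z (Sum.inl s)) ∈ Z ∧ z (Sum.inr ()) ≠ 0},
          MvPolynomial.X (Sum.inr ()) ^ e * rename Sum.inl h,
          fun i => if e ∣ i then xq ^ Fintype.card ι * xq ^ (i / e) else 0⟩ : Fam) c).κ i = 0 := by
        change (if e ∣ i then xq ^ Fintype.card ι * xq ^ (i / e) else 0) = _
        rw [if_neg hd]
      rw [e1, zero_mul]
  · intro G hG
    rw [List.mem_singleton] at hG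
    subst hG
    exact ⟨Constructible.univ, fun τ _ => ⟨Set.mem_univ _, fun h' => absurd h' (by decide)⟩⟩
  · intro E _ Q hQ i _
    have hpc := TC5Aux.con_pt c hQ.1
    have hRt : Constructible (RMt c Z Q) :=
      Constructible.and (Constructible.comap Sum.inl hpc) (Constructible.comap Sum.inr hZc)
    rw [tail_eq he hf hZ Q i, vol_DN P g (i / e) _ Finset.univ _ hRt ?_]
    · simp only [List.map_cons, List.map_nil, List.sum_cons, List.sum_nil, add_zero]
      have h1 : P.rat.val (RMt c Z Q) = P.rat.val {w : E → ℂ | Sum.elim (fun p => w p)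
          (fun b : Bool => if b then c else 0) ∈ Q} * P.rat.val Z := by
        rw [← P.rat.val_prod hpc hZc]
        rfl
      have h2 : (ptv c fun i => xq ^ Fintype.card ι * P.rat.val Z * xq ^ (i / e)).cl P Q =
          P.rat.val {w : E → ℂ | Sum.elim (fun p => w p)
          (fun b : Bool => if b then c else 0) ∈ Q} := TC5Aux.clx_pt P c hQ.1
      rw [h2, h1, pow_add]
      change _ = (xq ^ Fintype.card ι * P.rat.val Z * xq ^ (i / e)) * _
      ring
    · intro u hu
      obtain ⟨j, hj⟩ := (hZ (fun j => u (Sum.inr j)) hu.2).2.2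
      exact ⟨j, Finset.mem_univ j, hj⟩

end Pool.Agent.Mono.PC
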