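import Pool.Agent.Work.Monodromy.Interface6V
import Pool.Agent.Work.Monodromy5.VGC
import Pool.Agent.Work.Monodromy5.O5
import Pool.Agent.Work.Monodromy5.M5
import Pool.Agent.Work.Monodromy4.Q1
import Pool.Agent.Work.Monodromy4.Q3

/-!
# Block VPT: the distribution at a point, from the exact part and the mass at the origin
-/

set_option autoImplicit false
set_option linter.unusedSectionVars false

namespace Pool.Agent.Mono.PC

open MvPolynomial TS RO VGAux

namespace VPTAux

section trans

variable {E ι : Type} [Finite E] [Fintype ι]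

/-- translation of arcs -/
theorem vol_trans (P : HodgeMeasure) (x₀ : ι → ℂ) {S S' : Set ((E → ℂ) × (ι → PowerSeries ℂ))}
    (hS : Cy S) (hS' : Cy S')
    (h : ∀ p x, (p, x) ∈ S' ↔ (p, fun i => x i + PowerSeries.C (x₀ i)) ∈ S) :
    vol P.rat xq S = vol P.rat xq S' := by
  classical
  obtain ⟨N, hN⟩ := hS
  obtain ⟨N', hN'⟩ := hS'
  have hc := hN (max N N') (le_max_left _ _)
  have hc' := hN' (max N N') (le_max_right _ _)
  have key := CV.vol_cv P hc hc' (fun _ x i => x i + PowerSeries.C (x₀ i))
    (fun s => X (Sum.inr s) + if (s.2 : ℕ) = 0 then C (x₀ s.1) else 0) ?_ ?_ ?_ ?_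
  · have hx : (xq : K) ^ (∑ _j : ι, max N N') ≠ 0 :=
      pow_ne_zero _ (by rw [xq]; exact inv_ne_zero RatFunc.X_ne_zero)
    exact mul_right_cancel₀ hx key
  · intro p x _ s
    rw [map_add, eval_add, eval_X, PowerSeries.coeff_C]
    congr 1
    split_ifs with h0 <;> simp
  · intro p x hx
    exact (h p x).1 hx
  · intro p x x' _ _ hxx j l hl
    have := hxx j l hl
    simp only [map_add] at this
    exact add_right_cancel this
  · intro p y hy
    refine ⟨fun i => y i - PowerSeries.C (x₀ i), ?_, ?_⟩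
    · rw [h]
      simpa using hy
    · intro i l _
      simp

end trans

/-- the translated polynomial -/
noncomputable def Ft (f : P2) (x₀ : Fin 2 → ℂ) : P2 :=
  aeval (fun i => X i + C (x₀ i)) f - C (eval x₀ f)

theorem aeval_Ft (f : P2) (x₀ : Fin 2 → ℂ) (x : Fin 2 → PowerSeries ℂ) :
    aeval (fun i => x i + PowerSeries.C (x₀ i)) f =
      aeval x (Ft f x₀) + PowerSeries.C (eval x₀ f) := by
  unfold Ft
  rw [map_sub, ← AlgHom.comp_apply, comp_aeval]
  simp

theorem coeff_zero_Ft (f : P2) (x₀ : Fin 2 → ℂ) (x : Fin 2 → PowerSeries ℂ)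
    (hx : ∀ i, PowerSeries.coeff 0 (x i) = 0) :
    PowerSeries.coeff 0 (aeval x (Ft f x₀)) = 0 := by
  have h1 := O5Aux.coeff_zero (E := Empty) (Ft f x₀) ((fun a => a.elim), x)
  simp only [O5Aux.bs, Sum.elim_inr] at h1
  rw [h1]
  have h2 : (fun j => PowerSeries.coeff 0 (x j)) = fun _ => (0 : ℂ) := by
    funext j
    exact hx j
  rw [h2]
  unfold Ft
  rw [map_sub, eval_C]
  have h3 : eval (fun _ => (0 : ℂ)) (aeval (fun i => X i + C (x₀ i)) f : P2) = eval x₀ f := by
    have h4 : ∀ g : P2, eval (fun _ => (0 : ℂ)) (aeval (fun i => X i + C (x₀ i)) g : P2)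
        = eval x₀ g := by
      intro g
      induction g using MvPolynomial.induction_on with
      | C a => simp
      | add p q hp hq => simp only [map_add, hp, hq]
      | mul_X p i hp => simp only [map_mul, aeval_X, map_add, eval_X, eval_C, hp]; simp
    exact h4 f
  rw [h3, sub_self]

section

variable {E : Type} [Finite E]

theorem Cy_zero0 : Cy {z : (E → ℂ) × (Fin 2 → PowerSeries ℂ) |
    ∀ i, PowerSeries.coeff 0 (z.2 i) = 0} := by
  have h := Cy.mem (E' := E) (ι := Fin 2) (Constructible.point (fun _ : Fin 2 => (0 : ℂ)))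
    (φ := fun a z => PowerSeries.coeff 0 (z.2 a)) fun a => RF.arc a 0
  convert h using 2
  ext z
  constructor
  · intro h1
    funext a
    exact h1 a
  · intro h1 a
    exact congrFun h1 a

theorem Cy_LS (F : P2) {Q : Set (E ⊕ Unit → ℂ)} (hQ : Constructible Q) (m : ℕ) :
    Cy (LS F Q m) := by
  refine Cy.and Cy_zero0 (Cy.and (Cy.all_lt m fun l _ => Cy.zero (RF.coef F l)) (Cy.mem hQ
    (φ := fun a z => Sum.elim z.1 (fun _ => PowerSeries.coeff m (aeval z.2 F)) a) ?_))
  rintro (e | a)
  · exact RF.par _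
  · exact RF.coef F m

/-- the fibre of `Q` over the value `c` -/
def Qc (Q : Set (E ⊕ Bool → ℂ)) (c : ℂ) : Set (E ⊕ Unit → ℂ) :=
  {z | (Sum.elim (fun e => z (Sum.inl e)) fun b : Bool => if b then c else z (Sum.inr ())) ∈ Q}

theorem con_Qc {Q : Set (E ⊕ Bool → ℂ)} (hQ : Constructible Q) (c : ℂ) :
    Constructible (Qc Q c) := by
  have h := Constructible.preimage (ι := E ⊕ Unit)
    (Sum.elim (fun e => X (Sum.inl e)) fun b : Bool => if b then C c else X (Sum.inr ())) hQ
  convert h using 1
  ext z
  unfold Qc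
  simp only [Set.mem_ofPred_eq]
  have : (Sum.elim (fun e => z (Sum.inl e)) fun b : Bool => if b then c else z (Sum.inr ())) =
      fun j => eval z ((Sum.elim (fun e => X (Sum.inl e))
        fun b : Bool => if b then C c else X (Sum.inr ())) j) := by
    funext j
    rcases j with j | b
    · simp
    · cases b <;> simp
  rw [this]

/-- the tail fibre of `Q` over the value `c` -/
def Bc (Q : Set (E ⊕ Bool → ℂ)) (c : ℂ) : Set (E → ℂ) :=
  {p | (Sum.elim p fun b : Bool => if b then c else 0) ∈ Q}

theorem con_Bc {Q : Set (E ⊕ Bool → ℂ)} (hQ : Constructible Q) (c : ℂ) :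
    Constructible (Bc Q c) := by
  have h := Constructible.preimage (ι := E)
    (Sum.elim (fun e => X e) fun b : Bool => if b then C c else 0) hQ
  convert h using 1
  ext z
  unfold Bc
  simp only [Set.mem_ofPred_eq]
  have : (Sum.elim z fun b : Bool => if b then c else 0) =
      fun j => eval z ((Sum.elim (fun e => X e) fun b : Bool => if b then C c else 0) j) := by
    funext j
    rcases j with j | b
    · simp
    · cases b <;> simp
  rw [this]

/-- `B` times the punctured line -/
def QB (B : Set (E → ℂ)) : Set (E ⊕ Unit → ℂ) :=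
  {z | (fun e => z (Sum.inl e)) ∈ B ∧ z (Sum.inr ()) ≠ 0}

theorem con_QB {B : Set (E → ℂ)} (hB : Constructible B) : Constructible (QB B) := by
  refine Constructible.and (Constructible.comap _ hB) ?_
  have h := Constructible.ne (X (Sum.inr ()) : MvPolynomial (E ⊕ Unit) ℂ)
  simpa only [eval_X] using h

theorem fcl_QB (P : HodgeMeasure) {t : Fam} (ht : t.Good) {B : Set (E → ℂ)}
    (hB : Constructible B) : fcl P t (QB B) = P.rat.val B * famV P t := by
  have := t.fin
  unfold fcl famV
  rw [← P.rat.prod _ _ hB ht.1]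
  congr 1
  ext z
  constructor
  · rintro ⟨h1, h2, -⟩
    exact ⟨h2, h1⟩
  · rintro ⟨h1, h2⟩
    exact ⟨h2, h1, ht.2 _ h2⟩

theorem famV_haar (P : HodgeMeasure) (α : K) : famV P (haar α) = P.rat.L - 1 := by
  rw [← M5Aux.val_ne_zero P]
  rfl

theorem haar_good (α : K) : (haar α).Good := by
  refine ⟨?_, ?_⟩
  · have := Constructible.ne (X () : MvPolynomial Unit ℂ)
    simp only [eval_X] at this
    exact this
  · intro τ hτ
    have h1 : τ () ≠ 0 := hτ
    have h2 : eval τ (haar α).u = τ () := eval_X (f := τ) ()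
    rw [h2]
    exact h1

/-- the tails -/
def TT (F : P2) (B : Set (E → ℂ)) (i : ℕ) : Set ((E → ℂ) × (Fin 2 → PowerSeries ℂ)) :=
  {z | z.1 ∈ B ∧ (∀ a, PowerSeries.coeff 0 (z.2 a) = 0) ∧
    ∀ j < i + 1, PowerSeries.coeff j (aeval z.2 F) = 0}

theorem Cy_TT (F : P2) {B : Set (E → ℂ)} (hB : Constructible B) (i : ℕ) : Cy (TT F B i) :=
  Cy.and (Cy.param hB) (Cy.and Cy_zero0 (Cy.all_lt (i + 1) fun l _ => Cy.zero (RF.coef F l)))

theorem TT_succ (P : HodgeMeasure) (F : P2) {B : Set (E → ℂ)} (hB : Constructible B) (i : ℕ) :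
    vol P.rat xq (TT F B i) =
      vol P.rat xq (TT F B (i + 1)) + vol P.rat xq (LS F (QB B) (i + 1)) := by
  rw [← vol_uni P (Cy_TT F hB (i + 1)) (Cy_LS F (con_QB hB) (i + 1))]
  · congr 1
    ext z
    constructor
    · rintro ⟨h1, h2, h3⟩
      by_cases h4 : PowerSeries.coeff (i + 1) (aeval z.2 F) = 0
      · left
        refine ⟨h1, h2, fun j hj => ?_⟩
        rcases Nat.lt_succ_iff_lt_or_eq.1 hj with h | rfl
        · exact h3 j h
        · exact h4
      · right
        exact ⟨h2, h3, h1, h4⟩
    · rintro (⟨h1, h2, h3⟩ | ⟨h2, h3, h1, h4⟩)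
      · exact ⟨h1, h2, fun j hj => h3 j (by omega)⟩
      · exact ⟨h1, h2, h3⟩
  · rw [Set.disjoint_left]
    rintro z ⟨-, -, h3⟩ ⟨-, -, -, h4⟩
    exact h4 (h3 (i + 1) (by omega))

theorem TT_zero (P : HodgeMeasure) (f : P2) (x₀ : Fin 2 → ℂ) {B : Set (E → ℂ)}
    (hB : Constructible B) :
    vol P.rat xq (TT (Ft f x₀) B 0) = xq ^ 2 * P.rat.val B := by
  have hR : Constructible {z : E ⊕ Fin 2 → ℂ | (fun e => z (Sum.inl e)) ∈ B ∧
      (fun i => z (Sum.inr i)) ∈ {x : Fin 2 → ℂ | x = fun _ => 0}} :=
    Constructible.and (Constructible.comap _ hB)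
      (Constructible.comap _ (Constructible.point (fun _ : Fin 2 => (0 : ℂ))))
  have h1 := O5Aux.DN_zero P (Ft f x₀) hR (fun _ => 0)
  rw [P.rat.prod _ _ hB (Constructible.point (fun _ : Fin 2 => (0 : ℂ))), P.rat.val_point,
    mul_one, Fintype.card_fin] at h1
  rw [← h1]
  congr 1
  ext z
  constructor
  · rintro ⟨h1, h2, -⟩
    refine ⟨⟨h1, ?_⟩, fun l hl => absurd hl (Nat.not_lt_zero l)⟩
    funext a
    exact h2 a
  · rintro ⟨⟨h1, h2⟩, -⟩
    have h3 : ∀ a, PowerSeries.coeff 0 (z.2 a) = 0 := fun a => congrFun h2 a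
    refine ⟨h1, h3, fun j hj => ?_⟩
    have : j = 0 := by omega
    subst this
    exact coeff_zero_Ft f x₀ z.2 h3

theorem TT_eq (P : HodgeMeasure) (f : P2) (x₀ : Fin 2 → ℂ) {B : Set (E → ℂ)}
    (hB : Constructible B) (i : ℕ) :
    vol P.rat xq (TT (Ft f x₀) B i) = xq ^ 2 * P.rat.val B -
      ∑ j ∈ Finset.range i, vol P.rat xq (LS (Ft f x₀) (QB B) (j + 1)) := by
  induction i with
  | zero => rw [TT_zero P f x₀ hB]; simp
  | succ i ih =>
    rw [Finset.sum_range_succ]
    have h := TT_succ P (Ft f x₀) hB i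
    rw [ih] at h
    linear_combination -h

end

theorem ESeq_sum (Λ : Set ℚ) (ts : List Fam) (V : Fam → K) (e : Fam → ℕ → K)
    (h : ∀ t ∈ ts, ESeq Λ (e t)) : ESeq Λ fun m => (ts.map fun t => V t * e t m).sum := by
  obtain ⟨-, hadd, hmul, hfin, -, -, -⟩ := stmt_Q1
  induction ts with
  | nil => exact hfin Λ _ 0 (fun m _ => by simp)
  | cons t ts ih =>
    have h1 := ih (fun s hs => h s (List.mem_cons_of_mem _ hs))
    have h2 := hmul Λ _ (V t) (h t List.mem_cons_self)
    have h3 := hadd Λ _ _ h2 h1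
    simpa only [List.map_cons, List.sum_cons] using h3

theorem geom (P : HodgeMeasure) (i : ℕ) :
    ∑ j ∈ Finset.range i, xq ^ (j + 1) * (P.rat.L - 1) = 1 - xq ^ i := by
  have hL := VAAux.L_mul P
  induction i with
  | zero => simp
  | succ i ih =>
    rw [Finset.sum_range_succ, ih]
    have : xq ^ (i + 1) * P.rat.L = xq ^ i := by
      rw [pow_succ, mul_assoc, mul_comm xq, hL, mul_one]
    linear_combination this

theorem sum_list (n : ℕ) (ts : List Fam) (g : ℕ → Fam → K) :
    ∑ j ∈ Finset.range n, (ts.map fun t => g j t).sum =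
      (ts.map fun t => ∑ j ∈ Finset.range n, g j t).sum := by
  induction ts with
  | nil => simp
  | cons t ts ih => simp only [List.map_cons, List.sum_cons, Finset.sum_add_distrib, ih]

theorem sum_sub (ts : List Fam) (a b : Fam → K) :
    (ts.map fun t => a t - b t).sum = (ts.map a).sum - (ts.map b).sum := by
  induction ts with
  | nil => simp
  | cons t ts ih =>
    simp only [List.map_cons, List.sum_cons, ih]
    ring

section

variable {E : Type} [Finite E]

theorem cl_atv' (P : HodgeMeasure) (c : ℂ) (t : Fam) (Q : Set (E ⊕ Bool → ℂ)) :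
    fcl P t (Qc Q c) = (atv t c).cl P Q := by
  have := t.fin
  unfold fcl Fam2.cl
  have h4 : {z : E ⊕ t.σ → ℂ | (fun s => z (Sum.inr s)) ∈ t.S ∧
      (Sum.elim (fun e => z (Sum.inl e)) fun _ => eval (fun s => z (Sum.inr s)) t.u) ∈ Qc Q c} =
      {z : E ⊕ (atv t c).σ → ℂ | (fun s => z (Sum.inr s)) ∈ (atv t c).S ∧
        Sum.elim (fun p => z (Sum.inl p)) ((atv t c).pt fun s => z (Sum.inr s)) ∈ Q} := by
    ext (z : E ⊕ t.σ → ℂ)
    have h3 : (Sum.elim (fun p => z (Sum.inl p)) (Fam2.pt (atv t c)
        fun s => z (Sum.inr s))) = Sum.elim (fun e => z (Sum.inl e)) fun b : Bool =>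
          if b then c else eval (fun s => z (Sum.inr s)) t.u := by
      funext s
      rcases s with s | b
      · rfl
      · cases b
        · rfl
        · change eval (fun s => z (Sum.inr s)) (C c : MvPolynomial t.σ ℂ) = _
          rw [eval_C]
          rfl
    constructor
    · rintro ⟨h1, h2⟩
      refine ⟨h1, ?_⟩
      have h6 : (Sum.elim (fun p => z (Sum.inl p)) (Fam2.pt (atv t c)
          fun s => z (Sum.inr s))) ∈ Q := by
        rw [h3]
        exact h2
      exact h6
    · rintro ⟨h1, h2⟩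
      refine ⟨h1, ?_⟩
      have h6 : (Sum.elim (fun p => z (Sum.inl p)) (Fam2.pt (atv t c)
          fun s => z (Sum.inr s))) ∈ Q := h2
      rw [h3] at h6
      exact h6
  rw [h4]
  rfl

theorem dat_t (f : P2) (x₀ : Fin 2 → ℂ) (p : E → ℂ) (x : Fin 2 → PowerSeries ℂ)
    (hx : ∀ i, PowerSeries.coeff 0 (x i) = 0) (i : ℕ) (hi : 1 ≤ i) :
    Sum.elim p (dat true i (aeval (fun j => x j + PowerSeries.C (x₀ j)) f)) =
      Sum.elim p fun b : Bool => if b then eval x₀ f else
        PowerSeries.coeff i (aeval x (Ft f x₀)) := by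
  funext s
  rcases s with s | b
  · rfl
  · cases b
    · simp only [Sum.elim_inr, dat, ldc, Bool.false_eq_true, if_false, if_true]
      rw [aeval_Ft, map_add, PowerSeries.coeff_C, if_neg (by omega), add_zero]
    · simp only [Sum.elim_inr, dat, if_true]
      rw [aeval_Ft, map_add, coeff_zero_Ft f x₀ x hx, zero_add, PowerSeries.coeff_C,
        if_pos rfl]

theorem dat_f (f : P2) (x₀ : Fin 2 → ℂ) (p : E → ℂ) (x : Fin 2 → PowerSeries ℂ)
    (hx : ∀ i, PowerSeries.coeff 0 (x i) = 0) (i : ℕ) :
    Sum.elim p (dat false i (aeval (fun j => x j + PowerSeries.C (x₀ j)) f)) =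
      Sum.elim p fun b : Bool => if b then eval x₀ f else 0 := by
  funext s
  rcases s with s | b
  · rfl
  · cases b
    · simp only [Sum.elim_inr, dat, ldc, Bool.false_eq_true, if_false]
    · simp only [Sum.elim_inr, dat, if_true]
      rw [aeval_Ft, map_add, coeff_zero_Ft f x₀ x hx, zero_add, PowerSeries.coeff_C,
        if_pos rfl]

theorem cl_haar (P : HodgeMeasure) (α : K) (c : ℂ) {Q : Set (E ⊕ Bool → ℂ)}
    (hQ : Constructible Q) : fcl P (haar α) (Qc Q c) =
      (HT.ex ⟨Empty, inferInstance, Set.univ, C c, α⟩).cl P Q := by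
  have hcon := con_Qc hQ c
  have hU : Constructible {z : Unit → ℂ | z () ≠ 0} := by
    have := Constructible.ne (X () : MvPolynomial Unit ℂ)
    simpa only [eval_X] using this
  have e1 : fcl P (haar α) (Qc Q c) = P.rat.val {z : E ⊕ Unit → ℂ |
      (fun s => z (Sum.inr s)) ∈ {z : Unit → ℂ | z () ≠ 0} ∧ z ∈ Qc Q c} := by
    unfold fcl
    have h4 : {z : E ⊕ (haar α).σ → ℂ | (fun s => z (Sum.inr s)) ∈ (haar α).S ∧
        (Sum.elim (fun e => z (Sum.inl e))
          fun _ => eval (fun s => z (Sum.inr s)) (haar α).u) ∈ Qc Q c} =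
        {z : E ⊕ Unit → ℂ | (fun s => z (Sum.inr s)) ∈ {z : Unit → ℂ | z () ≠ 0} ∧
          z ∈ Qc Q c} := by
      ext (z : E ⊕ Unit → ℂ)
      have h5 : (Sum.elim (fun e => z (Sum.inl e))
          fun _ : Unit => eval (fun s => z (Sum.inr s)) (haar α).u) = z := by
        funext s
        rcases s with s | s
        · rfl
        · exact eval_X (f := fun s => z (Sum.inr s)) ()
      constructor
      · rintro ⟨h1, h2⟩
        refine ⟨h1, ?_⟩
        have h6 : (Sum.elim (fun e => z (Sum.inl e))
          fun _ : Unit => eval (fun s => z (Sum.inr s)) (haar α).u) ∈ Qc Q c := h2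
        rw [h5] at h6
        exact h6
      · rintro ⟨h1, h2⟩
        refine ⟨h1, ?_⟩
        rw [← h5] at h2
        exact h2
    rw [h4]
    rfl
  have e2 : (HT.ex ⟨Empty, inferInstance, Set.univ, C c, α⟩).cl P Q =
      P.rat.val {z : E ⊕ (Empty ⊕ Unit) → ℂ |
        (fun s => z (Sum.inr (Sum.inr s))) ∈ {z : Unit → ℂ | z () ≠ 0} ∧
        (fun s => z (Sum.map id Sum.inr s)) ∈ Qc Q c} := by
    unfold Fam2.cl
    have h4 : {z : E ⊕ (HT.ex ⟨Empty, inferInstance, Set.univ, C c, α⟩).σ → ℂ |
        (fun s => z (Sum.inr s)) ∈ (HT.ex ⟨Empty, inferInstance, Set.univ, C c, α⟩).S ∧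
        Sum.elim (fun p => z (Sum.inl p))
          ((HT.ex ⟨Empty, inferInstance, Set.univ, C c, α⟩).pt fun s => z (Sum.inr s)) ∈ Q} =
        {z : E ⊕ (Empty ⊕ Unit) → ℂ |
        (fun s => z (Sum.inr (Sum.inr s))) ∈ {z : Unit → ℂ | z () ≠ 0} ∧
        (fun s => z (Sum.map id Sum.inr s)) ∈ Qc Q c} := by
      ext (z : E ⊕ (Empty ⊕ Unit) → ℂ)
      have h5 : (Sum.elim (fun p => z (Sum.inl p)) (fun b : Bool =>
          if b then eval (fun s => z (Sum.inr s)) (rename Sum.inl (C c) :
            MvPolynomial (Empty ⊕ Unit) ℂ) else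
            eval (fun s => z (Sum.inr s)) (X (Sum.inr ()) : MvPolynomial (Empty ⊕ Unit) ℂ))) =
          (Sum.elim (fun e => z (Sum.inl e)) fun b : Bool =>
            if b then c else z (Sum.inr (Sum.inr ()))) := by
        rw [O5Aux.ev_ex]
        simp only [eval_C]
      constructor
      · rintro ⟨⟨-, h1⟩, h2⟩
        refine ⟨h1, ?_⟩
        have h6 : (Sum.elim (fun p => z (Sum.inl p)) (fun b : Bool =>
          if b then eval (fun s => z (Sum.inr s)) (rename Sum.inl (C c) :
            MvPolynomial (Empty ⊕ Unit) ℂ) else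
            eval (fun s => z (Sum.inr s)) (X (Sum.inr ()) :
              MvPolynomial (Empty ⊕ Unit) ℂ))) ∈ Q := h2
        rw [h5] at h6
        exact h6
      · rintro ⟨h1, h2⟩
        refine ⟨⟨Set.mem_univ _, h1⟩, ?_⟩
        have h6 : (Sum.elim (fun e => z (Sum.inl e)) fun b : Bool =>
            if b then c else z (Sum.inr (Sum.inr ()))) ∈ Q := h2
        rw [← h5] at h6
        exact h6
    rw [h4]
    rfl
  rw [e1, e2]
  exact M5Aux.val_reindex' P (Equiv.sumCongr (Equiv.refl E) (Equiv.emptySum Empty Unit).symm)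
    (Constructible.and (Constructible.comap _ hU) hcon)
    (Constructible.and (Constructible.comap (fun s => Sum.inr (Sum.inr s)) hU)
      (Constructible.comap _ hcon)) (fun x => by
        have h6 : (fun s => (fun j => x ((Equiv.sumCongr (Equiv.refl E)
            (Equiv.emptySum Empty Unit).symm).symm j)) (Sum.map id Sum.inr s)) = x := by
          funext s
          rcases s with s | s <;> rfl
        constructor
        · rintro ⟨h1, h2⟩
          refine ⟨h1, ?_⟩
          rw [← h6] at h2
          exact h2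
        · rintro ⟨h1, h2⟩
          refine ⟨h1, ?_⟩
          have h7 : (fun s => (fun j => x ((Equiv.sumCongr (Equiv.refl E)
            (Equiv.emptySum Empty Unit).symm).symm j)) (Sum.map id Sum.inr s)) ∈ Qc Q c := h2
          rw [h6] at h7
          exact h7)

end

end VPTAux

open VPTAux

theorem stmt_VPT (hVL : Stmt_VL0) (hVM : Stmt_VM0) (hEMB : Stmt_EMB) (hES : Stmt_ESUM) :
    Stmt_VPT := by
  classical
  intro P Λ f x₀ hΛ hG
  change Good0 Λ (Ft f x₀) at hG
  obtain ⟨φ, hφ⟩ := hEMB
  obtain ⟨α, ts, hts, hex⟩ := hVL P Λ (Ft f x₀) hG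
  have hmass := hVM P φ Λ (Ft f x₀) hφ hG
  set c : ℂ := eval x₀ f with hc
  have hL := VAAux.L_mul P
  -- the sequences
  have hQ3 := stmt_Q3.1
  have hv : ∀ t ∈ ts, ∃ v : K, ESeq Λ fun m => v - ∑ j ∈ Finset.range (m + 1), t.κ j :=
    fun t ht => hQ3 Λ t.κ hΛ (hts t ht).2
  choose! v hv using hv
  set b : ℕ → K := fun m => (ts.map fun t => famV P t *
    (v t - ∑ j ∈ Finset.range (m + 1), t.κ j)).sum with hb
  have hbE : ESeq Λ b := ESeq_sum Λ ts (famV P)
    (fun t m => v t - ∑ j ∈ Finset.range (m + 1), t.κ j) hv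
  set c0 : K := α + (ts.map fun t => famV P t * (v t - t.κ 0)).sum with hc0
  have hgood : ∀ t ∈ haar α :: ts, t.Good := by
    intro t ht
    rcases List.mem_cons.1 ht with rfl | h
    · exact haar_good α
    · exact (hts t h).1
  -- the volumes of the exact sets with all leading coefficients
  set g : ℕ → K := fun m => ((haar α :: ts).map fun t => t.κ m * famV P t).sum with hg
  have hvolB : ∀ (E : Type) [Finite E] (B : Set (E → ℂ)), Constructible B → ∀ m, 1 ≤ m →
      vol P.rat xq (LS (Ft f x₀) (QB B) m) = P.rat.val B * g m := by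
    intro E _ B hB m hm
    rw [hex E (QB B) ⟨con_QB hB, fun z hz => hz.2⟩ m hm]
    simp only [hg]
    rw [← List.sum_map_mul_left]
    congr 1
    apply List.map_congr_left
    intro t ht
    rw [fcl_QB P (hgood t ht) hB]
    ring
  have hsumg : ∀ i, ∑ j ∈ Finset.range i, g (j + 1) = c0 - α * xq ^ i - b i := by
    intro i
    have h1 : ∀ m, g m = α * (xq ^ m * (P.rat.L - 1)) +
        (ts.map fun t => t.κ m * famV P t).sum := by
      intro m
      simp only [hg, List.map_cons, List.sum_cons, famV_haar]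
      change α * xq ^ m * (P.rat.L - 1) + _ = _
      ring
    rw [Finset.sum_congr rfl (fun j _ => h1 (j + 1)), Finset.sum_add_distrib, ← Finset.mul_sum,
      geom P i, sum_list]
    simp only [hc0, hb]
    have h2 : (ts.map fun t => ∑ j ∈ Finset.range i, t.κ (j + 1) * famV P t).sum =
        (ts.map fun t => famV P t * (v t - t.κ 0)).sum -
        (ts.map fun t => famV P t * (v t - ∑ j ∈ Finset.range (i + 1), t.κ j)).sum := by
      rw [← sum_sub]
      congr 1
      apply List.map_congr_left
      intro t _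
      rw [Finset.sum_range_succ' (fun j => t.κ j), ← Finset.sum_mul]
      ring
    rw [h2]
    ring
  -- the constant
  have hconst : (xq : K) ^ 2 = c0 := by
    apply φ.injective
    have hq : (fun m : ℕ => φ (vol P.rat xq (LS (Ft f x₀) QF m))) =
        fun m => if m = 0 then 0 else φ (g m) := by
      funext m
      have hQF : (QF : Set (Empty ⊕ Unit → ℂ)) = QB Set.univ := by
        ext z
        simp [QF, QB]
      split_ifs with hm
      · subst hm
        have h1 : LS (Ft f x₀) (QF : Set (Empty ⊕ Unit → ℂ)) 0 = ∅ := by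
          ext z
          simp only [Set.mem_empty_iff_false, iff_false]
          rintro ⟨h1, -, h3⟩
          exact h3 (coeff_zero_Ft f x₀ z.2 h1)
        have h2 : vol P.rat xq (∅ : Set ((Empty → ℂ) × (Fin 2 → PowerSeries ℂ))) = 0 := by
          have h3 := vol_biU P (∅ : Finset ℕ)
            (s := fun _ => (∅ : Set ((Empty → ℂ) × (Fin 2 → PowerSeries ℂ)))) (by simp) (by simp)
          simpa using h3
        rw [h1, h2, map_zero]
      · rw [hQF, hvolB Empty Set.univ Constructible.univ m (by omega), P.rat.point, one_mul]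
    rw [hq] at hmass
    have h1 := hmass.tendsto_sum_nat
    have h2 : (fun n : ℕ => ∑ i ∈ Finset.range (n + 1), (if i = 0 then (0 : ℝ) else φ (g i))) =
        fun n => φ c0 - φ α * φ xq ^ n - φ (b n) := by
      funext n
      rw [Finset.sum_range_succ']
      simp only [Nat.add_eq_zero_iff, one_ne_zero, and_false, if_false, if_true, add_zero]
      rw [← map_sum, hsumg n, map_sub, map_sub, map_mul, map_pow]
    have h3 := (Filter.tendsto_add_atTop_iff_nat 1).2 h1
    rw [h2] at h3
    have hxq : φ xq = (φ RatFunc.X)⁻¹ := by rw [xq, map_inv₀]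
    have h4 : Filter.Tendsto (fun n : ℕ => φ xq ^ n) Filter.atTop (nhds 0) := by
      apply tendsto_pow_atTop_nhds_zero_of_lt_one
      · rw [hxq]
        exact inv_nonneg.mpr (by linarith)
      · rw [hxq]
        exact inv_lt_one_of_one_lt₀ hφ
    have h5 : Filter.Tendsto (fun n : ℕ => φ (b n)) Filter.atTop (nhds 0) := by
      have h6 := hES φ b hφ (stmt_Q1.1 Λ (Set.Ioi 0) b hΛ hbE)
      have h7 := h6.tendsto_atTop_zero
      exact (tendsto_zero_iff_abs_tendsto_zero _).2 h7
    have h6 : Filter.Tendsto (fun n => φ c0 - φ α * φ xq ^ n - φ (b n)) Filter.atTop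
        (nhds (φ c0 - φ α * 0 - 0)) := ((tendsto_const_nhds.sub (h4.const_mul _)).sub h5)
    have h7 := tendsto_nhds_unique h3 h6
    rw [h7]
    ring
  refine ⟨⟨Empty, inferInstance, Set.univ, C c, α⟩, ts, b, fun t ht => (hts t ht).2, hbE,
    ⟨?_, ?_⟩, ⟨?_, ?_⟩⟩
  · intro G hGm
    rcases List.mem_cons.1 hGm with rfl | h
    · refine ⟨O5Aux.con_ex (ι := Empty) Constructible.univ, ?_⟩
      rintro (τ : Empty ⊕ Unit → ℂ) ⟨-, h2⟩
      refine ⟨Set.mem_univ _, fun _ => ?_⟩
      have h3 : eval τ (MvPolynomial.X (Sum.inr ()) : MvPolynomial (Empty ⊕ Unit) ℂ) ≠ 0 := by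
        rw [eval_X]
        exact h2
      exact h3
    · obtain ⟨t, ht, rfl⟩ := List.mem_map.1 h
      exact ⟨(hts t ht).1.1, fun τ hτ => ⟨Set.mem_univ _, fun _ => (hts t ht).1.2 τ hτ⟩⟩
  · intro E _ Q hQ i hi
    have hi1 : 1 ≤ i := hi rfl
    have hcon := con_Qc hQ.1 c
    have hQU : QU (Qc Q c) := ⟨hcon, fun z hz => by
      have := (hQ.2 _ hz).2 rfl
      simpa using this⟩
    have hZ : Constructible ({x₀} : Set (Fin 2 → ℂ)) := Constructible.point x₀
    have hCy : Cy (SDz f {x₀} true Q i) :=
      Cy.and (Cy.SD f true hQ.1 i) (Cy.mem hZ (φ := fun a z => PowerSeries.coeff 0 (z.2 a))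
        fun a => RF.arc a 0)
    rw [vol_trans P x₀ hCy (Cy_LS (Ft f x₀) hcon i) ?_, hex E (Qc Q c) hQU i hi1]
    · simp only [List.map_cons, List.sum_cons, List.map_map]
      congr 1
      · change α * xq ^ i * _ = α * xq ^ i * _
        congr 1
        exact cl_haar P α c hQ.1
      · congr 1
        apply List.map_congr_left
        intro t _
        change t.κ i * _ = t.κ i * _
        congr 1
        exact cl_atv' P c t Q
    · intro p x
      constructor
      · rintro ⟨h1, h2, h3⟩
        refine ⟨⟨?_, ?_⟩, ?_⟩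
        · intro l hl1 hl2
          rw [aeval_Ft, map_add, h2 l (by simpa using hl2), zero_add, PowerSeries.coeff_C,
            if_neg (by omega)]
        · change Sum.elim p (dat true i (aeval (fun j => x j + PowerSeries.C (x₀ j)) f)) ∈ Q
          rw [dat_t f x₀ p x h1 i hi1]
          exact h3
        · rw [Set.mem_singleton_iff]
          funext a
          have h6 : PowerSeries.coeff 0 (x a) = 0 := h1 a
          change PowerSeries.coeff 0 (x a + PowerSeries.C (x₀ a)) = x₀ a
          rw [map_add, h6, zero_add, PowerSeries.coeff_C, if_pos rfl]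
      · rintro ⟨⟨h2, h3⟩, h4⟩
        rw [Set.mem_singleton_iff] at h4
        have h1 : ∀ a, PowerSeries.coeff 0 (x a) = 0 := by
          intro a
          have := congrFun h4 a
          simpa using this
        refine ⟨h1, ?_, ?_⟩
        · intro l hl
          rcases Nat.eq_zero_or_pos l with rfl | hl0
          · exact coeff_zero_Ft f x₀ x h1
          · have := h2 l hl0 (by simpa using hl)
            simp only at this
            rw [aeval_Ft, map_add, PowerSeries.coeff_C, if_neg (by omega), add_zero] at this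
            exact this
        · have h5 : Sum.elim p (dat true i (aeval (fun j => x j + PowerSeries.C (x₀ j)) f)) ∈ Q :=
            h3
          rw [dat_t f x₀ p x h1 i hi1] at h5
          exact h5
  · intro G hGm
    rcases List.mem_cons.1 hGm with rfl | h
    · exact ⟨Constructible.univ, fun τ _ => ⟨Set.mem_univ _, fun h => absurd h (by decide)⟩⟩
    · rw [List.mem_singleton] at h
      subst h
      exact ⟨Constructible.univ, fun τ _ => ⟨Set.mem_univ _, fun h => absurd h (by decide)⟩⟩
  · intro E _ Q hQ i _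
    have hB := con_Bc hQ.1 c
    have hZ : Constructible ({x₀} : Set (Fin 2 → ℂ)) := Constructible.point x₀
    have hCy : Cy (SDz f {x₀} false Q i) :=
      Cy.and (Cy.SD f false hQ.1 i) (Cy.mem hZ (φ := fun a z => PowerSeries.coeff 0 (z.2 a))
        fun a => RF.arc a 0)
    rw [vol_trans P x₀ hCy (Cy_TT (Ft f x₀) hB i) ?_, TT_eq P f x₀ hB i,
      Finset.sum_congr rfl (fun j _ => hvolB E (Bc Q c) hB (j + 1) (by omega)),
      ← Finset.mul_sum, hsumg i, hconst]
    · have hcl : ∀ (G : Fam2) (e : G.σ ≃ Empty), G.S = Set.univ →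
          (∀ τ, eval τ G.v = c) → (∀ τ, eval τ G.u = 0) → G.cl P Q = P.rat.val (Bc Q c) := by
        intro G e hS hv hu
        have := G.fin
        unfold Fam2.cl
        have h3 : ∀ z : E ⊕ G.σ → ℂ, (Sum.elim (fun p => z (Sum.inl p)) (G.pt
            fun s => z (Sum.inr s))) = Sum.elim (fun e => z (Sum.inl e)) fun b : Bool =>
              if b then c else 0 := by
          intro z
          funext s
          rcases s with s | b
          · rfl
          · cases b
            · exact hu _
            · exact hv _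
        have h4 : {z : E ⊕ G.σ → ℂ | (fun s => z (Sum.inr s)) ∈ G.S ∧
            Sum.elim (fun p => z (Sum.inl p)) (G.pt fun s => z (Sum.inr s)) ∈ Q} =
            {z : E ⊕ G.σ → ℂ | (fun e => z (Sum.inl e)) ∈ Bc Q c} := by
          ext z
          simp only [Set.mem_ofPred_eq, h3, hS, Set.mem_univ, true_and]
          rfl
        rw [h4]
        exact M5Aux.val_reindex' P ((Equiv.sumCongr (Equiv.refl E) e).trans
          (Equiv.sumEmpty E Empty)) (Constructible.comap _ hB) hB (fun x => Iff.rfl)
      simp only [List.map_cons, List.map_nil, List.sum_cons, List.sum_nil, add_zero]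
      rw [hcl (HT.tl ⟨Empty, inferInstance, Set.univ, C c, α⟩) (Equiv.refl Empty) rfl
        (fun τ => eval_C c) (fun τ => map_zero _), hcl (ptv c b) (Equiv.refl Empty) rfl
        (fun τ => eval_C c) (fun τ => map_zero _)]
      change _ = α * xq ^ i * _ + b i * _
      ring
    · intro p x
      constructor
      · rintro ⟨h0, h1, h2⟩
        refine ⟨⟨?_, ?_⟩, ?_⟩
        · intro l hl1 hl2
          rw [aeval_Ft, map_add, h2 l (by simpa using hl2), zero_add, PowerSeries.coeff_C,
            if_neg (by omega)]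
        · change Sum.elim p (dat false i (aeval (fun j => x j + PowerSeries.C (x₀ j)) f)) ∈ Q
          rw [dat_f f x₀ p x h1 i]
          exact h0
        · rw [Set.mem_singleton_iff]
          funext a
          have h6 : PowerSeries.coeff 0 (x a) = 0 := h1 a
          change PowerSeries.coeff 0 (x a + PowerSeries.C (x₀ a)) = x₀ a
          rw [map_add, h6, zero_add, PowerSeries.coeff_C, if_pos rfl]
      · rintro ⟨⟨h2, h3⟩, h4⟩
        rw [Set.mem_singleton_iff] at h4
        have h1 : ∀ a, PowerSeries.coeff 0 (x a) = 0 := by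
          intro a
          have := congrFun h4 a
          simpa using this
        refine ⟨?_, h1, ?_⟩
        · have h5 : Sum.elim p (dat false i (aeval (fun j => x j + PowerSeries.C (x₀ j)) f)) ∈ Q :=
            h3
          rw [dat_f f x₀ p x h1 i] at h5
          exact h5
        · intro l hl
          rcases Nat.eq_zero_or_pos l with rfl | hl0
          · exact coeff_zero_Ft f x₀ x h1
          · have := h2 l hl0 (by simpa using hl)
            simp only at this
            rw [aeval_Ft, map_add, PowerSeries.coeff_C, if_neg (by omega), add_zero] at this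
            exact this

end Pool.Agent.Mono.PC
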