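import Pool.Agent.Work.Monodromy6.VRA

/-!
# Block VRAY (helper43): a ray which belongs to an edge
-/

set_option autoImplicit false
set_option linter.unusedSectionVars false

namespace Pool.Agent.Mono.PC

open MvPolynomial TS RO TS.VAAux TS.VPAux TS.VSAux RO.WS5Aux RO.UA RO.VGAux VRAux

namespace VRAYAux

/-! ## Coprime powers -/

theorem exists_c {p q : ℕ} (hpq : p.Coprime q) {a d : ℂ} (ha : a ≠ 0)
    (hd : d ≠ 0) (h : d ^ p = a ^ q) : ∃ c : ℂ, c ≠ 0 ∧ c ^ p = a ∧ c ^ q = d := by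
  have hg : ((1 : ℕ) : ℤ) = p * Nat.gcdA p q + q * Nat.gcdB p q := by
    have := Nat.gcd_eq_gcd_ab p q
    rwa [hpq] at this
  set u := Nat.gcdA p q
  set v := Nat.gcdB p q
  have hz : d ^ (p : ℤ) = a ^ (q : ℤ) := by
    rw [zpow_natCast, zpow_natCast]
    exact h
  have hg' : (p : ℤ) * u + q * v = 1 := by
    rw [← hg]
    rfl
  refine ⟨a ^ u * d ^ v, mul_ne_zero (zpow_ne_zero _ ha) (zpow_ne_zero _ hd), ?_, ?_⟩
  · rw [mul_pow, ← zpow_natCast, ← zpow_natCast, ← zpow_mul, ← zpow_mul, mul_comm v (p : ℤ),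
      zpow_mul d, hz, ← zpow_mul, ← zpow_add₀ ha]
    have : u * (p : ℤ) + (q : ℤ) * v = 1 := by
      rw [← hg']
      ring
    rw [this, zpow_one]
  · rw [mul_pow, ← zpow_natCast, ← zpow_natCast, ← zpow_mul, ← zpow_mul, mul_comm u (q : ℤ),
      zpow_mul a, ← hz, ← zpow_mul, ← zpow_add₀ hd]
    have : (p : ℤ) * u + v * (q : ℤ) = 1 := by
      rw [← hg']
      ring
    rw [this, zpow_one]

theorem unique_c {p q : ℕ} (hpq : p.Coprime q) {c c' : ℂ} (hc' : c' ≠ 0)
    (h1 : c ^ p = c' ^ p) (h2 : c ^ q = c' ^ q) : c = c' := by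
  have e1 : (c / c') ^ p = 1 := by rw [div_pow, h1, div_self (pow_ne_zero _ hc')]
  have e2 : (c / c') ^ q = 1 := by rw [div_pow, h2, div_self (pow_ne_zero _ hc')]
  have e3 := pow_gcd_eq_one.2 ⟨e1, e2⟩
  rw [hpq, pow_one] at e3
  rwa [div_eq_one_iff_eq hc'] at e3

section

variable {E : Type}

/-- the part over the root `R` -/
def SR (G : P2) (Q : Set (E ⊕ Unit → ℂ)) (p q k m : ℕ) (R : ℂ) :
    Set ((E ⊕ Unit → ℂ) × (Unit → PowerSeries ℂ)) :=
  {z | z ∈ NS G Q (p * k) (q * k) m ∧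
    PowerSeries.coeff (q * k) (z.2 ()) ^ p = R * z.1 (Sum.inr ()) ^ q}

theorem cy_SR [Finite E] (G : P2) {Q : Set (E ⊕ Unit → ℂ)} (hQ : Constructible Q)
    (p q k m : ℕ) (R : ℂ) : Cy (SR G Q p q k m R) := by
  have hpow : ∀ (φ : (E ⊕ Unit → ℂ) × (Unit → PowerSeries ℂ) → ℂ) (n : ℕ), RF φ →
      RF fun z => φ z ^ n := by
    intro φ n hφ
    have := RF.eval (σ := Unit) (φ := fun _ => φ) (fun _ => hφ) (X () ^ n)
    simpa only [map_pow, eval_X] using this
  exact Cy.and (cy_NS G hQ _ _ _) (Cy.eq (hpow _ p (RF.arc () (q * k)))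
    ((RF.const R).mul (hpow _ q (RF.par (Sum.inr ())))))

/-- the map -/
noncomputable def tau (p q k : ℕ) (lam : ℂ) (z : (E ⊕ Unit → ℂ) × (Unit → PowerSeries ℂ)) :
    (E ⊕ Unit → ℂ) × (Unit → PowerSeries ℂ) :=
  (Sum.elim (fun e => z.1 (Sum.inl e)) fun _ => z.1 (Sum.inr ()) ^ p, fun _ =>
    PowerSeries.C (z.1 (Sum.inr ()) ^ q) * PowerSeries.X ^ (q * k) *
      (PowerSeries.C lam + z.2 ()))

/-- its polynomials -/
noncomputable def phi (E : Type) (p q k n : ℕ) (lam : ℂ) :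
    (E ⊕ Unit) ⊕ (Σ _ : Unit, Fin (q * k + n)) →
      MvPolynomial ((E ⊕ Unit) ⊕ (Σ _ : Unit, Fin n)) ℂ :=
  Sum.elim (Sum.elim (fun e => X (Sum.inl (Sum.inl e))) fun _ => X (Sum.inl (Sum.inr ())) ^ p)
    fun s => if h : q * k ≤ (s.2 : ℕ) then X (Sum.inl (Sum.inr ())) ^ q *
      ((if (s.2 : ℕ) = q * k then C lam else 0) +
        X (Sum.inr ⟨(), ⟨(s.2 : ℕ) - q * k, by
          have := s.2.2
          omega⟩⟩)) else 0

theorem coeff_tau (p q k : ℕ) (lam : ℂ) (z : (E ⊕ Unit → ℂ) × (Unit → PowerSeries ℂ)) (j : ℕ) :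
    PowerSeries.coeff j ((tau p q k lam z).2 ()) = if q * k ≤ j then z.1 (Sum.inr ()) ^ q *
      ((if j = q * k then lam else 0) + PowerSeries.coeff (j - q * k) (z.2 ())) else 0 := by
  change PowerSeries.coeff j (PowerSeries.C (z.1 (Sum.inr ()) ^ q) * PowerSeries.X ^ (q * k) *
      (PowerSeries.C lam + z.2 ())) = _
  rw [mul_assoc, PowerSeries.coeff_C_mul, PowerSeries.coeff_X_pow_mul']
  split_ifs with h1 h2
  · rw [map_add, h2, Nat.sub_self, PowerSeries.coeff_C, if_pos rfl]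
  · rw [map_add, PowerSeries.coeff_C, if_neg (by omega)]
  · rw [mul_zero]

theorem trd_tau (p q k n : ℕ) (lam : ℂ) (z : (E ⊕ Unit → ℂ) × (Unit → PowerSeries ℂ)) :
    CV.trd (fun _ => q * k + n) (tau p q k lam z).1 (tau p q k lam z).2 =
      fun a => eval (CV.trd (fun _ => n) z.1 z.2) (phi E p q k n lam a) := by
  funext a
  rcases a with (e | u) | ⟨u, j⟩
  · simp only [phi, Sum.elim_inl, eval_X]
    rfl
  · simp only [phi, Sum.elim_inl, Sum.elim_inr, map_pow, eval_X]
    rfl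
  · change PowerSeries.coeff (j : ℕ) ((tau p q k lam z).2 ()) = _
    rw [coeff_tau]
    simp only [phi, Sum.elim_inr]
    by_cases h : q * k ≤ (j : ℕ)
    · rw [if_pos h, dif_pos h, map_mul, map_pow, map_add, eval_X, eval_X]
      congr 2
      split_ifs
      · rw [eval_C]
      · rw [map_zero]
    · rw [if_neg h, dif_neg h, map_zero]

theorem root_piece (P : HodgeMeasure) [Finite E] (G : P2) {Q : Set (E ⊕ Unit → ℂ)} (hQ : QU Q)
    {p q : ℕ} (hpq : p.Coprime q) (hp : 1 ≤ p) (k m : ℕ) (lam : ℂ) (hl : lam ≠ 0) :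
    vol P.rat xq (SR G Q p q k m (lam ^ p)) = xq ^ (q * k) * vN P (chart p q lam G) Q k 1 m := by
  obtain ⟨N, hN⟩ := cy_SR G hQ.1 p q k m (lam ^ p)
  obtain ⟨N', hN'⟩ := cy_NS (chart p q lam G) hQ.1 k 1 m
  set n := max 1 (max N N') with hn
  have hn1 : 1 ≤ n := le_max_left _ _
  have hnN : N ≤ n := le_trans (le_max_left _ _) (le_max_right _ _)
  have hnN' : N' ≤ n := le_trans (le_max_right _ _) (le_max_right _ _)
  have hS := hN (q * k + n) (by omega)
  have hS' := hN' n hnN'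
  have hev : ∀ z : (E ⊕ Unit → ℂ) × (Unit → PowerSeries ℂ),
      ev (chart p q lam G) k (z.1 (Sum.inr ())) (z.2 ()) =
        ev G (p * k) ((tau p q k lam z).1 (Sum.inr ())) ((tau p q k lam z).2 ()) := fun z =>
    ev_chart p q lam G k _ _
  have key := CV.vol_cvp P hS hS' (tau p q k lam) (phi E p q k n lam)
    (fun z _ => trd_tau p q k n lam z) ?_ ?_ ?_
  · have hx : (xq : K) ^ n ≠ 0 := by
      refine pow_ne_zero _ ?_
      intro h0
      have := L_mul P
      rw [h0, mul_zero] at this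
      exact zero_ne_one this
    simp only [Finset.univ_unique, Finset.sum_singleton] at key
    rw [vN]
    refine mul_right_cancel₀ hx ?_
    rw [key, pow_add]
    ring
  · rintro z ⟨h1, h2, h3⟩
    refine ⟨⟨pow_ne_zero _ h1, ?_, ?_⟩, ?_⟩
    · intro j hj
      rw [coeff_tau, if_neg (by omega)]
    · rw [← hev]
      exact h3
    · rw [coeff_tau, if_pos le_rfl, if_pos rfl, Nat.sub_self, h2 0 (by omega), add_zero]
      change (z.1 (Sum.inr ()) ^ q * lam) ^ p = lam ^ p * (z.1 (Sum.inr ()) ^ p) ^ q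
      ring
  · rintro z ⟨h1, h2, h3⟩ z' ⟨h1', h2', h3'⟩ h
    have ea : z.1 (Sum.inr ()) ^ p = z'.1 (Sum.inr ()) ^ p := congrFun h (Sum.inl (Sum.inr ()))
    have ej : ∀ j, j < q * k + n → PowerSeries.coeff j ((tau p q k lam z).2 ()) =
        PowerSeries.coeff j ((tau p q k lam z').2 ()) := fun j hj =>
      congrFun h (Sum.inr ⟨(), ⟨j, hj⟩⟩)
    have eq0 := ej (q * k) (by omega)
    rw [coeff_tau, coeff_tau, if_pos le_rfl, if_pos le_rfl, if_pos rfl, Nat.sub_self,
      h2 0 (by omega), h2' 0 (by omega), add_zero] at eq0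
    have eb : z.1 (Sum.inr ()) ^ q = z'.1 (Sum.inr ()) ^ q := mul_right_cancel₀ hl eq0
    have ec := unique_c hpq h1' ea eb
    funext a
    rcases a with (e | u) | ⟨u, j⟩
    · exact congrFun h (Sum.inl (Sum.inl e))
    · exact ec
    · have h4 := ej (q * k + j) (by
        have := j.2
        omega)
      rw [coeff_tau, coeff_tau, if_pos (Nat.le_add_right (q * k) (j : ℕ)),
        if_pos (Nat.le_add_right (q * k) (j : ℕ)), eb] at h4
      have h5 := mul_left_cancel₀ (pow_ne_zero _ h1') h4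
      have h6 := add_left_cancel h5
      rw [Nat.add_sub_cancel_left] at h6
      exact h6
  · rintro y ⟨⟨h1, h2, h3⟩, h4⟩
    set a := y.1 (Sum.inr ()) with ha
    set b := PowerSeries.coeff (q * k) (y.2 ()) with hb
    have hb0 : b ≠ 0 := by
      intro h
      rw [h, zero_pow (by omega)] at h4
      exact (mul_ne_zero (pow_ne_zero _ hl) (pow_ne_zero _ h1)) h4.symm
    have hd : (b / lam) ^ p = a ^ q := by
      rw [div_pow, h4]
      field_simp
    obtain ⟨c, hc0, hc1, hc2⟩ := exists_c hpq h1 (div_ne_zero hb0 hl) hd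
    obtain ⟨w, hw⟩ := PowerSeries.X_pow_dvd_iff.2 h2
    have hw0 : PowerSeries.constantCoeff w = b := by
      rw [hb, hw]
      have := PowerSeries.coeff_X_pow_mul w (q * k) 0
      rw [zero_add] at this
      rw [this, PowerSeries.coeff_zero_eq_constantCoeff_apply]
    have hcq : c ^ q ≠ 0 := pow_ne_zero _ hc0
    let z : (E ⊕ Unit → ℂ) × (Unit → PowerSeries ℂ) :=
      (Sum.elim (fun e => y.1 (Sum.inl e)) fun _ => c, fun _ =>
        PowerSeries.C (c ^ q)⁻¹ * w - PowerSeries.C lam)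
    have htau : tau p q k lam z = y := by
      refine Prod.ext ?_ ?_
      · funext e
        rcases e with e | u
        · rfl
        · exact hc1
      · funext u
        change PowerSeries.C (c ^ q) * PowerSeries.X ^ (q * k) *
          (PowerSeries.C lam + (PowerSeries.C (c ^ q)⁻¹ * w - PowerSeries.C lam)) = y.2 u
        have e1 : y.2 u = PowerSeries.X ^ (q * k) * w := hw
        have e2 : (PowerSeries.C (c ^ q) : PowerSeries ℂ) * PowerSeries.C (c ^ q)⁻¹ = 1 := by
          rw [← map_mul, mul_inv_cancel₀ hcq, map_one]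
        rw [e1]
        linear_combination (PowerSeries.X ^ (q * k) * w) * e2
    refine ⟨z, ⟨hc0, ?_, ?_⟩, by rw [htau]⟩
    · intro j hj
      obtain rfl : j = 0 := by omega
      change PowerSeries.coeff 0 (PowerSeries.C (c ^ q)⁻¹ * w - PowerSeries.C lam) = 0
      rw [map_sub, PowerSeries.coeff_C_mul, PowerSeries.coeff_zero_eq_constantCoeff_apply,
        PowerSeries.coeff_zero_eq_constantCoeff_apply, PowerSeries.constantCoeff_C, hw0, hc2]
      field_simp
      ring
    · have h7 := hev z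
      rw [htau] at h7
      change Lead Q m (fun e => y.1 (Sum.inl e)) (ev (chart p q lam G) k (z.1 (Sum.inr ())) (z.2 ()))
      rw [h7]
      exact h3

/-- the class of the set in `c2` -/
theorem con_c2 (u : P2) {Q : Set (E ⊕ Unit → ℂ)} (hQ : Constructible Q) :
    Constructible {z : E ⊕ Fin 2 → ℂ | z (Sum.inr 0) ≠ 0 ∧ z (Sum.inr 1) ≠ 0 ∧
      (Sum.elim (fun e => z (Sum.inl e)) fun _ => eval (fun i => z (Sum.inr i)) u) ∈ Q} := by
  have h0 := Constructible.ne (X (Sum.inr 0) : MvPolynomial (E ⊕ Fin 2) ℂ)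
  have h1 := Constructible.ne (X (Sum.inr 1) : MvPolynomial (E ⊕ Fin 2) ℂ)
  simp only [eval_X] at h0 h1
  refine Constructible.and h0 (Constructible.and h1 ?_)
  have h2 := Constructible.preimage (Sum.elim (fun e => X (Sum.inl e)) fun _ =>
    rename Sum.inr u : E ⊕ Unit → MvPolynomial (E ⊕ Fin 2) ℂ) hQ
  have h3 : {z : E ⊕ Fin 2 → ℂ |
      (Sum.elim (fun e => z (Sum.inl e)) fun _ => eval (fun i => z (Sum.inr i)) u) ∈ Q} =
      {z | (fun j => eval z ((Sum.elim (fun e => X (Sum.inl e)) fun _ =>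
        rename Sum.inr u : E ⊕ Unit → MvPolynomial (E ⊕ Fin 2) ℂ) j)) ∈ Q} := by
    ext z
    have : (Sum.elim (fun e => z (Sum.inl e)) fun _ => eval (fun i => z (Sum.inr i)) u) =
        fun j => eval z ((Sum.elim (fun e => X (Sum.inl e)) fun _ =>
          rename Sum.inr u : E ⊕ Unit → MvPolynomial (E ⊕ Fin 2) ℂ) j) := by
      funext j
      rcases j with j | j
      · simp
      · simp only [Sum.elim_inr, eval_rename]
        rfl
    simp only [Set.mem_ofPred_eq, this]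
  rw [h3]
  exact h2

/-- the part on which `u(a, b)` is the leading coefficient -/
def PU (u : P2) (Q : Set (E ⊕ Unit → ℂ)) (l : ℕ) :
    Set ((E ⊕ Unit → ℂ) × (Unit → PowerSeries ℂ)) :=
  {z | z.1 (Sum.inr ()) ≠ 0 ∧ (∀ j < l, PowerSeries.coeff j (z.2 ()) = 0) ∧
    PowerSeries.coeff l (z.2 ()) ≠ 0 ∧ (Sum.elim (fun e => z.1 (Sum.inl e)) fun _ =>
      eval ![z.1 (Sum.inr ()), PowerSeries.coeff l (z.2 ())] u) ∈ Q}

theorem isCyl_of_cy {E ι : Type} {S : Set ((E → ℂ) × (ι → PowerSeries ℂ))} (hS : Cy S) (n : ℕ)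
    (hinv : ∀ p x y, (∀ i, ∀ l < n, PowerSeries.coeff l (x i) = PowerSeries.coeff l (y i)) →
      ((p, x) ∈ S ↔ (p, y) ∈ S)) : IsCyl (fun _ => n) S := by
  classical
  refine ⟨hinv, ?_⟩
  obtain ⟨N0, hN0⟩ := hS
  set N := max N0 n with hN
  have h1 := hN0 N (le_max_left _ _)
  let φ : E ⊕ (Σ _ : ι, Fin N) → MvPolynomial (E ⊕ (Σ _ : ι, Fin n)) ℂ :=
    Sum.elim (fun e => X (Sum.inl e)) fun s => if h : (s.2 : ℕ) < n then
      X (Sum.inr ⟨s.1, ⟨s.2, h⟩⟩) else 0
  have h2 := Constructible.preimage φ h1.2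
  have h3 : sec (fun _ => n) S = {v | (fun a => eval v (φ a)) ∈ sec (fun _ => N) S} := by
    ext v
    have e1 : (fun e => eval v (φ (Sum.inl e))) = fun e => v (Sum.inl e) := by
      funext e
      simp only [φ, Sum.elim_inl, eval_X]
    have e2 : (toArc (fun _ : ι => N) fun s => eval v (φ (Sum.inr s))) =
        toArc (fun _ : ι => n) fun s => v (Sum.inr s) := by
      funext i
      ext l
      rw [coeff_toArc, coeff_toArc]
      by_cases hl : l < n
      · have hlN : l < N := lt_of_lt_of_le hl (le_max_right _ _)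
        rw [dif_pos hlN, dif_pos hl]
        simp only [φ, Sum.elim_inr, dif_pos hl, eval_X]
      · rw [dif_neg hl]
        split_ifs with h
        · simp only [φ, Sum.elim_inr, dif_neg hl, map_zero]
        · rfl
    change ((fun e => v (Sum.inl e)), toArc (fun _ : ι => n) fun s => v (Sum.inr s)) ∈ S ↔
      ((fun e => eval v (φ (Sum.inl e))),
        toArc (fun _ : ι => N) fun s => eval v (φ (Sum.inr s))) ∈ S
    rw [e1, e2]
  rw [h3]
  exact h2

theorem cyC_PU [Finite E] (u : P2) {Q : Set (E ⊕ Unit → ℂ)} (hQ : Constructible Q) (l : ℕ) :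
    Cy (PU u Q l) := by
  refine Cy.and (Cy.not (Cy.zero (RF.par (Sum.inr ())))) (Cy.and (Cy.all_lt l fun j _ =>
    Cy.zero (RF.arc () j)) (Cy.and (Cy.not (Cy.zero (RF.arc () l))) (Cy.mem hQ fun s => ?_)))
  rcases s with s | s
  · exact RF.par (Sum.inl s)
  · have := RF.eval (σ := Fin 2) (φ := ![fun z : (E ⊕ Unit → ℂ) × (Unit → PowerSeries ℂ) =>
      z.1 (Sum.inr ()), fun z => PowerSeries.coeff l (z.2 ())]) (fun s => by
        fin_cases s
        · exact RF.par (Sum.inr ())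
        · exact RF.arc () l) u
    have e : (fun z : (E ⊕ Unit → ℂ) × (Unit → PowerSeries ℂ) => eval (fun s =>
        (![fun z : (E ⊕ Unit → ℂ) × (Unit → PowerSeries ℂ) =>
          z.1 (Sum.inr ()), fun z => PowerSeries.coeff l (z.2 ())] :
            Fin 2 → (E ⊕ Unit → ℂ) × (Unit → PowerSeries ℂ) → ℂ) s z) u) =
        fun z => eval ![z.1 (Sum.inr ()), PowerSeries.coeff l (z.2 ())] u := by
      funext z
      congr 2
      funext s
      fin_cases s <;> rfl
    rw [e] at this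
    exact this

theorem cy_PU [Finite E] (u : P2) {Q : Set (E ⊕ Unit → ℂ)} (hQ : Constructible Q) (l : ℕ) :
    IsCyl (fun _ => l + 1) (PU u Q l) := by
  refine isCyl_of_cy (cyC_PU u hQ l) _ ?_
  intro p x y h
  have h1 : ∀ j ≤ l, PowerSeries.coeff j (x ()) = PowerSeries.coeff j (y ()) := fun j hj =>
    h () j (by omega)
  have e1 : (∀ j < l, PowerSeries.coeff j (x ()) = 0) ↔
      ∀ j < l, PowerSeries.coeff j (y ()) = 0 :=
    forall_congr' fun j => imp_congr_right fun hj => by rw [h1 j (by omega)]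
  simp only [PU, Set.mem_ofPred_eq, h1 l le_rfl, e1]

theorem vol_PU (P : HodgeMeasure) [Finite E] (u : P2) {Q : Set (E ⊕ Unit → ℂ)}
    (hQ : Constructible Q) (l : ℕ) : vol P.rat xq (PU u Q l) = xq ^ (l + 1) * c2 P u Q := by
  have hL := L_mul P
  rw [vol_eq P.rat hL (cy_PU u hQ l)]
  simp only [Finset.univ_unique, Finset.sum_singleton]
  rw [mul_comm]
  congr 1
  set K : Unit → ℕ := fun _ => l + 1 with hK
  have hmem : ∀ v : (E ⊕ Unit) ⊕ (Σ i : Unit, Fin (K i)) → ℂ, v ∈ sec K (PU u Q l) ↔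
      v (Sum.inl (Sum.inr ())) ≠ 0 ∧
      (∀ j : ℕ, ∀ h : j < l, v (Sum.inr ⟨(), ⟨j, Nat.lt_succ_of_lt h⟩⟩) = 0) ∧
      v (Sum.inr ⟨(), ⟨l, Nat.lt_succ_self l⟩⟩) ≠ 0 ∧
      (Sum.elim (fun e => v (Sum.inl (Sum.inl e))) fun _ =>
        eval ![v (Sum.inl (Sum.inr ())), v (Sum.inr ⟨(), ⟨l, Nat.lt_succ_self l⟩⟩)] u) ∈ Q := by
    intro v
    have hc : ∀ j : ℕ, ∀ h : j < l + 1, PowerSeries.coeff j
        (toArc K (fun s => v (Sum.inr s)) ()) = v (Sum.inr ⟨(), ⟨j, h⟩⟩) := by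
      intro j h
      rw [coeff_toArc, dif_pos h]
    have hl := hc l (Nat.lt_succ_self l)
    change (v (Sum.inl (Sum.inr ())) ≠ 0 ∧ (∀ j < l, PowerSeries.coeff j
        (toArc K (fun s => v (Sum.inr s)) ()) = 0) ∧
      PowerSeries.coeff l (toArc K (fun s => v (Sum.inr s)) ()) ≠ 0 ∧
      (Sum.elim (fun e => v (Sum.inl (Sum.inl e))) fun _ => eval ![v (Sum.inl (Sum.inr ())),
        PowerSeries.coeff l (toArc K (fun s => v (Sum.inr s)) ())] u) ∈ Q) ↔ _
    rw [hl]
    refine and_congr Iff.rfl (and_congr ?_ Iff.rfl)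
    exact forall_congr' fun j => forall_congr' fun h => by rw [hc j (by omega)]
  unfold c2
  refine P.rat.map _ _ (Sum.elim (fun e => X (Sum.inl (Sum.inl e)))
    ![X (Sum.inl (Sum.inr ())), X (Sum.inr ⟨(), ⟨l, Nat.lt_succ_self l⟩⟩)]) (cy_PU u hQ l).2
    (con_c2 u hQ) ⟨?_, ?_, ?_⟩
  · intro v hv
    rw [hmem] at hv
    obtain ⟨h1, h2, h3, h4⟩ := hv
    refine ⟨by simpa using h1, by simpa using h3, ?_⟩
    have e1 : (fun i : Fin 2 => eval v ((Sum.elim (fun e => X (Sum.inl (Sum.inl e)))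
        ![X (Sum.inl (Sum.inr ())), X (Sum.inr ⟨(), ⟨l, Nat.lt_succ_self l⟩⟩)] :
          E ⊕ Fin 2 → MvPolynomial ((E ⊕ Unit) ⊕ (Σ i : Unit, Fin (K i))) ℂ) (Sum.inr i))) =
        ![v (Sum.inl (Sum.inr ())), v (Sum.inr ⟨(), ⟨l, Nat.lt_succ_self l⟩⟩)] := by
      funext i
      fin_cases i <;> simp
    change (Sum.elim (fun e => eval v (X (Sum.inl (Sum.inl e)))) fun _ => eval (fun i : Fin 2 =>
      eval v ((Sum.elim (fun e => X (Sum.inl (Sum.inl e)))
        ![X (Sum.inl (Sum.inr ())), X (Sum.inr ⟨(), ⟨l, Nat.lt_succ_self l⟩⟩)] :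
          E ⊕ Fin 2 → MvPolynomial ((E ⊕ Unit) ⊕ (Σ i : Unit, Fin (K i))) ℂ) (Sum.inr i))) u) ∈ Q
    rw [e1]
    simpa only [eval_X] using h4
  · intro v hv v' hv' hvv
    rw [hmem] at hv hv'
    have h0 : ∀ e, v (Sum.inl (Sum.inl e)) = v' (Sum.inl (Sum.inl e)) := by
      intro e
      have := congrFun hvv (Sum.inl e)
      simpa using this
    have h1 : v (Sum.inl (Sum.inr ())) = v' (Sum.inl (Sum.inr ())) := by
      have := congrFun hvv (Sum.inr 0)
      simpa using this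
    have h2 : v (Sum.inr ⟨(), ⟨l, Nat.lt_succ_self l⟩⟩) =
        v' (Sum.inr ⟨(), ⟨l, Nat.lt_succ_self l⟩⟩) := by
      have := congrFun hvv (Sum.inr 1)
      simpa using this
    funext s
    rcases s with (e | e) | ⟨⟨⟩, ⟨j, hj⟩⟩
    · exact h0 e
    · exact h1
    · rcases Nat.lt_succ_iff_lt_or_eq.1 hj with h | h
      · exact (hv.2.1 j h).trans (hv'.2.1 j h).symm
      · subst h
        exact h2
  · rintro y ⟨h1, h2, h3⟩
    let v : (E ⊕ Unit) ⊕ (Σ i : Unit, Fin (K i)) → ℂ := Sum.elim (Sum.elim (fun e => y (Sum.inl e))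
      fun _ => y (Sum.inr 0)) fun s => if (s.2 : ℕ) = l then y (Sum.inr 1) else 0
    have hvl : v (Sum.inr ⟨(), ⟨l, Nat.lt_succ_self l⟩⟩) = y (Sum.inr 1) := if_pos rfl
    refine ⟨v, ?_, ?_⟩
    · rw [hmem, hvl]
      refine ⟨h1, fun j h => if_neg (by simp; omega), h2, ?_⟩
      have e1 : (![v (Sum.inl (Sum.inr ())), y (Sum.inr 1)] : Fin 2 → ℂ) =
          fun i => y (Sum.inr i) := by
        funext i
        fin_cases i <;> rfl
      rw [e1]
      exact h3
    · funext s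
      rcases s with e | i
      · simp [v]
      · fin_cases i
        · simp [v]
        · simpa using hvl

end

end VRAYAux

open VRAYAux

theorem stmt_VRAY : Stmt_VRAY := by
  intro P G p q aL bR I ρ he hρ E _ Q hQ k m hk
  classical
  set N := edgeN p q aL bR I with hN
  have hI0 : I ≠ 0 := by
    rintro h
    exact he.coeff_zero (by rw [h, Polynomial.coeff_zero])
  have hroot0 : ∀ R ∈ I.roots.toFinset, R ≠ 0 := by
    intro R hR h
    rw [Multiset.mem_toFinset, Polynomial.mem_roots hI0, Polynomial.IsRoot, h,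
      ← Polynomial.coeff_zero_eq_eval_zero] at hR
    exact he.coeff_zero hR
  have hp0 : p ≠ 0 := by
    have := he.hp
    omega
  -- the description of the parts
  have hlead : ∀ z : (E ⊕ Unit → ℂ) × (Unit → PowerSeries ℂ),
      (∀ j < q * k, PowerSeries.coeff j (z.2 ()) = 0) →
      (∀ j < N * k, PowerSeries.coeff j (ev G (p * k) (z.1 (Sum.inr ())) (z.2 ())) = 0) ∧
      PowerSeries.coeff (N * k) (ev G (p * k) (z.1 (Sum.inr ())) (z.2 ())) =
        eval ![z.1 (Sum.inr ()), PowerSeries.coeff (q * k) (z.2 ())] (edgePart p q aL bR I) :=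
    fun z hz => ev_lead he k hk _ _ hz
  set A1 : Set ((E ⊕ Unit → ℂ) × (Unit → PowerSeries ℂ)) :=
    if m = N * k then PU (edgePart p q aL bR I) Q (q * k) else ∅ with hA1
  have hcA1 : Cy A1 := by
    rw [hA1]
    split_ifs
    · exact cyC_PU _ hQ.1 _
    · exact ⟨0, fun _ _ => IsCyl.empty⟩
  have hvA1 : vol P.rat xq A1 = if m = N * k then
      xq ^ (q * k + 1) * c2 P (edgePart p q aL bR I) Q else 0 := by
    rw [hA1]
    split_ifs
    · exact vol_PU P _ hQ.1 _
    · exact vol_empty P.rat (L_mul P)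
  have hmA1 : ∀ z ∈ A1, m = N * k ∧ z ∈ PU (edgePart p q aL bR I) Q (q * k) := by
    intro z hz
    rw [hA1] at hz
    split_ifs at hz with h
    · exact ⟨h, hz⟩
    · exact absurd hz (Set.notMem_empty z)
  have hset : NS G Q (p * k) (q * k) m = (NS G Q (p * k) (q * k + 1) m ∪ A1) ∪
      ⋃ R ∈ I.roots.toFinset, SR G Q p q k m R := by
    ext z
    constructor
    · rintro ⟨h1, h2, h3, h4⟩
      obtain ⟨l1, l2⟩ := hlead z h2
      by_cases hb : PowerSeries.coeff (q * k) (z.2 ()) = 0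
      · refine Or.inl (Or.inl ⟨h1, fun j hj => ?_, h3, h4⟩)
        rcases Nat.lt_succ_iff_lt_or_eq.1 hj with h | h
        · exact h2 j h
        · rw [h]
          exact hb
      · by_cases hee : eval ![z.1 (Sum.inr ()), PowerSeries.coeff (q * k) (z.2 ())]
            (edgePart p q aL bR I) = 0
        · refine Or.inr ?_
          rw [eval_edge _ _ _ _ _ _ _ h1] at hee
          have h5 : I.eval (PowerSeries.coeff (q * k) (z.2 ()) ^ p / z.1 (Sum.inr ()) ^ q) = 0 :=
            (mul_eq_zero.mp hee).resolve_left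
              (mul_ne_zero (pow_ne_zero _ h1) (pow_ne_zero _ hb))
          simp only [Set.mem_iUnion]
          refine ⟨PowerSeries.coeff (q * k) (z.2 ()) ^ p / z.1 (Sum.inr ()) ^ q, ?_,
            ⟨h1, h2, h3, h4⟩, ?_⟩
          · rw [Multiset.mem_toFinset, Polynomial.mem_roots hI0]
            exact h5
          · rw [div_mul_cancel₀ _ (pow_ne_zero _ h1)]
        · refine Or.inl (Or.inr ?_)
          have hm : m = N * k := by
            rcases lt_trichotomy m (N * k) with h | h | h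
            · exact absurd (l1 m h) (hQ.2 _ h4)
            · exact h
            · refine absurd ?_ hee
              rw [← l2]
              exact h3 _ h
          rw [hA1, if_pos hm]
          refine ⟨h1, h2, hb, ?_⟩
          rw [hm, l2] at h4
          exact h4
    · rintro ((⟨h1, h2, h3⟩ | hz) | hz)
      · exact ⟨h1, fun j hj => h2 j (by omega), h3⟩
      · obtain ⟨hm, h1, h2, h3, h4⟩ := hmA1 z hz
        obtain ⟨l1, l2⟩ := hlead z h2
        refine ⟨h1, h2, ?_, ?_⟩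
        · rw [hm]
          exact l1
        · rw [hm, l2]
          exact h4
      · simp only [Set.mem_iUnion] at hz
        obtain ⟨R, hR, hz⟩ := hz
        exact hz.1
  have hSRb : ∀ R ∈ I.roots.toFinset, ∀ z ∈ SR G Q p q k m R,
      z.1 (Sum.inr ()) ≠ 0 ∧ PowerSeries.coeff (q * k) (z.2 ()) ≠ 0 ∧
      PowerSeries.coeff (q * k) (z.2 ()) ^ p / z.1 (Sum.inr ()) ^ q = R := by
    rintro R hR z ⟨⟨h1, h2, h3⟩, h4⟩
    refine ⟨h1, fun h => ?_, ?_⟩
    · rw [h, zero_pow hp0] at h4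
      exact (mul_ne_zero (hroot0 R hR) (pow_ne_zero _ h1)) h4.symm
    · rw [h4, mul_div_cancel_right₀ _ (pow_ne_zero _ h1)]
  have hd1 : Disjoint (NS G Q (p * k) (q * k + 1) m) A1 := by
    rw [Set.disjoint_left]
    intro z hz hz'
    exact (hmA1 z hz').2.2.2.1 (hz.2.1 (q * k) (Nat.lt_succ_self _))
  have hd2 : Disjoint (NS G Q (p * k) (q * k + 1) m ∪ A1)
      (⋃ R ∈ I.roots.toFinset, SR G Q p q k m R) := by
    rw [Set.disjoint_left]
    intro z hz hz'
    simp only [Set.mem_iUnion] at hz'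
    obtain ⟨R, hR, hz'⟩ := hz'
    obtain ⟨g1, g2, g3⟩ := hSRb R hR z hz'
    rcases hz with hz | hz
    · exact g2 (hz.2.1 (q * k) (Nat.lt_succ_self _))
    · obtain ⟨-, h1, h2, h3, h4⟩ := hmA1 z hz
      refine hQ.2 _ h4 ?_
      change eval ![z.1 (Sum.inr ()), PowerSeries.coeff (q * k) (z.2 ())]
        (edgePart p q aL bR I) = 0
      rw [eval_edge _ _ _ _ _ _ _ h1, g3]
      rw [Multiset.mem_toFinset, Polynomial.mem_roots hI0] at hR
      have : I.eval R = 0 := hR
      rw [this, mul_zero]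
  have hcNS : Cy (NS G Q (p * k) (q * k + 1) m) := cy_NS G hQ.1 _ _ _
  have hcSR : ∀ R ∈ I.roots.toFinset, Cy (SR G Q p q k m R) := fun R _ =>
    cy_SR G hQ.1 p q k m R
  have hcU : Cy (NS G Q (p * k) (q * k + 1) m ∪ A1) := by
    have h1 := Cy.biUnion (Finset.univ : Finset Bool)
      (s := fun b => if b then NS G Q (p * k) (q * k + 1) m else A1) (fun b _ => by
        cases b
        · simpa using hcA1
        · simpa using hcNS)
    have h2 : (⋃ b ∈ (Finset.univ : Finset Bool), if b then NS G Q (p * k) (q * k + 1) m else A1) =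
        NS G Q (p * k) (q * k + 1) m ∪ A1 := by
      ext z
      simp [or_comm]
    rw [h2] at h1
    exact h1
  rw [vN, hset, vol_uni P hcU (Cy.biUnion _ hcSR) hd2, vol_uni P hcNS hcA1 hd1,
    vol_biU P _ hcSR, hvA1]
  · have e : ∑ R ∈ I.roots.toFinset, vol P.rat xq (SR G Q p q k m R) =
        ∑ R ∈ I.roots.toFinset, xq ^ (q * k) * vN P (chart p q (ρ R) G) Q k 1 m := by
      refine Finset.sum_congr rfl fun R hR => ?_
      have hl : ρ R ≠ 0 := by
        intro h
        have h1 := hρ R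
        rw [h, zero_pow hp0] at h1
        exact hroot0 R hR h1.symm
      have := root_piece P G hQ he.cop he.hp k m (ρ R) hl
      rw [hρ R] at this
      exact this
    rw [e, vN]
    ring
  · intro R hR R' hR' hne
    rw [Set.disjoint_left]
    intro z hz hz'
    exact hne ((hSRb R hR z hz).2.2.symm.trans (hSRb R' hR' z hz').2.2)

end Pool.Agent.Mono.PC
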