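import Pool.Agent.Work.Monodromy6.PC
import Pool.Agent.Work.Monodromy6.ALG
import Pool.Agent.Work.Monodromy6.CERT
import Pool.Agent.Work.Monodromy6.CH6
import Pool.Agent.Work.Monodromy6.EMB
import Pool.Agent.Work.Monodromy6.EW6
import Pool.Agent.Work.Monodromy6.JAC6
import Pool.Agent.Work.Monodromy6.LF6
import Pool.Agent.Work.Monodromy6.MF6
import Pool.Agent.Work.Monodromy6.NV6
import Pool.Agent.Work.Monodromy6.RES6
import Pool.Agent.Work.Monodromy6.SB
import Pool.Agent.Work.Monodromy6.SC1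
import Pool.Agent.Work.Monodromy6.SC2
import Pool.Agent.Work.Monodromy6.TREE
import Pool.Agent.Work.Monodromy6.VCONE
import Pool.Agent.Work.Monodromy6.VF0
import Pool.Agent.Work.Monodromy6.VF1
import Pool.Agent.Work.Monodromy6.VGL
import Pool.Agent.Work.Monodromy6.VL0
import Pool.Agent.Work.Monodromy6.VM0
import Pool.Agent.Work.Monodromy6.VMU
import Pool.Agent.Work.Monodromy6.VPT
import Pool.Agent.Work.Monodromy6.VRAY
import Pool.Agent.Work.Monodromy6.VRE
import Pool.Agent.Work.Monodromy6.VSH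
import Pool.Agent.Work.Monodromy6.VSM

/-!
# Phase 6: every nonconstant polynomial in two variables is a gate
-/

namespace Pool.Agent.Mono.PC

theorem all_EW6 : Stmt_EW6 := stmt_EW6 stmt_NV6 stmt_RES6 stmt_CH6 stmt_LF6 stmt_JAC6

theorem all_TREE : Stmt_TREE := stmt_TREE all_EW6 stmt_MF6 stmt_CERT

theorem all_VRE : Stmt_VRE :=
  stmt_VRE stmt_VF0 stmt_VF1 stmt_VCONE stmt_VRAY stmt_VSH stmt_SB stmt_SC1 stmt_SC2 stmt_SC3
    stmt_SF0

theorem all_VL0 : Stmt_VL0 :=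
  stmt_VL0 all_VRE stmt_VRAY stmt_VCONE stmt_VAUT stmt_SB stmt_SC1 stmt_SC2 stmt_SC3

theorem all_VM0 : Stmt_VM0 := stmt_VM0 stmt_VF0 stmt_VF1 stmt_VCONE stmt_VRAY stmt_VSH stmt_VAUT

theorem all_VPT : Stmt_VPT := stmt_VPT all_VL0 all_VM0 stmt_EMB stmt_ESUM

theorem all_PC : Stmt_PC := stmt_PC all_VPT stmt_VSM stmt_VMU stmt_VGL stmt_ALG all_TREE stmt_MF6

end Pool.Agent.Mono.PC
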