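import Pool.Agent.Work.Monodromy6.VREP

/-!
# Blocks VSH and VAUT (helper63): coordinate changes
-/

set_option autoImplicit false
set_option linter.unusedSectionVars false

namespace Pool.Agent.Mono.PC

open MvPolynomial TS RO TS.VAAux TS.VPAux TS.VSAux RO.WS5Aux RO.UA RO.VGAux

namespace VSHAux

section

variable {E ι : Type}

/-- a regular function which depends on the coefficients below `N` only -/
theorem level {φ : (E → ℂ) × (ι → PowerSeries ℂ) → ℂ} (h : RF φ) (N : ℕ)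
    (hN : ∀ p x y, (∀ i, ∀ l < N, PowerSeries.coeff l (x i) = PowerSeries.coeff l (y i)) →
      φ (p, x) = φ (p, y)) :
    ∃ A : MvPolynomial (E ⊕ (Σ _ : ι, Fin N)) ℂ, ∀ p x,
      φ (p, x) = eval (CV.trd (fun _ => N) p x) A := by
  classical
  obtain ⟨N0, h0⟩ := h
  obtain ⟨-, A1, hA1⟩ := h0 (max N0 N) (le_max_left _ _)
  set g : E ⊕ (Σ _ : ι, Fin (max N0 N)) → MvPolynomial (E ⊕ (Σ _ : ι, Fin N)) ℂ :=
    Sum.elim (fun e => X (Sum.inl e)) (fun s => if h : (s.2 : ℕ) < N then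
      X (Sum.inr ⟨s.1, ⟨(s.2 : ℕ), h⟩⟩) else 0) with hg
  refine ⟨bind₁ g A1, fun p x => ?_⟩
  have e1 : eval (CV.trd (fun _ => N) p x) (bind₁ g A1) =
      eval (fun a => eval (CV.trd (fun _ => N) p x) (g a)) A1 :=
    eval₂Hom_bind₁ _ _ _ _
  rw [e1, ← hA1]
  have e2 : (fun q : E => eval (CV.trd (fun _ => N) p x) (g (Sum.inl q))) = p := by
    funext q
    simp only [hg, Sum.elim_inl, eval_X]
    rfl
  rw [e2]
  refine hN p _ _ fun i l hl => ?_
  have hl2 : l < max N0 N := lt_of_lt_of_le hl (le_max_right _ _)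
  rw [coeff_toArc, dif_pos hl2]
  simp only [hg, Sum.elim_inr]
  rw [dif_pos hl, eval_X]
  rfl

/-- automorphisms of the space of arcs preserve volumes -/
theorem vol_aut (P : HodgeMeasure) [Finite E] [Fintype ι]
    {S S' : Set ((E → ℂ) × (ι → PowerSeries ℂ))} (hS : Cy S) (hS' : Cy S')
    (τ τ' : (E → ℂ) → (ι → PowerSeries ℂ) → ι → PowerSeries ℂ)
    (hr : ∀ i l, RF fun z : (E → ℂ) × (ι → PowerSeries ℂ) => PowerSeries.coeff l (τ z.1 z.2 i))
    (hc : ∀ p x y (N : ℕ), (∀ i, ∀ l < N, PowerSeries.coeff l (x i) = PowerSeries.coeff l (y i)) →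
      ∀ i, ∀ l < N, PowerSeries.coeff l (τ p x i) = PowerSeries.coeff l (τ p y i))
    (hc' : ∀ p x y (N : ℕ), (∀ i, ∀ l < N, PowerSeries.coeff l (x i) = PowerSeries.coeff l (y i)) →
      ∀ i, ∀ l < N, PowerSeries.coeff l (τ' p x i) = PowerSeries.coeff l (τ' p y i))
    (h1 : ∀ p x, (p, x) ∈ S' ↔ (p, τ p x) ∈ S) (h2 : ∀ p x, τ' p (τ p x) = x)
    (h3 : ∀ p x, τ p (τ' p x) = x) : vol P.rat xq S' = vol P.rat xq S := by
  classical
  obtain ⟨N, hN⟩ := hS
  obtain ⟨N', hN'⟩ := hS'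
  set M := max N N' with hM
  have hcS := hN M (le_max_left _ _)
  have hcS' := hN' M (le_max_right _ _)
  have hA : ∀ s : (Σ _ : ι, Fin M), ∃ A : MvPolynomial (E ⊕ (Σ _ : ι, Fin M)) ℂ, ∀ p x,
      PowerSeries.coeff (s.2 : ℕ) (τ p x s.1) = eval (CV.trd (fun _ => M) p x) A := fun s =>
    level (hr s.1 s.2) M fun p x y h => hc p x y M h s.1 s.2 s.2.2
  choose φ hφ using hA
  have key := CV.vol_cv P hcS hcS' τ φ (fun p x _ s => hφ s p x) (fun p x h => (h1 p x).1 h) ?_ ?_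
  · have hx : xq ≠ 0 := by
      rw [xq]
      exact inv_ne_zero RatFunc.X_ne_zero
    exact (mul_right_cancel₀ (pow_ne_zero _ hx) key).symm
  · intro p x x' _ _ h j l hl
    have h5 := hc' p (τ p x) (τ p x') M h j l hl
    rw [h2, h2] at h5
    exact h5
  · intro p y hy
    refine ⟨τ' p y, ?_, fun i l _ => ?_⟩
    · rw [h1, h3]
      exact hy
    · rw [h3]

end

/-- coefficients of `ψ(a t^k)` -/
theorem coeff_psi (ψ : Polynomial ℂ) (a : ℂ) (k l : ℕ) :
    PowerSeries.coeff l (Polynomial.aeval (PowerSeries.C a * PowerSeries.X ^ k) ψ :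
      PowerSeries ℂ) = ∑ j ∈ ψ.support, if l = k * j then ψ.coeff j * a ^ j else 0 := by
  rw [Polynomial.aeval_eq_sum_range, map_sum]
  rw [← Polynomial.sum_over_range' (p := ψ) (f := fun j c => PowerSeries.coeff l
    (c • (PowerSeries.C a * PowerSeries.X ^ k : PowerSeries ℂ) ^ j)) (by simp) _
      (Nat.lt_succ_self _)]
  rw [Polynomial.sum]
  refine Finset.sum_congr rfl fun j _ => ?_
  rw [mul_pow, ← map_pow, ← pow_mul, PowerSeries.coeff_smul, PowerSeries.coeff_C_mul,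
    PowerSeries.coeff_X_pow]
  split_ifs <;> simp

section

variable {E : Type}

theorem RF_sum {ι : Type} {α : Type} (F : Finset α)
    {φ : α → (E → ℂ) × (ι → PowerSeries ℂ) → ℂ} (h : ∀ a ∈ F, RF (φ a)) :
    RF fun z => ∑ a ∈ F, φ a z := by
  classical
  induction F using Finset.induction_on with
  | empty => simpa using RF.const (0 : ℂ)
  | insert a F ha ih =>
    have h1 := (h a (Finset.mem_insert_self _ _)).add
      (ih fun b hb => h b (Finset.mem_insert_of_mem hb))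
    simpa only [Finset.sum_insert ha] using h1

theorem RF_pow {ι : Type} {φ : (E → ℂ) × (ι → PowerSeries ℂ) → ℂ} (h : RF φ) (j : ℕ) :
    RF fun z => φ z ^ j := by
  have h1 := RF.eval (σ := Unit) (fun _ => h) (X () ^ j)
  simpa using h1

/-- `ψ(a t^k)` for the parameter `a` -/
noncomputable def ps (ψ : Polynomial ℂ) (k : ℕ) (p : E ⊕ Unit → ℂ) : PowerSeries ℂ :=
  Polynomial.aeval (PowerSeries.C (p (Sum.inr ())) * PowerSeries.X ^ k) ψ

theorem ev_shift (ψ : Polynomial ℂ) (G : P2) (k : ℕ) (a : ℂ) (w : PowerSeries ℂ) :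
    ev (shift ψ G) k a w =
      ev G k a (w + Polynomial.aeval (PowerSeries.C a * PowerSeries.X ^ k) ψ) := by
  unfold ev shift
  rw [← AlgHom.comp_apply]
  congr 1
  refine MvPolynomial.algHom_ext fun i => ?_
  fin_cases i
  · simp
  · simp [← Polynomial.aeval_algHom_apply]

theorem Cy_NS' [Finite E] (F : P2) {Q : Set (E ⊕ Unit → ℂ)} (hQ : Constructible Q)
    (k L m : ℕ) : Cy (NS F Q k L m) := by
  obtain ⟨N0, hN0⟩ := VREPAux.Cy_DD0 F hQ L m
  exact ⟨N0, fun N hN => VREPAux.Cy_NS F k L m N (hN0 N hN)⟩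

theorem Cy_LS [Finite E] (F : P2) {Q : Set (E ⊕ Unit → ℂ)} (hQ : Constructible Q) (m : ℕ) :
    Cy (LS F Q m) := by
  have h1 : Cy {z : (E → ℂ) × (Fin 2 → PowerSeries ℂ) |
      (PowerSeries.coeff 0 (z.2 0) = 0 ∧ PowerSeries.coeff 0 (z.2 1) = 0) ∧
        Lead Q m z.1 (aeval z.2 F)} := by
    refine Cy.and (Cy.and (Cy.zero (RF.arc 0 0)) (Cy.zero (RF.arc 1 0))) (Cy.and
      (Cy.all_lt m fun j _ => Cy.zero (RF.coef F j)) (Cy.mem hQ fun s => ?_))
    rcases s with s | s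
    · exact RF.par s
    · exact RF.coef F m
  have h2 : LS F Q m = {z : (E → ℂ) × (Fin 2 → PowerSeries ℂ) |
      (PowerSeries.coeff 0 (z.2 0) = 0 ∧ PowerSeries.coeff 0 (z.2 1) = 0) ∧
        Lead Q m z.1 (aeval z.2 F)} := by
    ext z
    simp only [LS, Set.mem_ofPred_eq, Fin.forall_fin_two]
  rw [h2]
  exact h1

/-- the coordinate change on pairs of arcs -/
noncomputable def tsh (ψ : Polynomial ℂ) (x : Fin 2 → PowerSeries ℂ) : Fin 2 → PowerSeries ℂ :=
  ![x 0, x 1 + Polynomial.aeval (x 0) ψ]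

theorem aeval_shift (ψ : Polynomial ℂ) (F : P2) (x : Fin 2 → PowerSeries ℂ) :
    aeval x (shift ψ F) = aeval (tsh ψ x) F := by
  unfold shift tsh
  rw [← AlgHom.comp_apply]
  congr 1
  refine MvPolynomial.algHom_ext fun i => ?_
  fin_cases i
  · simp
  · simp [← Polynomial.aeval_algHom_apply]

theorem tsh_neg (ψ : Polynomial ℂ) (x : Fin 2 → PowerSeries ℂ) : tsh (-ψ) (tsh ψ x) = x := by
  funext i
  fin_cases i <;> simp [tsh]

theorem tsh_neg' (ψ : Polynomial ℂ) (x : Fin 2 → PowerSeries ℂ) : tsh ψ (tsh (-ψ) x) = x := by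
  funext i
  fin_cases i <;> simp [tsh]

theorem tsh_1 (ψ : Polynomial ℂ) (x : Fin 2 → PowerSeries ℂ) :
    tsh ψ x 1 = aeval x (X 1 + Polynomial.aeval (X 0 : P2) ψ) := by
  simp [tsh, ← Polynomial.aeval_algHom_apply]

theorem tsh_congr (ψ : Polynomial ℂ) (x y : Fin 2 → PowerSeries ℂ) (N : ℕ)
    (h : ∀ i, ∀ l < N, PowerSeries.coeff l (x i) = PowerSeries.coeff l (y i)) :
    ∀ i, ∀ l < N, PowerSeries.coeff l (tsh ψ x i) = PowerSeries.coeff l (tsh ψ y i) := by
  intro i l hl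
  fin_cases i
  · exact h 0 l hl
  · change PowerSeries.coeff l (tsh ψ x 1) = PowerSeries.coeff l (tsh ψ y 1)
    rw [tsh_1, tsh_1]
    exact GJetAux.aeval_congr _ N x y h l hl

theorem RF_tsh (ψ : Polynomial ℂ) (i : Fin 2) (l : ℕ) :
    RF fun z : (E → ℂ) × (Fin 2 → PowerSeries ℂ) => PowerSeries.coeff l (tsh ψ z.2 i) := by
  fin_cases i
  · exact RF.arc 0 l
  · change RF fun z : (E → ℂ) × (Fin 2 → PowerSeries ℂ) => PowerSeries.coeff l (tsh ψ z.2 1)
    simp only [tsh_1]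
    exact RF.coef _ l

theorem coeff0_aeval (ψ : Polynomial ℂ) (h0 : ψ.coeff 0 = 0) (x : PowerSeries ℂ)
    (hx : PowerSeries.coeff 0 x = 0) : PowerSeries.coeff 0 (Polynomial.aeval x ψ) = 0 := by
  have h1 : PowerSeries.X ∣ x := PowerSeries.X_dvd_iff.2 (by simpa using hx)
  have h2 : (Polynomial.X : Polynomial ℂ) ∣ ψ := Polynomial.X_dvd_iff.2 h0
  obtain ⟨χ, hχ⟩ := h2
  rw [hχ, map_mul, Polynomial.aeval_X]
  have h3 : PowerSeries.X ∣ x * Polynomial.aeval x χ := Dvd.dvd.mul_right h1 _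
  simpa using PowerSeries.X_dvd_iff.1 h3

/-- the exchange of coordinates on pairs of arcs -/
noncomputable def tsw (x : Fin 2 → PowerSeries ℂ) : Fin 2 → PowerSeries ℂ := ![x 1, x 0]

theorem aeval_swp (F : P2) (x : Fin 2 → PowerSeries ℂ) : aeval x (swp F) = aeval (tsw x) F := by
  unfold swp tsw
  rw [← AlgHom.comp_apply]
  congr 1
  refine MvPolynomial.algHom_ext fun i => ?_
  fin_cases i <;> simp

end

end VSHAux

open VSHAux

theorem stmt_VSH : Stmt_VSH := by
  intro P G k L ψ hψ E _ Q hQ m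
  unfold vN
  refine vol_aut P (Cy_NS' G hQ.1 k L m) (Cy_NS' (shift ψ G) hQ.1 k L m)
    (fun p x _ => x () + ps ψ k p) (fun p x _ => x () - ps ψ k p) ?_ ?_ ?_ ?_ ?_ ?_
  · intro i l
    simp only [map_add]
    refine (RF.arc () l).add ?_
    simp only [ps, coeff_psi]
    refine RF_sum _ fun j _ => RF.ite _ ((RF.const _).mul (RF_pow (RF.par _) j)) (RF.const 0)
  · intro p x y N h i l hl
    simp only [map_add]
    rw [h () l hl]
  · intro p x y N h i l hl
    simp only [map_sub]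
    rw [h () l hl]
  · intro p x
    have hlow : ∀ l < L, PowerSeries.coeff l (ps ψ k p) = 0 := by
      intro l hl
      rw [ps, coeff_psi]
      refine Finset.sum_eq_zero fun j hj => ?_
      have h1 := hψ j hj
      rw [if_neg (by omega)]
    simp only [NS, Set.mem_ofPred_eq]
    rw [ev_shift]
    refine and_congr Iff.rfl (and_congr ?_ Iff.rfl)
    refine forall_congr' fun l => forall_congr' fun hl => ?_
    rw [map_add, hlow l hl, add_zero]
  · intro p x
    funext i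
    simp
  · intro p x
    funext i
    simp

theorem stmt_VAUT : Stmt_VAUT := by
  intro P F ψ h0 E _ Q hQ m
  constructor
  · refine vol_aut P (Cy_LS F hQ.1 m) (Cy_LS (shift ψ F) hQ.1 m) (fun _ x => tsh ψ x)
      (fun _ x => tsh (-ψ) x) (fun i l => RF_tsh ψ i l) (fun p x y N h => tsh_congr ψ x y N h)
      (fun p x y N h => tsh_congr (-ψ) x y N h) ?_ (fun p x => tsh_neg ψ x)
      (fun p x => tsh_neg' ψ x)
    intro p x
    simp only [LS, Set.mem_ofPred_eq, aeval_shift, Fin.forall_fin_two]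
    refine and_congr ?_ Iff.rfl
    constructor
    · rintro ⟨h1, h2⟩
      refine ⟨h1, ?_⟩
      change PowerSeries.coeff 0 (x 1 + Polynomial.aeval (x 0) ψ) = 0
      rw [map_add, h2, coeff0_aeval ψ h0 _ h1, add_zero]
    · rintro ⟨h1, h2⟩
      have h1' : PowerSeries.coeff 0 (x 0) = 0 := h1
      refine ⟨h1', ?_⟩
      change PowerSeries.coeff 0 (x 1 + Polynomial.aeval (x 0) ψ) = 0 at h2
      rw [map_add, coeff0_aeval ψ h0 _ h1', add_zero] at h2
      exact h2
  · refine vol_aut P (Cy_LS F hQ.1 m) (Cy_LS (swp F) hQ.1 m) (fun _ x => tsw x)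
      (fun _ x => tsw x) ?_ ?_ ?_ ?_ ?_ ?_
    · intro i l
      fin_cases i
      · exact RF.arc 1 l
      · exact RF.arc 0 l
    · intro p x y N h i l hl
      fin_cases i
      · exact h 1 l hl
      · exact h 0 l hl
    · intro p x y N h i l hl
      fin_cases i
      · exact h 1 l hl
      · exact h 0 l hl
    · intro p x
      simp only [LS, Set.mem_ofPred_eq, aeval_swp, Fin.forall_fin_two]
      refine and_congr ?_ Iff.rfl
      exact and_comm
    · intro p x
      funext i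
      fin_cases i <;> rfl
    · intro p x
      funext i
      fin_cases i <;> rfl

end Pool.Agent.Mono.PC
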