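import Pool.Agent.Work.Monodromy6.InterfaceSQ
import Pool.Agent.Work.Monodromy6.VSH
import Pool.Agent.Work.Monodromy.ZL

/-!
# Block CV of part SQ (helper63): change of variables for arcs centred at a point
-/

set_option autoImplicit false
set_option linter.unusedSectionVars false

namespace Pool.Agent.Mono.RO

open MvPolynomial TS TS.VAAux TS.VPAux TS.VSAux VGAux

namespace CVSQAux

section

variable {E ι : Type}

/-- preimages of cylinders under maps of arcs with regular coefficients -/
theorem cyl_pre {M : ℕ} {S : Set ((E → ℂ) × (ι → PowerSeries ℂ))} (hS : IsCyl (fun _ => M) S)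
    (τ : (E → ℂ) → (ι → PowerSeries ℂ) → ι → PowerSeries ℂ)
    (hr : ∀ i l, RF fun z : (E → ℂ) × (ι → PowerSeries ℂ) => PowerSeries.coeff l (τ z.1 z.2 i))
    (hc : ∀ p x y (N : ℕ), (∀ i, ∀ l < N, PowerSeries.coeff l (x i) = PowerSeries.coeff l (y i)) →
      ∀ i, ∀ l < N, PowerSeries.coeff l (τ p x i) = PowerSeries.coeff l (τ p y i)) :
    IsCyl (fun _ => M) {z : (E → ℂ) × (ι → PowerSeries ℂ) | (z.1, τ z.1 z.2) ∈ S} := by
  have hA : ∀ s : (Σ _ : ι, Fin M), ∃ A : MvPolynomial (E ⊕ (Σ _ : ι, Fin M)) ℂ, ∀ p x,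
      PowerSeries.coeff (s.2 : ℕ) (τ p x s.1) = eval (CV.trd (fun _ => M) p x) A := fun s =>
    PC.VSHAux.level (hr s.1 s.2) M fun p x y h => hc p x y M h s.1 s.2 s.2.2
  choose φ hφ using hA
  constructor
  · intro p x y h
    exact hS.1 p _ _ (hc p x y M h)
  · have h1 : sec (fun _ => M) {z : (E → ℂ) × (ι → PowerSeries ℂ) | (z.1, τ z.1 z.2) ∈ S} =
        {v | (fun a => eval v (Sum.elim (fun e => X (Sum.inl e)) φ a)) ∈ sec (fun _ => M) S} := by
      ext v
      change ((fun p => v (Sum.inl p)), τ (fun p => v (Sum.inl p))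
        (toArc (fun _ => M) fun s => v (Sum.inr s))) ∈ S ↔ _
      rw [← PC.VREPAux.mem_sec_trd hS]
      have h2 : CV.trd (fun _ => M) (fun p => v (Sum.inl p)) (τ (fun p => v (Sum.inl p))
          (toArc (fun _ => M) fun s => v (Sum.inr s))) =
          fun a => eval v (Sum.elim (fun e => X (Sum.inl e)) φ a) := by
        funext a
        rcases a with a | a
        · simp only [Sum.elim_inl, eval_X]
          rfl
        · have h3 := hφ a (fun p => v (Sum.inl p)) (toArc (fun _ => M) fun s => v (Sum.inr s))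
          rw [CV.trd_toArc] at h3
          exact h3
      rw [h2]
      exact Iff.rfl
    rw [h1]
    exact Constructible.preimage _ hS.2

/-- the arcs centred at a point -/
theorem Cy_ctr [Finite ι] (p : ι → ℂ) :
    Cy {z : (E → ℂ) × (ι → PowerSeries ℂ) | ∀ a, PowerSeries.coeff 0 (z.2 a) = p a} := by
  have h1 : Constructible {v : ι → ℂ | ∀ a, eval v (X a - C (p a)) = 0} :=
    Constructible.all fun a => Constructible.zero _
  have h2 := Cy.mem h1 (fun a => RF.arc (E := E) (ι := ι) a 0)
  convert h2 using 2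
  ext z
  simp only [Set.mem_ofPred_eq, map_sub, eval_X, eval_C, sub_eq_zero]

end

theorem coeff_single {ι : Type} [DecidableEq ι] (f : MvPolynomial ι ℂ) (j : ι) :
    MvPolynomial.coeff (Finsupp.single j 1) f = eval (fun _ => 0) (pderiv j f) := by
  induction f using MvPolynomial.induction_on' with
  | monomial d c =>
    rw [coeff_monomial, pderiv_monomial, eval_monomial]
    by_cases h : d = Finsupp.single j 1
    · subst h
      simp
    · rw [if_neg h]
      by_cases h0 : d j = 0
      · simp [h0]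
      · have h1 : d - Finsupp.single j 1 ≠ 0 := by
          intro h2
          apply h
          ext i
          have h3 := DFunLike.congr_fun h2 i
          simp only [Finsupp.coe_tsub, Pi.sub_apply, Finsupp.coe_zero, Pi.zero_apply] at h3
          by_cases hij : i = j
          · subst hij
            simp only [Finsupp.single_eq_same] at h3 ⊢
            omega
          · rw [Finsupp.single_apply, if_neg (fun h => hij h.symm)] at h3 ⊢
            omega
        obtain ⟨i, hi⟩ := Finsupp.ne_iff.1 h1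
        have h4 : ((d - Finsupp.single j 1).prod fun (_ : ι) e => (0 : ℂ) ^ e) = 0 := by
          rw [Finsupp.prod]
          refine Finset.prod_eq_zero (Finsupp.mem_support_iff.2 hi) ?_
          exact zero_pow hi
        rw [h4, mul_zero]
  | add p q hp hq => rw [coeff_add, map_add, map_add, hp, hq]

end CVSQAux

open CVSQAux

theorem stmt_CVSQ : Stmt_CV := by
  intro P ι _ _ p φ hφ hJ E _ S N hN hS
  -- the map and the inverse function theorem
  set Ψ : ι → MvPowerSeries ι ℂ := fun a => (φ a : MvPowerSeries ι ℂ) with hΨ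
  have hJ' : (Matrix.of fun i j => MvPowerSeries.coeff (Finsupp.single j 1) (Ψ i)).det ≠ 0 := by
    have h1 : (Matrix.of fun i j => MvPowerSeries.coeff (Finsupp.single j 1) (Ψ i)) =
        Matrix.of fun a b => eval (fun _ => (0 : ℂ)) (pderiv b (φ a)) := by
      ext i j
      simp only [Matrix.of_apply, hΨ, MvPolynomial.coeff_coe]
      exact coeff_single _ _
    rw [h1]
    exact hJ
  set τ : (E → ℂ) → (ι → PowerSeries ℂ) → ι → PowerSeries ℂ := fun _ x a => aeval x (φ a) with hτ
  have hr : ∀ i l, RF fun z : (E → ℂ) × (ι → PowerSeries ℂ) =>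
      PowerSeries.coeff l (τ z.1 z.2 i) := fun i l => RF.coef (φ i) l
  have hc : ∀ p x y (N : ℕ),
      (∀ i, ∀ l < N, PowerSeries.coeff l (x i) = PowerSeries.coeff l (y i)) →
      ∀ i, ∀ l < N, PowerSeries.coeff l (τ p x i) = PowerSeries.coeff l (τ p y i) :=
    fun _ x y N h i => GJetAux.aeval_congr (φ i) N x y h
  -- levels
  obtain ⟨N1, hN1⟩ := Cy_ctr (E := E) (ι := ι) p
  obtain ⟨N2, hN2⟩ := Cy_ctr (E := E) (ι := ι) fun _ => 0
  set M := max N (max N1 N2) with hM
  have hMN : N ≤ M := le_max_left _ _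
  have hM1 : N1 ≤ M := le_trans (le_max_left _ _) (le_max_right _ _)
  have hM2 : N2 ≤ M := le_trans (le_max_right _ _) (le_max_right _ _)
  have hSM : IsCyl (fun _ => M) S := IsCyl.mono (fun _ => hMN) hS
  have hc1 := (hN1 M hM1).inter hSM
  have hc2 := (hN2 M hM2).inter (cyl_pre hSM τ hr hc)
  have hA : ∀ s : (Σ _ : ι, Fin M), ∃ A : MvPolynomial (E ⊕ (Σ _ : ι, Fin M)) ℂ, ∀ p x,
      PowerSeries.coeff (s.2 : ℕ) (τ p x s.1) = eval (CV.trd (fun _ => M) p x) A := fun s =>
    PC.VSHAux.level (hr s.1 s.2) M fun p x y h => hc p x y M h s.1 s.2 s.2.2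
  choose A hAe using hA
  -- the centre
  have hctr : ∀ x : ι → PowerSeries ℂ, (∀ a, PowerSeries.coeff 0 (x a) = 0) →
      ∀ a, PowerSeries.coeff 0 (aeval x (φ a)) = p a := by
    intro x hx a
    rw [PowerSeries.coeff_zero_eq_constantCoeff_apply, GJetAux.constantCoeff_aeval, ← hφ a]
    have h1 : (fun i => PowerSeries.constantCoeff (x i)) = fun _ => (0 : ℂ) := by
      funext b
      have := hx b
      rwa [PowerSeries.coeff_zero_eq_constantCoeff_apply] at this
    rw [h1]
  -- division by t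
  have hdiv : ∀ x : ι → PowerSeries ℂ, (∀ a, PowerSeries.coeff 0 (x a) = 0) →
      ∃ z : ι → PowerSeries ℂ, x = fun a => PowerSeries.X * z a := by
    intro x hx
    have h1 : ∀ a, ∃ z : PowerSeries ℂ, x a = PowerSeries.X * z := by
      intro a
      have h2 := hx a
      rw [PowerSeries.coeff_zero_eq_constantCoeff_apply] at h2
      exact PowerSeries.X_dvd_iff.2 h2
    choose z hz using h1
    exact ⟨z, funext hz⟩
  have key := CV.vol_cv P hc1 hc2 τ A (fun q x _ s => hAe s q x) ?_ ?_ ?_
  · have hx : xq ≠ 0 := by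
      rw [xq]
      exact inv_ne_zero RatFunc.X_ne_zero
    exact mul_right_cancel₀ (pow_ne_zero _ hx) key
  · rintro q x ⟨h1, h2⟩
    exact ⟨hctr x h1, h2⟩
  · rintro q x x' ⟨h1, -⟩ ⟨h1', -⟩ h
    obtain ⟨z, rfl⟩ := hdiv x h1
    obtain ⟨z', rfl⟩ := hdiv x' h1'
    have h3 := ZLAux.inj_arc Ψ hJ' z z' (M - 1) fun i l hl => by
      rw [hΨ, ZLAux.sv_coe, ZLAux.sv_coe]
      exact h i l (by omega)
    intro j l hl
    rcases Nat.eq_zero_or_pos l with h0 | h0
    · subst h0
      simp
    · obtain ⟨l', rfl⟩ : ∃ l', l = l' + 1 := ⟨l - 1, by omega⟩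
      rw [PowerSeries.coeff_succ_X_mul, PowerSeries.coeff_succ_X_mul]
      exact h3 j l' (by omega)
  · rintro q y ⟨hy, hyS⟩
    obtain ⟨z, hz⟩ := ZLAux.surj_arc Ψ hJ' y M
    have hx0 : ∀ a, PowerSeries.coeff 0 ((fun a => PowerSeries.X * z a) a) = 0 := by
      intro a
      simp
    have hag : ∀ i, ∀ l < M, PowerSeries.coeff l (τ q (fun a => PowerSeries.X * z a) i) =
        PowerSeries.coeff l (y i) := by
      intro i l hl
      rcases Nat.eq_zero_or_pos l with h0 | h0
      · subst h0
        rw [hy i]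
        exact hctr _ hx0 i
      · obtain ⟨l', rfl⟩ : ∃ l', l = l' + 1 := ⟨l - 1, by omega⟩
        have h3 := hz i l' (by omega)
        rw [hΨ, ZLAux.sv_coe] at h3
        exact h3
    exact ⟨fun a => PowerSeries.X * z a, ⟨hx0, (hSM.1 q _ _ hag).2 hyS⟩, hag⟩

end Pool.Agent.Mono.RO
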