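import Pool.Agent.Work.Monodromy6.InterfaceSQ
import Pool.Agent.Work.Monodromy5.O5

/-!
# Block LA (helper2): leading terms by scaling
-/

set_option autoImplicit false
set_option linter.unusedSectionVars false

namespace Pool.Agent.Mono.RO

open MvPolynomial TS

namespace LAAux

section

variable {ι : Type} [Fintype ι] [DecidableEq ι]

theorem weight_eq (w : ι → ℕ) (d : ι →₀ ℕ) : Finsupp.weight w d = ∑ a, d a * w a := by
  rw [Finsupp.weight_apply, Finsupp.sum_fintype _ _ (fun a => by simp)]
  simp

/-- homogenisation -/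
noncomputable def Fh (w : ι → ℕ) (D : ℕ) (F : MvPolynomial ι ℂ) : MvPolynomial (Option ι) ℂ :=
  ∑ d ∈ F.support, C (coeff d F) * X none ^ (Finsupp.weight w d - D) *
    rename some (monomial d 1)

/-- the arc after scaling -/
noncomputable def yh (w : ι → ℕ) (M r : ℕ) (y : ι → PowerSeries ℂ) (a : ι) : PowerSeries ℂ :=
  PowerSeries.mk fun n => if M ∣ n + r * w a then
    PowerSeries.coeff ((n + r * w a) / M) (y a) else 0

noncomputable def xh (w : ι → ℕ) (M r : ℕ) (y : ι → PowerSeries ℂ) (o : Option ι) :
    PowerSeries ℂ := o.elim (PowerSeries.X ^ r) (yh w M r y)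

variable {w m : ι → ℕ} {M D r : ℕ}

theorem expand_y (hM : M ≠ 0) (hw : ∀ a, 1 ≤ w a) (hwm : ∀ a, w a * m a = M)
    {y : ι → PowerSeries ℂ} (hy : y ∈ Ar m r) (a : ι) :
    PowerSeries.expand M hM (y a) = PowerSeries.X ^ (r * w a) * yh w M r y a := by
  ext n
  rw [PowerSeries.coeff_expand, PowerSeries.coeff_X_pow_mul', yh, PowerSeries.coeff_mk]
  by_cases h1 : r * w a ≤ n
  · rw [if_pos h1, Nat.sub_add_cancel h1]
  · rw [if_neg h1]
    split_ifs with h2
    · obtain ⟨l, rfl⟩ := h2
      rw [Nat.mul_div_cancel_left _ (Nat.pos_of_ne_zero hM)]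
      refine hy a l ?_
      have h3 : M * l < r * w a := not_le.1 h1
      rw [← hwm a] at h3
      have h4 : w a * (l * m a) < w a * r := by
        calc w a * (l * m a) = w a * m a * l := by ring
          _ < r * w a := h3
          _ = w a * r := by ring
      exact lt_of_mul_lt_mul_left h4 (Nat.zero_le _)
    · rfl

theorem cc_yh (hM : M ≠ 0) (hw : ∀ a, 1 ≤ w a) (hwm : ∀ a, w a * m a = M)
    (y : ι → PowerSeries ℂ) (a : ι) :
    PowerSeries.constantCoeff (yh w M r y a) = ls m r y a := by
  rw [← PowerSeries.coeff_zero_eq_constantCoeff_apply, yh, PowerSeries.coeff_mk, zero_add, ls]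
  have h1 : M ∣ r * w a ↔ m a ∣ r := by
    rw [← hwm a, mul_comm (w a) (m a)]
    exact Nat.mul_dvd_mul_iff_right (hw a)
  by_cases h : m a ∣ r
  · rw [if_pos (h1.2 h), if_pos h]
    congr 2
    rw [← hwm a, mul_comm (w a) (m a)]
    exact Nat.mul_div_mul_right _ _ (hw a)
  · rw [if_neg (fun hh => h (h1.1 hh)), if_neg h]

/-- the scaling identity -/
theorem expand_F (hM : M ≠ 0) (hw : ∀ a, 1 ≤ w a) (hwm : ∀ a, w a * m a = M)
    {F : MvPolynomial ι ℂ} (hF : ∀ d ∈ F.support, D ≤ Finsupp.weight w d)
    {y : ι → PowerSeries ℂ} (hy : y ∈ Ar m r) :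
    PowerSeries.expand M hM (aeval y F) =
      PowerSeries.X ^ (r * D) * aeval (xh w M r y) (Fh w D F) := by
  have h1 : PowerSeries.expand M hM (aeval y F) =
      aeval (fun a => PowerSeries.X ^ (r * w a) * yh w M r y a) F := by
    have e : (fun a => PowerSeries.X ^ (r * w a) * yh w M r y a) =
        fun a => PowerSeries.expand M hM (y a) := by
      funext a
      exact (expand_y hM hw hwm hy a).symm
    rw [e]
    exact comp_aeval_apply y (PowerSeries.expand M hM) F
  rw [h1]
  conv_lhs => rw [F.as_sum]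
  rw [map_sum, Fh, map_sum, Finset.mul_sum]
  refine Finset.sum_congr rfl fun d hd => ?_
  rw [aeval_monomial, map_mul, map_mul, map_pow, aeval_X, aeval_C, aeval_rename, aeval_monomial,
    map_one, one_mul]
  have e1 : xh w M r y none = PowerSeries.X ^ r := rfl
  have e2 : xh w M r y ∘ some = yh w M r y := rfl
  rw [e1, e2]
  have e3 : (d.prod fun a k => (PowerSeries.X ^ (r * w a) * yh w M r y a) ^ k) =
      PowerSeries.X ^ (r * Finsupp.weight w d) * d.prod fun a k => yh w M r y a ^ k := by
    rw [Finsupp.prod_fintype _ _ (fun a => by simp), Finsupp.prod_fintype _ _ (fun a => by simp)]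
    simp only [mul_pow]
    rw [Finset.prod_mul_distrib, weight_eq, Finset.mul_sum, ← Finset.prod_pow_eq_pow_sum]
    congr 1
    refine Finset.prod_congr rfl fun a _ => ?_
    rw [← pow_mul]
    congr 1
    ring
  rw [e3, ← pow_mul]
  have h2 := hF d hd
  obtain ⟨k, hk⟩ := Nat.exists_eq_add_of_le h2
  rw [hk, Nat.add_sub_cancel_left, mul_add, pow_add]
  ring

theorem coeff_F (hM : M ≠ 0) (hw : ∀ a, 1 ≤ w a) (hwm : ∀ a, w a * m a = M)
    {F : MvPolynomial ι ℂ} (hF : ∀ d ∈ F.support, D ≤ Finsupp.weight w d)
    {y : ι → PowerSeries ℂ} (hy : y ∈ Ar m r) (l : ℕ) :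
    PowerSeries.coeff l (aeval y F) = if r * D ≤ M * l then
      PowerSeries.coeff (M * l - r * D) (aeval (xh w M r y) (Fh w D F)) else 0 := by
  rw [← PowerSeries.coeff_expand_mul M hM (aeval y F) l, expand_F hM hw hwm hF hy,
    PowerSeries.coeff_X_pow_mul']

/-- the evaluation at `τ = 0` -/
theorem eval_zero_sum {F : MvPolynomial ι ℂ} (hF : ∀ d ∈ F.support, D ≤ Finsupp.weight w d)
    (q : (ι →₀ ℕ) → MvPolynomial ι ℂ) (z : Option ι → ℂ) (hz : z none = 0) :
    eval z (∑ d ∈ F.support, C (coeff d F) * X none ^ (Finsupp.weight w d - D) *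
      rename some (q d)) =
    ∑ d ∈ F.support.filter (fun d => Finsupp.weight w d = D), coeff d F *
      eval (fun a => z (some a)) (q d) := by
  rw [map_sum, Finset.sum_filter]
  refine Finset.sum_congr rfl fun d hd => ?_
  rw [map_mul, map_mul, map_pow, eval_C, eval_X, hz, eval_rename]
  have h := hF d hd
  split_ifs with h1
  · rw [h1, Nat.sub_self, pow_zero, mul_one]
    rfl
  · rw [zero_pow (by omega), mul_zero, zero_mul]

theorem ini_eq (F : MvPolynomial ι ℂ) : ini w D F =
    ∑ d ∈ F.support.filter (fun d => Finsupp.weight w d = D), monomial d (coeff d F) := by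
  classical
  unfold ini
  rw [weightedHomogeneousComponent_apply]


theorem eval_Fh {F : MvPolynomial ι ℂ} (hF : ∀ d ∈ F.support, D ≤ Finsupp.weight w d)
    (z : Option ι → ℂ) (hz : z none = 0) :
    eval z (Fh w D F) = eval (fun a => z (some a)) (ini w D F) := by
  rw [Fh, eval_zero_sum hF _ z hz, ini_eq, map_sum]
  refine Finset.sum_congr rfl fun d hd => ?_
  rw [eval_monomial, eval_monomial, one_mul]

theorem eval_dFh {F : MvPolynomial ι ℂ} (hF : ∀ d ∈ F.support, D ≤ Finsupp.weight w d)
    (j : ι) (z : Option ι → ℂ) (hz : z none = 0) :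
    eval z (pderiv (some j) (Fh w D F)) =
      eval (fun a => z (some a)) (pderiv j (ini w D F)) := by
  have h1 : pderiv (some j) (Fh w D F) =
      ∑ d ∈ F.support, C (coeff d F) * X none ^ (Finsupp.weight w d - D) *
        rename some (pderiv j (monomial d (1 : ℂ))) := by
    rw [Fh, map_sum]
    refine Finset.sum_congr rfl fun d _ => ?_
    rw [Derivation.leibniz, Derivation.leibniz, Derivation.leibniz_pow, pderiv_C,
      pderiv_X_of_ne (by simp), pderiv_rename (Option.some_injective ι)]
    simp only [smul_eq_mul, mul_zero, add_zero, smul_zero, nsmul_zero]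
  rw [h1, eval_zero_sum hF _ z hz, ini_eq, map_sum, map_sum]
  refine Finset.sum_congr rfl fun d hd => ?_
  have e : (monomial d (coeff d F) : MvPolynomial ι ℂ) = C (coeff d F) * monomial d 1 := by
    rw [C_mul_monomial, mul_one]
  rw [e, pderiv_C_mul, map_mul, eval_C]

theorem xh_cc (hM : M ≠ 0) (hw : ∀ a, 1 ≤ w a) (hwm : ∀ a, w a * m a = M) (hr : 1 ≤ r)
    (y : ι → PowerSeries ℂ) :
    (fun o => PowerSeries.constantCoeff (xh w M r y o)) = fun o => o.elim 0 (ls m r y) := by
  funext o
  rcases o with _ | a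
  · change PowerSeries.constantCoeff (PowerSeries.X ^ r) = (0 : ℂ)
    rw [map_pow, PowerSeries.constantCoeff_X, zero_pow (by omega)]
  · exact cc_yh hM hw hwm y a

/-- the exponents of the leading coefficients -/
theorem exp_of_ne (hw : ∀ a, 1 ≤ w a) (hwm : ∀ a, w a * m a = M) (F : MvPolynomial ι ℂ)
    {z : ι → ℂ} (hz : ∀ a, ¬ m a ∣ r → z a = 0) (j : ι)
    (h : eval z (pderiv j (ini w D F)) ≠ 0) : ∃ k, r * D = r * w j + M * k := by
  rw [ini_eq, map_sum, map_sum] at h
  obtain ⟨d, hd, h1⟩ := Finset.exists_ne_zero_of_sum_ne_zero h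
  have hD := (Finset.mem_filter.1 hd).2
  rw [pderiv_monomial, eval_monomial] at h1
  have h2 : (d - Finsupp.single j 1).prod (fun n e => z n ^ e) ≠ 0 := right_ne_zero_of_mul h1
  have h3 : (d j : ℂ) ≠ 0 := right_ne_zero_of_mul (left_ne_zero_of_mul h1)
  have h4 : 1 ≤ d j := Nat.one_le_iff_ne_zero.2 (by exact_mod_cast h3)
  rw [Finsupp.prod_fintype _ _ (fun a => by simp)] at h2
  have h5 : ∀ a, M ∣ (d - Finsupp.single j 1 : ι →₀ ℕ) a * (r * w a) := by
    intro a
    by_cases h6 : m a ∣ r
    · obtain ⟨q, hq⟩ := h6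
      refine Dvd.dvd.mul_left ?_ _
      refine ⟨q, ?_⟩
      rw [hq, ← hwm a]
      ring
    · have h7 := Finset.prod_ne_zero_iff.1 h2 a (Finset.mem_univ a)
      have h8 : (d - Finsupp.single j 1 : ι →₀ ℕ) a = 0 := by
        by_contra h9
        apply h7
        rw [hz a h6, zero_pow h9]
      rw [h8, zero_mul]
      exact dvd_zero _
  obtain ⟨k, hk⟩ := Finset.dvd_sum (s := Finset.univ) fun a _ => h5 a
  refine ⟨k, ?_⟩
  rw [← hk, ← hD, weight_eq, Finset.mul_sum]
  have h6 : ∀ a, r * (d a * w a) = (if a = j then r * w j else 0) +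
      (d - Finsupp.single j 1 : ι →₀ ℕ) a * (r * w a) := by
    intro a
    rw [Finsupp.tsub_apply, Finsupp.single_apply]
    by_cases ha : a = j
    · subst ha
      rw [if_pos rfl, if_pos rfl]
      obtain ⟨e, he⟩ := Nat.exists_eq_add_of_le h4
      rw [he, Nat.add_sub_cancel_left]
      ring
    · rw [if_neg ha, if_neg (fun h => ha h.symm), Nat.sub_zero]
      ring
  rw [Finset.sum_congr rfl fun a _ => h6 a, Finset.sum_add_distrib, Finset.sum_ite_eq' Finset.univ j,
    if_pos (Finset.mem_univ j)]

theorem ls_off (y : ι → PowerSeries ℂ) : ∀ a, ¬ m a ∣ r → ls m r y a = 0 := fun a ha => by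
  rw [ls, if_neg ha]

/-- changing one coefficient -/
theorem xh_upd (hM : M ≠ 0) (y : ι → PowerSeries ℂ) (j : ι) (t : ℂ) {s N : ℕ}
    (hs : s * M = N + r * w j) :
    xh w M r (Function.update y j (y j + PowerSeries.C t * PowerSeries.X ^ s)) =
      Function.update (xh w M r y) (some j)
        (xh w M r y (some j) + PowerSeries.C t * PowerSeries.X ^ N) := by
  funext o
  rcases o with _ | a
  · rw [Function.update_of_ne (by simp)]
    rfl
  · by_cases ha : a = j
    · subst ha
      rw [Function.update_self]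
      ext n
      change PowerSeries.coeff n (yh w M r _ a) = PowerSeries.coeff n (yh w M r y a + _)
      rw [map_add, yh, yh, PowerSeries.coeff_mk, PowerSeries.coeff_mk, PowerSeries.coeff_C_mul,
        PowerSeries.coeff_X_pow, Function.update_self]
      by_cases h1 : M ∣ n + r * w a
      · obtain ⟨q, hq⟩ := h1
        rw [if_pos ⟨q, hq⟩, if_pos ⟨q, hq⟩, hq, Nat.mul_div_cancel_left _ (Nat.pos_of_ne_zero hM),
          map_add, PowerSeries.coeff_C_mul, PowerSeries.coeff_X_pow]
        congr 2
        have h2 : q = s ↔ n = N := by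
          constructor
          · rintro rfl
            have : n + r * w a = N + r * w a := by rw [hq, ← hs, mul_comm]
            omega
          · rintro rfl
            rw [← hs, mul_comm] at hq
            exact (Nat.eq_of_mul_eq_mul_left (Nat.pos_of_ne_zero hM) hq).symm
        simp only [h2]
      · rw [if_neg h1, if_neg h1]
        have h2 : n ≠ N := by
          rintro rfl
          exact h1 ⟨s, by rw [← hs, mul_comm]⟩
        rw [if_neg h2, mul_zero, add_zero]
    · rw [Function.update_of_ne (by simpa using ha)]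
      change yh w M r _ a = yh w M r y a
      unfold yh
      rw [Function.update_of_ne ha]

end

end LAAux

open LAAux in
theorem stmt_LA : Stmt_LA := by
  classical
  intro ι _ _ w m M D F hSQ hM1 hwm r hr y hy
  have hM : M ≠ 0 := by omega
  have hw := hSQ.1
  have hF := hSQ.2.2.1
  have hcc := xh_cc (m := m) hM hw hwm hr y
  refine ⟨?_, ?_, ?_⟩
  · intro l hl
    rw [coeff_F hM hw hwm hF hy, if_neg]
    rw [mul_comm M l]
    omega
  · intro l hl
    rw [coeff_F hM hw hwm hF hy, if_pos (by rw [mul_comm M l]; omega), mul_comm M l, hl,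
      Nat.sub_self, PowerSeries.coeff_zero_eq_constantCoeff_apply, GJetAux.constantCoeff_aeval,
      hcc, eval_Fh hF _ rfl]
    rfl
  · intro j hj l hl
    obtain ⟨k, hk⟩ := exp_of_ne hw hwm F (ls_off y) j hj
    have hkl : k < l := by
      have h1 : M * k < M * l := by
        calc M * k ≤ r * D := by omega
          _ < M * l := by rw [mul_comm M l]; exact hl
      exact lt_of_mul_lt_mul_left h1 (Nat.zero_le _)
    obtain ⟨s, rfl⟩ := Nat.exists_eq_add_of_lt hkl
    obtain ⟨s', hs'⟩ : ∃ s', s' = s + 1 := ⟨_, rfl⟩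
    have el : k + s + 1 = k + s' := by omega
    rw [el] at hl ⊢
    have hs : s' * M + r * D = (k + s') * M + r * w j := by
      rw [hk]
      ring
    obtain ⟨N, hN⟩ := Nat.exists_eq_add_of_lt hl
    obtain ⟨N', hN'⟩ : ∃ N', N' = N + 1 := ⟨_, rfl⟩
    have hN2 : (k + s') * M = r * D + N' := by omega
    have hN1 : 1 ≤ N' := by omega
    have hsN : s' * M = N' + r * w j := by omega
    have hrs : r < s' * m j := by
      have h1 : r * w j < s' * M := by omega
      rw [← hwm j] at h1
      have h2 : w j * r < w j * (s' * m j) := by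
        calc w j * r = r * w j := mul_comm _ _
          _ < s' * (w j * m j) := h1
          _ = w j * (s' * m j) := by ring
      exact lt_of_mul_lt_mul_left h2 (Nat.zero_le _)
    refine ⟨s', hs, hrs, ?_, ?_⟩
    · intro t
      have hy' : Function.update y j (y j + PowerSeries.C t * PowerSeries.X ^ s') ∈ Ar m r := by
        intro a l' hl'
        have h1 := O5Aux.coeff_upd_arc y j s' t a l' (fun ha => by
          rintro rfl
          rw [ha] at hl'
          omega)
        rw [h1]
        exact hy a l' hl'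
      have e1 : r * D ≤ M * (k + s') := by rw [mul_comm M]; omega
      have e2 : M * (k + s') - r * D = N' := by rw [mul_comm M]; omega
      rw [coeff_F hM hw hwm hF hy', coeff_F hM hw hwm hF hy, if_pos e1, if_pos e1, e2,
        xh_upd hM y j t hsN, O5Aux.coeff_upd (Fh w D F) (xh w M r y) (some j) hN1 t]
      congr 2
      have e3 : (fun o => PowerSeries.coeff 0 (xh w M r y o)) = fun o => o.elim 0 (ls m r y) := by
        rw [← hcc]
        funext o
        exact PowerSeries.coeff_zero_eq_constantCoeff_apply _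
      rw [e3, eval_dFh hF j _ rfl]
      rfl
    · intro y' hy' h1 h2 l' hl'
      rw [coeff_F hM hw hwm hF hy', coeff_F hM hw hwm hF hy]
      by_cases h3 : r * D ≤ M * l'
      · rw [if_pos h3, if_pos h3]
        have h4 : M * l' - r * D < N' := by
          have h5 : M * l' < M * (k + s') := Nat.mul_lt_mul_of_pos_left hl' (Nat.pos_of_ne_zero hM)
          rw [mul_comm M (k + s')] at h5
          omega
        refine GJetAux.aeval_congr (Fh w D F) N' _ _ ?_ _ h4
        intro o n hn
        rcases o with _ | a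
        · rfl
        · change PowerSeries.coeff n (yh w M r y' a) = PowerSeries.coeff n (yh w M r y a)
          rw [yh, yh, PowerSeries.coeff_mk, PowerSeries.coeff_mk]
          by_cases ha : a = j
          · subst ha
            split_ifs with h6
            · obtain ⟨q, hq⟩ := h6
              rw [hq, Nat.mul_div_cancel_left _ (Nat.pos_of_ne_zero hM)]
              refine h2 q ?_
              have h7 : M * q < M * s' := by
                rw [← hq, mul_comm M s']
                omega
              exact lt_of_mul_lt_mul_left h7 (Nat.zero_le _)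
            · rfl
          · rw [h1 a ha]
      · rw [if_neg h3, if_neg h3]

end Pool.Agent.Mono.RO
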