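import Pool.Agent.Work.Monodromy6.LA

/-!
# Block LB (helper2): volumes of arcs with given slope and prescribed coefficients
-/

set_option autoImplicit false
set_option linter.unusedSectionVars false
set_option maxHeartbeats 200000

namespace Pool.Agent.Mono.RO

open MvPolynomial TS

namespace LBAux

open VGAux LAAux

section

variable {E ι : Type} [Fintype ι] [DecidableEq ι] {w m : ι → ℕ} {M D r : ℕ}

theorem mem_cgr' {α : Type*} {Q : Set α} {a b : α} (h : a = b) : a ∈ Q ↔ b ∈ Q := by rw [h]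

theorem Cy_allF {α : Type} (s : Finset α) {S : α → (E → ℂ) × (ι → PowerSeries ℂ) → Prop}
    (hS : ∀ a ∈ s, Cy {z | S a z}) : Cy {z | ∀ a ∈ s, S a z} := by
  classical
  induction s using Finset.induction_on with
  | empty => simpa using Cy.univ (E := E) (ι := ι)
  | insert a s _ ih =>
    have h1 := Cy.and (hS a (Finset.mem_insert_self a s))
      (ih fun b hb => hS b (Finset.mem_insert_of_mem hb))
    convert h1 using 2
    ext z
    simp [Finset.mem_insert]

theorem Cy_Ar (hm : ∀ a, 1 ≤ m a) :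
    Cy {z : (E → ℂ) × (ι → PowerSeries ℂ) | z.2 ∈ Ar m r} := by
  have h := Cy_allF (E := E) (ι := ι) (Finset.univ : Finset ι)
    (S := fun a z => ∀ l < r, l * m a < r → PowerSeries.coeff l (z.2 a) = 0)
    (fun a _ => Cy.all_lt r fun l _ => Cy.imp fun _ => Cy.zero (RF.arc a l))
  convert h using 2
  ext z
  constructor
  · intro hz a _ l _ hl
    exact hz a l hl
  · intro hz a l hl
    refine hz a (Finset.mem_univ a) l ?_ hl
    calc l = l * 1 := (mul_one l).symm
      _ ≤ l * m a := Nat.mul_le_mul_left l (hm a)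
      _ < r := hl

theorem RF_bsr (s : E ⊕ ι) : RF fun z : (E → ℂ) × (ι → PowerSeries ℂ) => bsr m r z s := by
  rcases s with p | a
  · exact RF.par p
  · exact RF.ite _ (RF.arc a _) (RF.const 0)

theorem Cy_DNr [Finite E] (hm : ∀ a, 1 ≤ m a) (F : MvPolynomial ι ℂ) {R : Set (E ⊕ ι → ℂ)}
    (hR : Constructible R) (B : ℕ → MvPolynomial (E ⊕ ι) ℂ) (L : ℕ) :
    Cy (DNr m M D r F R B L) := by
  refine Cy.and (Cy_Ar hm) (Cy.and (Cy.mem hR RF_bsr) ?_)
  have h := Cy.all_lt (E := E) (ι := ι) (L + 1) (S := fun l z => r * D < l * M →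
    PowerSeries.coeff l (aeval z.2 F) = eval (bsr m r z) (B l))
    fun l _ => Cy.imp fun _ => Cy.eq (RF.coef F l) (RF.eval RF_bsr (B l))
  convert h using 2
  ext z
  exact ⟨fun hz l hl => hz l (by omega), fun hz l hl => hz l (by omega)⟩

/-! ### without conditions -/

/-- the base -/
def S0 (m : ι → ℕ) (r : ℕ) (R : Set (E ⊕ ι → ℂ)) : Set ((E → ℂ) × (ι → PowerSeries ℂ)) :=
  {z | z.2 ∈ Ar m r ∧ bsr m r z ∈ R}

theorem DNr_base {F : MvPolynomial ι ℂ} {R : Set (E ⊕ ι → ℂ)}
    {B : ℕ → MvPolynomial (E ⊕ ι) ℂ} {L : ℕ} (hL : L * M ≤ r * D) :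
    DNr m M D r F R B L = S0 m r R := by
  ext z
  constructor
  · rintro ⟨h1, h2, -⟩
    exact ⟨h1, h2⟩
  · rintro ⟨h1, h2⟩
    refine ⟨h1, h2, fun l hl hl' => ?_⟩
    exfalso
    have : l * M ≤ L * M := Nat.mul_le_mul_right M hl
    omega

/-- a set which depends only on the order and the leading coefficients -/
theorem Ar_congr {x y : ι → PowerSeries ℂ}
    (h : ∀ a, ∀ l, l * m a < r → PowerSeries.coeff l (x a) = PowerSeries.coeff l (y a)) :
    x ∈ Ar m r ↔ y ∈ Ar m r := by
  constructor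
  · intro hx a l hl
    rw [← h a l hl]
    exact hx a l hl
  · intro hx a l hl
    rw [h a l hl]
    exact hx a l hl

theorem bsr_congr {p : E → ℂ} {x y : ι → PowerSeries ℂ}
    (h : ∀ a, m a ∣ r → PowerSeries.coeff (r / m a) (x a) = PowerSeries.coeff (r / m a) (y a)) :
    bsr m r (p, x) = bsr m r (p, y) := by
  funext s
  rcases s with s | a
  · rfl
  · change ls m r x a = ls m r y a
    unfold ls
    split_ifs with h1
    · exact h a h1
    · rfl

theorem lt_lev (hm : ∀ a, 1 ≤ m a) {a : ι} {l : ℕ} (h : l * m a < r) : l < r / m a + 1 := by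
  have h1 : l ≤ r / m a := (Nat.le_div_iff_mul_le (hm a)).2 (le_of_lt h)
  omega

theorem vol_S0 [Finite E] (P : HodgeMeasure) (hm : ∀ a, 1 ≤ m a) {R : Set (E ⊕ ι → ℂ)}
    (hR : Constructible R) (hO : ∀ u ∈ R, Off m r fun a => u (Sum.inr a)) :
    vol P.rat xq (S0 m r R) = xq ^ (∑ a, (r / m a + 1)) * P.rat.val R := by
  have hL := VAAux.L_mul P
  have cy : Cy (S0 (E := E) m r R) := Cy.and (Cy_Ar hm) (Cy.mem hR RF_bsr)
  have hc : IsCyl (fun a => r / m a + 1) (S0 (E := E) m r R) := by
    refine ⟨fun p x y hxy => ?_, O5Aux.con_sec cy _⟩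
    change (_ ∧ _) ↔ (_ ∧ _)
    refine and_congr (Ar_congr fun a l hl => hxy a l (lt_lev hm hl)) ?_
    rw [bsr_congr fun a _ => hxy a _ (Nat.lt_succ_self _)]
  rw [vol_eq P.rat hL hc, mul_comm]
  congr 1
  refine P.rat.val_of_inv hc.2 hR (Sum.elim (fun p => X (Sum.inl p))
    fun a => if m a ∣ r then X (Sum.inr ⟨a, ⟨r / m a, Nat.lt_succ_self _⟩⟩) else 0)
    (fun y => Sum.elim (fun p => y (Sum.inl p))
      fun s => if m s.1 ∣ r ∧ (s.2 : ℕ) = r / m s.1 then y (Sum.inr s.1) else 0) ?_ ?_ ?_ ?_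
  · rintro v ⟨-, h2⟩
    refine (mem_cgr' (Q := R) ?_).1 h2
    funext s
    rcases s with p | a
    · simp [bsr]
    · change ls m r _ a = _
      unfold ls
      simp only [Sum.elim_inr]
      split_ifs with h1
      · rw [coeff_toArc, dif_pos (Nat.lt_succ_self _), eval_X]
      · simp
  · intro y hy
    have hOy := hO y hy
    refine ⟨?_, ?_⟩
    · intro a l hl
      dsimp only
      rw [coeff_toArc, dif_pos (lt_lev hm hl)]
      simp only [Sum.elim_inr]
      rw [if_neg]
      rintro ⟨h1, h2⟩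
      rw [h2, Nat.div_mul_cancel h1] at hl
      exact lt_irrefl _ hl
    · refine (mem_cgr' (Q := R) ?_).1 hy
      funext s
      rcases s with p | a
      · simp [bsr]
      · change y (Sum.inr a) = ls m r _ a
        unfold ls
        split_ifs with h1
        · rw [coeff_toArc, dif_pos (Nat.lt_succ_self _)]
          simp [h1]
        · exact hOy a h1
  · rintro v ⟨h1, -⟩
    funext s
    rcases s with p | ⟨a, l, hl⟩
    · simp
    · simp only [Sum.elim_inr]
      by_cases h2 : m a ∣ r ∧ l = r / m a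
      · obtain ⟨h2, h3⟩ := h2
        subst h3
        simp [h2]
      · rw [if_neg h2]
        have h3 : l * m a < r := by
          by_contra h4
          have h5 : r ≤ l * m a := not_lt.1 h4
          have h6 : l ≤ r / m a := by omega
          have h7 : l * m a ≤ r := (Nat.le_div_iff_mul_le (hm a)).1 h6
          have h8 : r = l * m a := le_antisymm h5 h7
          apply h2
          refine ⟨⟨l, by rw [h8, mul_comm]⟩, ?_⟩
          rw [h8, Nat.mul_div_cancel _ (hm a)]
        have h4 := h1 a l h3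
        dsimp only at h4
        rw [coeff_toArc, dif_pos hl] at h4
        exact h4.symm
  · intro y hy
    have hOy := hO y hy
    funext s
    rcases s with p | a
    · simp
    · simp only [Sum.elim_inr]
      split_ifs with h1
      · simp [h1]
      · rw [map_zero]
        exact (hOy a h1).symm

/-! ### prescribed coefficients -/

theorem bsr_inr (z : (E → ℂ) × (ι → PowerSeries ℂ)) :
    (fun a => bsr m r z (Sum.inr a)) = ls m r z.2 := rfl

theorem hj_ne {F : MvPolynomial ι ℂ} {R : Set (E ⊕ ι → ℂ)} {j : ι}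
    (hj : ∀ u ∈ R, eval (fun a => u (Sum.inr a)) (pderiv j (ini w D F)) ≠ 0)
    {z : (E → ℂ) × (ι → PowerSeries ℂ)} (hz : bsr m r z ∈ R) :
    eval (ls m r z.2) (pderiv j (ini w D F)) ≠ 0 := by
  have h := hj _ hz
  rw [bsr_inr] at h
  exact h

/-- one direction of the cylinder property -/
theorem dep_DNr {F : MvPolynomial ι ℂ} (hSQ : SQ w D F) (hM : 1 ≤ M) (hwm : ∀ a, w a * m a = M)
    (hr : 1 ≤ r) (hm : ∀ a, 1 ≤ m a) {R : Set (E ⊕ ι → ℂ)} (j : ι)
    (hj : ∀ u ∈ R, eval (fun a => u (Sum.inr a)) (pderiv j (ini w D F)) ≠ 0)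
    (B : ℕ → MvPolynomial (E ⊕ ι) ℂ) {L s N : ℕ} (hL : r * D / M ≤ L)
    (hs : s * M + r * D = (L + 1) * M + r * w j) (hrs : r < s * m j)
    (hN : ∀ a, r / m a + 1 ≤ N) (hN' : L + 1 ≤ N) {p : E → ℂ} {x y : ι → PowerSeries ℂ}
    (hxy : ∀ a, ∀ l < (if a = j then s else N),
      PowerSeries.coeff l (x a) = PowerSeries.coeff l (y a))
    (hx : (p, x) ∈ DNr m M D r F R B L) : (p, y) ∈ DNr m M D r F R B L := by
  have hrs' : r / m j < s := (Nat.div_lt_iff_lt_mul (hm j)).2 hrs
  have hlev : ∀ a, ∀ l, l < r / m a + 1 → PowerSeries.coeff l (x a) = PowerSeries.coeff l (y a) := by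
    intro a l hl
    refine hxy a l ?_
    split_ifs with ha
    · subst ha
      omega
    · exact lt_of_lt_of_le hl (hN a)
  obtain ⟨h1, h2, h3⟩ := hx
  have e1 : bsr m r (p, x) = bsr m r (p, y) := bsr_congr fun a _ => hlev a _ (Nat.lt_succ_self _)
  have hy : y ∈ Ar m r := (Ar_congr fun a l hl => hlev a l (lt_lev hm hl)).1 h1
  have h2y : bsr m r (p, y) ∈ R := by rw [← e1]; exact h2
  refine ⟨hy, h2y, fun l hl hl' => ?_⟩
  rw [← e1, ← h3 l hl hl']
  dsimp only
  -- the intermediate arc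
  have hLM : r * D < (L + 1) * M := by
    exact Nat.lt_mul_of_div_lt (lt_of_le_of_lt hL (Nat.lt_succ_self L)) hM
  have hjy : eval (ls m r y) (pderiv j (ini w D F)) ≠ 0 := hj_ne (z := (p, y)) hj h2y
  have hLA0 := stmt_LA ι w m M D F hSQ hM hwm r hr y hy
  obtain ⟨s', hs', hrs'', -, hdep⟩ := hLA0.2.2 j hjy (L + 1) hLM
  have hss : s' = s := by
    have : s' * M = s * M := by omega
    exact Nat.eq_of_mul_eq_mul_right hM this
  subst hss
  have hx' : Function.update y j (x j) ∈ Ar m r := by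
    intro a l hl
    by_cases ha : a = j
    · subst ha
      rw [Function.update_self]
      exact h1 a l hl
    · rw [Function.update_of_ne ha]
      exact hy a l hl
  have e2 := hdep (Function.update y j (x j)) hx' (fun a ha n => by rw [Function.update_of_ne ha])
    (fun n hn => by
      rw [Function.update_self]
      exact hxy j n (by rw [if_pos rfl]; exact hn)) l (by omega)
  rw [← e2]
  refine GJetAux.aeval_congr F (L + 1) _ _ (fun a n hn => ?_) l (by omega)
  by_cases ha : a = j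
  · subst ha
    rw [Function.update_self]
  · rw [Function.update_of_ne ha]
    exact (hxy a n (by rw [if_neg ha]; omega)).symm

theorem cyl_DNr [Finite E] {F : MvPolynomial ι ℂ} (hSQ : SQ w D F) (hM : 1 ≤ M)
    (hwm : ∀ a, w a * m a = M)
    (hr : 1 ≤ r) (hm : ∀ a, 1 ≤ m a) {R : Set (E ⊕ ι → ℂ)} (hR : Constructible R) (j : ι)
    (hj : ∀ u ∈ R, eval (fun a => u (Sum.inr a)) (pderiv j (ini w D F)) ≠ 0)
    (B : ℕ → MvPolynomial (E ⊕ ι) ℂ) {L s N : ℕ} (hL : r * D / M ≤ L)
    (hs : s * M + r * D = (L + 1) * M + r * w j) (hrs : r < s * m j)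
    (hN : ∀ a, r / m a + 1 ≤ N) (hN' : L + 1 ≤ N) :
    IsCyl (fun a => if a = j then s else N) (DNr m M D r F R B L) := by
  refine ⟨fun p x y hxy => ⟨?_, ?_⟩, O5Aux.con_sec (Cy_DNr hm F hR B L) _⟩
  · exact dep_DNr hSQ hM hwm hr hm j hj B hL hs hrs hN hN' hxy
  · exact dep_DNr hSQ hM hwm hr hm j hj B hL hs hrs hN hN' fun a l hl => (hxy a l hl).symm

/-- one step -/
theorem DNr_step [Finite E] (P : HodgeMeasure) {F : MvPolynomial ι ℂ} (hSQ : SQ w D F)
    (hM : 1 ≤ M) (hwm : ∀ a, w a * m a = M) (hr : 1 ≤ r) (hm : ∀ a, 1 ≤ m a)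
    {R : Set (E ⊕ ι → ℂ)} (hR : Constructible R)
    (hO : ∀ u ∈ R, Off m r fun a => u (Sum.inr a)) (j : ι)
    (hj : ∀ u ∈ R, eval (fun a => u (Sum.inr a)) (pderiv j (ini w D F)) ≠ 0)
    (B : ℕ → MvPolynomial (E ⊕ ι) ℂ) {L : ℕ} (hL : r * D / M ≤ L) :
    vol P.rat xq (DNr m M D r F R B (L + 1)) = xq * vol P.rat xq (DNr m M D r F R B L) := by
  have hLv := VAAux.L_mul P
  rcases R.eq_empty_or_nonempty with rfl | ⟨u, hu⟩
  · have e : ∀ L, DNr m M D r F (∅ : Set (E ⊕ ι → ℂ)) B L = ∅ := by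
      intro L
      ext z
      constructor
      · rintro ⟨-, h, -⟩
        exact h
      · intro h
        exact absurd h (Set.notMem_empty z)
    rw [e, e, vol_empty P.rat hLv, mul_zero]
  · have hLM : r * D < (L + 1) * M :=
      Nat.lt_mul_of_div_lt (lt_of_le_of_lt hL (Nat.lt_succ_self L)) hM
    obtain ⟨k, hk⟩ := exp_of_ne hSQ.1 hwm F (hO u hu) j (hj u hu)
    have hkL : k < L + 1 := by
      have h1 : M * k < M * (L + 1) := by
        rw [mul_comm M (L + 1)]
        omega
      exact lt_of_mul_lt_mul_left h1 (Nat.zero_le _)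
    obtain ⟨s, hs⟩ : ∃ s, s + k = L + 1 := ⟨L + 1 - k, by omega⟩
    have hs1 : s * M + r * D = (L + 1) * M + r * w j := by
      rw [← hs, hk]
      ring
    have hs2 : (s + 1) * M + r * D = (L + 1 + 1) * M + r * w j := by
      rw [add_mul s, add_mul (L + 1) 1]
      omega
    have hrs : r < s * m j := by
      have h1 : r * w j < s * M := by omega
      rw [← hwm j] at h1
      have h2 : w j * r < w j * (s * m j) := by
        calc w j * r = r * w j := mul_comm _ _
          _ < s * (w j * m j) := h1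
          _ = w j * (s * m j) := by ring
      exact lt_of_mul_lt_mul_left h2 (Nat.zero_le _)
    have hrs2 : r < (s + 1) * m j := lt_of_lt_of_le hrs (Nat.mul_le_mul_right _ (Nat.le_succ s))
    have hrs' : r / m j < s := (Nat.div_lt_iff_lt_mul (hm j)).2 hrs
    set N := (∑ a, (r / m a + 1)) + L + 2 with hN
    have hN1 : ∀ a, r / m a + 1 ≤ N := by
      intro a
      have := Finset.single_le_sum (f := fun a => r / m a + 1) (fun a _ => Nat.zero_le _)
        (Finset.mem_univ a)
      omega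
    have c1 := cyl_DNr hSQ hM hwm hr hm hR j hj B (L := L + 1) (s := s + 1) (N := N) (by omega) hs2
      hrs2 hN1 (by omega)
    have c0 := cyl_DNr hSQ hM hwm hr hm hR j hj B (L := L) (s := s) (N := N) hL hs1
      hrs hN1 (by omega)
    -- facts about the modified arc
    have key : ∀ z : (E → ℂ) × (ι → PowerSeries ℂ), z ∈ DNr m M D r F R B L → ∀ t : ℂ,
        (Function.update z.2 j (z.2 j + PowerSeries.C t * PowerSeries.X ^ s)) ∈ Ar m r ∧
        bsr m r (z.1, Function.update z.2 j (z.2 j + PowerSeries.C t * PowerSeries.X ^ s)) =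
          bsr m r z ∧
        (∀ l < L + 1, PowerSeries.coeff l (aeval (Function.update z.2 j
          (z.2 j + PowerSeries.C t * PowerSeries.X ^ s)) F) =
            PowerSeries.coeff l (aeval z.2 F)) ∧
        PowerSeries.coeff (L + 1) (aeval (Function.update z.2 j
          (z.2 j + PowerSeries.C t * PowerSeries.X ^ s)) F) =
            PowerSeries.coeff (L + 1) (aeval z.2 F) +
              t * eval (ls m r z.2) (pderiv j (ini w D F)) := by
      rintro ⟨p, y⟩ ⟨h1, h2, h3⟩ t
      have h4 : ∀ a l, (a = j → l ≠ s) → PowerSeries.coeff l (Function.update y j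
          (y j + PowerSeries.C t * PowerSeries.X ^ s) a) = PowerSeries.coeff l (y a) :=
        fun a l hl => O5Aux.coeff_upd_arc y j s t a l hl
      have h5 : (Function.update y j (y j + PowerSeries.C t * PowerSeries.X ^ s)) ∈ Ar m r := by
        refine (Ar_congr fun a l hl => h4 a l ?_).2 h1
        rintro rfl rfl
        omega
      have hjy : eval (ls m r y) (pderiv j (ini w D F)) ≠ 0 := hj_ne (z := (p, y)) hj h2
      have hLA0 := stmt_LA ι w m M D F hSQ hM hwm r hr y h1
      obtain ⟨s', hs', -, hupd, hdep⟩ := hLA0.2.2 j hjy (L + 1) hLM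
      have hss : s' = s := by
        have : s' * M = s * M := by omega
        exact Nat.eq_of_mul_eq_mul_right hM this
      subst hss
      refine ⟨h5, ?_, ?_, hupd t⟩
      · refine bsr_congr fun a _ => h4 a _ ?_
        rintro rfl
        omega
      · intro l hl
        refine hdep _ h5 (fun a ha n => ?_) (fun n hn => ?_) l hl
        · exact h4 a n fun h => absurd h ha
        · exact h4 j n fun _ => by omega
    refine O5Aux.vol_step P (K := fun a => if a = j then s else N)
      (K' := fun a => if a = j then s + 1 else N) j (by simp) (fun a ha => by simp [ha]) c1 c0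
      ?_ ?_ ?_
    · rintro z ⟨h1, h2, h3⟩
      exact ⟨h1, h2, fun l hl hl' => h3 l (by omega) hl'⟩
    · simp only [if_true]
      intro z hz
      have hz' := hz
      obtain ⟨h1, h2, h3⟩ := hz'
      have hc0' : eval (ls m r z.2) (pderiv j (ini w D F)) ≠ 0 := hj_ne hj h2
      set c := eval (ls m r z.2) (pderiv j (ini w D F)) with hc
      have hc0 : c ≠ 0 := hc0'
      refine ⟨(eval (bsr m r z) (B (L + 1)) - PowerSeries.coeff (L + 1) (aeval z.2 F)) / c, ?_⟩
      obtain ⟨k1, k2, k3, k4⟩ := key z hz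
        ((eval (bsr m r z) (B (L + 1)) - PowerSeries.coeff (L + 1) (aeval z.2 F)) / c)
      refine ⟨k1, by rw [k2]; exact h2, fun l hl hl' => ?_⟩
      rw [k2]
      dsimp only
      by_cases hlL : l = L + 1
      · subst hlL
        rw [k4, div_mul_cancel₀ _ hc0]
        ring
      · rw [k3 l (by omega)]
        exact h3 l (by omega) hl'
    · simp only [if_true]
      intro z hz t t' ht ht'
      obtain ⟨k1, k2, k3, k4⟩ := key z hz t
      obtain ⟨k1', k2', k3', k4'⟩ := key z hz t'
      have h5 := ht.2.2 (L + 1) le_rfl hLM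
      have h6 := ht'.2.2 (L + 1) le_rfl hLM
      rw [k2] at h5
      rw [k2'] at h6
      dsimp only at h5 h6
      rw [k4] at h5
      rw [k4'] at h6
      have hc0 : eval (ls m r z.2) (pderiv j (ini w D F)) ≠ 0 := hj_ne hj hz.2.1
      have h7 : t * eval (ls m r z.2) (pderiv j (ini w D F)) =
          t' * eval (ls m r z.2) (pderiv j (ini w D F)) := by
        linear_combination h5 - h6
      exact mul_right_cancel₀ hc0 h7

theorem DNr_pivot [Finite E] (P : HodgeMeasure) {F : MvPolynomial ι ℂ} (hSQ : SQ w D F)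
    (hM : 1 ≤ M) (hwm : ∀ a, w a * m a = M) (hr : 1 ≤ r) (hm : ∀ a, 1 ≤ m a)
    {R : Set (E ⊕ ι → ℂ)} (hR : Constructible R)
    (hO : ∀ u ∈ R, Off m r fun a => u (Sum.inr a)) (j : ι)
    (hj : ∀ u ∈ R, eval (fun a => u (Sum.inr a)) (pderiv j (ini w D F)) ≠ 0)
    (B : ℕ → MvPolynomial (E ⊕ ι) ℂ) (n : ℕ) :
    vol P.rat xq (DNr m M D r F R B (r * D / M + n)) =
      xq ^ (∑ a, (r / m a + 1) + n) * P.rat.val R := by
  induction n with
  | zero =>
    rw [add_zero, add_zero, DNr_base (Nat.div_mul_le_self _ _), vol_S0 P hm hR hO]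
  | succ n ih =>
    rw [← add_assoc, DNr_step P hSQ hM hwm hr hm hR hO j hj B (Nat.le_add_right _ _), ih]
    ring

theorem vol_DNr [Finite E] (P : HodgeMeasure) {F : MvPolynomial ι ℂ} (hSQ : SQ w D F)
    (hM : 1 ≤ M) (hwm : ∀ a, w a * m a = M) (hr : 1 ≤ r) (hm : ∀ a, 1 ≤ m a)
    (B : ℕ → MvPolynomial (E ⊕ ι) ℂ) (n : ℕ) (S : Finset ι) :
    ∀ R : Set (E ⊕ ι → ℂ), Constructible R → (∀ u ∈ R, Off m r fun a => u (Sum.inr a)) →
    (∀ u ∈ R, ∃ j ∈ S, eval (fun a => u (Sum.inr a)) (pderiv j (ini w D F)) ≠ 0) →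
    vol P.rat xq (DNr m M D r F R B (r * D / M + n)) =
      xq ^ (∑ a, (r / m a + 1) + n) * P.rat.val R := by
  classical
  induction S using Finset.induction_on with
  | empty =>
    intro R hR hO h
    have hR0 : R = ∅ := by
      ext u
      simp only [Set.mem_empty_iff_false, iff_false]
      intro hu
      obtain ⟨i, hi, -⟩ := h u hu
      exact absurd hi (Finset.notMem_empty i)
    subst hR0
    have e : DNr m M D r F (∅ : Set (E ⊕ ι → ℂ)) B (r * D / M + n) = ∅ := by
      ext z
      constructor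
      · rintro ⟨-, h, -⟩
        exact h
      · intro h
        exact absurd h (Set.notMem_empty z)
    rw [e, vol_empty P.rat (VAAux.L_mul P), P.rat.val_empty, mul_zero]
  | insert a S _ ih =>
    intro R hR hO h
    have hc : Constructible {u : E ⊕ ι → ℂ |
        eval u (rename Sum.inr (pderiv a (ini w D F)) : MvPolynomial (E ⊕ ι) ℂ) = 0} :=
      Constructible.zero _
    have ev : ∀ u : E ⊕ ι → ℂ,
        eval u (rename Sum.inr (pderiv a (ini w D F)) : MvPolynomial (E ⊕ ι) ℂ) =
        eval (fun j => u (Sum.inr j)) (pderiv a (ini w D F)) := fun u => by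
      rw [eval_rename]
      rfl
    set R1 : Set (E ⊕ ι → ℂ) := R ∩ {u | ¬ eval u (rename Sum.inr (pderiv a (ini w D F))) = 0}
      with hR1
    set R2 : Set (E ⊕ ι → ℂ) := R ∩ {u | eval u (rename Sum.inr (pderiv a (ini w D F))) = 0}
      with hR2
    have c1 : Constructible R1 := hR.inter hc.not
    have c2 : Constructible R2 := hR.inter hc
    have hRu : R = R1 ∪ R2 := by
      ext u
      simp only [hR1, hR2, Set.mem_union, Set.mem_inter_iff, Set.mem_ofPred_eq]
      tauto
    have hd : Disjoint R1 R2 := by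
      rw [Set.disjoint_left]
      rintro u ⟨-, h1⟩ ⟨-, h2⟩
      exact h1 h2
    have hDu : DNr m M D r F R B (r * D / M + n) =
        DNr m M D r F R1 B (r * D / M + n) ∪ DNr m M D r F R2 B (r * D / M + n) := by
      ext z
      simp only [DNr, Set.mem_union, Set.mem_ofPred_eq]
      rw [hRu, Set.mem_union]
      tauto
    have hDd : Disjoint (DNr m M D r F R1 B (r * D / M + n))
        (DNr m M D r F R2 B (r * D / M + n)) := by
      rw [Set.disjoint_left]
      rintro z ⟨-, h1, -⟩ ⟨-, h2, -⟩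
      exact Set.disjoint_left.1 hd h1 h2
    rw [hDu, vol_uni P (Cy_DNr hm F c1 B _) (Cy_DNr hm F c2 B _) hDd]
    rw [DNr_pivot P hSQ hM hwm hr hm c1 (fun u hu => hO u hu.1) a (fun u hu => by
      have := hu.2
      rw [Set.mem_ofPred_eq, ev] at this
      exact this) B n, ih R2 c2 (fun u hu => hO u hu.1) ?_, ← mul_add,
      ← P.rat.union _ _ c1 c2 hd, ← hRu]
    rintro u ⟨h1, h2⟩
    obtain ⟨i, hi, h3⟩ := h u h1
    rcases Finset.mem_insert.1 hi with rfl | hi
    · rw [Set.mem_ofPred_eq, ev] at h2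
      exact absurd h2 h3
    · exact ⟨i, hi, h3⟩

end

end LBAux

open LBAux in
theorem stmt_LB : Stmt_LB := by
  intro P ι _ _ w m M D F hSQ hM hwm r hr E _ R hR hO B L
  have hm : ∀ a, 1 ≤ m a := by
    intro a
    rcases Nat.eq_zero_or_pos (m a) with h | h
    · have := hwm a
      rw [h, mul_zero] at this
      omega
    · exact h
  refine ⟨fun hL => ?_, fun hj hL => ?_⟩
  · rw [DNr_base hL, vol_S0 P hm hR hO]
  · obtain ⟨n, rfl⟩ := Nat.exists_eq_add_of_le hL
    rw [vol_DNr P hSQ hM hwm hr hm B n Finset.univ R hR hO fun u hu => by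
      obtain ⟨j, hj'⟩ := hj u hu
      exact ⟨j, Finset.mem_univ j, hj'⟩, Nat.add_sub_cancel_left]

end Pool.Agent.Mono.RO
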