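import Pool.Agent.Work.Monodromy6.InterfaceSQ
import Pool.Agent.Work.Monodromy5.O5

/-!
# Block LC: the local distribution
-/

set_option autoImplicit false
set_option linter.unusedSectionVars false

namespace Pool.Agent.Mono.RO

open MvPolynomial TS

namespace LCAux

open VGAux

section

variable {E ι : Type} [Fintype ι]

theorem Cy_all_finset {α : Type} (s : Finset α)
    {S : α → (E → ℂ) × (ι → PowerSeries ℂ) → Prop}
    (h : ∀ a ∈ s, Cy {z | S a z}) : Cy {z | ∀ a ∈ s, S a z} := by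
  classical
  induction s using Finset.induction_on with
  | empty => simpa using Cy.univ (E := E) (ι := ι)
  | insert a s ha ih =>
    have h1 := Cy.and (h a (Finset.mem_insert_self a s))
      (ih fun b hb => h b (Finset.mem_insert_of_mem hb))
    simpa only [Finset.forall_mem_insert] using h1

theorem Cy_Ar (m : ι → ℕ) (hm : ∀ a, 1 ≤ m a) (r : ℕ) :
    Cy {z : (E → ℂ) × (ι → PowerSeries ℂ) | z.2 ∈ Ar m r} := by
  have h := Cy_all_finset (E := E) (ι := ι) Finset.univ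
    (S := fun a z => ∀ l < r, l * m a < r → PowerSeries.coeff l (z.2 a) = 0)
    (fun a _ => Cy.all_lt r fun l _ => Cy.imp fun _ => Cy.zero (RF.arc a l))
  have e : {z : (E → ℂ) × (ι → PowerSeries ℂ) | z.2 ∈ Ar m r} =
      {z | ∀ a ∈ Finset.univ, ∀ l < r, l * m a < r → PowerSeries.coeff l (z.2 a) = 0} := by
    ext z
    constructor
    · intro h a _ l _ hl
      exact h a l hl
    · intro h a l hl
      exact h a (Finset.mem_univ a) l (lt_of_le_of_lt (Nat.le_mul_of_pos_right l (hm a)) hl) hl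
  rw [e]
  exact h

theorem RF_ls (m : ι → ℕ) (r : ℕ) (a : ι) :
    RF fun z : (E → ℂ) × (ι → PowerSeries ℂ) => ls m r z.2 a := by
  classical
  exact RF.ite (m a ∣ r) (RF.arc a (r / m a)) (RF.const 0)

theorem RF_bsr (m : ι → ℕ) (r : ℕ) (s : E ⊕ ι) :
    RF fun z : (E → ℂ) × (ι → PowerSeries ℂ) => bsr m r z s := by
  rcases s with p | a
  · exact RF.par p
  · exact RF_ls m r a

theorem Cy_DNr [Finite E] (m : ι → ℕ) (hm : ∀ a, 1 ≤ m a) (M D r : ℕ) (F : MvPolynomial ι ℂ)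
    {R : Set (E ⊕ ι → ℂ)} (hR : Constructible R) (B : ℕ → MvPolynomial (E ⊕ ι) ℂ) (L : ℕ) :
    Cy (DNr m M D r F R B L) := by
  refine Cy.and (Cy_Ar m hm r) (Cy.and (Cy.mem hR (RF_bsr m r)) ?_)
  have h := Cy.all_lt (E := E) (ι := ι) (L + 1) (S := fun l z => r * D < l * M →
    PowerSeries.coeff l (aeval z.2 F) = eval (bsr m r z) (B l))
    (fun l _ => Cy.imp fun _ => Cy.eq (RF.coef F l) (RF.eval (RF_bsr m r) (B l)))
  simpa only [Nat.lt_succ_iff] using h

theorem Cy_ls_ne (m : ι → ℕ) (r : ℕ) :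
    Cy {z : (E → ℂ) × (ι → PowerSeries ℂ) | ls m r z.2 ≠ 0} := by
  have h := Cy.not (Cy_all_finset (E := E) (ι := ι) Finset.univ (S := fun a z => ls m r z.2 a = 0)
    (fun a _ => Cy.zero (RF_ls m r a)))
  have e : {z : (E → ℂ) × (ι → PowerSeries ℂ) | ls m r z.2 ≠ 0} =
      {z | ¬ ∀ a ∈ Finset.univ, ls m r z.2 a = 0} := by
    ext z
    simp only [Set.mem_ofPred_eq, Finset.mem_univ, true_implies, ne_eq, funext_iff, Pi.zero_apply]
  rw [e]
  exact h

theorem Ar_anti (m : ι → ℕ) {r r' : ℕ} (h : r ≤ r') {y : ι → PowerSeries ℂ} (hy : y ∈ Ar m r') :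
    y ∈ Ar m r := fun a l hl => hy a l (lt_of_lt_of_le hl h)

theorem mem_Ar_succ (m : ι → ℕ) (hm : ∀ a, 1 ≤ m a) {r : ℕ} {y : ι → PowerSeries ℂ}
    (hy : y ∈ Ar m r) : y ∈ Ar m (r + 1) ↔ ls m r y = 0 := by
  constructor
  · intro h
    funext a
    simp only [ls, Pi.zero_apply]
    split_ifs with ha
    · apply h a
      rw [Nat.div_mul_cancel ha]
      exact Nat.lt_succ_self r
    · rfl
  · intro h a l hl
    rcases Nat.lt_or_ge (l * m a) r with h1 | h1
    · exact hy a l h1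
    · have h2 : l * m a = r := by omega
      have h3 := congrFun h a
      simp only [ls, Pi.zero_apply] at h3
      rw [if_pos (Dvd.intro_left l h2), ← h2, Nat.mul_div_cancel _ (hm a)] at h3
      exact h3

theorem exists_slope (m : ι → ℕ) (hm : ∀ a, 1 ≤ m a) {y : ι → PowerSeries ℂ}
    (h1 : y ∈ Ar m 1) (n : ℕ) (hn : y ∉ Ar m (n + 1)) :
    ∃ r, 1 ≤ r ∧ r < n + 1 ∧ y ∈ Ar m r ∧ ls m r y ≠ 0 := by
  induction n with
  | zero => exact absurd h1 hn
  | succ n ih =>
    by_cases h2 : y ∈ Ar m (n + 1)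
    · refine ⟨n + 1, by omega, by omega, h2, ?_⟩
      intro h3
      exact hn ((mem_Ar_succ m hm h2).2 h3)
    · obtain ⟨r, hr1, hr2, hr3, hr4⟩ := ih h2
      exact ⟨r, hr1, by omega, hr3, hr4⟩

theorem slope_unique (m : ι → ℕ) (hm : ∀ a, 1 ≤ m a) {y : ι → PowerSeries ℂ} {r r' : ℕ}
    (h1 : y ∈ Ar m r) (h2 : ls m r y ≠ 0) (h3 : y ∈ Ar m r') : r' ≤ r := by
  by_contra h
  push Not at h
  exact h2 ((mem_Ar_succ m hm h1).1 (Ar_anti m h h3))

theorem ls_off (m : ι → ℕ) (r : ℕ) (y : ι → PowerSeries ℂ) : Off m r (ls m r y) := by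
  intro a ha
  simp only [ls, if_neg ha]

theorem weight_of_mem (w : ι → ℕ) (D : ℕ) (F : MvPolynomial ι ℂ) {d : ι →₀ ℕ}
    (hd : d ∈ (ini w D F).support) : ∑ a, d a * w a = D := by
  classical
  rw [mem_support_iff, ini, coeff_weightedHomogeneousComponent] at hd
  by_contra h
  apply hd
  rw [if_neg]
  intro h1
  apply h
  rw [← h1, Finsupp.weight_apply, Finsupp.sum_fintype]
  · simp only [smul_eq_mul]
  · intro a
    simp

theorem ini_off (w m : ι → ℕ) (M D : ℕ) (F : MvPolynomial ι ℂ) (hwm : ∀ a, w a * m a = M)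
    (r : ℕ) (hr : ¬ M ∣ r * D) {z : ι → ℂ} (hz : Off m r z) : eval z (ini w D F) = 0 := by
  classical
  rw [eval_eq']
  refine Finset.sum_eq_zero fun d hd => ?_
  have hw := weight_of_mem w D F hd
  by_contra h
  apply hr
  have h1 : ∀ a, d a ≠ 0 → m a ∣ r := by
    intro a ha
    by_contra hma
    apply h
    have h2 : z a ^ d a = 0 := by rw [hz a hma, zero_pow ha]
    rw [Finset.prod_eq_zero (Finset.mem_univ a) h2, mul_zero]
  rw [← hw, Finset.mul_sum]
  refine Finset.dvd_sum fun a _ => ?_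
  by_cases ha : d a = 0
  · rw [ha, zero_mul, mul_zero]
    exact dvd_zero _
  · obtain ⟨q, hq⟩ := h1 a ha
    rw [← hwm a, hq]
    exact ⟨q * d a, by ring⟩

theorem ini_zero (w : ι → ℕ) (D : ℕ) (F : MvPolynomial ι ℂ) (hD : 1 ≤ D) :
    eval (0 : ι → ℂ) (ini w D F) = 0 := by
  classical
  rw [eval_eq']
  refine Finset.sum_eq_zero fun d hd => ?_
  have hw := weight_of_mem w D F hd
  have h1 : ∃ a, d a ≠ 0 := by
    by_contra h
    push Not at h
    rw [Finset.sum_eq_zero fun a _ => by rw [h a, zero_mul]] at hw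
    omega
  obtain ⟨a, ha⟩ := h1
  have h2 : (0 : ι → ℂ) a ^ d a = 0 := by rw [Pi.zero_apply, zero_pow ha]
  rw [Finset.prod_eq_zero (Finset.mem_univ a) h2, mul_zero]

theorem con_off (m : ι → ℕ) (r : ℕ) : Constructible {z : ι → ℂ | Off m r z} := by
  refine Constructible.all fun a => Constructible.imp (Constructible.const _) ?_
  have h := Constructible.zero (X a : MvPolynomial ι ℂ)
  simpa only [eval_X] using h

theorem con_ne : Constructible {z : ι → ℂ | z ≠ 0} :=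
  Constructible.not (Constructible.point 0)

theorem con_zc (w m : ι → ℕ) (D : ℕ) (F : MvPolynomial ι ℂ) (r : ℕ) :
    Constructible {z : ι → ℂ | Off m r z ∧ z ≠ 0 ∧ eval z (ini w D F) = 0} :=
  Constructible.and (con_off m r) (Constructible.and con_ne (Constructible.zero _))

/-- arcs with `y ∈ Ar m (x + 1)` -/
theorem vol_Ar [Finite E] (P : HodgeMeasure) (m : ι → ℕ) (hm : ∀ a, 1 ≤ m a) (x : ℕ)
    {B : Set (E → ℂ)} (hB : Constructible B) :
    vol P.rat xq {z : (E → ℂ) × (ι → PowerSeries ℂ) | z.1 ∈ B ∧ z.2 ∈ Ar m (x + 1)} =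
      xq ^ (∑ a, (x / m a + 1)) * P.rat.val B := by
  classical
  have hL := VAAux.L_mul P
  have hlt : ∀ a l, l * m a < x + 1 ↔ l < x / m a + 1 := by
    intro a l
    rw [Nat.lt_succ_iff, Nat.lt_succ_iff, Nat.le_div_iff_mul_le (hm a)]
  have hcy : Cy {z : (E → ℂ) × (ι → PowerSeries ℂ) | z.1 ∈ B ∧ z.2 ∈ Ar m (x + 1)} :=
    Cy.and (Cy.param hB) (Cy_Ar m hm (x + 1))
  have hc : IsCyl (fun a => x / m a + 1)
      {z : (E → ℂ) × (ι → PowerSeries ℂ) | z.1 ∈ B ∧ z.2 ∈ Ar m (x + 1)} := by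
    refine ⟨fun p y y' hyy => ?_, O5Aux.con_sec hcy _⟩
    refine and_congr Iff.rfl ?_
    change (∀ a l, l * m a < x + 1 → PowerSeries.coeff l (y a) = 0) ↔
      (∀ a l, l * m a < x + 1 → PowerSeries.coeff l (y' a) = 0)
    refine forall_congr' fun a => forall_congr' fun l => ?_
    refine imp_congr_right fun hl => ?_
    rw [hyy a l ((hlt a l).1 hl)]
  rw [vol_eq P.rat hL hc, mul_comm]
  congr 1
  refine P.rat.val_of_inv hc.2 hB (fun p => X (Sum.inl p)) (fun y => Sum.elim y fun _ => 0)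
    ?_ ?_ ?_ ?_
  · rintro v ⟨h1, -⟩
    simpa only [eval_X] using h1
  · intro y hy
    refine ⟨hy, fun a l _ => ?_⟩
    dsimp only
    rw [coeff_toArc]
    split_ifs <;> rfl
  · rintro v ⟨-, h2⟩
    funext s
    rcases s with p | ⟨a, l⟩
    · simp only [Sum.elim_inl, eval_X]
    · have h3 := h2 a l ((hlt a l).2 l.2)
      rw [coeff_toArc, dif_pos l.2] at h3
      simp only [Sum.elim_inr]
      exact h3.symm
  · intro y _
    funext p
    simp only [eval_X, Sum.elim_inl]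

/-! ### The exact part -/

/-- the part of `EXl` of slope `r` -/
def EXr (m : ι → ℕ) (F : MvPolynomial ι ℂ) (i : ℕ) (R : Set (E ⊕ Unit → ℂ)) (r : ℕ) :
    Set ((E → ℂ) × (ι → PowerSeries ℂ)) :=
  {z | z ∈ EXl F i R ∧ z.2 ∈ Ar m r ∧ ls m r z.2 ≠ 0}

theorem RF_ex (F : MvPolynomial ι ℂ) (i : ℕ) (s : E ⊕ Unit) :
    RF fun z : (E → ℂ) × (ι → PowerSeries ℂ) =>
      Sum.elim z.1 (fun _ => PowerSeries.coeff i (aeval z.2 F)) s := by
  rcases s with p | u
  · exact RF.par p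
  · exact RF.coef F i

theorem Cy_EXl [Finite E] (F : MvPolynomial ι ℂ) (i : ℕ) {R : Set (E ⊕ Unit → ℂ)}
    (hR : Constructible R) : Cy (EXl F i R) := by
  refine Cy.and ?_ (Cy.and (Cy.all_lt i fun l _ => Cy.zero (RF.coef F l)) (Cy.mem hR (RF_ex F i)))
  have h := Cy_all_finset (E := E) (ι := ι) Finset.univ
    (S := fun a z => PowerSeries.coeff 0 (z.2 a) = 0) (fun a _ => Cy.zero (RF.arc a 0))
  simpa only [Finset.mem_univ, true_implies] using h

theorem Cy_EXr [Finite E] (m : ι → ℕ) (hm : ∀ a, 1 ≤ m a) (F : MvPolynomial ι ℂ) (i : ℕ)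
    {R : Set (E ⊕ Unit → ℂ)} (hR : Constructible R) (r : ℕ) : Cy (EXr m F i R r) :=
  Cy.and (Cy_EXl F i hR) (Cy.and (Cy_Ar m hm r) (Cy_ls_ne m r))

theorem mem_Ar_one (m : ι → ℕ) (hm : ∀ a, 1 ≤ m a) {y : ι → PowerSeries ℂ} :
    y ∈ Ar m 1 ↔ ∀ a, PowerSeries.coeff 0 (y a) = 0 := by
  constructor
  · intro h a
    exact h a 0 (by omega)
  · intro h a l hl
    have h1 : l ≤ l * m a := Nat.le_mul_of_pos_right l (hm a)
    have h2 : l = 0 := by omega
    rw [h2]
    exact h a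

/-- parameters and leading form in `R` -/
def R0 (w m : ι → ℕ) (D r : ℕ) (F : MvPolynomial ι ℂ) (R : Set (E ⊕ Unit → ℂ)) :
    Set (E ⊕ ι → ℂ) :=
  {u | (Off m r fun a => u (Sum.inr a)) ∧ Sum.elim (fun p => u (Sum.inl p))
    (fun _ => eval (fun a => u (Sum.inr a)) (ini w D F)) ∈ R}

theorem con_R0 (w m : ι → ℕ) (D r : ℕ) (F : MvPolynomial ι ℂ) {R : Set (E ⊕ Unit → ℂ)}
    (hR : Constructible R) : Constructible (R0 w m D r F R) := by
  refine Constructible.and (Constructible.comap Sum.inr (con_off m r)) ?_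
  have h := Constructible.preimage (ι := E ⊕ ι) (Sum.elim (fun p => X (Sum.inl p))
    (fun _ : Unit => (rename Sum.inr (ini w D F) : MvPolynomial (E ⊕ ι) ℂ))) hR
  have e : ∀ u : E ⊕ ι → ℂ, (fun j => eval u (Sum.elim (fun p => X (Sum.inl p))
      (fun _ : Unit => (rename Sum.inr (ini w D F) : MvPolynomial (E ⊕ ι) ℂ)) j)) =
      Sum.elim (fun p => u (Sum.inl p)) (fun _ => eval (fun a => u (Sum.inr a)) (ini w D F)) := by
    intro u
    funext s
    rcases s with p | s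
    · simp only [Sum.elim_inl, eval_X]
    · simp only [Sum.elim_inr, eval_rename]
      rfl
  simpa only [e] using h

/-- parameters in `B`, leading coefficients a nonzero zero of the leading form -/
def R1 (w m : ι → ℕ) (D r : ℕ) (F : MvPolynomial ι ℂ) (B : Set (E → ℂ)) : Set (E ⊕ ι → ℂ) :=
  {u | (fun p => u (Sum.inl p)) ∈ B ∧ (fun a => u (Sum.inr a)) ∈
    {z : ι → ℂ | Off m r z ∧ z ≠ 0 ∧ eval z (ini w D F) = 0}}

theorem con_R1 (w m : ι → ℕ) (D r : ℕ) (F : MvPolynomial ι ℂ) {B : Set (E → ℂ)}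
    (hB : Constructible B) : Constructible (R1 w m D r F B) :=
  Constructible.prodSet hB (con_zc w m D F r)

theorem val_R1 [Finite E] (P : HodgeMeasure) (w m : ι → ℕ) (D r : ℕ) (F : MvPolynomial ι ℂ)
    {B : Set (E → ℂ)} (hB : Constructible B) :
    P.rat.val (R1 w m D r F B) = zc P w m D F r * P.rat.val B := by
  rw [mul_comm]
  exact P.rat.val_prod hB (con_zc w m D F r)

end

section main

variable {E ι : Type} [Fintype ι] [DecidableEq ι] [Finite E]

theorem vol_EXr_eq (hA : Stmt_LA) (hB : Stmt_LB) (P : HodgeMeasure) (w m : ι → ℕ) (M D : ℕ)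
    (F : MvPolynomial ι ℂ) (hSQ : SQ w D F) (hM : 1 ≤ M) (hwm : ∀ a, w a * m a = M)
    (hm : ∀ a, 1 ≤ m a) {R : Set (E ⊕ Unit → ℂ)} (hR : Constructible R)
    (hR0 : ∀ u ∈ R, u (Sum.inr ()) ≠ 0) (i r : ℕ) (hr : 1 ≤ r) (h : r * D = M * i) :
    vol P.rat xq (EXr m F i R r) = xq ^ (∑ a, (r / m a + 1)) * lc0 P w m D F r R := by
  have hD := hSQ.2.1
  have e : EXr m F i R r = DNr m M D r F (R0 w m D r F R) (fun _ => 0) 0 := by
    ext z
    constructor
    · rintro ⟨⟨h1, h2, h3⟩, h4, h5⟩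
      refine ⟨h4, ⟨ls_off m r z.2, ?_⟩, ?_⟩
      · have h6 := (hA ι w m M D F hSQ hM hwm r hr z.2 h4).2.1 i (by rw [h, mul_comm])
        rw [h6] at h3
        exact h3
      · intro l hl hl'
        have : l = 0 := by omega
        rw [this] at hl'
        omega
    · rintro ⟨h1, ⟨h2, h3⟩, h4⟩
      have hLA := hA ι w m M D F hSQ hM hwm r hr z.2 h1
      have h6 := hLA.2.1 i (by rw [h, mul_comm])
      have h3' : Sum.elim z.1 (fun _ => eval (ls m r z.2) (ini w D F)) ∈ R := h3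
      refine ⟨⟨(mem_Ar_one m hm).1 (Ar_anti m hr h1), ?_, ?_⟩, h1, ?_⟩
      · intro l hl
        apply hLA.1
        rw [h, mul_comm M i]
        exact Nat.mul_lt_mul_of_pos_right hl hM
      · rw [h6]
        exact h3'
      · intro h0
        have h7 := hR0 _ h3'
        apply h7
        simp only [Sum.elim_inr]
        rw [h0]
        exact ini_zero w D F hD
  rw [e, (hB P ι w m M D F hSQ hM hwm r hr E (R0 w m D r F R) (con_R0 w m D r F hR)
    (fun u hu => hu.1) (fun _ => 0) 0).1 (by rw [zero_mul]; exact Nat.zero_le _)]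
  rfl

theorem ls_zero (hA : Stmt_LA) (w m : ι → ℕ) (M D : ℕ)
    (F : MvPolynomial ι ℂ) (hSQ : SQ w D F) (hM : 1 ≤ M) (hwm : ∀ a, w a * m a = M)
    (r : ℕ) (hr : 1 ≤ r) {y : ι → PowerSeries ℂ} (hy : y ∈ Ar m r)
    (h : M ∣ r * D → PowerSeries.coeff (r * D / M) (aeval y F) = 0) :
    eval (ls m r y) (ini w D F) = 0 := by
  by_cases hd : M ∣ r * D
  · rw [← (hA ι w m M D F hSQ hM hwm r hr y hy).2.1 (r * D / M) (Nat.div_mul_cancel hd)]
    exact h hd
  · exact ini_off w m M D F hwm r hd (ls_off m r y)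

theorem sq_ex {w : ι → ℕ} {D : ℕ} {F : MvPolynomial ι ℂ} (hSQ : SQ w D F) {z : ι → ℂ}
    (hz : z ≠ 0) : ∃ j, eval z (pderiv j (ini w D F)) ≠ 0 := by
  by_contra h
  push Not at h
  exact hz ((hSQ.2.2.2 z).1 h)

theorem vol_EXr_lt (hA : Stmt_LA) (hB : Stmt_LB) (P : HodgeMeasure) (w m : ι → ℕ) (M D : ℕ)
    (F : MvPolynomial ι ℂ) (hSQ : SQ w D F) (hM : 1 ≤ M) (hwm : ∀ a, w a * m a = M)
    (hm : ∀ a, 1 ≤ m a) {R : Set (E ⊕ Unit → ℂ)} (hR : Constructible R)
    (i r : ℕ) (hr : 1 ≤ r) (h : r * D < M * i) :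
    vol P.rat xq (EXr m F i R r) = xq ^ (∑ a, (r / m a + 1) + (i - r * D / M)) *
      zc P w m D F r * P.rat.val R := by
  have hR1 := con_R1 (E := E ⊕ Unit) w m D r F hR
  have hcoef : ∀ l, l < i → (PowerSeries.coeff l (aeval (0 : ι → PowerSeries ℂ) F) =
      PowerSeries.coeff l (aeval (0 : ι → PowerSeries ℂ) F)) := fun _ _ => rfl
  have hd : r * D / M < i := by
    rw [Nat.div_lt_iff_lt_mul hM, mul_comm i M]
    exact h
  obtain ⟨B, hBd⟩ : ∃ B : ℕ → MvPolynomial ((E ⊕ Unit) ⊕ ι) ℂ,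
      B = fun l => if l = i then X (Sum.inl (Sum.inr ())) else 0 := ⟨_, rfl⟩
  have e1 := (hB P ι w m M D F hSQ hM hwm r hr (E ⊕ Unit) (R1 w m D r F R) hR1
    (fun u hu => hu.2.1) B i).2 (fun u hu => sq_ex hSQ hu.2.2.1) hd.le
  rw [val_R1 P w m D r F hR, ← mul_assoc] at e1
  rw [← e1]
  symm
  refine vol_base P (Cy_DNr m hm M D r F hR1 B i) (Cy_EXr m hm F i hR r) Sum.inl ?_ ?_ ?_
  · rintro z ⟨h1, ⟨h2, h3⟩, h4⟩
    have hLA := hA ι w m M D F hSQ hM hwm r hr z.2 h1
    have h5 := h4 i le_rfl (by rw [mul_comm i M]; exact h)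
    rw [hBd] at h5
    simp only [if_true, eval_X] at h5
    refine ⟨⟨(mem_Ar_one m hm).1 (Ar_anti m hr h1), ?_, ?_⟩, h1, h3.2.1⟩
    · intro l hl
      dsimp only
      rcases lt_trichotomy (l * M) (r * D) with h6 | h6 | h6
      · exact hLA.1 l h6
      · rw [hLA.2.1 l h6]
        exact h3.2.2
      · have h7 := h4 l hl.le h6
        rw [hBd] at h7
        simp only [if_neg hl.ne, map_zero] at h7
        exact h7
    · dsimp only
      rw [h5]
      have h8 : (Sum.elim (fun e => z.1 (Sum.inl e)) (fun _ : Unit => bsr m r z (Sum.inl (Sum.inr ())))) =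
          fun p => bsr m r z (Sum.inl p) := by
        funext s
        rcases s with s | s
        · rfl
        · rfl
      rw [h8]
      exact h2
  · rintro z ⟨-, -, h4⟩ z' ⟨-, -, h4'⟩ h5 h6
    have h7 := h4 i le_rfl (by rw [mul_comm i M]; exact h)
    have h8 := h4' i le_rfl (by rw [mul_comm i M]; exact h)
    rw [hBd] at h7 h8
    simp only [if_true, eval_X] at h7 h8
    rw [h6, h8] at h7
    funext s
    rcases s with s | s
    · exact congrFun h5 s
    · exact h7.symm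
  · rintro ⟨p, y⟩ ⟨⟨h1, h2, h3⟩, h4, h5⟩
    refine ⟨Sum.elim p (fun _ => PowerSeries.coeff i (aeval y F)), rfl, h4, ⟨h3, ?_⟩, ?_⟩
    · refine ⟨ls_off m r y, h5, ?_⟩
      exact ls_zero hA w m M D F hSQ hM hwm r hr h4 fun _ => h2 _ hd
    · intro l hl h6
      rw [hBd]
      by_cases hli : l = i
      · simp only [if_pos hli, eval_X]
        rw [hli]
        rfl
      · simp only [if_neg hli, map_zero]
        exact h2 l (lt_of_le_of_ne hl hli)

theorem EXr_gt (hA : Stmt_LA) (w m : ι → ℕ) (M D : ℕ)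
    (F : MvPolynomial ι ℂ) (hSQ : SQ w D F) (hM : 1 ≤ M) (hwm : ∀ a, w a * m a = M)
    {R : Set (E ⊕ Unit → ℂ)} (hR0 : ∀ u ∈ R, u (Sum.inr ()) ≠ 0)
    (i r : ℕ) (hr : 1 ≤ r) {z : (E → ℂ) × (ι → PowerSeries ℂ)} (hz : z ∈ EXl F i R)
    (hy : z.2 ∈ Ar m r) : ¬ M * i < r * D := by
  intro h
  have h1 := (hA ι w m M D F hSQ hM hwm r hr z.2 hy).1 i (by rw [mul_comm i M]; exact h)
  exact hR0 _ hz.2.2 h1

/-! ### The tail part -/

/-- the part of `TLl` of slope `r` -/
def TLr (m : ι → ℕ) (F : MvPolynomial ι ℂ) (i : ℕ) (B : Set (E → ℂ)) (r : ℕ) :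
    Set ((E → ℂ) × (ι → PowerSeries ℂ)) :=
  {z | z ∈ TLl F i B ∧ z.2 ∈ Ar m r ∧ ls m r z.2 ≠ 0}

theorem Cy_TLl (F : MvPolynomial ι ℂ) (i : ℕ) {B : Set (E → ℂ)}
    (hB : Constructible B) : Cy (TLl F i B) := by
  refine Cy.and (Cy.param hB) (Cy.and ?_ ?_)
  · have h := Cy_all_finset (E := E) (ι := ι) Finset.univ
      (S := fun a z => PowerSeries.coeff 0 (z.2 a) = 0) (fun a _ => Cy.zero (RF.arc a 0))
    simpa only [Finset.mem_univ, true_implies] using h
  · have h := Cy.all_lt (E := E) (ι := ι) (i + 1)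
      (S := fun l z => PowerSeries.coeff l (aeval z.2 F) = 0)
      (fun l _ => Cy.zero (RF.coef F l))
    simpa only [Nat.lt_succ_iff] using h

theorem Cy_TLr (m : ι → ℕ) (hm : ∀ a, 1 ≤ m a) (F : MvPolynomial ι ℂ) (i : ℕ)
    {B : Set (E → ℂ)} (hB : Constructible B) (r : ℕ) : Cy (TLr m F i B r) :=
  Cy.and (Cy_TLl F i hB) (Cy.and (Cy_Ar m hm r) (Cy_ls_ne m r))

theorem vol_TLr (hA : Stmt_LA) (hB : Stmt_LB) (P : HodgeMeasure) (w m : ι → ℕ) (M D : ℕ)
    (F : MvPolynomial ι ℂ) (hSQ : SQ w D F) (hM : 1 ≤ M) (hwm : ∀ a, w a * m a = M)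
    (hm : ∀ a, 1 ≤ m a) {B : Set (E → ℂ)} (hBc : Constructible B)
    (i r : ℕ) (hr : 1 ≤ r) (h : r * D ≤ M * i) :
    vol P.rat xq (TLr m F i B r) = xq ^ (∑ a, (r / m a + 1) + (i - r * D / M)) *
      zc P w m D F r * P.rat.val B := by
  have hd : r * D / M ≤ i := by
    calc r * D / M ≤ M * i / M := Nat.div_le_div_right h
      _ = i := Nat.mul_div_cancel_left _ hM
  have e : TLr m F i B r = DNr m M D r F (R1 w m D r F B) (fun _ => 0) i := by
    ext z
    constructor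
    · rintro ⟨⟨h1, h2, h3⟩, h4, h5⟩
      refine ⟨h4, ⟨h1, ls_off m r z.2, h5, ?_⟩, ?_⟩
      · exact ls_zero hA w m M D F hSQ hM hwm r hr h4 fun _ => h3 _ hd
      · intro l hl _
        rw [map_zero]
        exact h3 l hl
    · rintro ⟨h1, ⟨h2, h3⟩, h4⟩
      have hLA := hA ι w m M D F hSQ hM hwm r hr z.2 h1
      refine ⟨⟨h2, (mem_Ar_one m hm).1 (Ar_anti m hr h1), ?_⟩, h1, h3.2.1⟩
      intro l hl
      rcases lt_trichotomy (l * M) (r * D) with h6 | h6 | h6
      · exact hLA.1 l h6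
      · rw [hLA.2.1 l h6]
        exact h3.2.2
      · have h7 := h4 l hl h6
        rw [map_zero] at h7
        exact h7
  rw [e, (hB P ι w m M D F hSQ hM hwm r hr E (R1 w m D r F B) (con_R1 w m D r F hBc)
    (fun u hu => hu.2.1) (fun _ => 0) i).2 (fun u hu => sq_ex hSQ hu.2.2.1) hd,
    val_R1 P w m D r F hBc, mul_assoc]

end main

end LCAux

open LCAux VGAux in
/-- Block LC. -/
theorem stmt_LC (hA : Stmt_LA) (hB : Stmt_LB) : Stmt_LC := by
  classical
  intro P ι _ _ w m M D F hSQ hM hwm E _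
  have hD : 1 ≤ D := hSQ.2.1
  have hm : ∀ a, 1 ≤ m a := by
    intro a
    rcases Nat.eq_zero_or_pos (m a) with h0 | h0
    · have := hwm a
      rw [h0, mul_zero] at this
      omega
    · exact h0
  refine ⟨?_, ?_⟩
  · intro R hR hR0 i hi
    have e1 : EXl F i R = ⋃ r ∈ Finset.Ico 1 (M * i + 1), EXr m F i R r := by
      ext z
      simp only [Set.mem_iUnion, Finset.mem_Ico]
      constructor
      · intro hz
        obtain ⟨r, h1, h2, h3, h4⟩ := exists_slope m hm ((mem_Ar_one m hm).2 hz.1) (M * i) (by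
          intro h5
          apply EXr_gt hA w m M D F hSQ hM hwm hR0 i (M * i + 1) (by omega) hz h5
          calc M * i < M * i + 1 := Nat.lt_succ_self _
            _ ≤ (M * i + 1) * D := Nat.le_mul_of_pos_right _ hD)
        exact ⟨r, ⟨h1, h2⟩, hz, h3, h4⟩
      · rintro ⟨r, -, hz, -⟩
        exact hz
    rw [e1, vol_biU P (Finset.Ico 1 (M * i + 1)) (fun r _ => Cy_EXr m hm F i hR r) (by
      intro r _ r' _ hne
      rw [Set.disjoint_left]
      rintro z ⟨-, h1, h2⟩ ⟨-, h3, h4⟩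
      exact hne (le_antisymm (slope_unique m hm h3 h4 h1) (slope_unique m hm h1 h2 h3)))]
    have e2 : ∀ r ∈ Finset.Ico 1 (M * i + 1), vol P.rat xq (EXr m F i R r) =
        (if r * D = M * i then xq ^ (∑ a, (r / m a + 1)) * lc0 P w m D F r R else 0) +
        (if r * D < M * i then xq ^ (∑ a, (r / m a + 1) + (i - r * D / M)) *
          zc P w m D F r else 0) * P.rat.val R := by
      intro r hr
      have hr1 := (Finset.mem_Ico.1 hr).1
      rcases lt_trichotomy (r * D) (M * i) with h | h | h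
      · rw [if_neg h.ne, if_pos h, zero_add]
        exact vol_EXr_lt hA hB P w m M D F hSQ hM hwm hm hR i r hr1 h
      · rw [if_pos h, if_neg h.not_lt, zero_mul, add_zero]
        exact vol_EXr_eq hA hB P w m M D F hSQ hM hwm hm hR hR0 i r hr1 h
      · rw [if_neg h.ne', if_neg (not_lt.2 h.le), zero_mul, add_zero]
        have e3 : EXr m F i R r = ∅ := by
          rw [Set.eq_empty_iff_forall_notMem]
          rintro z ⟨hz, h4, -⟩
          exact EXr_gt hA w m M D F hSQ hM hwm hR0 i r hr1 hz h4 h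
        rw [e3, vol_empty P.rat (VAAux.L_mul P)]
    rw [Finset.sum_congr rfl e2, Finset.sum_add_distrib, ← Finset.sum_mul]
    congr 1
    by_cases hd : D ∣ M * i
    · rw [if_pos hd]
      have h1 : 1 ≤ M * i / D := by
        rw [Nat.one_le_div_iff (by omega)]
        exact Nat.le_of_dvd (by positivity) hd
      rw [Finset.sum_eq_single (M * i / D)]
      · rw [if_pos (Nat.div_mul_cancel hd)]
      · intro r _ hr
        rw [if_neg]
        intro h2
        apply hr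
        rw [← h2, Nat.mul_div_cancel _ (by omega)]
      · intro h2
        exfalso
        apply h2
        rw [Finset.mem_Ico]
        exact ⟨h1, Nat.lt_succ_of_le (Nat.div_le_self _ _)⟩
    · rw [if_neg hd]
      refine Finset.sum_eq_zero fun r _ => ?_
      rw [if_neg]
      intro h2
      apply hd
      rw [← h2]
      exact Dvd.intro_left r rfl
  · intro B hBc i
    have hx : M * i < (M * i / D + 1) * D := by
      have h1 := Nat.lt_succ_self (M * i / D)
      exact (Nat.div_lt_iff_lt_mul (show 0 < D from hD)).1 h1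
    have e1 : TLl F i B = {z : (E → ℂ) × (ι → PowerSeries ℂ) | z.1 ∈ B ∧
        z.2 ∈ Ar m (M * i / D + 1)} ∪ ⋃ r ∈ Finset.Ico 1 (M * i / D + 1), TLr m F i B r := by
      ext z
      simp only [Set.mem_union, Set.mem_iUnion, Finset.mem_Ico]
      constructor
      · intro hz
        by_cases h5 : z.2 ∈ Ar m (M * i / D + 1)
        · exact Or.inl ⟨hz.1, h5⟩
        · right
          obtain ⟨r, h1, h2, h3, h4⟩ := exists_slope m hm ((mem_Ar_one m hm).2 hz.2.1)
            (M * i / D) h5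
          exact ⟨r, ⟨h1, h2⟩, hz, h3, h4⟩
      · rintro (⟨h1, h2⟩ | ⟨r, -, hz, -⟩)
        · refine ⟨h1, (mem_Ar_one m hm).1 (Ar_anti m (Nat.le_add_left 1 _) h2), fun l hl => ?_⟩
          apply (hA ι w m M D F hSQ hM hwm (M * i / D + 1) (Nat.le_add_left 1 _) z.2 h2).1 l
          calc l * M ≤ i * M := Nat.mul_le_mul_right M hl
            _ = M * i := mul_comm _ _
            _ < _ := hx
        · exact hz
    have c1 : Cy {z : (E → ℂ) × (ι → PowerSeries ℂ) | z.1 ∈ B ∧ z.2 ∈ Ar m (M * i / D + 1)} :=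
      Cy.and (Cy.param hBc) (Cy_Ar m hm _)
    have c2 : ∀ r ∈ Finset.Ico 1 (M * i / D + 1), Cy (TLr m F i B r) :=
      fun r _ => Cy_TLr m hm F i hBc r
    rw [e1, vol_uni P c1 (Cy.biUnion _ c2), vol_Ar P m hm _ hBc, vol_biU P _ c2, add_mul]
    · congr 1
      have e2 : ∀ r ∈ Finset.Ico 1 (M * i / D + 1), vol P.rat xq (TLr m F i B r) =
          (xq ^ (∑ a, (r / m a + 1) + (i - r * D / M)) * zc P w m D F r) * P.rat.val B := by
        intro r hr
        have hr' := Finset.mem_Ico.1 hr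
        refine vol_TLr hA hB P w m M D F hSQ hM hwm hm hBc i r hr'.1 ?_
        exact (Nat.le_div_iff_mul_le (by omega)).1 (Nat.lt_succ_iff.1 hr'.2)
      rw [Finset.sum_congr rfl e2, ← Finset.sum_mul]
      congr 1
      rw [← Finset.sum_filter]
      refine Finset.sum_congr ?_ fun _ _ => rfl
      ext r
      rw [Finset.mem_filter, Finset.mem_Ico, Finset.mem_Ico, Nat.lt_succ_iff,
        Nat.le_div_iff_mul_le (by omega)]
      constructor
      · rintro ⟨h1, h2⟩
        have h3 : r ≤ r * D := Nat.le_mul_of_pos_right r hD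
        exact ⟨⟨h1, by omega⟩, h2⟩
      · rintro ⟨⟨h1, -⟩, h2⟩
        exact ⟨h1, h2⟩
    · intro r _ r' _ hne
      rw [Set.disjoint_left]
      rintro z ⟨-, h1, h2⟩ ⟨-, h3, h4⟩
      exact hne (le_antisymm (slope_unique m hm h3 h4 h1) (slope_unique m hm h1 h2 h3))
    · rw [Set.disjoint_left]
      rintro z ⟨-, h1⟩ h2
      simp only [Set.mem_iUnion, Finset.mem_Ico] at h2
      obtain ⟨r, ⟨-, hr⟩, -, h3, h4⟩ := h2
      have := slope_unique m hm h3 h4 h1
      omega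

end Pool.Agent.Mono.RO
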