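import Pool.Agent.Work.Monodromy6.InterfaceSQ
import Pool.Agent.Work.Monodromy4.Q1
import Pool.Agent.Work.Monodromy4.Q3

/-!
# Block LD: the sequences of the local distribution
-/

set_option autoImplicit false

namespace Pool.Agent.Mono.RO

open MvPolynomial TS

namespace LDAux

/-- Sequences which are periodic up to the factor `xq ^ ν`. -/
theorem per {Λ : Set ℚ} {κ : ℕ → K} (D ν i1 : ℕ) (hD : 1 ≤ D) (hΛ : ((ν : ℚ) / (D : ℚ)) ∈ Λ)
    (h : ∀ i, i1 ≤ i → κ (i + D) = xq ^ ν * κ i) : ESeq Λ κ := by
  refine ⟨[(D, ν)], PowerSeries.trunc (i1 + D) ((1 - PowerSeries.C (xq ^ ν) * PowerSeries.X ^ D) *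
    PowerSeries.mk κ), ?_, ?_⟩
  · intro q hq
    rw [List.mem_singleton] at hq
    subst hq
    exact ⟨hD, hΛ⟩
  · rw [Q1Aux.denP_cons, Q1Aux.denP_nil, mul_one]
    ext n
    rw [Polynomial.coe_sub, Polynomial.coe_one, Polynomial.coe_mul, Polynomial.coe_C,
      Polynomial.coe_pow, Polynomial.coe_X, Polynomial.coeff_coe, PowerSeries.coeff_trunc]
    split_ifs with hn
    · rfl
    · have hn' : i1 + D ≤ n := not_lt.1 hn
      obtain ⟨i, rfl⟩ : ∃ i, n = i + D := ⟨n - D, by omega⟩
      rw [sub_mul, one_mul, map_sub, mul_assoc, PowerSeries.coeff_C_mul,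
        PowerSeries.coeff_X_pow_mul, PowerSeries.coeff_mk, PowerSeries.coeff_mk,
        h i (by omega), sub_self]

/-- The sum over the `r` with `r D / M = j`. -/
noncomputable def gs (M D : ℕ) (h : ℕ → K) (j : ℕ) : K :=
  ∑ r ∈ (Finset.Ico 1 ((j + 1) * M)).filter (fun r => r * D / M = j), h r

theorem gs_per (M D ν : ℕ) (hM : 1 ≤ M) (hD : 1 ≤ D) (h : ℕ → K)
    (hh : ∀ r, 1 ≤ r → h (r + M) = xq ^ ν * h r) (j : ℕ) (hj : 1 ≤ j) :
    gs M D h (j + D) = xq ^ ν * gs M D h j := by
  have key : ∀ r, (r + M) * D / M = r * D / M + D := by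
    intro r
    rw [add_mul, Nat.add_mul_div_left _ _ (by omega)]
  unfold gs
  rw [Finset.mul_sum]
  symm
  refine Finset.sum_bij (fun r _ => r + M) ?_ ?_ ?_ ?_
  · intro r hr
    rw [Finset.mem_filter, Finset.mem_Ico] at hr ⊢
    refine ⟨⟨by omega, ?_⟩, ?_⟩
    · have : M ≤ D * M := Nat.le_mul_of_pos_left M (by omega)
      nlinarith [hr.1.2]
    · rw [key, hr.2]
  · intro a _ b _ hab
    exact Nat.add_right_cancel hab
  · intro r hr
    rw [Finset.mem_filter, Finset.mem_Ico] at hr
    have hlt : M < r := by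
      by_contra hle
      push Not at hle
      have h1 : r * D / M ≤ D := by
        apply Nat.div_le_of_le_mul
        exact Nat.mul_le_mul_right D hle
      rw [hr.2] at h1
      omega
    refine ⟨r - M, ?_, by omega⟩
    obtain ⟨s, rfl⟩ : ∃ s, r = s + M := ⟨r - M, by omega⟩
    rw [Nat.add_sub_cancel, Finset.mem_filter, Finset.mem_Ico]
    rw [key] at hr
    have h2 : s * D / M = j := by omega
    refine ⟨⟨by omega, ?_⟩, h2⟩
    have h3 : s * D < (j + 1) * M := by
      rw [← Nat.div_lt_iff_lt_mul (by omega), h2]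
      omega
    have h4 : s ≤ s * D := Nat.le_mul_of_pos_right s (by omega)
    omega
  · intro r hr
    rw [Finset.mem_filter, Finset.mem_Ico] at hr
    exact (hh r hr.1.1).symm

theorem sum_eq (M D : ℕ) (hM : 1 ≤ M) (hD : 1 ≤ D) (h : ℕ → K) (i : ℕ) :
    (∑ r ∈ Finset.Ico 1 (M * i + 1), if r * D < M * i then h r * xq ^ (i - r * D / M) else 0) =
      ∑ j ∈ Finset.range i, gs M D h j * xq ^ (i - j) := by
  rw [← Finset.sum_filter]
  have hmaps : ∀ r ∈ (Finset.Ico 1 (M * i + 1)).filter (fun r => r * D < M * i),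
      r * D / M ∈ Finset.range i := by
    intro r hr
    rw [Finset.mem_filter] at hr
    rw [Finset.mem_range, Nat.div_lt_iff_lt_mul (by omega), mul_comm i M]
    exact hr.2
  rw [← Finset.sum_fiberwise_of_maps_to hmaps]
  refine Finset.sum_congr rfl fun j hj => ?_
  have hj' := Finset.mem_range.1 hj
  unfold gs
  rw [Finset.sum_mul]
  have e : ((Finset.Ico 1 (M * i + 1)).filter (fun r => r * D < M * i)).filter
      (fun r => r * D / M = j) = (Finset.Ico 1 ((j + 1) * M)).filter (fun r => r * D / M = j) := by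
    ext r
    simp only [Finset.mem_filter, Finset.mem_Ico]
    constructor
    · rintro ⟨⟨⟨h1, h2⟩, h3⟩, h4⟩
      refine ⟨⟨h1, ?_⟩, h4⟩
      have h5 : r * D < (j + 1) * M := by
        rw [← Nat.div_lt_iff_lt_mul (by omega), h4]
        omega
      have h6 : r ≤ r * D := Nat.le_mul_of_pos_right r (by omega)
      omega
    · rintro ⟨⟨h1, h2⟩, h4⟩
      have h5 : (j + 1) * M ≤ M * i := by
        rw [mul_comm M i]
        exact Nat.mul_le_mul_right M (by omega)
      have h6 : r * D < (j + 1) * M := by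
        rw [← Nat.div_lt_iff_lt_mul (by omega), h4]
        omega
      exact ⟨⟨⟨h1, by omega⟩, by omega⟩, h4⟩
  rw [e]
  refine Finset.sum_congr rfl fun r hr => ?_
  rw [(Finset.mem_filter.1 hr).2]

end LDAux

open LDAux in
/-- Block LD. -/
theorem stmt_LD : Stmt_LD := by
  intro P ι _ _ w m M D F hSQ hM hwm Λ hΛ hpos
  obtain ⟨hw, hD, -, -⟩ := hSQ
  have hm : ∀ a, 1 ≤ m a := by
    intro a
    rcases Nat.eq_zero_or_pos (m a) with h0 | h0
    · have := hwm a
      rw [h0, mul_zero] at this
      omega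
    · exact h0
  obtain ⟨ν, hν⟩ : ∃ ν : ℕ, ν = ∑ a, w a := ⟨_, rfl⟩
  rw [← hν] at hΛ hpos
  have hdiv : ∀ x a, (x + M) / m a = x / m a + w a := by
    intro x a
    rw [← hwm a, mul_comm (w a) (m a), Nat.add_mul_div_left _ _ (hm a)]
  have hexp : ∀ x, ∑ a, ((x + M) / m a + 1) = ν + ∑ a, (x / m a + 1) := by
    intro x
    rw [hν, ← Finset.sum_add_distrib]
    refine Finset.sum_congr rfl fun a _ => ?_
    rw [hdiv]
    ring
  have hMi : ∀ i, M * (i + D) / D = M * i / D + M := by
    intro i
    rw [mul_add, mul_comm M D, Nat.add_mul_div_left _ _ (by omega), mul_comm M i]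
  have hA : ∀ i, (xq : K) ^ (∑ a, (M * (i + D) / D / m a + 1)) =
      xq ^ ν * xq ^ (∑ a, (M * i / D / m a + 1)) := by
    intro i
    rw [hMi, hexp, pow_add]
  have hzc : ∀ r, zc P w m D F (r + M) = zc P w m D F r := by
    intro r
    unfold zc
    have : ∀ z : ι → ℂ, Off m (r + M) z ↔ Off m r z := by
      intro z
      unfold Off
      refine forall_congr' fun a => ?_
      have : m a ∣ r + M ↔ m a ∣ r :=
        (Nat.dvd_add_iff_left (Dvd.intro_left _ (hwm a))).symm
      rw [this]
    simp only [this]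
  obtain ⟨h, hh⟩ : ∃ h : ℕ → K, h = fun r => xq ^ (∑ a, (r / m a + 1)) * zc P w m D F r :=
    ⟨_, rfl⟩
  have hhper : ∀ r, 1 ≤ r → h (r + M) = xq ^ ν * h r := by
    intro r _
    rw [hh]
    simp only
    rw [hexp, hzc, pow_add, mul_assoc]
  have hterm : ∀ r e, xq ^ (∑ a, (r / m a + 1) + e) * zc P w m D F r = h r * xq ^ e := by
    intro r e
    rw [hh, pow_add]
    ring
  refine ⟨?_, ?_⟩
  · intro i0
    refine per D ν 0 hD hΛ ?_
    intro i _
    have e1 : D ∣ M * (i + D) ↔ D ∣ M * i := by
      rw [mul_add]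
      exact (Nat.dvd_add_iff_left (Dvd.intro_left _ rfl)).symm
    simp only [Nat.add_mod_right, e1, hA]
    split_ifs <;> simp
  · have hg : ESeq {((ν : ℚ) / (D : ℚ))} (gs M D h) :=
      per D ν 1 hD rfl fun j hj => gs_per M D ν hM hD h hhper j hj
    obtain ⟨c, hc⟩ := stmt_Q4 {((ν : ℚ) / (D : ℚ))} (gs M D h) (by
      rintro x rfl
      exact hpos) hg
    have hS : ESeq Λ fun i => (∑ r ∈ Finset.Ico 1 (M * i + 1), if r * D < M * i then
        xq ^ (∑ a, (r / m a + 1) + (i - r * D / M)) * zc P w m D F r else 0) - c * xq ^ i := by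
      have e1 : (fun i => (∑ r ∈ Finset.Ico 1 (M * i + 1), if r * D < M * i then
          xq ^ (∑ a, (r / m a + 1) + (i - r * D / M)) * zc P w m D F r else 0) - c * xq ^ i) =
          fun i => (∑ j ∈ Finset.range i, gs M D h j * xq ^ (i - j)) - c * xq ^ i := by
        funext i
        rw [← sum_eq M D hM hD h i]
        congr 1
        refine Finset.sum_congr rfl fun r _ => ?_
        rw [hterm]
      rw [e1]
      exact Q1Aux.mono (by
        rintro x rfl
        exact hΛ) hc
    refine ⟨c, hS, ?_⟩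
    have hE1 : ESeq Λ fun i => (xq : K) ^ (∑ a, (M * i / D / m a + 1)) :=
      per D ν 0 hD hΛ fun i _ => hA i
    have hE2 : ESeq Λ fun i => if D ∣ M * i ∧ 1 ≤ i then h (M * i / D) else 0 := by
      refine per D ν 1 hD hΛ ?_
      intro i hi
      have e1 : D ∣ M * (i + D) ↔ D ∣ M * i := by
        rw [mul_add]
        exact (Nat.dvd_add_iff_left (Dvd.intro_left _ rfl)).symm
      by_cases hd : D ∣ M * i
      · have h1 : 1 ≤ M * i / D := by
          rw [Nat.one_le_div_iff (by omega)]
          exact Nat.le_of_dvd (by positivity) hd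
        rw [if_pos ⟨e1.2 hd, by omega⟩, if_pos ⟨hd, hi⟩, hMi, hhper _ h1]
      · rw [if_neg (fun h => hd (e1.1 h.1)), if_neg (fun h => hd h.1), mul_zero]
    have e2 : (fun i => (xq ^ (∑ a, (M * i / D / m a + 1)) +
        ∑ r ∈ Finset.Ico 1 (M * i + 1), if r * D ≤ M * i then
          xq ^ (∑ a, (r / m a + 1) + (i - r * D / M)) * zc P w m D F r else 0) - c * xq ^ i) =
        fun i => (xq ^ (∑ a, (M * i / D / m a + 1)) +
          ((∑ r ∈ Finset.Ico 1 (M * i + 1), if r * D < M * i then
            xq ^ (∑ a, (r / m a + 1) + (i - r * D / M)) * zc P w m D F r else 0) - c * xq ^ i)) +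
          if D ∣ M * i ∧ 1 ≤ i then h (M * i / D) else 0 := by
      funext i
      have e3 : (∑ r ∈ Finset.Ico 1 (M * i + 1), if r * D ≤ M * i then
          xq ^ (∑ a, (r / m a + 1) + (i - r * D / M)) * zc P w m D F r else 0) =
          (∑ r ∈ Finset.Ico 1 (M * i + 1), if r * D < M * i then
            xq ^ (∑ a, (r / m a + 1) + (i - r * D / M)) * zc P w m D F r else 0) +
          ∑ r ∈ Finset.Ico 1 (M * i + 1), if r * D = M * i then h r else 0 := by
        rw [← Finset.sum_add_distrib]
        refine Finset.sum_congr rfl fun r _ => ?_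
        rcases lt_trichotomy (r * D) (M * i) with h1 | h1 | h1
        · rw [if_pos h1.le, if_pos h1, if_neg h1.ne, add_zero]
        · rw [if_pos h1.le, if_neg h1.not_lt, if_pos h1, zero_add, hterm, h1,
            Nat.mul_div_cancel_left _ (by omega), Nat.sub_self, pow_zero, mul_one]
        · rw [if_neg (not_le.2 h1), if_neg (not_lt.2 h1.le), if_neg h1.ne', add_zero]
      have e4 : (∑ r ∈ Finset.Ico 1 (M * i + 1), if r * D = M * i then h r else 0) =
          if D ∣ M * i ∧ 1 ≤ i then h (M * i / D) else 0 := by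
        by_cases hd : D ∣ M * i ∧ 1 ≤ i
        · rw [if_pos hd]
          obtain ⟨⟨q, hq⟩, hi⟩ := hd
          have hq0 : 1 ≤ q := by
            rcases Nat.eq_zero_or_pos q with h0 | h0
            · rw [h0, mul_zero] at hq
              have : 0 < M * i := by positivity
              omega
            · exact h0
          have hqle : q ≤ M * i := by
            rw [hq]
            exact Nat.le_mul_of_pos_left q (by omega)
          rw [hq, Nat.mul_div_cancel_left _ (by omega)]
          rw [Finset.sum_eq_single q]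
          · rw [if_pos (mul_comm _ _)]
          · intro r _ hr
            rw [if_neg]
            intro h1
            apply hr
            rw [mul_comm D q] at h1
            exact Nat.eq_of_mul_eq_mul_right (by omega) h1
          · intro h1
            exfalso
            apply h1
            rw [Finset.mem_Ico]
            rw [← hq]
            omega
        · rw [if_neg hd]
          refine Finset.sum_eq_zero fun r hr => ?_
          rw [if_neg]
          intro h1
          apply hd
          refine ⟨⟨r, by rw [mul_comm D r]; exact h1.symm⟩, ?_⟩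
          rcases Nat.eq_zero_or_pos i with h0 | h0
          · rw [h0, mul_zero] at h1
            have := (Finset.mem_Ico.1 hr).1
            have : 0 < r * D := by positivity
            omega
          · exact h0
      rw [e3, e4]
      ring
    rw [e2]
    exact Q1Aux.add (Q1Aux.add hE1 hS) hE2

end Pool.Agent.Mono.RO
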