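import Pool.Agent.Work.Monodromy6.LEB
import Pool.Agent.Work.Monodromy5.TG5C

/-!
# Block LE (helper2), part C: semi-quasi-homogeneous critical points
-/

set_option autoImplicit false
set_option linter.unusedSectionVars false

namespace Pool.Agent.Mono.RO

open MvPolynomial TS

namespace LEAux

open VGAux TC5Aux

section

variable {E : Type} [Finite E]

/-- the parameters over the value `c` -/
def RQ (c : ℂ) (Q : Set (E ⊕ Bool → ℂ)) : Set (E ⊕ Unit → ℂ) :=
  {u | Sum.elim (fun p => u (Sum.inl p)) (fun b : Bool => if b then c else u (Sum.inr ())) ∈ Q}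

def BQ0 (c : ℂ) (Q : Set (E ⊕ Bool → ℂ)) : Set (E → ℂ) :=
  {e | Sum.elim (fun a => e a) (fun b : Bool => if b then c else 0) ∈ Q}

theorem con_RQ (c : ℂ) {Q : Set (E ⊕ Bool → ℂ)} (hQ : Constructible Q) :
    Constructible (RQ c Q) := by
  have h3 := Constructible.preimage (Sum.elim (fun a => (X (Sum.inl a) : MvPolynomial (E ⊕ Unit) ℂ))
    (fun b : Bool => if b then C c else X (Sum.inr ()))) hQ
  unfold RQ
  convert h3 using 3 with z
  apply mem_cgr
  funext s
  rcases s with s | s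
  · simp
  · cases s <;> simp

theorem cl_hpt_ex (P : HodgeMeasure) (c : ℂ) (a : K) {Q : Set (E ⊕ Bool → ℂ)}
    (hQ : QOk Set.univ true Q) : (hpt c a).ex.cl P Q = P.rat.val (RQ c Q) := by
  have c1 : Constructible {z : E ⊕ (Empty ⊕ Unit) → ℂ | (fun s => z (Sum.inr s)) ∈
      {z : Empty ⊕ Unit → ℂ | (fun s => z (Sum.inl s)) ∈ (Set.univ : Set (Empty → ℂ)) ∧
        z (Sum.inr ()) ≠ 0} ∧
      Sum.elim (fun p => z (Sum.inl p)) (fun b : Bool => if b then
        eval (fun s => z (Sum.inr s)) (rename Sum.inl (C c) : MvPolynomial (Empty ⊕ Unit) ℂ) else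
        eval (fun s => z (Sum.inr s)) (X (Sum.inr ()))) ∈ Q} :=
    con_cl (TG5C.con_ex Constructible.univ) _ _ hQ.1
  change P.rat.val {z : E ⊕ (Empty ⊕ Unit) → ℂ | (fun s => z (Sum.inr s)) ∈
      {z : Empty ⊕ Unit → ℂ | (fun s => z (Sum.inl s)) ∈ (Set.univ : Set (Empty → ℂ)) ∧
        z (Sum.inr ()) ≠ 0} ∧
      Sum.elim (fun p => z (Sum.inl p)) (fun b : Bool => if b then
        eval (fun s => z (Sum.inr s)) (rename Sum.inl (C c) : MvPolynomial (Empty ⊕ Unit) ℂ) else
        eval (fun s => z (Sum.inr s)) (X (Sum.inr ()))) ∈ Q} = _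
  refine P.rat.val_of_inv c1 (con_RQ c hQ.1)
    (Sum.elim (fun a => X (Sum.inl a)) (fun _ => X (Sum.inr (Sum.inr ()))))
    (fun y => Sum.elim (fun a => y (Sum.inl a)) (Sum.elim (fun e => e.elim)
      (fun _ => y (Sum.inr ())))) ?_ ?_ ?_ ?_
  · rintro x ⟨-, h⟩
    refine (mem_cgr (Q := Q) ?_).1 h
    funext s
    rcases s with s | s
    · simp
    · cases s <;> simp
  · intro y hy
    have h1 := (hQ.2 _ hy).2 rfl
    simp only [Sum.elim_inr, Bool.false_eq_true, if_false] at h1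
    refine ⟨⟨Set.mem_univ _, ?_⟩, (mem_cgr (Q := Q) ?_).1 hy⟩
    · simpa using h1
    · funext s
      rcases s with s | s
      · simp
      · cases s <;> simp
  · rintro x -
    funext s
    rcases s with s | s | s
    · simp
    · exact s.elim
    · simp
  · rintro x -
    funext s
    rcases s with s | s
    · simp
    · simp

theorem cl_hpt_tl (P : HodgeMeasure) (c : ℂ) (a : K) {Q : Set (E ⊕ Bool → ℂ)}
    (hQ : Constructible Q) : (hpt c a).tl.cl P Q = P.rat.val (BQ0 c Q) :=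
  clx_pt P c hQ

theorem cl_ptv (P : HodgeMeasure) (c : ℂ) (b : ℕ → K) {Q : Set (E ⊕ Bool → ℂ)}
    (hQ : Constructible Q) : (ptv c b).cl P Q = P.rat.val (BQ0 c Q) :=
  clx_pt P c hQ

end

section

variable {ι : Type} [Fintype ι] [DecidableEq ι]

/-- the families with leading coefficient `F₀(z)` -/
noncomputable def fam0 (w m : ι → ℕ) (M D : ℕ) (F : MvPolynomial ι ℂ) (i0 : ℕ) : Fam where
  σ := ι
  fin := inferInstance
  S := {z | Off m (M * i0 / D) z ∧ eval z (ini w D F) ≠ 0}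
  u := ini w D F
  κ := fun i => if i % D = i0 ∧ D ∣ M * i then xq ^ (∑ a, (M * i / D / m a + 1)) else 0

/-- the family of all leading coefficients -/
noncomputable def famH (κ : ℕ → K) : Fam where
  σ := Unit
  fin := inferInstance
  S := {τ | τ () ≠ 0}
  u := X ()
  κ := κ

theorem con_Off (m : ι → ℕ) (r : ℕ) : Constructible {z : ι → ℂ | Off m r z} := by
  unfold Off
  refine Constructible.all fun a => ?_
  refine Constructible.imp (Constructible.const _) ?_
  have h := Constructible.zero (X a : MvPolynomial ι ℂ)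
  simpa only [eval_X] using h

theorem off_mod {m : ι → ℕ} {M D i : ℕ} (hD : 1 ≤ D) (hm : ∀ a, m a ∣ M) (z : ι → ℂ) :
    Off m (M * (i % D) / D) z ↔ Off m (M * i / D) z := by
  have e : M * i / D = M * (i % D) / D + M * (i / D) := by
    conv_lhs => rw [← Nat.mod_add_div i D]
    rw [mul_add, show M * (D * (i / D)) = (M * (i / D)) * D by ring,
      Nat.add_mul_div_right _ _ hD]
  unfold Off
  refine forall_congr' fun a => ?_
  rw [e, (Nat.dvd_add_left (dvd_mul_of_dvd_left (hm a) _))]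

theorem cl_fam0 {E : Type} [Finite E] (P : HodgeMeasure) (w m : ι → ℕ) (M D : ℕ)
    (F : MvPolynomial ι ℂ) (hD : 1 ≤ D) (hm : ∀ a, m a ∣ M) (c : ℂ) (i : ℕ)
    {Q : Set (E ⊕ Bool → ℂ)} (hQ : QOk Set.univ true Q) :
    (atv (fam0 w m M D F (i % D)) c).cl P Q = lc0 P w m D F (M * i / D) (RQ c Q) := by
  change P.rat.val {z : E ⊕ ι → ℂ | (fun s => z (Sum.inr s)) ∈
    {z : ι → ℂ | Off m (M * (i % D) / D) z ∧ eval z (ini w D F) ≠ 0} ∧
    Sum.elim (fun p => z (Sum.inl p)) (fun b : Bool => if b then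
      eval (fun s => z (Sum.inr s)) (C c) else
      eval (fun s => z (Sum.inr s)) (ini w D F)) ∈ Q} = _
  unfold lc0
  congr 1
  ext z
  constructor
  · rintro ⟨⟨h1, -⟩, h2⟩
    refine ⟨(off_mod hD hm _).1 h1, ?_⟩
    refine (mem_cgr (Q := Q) ?_).1 h2
    funext s
    rcases s with s | s
    · simp
    · cases s <;> simp
  · rintro ⟨h1, h2⟩
    have h2' : Sum.elim (fun p => z (Sum.inl p)) (fun b : Bool => if b then c else
      eval (fun s => z (Sum.inr s)) (ini w D F)) ∈ Q := h2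
    have h3 := (hQ.2 _ h2').2 rfl
    simp only [Sum.elim_inr, Bool.false_eq_true, if_false] at h3
    refine ⟨⟨(off_mod hD hm _).2 h1, h3⟩, (mem_cgr (Q := Q) ?_).1 h2'⟩
    funext s
    rcases s with s | s
    · simp
    · cases s <;> simp

theorem cl_famH {E : Type} [Finite E] (P : HodgeMeasure) (κ : ℕ → K) (c : ℂ)
    {Q : Set (E ⊕ Bool → ℂ)} (hQ : QOk Set.univ true Q) :
    (atv (famH κ) c).cl P Q = P.rat.val (RQ c Q) := by
  change P.rat.val {z : E ⊕ Unit → ℂ | (fun s => z (Sum.inr s)) ∈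
    {z : Unit → ℂ | z () ≠ 0} ∧
    Sum.elim (fun p => z (Sum.inl p)) (fun b : Bool => if b then
      eval (fun s => z (Sum.inr s)) (C c) else
      eval (fun s => z (Sum.inr s)) (X () : MvPolynomial Unit ℂ)) ∈ Q} = _
  congr 1
  ext z
  constructor
  · rintro ⟨-, h2⟩
    refine (mem_cgr (Q := Q) ?_).1 h2
    funext s
    rcases s with s | s
    · simp
    · cases s <;> simp
  · intro h2
    have h3 := (hQ.2 _ h2).2 rfl
    simp only [Sum.elim_inr, Bool.false_eq_true, if_false] at h3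
    refine ⟨h3, (mem_cgr (Q := Q) ?_).1 h2⟩
    funext s
    rcases s with s | s
    · simp
    · cases s <;> simp

/-- `f(φ(y)) = F(y) + f(p)` -/
theorem aeval_phi (f : MvPolynomial ι ℂ) (φ : ι → MvPolynomial ι ℂ) (c : ℂ)
    (y : ι → PowerSeries ℂ) :
    aeval (fun a => aeval y (φ a)) f = aeval y (bind₁ φ f - C c) + PowerSeries.C c := by
  rw [map_sub, aeval_bind₁, aeval_C]
  have : algebraMap ℂ (PowerSeries ℂ) c = PowerSeries.C c := rfl
  rw [this]
  ring

theorem coeff_F0 {w : ι → ℕ} {D : ℕ} {F : MvPolynomial ι ℂ} (h : SQ w D F)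
    {y : ι → PowerSeries ℂ} (hy : ∀ a, PowerSeries.coeff 0 (y a) = 0) :
    PowerSeries.coeff 0 (aeval y F) = 0 := by
  rw [PowerSeries.coeff_zero_eq_constantCoeff_apply, GJetAux.constantCoeff_aeval]
  have e : (fun i => PowerSeries.constantCoeff (y i)) = fun _ => (0 : ℂ) := by
    funext a
    rw [← PowerSeries.coeff_zero_eq_constantCoeff_apply, hy a]
  rw [e]
  have h1 : coeff 0 F = 0 := by
    by_contra h0
    have h2 := h.2.2.1 0 (mem_support_iff.2 h0)
    have h3 := h.2.1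
    rw [map_zero] at h2
    omega
  have h2 : eval (fun _ => (0 : ℂ)) F = constantCoeff F := by
    rw [← MvPolynomial.eval_zero]
    rfl
  rw [h2]
  exact h1

/-- the arcs starting at `p`, exact -/
theorem set_ex {E : Type} (f : MvPolynomial ι ℂ) (φ : ι → MvPolynomial ι ℂ) (c : ℂ) {w : ι → ℕ}
    {D : ℕ} (h : SQ w D (bind₁ φ f - C c)) (Q : Set (E ⊕ Bool → ℂ)) {i : ℕ} (hi : 1 ≤ i) :
    {z : (E → ℂ) × (ι → PowerSeries ℂ) | (∀ a, PowerSeries.coeff 0 (z.2 a) = 0) ∧
      (z.1, fun a => aeval z.2 (φ a)) ∈ SD f true Q i} =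
    EXl (bind₁ φ f - C c) i (RQ c Q) := by
  ext z
  have e1 := aeval_phi f φ c z.2
  have hc : ∀ l, 1 ≤ l → PowerSeries.coeff l (aeval (fun a => aeval z.2 (φ a)) f) =
      PowerSeries.coeff l (aeval z.2 (bind₁ φ f - C c)) := by
    intro l hl
    rw [e1, map_add, PowerSeries.coeff_C, if_neg (by omega), add_zero]
  have hd : (∀ a, PowerSeries.coeff 0 (z.2 a) = 0) →
      Sum.elim z.1 (dat true i (aeval (fun a => aeval z.2 (φ a)) f)) =
      Sum.elim (fun p => Sum.elim z.1 (fun _ : Unit => PowerSeries.coeff i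
        (aeval z.2 (bind₁ φ f - C c))) (Sum.inl p)) (fun b : Bool => if b then c else
          Sum.elim z.1 (fun _ : Unit => PowerSeries.coeff i
        (aeval z.2 (bind₁ φ f - C c))) (Sum.inr ())) := by
    intro h0
    funext s
    rcases s with s | s
    · rfl
    · cases s
      · simp only [Sum.elim_inr, dat, ldc, Bool.false_eq_true, if_false, if_true]
        exact hc i hi
      · simp only [Sum.elim_inr, dat, if_true]
        rw [e1, map_add, coeff_F0 h h0, zero_add, PowerSeries.coeff_C, if_pos rfl]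
  constructor
  · rintro ⟨h0, h1, h2⟩
    refine ⟨h0, fun l hl => ?_, ?_⟩
    · rcases Nat.eq_zero_or_pos l with rfl | hl'
      · exact coeff_F0 h h0
      · rw [← hc l hl']
        exact h1 l hl' hl
    · change Sum.elim _ _ ∈ Q
      rw [← hd h0]
      exact h2
  · rintro ⟨h0, h1, h2⟩
    refine ⟨h0, fun l hl hl' => ?_, ?_⟩
    · have hl'' : l < i := hl'
      dsimp only
      rw [hc l hl]
      exact h1 l hl''
    · dsimp only
      rw [hd h0]
      exact h2

/-- the arcs starting at `p`, tail -/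
theorem set_tl {E : Type} (f : MvPolynomial ι ℂ) (φ : ι → MvPolynomial ι ℂ) (c : ℂ) {w : ι → ℕ}
    {D : ℕ} (h : SQ w D (bind₁ φ f - C c)) (Q : Set (E ⊕ Bool → ℂ)) (i : ℕ) :
    {z : (E → ℂ) × (ι → PowerSeries ℂ) | (∀ a, PowerSeries.coeff 0 (z.2 a) = 0) ∧
      (z.1, fun a => aeval z.2 (φ a)) ∈ SD f false Q i} =
    TLl (bind₁ φ f - C c) i (BQ0 c Q) := by
  ext z
  have e1 := aeval_phi f φ c z.2
  have hc : ∀ l, 1 ≤ l → PowerSeries.coeff l (aeval (fun a => aeval z.2 (φ a)) f) =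
      PowerSeries.coeff l (aeval z.2 (bind₁ φ f - C c)) := by
    intro l hl
    rw [e1, map_add, PowerSeries.coeff_C, if_neg (by omega), add_zero]
  have hd : (∀ a, PowerSeries.coeff 0 (z.2 a) = 0) →
      Sum.elim z.1 (dat false i (aeval (fun a => aeval z.2 (φ a)) f)) =
      Sum.elim (fun p => z.1 p) (fun b : Bool => if b then c else 0) := by
    intro h0
    funext s
    rcases s with s | s
    · rfl
    · cases s
      · simp only [Sum.elim_inr, dat, ldc, Bool.false_eq_true, if_false]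
      · simp only [Sum.elim_inr, dat, if_true]
        rw [e1, map_add, coeff_F0 h h0, zero_add, PowerSeries.coeff_C, if_pos rfl]
  constructor
  · rintro ⟨h0, h1, h2⟩
    refine ⟨?_, h0, fun l hl => ?_⟩
    · change Sum.elim _ _ ∈ Q
      rw [← hd h0]
      exact h2
    · rcases Nat.eq_zero_or_pos l with rfl | hl'
      · exact coeff_F0 h h0
      · rw [← hc l hl']
        refine h1 l hl' ?_
        simp only [Bool.false_eq_true, if_false]
        omega
  · rintro ⟨h2, h0, h1⟩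
    refine ⟨h0, fun l hl hl' => ?_, ?_⟩
    · simp only [Bool.false_eq_true, if_false] at hl'
      dsimp only
      rw [hc l hl]
      exact h1 l (by omega)
    · dsimp only
      rw [hd h0]
      exact h2

theorem locD_of_SQ (hCV : Stmt_CV) (hLC : Stmt_LC) (hLD : Stmt_LD) (P : HodgeMeasure)
    (f : MvPolynomial ι ℂ) (hf : Nonempty ι) (p : ι → ℂ) (h : ∃ r, SQAt f p r) :
    LocD P f p {r | SQAt f p r} := by
  classical
  obtain ⟨r, w, D, φ, hφ, hJ, hSQ, hr⟩ := h
  obtain ⟨c, hc⟩ : ∃ c, c = eval p f := ⟨_, rfl⟩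
  obtain ⟨M, hM⟩ : ∃ M, M = ∏ a, w a := ⟨_, rfl⟩
  obtain ⟨m, hm⟩ : ∃ m : ι → ℕ, m = fun a => M / w a := ⟨_, rfl⟩
  have hw := hSQ.1
  have hD : 1 ≤ D := hSQ.2.1
  have hwM : ∀ a, w a ∣ M := fun a => by rw [hM]; exact Finset.dvd_prod_of_mem w (Finset.mem_univ a)
  have hwm : ∀ a, w a * m a = M := fun a => by rw [hm]; exact Nat.mul_div_cancel' (hwM a)
  have hM1 : 1 ≤ M := by
    rw [hM]
    exact Nat.succ_le_of_lt (Finset.prod_pos fun a _ => lt_of_lt_of_le Nat.zero_lt_one (hw a))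
  have hmM : ∀ a, m a ∣ M := fun a => ⟨w a, by rw [mul_comm]; exact (hwm a).symm⟩
  rw [← hc] at hSQ
  have hpos : 0 < ((∑ a, w a : ℕ) : ℚ) / (D : ℚ) := by
    have h1 : 0 < ∑ a, w a := Finset.sum_pos (fun a _ => hw a) ⟨hf.some, Finset.mem_univ _⟩
    have h2 : (0 : ℚ) < ((∑ a, w a : ℕ) : ℚ) := by exact_mod_cast h1
    have h3 : (0 : ℚ) < (D : ℚ) := by exact_mod_cast hD
    exact div_pos h2 h3
  have hΛ : ((∑ a, w a : ℕ) : ℚ) / (D : ℚ) ∈ {r | SQAt f p r} :=
    ⟨w, D, φ, hφ, hJ, by rw [← hc]; exact hSQ, rfl⟩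
  obtain ⟨hl1, a, hl2, hl3⟩ := hLD P ι w m M D (bind₁ φ f - C c) hSQ hM1 hwm _ hΛ hpos
  set S : ℕ → K := fun i => ∑ r ∈ Finset.Ico 1 (M * i + 1), if r * D < M * i then
          xq ^ (∑ a, (r / m a + 1) + (i - r * D / M)) * zc P w m D (bind₁ φ f - C c) r else 0
    with hS
  set T : ℕ → K := fun i => xq ^ (∑ a, (M * i / D / m a + 1)) +
        ∑ r ∈ Finset.Ico 1 (M * i + 1), if r * D ≤ M * i then
          xq ^ (∑ a, (r / m a + 1) + (i - r * D / M)) * zc P w m D (bind₁ φ f - C c) r else 0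
    with hT
  have hst : ∀ (E : Type) (A : Set ((E → ℂ) × (ι → PowerSeries ℂ))),
      {z : (E → ℂ) × (ι → PowerSeries ℂ) | st z.2 ∈ ({p} : Set (ι → ℂ)) ∧ z ∈ A} =
      {z | (∀ a, PowerSeries.coeff 0 (z.2 a) = p a) ∧ z ∈ A} := by
    intro E A
    ext z
    constructor
    · rintro ⟨h1, h2⟩
      exact ⟨fun a => congrFun h1 a, h2⟩
    · rintro ⟨h1, h2⟩
      exact ⟨funext h1, h2⟩
  refine ⟨a, (Finset.range D).toList.map (fam0 w m M D (bind₁ φ f - C c)) ++
    [famH fun i => S i - a * xq ^ i], fun i => T i - a * xq ^ i, ?_, hl3, ⟨?_, ?_⟩, ⟨?_, ?_⟩⟩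
  · intro t ht
    rcases List.mem_append.1 ht with ht | ht
    · obtain ⟨i0, -, rfl⟩ := List.mem_map.1 ht
      exact hl1 i0
    · rw [List.mem_singleton.1 ht]
      exact hl2
  · intro G hG
    rcases List.mem_cons.1 hG with rfl | hG
    · refine ⟨TG5C.con_ex Constructible.univ, ?_⟩
      rintro (τ : Empty ⊕ Unit → ℂ) ⟨-, h2⟩
      refine ⟨Set.mem_univ _, fun _ => ?_⟩
      have h3 : eval τ (X (Sum.inr ()) : MvPolynomial (Empty ⊕ Unit) ℂ) ≠ 0 := by
        rw [eval_X]
        exact h2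
      exact h3
    · obtain ⟨t, ht, rfl⟩ := List.mem_map.1 hG
      rcases List.mem_append.1 ht with ht | ht
      · obtain ⟨i0, -, rfl⟩ := List.mem_map.1 ht
        exact ⟨Constructible.and (con_Off m _) (Constructible.ne _),
          fun τ hτ => ⟨Set.mem_univ _, fun _ => hτ.2⟩⟩
      · rw [List.mem_singleton.1 ht]
        refine ⟨?_, ?_⟩
        · have h4 := Constructible.ne (X () : MvPolynomial Unit ℂ)
          simp only [eval_X] at h4
          exact h4
        · rintro (τ : Unit → ℂ) hτ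
          refine ⟨Set.mem_univ _, fun _ => ?_⟩
          have h3 : eval τ (X () : MvPolynomial Unit ℂ) ≠ 0 := by
            rw [eval_X]
            exact hτ
          exact h3
  · intro E _ Q hQ i hi
    have hi := hi rfl
    rw [hst E, hCV P ι p φ hφ hJ E _ (i + 1) (by omega) (M5Aux.cyl_SD f true hQ.1 i),
      set_ex f φ c hSQ Q hi,
      (hLC P ι w m M D _ hSQ hM1 hwm E).1 (RQ c Q) (con_RQ c hQ.1)
        (fun u hu => by
          have h1 := (hQ.2 _ hu).2 rfl
          simpa only [Sum.elim_inr, Bool.false_eq_true, if_false] using h1) i hi]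
    rw [List.map_cons, List.sum_cons, List.map_map, List.map_append, List.sum_append,
      List.map_map, List.map_cons, List.map_nil, List.sum_cons, List.sum_nil, add_zero]
    rw [← hc]
    have e1 : (hpt c a).ex.κ i * (hpt c a).ex.cl P Q = a * xq ^ i * P.rat.val (RQ c Q) := by
      rw [cl_hpt_ex P c a hQ]
      rfl
    have e2 : ((fun G : Fam2 => G.κ i * G.cl P Q) ∘ fun t => atv t c)
        (famH fun i => S i - a * xq ^ i) = (S i - a * xq ^ i) * P.rat.val (RQ c Q) := by
      change (S i - a * xq ^ i) * (atv (famH fun i => S i - a * xq ^ i) c).cl P Q = _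
      rw [cl_famH P _ c hQ]
    have e3 : (List.map (((fun G : Fam2 => G.κ i * G.cl P Q) ∘ fun t => atv t c) ∘
        fam0 w m M D (bind₁ φ f - C c)) (Finset.range D).toList).sum =
        if D ∣ M * i then xq ^ (∑ a, (M * i / D / m a + 1)) *
          lc0 P w m D (bind₁ φ f - C c) (M * i / D) (RQ c Q) else 0 := by
      rw [Finset.sum_map_toList, Finset.sum_eq_single (i % D)]
      · change (if i % D = i % D ∧ D ∣ M * i then xq ^ (∑ a, (M * i / D / m a + 1)) else 0) *
          (atv (fam0 w m M D (bind₁ φ f - C c) (i % D)) c).cl P Q = _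
        rw [cl_fam0 P w m M D _ hD hmM c i hQ]
        by_cases hd : D ∣ M * i
        · rw [if_pos ⟨rfl, hd⟩, if_pos hd]
        · rw [if_neg (fun hh => hd hh.2), if_neg hd, zero_mul]
      · intro x _ hx
        change (if i % D = x ∧ D ∣ M * i then xq ^ (∑ a, (M * i / D / m a + 1)) else 0) *
          (atv (fam0 w m M D (bind₁ φ f - C c) x) c).cl P Q = _
        rw [if_neg (fun hh => hx hh.1.symm), zero_mul]
      · intro hx
        exact absurd (Finset.mem_range.2 (Nat.mod_lt i hD)) hx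
    rw [e1, e2, e3]
    ring
  · intro G hG
    rcases List.mem_cons.1 hG with rfl | hG
    · exact ⟨Constructible.univ, fun τ _ => ⟨Set.mem_univ _, fun h' => absurd h' (by decide)⟩⟩
    · rw [List.mem_singleton.1 hG]
      exact ⟨Constructible.univ, fun τ _ => ⟨Set.mem_univ _, fun h' => absurd h' (by decide)⟩⟩
  · intro E _ Q hQ i _
    rw [hst E, hCV P ι p φ hφ hJ E _ (i + 1) (by omega) (M5Aux.cyl_SD f false hQ.1 i),
      set_tl f φ c hSQ Q i,
      (hLC P ι w m M D _ hSQ hM1 hwm E).2 (BQ0 c Q) (con_pt c hQ.1) i]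
    rw [List.map_cons, List.sum_cons, List.map_cons, List.sum_cons, List.map_nil, List.sum_nil,
      add_zero, ← hc, cl_hpt_tl P c a hQ.1, cl_ptv P c _ hQ.1]
    change T i * _ = a * xq ^ i * _ + (T i - a * xq ^ i) * _
    ring

end

end LEAux

open LEAux in
theorem stmt_LE (hCV : Stmt_CV) (hLC : Stmt_LC) (hLD : Stmt_LD) : Stmt_LE := by
  classical
  intro P ι _ _ f hf hfin h
  have hne : Nonempty ι := by
    by_contra hne
    rw [not_nonempty_iff] at hne
    apply hf
    rw [MvPolynomial.eq_C_of_isEmpty f]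
    exact totalDegree_C _
  have hZ : ∀ p, p ∈ hfin.toFinset ↔ ∀ a, eval p (pderiv a f) = 0 := fun p => by simp
  exact reg_of_loc P f hfin.toFinset hZ (fun p => {r | SQAt f p r}) fun p hp =>
    locD_of_SQ hCV hLC hLD P f hne p (h p ((hZ p).1 hp))

end Pool.Agent.Mono.RO
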