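import Pool.Agent.Work.Monodromy6.WE
import Pool.Agent.Work.Monodromy6.LA
import Pool.Agent.Work.Monodromy6.LB
import Pool.Agent.Work.Monodromy6.LC
import Pool.Agent.Work.Monodromy6.LD
import Pool.Agent.Work.Monodromy6.LE
import Pool.Agent.Work.Monodromy6.CVSQ

/-!
# Block SQ6 of part SQ (helper2): the gate
-/

set_option autoImplicit false

namespace Pool.Agent.Mono.RO

open MvPolynomial TS

theorem stmt_SQ6 : Stmt_SQ6 := by
  intro ι _ _ f htd hfin hall
  refine ⟨htd, fun P => ⟨fun c => {r | ∃ p : ι → ℂ, (∀ a, eval p (pderiv a f) = 0) ∧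
    eval p f = c ∧ SQAt f p r}, ?_, ?_, ?_⟩⟩
  · rintro c r ⟨p, hp, _, hr⟩
    exact (stmt_WE ι f p r htd hp hr).1
  · rintro c r ⟨p, hp, rfl, hr⟩
    exact (stmt_WE ι f p r htd hp hr).2
  · exact stmt_LE stmt_CVSQ (stmt_LC stmt_LA stmt_LB) stmt_LD P ι f htd hfin hall

end Pool.Agent.Mono.RO
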