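import Pool.Agent.Work.Monodromy5.All5
import Pool.Agent.Work.Monodromy6.AllPC
import Pool.Agent.Work.Monodromy6.Final6
import Pool.Agent.Work.Monodromy6.SQ6

/-!
# Phase 6: the monodromy conjecture for formulas over plane curves and isolated singularities
-/

namespace Pool.Agent.Mono.RO

open TS

/-- the monodromy conjecture for formulas -/
theorem mc_formula {ι : Type} [Fintype ι] {f : MvPolynomial ι ℂ} (h : Formula ι f)
    (P : HodgeMeasure) (R : RatFunc ℚ) (hR : IsTopologicalZeta P f R) : GoodPoles f R :=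
  formula_top all_Adm all_Adm5 stmt_SQ6 PC.all_PC all_TM5 h P R hR

/-- the monodromy conjecture for formulas, twisted -/
theorem mc_formula_tw {ι : Type} [Fintype ι] {f : MvPolynomial ι ℂ} (h : Formula ι f)
    (P : HodgeMeasure) (e : ℕ) (he : 1 ≤ e) (R : RatFunc ℚ) (hR : IsTwTopZeta P f e R) :
    GoodPoles f R :=
  formula_tw all_Adm all_Adm5 stmt_SQ6 PC.all_PC all_TM5 h P e he R hR

end Pool.Agent.Mono.RO
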