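import Pool.Agent.Work.Monodromy.Interface6V
import Pool.Agent.Work.Monodromy5.TG5D

/-!
# Classes of the pieces when all leading coefficients are allowed (for VRM, VM0)
-/

set_option autoImplicit false

namespace Pool.Agent.Mono.PC

open MvPolynomial TS RO

namespace CLV

open RO.TG5Aux

/-- the class of the affine line -/
theorem L_eq (P : HodgeMeasure) : P.rat.L = RatFunc.X := by
  change toRat (P.val (Set.univ : Set (Unit → ℂ))) = _
  rw [P.line]
  simp [toRat]

/-- the class of `ℂ^*` -/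
theorem val_gm {α : Type} [Unique α] [Finite α] (P : HodgeMeasure) :
    P.rat.val {z : α → ℂ | z default ≠ 0} = RatFunc.X - 1 := by
  have h1 : P.rat.val {z : α → ℂ | z default ≠ 0} = P.rat.val {z : Unit → ℂ | z () ≠ 0} := by
    refine P.rat.map _ _ (fun _ => X default) (con_ne (IP.coord _)) (con_ne (IP.coord _)) ?_
    refine ⟨fun x hx => ?_, fun x _ y _ h => ?_, fun y hy => ?_⟩
    · simpa using hx
    · ext a
      rw [Unique.eq_default a]
      have := congrFun h ()
      simpa using this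
    · refine ⟨fun _ => y (), ?_, ?_⟩
      · simpa using hy
      · ext a
        simp
  have h2 : P.rat.val {z : Unit → ℂ | z () = 0} = 1 := by
    rw [← P.rat.point]
    symm
    refine P.rat.map _ _ (fun _ => 0) Constructible.univ (con_zero (IP.coord _)) ?_
    refine ⟨fun x _ => ?_, fun x _ y _ _ => ?_, fun y hy => ?_⟩
    · simp
    · exact Subsingleton.elim _ _
    · refine ⟨fun e => e.elim, trivial, ?_⟩
      ext a
      have : y () = 0 := hy
      simp [this]
  have h3 : P.rat.val (Set.univ : Set (Unit → ℂ)) =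
      P.rat.val {z : Unit → ℂ | z () ≠ 0} + P.rat.val {z : Unit → ℂ | z () = 0} := by
    rw [← P.rat.union _ _ (con_ne (IP.coord _)) (con_zero (IP.coord _))]
    · congr 1
      ext z
      simp only [Set.mem_univ, Set.mem_union, Set.mem_setOf_eq, true_iff]
      exact ne_or_eq _ _
    · rw [Set.disjoint_left]
      intro z h h'
      exact h h'
  have h4 : P.rat.val (Set.univ : Set (Unit → ℂ)) = RatFunc.X := L_eq P
  rw [h1]
  rw [h2, h4] at h3
  linear_combination -h3

/-- the class of `(ℂ^*)^2` -/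
theorem val_gm2 (P : HodgeMeasure) :
    P.rat.val {z : Empty ⊕ Fin 2 → ℂ | z (Sum.inr 0) ≠ 0 ∧ z (Sum.inr 1) ≠ 0} =
      (RatFunc.X - 1) ^ 2 := by
  have h1 := P.rat.prod {z : Unit → ℂ | z default ≠ 0} {z : Unit → ℂ | z default ≠ 0}
    (con_ne (IP.coord _)) (con_ne (IP.coord _))
  rw [val_gm P, ← pow_two] at h1
  rw [← h1]
  refine P.rat.map _ _ (Sum.elim (fun _ => X (Sum.inr 0)) fun _ => X (Sum.inr 1))
    ((con_ne (IP.coord _)).and (con_ne (IP.coord _)))
    ((con_ne (IP.coord _)).and (con_ne (IP.coord _))) ?_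
  refine ⟨fun x hx => ?_, fun x _ y _ h => ?_, fun y hy => ?_⟩
  · simpa using hx
  · ext a
    rcases a with e | i
    · exact e.elim
    · fin_cases i
      · have := congrFun h (Sum.inl ())
        simpa using this
      · have := congrFun h (Sum.inr ())
        simpa using this
  · refine ⟨Sum.elim (fun e => e.elim) ![y (Sum.inl ()), y (Sum.inr ())], ?_, ?_⟩
    · simpa using hy
    · ext a
      rcases a with a | a <;> simp

theorem mem_QF (z : Empty ⊕ Unit → ℂ) : z ∈ QF ↔ z (Sum.inr ()) ≠ 0 := Iff.rfl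

theorem QU_QF : QU QF := ⟨con_ne (IP.coord _), fun _ hz => hz⟩

theorem c1_QF (P : HodgeMeasure) {c : ℂ} (hc : c ≠ 0) (A : ℕ) :
    c1 P c A QF = RatFunc.X - 1 := by
  unfold c1
  have h1 : {z : Empty ⊕ Unit → ℂ | z (Sum.inr ()) ≠ 0 ∧
      (Sum.elim (fun e => z (Sum.inl e)) fun _ => c * z (Sum.inr ()) ^ A) ∈ QF} =
      {z : Empty ⊕ Unit → ℂ | z (Sum.inr ()) ≠ 0} := by
    ext z
    simp only [Set.mem_setOf_eq, mem_QF, Sum.elim_inr]
    constructor
    · exact fun h => h.1
    · exact fun h => ⟨h, mul_ne_zero hc (pow_ne_zero _ h)⟩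
  rw [h1]
  have h2 : P.rat.val {z : Empty ⊕ Unit → ℂ | z (Sum.inr ()) ≠ 0} =
      P.rat.val {z : Unit → ℂ | z default ≠ 0} := by
    refine P.rat.map _ _ (fun _ => X (Sum.inr ())) (con_ne (IP.coord _)) (con_ne (IP.coord _)) ?_
    refine ⟨fun x hx => ?_, fun x _ y _ h => ?_, fun y hy => ?_⟩
    · simpa using hx
    · ext a
      rcases a with e | i
      · exact e.elim
      · have := congrFun h ()
        simpa using this
    · refine ⟨fun _ => y (), ?_, ?_⟩
      · simpa using hy
      · ext a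
        simp
  rw [h2, val_gm]

theorem c2_QF (P : HodgeMeasure) {c : ℂ} (hc : c ≠ 0) (A B : ℕ) :
    c2 P (C c * X 0 ^ A * X 1 ^ B) QF = (RatFunc.X - 1) ^ 2 := by
  unfold c2
  rw [← val_gm2 P]
  congr 1
  ext z
  simp only [Set.mem_setOf_eq, mem_QF, Sum.elim_inr, map_mul, map_pow, eval_C, eval_X]
  constructor
  · exact fun h => ⟨h.1, h.2.1⟩
  · exact fun h => ⟨h.1, h.2, mul_ne_zero (mul_ne_zero hc (pow_ne_zero _ h.1)) (pow_ne_zero _ h.2)⟩

/-- the edge part in terms of the edge polynomial -/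
theorem eval_edge (p q aL bR : ℕ) (I : Polynomial ℂ) (z : Fin 2 → ℂ) (h0 : z 0 ≠ 0) :
    eval z (edgePart p q aL bR I) =
      z 0 ^ (aL + q * I.natDegree) * z 1 ^ bR * I.eval (z 1 ^ p / z 0 ^ q) := by
  unfold edgePart
  rw [map_sum, Polynomial.eval_eq_sum_range, Finset.mul_sum]
  refine Finset.sum_congr rfl fun k hk => ?_
  have hk' : k ≤ I.natDegree := Nat.lt_succ_iff.1 (Finset.mem_range.1 hk)
  obtain ⟨l, hl⟩ := Nat.exists_eq_add_of_le hk'
  simp only [map_mul, map_pow, eval_C, eval_X]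
  rw [hl, Nat.add_sub_cancel_left, div_pow, ← pow_mul, ← pow_mul]
  field_simp
  ring

/-- the curve `b^p = R a^q` in `(ℂ^*)^2` -/
def Cu (p q : ℕ) (R : ℂ) : Set (Empty ⊕ Fin 2 → ℂ) :=
  {z | z (Sum.inr 0) ≠ 0 ∧ z (Sum.inr 1) ≠ 0 ∧ z (Sum.inr 1) ^ p = R * z (Sum.inr 0) ^ q}

theorem con_Cu (p q : ℕ) (R : ℂ) : Constructible (Cu p q R) := by
  refine (con_ne (IP.coord _)).and ((con_ne (IP.coord _)).and ?_)
  have h : {z : Empty ⊕ Fin 2 → ℂ | z (Sum.inr 1) ^ p = R * z (Sum.inr 0) ^ q} =
      {z | eval z (X (Sum.inr 1) ^ p - C R * X (Sum.inr 0) ^ q : MvPolynomial (Empty ⊕ Fin 2) ℂ)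
        = 0} := by
    ext z
    simp [sub_eq_zero]
  rw [h]
  exact Constructible.zero _

/-- the parametrisation of the curve -/
theorem val_Cu (P : HodgeMeasure) {p q : ℕ} (hp : 1 ≤ p) (hq : 1 ≤ q) (hpq : p.Coprime q) {R r : ℂ}
    (hr : r ^ p = R) (hR : R ≠ 0) : P.rat.val (Cu p q R) = RatFunc.X - 1 := by
  have hr0 : r ≠ 0 := by
    intro h
    rw [h, zero_pow (by omega)] at hr
    exact hR hr.symm
  rw [← val_gm (α := Unit) P]
  symm
  refine P.rat.map _ _ (Sum.elim (fun e => e.elim) ![X () ^ p, C r * X () ^ q])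
    (con_ne (IP.coord _)) (con_Cu p q R) ?_
  have hbez : (p : ℤ) * p.gcdA q + q * p.gcdB q = 1 := by
    have := Nat.gcd_eq_gcd_ab p q
    rw [Nat.Coprime.gcd_eq_one hpq] at this
    exact_mod_cast this.symm
  have hrec : ∀ c : ℂ, c ≠ 0 → c = (c ^ p) ^ (p.gcdA q) * (c ^ q) ^ (p.gcdB q) := by
    intro c hc
    rw [← zpow_natCast, ← zpow_natCast, ← zpow_mul, ← zpow_mul, ← zpow_add₀ hc, hbez, zpow_one]
  refine ⟨fun x hx => ?_, fun x hx y hy h => ?_, fun y hy => ?_⟩
  · have hx' : x () ≠ 0 := hx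
    refine ⟨?_, ?_, ?_⟩
    · simp [hx']
    · simp [hx', hr0]
    · simp [mul_pow, hr, ← pow_mul, mul_comm p q]
  · have hx' : x () ≠ 0 := hx
    have hy' : y () ≠ 0 := hy
    have e1 : x () ^ p = y () ^ p := by
      have := congrFun h (Sum.inr 0)
      simpa using this
    have e2 : x () ^ q = y () ^ q := by
      have := congrFun h (Sum.inr 1)
      simpa [hr0] using this
    ext a
    change x () = y ()
    rw [hrec _ hx', hrec _ hy', e1, e2]
  · obtain ⟨h0, h1, h2⟩ := hy
    set a := y (Sum.inr 0) with ha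
    set b := y (Sum.inr 1) / r with hb
    have hb0 : b ≠ 0 := div_ne_zero h1 hr0
    have hab : b ^ p = a ^ q := by
      rw [hb, div_pow, hr, h2]
      field_simp
    set c := a ^ (p.gcdA q) * b ^ (p.gcdB q) with hc
    have hc0 : c ≠ 0 := mul_ne_zero (zpow_ne_zero _ h0) (zpow_ne_zero _ hb0)
    have e1 : c ^ p = a := by
      rw [hc, mul_pow, ← zpow_natCast (a ^ _), ← zpow_natCast (b ^ _), ← zpow_mul, ← zpow_mul,
        mul_comm (p.gcdB q), zpow_mul b, zpow_natCast b, hab, ← zpow_natCast a q, ← zpow_mul,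
        ← zpow_add₀ h0, mul_comm (p.gcdA q), hbez, zpow_one]
    have e2 : c ^ q = b := by
      rw [hc, mul_pow, ← zpow_natCast (a ^ _), ← zpow_natCast (b ^ _), ← zpow_mul, ← zpow_mul,
        mul_comm (p.gcdA q), zpow_mul a, zpow_natCast a, ← hab, ← zpow_natCast b p, ← zpow_mul,
        ← zpow_add₀ hb0, mul_comm (p.gcdB q), hbez, zpow_one]
    refine ⟨fun _ => c, hc0, ?_⟩
    ext s
    rcases s with s | s
    · exact s.elim
    · fin_cases s
      · simp [e1, ha]
      · simp [e2, hb, mul_div_cancel₀ _ hr0]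

/-- the class of the open part of an edge -/
theorem c2_edge (P : HodgeMeasure) {p q : ℕ} (hp : 1 ≤ p) (hq : 1 ≤ q) (hpq : p.Coprime q)
    (aL bR : ℕ) {I : Polynomial ℂ} (h0 : I.coeff 0 ≠ 0) :
    c2 P (edgePart p q aL bR I) QF =
      (RatFunc.X - 1) ^ 2 - (I.roots.toFinset.card : K) * (RatFunc.X - 1) := by
  classical
  have hI : I ≠ 0 := by
    intro h
    rw [h] at h0
    simp at h0
  have hroot0 : ∀ R ∈ I.roots.toFinset, R ≠ 0 := by
    intro R hR h
    rw [h] at hR
    have h3 := Multiset.mem_toFinset.1 hR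
    rw [Polynomial.mem_roots hI, Polynomial.IsRoot, ← Polynomial.coeff_zero_eq_eval_zero] at h3
    exact h0 h3
  set U : Set (Empty ⊕ Fin 2 → ℂ) := {z | z (Sum.inr 0) ≠ 0 ∧ z (Sum.inr 1) ≠ 0 ∧
    (Sum.elim (fun e => z (Sum.inl e))
      fun _ => eval (fun i => z (Sum.inr i)) (edgePart p q aL bR I)) ∈ QF} with hU
  have hconU : Constructible U := by
    refine (con_ne (IP.coord _)).and ((con_ne (IP.coord _)).and ?_)
    have h1 : IP fun z : Empty ⊕ Fin 2 → ℂ => eval (fun i => z (Sum.inr i))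
        (edgePart p q aL bR I) := IP.ev _ fun i => IP.coord _
    exact con_ne h1
  have key : ∀ F : Finset ℂ, F ⊆ I.roots.toFinset →
      Constructible (U ∪ ⋃ R ∈ F, Cu p q R) ∧
      P.rat.val (U ∪ ⋃ R ∈ F, Cu p q R) = P.rat.val U + (F.card : K) * (RatFunc.X - 1) := by
    intro F
    induction F using Finset.induction_on with
    | empty =>
      intro _
      simp [hconU]
    | insert R F hR ih =>
      intro hF
      obtain ⟨i1, i2⟩ := ih ((Finset.subset_insert R F).trans hF)
      have hRr := hF (Finset.mem_insert_self R F)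
      obtain ⟨r, hr⟩ := IsAlgClosed.exists_pow_nat_eq R (show 0 < p by omega)
      have e1 : (U ∪ ⋃ R' ∈ insert R F, Cu p q R') = (U ∪ ⋃ R' ∈ F, Cu p q R') ∪ Cu p q R := by
        rw [Finset.set_biUnion_insert]
        ext z
        simp only [Set.mem_union]
        tauto
      have hdis : Disjoint (U ∪ ⋃ R' ∈ F, Cu p q R') (Cu p q R) := by
        rw [Set.disjoint_left]
        rintro z hz ⟨z0, z1, z2⟩
        rcases hz with hz | hz
        · apply hz.2.2
          change eval (fun i => z (Sum.inr i)) (edgePart p q aL bR I) = 0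
          rw [eval_edge p q aL bR I _ z0]
          have h4 : z (Sum.inr 1) ^ p / z (Sum.inr 0) ^ q = R := by
            rw [z2, mul_div_cancel_right₀ _ (pow_ne_zero _ z0)]
          have h5 : I.eval R = 0 := by
            have := Multiset.mem_toFinset.1 hRr
            rwa [Polynomial.mem_roots hI] at this
          simp only [h4, h5, mul_zero]
        · rw [Set.mem_iUnion₂] at hz
          obtain ⟨R', hR', _, _, z2'⟩ := hz
          apply hR
          have h4 : R = R' := by
            rw [z2] at z2'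
            exact mul_right_cancel₀ (pow_ne_zero _ z0) z2'
          rw [h4]
          exact hR'
      rw [e1]
      refine ⟨i1.or (con_Cu p q R), ?_⟩
      rw [P.rat.union _ _ i1 (con_Cu p q R) hdis, i2, val_Cu P hp hq hpq hr (hroot0 R hRr),
        Finset.card_insert_of_notMem hR]
      push_cast
      ring
  have h1 := (key I.roots.toFinset subset_rfl).2
  have h2 : (U ∪ ⋃ R ∈ I.roots.toFinset, Cu p q R) =
      {z : Empty ⊕ Fin 2 → ℂ | z (Sum.inr 0) ≠ 0 ∧ z (Sum.inr 1) ≠ 0} := by
    ext z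
    simp only [Set.mem_union, Set.mem_iUnion₂, Set.mem_setOf_eq]
    constructor
    · rintro (hz | ⟨R, _, hz⟩)
      · exact ⟨hz.1, hz.2.1⟩
      · exact ⟨hz.1, hz.2.1⟩
    · rintro ⟨z0, z1⟩
      by_cases h : eval (fun i => z (Sum.inr i)) (edgePart p q aL bR I) = 0
      · right
        rw [eval_edge p q aL bR I _ z0] at h
        have h3 : I.eval (z (Sum.inr 1) ^ p / z (Sum.inr 0) ^ q) = 0 := by
          rcases mul_eq_zero.1 h with h | h
          · exact absurd h (mul_ne_zero (pow_ne_zero _ z0) (pow_ne_zero _ z1))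
          · exact h
        refine ⟨z (Sum.inr 1) ^ p / z (Sum.inr 0) ^ q, ?_, z0, z1, ?_⟩
        · rw [Multiset.mem_toFinset, Polynomial.mem_roots hI]
          exact h3
        · rw [div_mul_cancel₀ _ (pow_ne_zero _ z0)]
      · left
        exact ⟨z0, z1, h⟩
  rw [h2, val_gm2] at h1
  change P.rat.val U = _
  linear_combination -h1

/-! ## The terms of an edge -/

theorem mon_apply0 (a b : ℕ) : mon a b 0 = a := by simp [mon]

theorem mon_apply1 (a b : ℕ) : mon a b 1 = b := by simp [mon]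

theorem mon_inj {a b a' b' : ℕ} (h : mon a b = mon a' b') : a = a' ∧ b = b' := by
  constructor
  · rw [← mon_apply0 a b, h, mon_apply0]
  · rw [← mon_apply1 a b, h, mon_apply1]

theorem edge_eq (p q aL bR : ℕ) (I : Polynomial ℂ) :
    edgePart p q aL bR I = ∑ k ∈ Finset.range (I.natDegree + 1),
      monomial (mon (aL + q * (I.natDegree - k)) (bR + p * k)) (I.coeff k) := by
  unfold edgePart
  refine Finset.sum_congr rfl fun k _ => ?_
  rw [X_pow_eq_monomial, X_pow_eq_monomial, C_apply, monomial_mul, monomial_mul, mul_one, mul_one,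
    zero_add]
  rfl

theorem weight_edge {p q aL bR : ℕ} {I : Polynomial ℂ} {d : Fin 2 →₀ ℕ}
    (h : coeff d (edgePart p q aL bR I) ≠ 0) : p * d 0 + q * d 1 = edgeN p q aL bR I := by
  rw [edge_eq, coeff_sum] at h
  obtain ⟨k, hk, hne⟩ := Finset.exists_ne_zero_of_sum_ne_zero h
  rw [coeff_monomial] at hne
  have hd : mon (aL + q * (I.natDegree - k)) (bR + p * k) = d := by
    by_contra h1
    rw [if_neg h1] at hne
    exact hne rfl
  have hk' : k ≤ I.natDegree := Nat.lt_succ_iff.1 (Finset.mem_range.1 hk)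
  obtain ⟨l, hl⟩ := Nat.exists_eq_add_of_le hk'
  rw [← hd, mon_apply0, mon_apply1, edgeN, hl, Nat.add_sub_cancel_left]
  ring

theorem edge_low {F : P2} {p q aL bR : ℕ} {I : Polynomial ℂ} (hE : IsEdge F p q aL bR I) :
    Low p q (edgeN p q aL bR I) F := by
  intro d hd
  by_cases h : coeff d (edgePart p q aL bR I) = 0
  · have h1 : d ∈ (F - edgePart p q aL bR I).support := by
      rw [mem_support_iff, coeff_sub, h, sub_zero]
      exact mem_support_iff.1 hd
    exact (hE.above d h1).le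
  · exact (weight_edge h).ge

theorem edge_lead {F : P2} {p q aL bR : ℕ} {I : Polynomial ℂ} (hE : IsEdge F p q aL bR I) :
    F.coeff (mon aL (bR + p * I.natDegree)) = I.leadingCoeff := by
  have h1 : coeff (mon aL (bR + p * I.natDegree)) (F - edgePart p q aL bR I) = 0 := by
    by_contra h
    have h2 := hE.above _ (mem_support_iff.2 h)
    rw [mon_apply0, mon_apply1, edgeN] at h2
    exact absurd h2 (lt_irrefl _)
  rw [coeff_sub, sub_eq_zero] at h1
  rw [h1, edge_eq, coeff_sum, Finset.sum_eq_single I.natDegree]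
  · rw [coeff_monomial, if_pos]
    · rfl
    · rw [Nat.sub_self, mul_zero, add_zero]
  · intro k _ hk
    rw [coeff_monomial, if_neg]
    intro h
    have h2 := (mon_inj h).2
    have hp := hE.hp
    apply hk
    have h3 : p * k = p * I.natDegree := by omega
    exact Nat.eq_of_mul_eq_mul_left hp h3
  · intro h
    exact absurd (Finset.mem_range.2 (Nat.lt_succ_self _)) h

end CLV

end Pool.Agent.Mono.PC
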