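import Pool.Agent.Work.Monodromy.Interface6W

/-!
# Block EW6: good edges give witnesses
-/

set_option autoImplicit false

namespace Pool.Agent.Mono.PC

open MvPolynomial TS

namespace EWAux

/-! ## the differential field `ℂ(Z)` -/

theorem DZ_alg (h : Polynomial ℂ) :
    DZ (algebraMap (Polynomial ℂ) KZ h) = algebraMap (Polynomial ℂ) KZ (Polynomial.derivative h) :=
  locDer_algebraMap _ _ _

theorem C_alg (c : ℂ) : (RatFunc.C c : KZ) = algebraMap (Polynomial ℂ) KZ (Polynomial.C c) := by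
  rw [RatFunc.algebraMap_C]

theorem Z_alg : ZZ = algebraMap (Polynomial ℂ) KZ Polynomial.X := by
  rw [RatFunc.algebraMap_X]
  rfl

theorem DZ_C (c : ℂ) : DZ (RatFunc.C c) = 0 := by
  rw [C_alg, DZ_alg, Polynomial.derivative_C, map_zero]

theorem DZ_Z : DZ ZZ = 1 := by
  rw [Z_alg, DZ_alg, Polynomial.derivative_X, map_one]

theorem Z_ne : ZZ ≠ 0 := RatFunc.X_ne_zero

theorem Z_sub_ne (P : ℂ) : ZZ - RatFunc.C P ≠ 0 := by
  intro h
  rw [Z_alg, C_alg, ← map_sub, map_eq_zero_iff _ (RatFunc.algebraMap_injective ℂ)] at h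
  exact Polynomial.X_sub_C_ne_zero P h

/-- logarithmic derivative -/
noncomputable def ld (x : KZ) : KZ := DZ x * x⁻¹

theorem ld_mul {x y : KZ} (hx : x ≠ 0) (hy : y ≠ 0) : ld (x * y) = ld x + ld y := by
  unfold ld
  rw [Derivation.leibniz, smul_eq_mul, smul_eq_mul]
  field_simp
  ring

theorem ld_one : ld 1 = 0 := by
  unfold ld
  rw [Derivation.map_one_eq_zero, zero_mul]

theorem ld_pow {x : KZ} (hx : x ≠ 0) (n : ℕ) : ld (x ^ n) = n * ld x := by
  induction n with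
  | zero => rw [pow_zero, ld_one, Nat.cast_zero, zero_mul]
  | succ n ih =>
      rw [pow_succ, ld_mul (pow_ne_zero n hx) hx, ih]
      push_cast
      ring

theorem ld_inv {x : KZ} (hx : x ≠ 0) : ld x⁻¹ = - ld x := by
  have h := ld_mul hx (inv_ne_zero hx)
  rw [mul_inv_cancel₀ hx, ld_one] at h
  linear_combination -h

theorem ld_prod {α : Type} (s : Finset α) (u : α → KZ) (h : ∀ a ∈ s, u a ≠ 0) :
    ld (∏ a ∈ s, u a) = ∑ a ∈ s, ld (u a) := by
  classical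
  induction s using Finset.induction_on with
  | empty => rw [Finset.prod_empty, Finset.sum_empty, ld_one]
  | insert a s ha ih =>
      rw [Finset.prod_insert ha, Finset.sum_insert ha, ld_mul (h a (Finset.mem_insert_self ..))
        (Finset.prod_ne_zero_iff.2 fun b hb => h b (Finset.mem_insert_of_mem hb)),
        ih fun b hb => h b (Finset.mem_insert_of_mem hb)]

theorem ld_C {c : ℂ} : ld (RatFunc.C c) = 0 := by
  unfold ld
  rw [DZ_C, zero_mul]

theorem ld_Z : ld ZZ = ZZ⁻¹ := by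
  unfold ld
  rw [DZ_Z, one_mul]

theorem ld_Z_sub (P : ℂ) : ld (ZZ - RatFunc.C P) = (ZZ - RatFunc.C P)⁻¹ := by
  unfold ld
  rw [map_sub, DZ_Z, DZ_C, sub_zero, one_mul]

theorem C_ne {c : ℂ} (hc : c ≠ 0) : (RatFunc.C c : KZ) ≠ 0 := by
  rw [Ne, map_eq_zero]
  exact hc

/-- the point of the `Z`-line over `Y = P` -/
noncomputable def zp (y₁ P : ℂ) : ℂ := (P - y₁)⁻¹

theorem YY_sub (y₁ P : ℂ) (h : P ≠ y₁) :
    YY y₁ - RatFunc.C P = RatFunc.C (y₁ - P) * (ZZ - RatFunc.C (zp y₁ P)) * ZZ⁻¹ := by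
  have hZ := Z_ne
  have h1 : P - y₁ ≠ 0 := sub_ne_zero.2 h
  have h2 : (RatFunc.C (y₁ - P) : KZ) * RatFunc.C (zp y₁ P) = -1 := by
    rw [← map_mul, zp]
    have : (y₁ - P) * (P - y₁)⁻¹ = -1 := by
      field_simp
      ring
    rw [this, map_neg, map_one]
  rw [mul_sub, h2, YY, map_sub]
  field_simp
  ring

theorem YY_sub_self (y₁ : ℂ) : YY y₁ - RatFunc.C y₁ = ZZ⁻¹ := by
  rw [YY]
  ring

theorem YY_eq (y₁ : ℂ) (h : y₁ ≠ 0) :
    YY y₁ = RatFunc.C y₁ * (ZZ - RatFunc.C (zp y₁ 0)) * ZZ⁻¹ := by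
  have := YY_sub y₁ 0 h.symm
  rwa [map_zero, sub_zero, sub_zero] at this

theorem YY_sub_ne (y₁ P : ℂ) : YY y₁ - RatFunc.C P ≠ 0 := by
  by_cases h : P = y₁
  · rw [h, YY_sub_self]
    exact inv_ne_zero Z_ne
  · rw [YY_sub y₁ P h]
    exact mul_ne_zero (mul_ne_zero (C_ne (sub_ne_zero.2 (Ne.symm h))) (Z_sub_ne _))
      (inv_ne_zero Z_ne)

theorem ld_YY_sub (y₁ P : ℂ) (h : P ≠ y₁) :
    ld (YY y₁ - RatFunc.C P) = (ZZ - RatFunc.C (zp y₁ P))⁻¹ - ZZ⁻¹ := by
  have hc := C_ne (sub_ne_zero.2 (Ne.symm h))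
  rw [YY_sub y₁ P h, ld_mul (mul_ne_zero hc (Z_sub_ne _)) (inv_ne_zero Z_ne),
    ld_mul hc (Z_sub_ne _), ld_C, ld_Z_sub, ld_inv Z_ne, ld_Z]
  ring

theorem ld_YY_sub_self (y₁ : ℂ) : ld (YY y₁ - RatFunc.C y₁) = - ZZ⁻¹ := by
  rw [YY_sub_self, ld_inv Z_ne, ld_Z]

/-! ## combinatorics -/

theorem exists_pq (p q : ℕ) (hp : 1 ≤ p) (hq : 1 ≤ q) (h : p.Coprime q) :
    ∃ p' q' : ℕ, p * q' = p' * q + 1 := by
  have hb : (p : ℤ) * p.gcdA q + q * p.gcdB q = 1 := by
    have := Nat.gcd_eq_gcd_ab p q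
    rw [Nat.Coprime.gcd_eq_one h] at this
    exact_mod_cast this.symm
  set x := p.gcdA q
  set y := p.gcdB q
  set t : ℤ := |x| + |y| with ht
  have hx : -|x| ≤ x := neg_abs_le x
  have hy : y ≤ |y| := le_abs_self y
  have hx0 := abs_nonneg x
  have hy0 := abs_nonneg y
  have hp' : (1 : ℤ) ≤ p := by exact_mod_cast hp
  have hq' : (1 : ℤ) ≤ q := by exact_mod_cast hq
  have h1 : 0 ≤ x + q * t := by nlinarith
  have h2 : 0 ≤ p * t - y := by nlinarith
  refine ⟨(p * t - y).toNat, (x + q * t).toNat, ?_⟩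
  zify
  rw [Int.toNat_of_nonneg h1, Int.toNat_of_nonneg h2]
  linear_combination hb

/-! ## the initial form -/

theorem toric_mono (p q p' q' : ℕ) (y₁ z : ℂ) (i j : ℕ) :
    toric p q p' q' y₁ (C z * X 0 ^ i * X 1 ^ j) =
      PowerSeries.C (RatFunc.C z * YY y₁ ^ (p' * i + q' * j)) * PowerSeries.X ^ (p * i + q * j) := by
  rw [map_mul, map_mul, map_pow, map_pow]
  have h0 : toric p q p' q' y₁ (X 0) = PowerSeries.C (YY y₁ ^ p') * PowerSeries.X ^ p := by
    simp [toric]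
  have h1 : toric p q p' q' y₁ (X 1) = PowerSeries.C (YY y₁ ^ q') * PowerSeries.X ^ q := by
    simp [toric]
  have h2 : toric p q p' q' y₁ (C z) = PowerSeries.C (RatFunc.C z : KZ) := by
    rw [toric, aeval_C, IsScalarTower.algebraMap_apply ℂ KZ (PowerSeries KZ)]
    rfl
  rw [h0, h1, h2, mul_pow, mul_pow, ← map_pow, ← map_pow, map_mul, pow_add, ← pow_mul, ← pow_mul,
    ← pow_mul, ← pow_mul, pow_add, map_mul]
  ring

theorem toric_above (p q p' q' : ℕ) (y₁ : ℂ) {N : ℕ} {F : P2} (h : Above p q N F) :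
    (PowerSeries.X : PowerSeries KZ) ^ (N + 1) ∣ toric p q p' q' y₁ F := by
  rw [F.as_sum, map_sum]
  refine Finset.dvd_sum fun d hd => ?_
  have h1 : monomial d (coeff d F) = C (coeff d F) * X 0 ^ (d 0) * X 1 ^ (d 1) := by
    rw [monomial_eq, Finsupp.prod_fintype _ _ (fun i => pow_zero _), Fin.prod_univ_two, mul_assoc]
  rw [h1, toric_mono]
  exact Dvd.dvd.mul_left (pow_dvd_pow _ (h d hd)) _

theorem toric_edge (p q p' q' : ℕ) (y₁ : ℂ) (h : p * q' = p' * q + 1) (aL bR : ℕ)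
    (I : Polynomial ℂ) : toric p q p' q' y₁ (edgePart p q aL bR I) =
      PowerSeries.C (YY y₁ ^ (p' * (aL + q * I.natDegree) + q' * bR) * Polynomial.aeval (YY y₁) I) *
        PowerSeries.X ^ edgeN p q aL bR I := by
  rw [edgePart, map_sum, Polynomial.aeval_eq_sum_range, Finset.mul_sum, map_sum, Finset.sum_mul]
  refine Finset.sum_congr rfl fun k hk => ?_
  have hk' : k ≤ I.natDegree := Nat.lt_succ_iff.1 (Finset.mem_range.1 hk)
  obtain ⟨l, hl⟩ := Nat.exists_eq_add_of_le hk'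
  rw [toric_mono]
  have h1 : I.natDegree - k = l := by omega
  have h2 : p * (aL + q * (I.natDegree - k)) + q * (bR + p * k) = edgeN p q aL bR I := by
    rw [edgeN, h1, hl]
    ring
  have h3 : p' * (aL + q * (I.natDegree - k)) + q' * (bR + p * k) =
      p' * (aL + q * I.natDegree) + q' * bR + k := by
    rw [h1, hl]
    have h4 : q' * (p * k) = p' * q * k + k := by
      calc q' * (p * k) = (p * q') * k := by ring
        _ = _ := by rw [h]; ring
    rw [mul_add q', h4]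
    ring
  rw [h2, h3]
  congr 1
  congr 1
  have h4 : (I.coeff k • YY y₁ ^ k : KZ) = RatFunc.C (I.coeff k) * YY y₁ ^ k := by
    rw [Algebra.smul_def]
    rfl
  rw [h4, pow_add]
  ring

end EWAux

end Pool.Agent.Mono.PC
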