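import Mathlib

/-!
# Block K6, part A: syzygies of systems of parameters in local rings of large depth
-/

set_option autoImplicit false

namespace Pool.Agent.Mono.RO.K6Aux

open RingTheory.Sequence IsLocalRing Module Pointwise

universe u

/-- regularity of a finite sequence in a ring, in elementary terms -/
def Reg0 {R : Type*} [CommRing R] {n : ℕ} (z : Fin n → R) : Prop :=
  ∀ (i : Fin n) (g : R), g * z i ∈ Ideal.span (z '' {j | j < i}) →
    g ∈ Ideal.span (z '' {j | j < i})

/-- first syzygies of a regular sequence are Koszul -/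
theorem koszul {R : Type*} [CommRing R] : ∀ (n : ℕ) (z : Fin n → R), Reg0 z →
    ∀ g : Fin n → R, ∑ i, g i * z i = 0 →
      ∃ A : Fin n → Fin n → R, (∀ a b, A a b = -A b a) ∧ ∀ a, g a = ∑ b, A a b * z b
  | 0, _, _, _, _ => ⟨fun _ _ => 0, fun a => a.elim0, fun a => a.elim0⟩
  | n + 1, z, hz, g, hg => by
    classical
    rw [Fin.sum_univ_castSucc] at hg
    have himg : z '' {j | j < Fin.last n} = Set.range fun j : Fin n => z j.castSucc := by
      ext x
      constructor
      · rintro ⟨j, hj, rfl⟩
        exact ⟨⟨j, hj⟩, rfl⟩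
      · rintro ⟨j, rfl⟩
        exact ⟨_, Fin.castSucc_lt_last j, rfl⟩
    have h1 : g (Fin.last n) ∈ Ideal.span (Set.range fun j : Fin n => z j.castSucc) := by
      rw [← himg]
      apply hz
      rw [himg]
      have : g (Fin.last n) * z (Fin.last n) = -∑ i : Fin n, g i.castSucc * z i.castSucc := by
        linear_combination hg
      rw [this]
      refine neg_mem (Ideal.sum_mem _ fun i _ => Ideal.mul_mem_left _ _ ?_)
      exact Ideal.subset_span ⟨i, rfl⟩
    obtain ⟨c, hc⟩ := (Ideal.mem_span_range_iff_exists_fun).1 h1
    have hz' : Reg0 fun j : Fin n => z j.castSucc := by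
      intro i x hx
      have himg' : (fun j : Fin n => z j.castSucc) '' {j | j < i} =
          z '' {j | j < i.castSucc} := by
        ext y
        constructor
        · rintro ⟨j, hj, rfl⟩
          exact ⟨_, Fin.castSucc_lt_castSucc_iff.2 hj, rfl⟩
        · rintro ⟨j, hj, rfl⟩
          refine ⟨⟨j, lt_trans hj i.castSucc_lt_last⟩, ?_, rfl⟩
          exact hj
      rw [himg'] at hx ⊢
      exact hz _ _ hx
    obtain ⟨A, hA, hgA⟩ := koszul n (fun j : Fin n => z j.castSucc) hz'
      (fun j => g j.castSucc + c j * z (Fin.last n)) (by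
        have : ∑ i : Fin n, (g i.castSucc + c i * z (Fin.last n)) * z i.castSucc =
            ∑ i : Fin n, g i.castSucc * z i.castSucc +
              z (Fin.last n) * ∑ i : Fin n, c i * z i.castSucc := by
          rw [Finset.mul_sum, ← Finset.sum_add_distrib]
          exact Finset.sum_congr rfl fun i _ => by ring
        rw [this, hc]
        linear_combination hg)
    refine ⟨fun a b => Fin.lastCases (Fin.lastCases 0 (fun j => c j) b)
      (fun i => Fin.lastCases (-c i) (fun j => A i j) b) a, ?_, ?_⟩
    · intro a b
      refine Fin.lastCases ?_ (fun i => ?_) a <;> refine Fin.lastCases ?_ (fun j => ?_) b <;> simp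
      exact hA i j
    · intro a
      rw [Fin.sum_univ_castSucc]
      refine Fin.lastCases ?_ (fun i => ?_) a
      · simp [hc]
      · simp only [Fin.lastCases_castSucc, Fin.lastCases_last]
        linear_combination hgA i

/-- weakly regular lists in elementary terms -/
theorem reg0_of_list {R : Type*} [CommRing R] {n : ℕ} (z : Fin n → R)
    (h : IsWeaklyRegular R (List.ofFn z)) : Reg0 z := by
  intro i g hg
  have h1 := h.regular_mod_prev i (by simp)
  rw [isSMulRegular_quotient_iff_mem_of_smul_mem] at h1
  have h2 : (Ideal.ofList ((List.ofFn z).take i) • ⊤ : Submodule R R) =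
      Ideal.span (z '' {j | j < i}) := by
    rw [smul_eq_mul, Ideal.mul_top]
    unfold Ideal.ofList
    congr 1
    ext x
    simp only [Set.mem_ofPred_eq, Set.mem_image]
    rw [List.mem_take_iff_getElem]
    constructor
    · rintro ⟨j, hj, rfl⟩
      simp only [List.length_ofFn] at hj
      refine ⟨⟨j, by omega⟩, ?_, by simp⟩
      show j < i.1
      omega
    · rintro ⟨j, hj, rfl⟩
      have : j.1 < i.1 := hj
      refine ⟨j.1, by simp; omega, by simp⟩
  rw [h2] at h1
  refine h1 g ?_
  simpa [mul_comm] using hg

end Pool.Agent.Mono.RO.K6Aux
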