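import Pool.Agent.Work.Monodromy5.WS5

/-!
# (helper61) `Unif P f X` holds for every polynomial `f`: reparametrisation of arcs

`x(T) ↦ x(T(1 + t T^r))` keeps the constant term, the order `i` and the leading coefficient of
`f(x) - c` and moves the coefficient `i + r` by `i t u`.
-/

set_option autoImplicit false
set_option linter.unusedSectionVars false

namespace Pool.Agent.Mono.RO

open MvPolynomial TS TS.VAAux TS.VPAux TS.VSAux WS5Aux

namespace UA

/-! ## Substitution of `T(1 + t T^r)` -/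

section

variable {R : Type} [CommRing R]

/-- `T(1 + t T^r)` -/
noncomputable def phi (r : ℕ) (t : R) : PowerSeries R :=
  PowerSeries.X * (1 + PowerSeries.C t * PowerSeries.X ^ r)

theorem phi_cc (r : ℕ) (t : R) : PowerSeries.constantCoeff (phi r t) = 0 := by
  simp [phi]

theorem hs (r : ℕ) (t : R) : PowerSeries.HasSubst (phi r t) :=
  PowerSeries.HasSubst.of_constantCoeff_zero' (phi_cc r t)

/-- `x(T(1 + t T^r))` -/
noncomputable def sb (r : ℕ) (t : R) : PowerSeries R →ₐ[R] PowerSeries R :=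
  PowerSeries.substAlgHom (hs r t)

theorem sb_eq (r : ℕ) (t : R) (x : PowerSeries R) : sb r t x = PowerSeries.subst (phi r t) x := by
  rw [sb, PowerSeries.coe_substAlgHom]

theorem sb_X (r : ℕ) (t : R) : sb r t PowerSeries.X = phi r t := by
  rw [sb_eq, PowerSeries.subst_X (hs r t)]

theorem sb_dvd (r : ℕ) (t : R) (n : ℕ) {x : PowerSeries R} (h : PowerSeries.X ^ n ∣ x) :
    PowerSeries.X ^ n ∣ sb r t x := by
  obtain ⟨y, rfl⟩ := h
  rw [map_mul, map_pow, sb_X, phi, mul_pow, mul_assoc]
  exact Dvd.intro _ rfl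

theorem sb_congr (r : ℕ) (t : R) (n : ℕ) {x y : PowerSeries R}
    (h : ∀ l < n, PowerSeries.coeff l x = PowerSeries.coeff l y) :
    ∀ l < n, PowerSeries.coeff l (sb r t x) = PowerSeries.coeff l (sb r t y) := by
  have h1 : PowerSeries.X ^ n ∣ x - y := PowerSeries.X_pow_dvd_iff.2 fun l hl => by
    rw [map_sub, h l hl, sub_self]
  have h2 := sb_dvd r t n h1
  rw [map_sub] at h2
  intro l hl
  have h3 := PowerSeries.X_pow_dvd_iff.1 h2 l hl
  rw [map_sub, sub_eq_zero] at h3
  exact h3

theorem sb_near (r : ℕ) (t : R) (x : PowerSeries R) : PowerSeries.X ^ (r + 1) ∣ sb r t x - x := by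
  set P : PowerSeries R := ((PowerSeries.trunc (r + 1) x : Polynomial R) : PowerSeries R) with hP
  have h1 : PowerSeries.X ^ (r + 1) ∣ x - P := PowerSeries.X_pow_dvd_iff.2 fun l hl => by
    rw [map_sub, hP, Polynomial.coeff_coe, PowerSeries.coeff_trunc, if_pos hl, sub_self]
  have h2 := sb_dvd r t (r + 1) h1
  have h3 : PowerSeries.X ^ (r + 1) ∣ sb r t P - P := by
    have h4 : P = Polynomial.aeval (PowerSeries.X : PowerSeries R) (PowerSeries.trunc (r + 1) x) :=
      Polynomial.eval₂_C_X_eq_coe.symm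
    have e1 : sb r t P = Polynomial.aeval (phi r t) (PowerSeries.trunc (r + 1) x) := by
      rw [h4, ← Polynomial.aeval_algHom_apply, sb_X]
    rw [e1]
    conv_rhs => rw [h4]
    have h5 : phi r t - PowerSeries.X ∣ Polynomial.aeval (phi r t) (PowerSeries.trunc (r + 1) x) -
        Polynomial.aeval (PowerSeries.X : PowerSeries R) (PowerSeries.trunc (r + 1) x) := by
      rw [Polynomial.aeval_def, Polynomial.aeval_def, ← Polynomial.eval_map, ← Polynomial.eval_map]
      exact Polynomial.sub_dvd_eval_sub _ _ _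
    refine dvd_trans ?_ h5
    refine ⟨PowerSeries.C t, ?_⟩
    rw [phi]
    ring
  have h6 : sb r t x - x = sb r t (x - P) + (sb r t P - P) - (x - P) := by
    rw [map_sub]
    ring
  rw [h6]
  exact dvd_sub (dvd_add h2 h3) h1

end

theorem phi_unit (r : ℕ) (hr : 1 ≤ r) (t : ℂ) : IsUnit (PowerSeries.coeff 1 (phi r t)) := by
  have : PowerSeries.coeff 1 (phi r t) = 1 := by
    have h0 : r ≠ 0 := by omega
    rw [phi, show (1 : ℕ) = 0 + 1 from rfl, PowerSeries.coeff_succ_X_mul]
    simp [h0]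
  rw [this]
  exact isUnit_one

/-- the inverse substitution -/
noncomputable def inv (r : ℕ) (hr : 1 ≤ r) (t : ℂ) : PowerSeries ℂ →ₐ[ℂ] PowerSeries ℂ :=
  PowerSeries.substAlgHom (PowerSeries.HasSubst.substInvOfIsUnit (phi r t) (phi_unit r hr t))

theorem inv_eq (r : ℕ) (hr : 1 ≤ r) (t : ℂ) (x : PowerSeries ℂ) : inv r hr t x =
    PowerSeries.subst ((phi r t).substInvOfIsUnit (phi_unit r hr t)) x := by
  rw [inv, PowerSeries.coe_substAlgHom]

theorem sb_inv (r : ℕ) (hr : 1 ≤ r) (t : ℂ) (x : PowerSeries ℂ) : sb r t (inv r hr t x) = x := by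
  rw [sb_eq, inv_eq, PowerSeries.subst_comp_subst_apply
    (PowerSeries.HasSubst.substInvOfIsUnit (phi r t) (phi_unit r hr t)) (hs r t),
    PowerSeries.subst_substInvOfIsUnit_left _ (phi_cc r t), PowerSeries.X_subst]

theorem inv_sb (r : ℕ) (hr : 1 ≤ r) (t : ℂ) (x : PowerSeries ℂ) : inv r hr t (sb r t x) = x := by
  rw [inv_eq, sb_eq, PowerSeries.subst_comp_subst_apply (hs r t)
    (PowerSeries.HasSubst.substInvOfIsUnit (phi r t) (phi_unit r hr t)),
    PowerSeries.subst_substInvOfIsUnit_right _ (phi_cc r t), PowerSeries.X_subst]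

theorem inv_congr (r : ℕ) (hr : 1 ≤ r) (t : ℂ) (n : ℕ) {x y : PowerSeries ℂ}
    (h : ∀ l < n, PowerSeries.coeff l x = PowerSeries.coeff l y) :
    ∀ l < n, PowerSeries.coeff l (inv r hr t x) = PowerSeries.coeff l (inv r hr t y) := by
  have h1 : PowerSeries.X ^ n ∣ x - y := PowerSeries.X_pow_dvd_iff.2 fun l hl => by
    rw [map_sub, h l hl, sub_self]
  obtain ⟨g, hg⟩ := h1
  have hX : (PowerSeries.X : PowerSeries ℂ) ∣ inv r hr t PowerSeries.X := by
    rw [inv_eq, PowerSeries.subst_X (PowerSeries.HasSubst.substInvOfIsUnit (phi r t) _),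
      PowerSeries.X_dvd_iff]
    exact PowerSeries.constantCoeff_substInvOfIsUnit _ _
  have h2 : PowerSeries.X ^ n ∣ inv r hr t (x - y) := by
    rw [hg, map_mul, map_pow]
    exact (pow_dvd_pow_of_dvd hX n).mul_right _
  rw [map_sub] at h2
  intro l hl
  have h3 := PowerSeries.X_pow_dvd_iff.1 h2 l hl
  rw [map_sub, sub_eq_zero] at h3
  exact h3


/-! ## The effect on `F = c + u T^i + …` -/

/-- the effect of the substitution -/
theorem sb_coeff (i e : ℕ) (hi : 1 ≤ i) (t : ℂ) (F : PowerSeries ℂ) (hF : cut true i F) :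
    (∀ l < i + 1 + e, PowerSeries.coeff l (sb (e + 1) t F) = PowerSeries.coeff l F) ∧
    PowerSeries.coeff (i + 1 + e) (sb (e + 1) t F) =
      PowerSeries.coeff (i + 1 + e) F + i * t * PowerSeries.coeff i F := by
  set c := PowerSeries.coeff 0 F with hc
  set G : PowerSeries ℂ := PowerSeries.mk fun r => PowerSeries.coeff (i + r) F with hG
  have hFG : F = PowerSeries.C c + PowerSeries.X ^ i * G := by
    ext l
    rw [map_add, PowerSeries.coeff_X_pow_mul', PowerSeries.coeff_C]
    by_cases h1 : i ≤ l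
    · rw [if_pos h1, hG, PowerSeries.coeff_mk, Nat.add_sub_cancel' h1, if_neg (by omega), zero_add]
    · rw [if_neg h1, add_zero]
      by_cases h2 : l = 0
      · rw [if_pos h2, h2]
      · rw [if_neg h2]
        exact hF l (by omega) (by simpa using h1)
  set F' : PowerSeries ℂ := PowerSeries.X ^ i * sb (e + 1) t G with hF'
  have h1 : sb (e + 1) t F = PowerSeries.C c +
      (1 + PowerSeries.C t * PowerSeries.X ^ (e + 1)) ^ i * F' := by
    have h2 : sb (e + 1) t (PowerSeries.C c) = PowerSeries.C c := by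
      have h3 := (sb (e + 1) t).commutes c
      exact h3
    conv_lhs => rw [hFG]
    rw [map_add, map_mul, map_pow, h2, sb_X, phi, hF', mul_pow]
    ring
  have h2 : ∀ l < i + (e + 2), PowerSeries.coeff l F' =
      PowerSeries.coeff l (PowerSeries.X ^ i * G) := by
    obtain ⟨H, hH⟩ := sb_near (e + 1) t G
    intro l hl
    have h3 : F' = PowerSeries.X ^ i * G + PowerSeries.X ^ (i + (e + 1 + 1)) * H := by
      have h4 : sb (e + 1) t G = G + PowerSeries.X ^ (e + 1 + 1) * H := by
        rw [← hH]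
        ring
      rw [hF', h4]
      ring
    have h5 : PowerSeries.coeff l (PowerSeries.X ^ (i + (e + 1 + 1)) * H) = 0 := by
      rw [PowerSeries.coeff_X_pow_mul', if_neg (by omega)]
    rw [h3, map_add, h5, add_zero]
  have h3 : ∀ l < i, PowerSeries.coeff l F' = 0 := by
    intro l hl
    rw [h2 l (by omega), PowerSeries.coeff_X_pow_mul', if_neg (by omega)]
  obtain ⟨a1, a2⟩ := coeff_unit_mul t i (e + 1) (by omega) i F' h3
  have h4 : ∀ l, 1 ≤ l → l < i + (e + 2) → PowerSeries.coeff l F' = PowerSeries.coeff l F := by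
    intro l hl hl'
    rw [h2 l hl', hFG, map_add, PowerSeries.coeff_C, if_neg (by omega), zero_add]
  have e1 : i + (e + 1) = i + 1 + e := by omega
  constructor
  · intro l hl
    rw [h1, map_add, a1 l (by omega), PowerSeries.coeff_C]
    by_cases h5 : l = 0
    · rw [if_pos h5, h5, h3 0 (by omega), add_zero]
    · rw [if_neg h5, zero_add, h4 l (by omega) (by omega)]
  · rw [h1, map_add, PowerSeries.coeff_C, if_neg (by omega), zero_add, ← e1, a2,
      h4 _ (by omega) (by omega), h4 i hi (by omega)]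

section

variable {E ι : Type} [Fintype ι]

/-- reparametrised arcs -/
noncomputable def act (r : ℕ) (t : ℂ) (z : ι → PowerSeries ℂ) : ι → PowerSeries ℂ :=
  fun a => sb r t (z a)

/-- the inverse -/
noncomputable def actI (r : ℕ) (hr : 1 ≤ r) (t : ℂ) (z : ι → PowerSeries ℂ) :
    ι → PowerSeries ℂ :=
  fun a => inv r hr t (z a)

theorem act_actI (r : ℕ) (hr : 1 ≤ r) (t : ℂ) (z : ι → PowerSeries ℂ) :
    act r t (actI r hr t z) = z := by
  funext a
  exact sb_inv r hr t (z a)

theorem actI_act (r : ℕ) (hr : 1 ≤ r) (t : ℂ) (z : ι → PowerSeries ℂ) :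
    actI r hr t (act r t z) = z := by
  funext a
  exact inv_sb r hr t (z a)

theorem act_congr (r : ℕ) (t : ℂ) (n : ℕ) (z z' : ι → PowerSeries ℂ)
    (h : ∀ i, ∀ l < n, PowerSeries.coeff l (z i) = PowerSeries.coeff l (z' i)) :
    ∀ i, ∀ l < n, PowerSeries.coeff l (act r t z i) = PowerSeries.coeff l (act r t z' i) :=
  fun a => sb_congr r t n (h a)

theorem actI_congr (r : ℕ) (hr : 1 ≤ r) (t : ℂ) (n : ℕ) (z z' : ι → PowerSeries ℂ)
    (h : ∀ i, ∀ l < n, PowerSeries.coeff l (z i) = PowerSeries.coeff l (z' i)) :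
    ∀ i, ∀ l < n, PowerSeries.coeff l (actI r hr t z i) =
      PowerSeries.coeff l (actI r hr t z' i) :=
  fun a => inv_congr r hr t n (h a)

theorem f_act (f : MvPolynomial ι ℂ) (r : ℕ) (t : ℂ) (z : ι → PowerSeries ℂ) :
    aeval (act r t z) f = sb r t (aeval z f) := by
  rw [MvPolynomial.comp_aeval_apply]
  rfl

theorem f_actI (f : MvPolynomial ι ℂ) (r : ℕ) (hr : 1 ≤ r) (t : ℂ) (z : ι → PowerSeries ℂ) :
    aeval (actI r hr t z) f = inv r hr t (aeval z f) := by
  rw [MvPolynomial.comp_aeval_apply]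
  rfl

variable {f : MvPolynomial ι ℂ}

theorem PD_data {X : Set ℂ} {Q : Set (E ⊕ Bool → ℂ)} (hQ : QOk X true Q) {i e : ℕ}
    {A : ℕ → MvPolynomial (E ⊕ Bool) ℂ} {z : (E → ℂ) × (ι → PowerSeries ℂ)}
    (hz : z ∈ PD f Q i e A) : cut true i (aeval z.2 f) ∧
      PowerSeries.coeff i (aeval z.2 f) ≠ 0 := by
  obtain ⟨⟨h1, h2⟩, -⟩ := hz
  exact ⟨h1, (hQ.2 _ h2).2 rfl⟩

theorem act_coeff (i e : ℕ) (hi : 1 ≤ i) (t : ℂ) (z : ι → PowerSeries ℂ)
    (hz : cut true i (aeval z f)) :
    (∀ l < i + 1 + e, PowerSeries.coeff l (aeval (act (e + 1) t z) f) =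
      PowerSeries.coeff l (aeval z f)) ∧
    PowerSeries.coeff (i + 1 + e) (aeval (act (e + 1) t z) f) =
      PowerSeries.coeff (i + 1 + e) (aeval z f) + i * t * PowerSeries.coeff i (aeval z f) := by
  rw [f_act]
  exact sb_coeff i e hi t _ hz

theorem cut_actI (i e : ℕ) (t : ℂ) (z : ι → PowerSeries ℂ)
    (hz : cut true i (aeval z f)) : cut true i (aeval (actI (e + 1) (by omega) t z) f) := by
  rw [f_actI]
  set F := aeval z f with hF
  -- `F = c` below `i`
  have h1 : ∀ l < i, PowerSeries.coeff l F =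
      PowerSeries.coeff l (PowerSeries.C (PowerSeries.coeff 0 F)) := by
    intro l hl
    rw [PowerSeries.coeff_C]
    by_cases h2 : l = 0
    · rw [if_pos h2, h2]
    · rw [if_neg h2]
      exact hz l (by omega) (by simpa using hl)
  have h2 := inv_congr (e + 1) (by omega) t i h1
  have h3 : inv (e + 1) (by omega) t (PowerSeries.C (PowerSeries.coeff 0 F)) =
      PowerSeries.C (PowerSeries.coeff 0 F) := (inv (e + 1) (by omega) t).commutes _
  intro l hl hl'
  rw [h2 l (by simpa using hl'), h3, PowerSeries.coeff_C, if_neg (by omega)]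

/-- the polynomial map -/
noncomputable def φA (E : Type) (r : ℕ) (K : ι → ℕ) :
    E ⊕ (Σ i, Fin (K i)) → MvPolynomial ((E ⊕ Unit) ⊕ (Σ i, Fin (K i))) ℂ
  | Sum.inl p => X (Sum.inl (Sum.inl p))
  | Sum.inr ⟨a, l⟩ => PowerSeries.coeff (l : ℕ)
      (sb r (X (Sum.inl (Sum.inr ()))) (garc (E ⊕ Unit) K a))

theorem map_sb {R S : Type} [CommRing R] [CommRing S] (h : R →+* S) (r : ℕ) (t : R)
    (x : PowerSeries R) : PowerSeries.map h (sb r t x) = sb r (h t) (PowerSeries.map h x) := by
  rw [sb_eq, sb_eq]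
  have h1 := PowerSeries.map_subst (hs r t) (h := h) x
  have h2 : MvPowerSeries.map h (phi r t) = phi r (h t) := by
    change PowerSeries.map h (phi r t) = _
    simp only [phi, map_mul, map_add, map_one, map_pow, PowerSeries.map_C, PowerSeries.map_X]
  rw [h2] at h1
  exact h1

theorem φA_inr (r : ℕ) (K : ι → ℕ) (v : (E ⊕ Unit) ⊕ (Σ i, Fin (K i)) → ℂ)
    (s : Σ i, Fin (K i)) : eval v (φA E r K (Sum.inr s)) =
      PowerSeries.coeff (s.2 : ℕ) (act r (v (Sum.inl (Sum.inr ())))
        (toArc K fun s => v (Sum.inr s)) s.1) := by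
  rcases s with ⟨a, l⟩
  rw [φA, ← PowerSeries.coeff_map, map_sb, eval_X, map_garc]
  rfl

theorem step (P : HodgeMeasure) [Finite E] {X : Set ℂ}
    {Q : Set (E ⊕ Bool → ℂ)} (hQ : QOk X true Q) {i : ℕ} (hi : 1 ≤ i) (e : ℕ)
    (A : ℕ → MvPolynomial (E ⊕ Bool) ℂ) :
    vol P.rat xq (PD f Q i (e + 1) A) = xq * vol P.rat xq (PD f Q i e A) := by
  classical
  have hL := L_mul P
  set n := i + 1 + e + 1 with hn
  have hcD := cyl_PD f hQ.1 i (e + 1) A n (by omega)
  have hcB := cyl_PD f hQ.1 i e A n (by omega)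
  suffices H : P.rat.L * vol P.rat xq (PD f Q i (e + 1) A) = vol P.rat xq (PD f Q i e A) by
    rw [← H, ← mul_assoc, mul_comm xq, hL, one_mul]
  rw [vol_eq P.rat hL hcD, vol_eq P.rat hL hcB, ← mul_assoc]
  congr 1
  set K : ι → ℕ := fun _ => n with hK
  set S' : Set ((E ⊕ Unit) ⊕ (Σ i, Fin (K i)) → ℂ) := {v | ((fun p => v (Sum.inl (Sum.inl p))),
    toArc K fun s => v (Sum.inr s)) ∈ PD f Q i (e + 1) A} with hS'
  have hcS' : Constructible S' := by
    have h1 := Constructible.comap (fun a : E ⊕ (Σ i, Fin (K i)) =>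
      ren1 E (Σ i, Fin (K i)) (Sum.inl a)) hcD.2
    exact h1
  have e2 : P.rat.val S' = P.rat.L * P.rat.val (sec K (PD f Q i (e + 1) A)) := by
    have h1 := P.rat.val_prod_univ hcD.2 Unit
    rw [Fintype.card_unit, pow_one] at h1
    rw [mul_comm, ← h1]
    have h2 : Constructible {x : (E ⊕ (Σ i, Fin (K i))) ⊕ Unit → ℂ |
        (fun i => x (Sum.inl i)) ∈ sec K (PD f Q i (e + 1) A)} := Constructible.comap Sum.inl hcD.2
    rw [← P.rat.reindex (ren1 E (Σ i, Fin (K i))) h2]
    rfl
  rw [← e2]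
  have hdc : (i : ℂ) ≠ 0 := by
    have : i ≠ 0 := by omega
    exact_mod_cast this
  have harc : ∀ v : (E ⊕ Unit) ⊕ (Σ i, Fin (K i)) → ℂ, ∀ i, ∀ l < K i,
      PowerSeries.coeff l (toArc K (fun s => eval v (φA E (e + 1) K (Sum.inr s))) i) =
        PowerSeries.coeff l (act (e + 1) (v (Sum.inl (Sum.inr ())))
          (toArc K fun s => v (Sum.inr s)) i) := by
    intro v i l hl
    rw [coeff_toArc, dif_pos hl, φA_inr]
  have hmem : ∀ v : (E ⊕ Unit) ⊕ (Σ i, Fin (K i)) → ℂ,
      (fun a => eval v (φA E (e + 1) K a)) ∈ sec K (PD f Q i e A) ↔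
        ((fun p => v (Sum.inl (Sum.inl p))), act (e + 1)
          (v (Sum.inl (Sum.inr ()))) (toArc K fun s => v (Sum.inr s))) ∈ PD f Q i e A := by
    intro v
    have h1 := hcB.1 (fun p => eval v (φA E (e + 1) K (Sum.inl p))) _ _ (harc v)
    have h2 : (fun p => eval v (φA E (e + 1) K (Sum.inl p))) =
        fun p => v (Sum.inl (Sum.inl p)) := by
      funext p
      rw [φA, eval_X]
    change (((fun p => eval v (φA E (e + 1) K (Sum.inl p))),
      toArc K (fun s => eval v (φA E (e + 1) K (Sum.inr s)))) ∈ PD f Q i e A) ↔ _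
    rw [h1, h2]
  refine P.rat.map S' _ (φA E (e + 1) K) hcS' hcB.2 ?_
  refine ⟨?_, ?_, ?_⟩
  · intro v hv
    rw [hmem]
    have hv' : ((fun p => v (Sum.inl (Sum.inl p))), toArc K fun s => v (Sum.inr s)) ∈
      PD f Q i (e + 1) A := hv
    have h1 := (PD_data hQ hv').1
    rw [PD_succ] at hv'
    exact (PD_congr hi (act_coeff i e hi _ _ h1).1).2 hv'.1
  · intro v hv v' hv' hvv
    have hp : (fun p => v (Sum.inl (Sum.inl p))) = fun p => v' (Sum.inl (Sum.inl p)) := by
      funext p
      have := congrFun hvv (Sum.inl p)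
      simpa only [φA, eval_X] using this
    set z := toArc K fun s => v (Sum.inr s) with hz
    set z' := toArc K fun s => v' (Sum.inr s) with hz'
    set t := v (Sum.inl (Sum.inr ())) with ht
    set t' := v' (Sum.inl (Sum.inr ())) with ht'
    have hv1 : ((fun p => v (Sum.inl (Sum.inl p))), z) ∈ PD f Q i (e + 1) A := hv
    have hv1' : ((fun p => v' (Sum.inl (Sum.inl p))), z') ∈ PD f Q i (e + 1) A := hv'
    have hact : ∀ i, ∀ l < n, PowerSeries.coeff l (act (e + 1) t z i) =
        PowerSeries.coeff l (act (e + 1) t' z' i) := by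
      intro i l hl
      have h4 := congrFun hvv (Sum.inr ⟨i, (⟨l, hl⟩ : Fin (K i))⟩)
      simp only [φA_inr] at h4
      exact h4
    have hH : ∀ l < n, PowerSeries.coeff l (aeval (act (e + 1) t z) f) =
        PowerSeries.coeff l (aeval (act (e + 1) t' z') f) :=
      GJetAux.aeval_congr _ n _ _ hact
    have hz1 := (PD_data hQ hv1).1
    have hz2 := (PD_data hQ hv1').1
    obtain ⟨a1, a3⟩ := act_coeff i e hi t z hz1
    obtain ⟨a1', a3'⟩ := act_coeff i e hi t' z' hz2
    have hF : ∀ l < i + 1 + e, PowerSeries.coeff l (aeval z f) =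
        PowerSeries.coeff l (aeval z' f) := by
      intro l hl
      rw [← a1 l hl, ← a1' l hl]
      exact hH l (by omega)
    have hdat : dat true i (aeval z f) = dat true i (aeval z' f) := by
      funext b
      rcases b with _ | _
      · exact hF i (by omega)
      · exact hF 0 (by omega)
    have h5 := (PD_succ.1 hv1).2
    have h5' := (PD_succ.1 hv1').2
    have h7 := (PD_data hQ hv1').2
    have h6 : PowerSeries.coeff i (aeval z f) = PowerSeries.coeff i (aeval z' f) :=
      hF i (by omega)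
    have htt : t = t' := by
      have h8 := hH (i + 1 + e) (by omega)
      rw [a3, a3', h5, h5', hp, hdat, h6] at h8
      have h9 := add_left_cancel h8
      exact mul_left_cancel₀ hdc (mul_right_cancel₀ h7 h9)
    rw [htt] at hact
    have hzz := actI_congr (e + 1) (by omega) t' n _ _ hact
    rw [actI_act (e + 1) (by omega), actI_act (e + 1) (by omega)] at hzz
    funext i
    rcases i with (p | ⟨⟩) | s
    · exact congrFun hp p
    · exact htt
    · have h8 := hzz s.1 s.2 s.2.2
      rw [hz, hz', coeff_toArc_lt, coeff_toArc_lt] at h8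
      exact h8
  · intro y hy
    have hy1 : ((fun p => y (Sum.inl p)), toArc K fun s => y (Sum.inr s)) ∈ PD f Q i e A := hy
    set z := toArc K fun s => y (Sum.inr s) with hz
    obtain ⟨h2, h3⟩ := PD_data hQ hy1
    set t : ℂ := (PowerSeries.coeff (i + 1 + e) (aeval z f) -
      eval (Sum.elim (fun p => y (Sum.inl p)) (dat true i (aeval z f))) (A e)) /
      (i * PowerSeries.coeff i (aeval z f)) with ht
    have h4 := cut_actI i e t z h2
    obtain ⟨a1, a3⟩ := act_coeff i e hi t (actI (e + 1) (by omega) t z) h4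
    rw [act_actI (e + 1) (by omega) t z] at a1 a3
    have h6 : i * t * PowerSeries.coeff i (aeval z f) =
        PowerSeries.coeff (i + 1 + e) (aeval z f) -
          eval (Sum.elim (fun p => y (Sum.inl p)) (dat true i (aeval z f))) (A e) := by
      have h3' : PowerSeries.coeff i (aeval z f) ≠ 0 := h3
      rw [ht]
      field_simp
    rw [← a1 i (by omega), h6] at a3
    have hdat : dat true i (aeval (actI (e + 1) (by omega) t z) f) = dat true i (aeval z f) := by
      funext b
      rcases b with _ | _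
      · exact (a1 i (by omega)).symm
      · exact (a1 0 (by omega)).symm
    have h5 : ((fun p => y (Sum.inl p)), actI (e + 1) (by omega) t z) ∈ PD f Q i (e + 1) A := by
      rw [PD_succ]
      refine ⟨(PD_congr hi fun l hl => (a1 l hl).symm).2 hy1, ?_⟩
      rw [hdat]
      linear_combination -a3
    set v : (E ⊕ Unit) ⊕ (Σ i, Fin (K i)) → ℂ := Sum.elim (Sum.elim (fun p => y (Sum.inl p))
      fun _ => t) fun s => PowerSeries.coeff (s.2 : ℕ) (actI (e + 1) (by omega) t z s.1) with hv
    have hva : ∀ i, ∀ l < K i, PowerSeries.coeff l (toArc K (fun s => v (Sum.inr s)) i) =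
        PowerSeries.coeff l (actI (e + 1) (by omega) t z i) := by
      intro i l hl
      rw [coeff_toArc, dif_pos hl]
      rfl
    refine ⟨v, ?_, ?_⟩
    · have h7 := hcD.1 (fun p => y (Sum.inl p)) _ _ hva
      change ((fun p => y (Sum.inl p)), toArc K fun s => v (Sum.inr s)) ∈ PD f Q i (e + 1) A
      rw [h7]
      exact h5
    · funext i
      rcases i with p | s
      · simp only [φA, eval_X]
        rfl
      · simp only [φA_inr]
        have h8 := act_congr (e + 1) t n _ _ hva s.1 s.2 s.2.2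
        rw [act_actI (e + 1) (by omega)] at h8
        exact h8.trans (coeff_toArc_lt K (fun s => y (Sum.inr s)) s.1 s.2)

end

end UA

open UA

/-- `Unif` holds for every polynomial and every set of values -/
theorem unif_all (P : HodgeMeasure) {ι : Type} [Fintype ι] (f : MvPolynomial ι ℂ) (X : Set ℂ) :
    Unif P f X := by
  intro E _ Q hQ i e hi A
  induction e with
  | zero =>
    rw [pow_zero, one_mul]
    congr 1
    ext z
    simp only [PD, Set.mem_ofPred_eq]
    exact ⟨fun h => h.1, fun h => ⟨h, fun l hl => absurd hl (Nat.not_lt_zero l)⟩⟩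
  | succ e ih =>
    rw [step P hQ hi e A, ih, pow_succ']
    ring

end Pool.Agent.Mono.RO
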