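import Pool.Agent.Work.Monodromy6.InterfaceSQ
import Pool.Agent.Work.Monodromy6.UnifAll
import Pool.Agent.Work.Monodromy5.O5
import Pool.Agent.Work.Monodromy5.G5
import Pool.Agent.Work.Monodromy5.TC5

/-!
# Block LE (helper2), part A: splitting by the starting point of the arc
-/

set_option autoImplicit false
set_option linter.unusedSectionVars false

namespace Pool.Agent.Mono.RO

open MvPolynomial TS

namespace LEAux

open VGAux TC5Aux

section

variable {E ι : Type} [Fintype ι]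

/-- the starting point of an arc -/
noncomputable def st (y : ι → PowerSeries ℂ) : ι → ℂ := fun a => PowerSeries.coeff 0 (y a)

/-- the distribution of `f` on the arcs with starting point in `U` is given by `Gs` -/
def DU (P : HodgeMeasure) (f : MvPolynomial ι ℂ) (U : Set (ι → ℂ)) (w : Bool)
    (Gs : List Fam2) : Prop :=
  (∀ G ∈ Gs, G.Ok Set.univ w) ∧
  ∀ (E : Type) [Finite E] (Q : Set (E ⊕ Bool → ℂ)), QOk Set.univ w Q →
    ∀ i : ℕ, (w = true → 1 ≤ i) →
      vol P.rat xq {z : (E → ℂ) × (ι → PowerSeries ℂ) | st z.2 ∈ U ∧ z ∈ SD f w Q i} =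
        (Gs.map fun G => G.κ i * G.cl P Q).sum

theorem Cy_st [Finite E] {U : Set (ι → ℂ)} (hU : Constructible U) :
    Cy {z : (E → ℂ) × (ι → PowerSeries ℂ) | st z.2 ∈ U} :=
  Cy.mem hU fun a => RF.arc a 0

theorem Cy_SD [Finite E] (f : MvPolynomial ι ℂ) (w : Bool) {Q : Set (E ⊕ Bool → ℂ)}
    (hQ : Constructible Q) (i : ℕ) : Cy (SD f w Q i) := by
  refine Cy.and ?_ (Cy.mem hQ (O5Aux.RF_dat f w i))
  have h : {z : (E → ℂ) × (ι → PowerSeries ℂ) | cut w i (aeval z.2 f)} =
      {z | ∀ l < (if w then i else i + 1), 1 ≤ l → PowerSeries.coeff l (aeval z.2 f) = 0} := by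
    ext z
    exact ⟨fun h l hl hl' => h l hl' hl, fun h l hl hl' => h l hl' hl⟩
  rw [h]
  exact Cy.all_lt _ fun l _ => Cy.imp fun _ => Cy.zero (RF.coef f l)

theorem Cy_stSD [Finite E] (f : MvPolynomial ι ℂ) (w : Bool) {Q : Set (E ⊕ Bool → ℂ)}
    (hQ : Constructible Q) (i : ℕ) {U : Set (ι → ℂ)} (hU : Constructible U) :
    Cy {z : (E → ℂ) × (ι → PowerSeries ℂ) | st z.2 ∈ U ∧ z ∈ SD f w Q i} :=
  Cy.and (Cy_st hU) (Cy_SD f w hQ i)

/-- splitting by the starting point -/
theorem vol_st (P : HodgeMeasure) [Finite E] (f : MvPolynomial ι ℂ) (w : Bool)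
    {Q : Set (E ⊕ Bool → ℂ)} (hQ : Constructible Q) (i : ℕ) {U : Set (ι → ℂ)}
    (hU : Constructible U) (Z : Finset (ι → ℂ)) (hZ : ∀ x, x ∈ U ↔ x ∉ Z) :
    vol P.rat xq (SD f w Q i) =
      vol P.rat xq {z : (E → ℂ) × (ι → PowerSeries ℂ) | st z.2 ∈ U ∧ z ∈ SD f w Q i} +
      ∑ p ∈ Z, vol P.rat xq {z : (E → ℂ) × (ι → PowerSeries ℂ) |
        st z.2 ∈ ({p} : Set (ι → ℂ)) ∧ z ∈ SD f w Q i} := by
  classical
  have hp : ∀ p : ι → ℂ, Constructible ({p} : Set (ι → ℂ)) := fun p => Constructible.point p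
  rw [← vol_biU P Z (fun p _ => Cy_stSD f w hQ i (hp p)), ← vol_uni P (Cy_stSD f w hQ i hU)
    (Cy.biUnion Z fun p _ => Cy_stSD f w hQ i (hp p))]
  · congr 1
    ext z
    simp only [Set.mem_union, Set.mem_iUnion, Set.mem_ofPred_eq, exists_prop,
      Set.mem_singleton_iff]
    constructor
    · intro hz
      by_cases h : st z.2 ∈ Z
      · exact Or.inr ⟨st z.2, h, rfl, hz⟩
      · exact Or.inl ⟨(hZ _).2 h, hz⟩
    · rintro (h | ⟨p, -, -, h⟩)
      · exact h.2
      · exact h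
  · rw [Set.disjoint_left]
    rintro z ⟨h1, -⟩ h2
    simp only [Set.mem_iUnion, Set.mem_ofPred_eq, exists_prop, Set.mem_singleton_iff] at h2
    obtain ⟨p, hp, h3, -⟩ := h2
    rw [← h3] at hp
    exact (hZ _).1 h1 hp
  · intro p _ q _ hpq
    rw [Set.disjoint_left]
    rintro z ⟨h1, -⟩ ⟨h2, -⟩
    exact hpq (h1.symm.trans h2)

/-! ## Noncritical points -/

/-- the noncritical points -/
def NC (f : MvPolynomial ι ℂ) : Set (ι → ℂ) := {x | ∃ a, eval x (pderiv a f) ≠ 0}

theorem con_NC (f : MvPolynomial ι ℂ) : Constructible (NC f) :=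
  Constructible.ex fun a => Constructible.ne (pderiv a f)

theorem DU_ex (P : HodgeMeasure) (f : MvPolynomial ι ℂ) :
    DU P f (NC f) true [(⟨ι, inferInstance, NC f, f, xq ^ Fintype.card ι⟩ : HT).ex] := by
  classical
  constructor
  · intro G hG
    rw [List.mem_singleton] at hG
    subst hG
    refine ⟨O5Aux.con_ex (con_NC f), ?_⟩
    rintro (τ : ι ⊕ Unit → ℂ) ⟨h1, h2⟩
    refine ⟨Set.mem_univ _, fun _ => ?_⟩
    have h3 : eval τ (MvPolynomial.X (Sum.inr ()) : MvPolynomial (ι ⊕ Unit) ℂ) ≠ 0 := by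
      rw [eval_X]
      exact h2
    exact h3
  · intro E _ Q hQ i hi
    have hi := hi rfl
    set R : Set ((E ⊕ Unit) ⊕ ι → ℂ) := {u | u ∈ O5Aux.RP f Q ∧ (fun j => u (Sum.inr j)) ∈ NC f}
      with hR
    have cR : Constructible R :=
      Constructible.and (O5Aux.con_RP f hQ.1) (Constructible.comap Sum.inr (con_NC f))
    have e1 : vol P.rat xq {z : (E → ℂ) × (ι → PowerSeries ℂ) |
        st z.2 ∈ NC f ∧ z ∈ SD f true Q i} =
        vol P.rat xq (O5Aux.DN f R (O5Aux.BP f i fun _ => 0) i) := by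
      have key : ∀ z : (E ⊕ Unit → ℂ) × (ι → PowerSeries ℂ),
          z ∈ O5Aux.DN f R (O5Aux.BP f i fun _ => 0) i ↔
          (((fun p => z.1 (Sum.inl p)), z.2) ∈ SD f true Q i ∧
            z.1 (Sum.inr ()) = PowerSeries.coeff i (aeval z.2 f)) ∧ st z.2 ∈ NC f := by
        intro z
        have h := O5Aux.mem_DN_iff f Q hi 0 (fun _ => 0) z
        rw [O5Aux.PD_zero, add_zero] at h
        rw [← h]
        constructor
        · rintro ⟨⟨h1, h2⟩, h3⟩
          exact ⟨⟨h1, h3⟩, h2⟩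
        · rintro ⟨⟨h1, h3⟩, h2⟩
          exact ⟨⟨h1, h2⟩, h3⟩
      symm
      refine vol_base P (O5Aux.Cy_DN f cR _ _) (Cy_stSD f true hQ.1 i (con_NC f)) Sum.inl ?_ ?_ ?_
      · intro z hz
        have h := (key z).1 hz
        exact ⟨h.2, h.1.1⟩
      · intro z hz z' hz' h1 h2
        have h3 := ((key z).1 hz).1.2
        have h4 := ((key z').1 hz').1.2
        funext s
        rcases s with p | ⟨⟩
        · exact congrFun h1 p
        · rw [h3, h4, h2]
      · intro z hz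
        refine ⟨Sum.elim z.1 fun _ => PowerSeries.coeff i (aeval z.2 f), rfl, ?_⟩
        exact (key _).2 ⟨⟨hz.2, rfl⟩, hz.1⟩
    rw [e1, O5Aux.vol_DN P f i _ Finset.univ R cR]
    · simp only [List.map_cons, List.map_nil, List.sum_cons, List.sum_nil, add_zero]
      rw [pow_add]
      change _ = (xq ^ Fintype.card ι * xq ^ i) * _
      congr 1
      rw [← P.rat.reindex ((Equiv.sumAssoc E Unit ι).trans
        (Equiv.sumCongr (Equiv.refl E) (Equiv.sumComm Unit ι))) cR]
      unfold Fam2.cl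
      congr 1
      ext (z : E ⊕ (ι ⊕ Unit) → ℂ)
      constructor
      · rintro ⟨hz, hz2⟩
        have hz' : Sum.elim (fun p => z (Sum.inl p)) (fun b : Bool =>
            if b then eval (fun j => z (Sum.inr (Sum.inl j))) f else z (Sum.inr (Sum.inr ()))) ∈
              Q := hz
        refine ⟨⟨hz2, (hQ.2 _ hz').2 rfl⟩, ?_⟩
        rw [← O5Aux.ev_ex] at hz'
        exact hz'
      · rintro ⟨⟨hz2, -⟩, hz⟩
        have hz' : (Sum.elim (fun p => z (Sum.inl p)) (fun b : Bool =>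
          if b then eval (fun s => z (Sum.inr s)) (rename Sum.inl f : MvPolynomial (ι ⊕ Unit) ℂ)
            else eval (fun s => z (Sum.inr s)) (MvPolynomial.X (Sum.inr ()) :
              MvPolynomial (ι ⊕ Unit) ℂ))) ∈ Q := hz
        rw [O5Aux.ev_ex] at hz'
        exact ⟨hz', hz2⟩
    · rintro u ⟨-, j, hj⟩
      exact ⟨j, Finset.mem_univ j, hj⟩

theorem DU_tl (P : HodgeMeasure) (f : MvPolynomial ι ℂ) :
    DU P f (NC f) false [(⟨ι, inferInstance, NC f, f, xq ^ Fintype.card ι⟩ : HT).tl] := by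
  classical
  constructor
  · intro G hG
    rw [List.mem_singleton] at hG
    subst hG
    exact ⟨con_NC f, fun τ h => ⟨Set.mem_univ _, fun h' => absurd h' (by decide)⟩⟩
  · intro E _ Q hQ i _
    set R : Set (E ⊕ ι → ℂ) := {u | u ∈ O5Aux.RT f Q ∧ (fun j => u (Sum.inr j)) ∈ NC f} with hR
    have cR : Constructible R :=
      Constructible.and (O5Aux.con_RT f hQ.1) (Constructible.comap Sum.inr (con_NC f))
    have e1 : {z : (E → ℂ) × (ι → PowerSeries ℂ) | st z.2 ∈ NC f ∧ z ∈ SD f false Q i} =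
        O5Aux.DN f R (fun _ => 0) i := by
      ext z
      rw [O5Aux.SD_false]
      constructor
      · rintro ⟨h1, h2, h3⟩
        exact ⟨⟨h2, h1⟩, h3⟩
      · rintro ⟨⟨h2, h1⟩, h3⟩
        exact ⟨h1, h2, h3⟩
    rw [e1, O5Aux.vol_DN P f i _ Finset.univ R cR]
    · simp only [List.map_cons, List.map_nil, List.sum_cons, List.sum_nil, add_zero]
      rw [pow_add]
      change _ = (xq ^ Fintype.card ι * xq ^ i) * _
      congr 1
      unfold Fam2.cl
      congr 1
      ext (z : E ⊕ ι → ℂ)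
      constructor
      · rintro ⟨hz, hz2⟩
        have hz' : Sum.elim (fun p => z (Sum.inl p)) (fun b : Bool =>
            if b then eval (fun j => z (Sum.inr j)) f else 0) ∈ Q := hz
        refine ⟨hz2, ?_⟩
        rw [← O5Aux.ev_tl] at hz'
        exact hz'
      · rintro ⟨hz2, hz⟩
        have hz' : (Sum.elim (fun p => z (Sum.inl p)) (fun b : Bool =>
          if b then eval (fun s => z (Sum.inr s)) f else
            eval (fun s => z (Sum.inr s)) (0 : MvPolynomial ι ℂ))) ∈ Q := hz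
        rw [O5Aux.ev_tl] at hz'
        exact ⟨hz', hz2⟩
    · rintro u ⟨-, j, hj⟩
      exact ⟨j, Finset.mem_univ j, hj⟩

end

end LEAux

end Pool.Agent.Mono.RO
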