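import Pool.Agent.Work.Monodromy6.LEA

/-!
# Block LE (helper2), part B: from local data at the critical points to `Reg`
-/

set_option autoImplicit false
set_option linter.unusedSectionVars false

namespace Pool.Agent.Mono.RO

open MvPolynomial TS

namespace LEAux

open VGAux TC5Aux

section

variable {ι : Type} [Fintype ι]

/-- the Haar part at a point with value `c` -/
noncomputable def hpt (c : ℂ) (a : K) : HT where
  σ := Empty
  fin := inferInstance
  H := Set.univ
  v := C c
  lam := a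

/-- local data at the point `p` -/
def LocD (P : HodgeMeasure) (f : MvPolynomial ι ℂ) (p : ι → ℂ) (Λ : Set ℚ) : Prop :=
  ∃ (a : K) (ts : List Fam) (b : ℕ → K), (∀ t ∈ ts, ESeq Λ t.κ) ∧ ESeq Λ b ∧
    DU P f {p} true ((hpt (eval p f) a).ex :: ts.map fun t => atv t (eval p f)) ∧
    DU P f {p} false [(hpt (eval p f) a).tl, ptv (eval p f) b]

theorem reg_of_loc (P : HodgeMeasure) (f : MvPolynomial ι ℂ) (Z : Finset (ι → ℂ))
    (hZ : ∀ p, p ∈ Z ↔ ∀ a, eval p (pderiv a f) = 0) (Λ : (ι → ℂ) → Set ℚ)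
    (h : ∀ p ∈ Z, LocD P f p (Λ p)) :
    Reg P f Set.univ fun c => {r | ∃ p, (∀ a, eval p (pderiv a f) = 0) ∧ eval p f = c ∧
      r ∈ Λ p} := by
  classical
  have hQ1 : Stmt_Q1 := stmt_Q1
  unfold LocD at h
  choose! a ts b h1 h2 h3 h4 using h
  have hNC : ∀ x, x ∈ NC f ↔ x ∉ Z := by
    intro x
    rw [hZ x]
    simp [NC]
  set h0 : HT := ⟨ι, inferInstance, NC f, f, xq ^ Fintype.card ι⟩ with hh0
  set hs : List HT := h0 :: Z.toList.map fun p => hpt (eval p f) (a p) with hhs
  set crit : Finset ℂ := Z.image fun p => eval p f with hcrit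
  set tc : ℂ → List Fam := fun c => (Z.filter fun p => eval p f = c).toList.flatMap ts with htc
  set bc : ℂ → ℕ → K := fun c i => ∑ p ∈ Z.filter (fun p => eval p f = c), b p i with hbc
  have hex : ∀ φ : Fam2 → K, ((exF hs crit tc).map φ).sum = φ h0.ex +
      ∑ p ∈ Z, (φ (hpt (eval p f) (a p)).ex +
        ((ts p).map fun t => φ (atv t (eval p f))).sum) := by
    intro φ
    rw [exF_sum, hhs, List.map_cons, List.sum_cons, List.map_map, Finset.sum_map_toList,
      Finset.sum_add_distrib, add_assoc]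
    congr 2
    rw [hcrit]
    rw [← Finset.sum_fiberwise_of_maps_to (s := Z) (t := Z.image fun p => eval p f)
      (g := fun p => eval p f) (fun p hp => Finset.mem_image_of_mem _ hp)]
    refine Finset.sum_congr rfl fun c _ => ?_
    rw [htc]
    dsimp only
    rw [flat_sum, Finset.sum_map_toList]
    refine Finset.sum_congr rfl fun p hp => ?_
    rw [(Finset.mem_filter.1 hp).2]
  have hok1 : ∀ G ∈ exF hs crit tc, G.Ok Set.univ true := by
    intro G hG
    rcases mem_exF.1 hG with ⟨g, hg, rfl⟩ | ⟨c, hc, t, ht, rfl⟩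
    · rw [hhs] at hg
      rcases List.mem_cons.1 hg with rfl | hg
      · exact (DU_ex P f).1 _ (List.mem_singleton.2 rfl)
      · obtain ⟨p, hp, rfl⟩ := List.mem_map.1 hg
        exact (h3 p (Finset.mem_toList.1 hp)).1 _ List.mem_cons_self
    · rw [htc] at ht
      obtain ⟨p, hp, ht⟩ := List.mem_flatMap.1 ht
      have hp' := Finset.mem_filter.1 (Finset.mem_toList.1 hp)
      rw [← hp'.2]
      exact (h3 p hp'.1).1 _ (List.mem_cons_of_mem _ (List.mem_map.2 ⟨t, ht, rfl⟩))
  have hok2 : ∀ G ∈ tlF hs crit bc, G.Ok Set.univ false := by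
    intro G hG
    rcases mem_tlF.1 hG with ⟨g, hg, rfl⟩ | ⟨c, hc, rfl⟩
    · rw [hhs] at hg
      rcases List.mem_cons.1 hg with rfl | hg
      · exact (DU_tl P f).1 _ (List.mem_singleton.2 rfl)
      · obtain ⟨p, hp, rfl⟩ := List.mem_map.1 hg
        exact (h4 p (Finset.mem_toList.1 hp)).1 _ List.mem_cons_self
    · exact ⟨Constructible.univ, fun τ h => ⟨Set.mem_univ _, fun h' => absurd h' (by decide)⟩⟩
  refine ⟨hs, crit, tc, bc, ?_, ⟨hok1, ?_⟩, ⟨hok2, ?_⟩, unif_all P f Set.univ⟩
  · intro c hc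
    have key : ∀ p ∈ Z.filter (fun p => eval p f = c), Λ p ⊆ {r | ∃ p,
        (∀ a, eval p (pderiv a f) = 0) ∧ eval p f = c ∧ r ∈ Λ p} := by
      intro p hp r hr
      have hp' := Finset.mem_filter.1 hp
      exact ⟨p, (hZ p).1 hp'.1, hp'.2, hr⟩
    constructor
    · intro t ht
      rw [htc] at ht
      obtain ⟨p, hp, ht⟩ := List.mem_flatMap.1 ht
      have hp' := Finset.mem_toList.1 hp
      exact hQ1.1 _ _ _ (key p hp') (h1 p (Finset.mem_filter.1 hp').1 t ht)
    · exact eseq_sum _ _ _ fun p hp => hQ1.1 _ _ _ (key p hp) (h2 p (Finset.mem_filter.1 hp).1)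
  · intro E _ Q hQ i hi
    rw [hex fun G => G.κ i * G.cl P Q, vol_st P f true hQ.1 i (con_NC f) Z hNC,
      (DU_ex P f).2 E Q hQ i hi]
    congr 1
    · simp [hh0]
    · refine Finset.sum_congr rfl fun p hp => ?_
      rw [(h3 p hp).2 E Q hQ i hi, List.map_cons, List.sum_cons, List.map_map]
      rfl
  · intro E _ Q hQ i hi
    rw [tlF_sum, hhs, List.map_cons, List.sum_cons, List.map_map, Finset.sum_map_toList,
      vol_st P f false hQ.1 i (con_NC f) Z hNC, (DU_tl P f).2 E Q hQ i hi, add_assoc]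
    congr 1
    · simp [hh0]
    · rw [hcrit]
      have e1 : ∑ c ∈ Z.image (fun p => eval p f), (ptv c (bc c)).κ i * (ptv c (bc c)).cl P Q =
          ∑ p ∈ Z, b p i * (ptv (eval p f) (b p)).cl P Q := by
        rw [← Finset.sum_fiberwise_of_maps_to (s := Z) (t := Z.image fun p => eval p f)
          (g := fun p => eval p f) (fun p hp => Finset.mem_image_of_mem _ hp)]
        refine Finset.sum_congr rfl fun c _ => ?_
        change (∑ p ∈ Z.filter (fun p => eval p f = c), b p i) * _ = _
        rw [Finset.sum_mul]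
        refine Finset.sum_congr rfl fun p hp => ?_
        rw [(Finset.mem_filter.1 hp).2]
        rfl
      rw [e1, ← Finset.sum_add_distrib]
      refine Finset.sum_congr rfl fun p hp => ?_
      rw [(h4 p hp).2 E Q hQ i hi, List.map_cons, List.sum_cons, List.map_cons, List.sum_cons,
        List.map_nil, List.sum_nil, add_zero]
      rfl

end

end LEAux

end Pool.Agent.Mono.RO
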