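import Pool.Agent.Work.Monodromy.Interface6V
import Pool.Agent.Work.Monodromy.Interface6W
import Pool.Agent.Work.Monodromy5.TG5F
import Pool.Agent.Work.Monodromy6.UnifAll
import Pool.Agent.Work.Monodromy4.Q1

/-!
# Block PC (helper17): every nonconstant polynomial in two variables is a gate
-/

set_option autoImplicit false

namespace Pool.Agent.Mono.PC

open MvPolynomial TS RO

namespace PCAux

/-- the distribution near a stratum -/
def Pce (P : HodgeMeasure) (f : P2) (Λ : ℂ → Set ℚ) (Z : Set (Fin 2 → ℂ)) : Prop :=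
  ∃ (hs : List HT) (L : List (ℂ × Fam)) (L' : List (ℂ × (ℕ → K))),
    (∀ x ∈ L, ESeq (Λ x.1) x.2.κ) ∧ (∀ x ∈ L', ESeq (Λ x.1) x.2) ∧
    HasDz P f Z true (hs.map HT.ex ++ L.map fun x => atv x.2 x.1) ∧
    HasDz P f Z false (hs.map HT.tl ++ L'.map fun x => ptv x.1 x.2)

theorem sum_ofFn_append {n : ℕ} (A B : Fin n → List Fam2) (F : Fam2 → K) :
    ((List.ofFn fun j => A j ++ B j).flatten.map F).sum =
      ((List.ofFn A).flatten.map F).sum + ((List.ofFn B).flatten.map F).sum := by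
  simp only [List.map_flatten, List.sum_flatten, List.map_ofFn, List.sum_ofFn,
    Function.comp_def, List.map_append, List.sum_append, Finset.sum_add_distrib]

theorem sum_ofFn_map {α : Type*} {n : ℕ} (A : Fin n → List α) (φ : α → Fam2) (F : Fam2 → K) :
    ((List.ofFn fun j => (A j).map φ).flatten.map F).sum =
      ((List.ofFn A).flatten.map fun a => F (φ a)).sum := by
  simp only [List.map_flatten, List.sum_flatten, List.map_ofFn, List.sum_ofFn,
    Function.comp_def, List.map_map]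

theorem reg_of_pieces (hVGL : Stmt_VGL) (P : HodgeMeasure) (f : P2) (Λ : ℂ → Set ℚ) {n : ℕ}
    (Z : Fin n → Set (Fin 2 → ℂ)) (hZ : ∀ j, Constructible (Z j))
    (hd : ∀ j j', j ≠ j' → Disjoint (Z j) (Z j')) (hc : ∀ x, ∃ j, x ∈ Z j)
    (h : ∀ j, Pce P f Λ (Z j)) : Reg P f Set.univ Λ := by
  choose hs L L' hL hL' hE hT using h
  have hE' := hVGL P (Fin 2) f true n Z _ hZ hd hc hE
  have hT' := hVGL P (Fin 2) f false n Z _ hZ hd hc hT
  refine TG5Aux.reg_of_lists (List.ofFn hs).flatten (List.ofFn L).flatten (List.ofFn L').flatten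
    ?_ ?_ ?_ ?_ ?_ (unif_all P f Set.univ)
  · intro h hh
    obtain ⟨l, hl, hhl⟩ := List.mem_flatten.1 hh
    obtain ⟨j, rfl⟩ := List.mem_ofFn.1 hl
    have h1 := (hT j).1 h.tl (List.mem_append_left _ (List.mem_map_of_mem hhl))
    exact ⟨h1.1, fun _ _ => Set.mem_univ _⟩
  · intro x hx _
    obtain ⟨l, hl, hxl⟩ := List.mem_flatten.1 hx
    obtain ⟨j, rfl⟩ := List.mem_ofFn.1 hl
    have h1 := (hE j).1 (atv x.2 x.1) (List.mem_append_right _ (List.mem_map.2 ⟨x, hxl, rfl⟩))
    exact ⟨hL j x hxl, h1.1, fun τ hτ => (h1.2 τ hτ).2 rfl⟩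
  · intro x hx _
    obtain ⟨l, hl, hxl⟩ := List.mem_flatten.1 hx
    obtain ⟨j, rfl⟩ := List.mem_ofFn.1 hl
    exact hL' j x hxl
  · intro E _ Q hQ i hi
    rw [hE'.2 E Q hQ i fun _ => hi, sum_ofFn_append, sum_ofFn_map, sum_ofFn_map]
    rfl
  · intro E _ Q hQ i
    rw [hT'.2 E Q hQ i fun h => absurd h (by simp), sum_ofFn_append, sum_ofFn_map, sum_ofFn_map]
    rfl

/-- the product of the other factors -/
theorem prod_split (g : ℕ → P2) (n j : ℕ) (hj : j ∈ Finset.Icc 1 n) :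
    ∏ k ∈ Finset.Icc 1 n, g k = g j * ∏ k ∈ (Finset.Icc 1 n).erase j, g k :=
  (Finset.mul_prod_erase _ _ hj).symm

theorem prod_split' (g : ℕ → P2) (n j : ℕ) (hj : j ∈ Finset.Icc 1 n) :
    ∏ k ∈ Finset.Icc 1 n, g k ^ k = g j ^ j * ∏ k ∈ (Finset.Icc 1 n).erase j, g k ^ k :=
  (Finset.mul_prod_erase _ (fun k => g k ^ k) hj).symm

/-- at a point which is not singular -/
theorem nonsing (g : ℕ → P2) (n j : ℕ) (hj : j ∈ Finset.Icc 1 n) (x : Fin 2 → ℂ)
    (h0 : eval x (g j) = 0) (i : Fin 2)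
    (hi : eval x (pderiv i (∏ k ∈ Finset.Icc 1 n, g k)) ≠ 0) :
    eval x (∏ k ∈ (Finset.Icc 1 n).erase j, g k) ≠ 0 ∧ eval x (pderiv i (g j)) ≠ 0 := by
  rw [prod_split g n j hj, Derivation.leibniz] at hi
  simp only [smul_eq_mul, map_add, map_mul, h0, zero_mul, zero_add] at hi
  exact ⟨left_ne_zero_of_mul hi, right_ne_zero_of_mul hi⟩

theorem pow_ne (g : ℕ → P2) (s : Finset ℕ) (x : Fin 2 → ℂ) (h : eval x (∏ k ∈ s, g k) ≠ 0) :
    eval x (∏ k ∈ s, g k ^ k) ≠ 0 := by
  rw [map_prod] at h ⊢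
  rw [Finset.prod_ne_zero_iff] at h ⊢
  intro k hk
  rw [map_pow]
  exact pow_ne_zero _ (h k hk)

/-- multiple components give witnesses -/
theorem wit_mult (hMF : Stmt_MF6) (F : P2) (n : ℕ) (g : ℕ → P2)
    (hF : F = ∏ k ∈ Finset.Icc 1 n, g k ^ k) (hsq : Squarefree (∏ k ∈ Finset.Icc 1 n, g k))
    (j : ℕ) (hj : j ∈ Finset.Icc 2 n) (x : Fin 2 → ℂ) (h0 : eval x (g j) = 0) :
    WitClass F (1 / (j : ℚ)) := by
  rw [Finset.mem_Icc] at hj
  have hj1 : j ∈ Finset.Icc 1 n := Finset.mem_Icc.2 ⟨by omega, hj.2⟩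
  have hR0 : (∏ k ∈ Finset.Icc 1 n, g k) ≠ 0 := hsq.ne_zero
  have hg0 : g j ≠ 0 := by
    intro h
    rw [prod_split g n j hj1, h, zero_mul] at hR0
    exact hR0 rfl
  have hgu : ¬ IsUnit (g j) := by
    intro h
    exact (h.map (eval x)).ne_zero h0
  obtain ⟨p, hp, q, hq⟩ := WfDvdMonoid.exists_irreducible_factor hgu hg0
  have hW := hMF (Fin 2) p (q ^ j * ∏ k ∈ (Finset.Icc 1 n).erase j, g k ^ k) j hj.1 hp ?_
  · have e : p ^ j * (q ^ j * ∏ k ∈ (Finset.Icc 1 n).erase j, g k ^ k) = F := by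
      rw [hF, prod_split' g n j hj1, hq]
      ring
    rw [e] at hW
    refine ⟨-1 / (j : ℚ), 0, ?_, by simp [neg_div], by simpa using hW⟩
    have : (0 : ℚ) < j := by exact_mod_cast (by omega : 0 < j)
    rw [neg_div]
    simpa using this
  · intro hdvd
    have hnd : ¬ p ∣ q * ∏ k ∈ (Finset.Icc 1 n).erase j, g k := by
      rintro ⟨s, hs⟩
      have h1 : p * p ∣ ∏ k ∈ Finset.Icc 1 n, g k := by
        refine ⟨s, ?_⟩
        rw [prod_split g n j hj1, hq]
        linear_combination p * hs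
      exact hp.not_isUnit (hsq p h1)
    rcases hp.prime.dvd_or_dvd hdvd with h1 | h1
    · exact hnd ((hp.prime.dvd_of_dvd_pow h1).mul_right _)
    · obtain ⟨k, hk, hk2⟩ := (Prime.dvd_finsetProd_iff hp.prime _).1 h1
      refine hnd (Dvd.dvd.mul_left ?_ _)
      exact (hp.prime.dvd_of_dvd_pow hk2).trans (Finset.dvd_prod_of_mem _ hk)

end PCAux

open PCAux

theorem stmt_PC (hVPT : Stmt_VPT) (hVSM : Stmt_VSM) (hVMU : Stmt_VMU) (hVGL : Stmt_VGL)
    (hALG : Stmt_ALG) (hTREE : Stmt_TREE) (hMF : Stmt_MF6) : Stmt_PC := by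
  classical
  intro f hf
  refine ⟨hf, fun P => ⟨fun c => {r : ℚ | 0 < r ∧ WitClass (f - C c) r}, fun c r hr => hr.1,
    fun c r hr => hr.2, ?_⟩⟩
  set Λ : ℂ → Set ℚ := fun c => {r : ℚ | 0 < r ∧ WitClass (f - C c) r} with hΛ
  have hQ1 : Stmt_Q1 := stmt_Q1
  obtain ⟨crit, hcrit, hdec⟩ := hALG f hf
  choose! n g hfg hsq hfin using hdec
  set R : ℂ → P2 := fun c => ∏ j ∈ Finset.Icc 1 (n c), g c j with hR
  -- the labels
  let Lab : Type := Option ((ℂ × ℕ) ⊕ (Fin 2 → ℂ))
  let Z : Lab → Set (Fin 2 → ℂ) := fun l => match l with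
    | none => {x | ∃ i, eval x (pderiv i f) ≠ 0}
    | some (Sum.inl cj) => {x | eval x f = cj.1 ∧ eval x (g cj.1 cj.2) = 0 ∧
        ∃ i, eval x (pderiv i (R cj.1)) ≠ 0}
    | some (Sum.inr x₀) => {x₀}
  let Sing : ℂ → Finset (Fin 2 → ℂ) := fun c => if h : c ∈ crit then (hfin c h).toFinset else ∅
  have hSing : ∀ c ∈ crit, ∀ x, x ∈ Sing c ↔ eval x f = c ∧ ∀ i, eval x (pderiv i (R c)) = 0 := by
    intro c hc x
    simp only [Sing, dif_pos hc, Set.Finite.mem_toFinset]
    rfl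
  let S1 : Finset Lab := crit.biUnion fun c => (Finset.Icc 2 (n c)).image fun j =>
    (some (Sum.inl (c, j)) : Lab)
  let S2 : Finset Lab := crit.biUnion fun c => (Sing c).image fun x => (some (Sum.inr x) : Lab)
  let S : Finset Lab := {none} ∪ (S1 ∪ S2)
  have hmem : ∀ l ∈ S, l = none ∨ (∃ c ∈ crit, ∃ j ∈ Finset.Icc 2 (n c),
      l = some (Sum.inl (c, j))) ∨ ∃ c ∈ crit, ∃ x ∈ Sing c, l = some (Sum.inr x) := by
    intro l hl
    simp only [S, S1, S2, Finset.mem_union, Finset.mem_singleton, Finset.mem_biUnion,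
      Finset.mem_image] at hl
    rcases hl with h | ⟨c, hc, j, hj, h⟩ | ⟨c, hc, x, hx, h⟩
    · exact Or.inl h
    · exact Or.inr (Or.inl ⟨c, hc, j, hj, h.symm⟩)
    · exact Or.inr (Or.inr ⟨c, hc, x, hx, h.symm⟩)
  -- critical points
  have hroot : ∀ c ∈ crit, ∀ x : Fin 2 → ℂ, eval x f = c → ∃ j ∈ Finset.Icc 1 (n c),
      eval x (g c j) = 0 := by
    intro c hc x hx
    have h1 : eval x (∏ j ∈ Finset.Icc 1 (n c), g c j ^ j) = 0 := by
      have h2 := congrArg (eval x) (hfg c hc)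
      rw [map_add, eval_C, hx] at h2
      linear_combination -h2
    rw [map_prod, Finset.prod_eq_zero_iff] at h1
    obtain ⟨j, hj, h2⟩ := h1
    rw [map_pow] at h2
    exact ⟨j, hj, (pow_eq_zero_iff (by rw [Finset.mem_Icc] at hj; omega)).1 h2⟩
  have hpd : ∀ c ∈ crit, ∀ j ∈ Finset.Icc 1 (n c), ∀ i, pderiv i f =
      g c j ^ j * pderiv i (∏ k ∈ (Finset.Icc 1 (n c)).erase j, g c k ^ k) +
      (∏ k ∈ (Finset.Icc 1 (n c)).erase j, g c k ^ k) * (j * g c j ^ (j - 1) * pderiv i (g c j)) := by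
    intro c hc j hj i
    conv_lhs => rw [hfg c hc, prod_split' (g c) (n c) j hj]
    rw [map_add, pderiv_C, zero_add, Derivation.leibniz, pderiv_pow]
    simp only [smul_eq_mul]
  have hcr1 : ∀ c ∈ crit, ∀ j ∈ Finset.Icc 2 (n c), ∀ x : Fin 2 → ℂ, eval x (g c j) = 0 →
      ∀ i, eval x (pderiv i f) = 0 := by
    intro c hc j hj x hx i
    rw [Finset.mem_Icc] at hj
    rw [hpd c hc j (Finset.mem_Icc.2 ⟨by omega, hj.2⟩) i]
    simp only [map_add, map_mul, map_pow, hx]
    rw [zero_pow (by omega), zero_pow (by omega)]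
    ring
  have hcr2 : ∀ c ∈ crit, ∀ x ∈ Sing c, ∀ i, eval x (pderiv i f) = 0 := by
    intro c hc x hx i
    obtain ⟨h1, h2⟩ := (hSing c hc x).1 hx
    obtain ⟨j, hj, h3⟩ := hroot c hc x h1
    by_cases h4 : eval x (∏ k ∈ (Finset.Icc 1 (n c)).erase j, g c k) = 0
    · have h5 : eval x (∏ k ∈ (Finset.Icc 1 (n c)).erase j, g c k ^ k) = 0 := by
        rw [map_prod, Finset.prod_eq_zero_iff] at h4 ⊢
        obtain ⟨k, hk, h6⟩ := h4
        refine ⟨k, hk, ?_⟩
        rw [map_pow, h6, zero_pow]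
        have := Finset.mem_Icc.1 (Finset.mem_of_mem_erase hk)
        omega
      rw [hpd c hc j hj i]
      simp only [map_add, map_mul, map_pow, h3, h5]
      rw [zero_pow (by rw [Finset.mem_Icc] at hj; omega)]
      ring
    · have h6 : eval x (pderiv i (g c j)) = 0 := by
        have h7 := h2 i
        rw [hR] at h7
        simp only at h7
        rw [prod_split (g c) (n c) j hj, Derivation.leibniz] at h7
        simp only [smul_eq_mul, map_add, map_mul, h3, zero_mul, zero_add] at h7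
        exact (mul_eq_zero.1 h7).resolve_left h4
      rw [hpd c hc j hj i]
      simp only [map_add, map_mul, map_pow, h3, h6]
      rw [zero_pow (by rw [Finset.mem_Icc] at hj; omega)]
      ring
  have hZcon : ∀ l, Constructible (Z l) := by
    intro l
    rcases l with _ | ⟨⟨c, j⟩ | x₀⟩
    · have : Z none = {x | eval x (pderiv 0 f) ≠ 0 ∨ eval x (pderiv 1 f) ≠ 0} := by
        ext x
        simp only [Z, Set.mem_ofPred_eq]
        exact ⟨fun ⟨i, hi⟩ => by fin_cases i; exacts [Or.inl hi, Or.inr hi],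
          fun h => h.elim (fun h => ⟨0, h⟩) fun h => ⟨1, h⟩⟩
      rw [this]
      exact (Constructible.ne _).or (Constructible.ne _)
    · have : Z (some (Sum.inl (c, j))) = {x | eval x f = eval x (C c) ∧
          (eval x (g c j) = eval x 0 ∧ (eval x (pderiv 0 (R c)) ≠ 0 ∨
            eval x (pderiv 1 (R c)) ≠ 0))} := by
        ext x
        simp only [Z, Set.mem_ofPred_eq, eval_C, map_zero]
        refine and_congr_right fun _ => and_congr_right fun _ => ?_
        exact ⟨fun ⟨i, hi⟩ => by fin_cases i; exacts [Or.inl hi, Or.inr hi],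
          fun h => h.elim (fun h => ⟨0, h⟩) fun h => ⟨1, h⟩⟩
      rw [this]
      exact (Constructible.eq _ _).and ((Constructible.eq _ _).and
        ((Constructible.ne _).or (Constructible.ne _)))
    · have : Z (some (Sum.inr x₀)) = {x | eval x (X 0 : P2) = eval x (C (x₀ 0)) ∧
          eval x (X 1 : P2) = eval x (C (x₀ 1))} := by
        ext x
        simp only [Z, Set.mem_singleton_iff, Set.mem_ofPred_eq, eval_C, eval_X]
        constructor
        · rintro rfl
          exact ⟨rfl, rfl⟩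
        · rintro ⟨h1, h2⟩
          funext i
          fin_cases i
          exacts [h1, h2]
      rw [this]
      exact (Constructible.eq _ _).and (Constructible.eq _ _)
  have hdisj : ∀ l ∈ S, ∀ l' ∈ S, l ≠ l' → ∀ x, x ∈ Z l → x ∈ Z l' → False := by
    have key : ∀ l ∈ S, ∀ x, x ∈ Z l → (l = none ∧ ∃ i, eval x (pderiv i f) ≠ 0) ∨
        (∃ c ∈ crit, ∃ j ∈ Finset.Icc 2 (n c), l = some (Sum.inl (c, j)) ∧
          eval x f = c ∧ eval x (g c j) = 0 ∧ ∃ i, eval x (pderiv i (R c)) ≠ 0) ∨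
        (∃ c ∈ crit, x ∈ Sing c ∧ l = some (Sum.inr x)) := by
      intro l hl x hx
      rcases hmem l hl with rfl | ⟨c, hc, j, hj, rfl⟩ | ⟨c, hc, y, hy, rfl⟩
      · exact Or.inl ⟨rfl, hx⟩
      · exact Or.inr (Or.inl ⟨c, hc, j, hj, rfl, hx⟩)
      · have : x = y := hx
        subst this
        exact Or.inr (Or.inr ⟨c, hc, hy, rfl⟩)
    intro l hl l' hl' hne x hx hx'
    rcases key l hl x hx with ⟨h1, i, hi⟩ | ⟨c, hc, j, hj, h1, h2, h3, h4⟩ | ⟨c, hc, h1, h2⟩ <;>
    rcases key l' hl' x hx' with ⟨h1', i', hi'⟩ | ⟨c', hc', j', hj', h1', h2', h3', h4'⟩ |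
      ⟨c', hc', h1', h2'⟩
    · exact hne (h1.trans h1'.symm)
    · exact hi (hcr1 c' hc' j' hj' x h3' i)
    · exact hi (hcr2 c' hc' x h1' i)
    · exact hi' (hcr1 c hc j hj x h3 i')
    · have hcc : c = c' := h2.symm.trans h2'
      subst hcc
      by_cases hjj : j = j'
      · subst hjj
        exact hne (h1.trans h1'.symm)
      · obtain ⟨i, hi⟩ := h4
        have hj1 : j ∈ Finset.Icc 1 (n c) := by
          rw [Finset.mem_Icc] at hj ⊢; omega
        have hj1' : j' ∈ (Finset.Icc 1 (n c)).erase j := by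
          rw [Finset.mem_erase, Finset.mem_Icc]
          rw [Finset.mem_Icc] at hj'
          exact ⟨fun h => hjj h.symm, by omega, hj'.2⟩
        refine (nonsing (g c) (n c) j hj1 x h3 i hi).1 ?_
        rw [map_prod]
        exact Finset.prod_eq_zero hj1' h3'
    · have hcc : c = c' := h2.symm.trans ((hSing c' hc' x).1 h1').1
      subst hcc
      obtain ⟨i, hi⟩ := h4
      exact hi (((hSing c hc x).1 h1').2 i)
    · exact hi' (hcr2 c hc x h1 i')
    · have hcc : c' = c := h2'.symm.trans ((hSing c hc x).1 h1).1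
      subst hcc
      obtain ⟨i, hi⟩ := h4'
      exact hi (((hSing c' hc' x).1 h1).2 i)
    · exact hne (h2.trans h2'.symm)
  have hcov : ∀ x, ∃ l ∈ S, x ∈ Z l := by
    intro x
    by_cases h1 : ∃ i, eval x (pderiv i f) ≠ 0
    · exact ⟨none, by simp [S], h1⟩
    push Not at h1
    have hc := hcrit x h1
    set c := eval x f with hcdef
    by_cases h2 : ∀ i, eval x (pderiv i (R c)) = 0
    · refine ⟨some (Sum.inr x), ?_, rfl⟩
      have h3 : x ∈ Sing c := (hSing c hc x).2 ⟨rfl, h2⟩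
      simp only [S, S2, Finset.mem_union, Finset.mem_biUnion, Finset.mem_image]
      exact Or.inr (Or.inr ⟨c, hc, x, h3, rfl⟩)
    · push Not at h2
      obtain ⟨i, hi⟩ := h2
      obtain ⟨j, hj, h3⟩ := hroot c hc x rfl
      obtain ⟨h4, h5⟩ := nonsing (g c) (n c) j hj x h3 i hi
      have hj2 : 2 ≤ j := by
        by_contra hlt
        have hj1 : j = 1 := by
          rw [Finset.mem_Icc] at hj; omega
        subst hj1
        have h6 := h1 i
        rw [hpd c hc 1 hj i] at h6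
        simp only [map_add, map_mul, map_pow, h3] at h6
        have h7 := pow_ne (g c) _ x h4
        rw [map_prod] at h7
        simp only [map_pow] at h7
        have h8 : eval x (∏ k ∈ (Finset.Icc 1 (n c)).erase 1, g c k ^ k) ≠ 0 := pow_ne (g c) _ x h4
        apply mul_ne_zero h8 h5
        simpa using h6
      refine ⟨some (Sum.inl (c, j)), ?_, rfl, h3, i, hi⟩
      simp only [S, S1, Finset.mem_union, Finset.mem_biUnion, Finset.mem_image]
      exact Or.inr (Or.inl ⟨c, hc, j, Finset.mem_Icc.2 ⟨hj2, (Finset.mem_Icc.1 hj).2⟩, rfl⟩)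
  -- the pieces
  have hpiece : ∀ l ∈ S, (Z l).Nonempty → Pce P f Λ (Z l) := by
    intro l hl hne
    rcases hmem l hl with rfl | ⟨c, hc, j, hj, rfl⟩ | ⟨c, hc, y, hy, rfl⟩
    · obtain ⟨h, h1, h2⟩ := hVSM P (Fin 2) f (Z none) (hZcon none) fun x hx => hx
      exact ⟨[h], [], [], by simp, by simp, by simpa using h1, by simpa using h2⟩
    · have hj' := Finset.mem_Icc.1 hj
      have hj1 : j ∈ Finset.Icc 1 (n c) := Finset.mem_Icc.2 ⟨by omega, hj'.2⟩
      obtain ⟨t, b, h1, h2, h3, h4⟩ := hVMU P (Fin 2) f (g c j)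
        (∏ k ∈ (Finset.Icc 1 (n c)).erase j, g c k ^ k) c j
        (Z (some (Sum.inl (c, j)))) (hZcon (some (Sum.inl (c, j)))) hj'.1
        (by conv_lhs => rw [hfg c hc, prod_split' (g c) (n c) j hj1]) (by
          rintro x ⟨hx1, hx2, i, hi⟩
          obtain ⟨h4, h5⟩ := nonsing (g c) (n c) j hj1 x hx2 i hi
          exact ⟨hx2, pow_ne (g c) _ x h4, i, h5⟩)
      obtain ⟨x, hx1, hx2, hx3⟩ := hne
      have hw : (1 / (j : ℚ)) ∈ Λ c := by
        refine ⟨?_, ?_⟩
        · have : (0 : ℚ) < j := by exact_mod_cast (by omega : 0 < j)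
          positivity
        · refine wit_mult hMF (f - C c) (n c) (g c) ?_ (hsq c hc) j hj x hx2
          conv_lhs => rw [hfg c hc]
          ring
      have hsub : ({1 / (j : ℚ)} : Set ℚ) ⊆ Λ c := by
        rintro r rfl
        exact hw
      refine ⟨[], [(c, t)], [(c, b)], ?_, ?_, by simpa using h3, by simpa using h4⟩
      · intro y hy
        rw [List.mem_singleton] at hy
        subst hy
        exact hQ1.1 _ _ _ hsub h1
      · intro y hy
        rw [List.mem_singleton] at hy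
        subst hy
        exact hQ1.1 _ _ _ hsub h2
    · obtain ⟨h1, h2⟩ := (hSing c hc y).1 hy
      have hT := hTREE f c (n c) (g c) hf (hfg c hc) (hsq c hc) y h1 h2
      obtain ⟨h, ts, b, h3, h4, h5, h6⟩ := hVPT P (Λ c) f y (fun r hr => hr.1)
        (by rw [h1]; exact hT)
      rw [h1] at h5 h6
      refine ⟨[h], ts.map fun t => (c, t), [(c, b)], ?_, ?_, ?_, ?_⟩
      · intro x hx
        obtain ⟨t, ht, rfl⟩ := List.mem_map.1 hx
        exact h3 t ht
      · intro x hx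
        rw [List.mem_singleton] at hx
        subst hx
        exact h4
      · have e : ([h].map HT.ex ++ (ts.map fun t => ((c, t) : ℂ × Fam)).map
            fun x => atv x.2 x.1) = h.ex :: ts.map fun t => atv t c := by
          simp [List.map_map, Function.comp_def]
        rw [e]
        exact h5
      · exact h6
  -- the assembly
  let T : Finset Lab := S.filter fun l => (Z l).Nonempty
  let e := T.equivFin
  refine reg_of_pieces hVGL P f Λ (n := T.card) (fun j => Z (e.symm j).1) (fun j => hZcon _) ?_ ?_ ?_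
  · intro j j' hjj
    rw [Set.disjoint_left]
    intro x hx hx'
    refine hdisj _ (Finset.mem_filter.1 (e.symm j).2).1 _ (Finset.mem_filter.1 (e.symm j').2).1
      ?_ x hx hx'
    intro h
    exact hjj (e.symm.injective (Subtype.ext h))
  · intro x
    obtain ⟨l, hl, hx⟩ := hcov x
    refine ⟨e ⟨l, Finset.mem_filter.2 ⟨hl, ⟨x, hx⟩⟩⟩, ?_⟩
    simpa using hx
  · intro j
    exact hpiece _ (Finset.mem_filter.1 (e.symm j).2).1 (Finset.mem_filter.1 (e.symm j).2).2

end Pool.Agent.Mono.PC
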