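import Pool.Agent.Work.Monodromy.Interface6V
import Pool.Agent.Work.Monodromy5.O5

/-!
# Phase 6, volume part: piece lemma, cylinders, leading terms (helper80)
-/

set_option autoImplicit false
set_option linter.unusedSectionVars false

namespace Pool.Agent.Mono.PC

open MvPolynomial TS RO RO.VGAux

namespace PL

section lib

variable {E ι σ : Type}

theorem RF.sum {α : Type} (F : Finset α) {φ : α → (E → ℂ) × (ι → PowerSeries ℂ) → ℂ}
    (h : ∀ a ∈ F, RF (φ a)) : RF fun z => ∑ a ∈ F, φ a z := by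
  classical
  induction F using Finset.induction_on with
  | empty => simpa using RF.const 0
  | insert a F ha ih =>
    simp only [Finset.sum_insert ha]
    exact (h a (Finset.mem_insert_self _ _)).add (ih fun b hb => h b (Finset.mem_insert_of_mem hb))

/-- polynomials in power series with regular coefficients have regular coefficients -/
theorem RF.aeval {u : σ → (E → ℂ) × (ι → PowerSeries ℂ) → PowerSeries ℂ}
    (h : ∀ i l, RF fun z => PowerSeries.coeff l (u i z)) (G : MvPolynomial σ ℂ) (l : ℕ) :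
    RF fun z => PowerSeries.coeff l (MvPolynomial.aeval (fun i => u i z) G) := by
  induction G using MvPolynomial.induction_on generalizing l with
  | C a =>
    have : (fun z : (E → ℂ) × (ι → PowerSeries ℂ) =>
        PowerSeries.coeff l (MvPolynomial.aeval (fun i => u i z) (C a : MvPolynomial σ ℂ))) =
        fun _ => if l = 0 then a else 0 := by
      funext z
      rw [MvPolynomial.aeval_C, PowerSeries.algebraMap_apply, PowerSeries.coeff_C]
      rfl
    rw [this]
    exact RF.const _
  | add p q hp hq =>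
    have := (hp l).add (hq l)
    simpa only [map_add] using this
  | mul_X p i hp =>
    have := RF.sum (Finset.HasAntidiagonal.antidiagonal l) (φ := fun a z =>
      PowerSeries.coeff a.1 (MvPolynomial.aeval (fun i => u i z) p) *
        PowerSeries.coeff a.2 (u i z)) fun a _ => (hp a.1).mul (h i a.2)
    simpa only [map_mul, aeval_X, PowerSeries.coeff_mul] using this

theorem RF.ev [Fintype ι] (G : P2) (k : ℕ) (e : E) (i : ι) (l : ℕ) :
    RF fun z : (E → ℂ) × (ι → PowerSeries ℂ) =>
      PowerSeries.coeff l (PC.ev G k (z.1 e) (z.2 i)) := by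
  have h := RF.aeval (E := E) (ι := ι)
    (u := fun (j : Fin 2) z => (![PowerSeries.C (z.1 e) * PowerSeries.X ^ k, z.2 i] :
      Fin 2 → PowerSeries ℂ) j) ?_ G l
  · exact h
  · intro j l
    fin_cases j
    · simp only [Fin.zero_eta, Matrix.cons_val_zero, PowerSeries.coeff_C_mul_X_pow]
      exact RF.ite _ (RF.par e) (RF.const 0)
    · simp only [Fin.mk_one, Matrix.cons_val_one, Matrix.cons_val_zero]
      exact RF.arc i l

/-- the condition on the leading coefficient -/
theorem cy_lead {E' : Type} [Finite E'] [Fintype ι] {Q : Set (E' ⊕ Unit → ℂ)}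
    (hQ : Constructible Q) (m : ℕ) (r : E' → E) {s : (E → ℂ) × (ι → PowerSeries ℂ) → PowerSeries ℂ}
    (hs : ∀ l, RF fun z => PowerSeries.coeff l (s z)) :
    Cy {z : (E → ℂ) × (ι → PowerSeries ℂ) | Lead Q m (fun e => z.1 (r e)) (s z)} := by
  refine Cy.and (Cy.all_lt m fun l _ => Cy.zero (hs l)) ?_
  have h := Cy.mem (E' := E) (ι := ι) hQ (φ := Sum.elim (fun e z => z.1 (r e))
    fun _ z => PowerSeries.coeff m (s z)) (by rintro (e | b); exacts [RF.par _, hs m])
  have e : {z : (E → ℂ) × (ι → PowerSeries ℂ) | Sum.elim (fun e => z.1 (r e))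
      (fun _ : Unit => PowerSeries.coeff m (s z)) ∈ Q} =
      {z | (fun a : E' ⊕ Unit => (Sum.elim (fun e z => z.1 (r e))
        fun _ z => PowerSeries.coeff m (s z) : E' ⊕ Unit → (E → ℂ) × (ι → PowerSeries ℂ) → ℂ)
          a z) ∈ Q} := by
    ext z
    have e1 : Sum.elim (fun e => z.1 (r e)) (fun _ : Unit => PowerSeries.coeff m (s z)) =
        fun a : E' ⊕ Unit => (Sum.elim (fun e z => z.1 (r e))
        fun _ z => PowerSeries.coeff m (s z) : E' ⊕ Unit → (E → ℂ) × (ι → PowerSeries ℂ) → ℂ)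
          a z := by
      funext a
      rcases a with a | a <;> rfl
    change _ ∈ Q ↔ _ ∈ Q
    rw [e1]
  rw [e]
  exact h

theorem cy_NS [Finite E] (G : P2) {Q : Set (E ⊕ Unit → ℂ)} (hQ : Constructible Q) (k L m : ℕ) :
    Cy (NS G Q k L m) :=
  Cy.and (Cy.not (Cy.zero (RF.par _))) (Cy.and (Cy.all_lt L fun l _ => Cy.zero (RF.arc () l))
    (cy_lead hQ m Sum.inl fun l => RF.ev G k _ () l))

end lib

section piece

theorem tc {L j : ℕ} (h : j < L) (v : (Σ _ : Unit, Fin L) → ℂ) :
    PowerSeries.coeff j (toArc (fun _ : Unit => L) v ()) = v ⟨(), ⟨j, h⟩⟩ := by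
  rw [toArc, PowerSeries.coeff_mk, dif_pos h]

variable {E : Type} [Finite E] (P : HodgeMeasure)

theorem con_sum_inl {E' : Type} {R : Set (E' → ℂ)} (hR : Constructible R)
    {ι : Type} [Fintype ι] (φ : E' → (E → ℂ) × (ι → PowerSeries ℂ) → ℂ) [Finite E']
    (hφ : ∀ s, RF (φ s)) : Cy {z : (E → ℂ) × (ι → PowerSeries ℂ) | (fun s => φ s z) ∈ R} :=
  Cy.mem hR hφ

/-- PIECE LEMMA without leading coefficient -/
theorem vol_pl0 {R : Set (E → ℂ)} (hR : Constructible R) (l : ℕ) :
    vol P.rat xq {z : (E → ℂ) × (Unit → PowerSeries ℂ) |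
      (∀ j < l, PowerSeries.coeff j (z.2 ()) = 0) ∧ z.1 ∈ R} = xq ^ l * P.rat.val R := by
  have hcy : Cy {z : (E → ℂ) × (Unit → PowerSeries ℂ) |
      (∀ j < l, PowerSeries.coeff j (z.2 ()) = 0) ∧ z.1 ∈ R} :=
    Cy.and (Cy.all_lt l fun j _ => Cy.zero (RF.arc () j)) (Cy.param hR)
  have hcyl : IsCyl (fun _ => l) {z : (E → ℂ) × (Unit → PowerSeries ℂ) |
      (∀ j < l, PowerSeries.coeff j (z.2 ()) = 0) ∧ z.1 ∈ R} := by
    refine ⟨fun p x y h => ?_, O5Aux.con_sec hcy _⟩
    simp only [Set.mem_ofPred_eq]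
    refine and_congr (forall_congr' fun j => forall_congr' fun hj => ?_) Iff.rfl
    rw [h () j hj]
  rw [vol_eq P.rat (TS.VAAux.L_mul P) hcyl]
  simp only [Finset.univ_unique, Finset.sum_const, Finset.card_singleton, one_smul]
  rw [mul_comm]
  congr 1
  refine P.rat.map _ _ (fun e => X (Sum.inl e)) hcyl.2 hR ⟨?_, ?_, ?_⟩
  · intro v hv
    simp only [eval_X]
    exact hv.2
  · intro v hv v' hv' h
    funext s
    rcases s with s | s
    · have := congrFun h s
      simpa only [eval_X] using this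
    · exact ((tc s.2.2 fun s => v (Sum.inr s)).symm.trans (hv.1 s.2 s.2.2)).trans
        ((tc s.2.2 fun s => v' (Sum.inr s)).symm.trans (hv'.1 s.2 s.2.2)).symm
  · intro r hr
    refine ⟨Sum.elim r fun _ => 0, ⟨fun j hj => ?_, hr⟩, ?_⟩
    · exact tc hj fun s => (Sum.elim r fun _ => 0 : E ⊕ (Σ _ : Unit, Fin l) → ℂ) (Sum.inr s)
    · funext e
      simp only [eval_X, Sum.elim_inl]

/-- PIECE LEMMA -/
theorem vol_pl1 {R : Set (E ⊕ Unit → ℂ)} (hR : Constructible R) (l : ℕ) :
    vol P.rat xq {z : (E → ℂ) × (Unit → PowerSeries ℂ) |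
      (∀ j < l, PowerSeries.coeff j (z.2 ()) = 0) ∧
        (Sum.elim z.1 fun _ => PowerSeries.coeff l (z.2 ())) ∈ R} =
      xq ^ (l + 1) * P.rat.val R := by
  have hcy2 : Cy {z : (E → ℂ) × (Unit → PowerSeries ℂ) |
      (Sum.elim z.1 fun _ => PowerSeries.coeff l (z.2 ())) ∈ R} := by
    have h := Cy.mem (E' := E) (ι := Unit) hR (φ := Sum.elim (fun e z => z.1 e)
      fun _ z => PowerSeries.coeff l (z.2 ())) (by rintro (e | b); exacts [RF.par _, RF.arc () l])
    have e : {z : (E → ℂ) × (Unit → PowerSeries ℂ) | Sum.elim z.1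
        (fun _ : Unit => PowerSeries.coeff l (z.2 ())) ∈ R} =
        {z | (fun a : E ⊕ Unit => (Sum.elim (fun e z => z.1 e)
          fun _ z => PowerSeries.coeff l (z.2 ()) :
            E ⊕ Unit → (E → ℂ) × (Unit → PowerSeries ℂ) → ℂ) a z) ∈ R} := by
      ext z
      have e1 : Sum.elim z.1 (fun _ : Unit => PowerSeries.coeff l (z.2 ())) =
          fun a : E ⊕ Unit => (Sum.elim (fun e z => z.1 e)
          fun _ z => PowerSeries.coeff l (z.2 ()) :
            E ⊕ Unit → (E → ℂ) × (Unit → PowerSeries ℂ) → ℂ) a z := by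
        funext a
        rcases a with a | a <;> rfl
      change _ ∈ R ↔ _ ∈ R
      rw [e1]
    rw [e]
    exact h
  have hcy : Cy {z : (E → ℂ) × (Unit → PowerSeries ℂ) |
      (∀ j < l, PowerSeries.coeff j (z.2 ()) = 0) ∧
        (Sum.elim z.1 fun _ => PowerSeries.coeff l (z.2 ())) ∈ R} :=
    Cy.and (Cy.all_lt l fun j _ => Cy.zero (RF.arc () j)) hcy2
  have hcyl : IsCyl (fun _ => l + 1) {z : (E → ℂ) × (Unit → PowerSeries ℂ) |
      (∀ j < l, PowerSeries.coeff j (z.2 ()) = 0) ∧
        (Sum.elim z.1 fun _ => PowerSeries.coeff l (z.2 ())) ∈ R} := by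
    refine ⟨fun p x y h => ?_, O5Aux.con_sec hcy _⟩
    simp only [Set.mem_ofPred_eq]
    refine and_congr (forall_congr' fun j => forall_congr' fun hj => ?_) ?_
    · rw [h () j (show j < l + 1 by omega)]
    · rw [h () l (show l < l + 1 by omega)]
  rw [vol_eq P.rat (TS.VAAux.L_mul P) hcyl]
  simp only [Finset.univ_unique, Finset.sum_const, Finset.card_singleton, one_smul]
  rw [mul_comm]
  congr 1
  refine P.rat.map _ _ (Sum.elim (fun e => X (Sum.inl e))
    fun _ => X (Sum.inr ⟨(), ⟨l, Nat.lt_succ_self l⟩⟩)) hcyl.2 hR ⟨?_, ?_, ?_⟩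
  · intro v hv
    have h1 := hv.2
    have h2 : (Sum.elim (fun p => v (Sum.inl p)) fun _ : Unit => PowerSeries.coeff l
        (toArc (fun _ : Unit => l + 1) (fun s => v (Sum.inr s)) ())) = fun j => eval v
        (Sum.elim (fun e => X (Sum.inl e))
          (fun _ => X (Sum.inr ⟨(), ⟨l, Nat.lt_succ_self l⟩⟩) : Unit → MvPolynomial
            (E ⊕ (Σ _ : Unit, Fin (l + 1))) ℂ) j) := by
      funext s
      rcases s with s | s
      · simp
      · simp only [Sum.elim_inr, eval_X]
        rw [toArc, PowerSeries.coeff_mk, dif_pos (Nat.lt_succ_self l)]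
    change (fun j => eval v (Sum.elim (fun e => X (Sum.inl e))
          (fun _ => X (Sum.inr ⟨(), ⟨l, Nat.lt_succ_self l⟩⟩) : Unit → MvPolynomial
            (E ⊕ (Σ _ : Unit, Fin (l + 1))) ℂ) j)) ∈ R
    rw [← h2]
    exact h1
  · intro v hv v' hv' h
    funext s
    rcases s with s | s
    · have := congrFun h (Sum.inl s)
      simpa only [eval_X, Sum.elim_inl] using this
    · rcases s with ⟨⟨⟩, j⟩
      rcases Nat.lt_or_ge (j : ℕ) l with hj | hj
      · exact ((tc j.2 fun s => v (Sum.inr s)).symm.trans (hv.1 j hj)).trans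
          ((tc j.2 fun s => v' (Sum.inr s)).symm.trans (hv'.1 j hj)).symm
      · have hjl : j = ⟨l, Nat.lt_succ_self l⟩ := Fin.ext (by have := j.2; simp only; omega)
        subst hjl
        have := congrFun h (Sum.inr ())
        simpa only [eval_X, Sum.elim_inr] using this
  · intro r hr
    have hl : PowerSeries.coeff l (toArc (fun _ : Unit => l + 1) (fun s =>
        if (s.2 : ℕ) = l then r (Sum.inr ()) else 0) ()) = r (Sum.inr ()) := by
      rw [toArc, PowerSeries.coeff_mk, dif_pos (Nat.lt_succ_self l), if_pos rfl]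
    refine ⟨Sum.elim (fun e => r (Sum.inl e)) fun s => if (s.2 : ℕ) = l then r (Sum.inr ()) else 0,
      ⟨fun j hj => ?_, ?_⟩, ?_⟩
    · change PowerSeries.coeff j (toArc (fun _ : Unit => l + 1) (fun s =>
        if (s.2 : ℕ) = l then r (Sum.inr ()) else 0) ()) = 0
      rw [toArc, PowerSeries.coeff_mk, dif_pos (by omega), if_neg (by simp only; omega)]
    · change (Sum.elim (fun p => r (Sum.inl p)) fun _ : Unit => PowerSeries.coeff l
        (toArc (fun _ : Unit => l + 1) (fun s =>
          if (s.2 : ℕ) = l then r (Sum.inr ()) else 0) ())) ∈ R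
      rw [hl]
      convert hr using 1
      funext s
      rcases s with s | s <;> rfl
    · funext s
      rcases s with s | s
      · simp
      · simp

end piece

section lead

/-- `ev` as a sum over the monomials -/
theorem ev_eq (G : P2) (k : ℕ) (a : ℂ) (w : PowerSeries ℂ) :
    ev G k a w = ∑ d ∈ G.support, PowerSeries.C (G.coeff d) *
      ((PowerSeries.C a * PowerSeries.X ^ k) ^ d 0 * w ^ d 1) := by
  rw [ev, aeval_def, eval₂_eq']
  refine Finset.sum_congr rfl fun d _ => ?_
  rw [Fin.prod_univ_two, PowerSeries.algebraMap_apply]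
  rfl

/-- the coefficients of one term -/
theorem term_coeff (c a : ℂ) (k L α β : ℕ) (w : PowerSeries ℂ)
    (hw : ∀ j < L, PowerSeries.coeff j w = 0) :
    (∀ n < k * α + L * β, PowerSeries.coeff n (PowerSeries.C c *
      ((PowerSeries.C a * PowerSeries.X ^ k) ^ α * w ^ β)) = 0) ∧
    PowerSeries.coeff (k * α + L * β) (PowerSeries.C c *
      ((PowerSeries.C a * PowerSeries.X ^ k) ^ α * w ^ β)) =
        c * a ^ α * (PowerSeries.coeff L w) ^ β := by
  obtain ⟨w', rfl⟩ := PowerSeries.X_pow_dvd_iff.2 hw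
  have e : PowerSeries.C c * ((PowerSeries.C a * PowerSeries.X ^ k) ^ α *
      (PowerSeries.X ^ L * w') ^ β) = PowerSeries.X ^ (k * α + L * β) *
        (PowerSeries.C (c * a ^ α) * w' ^ β) := by
    rw [mul_pow, mul_pow, ← pow_mul, ← pow_mul, pow_add, map_mul, map_pow]
    ring
  have e2 : PowerSeries.coeff L (PowerSeries.X ^ L * w') = PowerSeries.constantCoeff w' := by
    have := PowerSeries.coeff_X_pow_mul w' L 0
    rw [zero_add] at this
    rw [this, PowerSeries.coeff_zero_eq_constantCoeff_apply]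
  rw [e, e2]
  constructor
  · exact PowerSeries.X_pow_dvd_iff.1 (dvd_mul_right _ _)
  · have := PowerSeries.coeff_X_pow_mul (PowerSeries.C (c * a ^ α) * w' ^ β) (k * α + L * β) 0
    rw [zero_add] at this
    rw [this, PowerSeries.coeff_zero_eq_constantCoeff_apply, map_mul, map_pow,
      PowerSeries.constantCoeff_C]

/-- order and leading coefficient of `G(a t^k, w)` if there is only one leading monomial -/
theorem ev_vertex (G : P2) (k L A B : ℕ) (a : ℂ) (w : PowerSeries ℂ)
    (hw : ∀ j < L, PowerSeries.coeff j w = 0)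
    (hG : ∀ d ∈ G.support, d ≠ mon A B → k * A + L * B < k * d 0 + L * d 1) :
    (∀ n < k * A + L * B, PowerSeries.coeff n (ev G k a w) = 0) ∧
      PowerSeries.coeff (k * A + L * B) (ev G k a w) =
        G.coeff (mon A B) * a ^ A * (PowerSeries.coeff L w) ^ B := by
  have hm0 : (mon A B) 0 = A := by simp [mon]
  have hm1 : (mon A B) 1 = B := by simp [mon]
  constructor
  · intro n hn
    rw [ev_eq, map_sum]
    refine Finset.sum_eq_zero fun d hd => ?_
    refine (term_coeff _ a k L (d 0) (d 1) w hw).1 n ?_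
    by_cases h : d = mon A B
    · rw [h, hm0, hm1]
      exact hn
    · exact lt_trans hn (hG d hd h)
  · rw [ev_eq, map_sum]
    by_cases hs : mon A B ∈ G.support
    · rw [Finset.sum_eq_single_of_mem _ hs]
      · have := (term_coeff (G.coeff (mon A B)) a k L A B w hw).2
        rw [hm0, hm1]
        exact this
      · intro d hd hne
        exact (term_coeff _ a k L (d 0) (d 1) w hw).1 _ (hG d hd hne)
    · have hc : G.coeff (mon A B) = 0 := notMem_support_iff.1 hs
      rw [hc, zero_mul, zero_mul]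
      refine Finset.sum_eq_zero fun d hd => ?_
      refine (term_coeff _ a k L (d 0) (d 1) w hw).1 _ (hG d hd ?_)
      rintro rfl
      exact hs hd

/-- leading coefficients in `Q` are determined by the order -/
theorem lead_of_ord {E : Type} {Q : Set (E ⊕ Unit → ℂ)} (hQ : QU Q) {p : E → ℂ}
    {F : PowerSeries ℂ} {n : ℕ} (h0 : ∀ j < n, PowerSeries.coeff j F = 0)
    (h1 : PowerSeries.coeff n F ≠ 0) (m : ℕ) :
    Lead Q m p F ↔ m = n ∧ (Sum.elim p fun _ => PowerSeries.coeff n F) ∈ Q := by
  constructor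
  · rintro ⟨h2, h3⟩
    have h4 : PowerSeries.coeff m F ≠ 0 := hQ.2 _ h3
    have hmn : m = n := by
      rcases lt_trichotomy m n with h | h | h
      · exact absurd (h0 m h) h4
      · exact h
      · exact absurd (h2 n h) h1
    subst hmn
    exact ⟨rfl, h3⟩
  · rintro ⟨rfl, h3⟩
    exact ⟨h0, h3⟩

end lead

end PL

end Pool.Agent.Mono.PC
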