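import Pool.Agent.Work.Monodromy6.SB
import Pool.Agent.Work.Monodromy4.Q1

/-!
# Block SC1: the generating function of a cone
-/

set_option autoImplicit false

namespace Pool.Agent.Mono.PC

open MvPolynomial TS RO

namespace SCAux

/-- a linear recursion with one geometric factor -/
theorem eseq_rec {Λ : Set ℚ} {κ κ' : ℕ → K} (N ν : ℕ) (hN : 1 ≤ N)
    (hΛ : ((ν : ℚ) / (N : ℚ)) ∈ Λ) (h' : ESeq Λ κ')
    (h : ∀ m, κ m = κ' m + if N ≤ m then xq ^ ν * κ (m - N) else 0) : ESeq Λ κ := by
  obtain ⟨l, num, hl, e⟩ := h'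
  refine ⟨(N, ν) :: l, num, ?_, ?_⟩
  · intro q hq
    rcases List.mem_cons.1 hq with rfl | hq
    · exact ⟨hN, hΛ⟩
    · exact hl q hq
  · have h1 : ((1 - Polynomial.C (xq ^ ν) * Polynomial.X ^ N : Polynomial K) : PowerSeries K) *
        PowerSeries.mk κ = PowerSeries.mk κ' := by
      ext m
      rw [Polynomial.coe_sub, Polynomial.coe_one, Polynomial.coe_mul, Polynomial.coe_C,
        Polynomial.coe_pow, Polynomial.coe_X, sub_mul, one_mul, map_sub, mul_assoc,
        PowerSeries.coeff_C_mul, PowerSeries.coeff_X_pow_mul']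
      simp only [PowerSeries.coeff_mk]
      rw [h m]
      split_ifs with hm
      · ring
      · ring
    rw [Q1Aux.denP_cons, Polynomial.coe_mul, mul_comm ((_ : Polynomial K) : PowerSeries K),
      mul_assoc, h1, e]

/-- splitting off the translates by a vector -/
theorem split_shift (F : ℕ → Finset (ℕ × ℕ)) (R : ℕ × ℕ → Prop) [DecidablePred R] (v : ℕ × ℕ)
    (N ν : ℕ)
    (ha : ∀ m, ∀ z ∈ F m, R z → v.1 ≤ z.1 ∧ v.2 ≤ z.2 ∧ N ≤ m ∧ (z.1 - v.1, z.2 - v.2) ∈ F (m - N))
    (hb : ∀ m, N ≤ m → ∀ z ∈ F (m - N), (z.1 + v.1, z.2 + v.2) ∈ F m ∧ R (z.1 + v.1, z.2 + v.2))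
    (m : ℕ) :
    ∑ z ∈ F m, xq ^ (ν * z.1 + z.2) = ∑ z ∈ (F m).filter (fun z => ¬ R z), xq ^ (ν * z.1 + z.2) +
      if N ≤ m then xq ^ (ν * v.1 + v.2) * ∑ z ∈ F (m - N), xq ^ (ν * z.1 + z.2) else 0 := by
  rw [← Finset.sum_filter_add_sum_filter_not (F m) R, add_comm]
  congr 1
  split_ifs with hN
  · rw [Finset.mul_sum]
    refine Finset.sum_nbij' (fun z => (z.1 - v.1, z.2 - v.2)) (fun z => (z.1 + v.1, z.2 + v.2))
      ?_ ?_ ?_ ?_ ?_
    · intro z hz
      rw [Finset.mem_filter] at hz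
      exact (ha m z hz.1 hz.2).2.2.2
    · intro z hz
      rw [Finset.mem_filter]
      exact hb m hN z hz
    · intro z hz
      rw [Finset.mem_filter] at hz
      obtain ⟨h1, h2, _⟩ := ha m z hz.1 hz.2
      ext
      · exact Nat.sub_add_cancel h1
      · exact Nat.sub_add_cancel h2
    · intro z _
      simp
    · intro z hz
      rw [Finset.mem_filter] at hz
      obtain ⟨h1, h2, _⟩ := ha m z hz.1 hz.2
      obtain ⟨a, ha'⟩ := Nat.exists_eq_add_of_le h1
      obtain ⟨b, hb'⟩ := Nat.exists_eq_add_of_le h2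
      simp only [ha', hb', Nat.add_sub_cancel_left]
      rw [← pow_add]
      congr 1
      ring
  · refine Finset.sum_eq_zero fun z hz => ?_
    rw [Finset.mem_filter] at hz
    exact absurd (ha m z hz.1 hz.2).2.2.1 hN

end SCAux

open SCAux SBAux in
theorem stmt_SC1 : Stmt_SC1 := by
  intro ν p q A B p' q' h h1 h2
  obtain ⟨D₀, hD₀⟩ := Nat.exists_eq_add_of_lt h
  obtain ⟨D, hD1⟩ : ∃ D, D = D₀ + 1 := ⟨_, rfl⟩
  have hDpos : 0 < D := by omega
  have hD : q * p' + D = p * q' := by
    rw [mul_comm p q', hD₀, hD1, add_assoc]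
  set S : ℕ → Finset (ℕ × ℕ) := fun m =>
    (Finset.range ((p + p') * m + 1) ×ˢ Finset.range ((q + q') * m + 1)).filter
      (fun z => q * z.1 < p * z.2 ∧ p' * z.2 < q' * z.1 ∧ A * z.1 + B * z.2 = m) with hS
  have memS : ∀ m z, z ∈ S m ↔
      q * z.1 < p * z.2 ∧ p' * z.2 < q' * z.1 ∧ A * z.1 + B * z.2 = m := by
    intro m z
    rw [hS, Finset.mem_filter, Finset.mem_product, Finset.mem_range, Finset.mem_range]
    constructor
    · exact fun h => h.2
    · intro hz
      have hb := stmt_SB p q A B p' q' m z.1 z.2 h h1 h2 hz.1 hz.2.1 hz.2.2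
      exact ⟨⟨Nat.lt_succ_of_le hb.1, Nat.lt_succ_of_le hb.2⟩, hz⟩
  have hcone : ∀ m, coneS ν p q A B p' q' m = ∑ z ∈ S m, xq ^ (ν * z.1 + z.2) := by
    intro m
    unfold coneS
    rw [← Finset.sum_product', hS, Finset.sum_filter]
  -- coordinates
  have hco : ∀ m, ∀ z ∈ S m, ∃ i j, 0 < i ∧ 0 < j ∧ q' * z.1 = p' * z.2 + i ∧
      p * z.2 = q * z.1 + j ∧ D * z.1 = p * i + p' * j ∧ D * z.2 = q * i + q' * j ∧
      D * m = (p * A + q * B) * i + (p' * A + q' * B) * j := by
    intro m z hz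
    obtain ⟨hz1, hz2, hz3⟩ := (memS m z).1 hz
    obtain ⟨j, hj⟩ := Nat.exists_eq_add_of_lt hz1
    obtain ⟨i, hi⟩ := Nat.exists_eq_add_of_lt hz2
    have hj' : p * z.2 = q * z.1 + (j + 1) := by rw [hj, add_assoc]
    have hi' : q' * z.1 = p' * z.2 + (i + 1) := by rw [hi, add_assoc]
    exact ⟨i + 1, j + 1, Nat.succ_pos _, Nat.succ_pos _, hi', hj', (coords hD hi' hj').1,
      (coords hD hi' hj').2, weight hD hi' hj' hz3⟩
  set S' : ℕ → Finset (ℕ × ℕ) := fun m =>
    (S m).filter (fun z => ¬ (p' * z.2 + D < q' * z.1)) with hS'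
  have memS' : ∀ m z, z ∈ S' m ↔ z ∈ S m ∧ ¬ (p' * z.2 + D < q' * z.1) := by
    intro m z
    rw [hS', Finset.mem_filter]
  -- the first ray
  have step1 := split_shift S (fun z => p' * z.2 + D < q' * z.1) (p, q) (p * A + q * B) ν
    (by
      intro m z hz hR
      obtain ⟨i, j, hi0, hj0, hi, hj, c1, c2, hw⟩ := hco m z hz
      obtain ⟨hz1, hz2, hz3⟩ := (memS m z).1 hz
      have hiD : D ≤ i := by
        change p' * z.2 + D < q' * z.1 at hR
        omega
      have e1 : p ≤ z.1 := by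
        apply Nat.le_of_mul_le_mul_left _ hDpos
        rw [c1, mul_comm D p]
        exact (Nat.mul_le_mul_left p hiD).trans (Nat.le_add_right _ _)
      have e2 : q ≤ z.2 := by
        apply Nat.le_of_mul_le_mul_left _ hDpos
        rw [c2, mul_comm D q]
        exact (Nat.mul_le_mul_left q hiD).trans (Nat.le_add_right _ _)
      obtain ⟨a, ha⟩ := Nat.exists_eq_add_of_le e1
      obtain ⟨b, hb⟩ := Nat.exists_eq_add_of_le e2
      have e3 : A * z.1 + B * z.2 = (p * A + q * B) + (A * a + B * b) := by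
        rw [ha, hb]
        ring
      refine ⟨e1, e2, ?_, ?_⟩
      · rw [← hz3, e3]
        exact Nat.le_add_right _ _
      · rw [memS]
        simp only [ha, hb, Nat.add_sub_cancel_left]
        change p' * z.2 + D < q' * z.1 at hR
        rw [ha, hb] at hz1 hR
        refine ⟨?_, ?_, ?_⟩
        · rw [mul_add, mul_add, mul_comm q p] at hz1
          omega
        · rw [mul_add, mul_add, mul_comm q' p, mul_comm p' q] at hR
          omega
        · rw [← hz3, e3, Nat.add_sub_cancel_left])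
    (by
      intro m hN z hz
      obtain ⟨hz1, hz2, hz3⟩ := (memS _ z).1 hz
      have hR : p' * (z.2 + q) + D < q' * (z.1 + p) := by
        rw [mul_add, mul_add, mul_comm q' p, mul_comm p' q]
        omega
      refine ⟨(memS _ _).2 ⟨?_, ?_, ?_⟩, hR⟩
      · change q * (z.1 + p) < p * (z.2 + q)
        rw [mul_add, mul_add, mul_comm q p]
        omega
      · change p' * (z.2 + q) < q' * (z.1 + p)
        omega
      · change A * (z.1 + p) + B * (z.2 + q) = m
        have e3 : A * (z.1 + p) + B * (z.2 + q) = (p * A + q * B) + (A * z.1 + B * z.2) := by ring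
        rw [e3, hz3]
        omega)
  -- the second ray
  have step2 := split_shift S' (fun z => q * z.1 + D < p * z.2) (p', q') (p' * A + q' * B) ν
    (by
      intro m z hz hR
      obtain ⟨hzS, hzn⟩ := (memS' m z).1 hz
      obtain ⟨i, j, hi0, hj0, hi, hj, c1, c2, hw⟩ := hco m z hzS
      obtain ⟨hz1, hz2, hz3⟩ := (memS m z).1 hzS
      have hjD : D ≤ j := by
        change q * z.1 + D < p * z.2 at hR
        omega
      have e1 : p' ≤ z.1 := by
        apply Nat.le_of_mul_le_mul_left _ hDpos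
        rw [c1, mul_comm D p']
        exact (Nat.mul_le_mul_left p' hjD).trans (Nat.le_add_left _ _)
      have e2 : q' ≤ z.2 := by
        apply Nat.le_of_mul_le_mul_left _ hDpos
        rw [c2, mul_comm D q']
        exact (Nat.mul_le_mul_left q' hjD).trans (Nat.le_add_left _ _)
      obtain ⟨a, ha⟩ := Nat.exists_eq_add_of_le e1
      obtain ⟨b, hb⟩ := Nat.exists_eq_add_of_le e2
      have e3 : A * z.1 + B * z.2 = (p' * A + q' * B) + (A * a + B * b) := by
        rw [ha, hb]
        ring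
      refine ⟨e1, e2, ?_, ?_⟩
      · rw [← hz3, e3]
        exact Nat.le_add_right _ _
      · rw [memS', memS]
        simp only [ha, hb, Nat.add_sub_cancel_left]
        change q * z.1 + D < p * z.2 at hR
        rw [ha, hb] at hz2 hR hzn
        rw [mul_add, mul_add] at hR hz2 hzn
        rw [mul_comm q' p'] at hz2 hzn
        refine ⟨⟨?_, ?_, ?_⟩, ?_⟩
        · omega
        · omega
        · rw [← hz3, e3, Nat.add_sub_cancel_left]
        · omega)
    (by
      intro m hN z hz
      obtain ⟨hzS, hzn⟩ := (memS' _ z).1 hz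
      obtain ⟨hz1, hz2, hz3⟩ := (memS _ z).1 hzS
      have hR : q * (z.1 + p') + D < p * (z.2 + q') := by
        rw [mul_add, mul_add]
        omega
      refine ⟨(memS' _ _).2 ⟨(memS _ _).2 ⟨?_, ?_, ?_⟩, ?_⟩, hR⟩
      · change q * (z.1 + p') < p * (z.2 + q')
        omega
      · change p' * (z.2 + q') < q' * (z.1 + p')
        rw [mul_add, mul_add, mul_comm q' p']
        omega
      · change A * (z.1 + p') + B * (z.2 + q') = m
        have e3 : A * (z.1 + p') + B * (z.2 + q') = (p' * A + q' * B) + (A * z.1 + B * z.2) := by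
          ring
        rw [e3, hz3]
        omega
      · change ¬ (p' * (z.2 + q') + D < q' * (z.1 + p'))
        rw [mul_add, mul_add, mul_comm q' p']
        omega)
  -- the fundamental box
  have base : ESeq {rate ν A B p q, rate ν A B p' q'} fun m =>
      ∑ z ∈ (S' m).filter (fun z => ¬ (q * z.1 + D < p * z.2)), xq ^ (ν * z.1 + z.2) := by
    refine Q1Aux.fin ((p * A + q * B) + (p' * A + q' * B) + 1) fun m hm => ?_
    apply Finset.sum_eq_zero
    intro z hz
    exfalso
    rw [Finset.mem_filter] at hz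
    obtain ⟨hz', hzj⟩ := hz
    obtain ⟨hzS, hzn⟩ := (memS' m z).1 hz'
    obtain ⟨i, j, hi0, hj0, hi, hj, c1, c2, hw⟩ := hco m z hzS
    have hiD : i ≤ D := by omega
    have hjD : j ≤ D := by omega
    have h3 : D * m ≤ D * ((p * A + q * B) + (p' * A + q' * B)) := by
      rw [hw]
      calc (p * A + q * B) * i + (p' * A + q' * B) * j
          ≤ (p * A + q * B) * D + (p' * A + q' * B) * D :=
            Nat.add_le_add (Nat.mul_le_mul_left _ hiD) (Nat.mul_le_mul_left _ hjD)
        _ = _ := by ring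
    have h4 := Nat.le_of_mul_le_mul_left h3 hDpos
    omega
  have hr1 : (((ν * p + q : ℕ) : ℚ) / ((p * A + q * B : ℕ) : ℚ)) ∈
      ({rate ν A B p q, rate ν A B p' q'} : Set ℚ) := by
    left
    unfold rate
    rw [mul_comm ν p]
  have hr2 : (((ν * p' + q' : ℕ) : ℚ) / ((p' * A + q' * B : ℕ) : ℚ)) ∈
      ({rate ν A B p q, rate ν A B p' q'} : Set ℚ) := by
    right
    rw [Set.mem_singleton_iff]
    unfold rate
    rw [mul_comm ν p']
  have s2 := eseq_rec (κ := fun m => ∑ z ∈ S' m, xq ^ (ν * z.1 + z.2)) (p' * A + q' * B)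
    (ν * p' + q') h2 hr2 base step2
  have s1 := eseq_rec (κ := fun m => ∑ z ∈ S m, xq ^ (ν * z.1 + z.2)) (p * A + q * B)
    (ν * p + q) h1 hr1 s2 step1
  have : (fun m => coneS ν p q A B p' q' m) = fun m => ∑ z ∈ S m, xq ^ (ν * z.1 + z.2) :=
    funext hcone
  rw [this]
  exact s1

end Pool.Agent.Mono.PC
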