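import Pool.Agent.Work.Monodromy6.TDefs

/-! Phase 6, part T: Newton polygons of polynomials in two variables. -/

set_option autoImplicit false

namespace Pool.Agent.Mono.PC.TT

open MvPolynomial

@[simp] lemma mon_zero (A B : ℕ) : mon A B 0 = A := by simp [mon]
@[simp] lemma mon_one (A B : ℕ) : mon A B 1 = B := by simp [mon]

lemma mon_eta (d : Fin 2 →₀ ℕ) : mon (d 0) (d 1) = d := by
  ext i; fin_cases i <;> simp

lemma ext2 {d d' : Fin 2 →₀ ℕ} (h0 : d 0 = d' 0) (h1 : d 1 = d' 1) : d = d' := by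
  ext i; fin_cases i <;> assumption

/-- weight -/
def W (p q : ℕ) (d : Fin 2 →₀ ℕ) : ℕ := p * d 0 + q * d 1

lemma W_add (p q : ℕ) (d d' : Fin 2 →₀ ℕ) : W p q (d + d') = W p q d + W p q d' := by
  simp [W]; ring

/-- `F(T^p, Z T^q)` (outer variable `T`, inner variable `Z`) -/
noncomputable def tw (p q : ℕ) : P2 →ₐ[ℂ] Polynomial (Polynomial ℂ) :=
  aeval ![Polynomial.X ^ p, Polynomial.C Polynomial.X * Polynomial.X ^ q]

lemma tw_monomial (p q : ℕ) (d : Fin 2 →₀ ℕ) (a : ℂ) :
    tw p q (monomial d a) =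
      Polynomial.monomial (W p q d) (Polynomial.monomial (d 1) a) := by
  rw [tw, aeval_monomial, Finsupp.prod_fintype _ _ (by simp), Fin.prod_univ_two]
  simp only [Matrix.cons_val_zero, Matrix.cons_val_one]
  rw [mul_pow, ← pow_mul, ← pow_mul, IsScalarTower.algebraMap_apply ℂ (Polynomial ℂ)
    (Polynomial (Polynomial ℂ)), Polynomial.algebraMap_apply, Polynomial.algebraMap_apply,
    ← Polynomial.C_mul_X_pow_eq_monomial, ← Polynomial.C_mul_X_pow_eq_monomial (n := d 1)]
  simp only [Algebra.algebraMap_self, RingHom.id_apply, map_mul, map_pow, W, pow_add]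
  ring

lemma tw_coeff (p q : ℕ) (F : P2) (m b : ℕ) :
    ((tw p q F).coeff m).coeff b =
      ∑ d ∈ F.support, if W p q d = m ∧ d 1 = b then F.coeff d else 0 := by
  conv_lhs => rw [F.as_sum]
  rw [map_sum, Polynomial.finsetSum_coeff, Polynomial.finsetSum_coeff]
  refine Finset.sum_congr rfl fun d _ => ?_
  rw [tw_monomial, Polynomial.coeff_monomial]
  by_cases h : W p q d = m
  · rw [if_pos h, Polynomial.coeff_monomial]
    simp [h]
  · rw [if_neg h]; simp [h]

/-- coefficients of the in-form -/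
lemma tw_coeff_W {p : ℕ} (hp : 1 ≤ p) (q : ℕ) (F : P2) (d : Fin 2 →₀ ℕ) :
    ((tw p q F).coeff (W p q d)).coeff (d 1) = F.coeff d := by
  rw [tw_coeff]
  have key : ∀ d' ∈ F.support, d' ≠ d →
      (if W p q d' = W p q d ∧ d' 1 = d 1 then F.coeff d' else 0) = 0 := by
    intro d' _ hne
    rw [if_neg]
    rintro ⟨h1, h2⟩
    apply hne
    refine ext2 ?_ h2
    unfold W at h1
    rw [h2] at h1
    exact Nat.eq_of_mul_eq_mul_left hp (Nat.add_right_cancel h1)
  by_cases hd : d ∈ F.support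
  · rw [Finset.sum_eq_single d key (fun h => absurd hd h)]
    simp
  · rw [Finset.sum_eq_zero fun d' hd' => key d' hd' (fun h => hd (h ▸ hd'))]
    exact (notMem_support_iff.1 hd).symm

lemma exists_of_tw_coeff_ne {p q : ℕ} {F : P2} {m b : ℕ}
    (h : ((tw p q F).coeff m).coeff b ≠ 0) : ∃ d ∈ F.support, W p q d = m ∧ d 1 = b := by
  rw [tw_coeff] at h
  obtain ⟨d, hd, hne⟩ := Finset.exists_ne_zero_of_sum_ne_zero h
  refine ⟨d, hd, ?_⟩
  by_contra hc
  rw [if_neg hc] at hne
  exact hne rfl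

lemma tw_injective {p : ℕ} (hp : 1 ≤ p) (q : ℕ) : Function.Injective (tw p q) := by
  rw [injective_iff_map_eq_zero]
  intro F hF
  ext d
  rw [← tw_coeff_W hp q F d, hF]
  simp

/-- the order -/
noncomputable def ordN (p q : ℕ) (F : P2) : ℕ := (tw p q F).natTrailingDegree

/-- the in-form, as a polynomial in `Z = w/s^{q/p}` -/
noncomputable def inF (p q : ℕ) (F : P2) : Polynomial ℂ := (tw p q F).trailingCoeff

lemma inF_ne_zero {p : ℕ} (hp : 1 ≤ p) (q : ℕ) {F : P2} (hF : F ≠ 0) : inF p q F ≠ 0 := by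
  unfold inF
  rw [Ne, Polynomial.trailingCoeff_eq_zero]
  intro h
  exact hF (tw_injective hp q (by rw [h, map_zero]))

lemma inF_mul (p q : ℕ) (F G : P2) : inF p q (F * G) = inF p q F * inF p q G := by
  unfold inF
  rw [map_mul, Polynomial.trailingCoeff_mul]

lemma ordN_mul {p : ℕ} (hp : 1 ≤ p) (q : ℕ) {F G : P2} (hF : F ≠ 0) (hG : G ≠ 0) :
    ordN p q (F * G) = ordN p q F + ordN p q G := by
  unfold ordN
  rw [map_mul, Polynomial.natTrailingDegree_mul]
  · exact fun h => hF (tw_injective hp q (by rw [h, map_zero]))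
  · exact fun h => hG (tw_injective hp q (by rw [h, map_zero]))

lemma ordN_le {p : ℕ} (hp : 1 ≤ p) (q : ℕ) {F : P2} {d : Fin 2 →₀ ℕ} (hd : d ∈ F.support) :
    ordN p q F ≤ W p q d := by
  unfold ordN
  apply Polynomial.natTrailingDegree_le_of_ne_zero
  intro h
  have := tw_coeff_W hp q F d
  rw [h] at this
  exact (mem_support_iff.1 hd) (by rw [← this]; simp)

lemma inF_coeff {p : ℕ} (hp : 1 ≤ p) (q : ℕ) {F : P2} {d : Fin 2 →₀ ℕ} (h : W p q d = ordN p q F) :
    (inF p q F).coeff (d 1) = F.coeff d := by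
  rw [← tw_coeff_W hp q F d, h]; rfl

lemma exists_of_inF_coeff_ne {p q : ℕ} {F : P2} {b : ℕ} (h : (inF p q F).coeff b ≠ 0) :
    ∃ d ∈ F.support, W p q d = ordN p q F ∧ d 1 = b :=
  exists_of_tw_coeff_ne h

/-- the vertex beyond the ray `(p, q)` -/
structure Vtx (F : P2) (p q A B : ℕ) : Prop where
  ne : F.coeff (mon A B) ≠ 0
  le : ∀ d ∈ F.support, p * A + q * B ≤ p * d 0 + q * d 1
  lt : ∀ d ∈ F.support, d 1 < B → p * A + q * B < p * d 0 + q * d 1

lemma Vtx.ne_zero {F : P2} {p q A B : ℕ} (h : Vtx F p q A B) : F ≠ 0 := by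
  rintro rfl; exact h.ne (by simp)

lemma Vtx.ord {F : P2} {p q A B : ℕ} (hp : 1 ≤ p) (h : Vtx F p q A B) :
    ordN p q F = p * A + q * B := by
  apply le_antisymm
  · have := ordN_le hp q (mem_support_iff.2 h.ne)
    simpa [W] using this
  · unfold ordN
    apply Polynomial.le_natTrailingDegree
    · exact fun h0 => h.ne_zero (tw_injective hp q (by rw [h0, map_zero]))
    · intro m hm
      by_contra hne
      obtain ⟨b, hb⟩ : ∃ b, ((tw p q F).coeff m).coeff b ≠ 0 := by
        by_contra hall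
        push Not at hall
        exact hne (Polynomial.ext (by simpa using hall))
      obtain ⟨d, hd, hW, _⟩ := exists_of_tw_coeff_ne hb
      have := h.le d hd
      unfold W at hW
      omega

lemma Vtx.natTrailingDegree {F : P2} {p q A B : ℕ} (hp : 1 ≤ p) (h : Vtx F p q A B) :
    (inF p q F).natTrailingDegree = B := by
  have hc : (inF p q F).coeff B ≠ 0 := by
    have := inF_coeff hp q (F := F) (d := mon A B) (by rw [h.ord hp]; simp [W])
    rw [mon_one] at this
    rw [this]; exact h.ne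
  apply le_antisymm
  · exact Polynomial.natTrailingDegree_le_of_ne_zero hc
  · apply Polynomial.le_natTrailingDegree (inF_ne_zero hp q h.ne_zero)
    intro b hb
    by_contra hne
    obtain ⟨d, hd, hW, h1⟩ := exists_of_inF_coeff_ne hne
    have := h.lt d hd (by omega)
    rw [h.ord hp] at hW
    unfold W at hW
    omega

lemma vtx_iff {F : P2} {p q A B : ℕ} (hp : 1 ≤ p) (hF : F ≠ 0) :
    Vtx F p q A B ↔ ordN p q F = p * A + q * B ∧ (inF p q F).natTrailingDegree = B := by
  constructor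
  · exact fun h => ⟨h.ord hp, h.natTrailingDegree hp⟩
  · rintro ⟨h1, h2⟩
    have hle : ∀ d ∈ F.support, p * A + q * B ≤ p * d 0 + q * d 1 := by
      intro d hd
      rw [← h1]; exact ordN_le hp q hd
    refine ⟨?_, hle, ?_⟩
    · have h3 := inF_coeff hp q (F := F) (d := mon A B) (by rw [h1]; simp [W])
      rw [mon_one] at h3
      rw [← h3, ← h2]
      exact Polynomial.coeff_natTrailingDegree_ne_zero.2 (inF_ne_zero hp q hF)
    · intro d hd hB
      refine lt_of_le_of_ne (hle d hd) fun heq => ?_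
      have h3 := inF_coeff hp q (F := F) (d := d) (by rw [h1]; exact heq.symm)
      have h4 : (inF p q F).coeff (d 1) = 0 :=
        Polynomial.coeff_eq_zero_of_lt_natTrailingDegree (by rw [h2]; exact hB)
      rw [h4] at h3
      exact (mem_support_iff.1 hd) h3.symm

lemma exists_vtx {p : ℕ} (hp : 1 ≤ p) (q : ℕ) {F : P2} (hF : F ≠ 0) :
    ∃ A B, Vtx F p q A B := by
  have h1 : (inF p q F).coeff (inF p q F).natTrailingDegree ≠ 0 :=
    Polynomial.coeff_natTrailingDegree_ne_zero.2 (inF_ne_zero hp q hF)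
  obtain ⟨d, hd, hW, hd1⟩ := exists_of_inF_coeff_ne h1
  refine ⟨d 0, d 1, (vtx_iff hp hF).2 ⟨hW.symm, hd1.symm⟩⟩

lemma Vtx.unique {F : P2} {p q A B A' B' : ℕ} (hp : 1 ≤ p) (h : Vtx F p q A B)
    (h' : Vtx F p q A' B') : A = A' ∧ B = B' := by
  have hB : B = B' := by rw [← h.natTrailingDegree hp, h'.natTrailingDegree hp]
  subst hB
  have := (h.ord hp).symm.trans (h'.ord hp)
  exact ⟨Nat.eq_of_mul_eq_mul_left hp (Nat.add_right_cancel this), rfl⟩

lemma natTrailingDegree_mul' {P Q : Polynomial ℂ} (hP : P ≠ 0) (hQ : Q ≠ 0) :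
    (P * Q).natTrailingDegree = P.natTrailingDegree + Q.natTrailingDegree :=
  Polynomial.natTrailingDegree_mul hP hQ

lemma Vtx.mul {F G : P2} {p q A B A' B' : ℕ} (hp : 1 ≤ p) (h : Vtx F p q A B)
    (h' : Vtx G p q A' B') : Vtx (F * G) p q (A + A') (B + B') := by
  rw [vtx_iff hp (mul_ne_zero h.ne_zero h'.ne_zero)]
  constructor
  · rw [ordN_mul hp q h.ne_zero h'.ne_zero, h.ord hp, h'.ord hp]; ring
  · rw [inF_mul, natTrailingDegree_mul' (inF_ne_zero hp q h.ne_zero)
      (inF_ne_zero hp q h'.ne_zero), h.natTrailingDegree hp, h'.natTrailingDegree hp]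

lemma inF_C (p q : ℕ) (c : ℂ) : inF p q (C c) = Polynomial.C c := by
  unfold inF tw
  rw [aeval_C, IsScalarTower.algebraMap_apply ℂ (Polynomial ℂ) (Polynomial (Polynomial ℂ)),
    Polynomial.algebraMap_apply, Polynomial.algebraMap_apply]
  simp only [Algebra.algebraMap_self, RingHom.id_apply]
  by_cases hc : c = 0
  · subst hc; simp
  · simp [Polynomial.trailingCoeff]

lemma vtx_C (p q : ℕ) {c : ℂ} (hc : c ≠ 0) : Vtx (C c : P2) p q 0 0 := by
  refine ⟨?_, ?_, ?_⟩
  · have : mon 0 0 = 0 := by ext i; fin_cases i <;> simp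
    rw [this]; simpa using hc
  · intro d _; simp
  · intro d _ h; simp at h

lemma Vtx.pow {F : P2} {p q A B : ℕ} (hp : 1 ≤ p) (h : Vtx F p q A B) (m : ℕ) :
    Vtx (F ^ m) p q (m * A) (m * B) := by
  induction m with
  | zero =>
    have := vtx_C p q (c := 1) one_ne_zero
    simpa using this
  | succ m ih =>
    have := ih.mul hp h
    rw [pow_succ]
    convert this using 1 <;> ring

end Pool.Agent.Mono.PC.TT
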