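import Pool.Agent.Work.Monodromy6.TA

/-! Phase 6, part T: change of direction, charts, shifts. -/

set_option autoImplicit false

namespace Pool.Agent.Mono.PC.TT

open MvPolynomial

/-! ## Truncations -/

lemma trail_congr {P Q : Polynomial (Polynomial ℂ)} {N : ℕ} (hQ : Q ≠ 0)
    (hN : Q.natTrailingDegree = N) (h : Polynomial.X ^ (N + 1) ∣ P - Q) :
    P.natTrailingDegree = N ∧ P.trailingCoeff = Q.trailingCoeff := by
  obtain ⟨S, hS⟩ := h
  have hP : P = Q + Polynomial.X ^ (N + 1) * S := by rw [← hS]; ring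
  have hlow : ∀ m ≤ N, P.coeff m = Q.coeff m := by
    intro m hm
    rw [hP, Polynomial.coeff_add, Polynomial.coeff_X_pow_mul', if_neg (by omega), add_zero]
  have hQN : Q.coeff N ≠ 0 := by
    rw [← hN]; exact Polynomial.coeff_natTrailingDegree_ne_zero.2 hQ
  have hPN : P.coeff N ≠ 0 := by rw [hlow N le_rfl]; exact hQN
  have hP0 : P ≠ 0 := by rintro rfl; exact hPN (by simp)
  have hPt : P.natTrailingDegree = N := by
    apply le_antisymm (Polynomial.natTrailingDegree_le_of_ne_zero hPN)
    apply Polynomial.le_natTrailingDegree hP0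
    intro m hm
    rw [hlow m hm.le]
    exact Polynomial.coeff_eq_zero_of_lt_natTrailingDegree (by omega)
  refine ⟨hPt, ?_⟩
  unfold Polynomial.trailingCoeff
  rw [hPt, hN, hlow N le_rfl]

/-- inner translation `Z ↦ Z + λ` -/
noncomputable def tr (lam : ℂ) : Polynomial ℂ →+* Polynomial ℂ :=
  Polynomial.compRingHom (Polynomial.X + Polynomial.C lam)

lemma tr_apply (lam : ℂ) (P : Polynomial ℂ) :
    tr lam P = P.comp (Polynomial.X + Polynomial.C lam) := rfl

lemma tr_ne_zero (lam : ℂ) {P : Polynomial ℂ} (h : P ≠ 0) : tr lam P ≠ 0 := by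
  intro h0
  apply h
  have : (tr lam P).comp (Polynomial.X - Polynomial.C lam) = P := by
    rw [tr_apply, Polynomial.comp_assoc]; simp
  rw [← this, h0, Polynomial.zero_comp]

lemma map_tr_trail (lam : ℂ) {P : Polynomial (Polynomial ℂ)} (hP : P ≠ 0) :
    (P.map (tr lam)).natTrailingDegree = P.natTrailingDegree ∧
      (P.map (tr lam)).trailingCoeff = tr lam P.trailingCoeff := by
  have hc : (P.map (tr lam)).coeff P.natTrailingDegree ≠ 0 := by
    rw [Polynomial.coeff_map]
    exact tr_ne_zero lam (Polynomial.coeff_natTrailingDegree_ne_zero.2 hP)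
  have h0 : P.map (tr lam) ≠ 0 := by intro h; rw [h] at hc; exact hc (by simp)
  have h1 : (P.map (tr lam)).natTrailingDegree = P.natTrailingDegree := by
    apply le_antisymm (Polynomial.natTrailingDegree_le_of_ne_zero hc)
    apply Polynomial.le_natTrailingDegree h0
    intro m hm
    rw [Polynomial.coeff_map, Polynomial.coeff_eq_zero_of_lt_natTrailingDegree hm, map_zero]
  refine ⟨h1, ?_⟩
  unfold Polynomial.trailingCoeff
  rw [h1, Polynomial.coeff_map]

/-! ## Charts -/

lemma tw_chart (p q : ℕ) (lam : ℂ) (F : P2) :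
    tw 1 0 (chart p q lam F) = (tw p q F).map (tr lam) := by
  let Ψ : P2 →ₐ[ℂ] Polynomial (Polynomial ℂ) :=
    aeval ![Polynomial.X ^ p, Polynomial.C (Polynomial.X + Polynomial.C lam) * Polynomial.X ^ q]
  have h1 : (tw 1 0).comp (chart p q lam) = Ψ := by
    apply MvPolynomial.algHom_ext
    intro i
    fin_cases i
    · simp [tw, chart, Ψ]
    · simp only [tw, chart, Ψ, AlgHom.comp_apply]
      simp only [Fin.mk_one, aeval_X, Matrix.cons_val_one, map_mul, map_pow, map_add,
        Matrix.cons_val_zero, Matrix.cons_val_fin_one, aeval_C]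
      rw [IsScalarTower.algebraMap_apply ℂ (Polynomial ℂ) (Polynomial (Polynomial ℂ)),
        Polynomial.algebraMap_apply, Polynomial.algebraMap_apply]
      simp only [Algebra.algebraMap_self, RingHom.id_apply, pow_one, pow_zero, mul_one]
      ring
  have h2 : ∀ F : P2, Ψ F = (tw p q F).map (tr lam) := by
    intro F
    have : ((Polynomial.mapRingHom (tr lam)).comp (tw p q : P2 →+* _)) = (Ψ : P2 →+* _) := by
      apply MvPolynomial.ringHom_ext
      · intro r
        simp only [RingHom.comp_apply, RingHom.coe_coe, Polynomial.coe_mapRingHom, tw, Ψ, aeval_C]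
        rw [IsScalarTower.algebraMap_apply ℂ (Polynomial ℂ) (Polynomial (Polynomial ℂ)),
          Polynomial.algebraMap_apply, Polynomial.algebraMap_apply]
        simp [tr_apply]
      · intro i
        fin_cases i
        · simp [tw, Ψ]
        · simp [tw, Ψ, tr_apply]
    exact (RingHom.congr_fun this F).symm
  rw [← h2, ← h1]; rfl

lemma chart_ne_zero {p : ℕ} (hp : 1 ≤ p) (q : ℕ) (lam : ℂ) {F : P2} (hF : F ≠ 0) :
    chart p q lam F ≠ 0 := by
  intro h
  have h1 := tw_chart p q lam F
  rw [h, map_zero] at h1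
  have h2 : tw p q F ≠ 0 := fun h0 => hF (tw_injective hp q (by rw [h0, map_zero]))
  have h3 := (map_tr_trail lam h2).2
  rw [← h1] at h3
  simp only [Polynomial.trailingCoeff_zero] at h3
  exact tr_ne_zero lam (by rwa [Ne, Polynomial.trailingCoeff_eq_zero]) h3.symm

/-- the vertex of a chart -/
lemma vtx_chart {p : ℕ} (hp : 1 ≤ p) (q : ℕ) (lam : ℂ) {F : P2} (hF : F ≠ 0) :
    Vtx (chart p q lam F) 1 0 (ordN p q F) ((inF p q F).rootMultiplicity lam) := by
  have h2 : tw p q F ≠ 0 := fun h0 => hF (tw_injective hp q (by rw [h0, map_zero]))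
  rw [vtx_iff le_rfl (chart_ne_zero hp q lam hF)]
  constructor
  · unfold ordN
    rw [tw_chart, (map_tr_trail lam h2).1]; simp
  · unfold inF
    rw [tw_chart, (map_tr_trail lam h2).2, Polynomial.rootMultiplicity_eq_natTrailingDegree,
      tr_apply]

/-! ## Shifts -/

lemma aeval_X0_poly (p q : ℕ) (ψ : Polynomial ℂ) :
    tw p q (Polynomial.aeval (X 0 : P2) ψ) =
      Polynomial.aeval (Polynomial.X ^ p : Polynomial (Polynomial ℂ)) ψ := by
  rw [← Polynomial.aeval_algHom_apply]
  simp [tw]

/-- a shift does not change the in-form of the preceding rays -/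
lemma shift_trail {p : ℕ} (hp : 1 ≤ p) (q : ℕ) (ψ : Polynomial ℂ) (hψ : ∀ j ∈ ψ.support, q < p * j)
    {F : P2} (hF : F ≠ 0) :
    ordN p q (shift ψ F) = ordN p q F ∧ inF p q (shift ψ F) = inF p q F := by
  obtain ⟨δ, hδ⟩ : (Polynomial.X ^ (q + 1) : Polynomial (Polynomial ℂ)) ∣
      Polynomial.aeval (Polynomial.X ^ p : Polynomial (Polynomial ℂ)) ψ := by
    rw [Polynomial.aeval_eq_sum_range]
    refine Finset.dvd_sum fun j _ => ?_
    by_cases hj : ψ.coeff j = 0
    · simp [hj]
    · have := hψ j (Polynomial.mem_support_iff.2 hj)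
      rw [← pow_mul]
      exact dvd_smul_of_dvd _ (pow_dvd_pow _ (by omega))
  have key : Polynomial.X ^ (ordN p q F + 1) ∣ tw p q (shift ψ F) - tw p q F := by
    have h1 : tw p q (shift ψ F) - tw p q F = ∑ d ∈ F.support,
        (tw p q (shift ψ (monomial d (F.coeff d))) - tw p q (monomial d (F.coeff d))) := by
      rw [Finset.sum_sub_distrib, ← map_sum, ← map_sum, ← map_sum, ← F.as_sum]
    rw [h1]
    refine Finset.dvd_sum fun d hd => ?_
    have hW : ordN p q F ≤ W p q d := ordN_le hp q hd
    refine (pow_dvd_pow Polynomial.X (Nat.add_le_add_right hW 1)).trans ?_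
    have e1 : tw p q (shift ψ (monomial d (F.coeff d))) =
        Polynomial.C (Polynomial.C (F.coeff d)) * Polynomial.X ^ (W p q d) *
          (Polynomial.C Polynomial.X + Polynomial.X * δ) ^ (d 1) := by
      rw [shift, aeval_monomial, Finsupp.prod_fintype _ _ (by simp), Fin.prod_univ_two]
      simp only [Matrix.cons_val_zero, Matrix.cons_val_one, Matrix.cons_val_fin_one]
      rw [map_mul, map_mul, map_pow, map_pow, map_add, aeval_X0_poly, hδ]
      have e2 : tw p q (algebraMap ℂ P2 (F.coeff d)) =
          Polynomial.C (Polynomial.C (F.coeff d)) := by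
        rw [AlgHom.commutes, IsScalarTower.algebraMap_apply ℂ (Polynomial ℂ)
          (Polynomial (Polynomial ℂ)), Polynomial.algebraMap_apply, Polynomial.algebraMap_apply]
        simp
      have e3 : tw p q (X 0) = Polynomial.X ^ p := by simp [tw]
      have e4 : tw p q (X 1) = Polynomial.C Polynomial.X * Polynomial.X ^ q := by simp [tw]
      rw [e2, e3, e4]
      have e5 : (Polynomial.C Polynomial.X * Polynomial.X ^ q + Polynomial.X ^ (q + 1) * δ :
          Polynomial (Polynomial ℂ)) =
          Polynomial.X ^ q * (Polynomial.C Polynomial.X + Polynomial.X * δ) := by ring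
      rw [e5, mul_pow, ← pow_mul, ← pow_mul, W, pow_add]
      ring
    have e6 : tw p q (monomial d (F.coeff d)) =
        Polynomial.C (Polynomial.C (F.coeff d)) * Polynomial.X ^ (W p q d) *
          (Polynomial.C Polynomial.X) ^ (d 1) := by
      rw [tw_monomial, ← Polynomial.C_mul_X_pow_eq_monomial,
        ← Polynomial.C_mul_X_pow_eq_monomial]
      simp only [map_mul, map_pow]; ring
    rw [e1, e6, ← mul_sub]
    have e7 : Polynomial.X ∣ ((Polynomial.C Polynomial.X + Polynomial.X * δ) ^ (d 1) -
        (Polynomial.C Polynomial.X) ^ (d 1) : Polynomial (Polynomial ℂ)) := by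
      refine dvd_trans ?_ (sub_dvd_pow_sub_pow _ _ _)
      rw [add_sub_cancel_left]
      exact dvd_mul_right _ _
    rw [pow_succ]
    exact mul_dvd_mul (dvd_mul_left _ _) e7
  have h2 : tw p q F ≠ 0 := fun h0 => hF (tw_injective hp q (by rw [h0, map_zero]))
  exact trail_congr h2 rfl key

lemma shift_zero_comp (ψ ψ' : Polynomial ℂ) (F : P2) :
    shift ψ' (shift ψ F) = shift (ψ + ψ') F := by
  have : (shift ψ').comp (shift ψ) = shift (ψ + ψ') := by
    apply MvPolynomial.algHom_ext
    intro i
    fin_cases i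
    · simp [shift]
    · simp only [shift, AlgHom.comp_apply, Fin.mk_one, aeval_X, Matrix.cons_val_one, map_add,
        Matrix.cons_val_fin_one]
      rw [← Polynomial.aeval_algHom_apply]
      simp only [aeval_X, Matrix.cons_val_zero]
      ring
  rw [← this]; rfl

lemma shift_zero (F : P2) : shift 0 F = F := by
  have : shift 0 = AlgHom.id ℂ P2 := by
    apply MvPolynomial.algHom_ext
    intro i
    fin_cases i <;> simp [shift]
  rw [this]; rfl

lemma shift_injective (ψ : Polynomial ℂ) : Function.Injective (shift ψ) := by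
  intro F G h
  have := congrArg (shift (-ψ)) h
  rwa [shift_zero_comp, shift_zero_comp, add_neg_cancel, shift_zero, shift_zero] at this

lemma shift_ne_zero (ψ : Polynomial ℂ) {F : P2} (hF : F ≠ 0) : shift ψ F ≠ 0 :=
  fun h => hF (shift_injective ψ (by rw [h, map_zero]))

lemma Vtx.shift {F : P2} {p q A B : ℕ} (hp : 1 ≤ p) (h : Vtx F p q A B) (ψ : Polynomial ℂ)
    (hψ : ∀ j ∈ ψ.support, q < p * j) : Vtx (shift ψ F) p q A B := by
  rw [vtx_iff hp (shift_ne_zero ψ h.ne_zero), (shift_trail hp q ψ hψ h.ne_zero).1,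
    (shift_trail hp q ψ hψ h.ne_zero).2]
  exact ⟨h.ord hp, h.natTrailingDegree hp⟩

/-- the coefficient of the vertex is not changed -/
lemma Vtx.coeff_shift {F : P2} {p q A B : ℕ} (hp : 1 ≤ p) (h : Vtx F p q A B) (ψ : Polynomial ℂ)
    (hψ : ∀ j ∈ ψ.support, q < p * j) : (PC.shift ψ F).coeff (mon A B) = F.coeff (mon A B) := by
  have h' := h.shift hp ψ hψ
  have e1 := inF_coeff hp q (F := F) (d := mon A B) (by rw [h.ord hp]; simp [W])
  have e2 := inF_coeff hp q (F := PC.shift ψ F) (d := mon A B) (by rw [h'.ord hp]; simp [W])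
  rw [← e1, ← e2, (shift_trail hp q ψ hψ h.ne_zero).2]

/-- removing a bad edge -/
lemma tw_shift_mono (q : ℕ) (lam : ℂ) (F : P2) :
    tw 1 q (shift (Polynomial.C lam * Polynomial.X ^ q) F) = (tw 1 q F).map (tr lam) := by
  have : ((Polynomial.mapRingHom (tr lam)).comp (tw 1 q : P2 →+* _)) =
      (((tw 1 q).comp (shift (Polynomial.C lam * Polynomial.X ^ q)) : P2 →ₐ[ℂ] _) :
        P2 →+* _) := by
    apply MvPolynomial.ringHom_ext
    · intro r
      simp only [RingHom.comp_apply, RingHom.coe_coe, Polynomial.coe_mapRingHom, tw, aeval_C,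
        AlgHom.comp_apply, shift]
      rw [AlgHom.commutes, IsScalarTower.algebraMap_apply ℂ (Polynomial ℂ)
        (Polynomial (Polynomial ℂ)), Polynomial.algebraMap_apply, Polynomial.algebraMap_apply]
      simp [tr_apply]
    · intro i
      fin_cases i
      · simp [tw, shift]
      · simp only [RingHom.comp_apply, RingHom.coe_coe, Polynomial.coe_mapRingHom,
          AlgHom.comp_apply]
        have e1 : shift (Polynomial.C lam * Polynomial.X ^ q) (X 1 : P2) =
            X 1 + Polynomial.aeval (X 0 : P2) (Polynomial.C lam * Polynomial.X ^ q) := by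
          simp [shift]
        have e2 : tw 1 q (X 1) = Polynomial.C Polynomial.X * Polynomial.X ^ q := by simp [tw]
        simp only [Fin.mk_one]
        rw [e1, map_add, aeval_X0_poly, e2]
        simp only [Polynomial.map_mul, Polynomial.map_C, Polynomial.map_pow, Polynomial.map_X,
          tr_apply, Polynomial.X_comp, pow_one, map_mul, map_pow, Polynomial.aeval_X,
          Polynomial.aeval_C]
        rw [IsScalarTower.algebraMap_apply ℂ (Polynomial ℂ)
          (Polynomial (Polynomial ℂ)), Polynomial.algebraMap_apply, Polynomial.algebraMap_apply]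
        simp only [Algebra.algebraMap_self, RingHom.id_apply, map_add]
        ring
  exact (RingHom.congr_fun this F).symm

end Pool.Agent.Mono.PC.TT
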