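import Pool.Agent.Work.Monodromy6.TB

/-! Phase 6, part T: charts of charts, edges, the next edge. -/

set_option autoImplicit false

namespace Pool.Agent.Mono.PC.TT

open MvPolynomial

/-! ## Charts of charts -/

lemma aeval_X0_chartMap (M H : ℕ) (Φ ψ : Polynomial ℂ) :
    chartMap M H Φ (Polynomial.aeval (X 0 : P2) ψ) =
      Polynomial.aeval (X 0 ^ M : P2) ψ := by
  rw [← Polynomial.aeval_algHom_apply]
  simp [chartMap]

lemma shift_chartMap (M H : ℕ) (Φ ψ : Polynomial ℂ) (F : P2) :
    shift ψ (chartMap M H Φ F) = chartMap M H (Φ + Polynomial.X ^ H * ψ) F := by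
  have : (shift ψ).comp (chartMap M H Φ) = chartMap M H (Φ + Polynomial.X ^ H * ψ) := by
    apply MvPolynomial.algHom_ext
    intro i
    fin_cases i
    · simp [shift, chartMap]
    · simp only [shift, chartMap, AlgHom.comp_apply, Fin.mk_one, aeval_X, Matrix.cons_val_one,
        map_add, Matrix.cons_val_fin_one, map_mul, map_pow, Matrix.cons_val_zero,
        Polynomial.aeval_X]
      rw [← Polynomial.aeval_algHom_apply]
      simp only [aeval_X, Matrix.cons_val_zero]
      ring
  rw [← this]; rfl

lemma chart_chartMap (M H : ℕ) (Φ : Polynomial ℂ) (p q : ℕ) (lam : ℂ) (F : P2) :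
    chart p q lam (chartMap M H Φ F) = chartMap (p * M) (p * H + q)
      (Φ.comp (Polynomial.X ^ p) + Polynomial.C lam * Polynomial.X ^ (p * H + q)) F := by
  have : (chart p q lam).comp (chartMap M H Φ) = chartMap (p * M) (p * H + q)
      (Φ.comp (Polynomial.X ^ p) + Polynomial.C lam * Polynomial.X ^ (p * H + q)) := by
    apply MvPolynomial.algHom_ext
    intro i
    fin_cases i
    · simp [chart, chartMap, pow_mul]
    · simp only [chart, chartMap, AlgHom.comp_apply, Fin.mk_one, aeval_X, Matrix.cons_val_one,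
        map_add, Matrix.cons_val_fin_one, map_mul, map_pow, Matrix.cons_val_zero,
        Polynomial.aeval_X, Polynomial.aeval_C]
      rw [← Polynomial.aeval_algHom_apply, Polynomial.aeval_comp]
      simp only [aeval_X, Matrix.cons_val_zero, map_pow, Polynomial.aeval_X]
      rw [MvPolynomial.algebraMap_eq, pow_add, pow_mul]
      ring
  rw [← this]; rfl

lemma Chart.addShift {M H e : ℕ} {Φ : Polynomial ℂ} (h : Chart M H e Φ) (ψ : Polynomial ℂ)
    (hψ : ψ.coeff 0 = 0) : Chart M H e (Φ + Polynomial.X ^ H * ψ) := by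
  cases h with
  | base Φ h =>
    apply Chart.base
    simp [h, hψ]
  | step hc p q hp hq hpq lam hl Θ =>
    obtain ⟨ψ', hψ'⟩ := Polynomial.X_dvd_iff.2 hψ
    have := Chart.step hc p q hp hq hpq lam hl (Θ + ψ')
    convert this using 1
    rw [hψ', pow_succ]
    ring

lemma Chart.child {M H e : ℕ} {Φ : Polynomial ℂ} (h : Chart M H e Φ) {p q : ℕ} (hp : 1 ≤ p)
    (hq : 1 ≤ q) (hpq : p.Coprime q) {lam : ℂ} (hl : lam ≠ 0) :
    Chart (p * M) (p * H + q) (p * (p * e + q))
      (Φ.comp (Polynomial.X ^ p) + Polynomial.C lam * Polynomial.X ^ (p * H + q)) := by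
  have := Chart.step h p q hp hq hpq lam hl 0
  simpa using this

lemma Chart.M_pos {M H e : ℕ} {Φ : Polynomial ℂ} (h : Chart M H e Φ) : 1 ≤ M := by
  induction h with
  | base => exact le_rfl
  | step hc p q hp hq hpq lam hl Θ ih => exact Nat.mul_pos hp ih

lemma Chart.nu_le {M H e : ℕ} {Φ : Polynomial ℂ} (h : Chart M H e Φ) : M + H ≤ e + 1 := by
  induction h with
  | base => simp
  | @step M H e Φ hc p q hp hq hpq lam hl Θ ih =>
    have h1 : p * (M + H) ≤ p * (e + 1) := Nat.mul_le_mul_left p ih
    have h2 : p * e ≤ p * (p * e) := Nat.le_mul_of_pos_left _ hp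
    have h3 : q + p ≤ p * q + 1 := by
      obtain ⟨p', rfl⟩ : ∃ p', p = p' + 1 := ⟨p - 1, by omega⟩
      obtain ⟨q', rfl⟩ : ∃ q', q = q' + 1 := ⟨q - 1, by omega⟩
      ring_nf
      nlinarith
    calc p * M + (p * H + q) = p * (M + H) + q := by ring
      _ ≤ p * (e + 1) + q := Nat.add_le_add_right h1 q
      _ = p * e + (q + p) := by ring
      _ ≤ p * (p * e) + (p * q + 1) := Nat.add_le_add h2 h3
      _ = p * (p * e + q) + 1 := by ring

lemma chartMap_one_zero (Φ : Polynomial ℂ) (F : P2) : chartMap 1 0 Φ F = shift Φ F := by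
  have : chartMap 1 0 Φ = shift Φ := by
    apply MvPolynomial.algHom_ext
    intro i
    fin_cases i
    · simp [shift, chartMap]
    · simp [shift, chartMap, add_comm]
  rw [this]

lemma Chart.map_ne_zero {M H e : ℕ} {Φ : Polynomial ℂ} (h : Chart M H e Φ) {F : P2}
    (hF : F ≠ 0) : chartMap M H Φ F ≠ 0 := by
  induction h with
  | base Φ h => rw [chartMap_one_zero]; exact shift_ne_zero Φ hF
  | @step M H e Φ hc p q hp hq hpq lam hl Θ ih =>
    have e1 : Φ.comp (Polynomial.X ^ p) + Polynomial.C lam * Polynomial.X ^ (p * H + q) +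
        Polynomial.X ^ (p * H + q + 1) * Θ =
        (Φ.comp (Polynomial.X ^ p) + Polynomial.C lam * Polynomial.X ^ (p * H + q)) +
        Polynomial.X ^ (p * H + q) * (Polynomial.X * Θ) := by ring
    rw [e1, ← shift_chartMap, ← chart_chartMap]
    exact shift_ne_zero _ (chart_ne_zero hp q lam ih)

/-- the derivative in a chart -/
lemma pderiv_chartMap (M H : ℕ) (Φ : Polynomial ℂ) (F : P2) :
    pderiv 1 (chartMap M H Φ F) = X 0 ^ H * chartMap M H Φ (pderiv 1 F) := by
  induction F using MvPolynomial.induction_on with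
  | C a => simp [chartMap]
  | add p q hp hq => simp only [map_add, hp, hq, mul_add]
  | mul_X p i hp =>
    rw [map_mul, Derivation.leibniz, Derivation.leibniz, hp]
    have h0 : pderiv 1 (chartMap M H Φ (X 0)) = 0 := by
      simp [chartMap, pderiv_X_of_ne]
    have h1 : pderiv 1 (chartMap M H Φ (X 1)) = X 0 ^ H := by
      have e : chartMap M H Φ (X 1) = Polynomial.aeval (X 0 : P2) Φ + X 0 ^ H * X 1 := by
        simp [chartMap]
      have e2 : pderiv 1 (Polynomial.aeval (X 0 : P2) Φ) = 0 := by
        rw [Polynomial.aeval_eq_sum_range, map_sum]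
        refine Finset.sum_eq_zero fun j _ => ?_
        rw [Derivation.map_smul, Derivation.leibniz_pow]
        simp [pderiv_X_of_ne]
      rw [e, map_add, e2, Derivation.leibniz, Derivation.leibniz_pow]
      simp [pderiv_X_of_ne]
    fin_cases i
    · simp only [Fin.zero_eta, h0, smul_zero, zero_add, smul_eq_mul]
      rw [pderiv_X_of_ne (by decide), map_add, map_mul]
      simp; ring
    · simp only [Fin.mk_one, h1, smul_eq_mul]
      rw [pderiv_X_self, map_add, map_mul]
      simp; ring

end Pool.Agent.Mono.PC.TT
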