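import Pool.Agent.Work.Monodromy6.TC

/-! Phase 6, part T: the certificate, the next edge. -/

set_option autoImplicit false
set_option linter.unusedSimpArgs false

namespace Pool.Agent.Mono.PC.TT

open MvPolynomial

/-! ## The certificate bounds the slopes -/

lemma low_add {p q N : ℕ} {F G : P2} (hF : Low p q N F) (hG : Low p q N G) :
    Low p q N (F + G) := by
  classical
  intro d hd
  rcases Finset.mem_union.1 (MvPolynomial.support_add hd) with h | h
  · exact hF d h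
  · exact hG d h

lemma low_sum {p q N : ℕ} {ι : Type*} (s : Finset ι) (F : ι → P2)
    (hF : ∀ i ∈ s, Low p q N (F i)) : Low p q N (∑ i ∈ s, F i) := by
  classical
  induction s using Finset.induction_on with
  | empty => intro d hd; simp at hd
  | insert a s ha ih =>
    rw [Finset.sum_insert ha]
    exact low_add (hF a (Finset.mem_insert_self a s))
      (ih fun i hi => hF i (Finset.mem_insert_of_mem hi))

lemma low_mul_left {p q N : ℕ} {F : P2} (hF : Low p q N F) (G : P2) : Low p q N (G * F) := by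
  classical
  intro d hd
  obtain ⟨d1, _, d2, h2, rfl⟩ := Finset.mem_add.1 (MvPolynomial.support_mul G F hd)
  have := hF d2 h2
  simp only [Finsupp.add_apply]
  nlinarith [Nat.zero_le (p * d1 0), Nat.zero_le (q * d1 1)]

lemma low_mono {p q N N' : ℕ} {F : P2} (hF : Low p q N F) (h : N' ≤ N) : Low p q N' F :=
  fun d hd => h.trans (hF d hd)

lemma low_monomial {p q N : ℕ} {d : Fin 2 →₀ ℕ} {a : ℂ} (h : a ≠ 0 → N ≤ p * d 0 + q * d 1) :
    Low p q N (monomial d a : P2) := by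
  classical
  intro d' hd'
  rw [support_monomial] at hd'
  split_ifs at hd' with ha
  · simp at hd'
  · rw [Finset.mem_singleton.1 hd']; exact h ha

lemma low_pderiv {m N : ℕ} {F : P2} (hF : Low 1 m N F) :
    Low 1 m (N - m) (MvPolynomial.pderiv 1 F) := by
  rw [F.as_sum, map_sum]
  refine low_sum _ _ fun d hd => ?_
  rw [pderiv_monomial]
  refine low_monomial fun hne => ?_
  have h1 : d 1 ≠ 0 := by
    intro h0; apply hne; rw [h0]; simp
  have h2 := hF d hd
  have e0 : (d - Finsupp.single 1 1 : Fin 2 →₀ ℕ) 0 = d 0 := by simp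
  have e1 : (d - Finsupp.single 1 1 : Fin 2 →₀ ℕ) 1 = d 1 - 1 := by simp
  rw [e0, e1]
  obtain ⟨k, hk⟩ : ∃ k, d 1 = k + 1 := ⟨d 1 - 1, by omega⟩
  rw [hk] at h2 ⊢
  rw [Nat.add_sub_cancel]
  have : m * (k + 1) = m * k + m := by ring
  omega

lemma coeff_aeval_X0 (ρ : Polynomial ℂ) (k : ℕ) :
    (Polynomial.aeval (X 0 : P2) ρ).coeff (mon k 0) = ρ.coeff k := by
  classical
  rw [Polynomial.aeval_eq_sum_range, coeff_sum]
  have h : ∀ j, coeff (mon k 0) (ρ.coeff j • (X 0 : P2) ^ j) =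
      if j = k then ρ.coeff j else 0 := by
    intro j
    rw [coeff_smul, coeff_X_pow]
    have e : mon k 0 = Finsupp.single 0 k := by simp [mon]
    rw [e]
    by_cases hj : j = k
    · subst hj; simp
    · rw [if_neg, if_neg hj]
      · simp
      · intro h
        apply hj
        have := DFunLike.congr_fun h 0
        simpa using this
  simp only [h]
  rw [Finset.sum_ite_eq']
  split_ifs with hk
  · rfl
  · rw [Polynomial.coeff_eq_zero_of_natDegree_lt]
    rw [Finset.mem_range] at hk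
    omega

lemma cert_bound {R a b : P2} {ρ : Polynomial ℂ} (hρ : ρ ≠ 0)
    (h : a * R + b * pderiv 1 R = Polynomial.aeval (X 0 : P2) ρ) {m A B : ℕ}
    (hlow : Low 1 m (A + m * B) R) : A + m * B - m ≤ ρ.natTrailingDegree := by
  have h1 : Low 1 m (A + m * B - m) (Polynomial.aeval (X 0 : P2) ρ) := by
    rw [← h]
    exact low_add (low_mono (low_mul_left hlow a) (Nat.sub_le _ _))
      (low_mul_left (low_pderiv hlow) b)
  have h2 : mon ρ.natTrailingDegree 0 ∈ (Polynomial.aeval (X 0 : P2) ρ).support := by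
    rw [mem_support_iff, coeff_aeval_X0]
    exact Polynomial.coeff_natTrailingDegree_ne_zero.2 hρ
  have := h1 _ h2
  simpa using this

/-- the certificate in a chart -/
lemma cert_chart {R a b : P2} {ρ : Polynomial ℂ} (hρ : ρ ≠ 0)
    (h : a * R + b * pderiv 1 R = Polynomial.aeval (X 0 : P2) ρ) {M : ℕ} (hM : 1 ≤ M) (H : ℕ) :
    ∃ ρ' : Polynomial ℂ, ρ' ≠ 0 ∧ ∀ Φ : Polynomial ℂ, ∃ a' b' : P2,
      a' * chartMap M H Φ R + b' * pderiv 1 (chartMap M H Φ R) =
        Polynomial.aeval (X 0 : P2) ρ' := by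
  refine ⟨Polynomial.X ^ H * Polynomial.expand ℂ M ρ, ?_, fun Φ => ?_⟩
  · refine mul_ne_zero (pow_ne_zero _ Polynomial.X_ne_zero) ?_
    rwa [Ne, Polynomial.expand_eq_zero hM]
  · refine ⟨X 0 ^ H * chartMap M H Φ a, chartMap M H Φ b, ?_⟩
    have h1 := congrArg (chartMap M H Φ) h
    rw [map_add, map_mul, map_mul, aeval_X0_chartMap] at h1
    rw [pderiv_chartMap, map_mul, map_pow, Polynomial.aeval_X, Polynomial.expand_aeval, ← h1]
    ring

/-! ## Orders -/

lemma ordN_pow {p : ℕ} (hp : 1 ≤ p) (q : ℕ) {F : P2} (hF : F ≠ 0) (n : ℕ) :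
    ordN p q (F ^ n) = n * ordN p q F := by
  induction n with
  | zero => simp [ordN]
  | succ n ih => rw [pow_succ, ordN_mul hp q (pow_ne_zero n hF) hF, ih]; ring

lemma ordN_of_low {p : ℕ} (hp : 1 ≤ p) {q N : ℕ} {F : P2} (hlow : Low p q N F)
    {d : Fin 2 →₀ ℕ} (hd : d ∈ F.support) (hW : p * d 0 + q * d 1 = N) : ordN p q F = N := by
  apply le_antisymm
  · rw [← hW]; exact ordN_le hp q hd
  · have hF : F ≠ 0 := by rintro rfl; simp at hd
    obtain ⟨A, B, hV⟩ := exists_vtx hp q hF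
    rw [hV.ord hp]
    have := hlow _ (mem_support_iff.2 hV.ne)
    simpa using this

lemma low_ordN {p : ℕ} (hp : 1 ≤ p) (q : ℕ) (F : P2) : Low p q (ordN p q F) F :=
  fun _ hd => ordN_le hp q hd

/-- equality of the orders is inherited by polynomials with the same zeros -/
lemma ord_transfer {R G : P2} {p q p2 q2 A B AR BR : ℕ} (hp : 1 ≤ p) (hp2 : 1 ≤ p2)
    (hG : Vtx G p q A B) (hR : Vtx R p q AR BR) (hGR : ∃ N, G ∣ R ^ N)
    (hord : ordN p2 q2 R = p2 * AR + q2 * BR) : ordN p2 q2 G = p2 * A + q2 * B := by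
  obtain ⟨N, S, hS⟩ := hGR
  have hR0 := hR.ne_zero
  have hG0 := hG.ne_zero
  have hS0 : S ≠ 0 := by
    rintro rfl
    rw [mul_zero] at hS
    exact pow_ne_zero N hR0 hS
  obtain ⟨A', B', hVS⟩ := exists_vtx hp q hS0
  have h1 := hG.mul hp hVS
  rw [← hS] at h1
  obtain ⟨e1, e2⟩ := h1.unique hp (hR.pow hp N)
  have h2 := ordN_mul hp2 q2 hG0 hS0
  rw [← hS, ordN_pow hp2 q2 hR0, hord] at h2
  have h3 : ordN p2 q2 G ≤ p2 * A + q2 * B := by
    have := ordN_le hp2 q2 (mem_support_iff.2 hG.ne)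
    simpa [W] using this
  have h4 : ordN p2 q2 S ≤ p2 * A' + q2 * B' := by
    have := ordN_le hp2 q2 (mem_support_iff.2 hVS.ne)
    simpa [W] using this
  have h5 : N * (p2 * AR + q2 * BR) = (p2 * A + q2 * B) + (p2 * A' + q2 * B') := by
    calc N * (p2 * AR + q2 * BR) = p2 * (N * AR) + q2 * (N * BR) := by ring
      _ = p2 * (A + A') + q2 * (B + B') := by rw [← e1, ← e2]
      _ = _ := by ring
  omega

lemma left_strict {F : P2} {p q A B p2 q2 : ℕ} (hp : 1 ≤ p) (h : Vtx F p q A B)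
    (hlt : q * p2 < q2 * p) {d : Fin 2 →₀ ℕ} (hd : d ∈ F.support) (hB : B < d 1) :
    p2 * A + q2 * B < p2 * d 0 + q2 * d 1 := by
  have h1 := h.le d hd
  have h2 : p * (p2 * A + q2 * B) < p * (p2 * d 0 + q2 * d 1) := by
    zify at *
    nlinarith [mul_le_mul_of_nonneg_left h1 (show (0 : ℤ) ≤ p2 by positivity),
      mul_pos (sub_pos.2 hlt) (sub_pos.2 hB)]
  exact Nat.lt_of_mul_lt_mul_left h2

lemma inF_natDegree {F : P2} {p q A B p2 q2 : ℕ} (hp : 1 ≤ p) (hp2 : 1 ≤ p2)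
    (h : Vtx F p q A B) (hlt : q * p2 < q2 * p) (hord : ordN p2 q2 F = p2 * A + q2 * B) :
    (inF p2 q2 F).natDegree = B ∧ (inF p2 q2 F).coeff B = F.coeff (mon A B) := by
  have hc : (inF p2 q2 F).coeff B = F.coeff (mon A B) := by
    have := inF_coeff hp2 q2 (F := F) (d := mon A B) (by rw [hord]; simp [W])
    rwa [mon_one] at this
  refine ⟨le_antisymm ?_ ?_, hc⟩
  · rw [Polynomial.natDegree_le_iff_coeff_eq_zero]
    intro b hb
    by_contra hne
    obtain ⟨d, hd, hW, h1⟩ := exists_of_inF_coeff_ne hne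
    have := left_strict hp h hlt hd (by omega)
    rw [hord] at hW
    unfold W at hW
    omega
  · exact Polynomial.le_natDegree_of_ne_zero (by rw [hc]; exact h.ne)

/-- existence of the next edge -/
lemma next_edge {F : P2} {p q A B : ℕ} (hp : 1 ≤ p) (h : Vtx F p q A B)
    (hex : ∃ d ∈ F.support, d 1 < B) :
    ∃ p2 q2, 1 ≤ p2 ∧ 1 ≤ q2 ∧ p2.Coprime q2 ∧ q * p2 < q2 * p ∧
      ordN p2 q2 F = p2 * A + q2 * B ∧
      ∃ d ∈ F.support, d 1 < B ∧ p2 * d 0 + q2 * d 1 = p2 * A + q2 * B := by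
  classical
  obtain ⟨d0, hd0, hd0B⟩ := hex
  obtain ⟨d, hdS, hmin⟩ := Finset.exists_min_image (F.support.filter fun d => d 1 < B)
    (fun d => (((d 0 : ℕ) : ℚ) - A) / ((B : ℚ) - (d 1 : ℕ)))
    ⟨d0, Finset.mem_filter.2 ⟨hd0, hd0B⟩⟩
  obtain ⟨hd, hdB⟩ := Finset.mem_filter.1 hdS
  have hlt := h.lt d hd hdB
  have hAd : A < d 0 := by
    by_contra hc
    push Not at hc
    have h1 : p * d 0 ≤ p * A := Nat.mul_le_mul_left p hc
    have h2 : q * d 1 ≤ q * B := Nat.mul_le_mul_left q hdB.le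
    omega
  obtain ⟨a, ha⟩ : ∃ a, d 0 = A + a := ⟨d 0 - A, by omega⟩
  obtain ⟨b, hb⟩ : ∃ b, B = d 1 + b := ⟨B - d 1, by omega⟩
  have ha0 : 0 < a := by omega
  have hb0 : 0 < b := by omega
  set g := Nat.gcd a b with hg
  have hg0 : 0 < g := Nat.gcd_pos_of_pos_left b ha0
  obtain ⟨q2, hq2⟩ : g ∣ a := Nat.gcd_dvd_left a b
  obtain ⟨p2, hp2⟩ : g ∣ b := Nat.gcd_dvd_right a b
  have hq20 : 1 ≤ q2 := by
    rcases Nat.eq_zero_or_pos q2 with h0 | h0
    · rw [h0] at hq2; omega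
    · exact h0
  have hp20 : 1 ≤ p2 := by
    rcases Nat.eq_zero_or_pos p2 with h0 | h0
    · rw [h0] at hp2; omega
    · exact h0
  have hcop : p2.Coprime q2 := by
    have := Nat.coprime_div_gcd_div_gcd (m := a) (n := b) (by rw [← hg]; exact hg0)
    rw [← hg, hq2, hp2, Nat.mul_div_cancel_left _ hg0, Nat.mul_div_cancel_left _ hg0] at this
    exact this.symm
  have hslope : q * p2 < q2 * p := by
    have h1 : q * b < p * a := by
      rw [ha, hb] at hlt
      nlinarith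
    rw [hq2, hp2] at h1
    have h2 : g * (q * p2) < g * (q2 * p) := by nlinarith
    exact Nat.lt_of_mul_lt_mul_left h2
  have heq : p2 * d 0 + q2 * d 1 = p2 * A + q2 * B := by
    rw [ha, hb]
    have : p2 * a = q2 * b := by rw [hq2, hp2]; ring
    nlinarith
  refine ⟨p2, q2, hp20, hq20, hcop, hslope, ?_, d, hd, hdB, heq⟩
  refine ordN_of_low hp20 ?_ hd heq
  intro d' hd'
  rcases lt_trichotomy (d' 1) B with h1 | h1 | h1
  · have hm := hmin d' (Finset.mem_filter.2 ⟨hd', h1⟩)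
    have hB1 : (0 : ℚ) < (B : ℚ) - (d' 1 : ℕ) := by
      have : ((d' 1 : ℕ) : ℚ) < B := by exact_mod_cast h1
      linarith
    have hB2 : (0 : ℚ) < (B : ℚ) - (d 1 : ℕ) := by
      have : ((d 1 : ℕ) : ℚ) < B := by exact_mod_cast hdB
      linarith
    rw [div_le_div_iff₀ hB2 hB1] at hm
    have e1 : ((d 0 : ℕ) : ℚ) - A = g * q2 := by
      rw [ha, hq2]; push_cast; ring
    have e2 : (B : ℚ) - (d 1 : ℕ) = g * p2 := by
      rw [hb, hp2]; push_cast; ring
    rw [e1, e2] at hm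
    have hg' : (0 : ℚ) < g := by exact_mod_cast hg0
    have h3 : (q2 : ℚ) * ((B : ℚ) - (d' 1 : ℕ)) ≤ (((d' 0 : ℕ) : ℚ) - A) * p2 := by
      have : (g : ℚ) * (q2 * ((B : ℚ) - (d' 1 : ℕ))) ≤ g * ((((d' 0 : ℕ) : ℚ) - A) * p2) := by
        nlinarith
      exact le_of_mul_le_mul_left this hg'
    have h4 : ((p2 * A + q2 * B : ℕ) : ℚ) ≤ ((p2 * d' 0 + q2 * d' 1 : ℕ) : ℚ) := by
      push_cast; nlinarith
    exact_mod_cast h4
  · have h2 := h.le d' hd'
    rw [h1] at h2 ⊢
    have : p * A ≤ p * d' 0 := by omega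
    have := Nat.le_of_mul_le_mul_left this hp
    have := Nat.mul_le_mul_left p2 this
    omega
  · exact (left_strict hp h hslope hd' h1).le

end Pool.Agent.Mono.PC.TT
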