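import Pool.Agent.Work.Monodromy.Interface6V

/-! Phase 6, part T: a statement used by TREE (and ALG). -/

set_option autoImplicit false

namespace Pool.Agent.Mono.PC

open MvPolynomial

/-- certificate for squarefree polynomials -/
def Stmt_CERT : Prop :=
  ∀ R : P2, Squarefree R → ∃ (a b : P2) (ρ : Polynomial ℂ), ρ ≠ 0 ∧
    a * R + b * pderiv 1 R = Polynomial.aeval (X 0 : P2) ρ

end Pool.Agent.Mono.PC
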