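import Pool.Agent.Work.Monodromy6.TD

/-! Phase 6, part T: edges. -/

set_option autoImplicit false
set_option linter.unusedSimpArgs false

namespace Pool.Agent.Mono.PC.TT

open MvPolynomial

lemma tw_C_mul_X (p q : ℕ) (c : ℂ) (a b : ℕ) :
    tw p q (C c * X 0 ^ a * X 1 ^ b) =
      Polynomial.C (Polynomial.C c * Polynomial.X ^ b) * Polynomial.X ^ (p * a + q * b) := by
  have e2 : tw p q (C c) = Polynomial.C (Polynomial.C c) := by
    rw [tw, aeval_C, IsScalarTower.algebraMap_apply ℂ (Polynomial ℂ)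
      (Polynomial (Polynomial ℂ)), Polynomial.algebraMap_apply, Polynomial.algebraMap_apply]
    simp
  have e3 : tw p q (X 0) = Polynomial.X ^ p := by simp [tw]
  have e4 : tw p q (X 1) = Polynomial.C Polynomial.X * Polynomial.X ^ q := by simp [tw]
  rw [map_mul, map_mul, map_pow, map_pow, e2, e3, e4]
  simp only [map_mul, map_pow, mul_pow, pow_add, pow_mul]
  ring

/-- the coefficients above the vertex: `Above` from the in-form -/
lemma above_of_tw {p : ℕ} (hp : 1 ≤ p) {q : ℕ} {F E : P2} {e : Polynomial ℂ}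
    (hF : inF p q F = e) (hE : tw p q E = Polynomial.C e * Polynomial.X ^ (ordN p q F)) :
    Above p q (ordN p q F) (F - E) := by
  intro d hd
  have h1 : ((tw p q (F - E)).coeff (W p q d)).coeff (d 1) ≠ 0 := by
    rw [tw_coeff_W hp q]; exact mem_support_iff.1 hd
  rw [map_sub, hE, Polynomial.coeff_sub, Polynomial.coeff_C_mul_X_pow] at h1
  by_contra hlt
  push Not at hlt
  change W p q d ≤ ordN p q F at hlt
  rcases lt_or_eq_of_le hlt with h2 | h2
  · rw [if_neg h2.ne, Polynomial.coeff_eq_zero_of_lt_natTrailingDegree h2] at h1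
    simp at h1
  · rw [if_pos h2, h2] at h1
    apply h1
    rw [← hF]
    change (((tw p q F).coeff (tw p q F).natTrailingDegree) -
      (tw p q F).trailingCoeff).coeff (d 1) = 0
    unfold Polynomial.trailingCoeff
    simp

lemma isEdge_of {G : P2} {p q A B p2 q2 : ℕ} (hp : 1 ≤ p) (hV : Vtx G p q A B)
    (hlt : q * p2 < q2 * p) (hp2 : 1 ≤ p2) (hq2 : 1 ≤ q2) (hcop : p2.Coprime q2)
    (hord : ordN p2 q2 G = p2 * A + q2 * B)
    (hnon : (inF p2 q2 G).natTrailingDegree < B) :
    ∃ I : Polynomial ℂ, IsEdge G p2 q2 A (inF p2 q2 G).natTrailingDegree I ∧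
      (inF p2 q2 G).natTrailingDegree + p2 * I.natDegree = B ∧
      inF p2 q2 G = Polynomial.X ^ (inF p2 q2 G).natTrailingDegree * Polynomial.expand ℂ p2 I ∧
      I.leadingCoeff = G.coeff (mon A B) := by
  classical
  set e := inF p2 q2 G with he
  set bR := e.natTrailingDegree with hbR
  obtain ⟨hdeg, hlead⟩ := inF_natDegree hp hp2 hV hlt hord
  rw [← he] at hdeg hlead
  have hG0 := hV.ne_zero
  have he0 : e ≠ 0 := inF_ne_zero hp2 q2 hG0
  -- exponents
  have hexp : ∀ b, e.coeff b ≠ 0 → b ≤ B ∧ p2 ∣ B - b := by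
    intro b hb
    have hbB : b ≤ B := by rw [← hdeg]; exact Polynomial.le_natDegree_of_ne_zero hb
    refine ⟨hbB, ?_⟩
    obtain ⟨d, _, hW, h1⟩ := exists_of_inF_coeff_ne hb
    rw [hord] at hW
    unfold W at hW
    rw [h1] at hW
    have h2 : p2 ∣ q2 * (B - b) := by
      have h3 : q2 * (B - b) + p2 * A = p2 * d 0 := by
        have : q2 * (B - b) + q2 * b = q2 * B := by rw [← mul_add, Nat.sub_add_cancel hbB]
        omega
      have h4 : p2 ∣ q2 * (B - b) + p2 * A := h3 ▸ dvd_mul_right p2 (d 0)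
      exact (Nat.dvd_add_left (dvd_mul_right p2 A)).1 h4
    exact hcop.dvd_of_dvd_mul_left h2
  have hbRc : e.coeff bR ≠ 0 := Polynomial.coeff_natTrailingDegree_ne_zero.2 he0
  obtain ⟨_, n, hn⟩ := hexp bR hbRc
  have hBn : bR + p2 * n = B := by omega
  have hn1 : 1 ≤ n := by
    rcases Nat.eq_zero_or_pos n with h0 | h0
    · rw [h0] at hBn; omega
    · exact h0
  have hmul : ∀ b, e.coeff b ≠ 0 → ∃ k ≤ n, b = bR + p2 * k := by
    intro b hb
    have h1 : bR ≤ b := Polynomial.natTrailingDegree_le_of_ne_zero hb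
    obtain ⟨h2, j, hj⟩ := hexp b hb
    have h3 : p2 * j ≤ p2 * n := by omega
    have h4 : j ≤ n := Nat.le_of_mul_le_mul_left h3 hp2
    refine ⟨n - j, by omega, ?_⟩
    have : p2 * (n - j) + p2 * j = p2 * n := by rw [← mul_add, Nat.sub_add_cancel h4]
    omega
  set I : Polynomial ℂ := ∑ k ∈ Finset.range (n + 1), Polynomial.monomial k (e.coeff (bR + p2 * k))
    with hI
  have hIc : ∀ k, I.coeff k = if k ≤ n then e.coeff (bR + p2 * k) else 0 := by
    intro k
    rw [hI, Polynomial.finsetSum_coeff]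
    simp only [Polynomial.coeff_monomial]
    rw [Finset.sum_ite_eq']
    simp [Nat.lt_succ_iff]
  have hIn : I.natDegree = n := by
    apply le_antisymm
    · rw [Polynomial.natDegree_le_iff_coeff_eq_zero]
      intro k hk
      rw [hIc, if_neg (by omega)]
    · apply Polynomial.le_natDegree_of_ne_zero
      rw [hIc, if_pos le_rfl, hBn, hlead]
      exact hV.ne
  have hexpd : e = Polynomial.X ^ bR * Polynomial.expand ℂ p2 I := by
    ext b
    rw [Polynomial.coeff_X_pow_mul']
    by_cases hb : e.coeff b = 0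
    · rw [hb]
      split_ifs with h1
      · rw [Polynomial.coeff_expand (by omega)]
        split_ifs with h2
        · rw [hIc]
          split_ifs with h3
          · rw [Nat.mul_div_cancel' h2, Nat.add_sub_cancel' h1, hb]
          · rfl
        · rfl
      · rfl
    · obtain ⟨k, hk, rfl⟩ := hmul b hb
      rw [if_pos (by omega), Nat.add_sub_cancel_left, Polynomial.coeff_expand (by omega),
        if_pos (dvd_mul_right _ _), Nat.mul_div_cancel_left _ (by omega), hIc, if_pos hk]
  have hN : edgeN p2 q2 A bR I = ordN p2 q2 G := by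
    rw [edgeN, hIn, hBn, hord]
  refine ⟨I, ⟨hp2, hq2, hcop, ?_, by omega, ?_⟩, by rw [hIn, hBn], hexpd, ?_⟩
  · rw [hIc, if_pos (Nat.zero_le n), Nat.mul_zero, Nat.add_zero]; exact hbRc
  · rw [hN]
    refine above_of_tw hp2 he.symm ?_
    rw [edgePart, map_sum, hIn]
    simp only [tw_C_mul_X]
    have hW : ∀ k ∈ Finset.range (n + 1),
        Polynomial.C (Polynomial.C (I.coeff k) * Polynomial.X ^ (bR + p2 * k)) *
          Polynomial.X ^ (p2 * (A + q2 * (n - k)) + q2 * (bR + p2 * k)) =
        Polynomial.C (Polynomial.C (I.coeff k) * Polynomial.X ^ (bR + p2 * k)) *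
          Polynomial.X ^ (ordN p2 q2 G) := by
      intro k hk
      have hk' : k ≤ n := by rw [Finset.mem_range] at hk; omega
      congr 2
      rw [hord, ← hBn]
      obtain ⟨j, rfl⟩ : ∃ j, n = k + j := ⟨n - k, by omega⟩
      rw [Nat.add_sub_cancel_left]; ring
    rw [Finset.sum_congr rfl hW, ← Finset.sum_mul, ← map_sum]
    congr 2
    conv_rhs => rw [hexpd, Polynomial.expand_eq_sum, Polynomial.sum_over_range
      (f := fun n a => Polynomial.C a * (Polynomial.X ^ p2) ^ n) I (by simp), hIn]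
    rw [Finset.mul_sum]
    refine Finset.sum_congr rfl fun k _ => ?_
    rw [pow_add, pow_mul]; ring
  · rw [Polynomial.leadingCoeff, hIn, hIc, if_pos le_rfl, hBn, hlead]

/-- roots of the in-form -/
lemma root_iff {e I : Polynomial ℂ} {b p : ℕ} (h : e = Polynomial.X ^ b * Polynomial.expand ℂ p I)
    {lam : ℂ} (hl : lam ≠ 0) : e.eval lam = 0 ↔ I.eval (lam ^ p) = 0 := by
  rw [h, Polynomial.eval_mul, Polynomial.eval_pow, Polynomial.eval_X, Polynomial.expand_eval]
  constructor
  · intro h1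
    rcases mul_eq_zero.1 h1 with h2 | h2
    · exact absurd h2 (pow_ne_zero _ hl)
    · exact h2
  · intro h1; rw [h1, mul_zero]

end Pool.Agent.Mono.PC.TT
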