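import Pool.Agent.Work.Monodromy6.TE

/-! Phase 6, part T: finding a good edge after a coordinate change. -/

set_option autoImplicit false
set_option linter.unusedSimpArgs false
set_option linter.unusedVariables false

namespace Pool.Agent.Mono.PC.TT

open MvPolynomial

/-! ## One-variable lemmas -/

lemma exists_ne_zero_root {e : Polynomial ℂ} (he : e ≠ 0)
    (h : e.natTrailingDegree < e.natDegree) : ∃ lam : ℂ, lam ≠ 0 ∧ e.eval lam = 0 := by
  obtain ⟨u, hu, hnd⟩ := Polynomial.exists_eq_pow_rootMultiplicity_mul_and_not_dvd e he 0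
  rw [Polynomial.rootMultiplicity_eq_natTrailingDegree] at hu
  simp only [map_zero, add_zero, Polynomial.comp_X, sub_zero] at hu hnd
  have hu0 : u ≠ 0 := by rintro rfl; exact hnd (dvd_zero _)
  have hdeg : e.natDegree = e.natTrailingDegree + u.natDegree := by
    conv_lhs => rw [hu]
    rw [Polynomial.natDegree_mul (pow_ne_zero _ Polynomial.X_ne_zero) hu0]
    simp
  have hu1 : 0 < u.natDegree := by omega
  obtain ⟨lam, hlam⟩ := Complex.exists_root (f := u) (Polynomial.natDegree_pos_iff_degree_pos.1 hu1)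
  refine ⟨lam, ?_, ?_⟩
  · rintro rfl
    apply hnd
    rw [Polynomial.X_dvd_iff, Polynomial.coeff_zero_eq_eval_zero]
    exact hlam
  · rw [hu, Polynomial.eval_mul]
    rw [Polynomial.IsRoot] at hlam
    rw [hlam, mul_zero]

lemma rootMult_eq_of_subset {e : Polynomial ℂ} (lam : ℂ)
    (h : ∀ x ∈ e.roots, lam = x) : e.rootMultiplicity lam = e.natDegree := by
  classical
  rw [← Polynomial.count_roots, Multiset.count_eq_card.2 h]
  exact Polynomial.splits_iff_card_roots.1 (IsAlgClosed.splits e)

/-- all the multiplicity in one root: the coefficient below the leading one does not vanish -/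
lemma coeff_pred_ne {e : Polynomial ℂ} (he : e ≠ 0) {lam : ℂ} (hl : lam ≠ 0) {B : ℕ} (hB : 1 ≤ B)
    (hdeg : e.natDegree = B) (h : e.rootMultiplicity lam = B) : e.coeff (B - 1) ≠ 0 := by
  obtain ⟨u, hu, _⟩ := Polynomial.exists_eq_pow_rootMultiplicity_mul_and_not_dvd e he lam
  rw [h] at hu
  have hu0 : u ≠ 0 := by rintro rfl; rw [mul_zero] at hu; exact he hu
  have hud : u.natDegree = 0 := by
    have : e.natDegree = B + u.natDegree := by
      conv_lhs => rw [hu]
      rw [Polynomial.natDegree_mul (pow_ne_zero _ (Polynomial.X_sub_C_ne_zero lam)) hu0]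
      simp
    omega
  obtain ⟨c, hc⟩ := Polynomial.natDegree_eq_zero.1 hud
  have hc0 : c ≠ 0 := by rintro rfl; exact hu0 (by rw [← hc, map_zero])
  rw [hu, ← hc, Polynomial.coeff_mul_C]
  have e1 : (Polynomial.X - Polynomial.C lam : Polynomial ℂ) =
      Polynomial.X + Polynomial.C (-lam) := by rw [map_neg]; ring
  rw [e1, Polynomial.coeff_X_add_C_pow]
  obtain ⟨n, rfl⟩ : ∃ n, B = n + 1 := ⟨B - 1, by omega⟩
  rw [Nat.add_sub_cancel, Nat.choose_succ_self_right]
  refine mul_ne_zero (mul_ne_zero (pow_ne_zero _ (neg_ne_zero.2 hl)) ?_) hc0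
  exact_mod_cast Nat.succ_ne_zero n

/-! ## Heights -/

lemma height_mono {X : P2} {p q p2 q2 A B A' B' : ℕ} (hp : 1 ≤ p) (h : Vtx X p q A B)
    (h' : Vtx X p2 q2 A' B') (hlt : q * p2 < q2 * p) : B' ≤ B := by
  by_contra hc
  push Not at hc
  have h1 := left_strict hp h hlt (mem_support_iff.2 h'.ne) (by simpa using hc)
  have h2 := h'.le _ (mem_support_iff.2 h.ne)
  simp only [mon_zero, mon_one] at h1 h2
  omega

lemma vtx_transfer {R G : P2} {p q p2 q2 A B AR BR : ℕ} (hp : 1 ≤ p) (hp2 : 1 ≤ p2)
    (hlt : q * p2 < q2 * p) (hG : Vtx G p q A B) (hR : Vtx R p q AR BR)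
    (hR2 : Vtx R p2 q2 AR BR) (hGR : ∃ N, G ∣ R ^ N) : Vtx G p2 q2 A B := by
  have hord := ord_transfer hp hp2 hG hR hGR (hR2.ord hp2)
  obtain ⟨N, S, hS⟩ := hGR
  have hG0 := hG.ne_zero
  have hS0 : S ≠ 0 := by
    rintro rfl
    rw [mul_zero] at hS
    exact pow_ne_zero N hR.ne_zero hS
  obtain ⟨A', B', hVS⟩ := exists_vtx hp q hS0
  obtain ⟨A1, B1, hVS2⟩ := exists_vtx hp2 q2 hS0
  obtain ⟨A2, B2, hVG2⟩ := exists_vtx hp2 q2 hG0
  have h1 := hG.mul hp hVS
  rw [← hS] at h1
  have h2 := hVG2.mul hp2 hVS2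
  rw [← hS] at h2
  obtain ⟨_, e2⟩ := h1.unique hp (hR.pow hp N)
  obtain ⟨_, e4⟩ := h2.unique hp2 (hR2.pow hp2 N)
  have m1 := height_mono hp hG hVG2 hlt
  have m2 := height_mono hp hVS hVS2 hlt
  have hB : B2 = B := by omega
  subst hB
  have hA : A2 = A := by
    have := (hVG2.ord hp2).symm.trans hord
    exact Nat.eq_of_mul_eq_mul_left hp2 (Nat.add_right_cancel this)
  subst hA
  exact hVG2

/-! ## Good edges -/

/-- the next edge is good -/
structure GoodNext (G R : P2) (p q A B AR BR p2 q2 bR : ℕ) (I : Polynomial ℂ) : Prop where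
  hlt : q * p2 < q2 * p
  edge : IsEdge G p2 q2 A bR I
  hB : bR + p2 * I.natDegree = B
  lead : I.leadingCoeff = G.coeff (mon A B)
  inG : inF p2 q2 G = Polynomial.X ^ bR * Polynomial.expand ℂ p2 I
  bR_eq : bR = (inF p2 q2 G).natTrailingDegree
  ordG : ordN p2 q2 G = p2 * A + q2 * B
  ordR : ordN p2 q2 R = p2 * AR + q2 * BR
  mult : ∀ lam : ℂ, lam ≠ 0 → (inF p2 q2 R).rootMultiplicity lam < BR
  multR : (inF p2 q2 R).natTrailingDegree < BR
  sp : 2 ≤ I.roots.toFinset.card + (if 2 ≤ p2 ∨ 1 ≤ bR then 1 else 0)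

lemma pderiv_shift (ψ : Polynomial ℂ) (F : P2) :
    pderiv 1 (shift ψ F) = shift ψ (pderiv 1 F) := by
  have := pderiv_chartMap 1 0 ψ F
  rw [chartMap_one_zero, chartMap_one_zero] at this
  simpa using this

lemma shift_aeval_X0 (ψ ρ : Polynomial ℂ) :
    shift ψ (Polynomial.aeval (X 0 : P2) ρ) = Polynomial.aeval (X 0 : P2) ρ := by
  have := aeval_X0_chartMap 1 0 ψ ρ
  rw [chartMap_one_zero, pow_one] at this
  exact this

lemma low_all {F : P2} {p q A B m : ℕ} (hp : 1 ≤ p) (h : Vtx F p q A B)
    (hall : ∀ d ∈ F.support, B ≤ d 1) (hm : q < m * p) : Low 1 m (A + m * B) F := by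
  intro d hd
  rcases (hall d hd).lt_or_eq with h1 | h1
  · have := left_strict (p2 := 1) (q2 := m) hp h (by simpa using hm) hd h1
    omega
  · have h2 := h.le d hd
    rw [← h1] at h2 ⊢
    have : p * A ≤ p * d 0 := by omega
    have := Nat.le_of_mul_le_mul_left this hp
    omega

/-- the certificate bounds the slope of the next edge -/
lemma cert_slope {R a b : P2} {ρ : Polynomial ℂ} (hρ : ρ ≠ 0)
    (h : a * R + b * pderiv 1 R = Polynomial.aeval (X 0 : P2) ρ) {p2 q2 A B : ℕ} (hp2 : 1 ≤ p2)
    (hlow : Low p2 q2 (p2 * A + q2 * B) R) :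
    p2 * A + q2 * B - q2 ≤ p2 * ρ.natTrailingDegree := by
  have hd : Low p2 q2 (p2 * A + q2 * B - q2) (pderiv 1 R) := by
    rw [R.as_sum, map_sum]
    refine low_sum _ _ fun d hd => ?_
    rw [pderiv_monomial]
    refine low_monomial fun hne => ?_
    have h1 : d 1 ≠ 0 := by
      intro h0; apply hne; rw [h0]; simp
    have h2 := hlow d hd
    have e0 : (d - Finsupp.single 1 1 : Fin 2 →₀ ℕ) 0 = d 0 := by simp
    have e1 : (d - Finsupp.single 1 1 : Fin 2 →₀ ℕ) 1 = d 1 - 1 := by simp
    rw [e0, e1]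
    obtain ⟨k, hk⟩ : ∃ k, d 1 = k + 1 := ⟨d 1 - 1, by omega⟩
    rw [hk] at h2 ⊢
    rw [Nat.add_sub_cancel]
    have : q2 * (k + 1) = q2 * k + q2 := by ring
    omega
  have h1 : Low p2 q2 (p2 * A + q2 * B - q2) (Polynomial.aeval (X 0 : P2) ρ) := by
    rw [← h]
    exact low_add (low_mono (low_mul_left hlow a) (Nat.sub_le _ _)) (low_mul_left hd b)
  have h2 : mon ρ.natTrailingDegree 0 ∈ (Polynomial.aeval (X 0 : P2) ρ).support := by
    rw [mem_support_iff, coeff_aeval_X0]
    exact Polynomial.coeff_natTrailingDegree_ne_zero.2 hρ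
  have := h1 _ h2
  simpa using this

lemma inF_dvd {p q : ℕ} {R G : P2} (h : R ∣ G) : inF p q R ∣ inF p q G := by
  obtain ⟨S, rfl⟩ := h
  rw [inF_mul]; exact dvd_mul_right _ _

theorem key {ρ : Polynomial ℂ} (hρ : ρ ≠ 0) {A B AR BR : ℕ} (hBR : 2 ≤ BR) :
    ∀ (n : ℕ) (G R : P2) (p q : ℕ), 1 ≤ p → Vtx G p q A B → Vtx R p q AR BR → R ∣ G →
      (∃ N, G ∣ R ^ N) → (∃ a b : P2, a * R + b * pderiv 1 R = Polynomial.aeval (X 0 : P2) ρ) →
      ρ.natTrailingDegree * p ≤ q + n * p →
      ∃ ψ : Polynomial ℂ, (∀ j ∈ ψ.support, q < p * j) ∧ ∃ (p2 q2 bR : ℕ) (I : Polynomial ℂ),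
        GoodNext (shift ψ G) (shift ψ R) p q A B AR BR p2 q2 bR I := by
  classical
  intro n
  induction n with
  | zero =>
    intro G R p q hp hG hR hRG hGR hcert hn
    exfalso
    obtain ⟨a, b, hab⟩ := hcert
    have hex : ∃ d ∈ R.support, d 1 < BR := by
      by_contra hall
      push Not at hall
      have hl := low_all (m := ρ.natTrailingDegree + 1 + q) hp hR hall (by nlinarith)
      have := cert_slope hρ hab (p2 := 1) (q2 := ρ.natTrailingDegree + 1 + q) (A := AR) (B := BR)
        le_rfl (by rw [one_mul]; exact hl)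
      obtain ⟨k, rfl⟩ : ∃ k, BR = k + 2 := ⟨BR - 2, by omega⟩
      rw [one_mul, one_mul] at this
      have e : (ρ.natTrailingDegree + 1 + q) * (k + 2) =
        (ρ.natTrailingDegree + 1 + q) * (k + 1) + (ρ.natTrailingDegree + 1 + q) := by ring
      have e2 : (ρ.natTrailingDegree + 1 + q) ≤ (ρ.natTrailingDegree + 1 + q) * (k + 1) :=
        Nat.le_mul_of_pos_right _ (by omega)
      omega
    obtain ⟨p2, q2, hp2, hq2, hcop, hslope, hord, _⟩ := next_edge hp hR hex
    have hc := cert_slope hρ hab (p2 := p2) (q2 := q2) (A := AR) (B := BR) hp2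
      (by rw [← hord]; exact low_ordN hp2 q2 R)
    obtain ⟨k, rfl⟩ : ∃ k, BR = k + 2 := ⟨BR - 2, by omega⟩
    have e : q2 * (k + 2) = q2 * (k + 1) + q2 := by ring
    have e2 : q2 ≤ q2 * (k + 1) := Nat.le_mul_of_pos_right _ (by omega)
    have e3 : q2 ≤ p2 * ρ.natTrailingDegree := by omega
    have e4 : q2 * p ≤ p2 * (ρ.natTrailingDegree * p) := by nlinarith
    have e5 : p2 * (ρ.natTrailingDegree * p) ≤ p2 * q := Nat.mul_le_mul_left _ (by simpa using hn)
    nlinarith
  | succ n ih =>
    intro G R p q hp hG hR hRG hGR hcert hn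
    obtain ⟨a, b, hab⟩ := hcert
    have hex : ∃ d ∈ R.support, d 1 < BR := by
      by_contra hall
      push Not at hall
      have hl := low_all (m := ρ.natTrailingDegree + 1 + q) hp hR hall (by nlinarith)
      have := cert_slope hρ hab (p2 := 1) (q2 := ρ.natTrailingDegree + 1 + q) (A := AR) (B := BR)
        le_rfl (by rw [one_mul]; exact hl)
      obtain ⟨k, rfl⟩ : ∃ k, BR = k + 2 := ⟨BR - 2, by omega⟩
      rw [one_mul, one_mul] at this
      have e : (ρ.natTrailingDegree + 1 + q) * (k + 2) =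
        (ρ.natTrailingDegree + 1 + q) * (k + 1) + (ρ.natTrailingDegree + 1 + q) := by ring
      have e2 : (ρ.natTrailingDegree + 1 + q) ≤ (ρ.natTrailingDegree + 1 + q) * (k + 1) :=
        Nat.le_mul_of_pos_right _ (by omega)
      omega
    obtain ⟨p2, q2, hp2, hq2, hcop, hslope, hord, d, hd, hdB, hdW⟩ := next_edge hp hR hex
    have hR0 := hR.ne_zero
    have hG0 := hG.ne_zero
    obtain ⟨hRdeg, hRc⟩ := inF_natDegree hp hp2 hR hslope hord
    have heR0 := inF_ne_zero hp2 q2 hR0
    have hordG := ord_transfer hp hp2 hG hR hGR hord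
    obtain ⟨hGdeg, hGc⟩ := inF_natDegree hp hp2 hG hslope hordG
    have heG0 := inF_ne_zero hp2 q2 hG0
    by_cases hbad : ∃ lam : ℂ, lam ≠ 0 ∧ (inF p2 q2 R).rootMultiplicity lam = BR
    · obtain ⟨lam, hl, hmult⟩ := hbad
      have hp21 : p2 = 1 := by
        have h1 := coeff_pred_ne heR0 hl (by omega) hRdeg hmult
        obtain ⟨d', _, hW', h1'⟩ := exists_of_inF_coeff_ne h1
        rw [hord] at hW'
        unfold W at hW'
        rw [h1'] at hW'
        have h2 : p2 ∣ q2 := by
          have h3 : q2 + p2 * AR = p2 * d' 0 := by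
            obtain ⟨k, rfl⟩ : ∃ k, BR = k + 1 := ⟨BR - 1, by omega⟩
            rw [Nat.add_sub_cancel] at hW'
            have : q2 * (k + 1) = q2 * k + q2 := by ring
            omega
          have h4 : p2 ∣ q2 + p2 * AR := h3 ▸ dvd_mul_right p2 (d' 0)
          exact (Nat.dvd_add_left (dvd_mul_right p2 AR)).1 h4
        exact Nat.eq_one_of_dvd_coprimes hcop dvd_rfl h2
      subst hp21
      set ψ₁ : Polynomial ℂ := Polynomial.C lam * Polynomial.X ^ q2 with hψ₁
      have hsupp : ∀ j ∈ ψ₁.support, q < p * j := by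
        intro j hj
        rw [hψ₁, Polynomial.support_C_mul_X_pow q2 hl, Finset.mem_singleton] at hj
        rw [hj]; nlinarith
      have hVR : Vtx (shift ψ₁ R) 1 q2 AR BR := by
        have h2 : tw 1 q2 R ≠ 0 := fun h0 => hR0 (tw_injective le_rfl q2 (by rw [h0, map_zero]))
        rw [vtx_iff le_rfl (shift_ne_zero ψ₁ hR0)]
        constructor
        · unfold ordN
          rw [hψ₁, tw_shift_mono, (map_tr_trail lam h2).1]
          exact hord
        · unfold inF
          rw [hψ₁, tw_shift_mono, (map_tr_trail lam h2).2, tr_apply,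
            ← Polynomial.rootMultiplicity_eq_natTrailingDegree]
          exact hmult
      have hVR0 := hR.shift hp ψ₁ hsupp
      have hVG0 := hG.shift hp ψ₁ hsupp
      have hGR1 : ∃ N, shift ψ₁ G ∣ shift ψ₁ R ^ N := by
        obtain ⟨N, hN⟩ := hGR
        exact ⟨N, by rw [← map_pow]; exact map_dvd (shift ψ₁) hN⟩
      have hVG := vtx_transfer hp le_rfl (by simpa using hslope) hVG0 hVR0 hVR hGR1
      obtain ⟨ψ', hψ', p3, q3, bR, I, hgood⟩ := ih (shift ψ₁ G) (shift ψ₁ R) 1 q2 le_rfl hVG hVR
        (map_dvd (shift ψ₁) hRG) hGR1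
        ⟨shift ψ₁ a, shift ψ₁ b, by
          rw [pderiv_shift, ← map_mul, ← map_mul, ← map_add, hab, shift_aeval_X0]⟩
        (by
          have h1 : ρ.natTrailingDegree * p < (q2 + n + 1) * p := by nlinarith
          have := Nat.lt_of_mul_lt_mul_right h1
          omega)
      refine ⟨ψ₁ + ψ', ?_, p3, q3, bR, I, ?_⟩
      · intro j hj
        rcases Finset.mem_union.1 (Polynomial.support_add hj) with h | h
        · exact hsupp j h
        · have h1 := hψ' j h
          rw [one_mul] at h1
          have h2 : q < q2 * p := by simpa using hslope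
          calc q < q2 * p := h2
            _ ≤ j * p := Nat.mul_le_mul_right p h1.le
            _ = p * j := mul_comm _ _
      · rw [← shift_zero_comp, ← shift_zero_comp]
        refine ⟨?_, hgood.edge, hgood.hB, ?_, hgood.inG, hgood.bR_eq, hgood.ordG, hgood.ordR,
          hgood.mult, hgood.multR, hgood.sp⟩
        · have h1 := hgood.hlt
          rw [mul_one] at h1
          have h2 : q < q2 * p := by simpa using hslope
          have hp3 := hgood.edge.hp
          calc q * p3 < q2 * p * p3 := Nat.mul_lt_mul_of_pos_right h2 hp3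
            _ = q2 * p3 * p := by ring
            _ ≤ q3 * p := Nat.mul_le_mul_right p h1.le
        · exact hgood.lead
    · push Not at hbad
      refine ⟨0, by simp, p2, q2, ?_⟩
      rw [shift_zero, shift_zero]
      have hle : ∀ lam : ℂ, (inF p2 q2 R).rootMultiplicity lam ≤ BR := by
        intro lam
        rw [← hRdeg, ← Polynomial.count_roots]
        exact (Multiset.count_le_card _ _).trans (Polynomial.card_roots' _)
      have hmultR : (inF p2 q2 R).natTrailingDegree < BR := by
        refine lt_of_le_of_lt (Polynomial.natTrailingDegree_le_of_ne_zero ?_) hdB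
        rw [inF_coeff hp2 q2 (d := d) (by rw [hord]; exact hdW)]
        exact mem_support_iff.1 hd
      obtain ⟨lam, hl0, hlam⟩ := exists_ne_zero_root heR0 (by rw [hRdeg]; exact hmultR)
      have hdvd : inF p2 q2 R ∣ inF p2 q2 G := inF_dvd hRG
      have hGroot : ∀ x, (inF p2 q2 R).eval x = 0 → (inF p2 q2 G).eval x = 0 := by
        intro x hx
        obtain ⟨S, hS⟩ := hdvd
        rw [hS, Polynomial.eval_mul, hx, zero_mul]
      have hnon : (inF p2 q2 G).natTrailingDegree < B := by
        by_contra hc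
        push Not at hc
        obtain ⟨u, hu, _⟩ := Polynomial.exists_eq_pow_rootMultiplicity_mul_and_not_dvd
          (inF p2 q2 G) heG0 0
        rw [Polynomial.rootMultiplicity_eq_natTrailingDegree] at hu
        simp only [map_zero, add_zero, Polynomial.comp_X, sub_zero] at hu
        have hu0 : u ≠ 0 := by rintro rfl; rw [mul_zero] at hu; exact heG0 hu
        have hdeg : (inF p2 q2 G).natDegree = (inF p2 q2 G).natTrailingDegree + u.natDegree := by
          conv_lhs => rw [hu]
          rw [Polynomial.natDegree_mul (pow_ne_zero _ Polynomial.X_ne_zero) hu0]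
          simp
        have hud : u.natDegree = 0 := by omega
        obtain ⟨c, hc'⟩ := Polynomial.natDegree_eq_zero.1 hud
        have h1 := hGroot lam hlam
        rw [hu, ← hc'] at h1
        simp only [Polynomial.eval_mul, Polynomial.eval_pow, Polynomial.eval_X,
          Polynomial.eval_C] at h1
        rcases mul_eq_zero.1 h1 with h2 | h2
        · exact pow_ne_zero _ hl0 h2
        · apply hu0; rw [← hc', h2, map_zero]
      obtain ⟨I, hI1, hI2, hI3, hI4⟩ := isEdge_of hp hG hslope hp2 hq2 hcop hordG hnon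
      refine ⟨(inF p2 q2 G).natTrailingDegree, I, hslope, hI1, hI2, hI4, hI3, rfl, hordG, hord,
        fun lam hl => lt_of_le_of_ne (hle lam) (hbad lam hl), hmultR, ?_⟩
      have hI0 : I ≠ 0 := by
        intro h0
        have := hI1.deg
        rw [h0] at this; simp at this
      have hcard1 : 1 ≤ I.roots.toFinset.card := by
        obtain ⟨z, hz⟩ := Complex.exists_root (f := I)
          (Polynomial.natDegree_pos_iff_degree_pos.1 hI1.deg)
        rw [Nat.one_le_iff_ne_zero, Finset.card_ne_zero]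
        exact ⟨z, by rw [Multiset.mem_toFinset, Polynomial.mem_roots hI0]; exact hz⟩
      by_cases hc : 2 ≤ p2 ∨ 1 ≤ (inF p2 q2 G).natTrailingDegree
      · rw [if_pos hc]; omega
      · rw [if_neg hc, add_zero]
        push Not at hc
        by_contra hlt
        push Not at hlt
        have hcard : I.roots.toFinset.card = 1 := by omega
        obtain ⟨z, hz⟩ := Finset.card_eq_one.1 hcard
        have hp21 : p2 = 1 := by omega
        have hb0 : (inF p2 q2 G).natTrailingDegree = 0 := by omega
        have heI : inF p2 q2 G = I := by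
          conv_lhs => rw [hI3]
          rw [hb0, hp21]; simp
        have hroots : ∀ x ∈ (inF p2 q2 R).roots, z = x := by
          intro x hx
          rw [Polynomial.mem_roots heR0] at hx
          have h1 := hGroot x hx
          rw [heI] at h1
          have h2 : x ∈ I.roots.toFinset := by
            rw [Multiset.mem_toFinset, Polynomial.mem_roots hI0]; exact h1
          rw [hz, Finset.mem_singleton] at h2
          exact h2.symm
        have hz0 : z ≠ 0 := by
          rintro rfl
          have h2 : (0 : ℂ) ∈ I.roots.toFinset := by rw [hz]; simp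
          rw [Multiset.mem_toFinset, Polynomial.mem_roots hI0, Polynomial.IsRoot,
            ← Polynomial.coeff_zero_eq_eval_zero] at h2
          exact hI1.coeff_zero h2
        have := rootMult_eq_of_subset z hroots
        rw [hRdeg] at this
        exact hbad z hz0 this

end Pool.Agent.Mono.PC.TT
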