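import Pool.Agent.Work.Monodromy6.TF

/-! Phase 6, part T: regions. -/

set_option autoImplicit false
set_option linter.unusedSimpArgs false
set_option linter.unusedVariables false

namespace Pool.Agent.Mono.PC.TT

open MvPolynomial

/-! ## Multiplicities after `Z ↦ Z^p` -/

lemma rootMult_expand {I : Polynomial ℂ} (hI : I ≠ 0) {p : ℕ} (hp : 1 ≤ p) {lam : ℂ}
    (hl : lam ≠ 0) : (Polynomial.expand ℂ p I).rootMultiplicity lam ≤ I.natDegree := by
  obtain ⟨J, hJ, hnd⟩ := Polynomial.exists_eq_pow_rootMultiplicity_mul_and_not_dvd I hI (lam ^ p)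
  set μ := I.rootMultiplicity (lam ^ p) with hμ
  obtain ⟨K, hK⟩ : (Polynomial.X - Polynomial.C lam) ∣
      (Polynomial.X ^ p - Polynomial.C (lam ^ p) : Polynomial ℂ) := by
    rw [Polynomial.dvd_iff_isRoot]; simp
  have hK1 : K.eval lam ≠ 0 := by
    have h1 := congrArg (fun P => (Polynomial.derivative P).eval lam) hK
    simp only [Polynomial.derivative_sub, Polynomial.derivative_X_pow, Polynomial.derivative_C,
      sub_zero, Polynomial.derivative_mul, Polynomial.derivative_X, one_mul,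
      Polynomial.eval_add, Polynomial.eval_mul, Polynomial.eval_sub, Polynomial.eval_X,
      Polynomial.eval_C, sub_self, zero_mul, add_zero, Polynomial.eval_pow] at h1
    rw [← h1]
    refine mul_ne_zero ?_ (pow_ne_zero _ hl)
    simp; omega
  have hJ1 : (Polynomial.expand ℂ p J).eval lam ≠ 0 := by
    rw [Polynomial.expand_eval]
    intro h0
    exact hnd (Polynomial.dvd_iff_isRoot.2 h0)
  have h2 : Polynomial.expand ℂ p I =
      (Polynomial.X - Polynomial.C lam) ^ μ * (K ^ μ * Polynomial.expand ℂ p J) := by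
    conv_lhs => rw [hJ]
    rw [map_mul, map_pow, map_sub, Polynomial.expand_X, Polynomial.expand_C, hK, mul_pow]
    ring
  have h3 : (K ^ μ * Polynomial.expand ℂ p J).eval lam ≠ 0 := by
    rw [Polynomial.eval_mul, Polynomial.eval_pow]
    exact mul_ne_zero (pow_ne_zero _ hK1) hJ1
  have h4 : K ^ μ * Polynomial.expand ℂ p J ≠ 0 := by
    intro h0; rw [h0] at h3; simp at h3
  have h5 : (Polynomial.expand ℂ p I).rootMultiplicity lam = μ := by
    rw [h2, Polynomial.rootMultiplicity_mul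
      (mul_ne_zero (pow_ne_zero _ (Polynomial.X_sub_C_ne_zero lam)) h4),
      Polynomial.rootMultiplicity_X_sub_C_pow, Polynomial.rootMultiplicity_eq_zero h3, add_zero]
  rw [h5, hμ, ← Polynomial.count_roots]
  exact (Multiset.count_le_card _ _).trans (Polynomial.card_roots' _)

/-! ## Products -/

lemma vtx_prod {ι : Type*} [DecidableEq ι] (s : Finset ι) (X : ι → P2) (A B : ι → ℕ) {p q : ℕ}
    (hp : 1 ≤ p) (h : ∀ i ∈ s, Vtx (X i) p q (A i) (B i)) :
    Vtx (∏ i ∈ s, X i) p q (∑ i ∈ s, A i) (∑ i ∈ s, B i) := by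
  induction s using Finset.induction_on with
  | empty =>
    have := vtx_C p q (c := 1) one_ne_zero
    simpa using this
  | insert a s ha ih =>
    rw [Finset.prod_insert ha, Finset.sum_insert ha, Finset.sum_insert ha]
    exact (h a (Finset.mem_insert_self a s)).mul hp
      (ih fun i hi => h i (Finset.mem_insert_of_mem hi))

/-! ## The setting -/

/-- `∏ g_j^j` -/
noncomputable def FF (n : ℕ) (g : ℕ → P2) : P2 := ∏ j ∈ Finset.Icc 1 n, g j ^ j
/-- `∏ g_j` -/
noncomputable def RR (n : ℕ) (g : ℕ → P2) : P2 := ∏ j ∈ Finset.Icc 1 n, g j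

structure Ctx (Λ : Set ℚ) (n : ℕ) (g : ℕ → P2) : Prop where
  sq : Squarefree (RR n g)
  exp : ∀ r : ℚ, PCExp (FF n g) r → 0 < r → r ∈ Λ
  mul : ∀ j ∈ Finset.Icc 1 n, 2 ≤ j → ¬ IsUnit (g j) → 1 / (j : ℚ) ∈ Λ
  cert : ∃ (a b : P2) (ρ : Polynomial ℂ), ρ ≠ 0 ∧
    a * RR n g + b * pderiv 1 (RR n g) = Polynomial.aeval (X 0 : P2) ρ

lemma RR_dvd_FF (n : ℕ) (g : ℕ → P2) : RR n g ∣ FF n g := by
  unfold RR FF
  refine Finset.prod_dvd_prod_of_dvd _ _ fun j hj => ?_
  exact dvd_pow_self _ (by have := (Finset.mem_Icc.1 hj).1; omega)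

lemma FF_dvd_pow (n : ℕ) (g : ℕ → P2) : FF n g ∣ RR n g ^ n := by
  unfold RR FF
  rw [← Finset.prod_pow]
  refine Finset.prod_dvd_prod_of_dvd _ _ fun j hj => ?_
  exact pow_dvd_pow _ (Finset.mem_Icc.1 hj).2

variable {Λ : Set ℚ} {n : ℕ} {g : ℕ → P2}

lemma Ctx.RR_ne (h : Ctx Λ n g) : RR n g ≠ 0 := h.sq.ne_zero

lemma Ctx.g_ne (h : Ctx Λ n g) {j : ℕ} (hj : j ∈ Finset.Icc 1 n) : g j ≠ 0 := by
  intro h0
  apply h.RR_ne
  exact Finset.prod_eq_zero hj h0

lemma Ctx.FF_ne (h : Ctx Λ n g) : FF n g ≠ 0 := by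
  unfold FF
  exact Finset.prod_ne_zero_iff.2 fun j hj => pow_ne_zero _ (h.g_ne hj)

lemma goodExp_pcExp {F : P2} {r : ℚ} (h : GoodExp F r) : PCExp F r :=
  ⟨AlgEquiv.refl, by simpa using h⟩

/-! ## The last region -/

/-- height one -/
lemma reg_one (hC : Ctx Λ n g) {M H e : ℕ} {Φ : Polynomial ℂ} (hc : Chart M H e Φ)
    {p q A B AR : ℕ} (hp : 1 ≤ p) (hF : Vtx (chartMap M H Φ (FF n g)) p q A B)
    (hR : Vtx (chartMap M H Φ (RR n g)) p q AR 1) (hN : 1 ≤ p * A + q * B) (hB1 : 1 ≤ B) :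
    RB Λ (chartMap M H Φ (FF n g)) (M + H) p q
      (some ((chartMap M H Φ (FF n g)).coeff (mon A B), A, B, 0, 1)) ∧
      (2 ≤ B → 1 / (B : ℚ) ∈ Λ) := by
  classical
  have hex : ∀ j : ℕ, ∃ z : ℕ × ℕ, j ∈ Finset.Icc 1 n →
      Vtx (chartMap M H Φ (g j)) p q z.1 z.2 := by
    intro j
    by_cases hj : j ∈ Finset.Icc 1 n
    · obtain ⟨A', B', h⟩ := exists_vtx hp q (Chart.map_ne_zero hc (hC.g_ne hj))
      exact ⟨(A', B'), fun _ => h⟩
    · exact ⟨(0, 0), fun h => absurd h hj⟩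
  choose z hz using hex
  have hRp : chartMap M H Φ (RR n g) = ∏ j ∈ Finset.Icc 1 n, chartMap M H Φ (g j) := by
    unfold RR; rw [map_prod]
  have hFp : chartMap M H Φ (FF n g) = ∏ j ∈ Finset.Icc 1 n, chartMap M H Φ (g j) ^ j := by
    unfold FF; rw [map_prod]; simp only [map_pow]
  have hR' := vtx_prod (Finset.Icc 1 n) (fun j => chartMap M H Φ (g j)) (fun j => (z j).1)
    (fun j => (z j).2) hp (fun j hj => hz j hj)
  rw [← hRp] at hR'
  obtain ⟨_, hsum⟩ := hR.unique hp hR'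
  -- the factor of height one
  obtain ⟨j0, hj0, hj0z⟩ : ∃ j0 ∈ Finset.Icc 1 n, (z j0).2 ≠ 0 := by
    by_contra hall
    push Not at hall
    rw [Finset.sum_eq_zero hall] at hsum
    omega
  have hsum2 := Finset.add_sum_erase (Finset.Icc 1 n) (fun j => (z j).2) hj0
  have hj01 : (z j0).2 = 1 := by omega
  have hrest : ∀ j ∈ (Finset.Icc 1 n).erase j0, (z j).2 = 0 := by
    have : ∑ j ∈ (Finset.Icc 1 n).erase j0, (z j).2 = 0 := by omega
    exact Finset.sum_eq_zero_iff.1 this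
  set gg := chartMap M H Φ (g j0) with hgg
  set hh := ∏ j ∈ (Finset.Icc 1 n).erase j0, chartMap M H Φ (g j) ^ j with hhh
  have hFgh : chartMap M H Φ (FF n g) = gg ^ j0 * hh := by
    rw [hFp, hgg, hhh, Finset.mul_prod_erase (Finset.Icc 1 n)
      (fun j => chartMap M H Φ (g j) ^ j) hj0]
  have hVg : Vtx gg p q (z j0).1 1 := by rw [← hj01]; exact hz j0 hj0
  have hVh : Vtx hh p q (∑ j ∈ (Finset.Icc 1 n).erase j0, j * (z j).1) 0 := by
    have := vtx_prod ((Finset.Icc 1 n).erase j0) (fun j => chartMap M H Φ (g j) ^ j)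
      (fun j => j * (z j).1) (fun j => j * (z j).2) hp
      (fun j hj => (hz j (Finset.mem_of_mem_erase hj)).pow hp j)
    rwa [Finset.sum_eq_zero (s := (Finset.Icc 1 n).erase j0) (f := fun j => j * (z j).2)
      (fun j hj => by rw [hrest j hj, mul_zero])] at this
  set A2 := ∑ j ∈ (Finset.Icc 1 n).erase j0, j * (z j).1 with hA2
  have hj0p := (Finset.mem_Icc.1 hj0).1
  have hVF := (hVg.pow hp j0).mul hp hVh
  rw [← hFgh] at hVF
  obtain ⟨eA, eB⟩ := hF.unique hp hVF
  rw [mul_one, add_zero] at eB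
  subst eB
  have hcoef : (chartMap M H Φ (FF n g)).coeff (mon A B) =
      gg.coeff (mon (z B).1 1) ^ B * hh.coeff (mon A2 0) := by
    have c1 : ∀ {X : P2} {a b : ℕ}, Vtx X p q a b →
        X.coeff (mon a b) = (inF p q X).trailingCoeff := by
      intro X a b hX
      have := inF_coeff hp q (F := X) (d := mon a b) (by rw [hX.ord hp]; simp [W])
      rw [mon_one] at this
      rw [← this, Polynomial.trailingCoeff, hX.natTrailingDegree hp]
    rw [c1 hF, c1 hVg, c1 hVh, hFgh, inF_mul, Polynomial.trailingCoeff_mul]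
    congr 1
    have : ∀ m : ℕ, (inF p q (gg ^ m)).trailingCoeff = (inF p q gg).trailingCoeff ^ m := by
      intro m
      induction m with
      | zero =>
        have : inF p q (1 : P2) = 1 := by
          have := inF_C p q 1
          simpa using this
        rw [pow_zero, pow_zero, this]
        simp [Polynomial.trailingCoeff]
      | succ m ih => rw [pow_succ, inF_mul, Polynomial.trailingCoeff_mul, ih, pow_succ]
    exact this B
  constructor
  · have h1 := RB.fin1 (Λ := Λ) gg hh (M + H) p q (z B).1 A2 B hp hB1 hVg.ne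
      (by intro d hd; have := hVg.le d hd; rw [mul_one] at this; exact this)
      (by intro d hd h0; have := hVg.lt d hd (by omega); rw [h0, mul_one] at this; simpa using this)
      hVh.ne (by intro d hd; have := hVh.le d hd; simpa using this)
      (by rw [← eA]; exact hN)
    rw [hcoef, eA, hFgh]
    exact h1
  · intro hB2
    apply hC.mul B hj0 hB2
    intro hu
    obtain ⟨c, hc0, hcC⟩ : ∃ c : ℂ, c ≠ 0 ∧ g B = C c := by
      obtain ⟨c, hcu, hcg⟩ := MvPolynomial.isUnit_iff_eq_C_of_isReduced.1 hu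
      exact ⟨c, hcu.ne_zero, hcg⟩
    have h1 : gg = C c := by rw [hgg, hcC, chartMap, aeval_C]; rfl
    have h2 := vtx_C p q hc0
    rw [← h1] at h2
    have := (hVg.unique hp h2).2
    omega

end Pool.Agent.Mono.PC.TT
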