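import Pool.Agent.Work.Monodromy6.TG

/-! Phase 6, part T: the region theorem. -/

set_option autoImplicit false
set_option linter.unusedSimpArgs false
set_option linter.unusedVariables false

namespace Pool.Agent.Mono.PC.TT

open MvPolynomial

variable {Λ : Set ℚ} {n : ℕ} {g : ℕ → P2}

/-- result for a region -/
def SomeOK (Λ : Set ℚ) (G : P2) (ν p q A B : ℕ) : Prop :=
  ∃ p' q' : ℕ, RB Λ G ν p q (some (G.coeff (mon A B), A, B, p', q')) ∧ 1 ≤ p' * A + q' * B ∧
    ((rate ν A B p' q' ∈ Λ ∧ rate ν A B p' q' < 1) ∨ (p' = 0 ∧ q' = 1 ∧ B = 1))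

lemma rate_pos {ν A B p q : ℕ} (h1 : 1 ≤ p * ν + q) (h2 : 1 ≤ p * A + q * B) :
    0 < rate ν A B p q := by
  unfold rate
  have h3 : (0 : ℚ) < ((p * ν + q : ℕ) : ℚ) := by exact_mod_cast h1
  have h4 : (0 : ℚ) < ((p * A + q * B : ℕ) : ℚ) := by exact_mod_cast h2
  exact div_pos h3 h4

lemma rate_lt_one {ν A B p q : ℕ} (h : p * ν + q < p * A + q * B) : rate ν A B p q < 1 := by
  unfold rate
  have h4 : (0 : ℚ) < ((p * A + q * B : ℕ) : ℚ) := by
    have : 0 < p * A + q * B := by omega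
    exact_mod_cast this
  rw [div_lt_one h4]
  exact_mod_cast h

/-- closing a region -/
lemma none_of_some {G : P2} {ν p q A B : ℕ} (hB : 1 ≤ B) (hN : 1 ≤ p * A + q * B)
    (hr : rate ν A B p q ∈ Λ) (hr1 : rate ν A B p q < 1) (h : SomeOK Λ G ν p q A B) :
    RB Λ G ν p q none := by
  obtain ⟨p', q', h1, h2, h3⟩ := h
  refine RB.close G ν p q _ A B p' q' h1 ⟨hN, h2, ?_⟩
  rcases h3 with h3 | ⟨h3, h4, h5⟩
  · exact Or.inl ⟨hr, h3.1⟩
  · exact Or.inr (Or.inl ⟨h3, h4, h5, hr, hr1.ne⟩)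

lemma vtx_le_of_dvd {R G : P2} {p q A B AR BR : ℕ} (hp : 1 ≤ p) (hG : Vtx G p q A B)
    (hR : Vtx R p q AR BR) (h : R ∣ G) : AR ≤ A ∧ BR ≤ B := by
  obtain ⟨S, hS⟩ := h
  have hS0 : S ≠ 0 := by rintro rfl; rw [mul_zero] at hS; exact hG.ne_zero hS
  obtain ⟨A', B', hVS⟩ := exists_vtx hp q hS0
  have h1 := hR.mul hp hVS
  rw [← hS] at h1
  obtain ⟨e1, e2⟩ := hG.unique hp h1
  omega

lemma vtx_pos_of_dvd_pow {R G : P2} {p q A B AR BR : ℕ} (hp : 1 ≤ p) (hG : Vtx G p q A B)
    (hR : Vtx R p q AR BR) (h : ∃ N, G ∣ R ^ N) (hB : 1 ≤ B) : 1 ≤ BR := by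
  obtain ⟨N, hN⟩ := h
  have := (vtx_le_of_dvd hp (hR.pow hp N) hG hN).2
  rcases Nat.eq_zero_or_pos BR with h0 | h0
  · rw [h0] at this; omega
  · exact h0

/-- a good edge gives everything, from the result for the children and the next region -/
lemma edge_core (hC : Ctx Λ n g) {M H e : ℕ} {Φ : Polynomial ℂ} (hc : Chart M H e Φ)
    {p q A B AR BR p2 q2 bR : ℕ} {I : Polynomial ℂ} (hp : 1 ≤ p)
    (hF : Vtx (chartMap M H Φ (FF n g)) p q A B) (hR : Vtx (chartMap M H Φ (RR n g)) p q AR BR)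
    (heA : e * B ≤ A) (hq2' : 1 ≤ e ∨ p2 ≤ q2)
    (hgood : GoodNext (chartMap M H Φ (FF n g)) (chartMap M H Φ (RR n g)) p q A B AR BR p2 q2 bR I)
    (hlt1 : p2 * (M + H) + q2 < p2 * A + q2 * B) (hspec : 3 ≤ special p2 q2 A bR I)
    (ihN : ∀ {M H e : ℕ} {Φ : Polynomial ℂ}, Chart M H e Φ → ∀ {p q A B AR BR' : ℕ}, 1 ≤ p →
      Vtx (chartMap M H Φ (FF n g)) p q A B → Vtx (chartMap M H Φ (RR n g)) p q AR BR' →
      BR' < BR → e * B ≤ A → (1 ≤ e ∨ p ≤ q) → 1 ≤ p * A + q * B →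
      rate (M + H) A B p q ∈ Λ → rate (M + H) A B p q < 1 →
      RB Λ (chartMap M H Φ (FF n g)) (M + H) p q none) :
    rate (M + H) A B p2 q2 ∈ Λ ∧ rate (M + H) A B p2 q2 < 1 ∧
    (∀ lam : ℂ, lam ≠ 0 → I.eval (lam ^ p2) = 0 →
      RB Λ (chart p2 q2 lam (chartMap M H Φ (FF n g))) (p2 * (M + H) + q2) 1 0 none) ∧
    RB Λ (chartMap M H Φ (FF n g)) (M + H) p2 q2 none := by
  have hp2 := hgood.edge.hp
  have hq2 := hgood.edge.hq
  have hG0 := hF.ne_zero
  have hR0 := hR.ne_zero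
  -- the exponent
  have hN : edgeN p2 q2 A bR I = p2 * A + q2 * B := by rw [edgeN, hgood.hB]
  have hrΛ : rate (M + H) A B p2 q2 ∈ Λ := by
    apply hC.exp
    · apply goodExp_pcExp
      exact ⟨M, H, e, Φ, p2, q2, A, bR, I, hc, hgood.edge, by rw [hgood.hB]; exact heA,
        Or.inl hspec, by rw [hN]; rfl⟩
    · exact rate_pos (by omega) (by omega)
  have hr1 : rate (M + H) A B p2 q2 < 1 := rate_lt_one hlt1
  refine ⟨hrΛ, hr1, fun lam hl hlam => ?_, ?_⟩
  · -- children
    have hcc := Chart.child hc hp2 hq2 hgood.edge.cop hl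
    have hVF := vtx_chart hp2 q2 lam hG0
    have hVR := vtx_chart hp2 q2 lam hR0
    rw [chart_chartMap] at hVF hVR ⊢
    rw [hgood.ordG] at hVF
    have hI0 : I ≠ 0 := by
      intro h0
      have := hgood.edge.deg
      rw [h0] at this; simp at this
    have hmult : (inF p2 q2 (chartMap M H Φ (FF n g))).rootMultiplicity lam ≤ I.natDegree := by
      have hex : Polynomial.expand ℂ p2 I ≠ 0 := by rwa [Ne, Polynomial.expand_eq_zero hp2]
      rw [hgood.inG, Polynomial.rootMultiplicity_mul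
        (mul_ne_zero (pow_ne_zero _ Polynomial.X_ne_zero) hex),
        Polynomial.rootMultiplicity_eq_zero (p := Polynomial.X ^ bR) (by
          rw [Polynomial.IsRoot, Polynomial.eval_pow, Polynomial.eval_X]
          exact pow_ne_zero _ hl), zero_add]
      exact rootMult_expand hI0 hp2 hl
    have hnu : p2 * (M + H) + q2 = p2 * M + (p2 * H + q2) := by ring
    have hrate : rate (p2 * M + (p2 * H + q2)) (p2 * A + q2 * B)
        ((inF p2 q2 (chartMap M H Φ (FF n g))).rootMultiplicity lam) 1 0 =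
        rate (M + H) A B p2 q2 := by
      unfold rate
      rw [← hnu]; simp
    rw [hnu]
    refine ihN hcc le_rfl hVF hVR (hgood.mult lam hl) ?_ (Or.inl ?_) ?_ ?_ ?_
    · set μ := (inF p2 q2 (chartMap M H Φ (FF n g))).rootMultiplicity lam with hμ
      have h1 : p2 * μ ≤ B := by
        have := Nat.mul_le_mul_left p2 hmult
        have := hgood.hB
        omega
      calc p2 * (p2 * e + q2) * μ = (p2 * e + q2) * (p2 * μ) := by ring
        _ ≤ (p2 * e + q2) * B := Nat.mul_le_mul_left _ h1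
        _ = p2 * (e * B) + q2 * B := by ring
        _ ≤ p2 * A + q2 * B := Nat.add_le_add_right (Nat.mul_le_mul_left p2 heA) _
    · have : 0 < p2 * (p2 * e + q2) := Nat.mul_pos hp2 (by omega)
      exact this
    · omega
    · rw [hrate]; exact hrΛ
    · rw [hrate]; exact hr1
  · obtain ⟨A', B', hV'⟩ := exists_vtx hp2 q2 hG0
    obtain ⟨AR', BR', hVR'⟩ := exists_vtx hp2 q2 hR0
    have hB' : B' ≤ B := height_mono hp hF hV' hgood.hlt
    have hordeq : p2 * A' + q2 * B' = p2 * A + q2 * B :=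
      (hV'.ord hp2).symm.trans hgood.ordG
    have hA' : A ≤ A' := by
      have h1 : q2 * B' ≤ q2 * B := Nat.mul_le_mul_left q2 hB'
      have h2 : p2 * A ≤ p2 * A' := by omega
      exact Nat.le_of_mul_le_mul_left h2 hp2
    have hBR' : BR' < BR := by
      rw [← hVR'.natTrailingDegree hp2]; exact hgood.multR
    have hrate : rate (M + H) A' B' p2 q2 = rate (M + H) A B p2 q2 := by
      unfold rate; rw [hordeq]
    refine ihN hc hp2 hV' hVR' hBR' ?_ hq2' (by omega) (by rw [hrate]; exact hrΛ)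
      (by rw [hrate]; exact hr1)
    exact (Nat.mul_le_mul_left e hB').trans (heA.trans hA')

/-- the case of the region beyond `(p, q)` -/
lemma some_of_good (hC : Ctx Λ n g) {M H e : ℕ} {Φ : Polynomial ℂ} (hc : Chart M H e Φ)
    {p q A B AR BR p2 q2 bR : ℕ} {I : Polynomial ℂ} (hp : 1 ≤ p)
    (hF : Vtx (chartMap M H Φ (FF n g)) p q A B) (hR : Vtx (chartMap M H Φ (RR n g)) p q AR BR)
    (hBR : 2 ≤ BR) (heA : e * B ≤ A) (hepq : 1 ≤ e ∨ p ≤ q)
    (hgood : GoodNext (chartMap M H Φ (FF n g)) (chartMap M H Φ (RR n g)) p q A B AR BR p2 q2 bR I)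
    (ihN : ∀ {M H e : ℕ} {Φ : Polynomial ℂ}, Chart M H e Φ → ∀ {p q A B AR BR' : ℕ}, 1 ≤ p →
      Vtx (chartMap M H Φ (FF n g)) p q A B → Vtx (chartMap M H Φ (RR n g)) p q AR BR' →
      BR' < BR → e * B ≤ A → (1 ≤ e ∨ p ≤ q) → 1 ≤ p * A + q * B →
      rate (M + H) A B p q ∈ Λ → rate (M + H) A B p q < 1 →
      RB Λ (chartMap M H Φ (FF n g)) (M + H) p q none) :
    rate (M + H) A B p2 q2 ∈ Λ ∧ rate (M + H) A B p2 q2 < 1 ∧
    (∀ lam : ℂ, lam ≠ 0 → I.eval (lam ^ p2) = 0 →
      RB Λ (chart p2 q2 lam (chartMap M H Φ (FF n g))) (p2 * (M + H) + q2) 1 0 none) ∧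
    RB Λ (chartMap M H Φ (FF n g)) (M + H) p2 q2 none := by
  have hp2 := hgood.edge.hp
  have hq2 := hgood.edge.hq
  have hBBR := (vtx_le_of_dvd hp hF hR (map_dvd _ (RR_dvd_FF n g))).2
  have hB2 : 2 ≤ B := by omega
  have hq2' : 1 ≤ e ∨ p2 < q2 := by
    rcases hepq with h | h
    · exact Or.inl h
    · right
      have h1 := hgood.hlt
      have h2 : p * p2 < p * q2 := by nlinarith
      exact Nat.lt_of_mul_lt_mul_left h2
  have hlt1 : p2 * (M + H) + q2 < p2 * A + q2 * B := by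
    have hnu := Chart.nu_le hc
    have h1 : p2 * (M + H) ≤ p2 * (e + 1) := Nat.mul_le_mul_left p2 hnu
    have h5 : q2 * 2 ≤ q2 * B := Nat.mul_le_mul_left q2 hB2
    rcases Nat.eq_zero_or_pos e with h0 | h0
    · subst h0
      rcases hq2' with h | h
      · omega
      · rw [zero_add, mul_one] at h1; omega
    · have h2 : p2 * (e * B) ≤ p2 * A := Nat.mul_le_mul_left p2 heA
      have h3 : e * 2 ≤ e * B := Nat.mul_le_mul_left e hB2
      have h4 : p2 * (e * 2) ≤ p2 * (e * B) := Nat.mul_le_mul_left p2 h3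
      have h6 : p2 * (e + 1) + q2 < p2 * (e * 2) + q2 * 2 := by nlinarith
      omega
  have hspec : 3 ≤ special p2 q2 A bR I := by
    have h1 : 2 ≤ q2 ∨ 1 ≤ A := by
      rcases hq2' with h | h
      · right; nlinarith
      · left; omega
    unfold special
    rw [if_pos h1]
    have := hgood.sp
    omega
  exact edge_core hC hc hp hF hR heA (hq2'.imp id le_of_lt) hgood hlt1 hspec ihN

theorem region (hC : Ctx Λ n g) : ∀ (k : ℕ) {M H e : ℕ} {Φ : Polynomial ℂ}, Chart M H e Φ →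
    ∀ {p q A B AR BR : ℕ}, 1 ≤ p →
      Vtx (chartMap M H Φ (FF n g)) p q A B → Vtx (chartMap M H Φ (RR n g)) p q AR BR →
      BR < k → e * B ≤ A → (1 ≤ e ∨ p ≤ q) → 1 ≤ p * A + q * B →
      (1 ≤ B → SomeOK Λ (chartMap M H Φ (FF n g)) (M + H) p q A B) ∧
      (rate (M + H) A B p q ∈ Λ → rate (M + H) A B p q < 1 →
        RB Λ (chartMap M H Φ (FF n g)) (M + H) p q none) := by
  intro k
  induction k with
  | zero => intro M H e Φ hc p q A B AR BR hp hF hR hk; omega
  | succ k ih =>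
    intro M H e Φ hc p q A B AR BR hp hF hR hk heA hepq hN
    have hsome : 1 ≤ B → SomeOK Λ (chartMap M H Φ (FF n g)) (M + H) p q A B := by
      intro hB
      have hGR : ∃ N, chartMap M H Φ (FF n g) ∣ chartMap M H Φ (RR n g) ^ N :=
        ⟨n, by rw [← map_pow]; exact map_dvd _ (FF_dvd_pow n g)⟩
      have hBR1 := vtx_pos_of_dvd_pow hp hF hR hGR hB
      rcases Nat.lt_or_ge BR 2 with h2 | h2
      · have hBR : BR = 1 := by omega
        subst hBR
        obtain ⟨h3, h4⟩ := reg_one hC hc hp hF hR hN hB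
        refine ⟨0, 1, h3, by omega, ?_⟩
        rcases Nat.lt_or_ge B 2 with h5 | h5
        · exact Or.inr ⟨rfl, rfl, by omega⟩
        · left
          have hr : rate (M + H) A B 0 1 = 1 / (B : ℚ) := by
            unfold rate; simp
          rw [hr]
          refine ⟨h4 h5, ?_⟩
          have : (1 : ℚ) < B := by exact_mod_cast h5
          rw [div_lt_one (by linarith)]
          exact this
      · obtain ⟨a, b, ρ₀, hρ₀, hab⟩ := hC.cert
        obtain ⟨ρ, hρ, hcert⟩ := cert_chart hρ₀ hab (Chart.M_pos hc) H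
        obtain ⟨ψ, hψ, p2, q2, bR, I, hgood⟩ := key hρ h2 ρ.natTrailingDegree
          (chartMap M H Φ (FF n g)) (chartMap M H Φ (RR n g)) p q hp hF hR
          (map_dvd _ (RR_dvd_FF n g)) hGR (hcert Φ) (by nlinarith)
        have hψ0 : ψ.coeff 0 = 0 := by
          by_contra hne
          have := hψ 0 (Polynomial.mem_support_iff.2 hne)
          omega
        have hc' := Chart.addShift hc ψ hψ0
        have hF' := hF.shift hp ψ hψ
        have hR' := hR.shift hp ψ hψ
        have hcoef := hF.coeff_shift hp ψ hψ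
        rw [shift_chartMap] at hF' hcoef
        rw [shift_chartMap] at hR'
        rw [shift_chartMap, shift_chartMap] at hgood
        obtain ⟨hr1, hr2, hch, hnx⟩ := some_of_good hC hc' hp hF' hR' h2 heA hepq hgood
          (fun {M H e Φ} hc {p q A B AR BR'} hp hF hR hlt heA hepq hN hr hr1 =>
            (ih hc hp hF hR (by omega) heA hepq hN).2 hr hr1)
        refine ⟨p2, q2, ?_, ?_, Or.inl ⟨hr1, hr2⟩⟩
        · refine RB.coord _ _ _ _ _ ψ hψ ?_
          rw [shift_chartMap]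
          have hst := RB.step (Λ := Λ) (chartMap M H (Φ + Polynomial.X ^ H * ψ) (FF n g)) (M + H)
            p q p2 q2 A bR I hp hgood.hlt hgood.edge
            (by rw [hgood.hB]; exact fun d hd => hF'.le d hd) (by rw [hgood.hB]; exact hN)
            (by rw [hgood.hB]; exact hr1) hch hnx
          rw [hgood.hB, hgood.lead, hcoef] at hst
          exact hst
        · have := hgood.edge.hq
          nlinarith
    refine ⟨hsome, fun hr hr1 => ?_⟩
    rcases Nat.eq_zero_or_pos B with h0 | h0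
    · subst h0
      rw [mul_zero, add_zero] at hN
      have hA : 1 ≤ A := by
        rcases Nat.eq_zero_or_pos A with h | h
        · rw [h] at hN; omega
        · exact h
      exact RB.fin0 _ _ p q A hp hA hF.ne (by intro d hd; have := hF.le d hd; simpa using this) hr
    · exact none_of_some h0 hN hr hr1 (hsome h0)

end Pool.Agent.Mono.PC.TT
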