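import Pool.Agent.Work.Monodromy6.TH

/-! Phase 6, part T: automorphisms, in-forms in the direction (1, 1). -/

set_option autoImplicit false
set_option linter.unusedSimpArgs false
set_option linter.unusedVariables false

namespace Pool.Agent.Mono.PC.TT

open MvPolynomial

/-! ## Automorphisms -/

noncomputable def shiftE (ψ : Polynomial ℂ) : P2 ≃ₐ[ℂ] P2 :=
  AlgEquiv.ofAlgHom (shift ψ) (shift (-ψ))
    (by
      apply AlgHom.ext
      intro F
      simp only [AlgHom.comp_apply, AlgHom.id_apply]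
      rw [shift_zero_comp, neg_add_cancel, shift_zero])
    (by
      apply AlgHom.ext
      intro F
      simp only [AlgHom.comp_apply, AlgHom.id_apply]
      rw [shift_zero_comp, add_neg_cancel, shift_zero])

lemma shiftE_apply (ψ : Polynomial ℂ) (F : P2) : shiftE ψ F = shift ψ F := rfl

lemma swp_eq_rename : swp = (rename (Equiv.swap (0 : Fin 2) 1) : P2 →ₐ[ℂ] P2) := by
  apply MvPolynomial.algHom_ext
  intro i
  fin_cases i <;> simp [swp]

lemma swp_swp (F : P2) : swp (swp F) = F := by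
  have : swp.comp swp = AlgHom.id ℂ P2 := by
    apply MvPolynomial.algHom_ext
    intro i
    fin_cases i <;> simp [swp]
  exact AlgHom.congr_fun this F

noncomputable def swpE : P2 ≃ₐ[ℂ] P2 :=
  AlgEquiv.ofAlgHom swp swp (AlgHom.ext fun F => swp_swp F) (AlgHom.ext fun F => swp_swp F)

lemma swpE_apply (F : P2) : swpE F = swp F := rfl

lemma coeff_swp (F : P2) (a b : ℕ) : (swp F).coeff (mon a b) = F.coeff (mon b a) := by
  rw [swp_eq_rename]
  have h : mon a b = Finsupp.mapDomain (Equiv.swap (0 : Fin 2) 1) (mon b a) := by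
    simp only [mon, Finsupp.mapDomain_add, Finsupp.mapDomain_single, Equiv.swap_apply_left,
      Equiv.swap_apply_right]
    rw [add_comm]
  rw [h, coeff_rename_mapDomain _ (Equiv.injective _)]

lemma mem_support_swp {F : P2} {d : Fin 2 →₀ ℕ} :
    d ∈ (swp F).support ↔ mon (d 1) (d 0) ∈ F.support := by
  rw [mem_support_iff, mem_support_iff, ← coeff_swp, mon_eta]

lemma low_swp {p q N : ℕ} {F : P2} (h : Low p q N F) : Low q p N (swp F) := by
  intro d hd
  have := h _ (mem_support_swp.1 hd)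
  simp only [mon_zero, mon_one] at this
  omega

noncomputable def transE (x₀ : Fin 2 → ℂ) : P2 ≃ₐ[ℂ] P2 :=
  AlgEquiv.ofAlgHom (aeval fun i => X i + C (x₀ i)) (aeval fun i => X i - C (x₀ i))
    (by
      apply MvPolynomial.algHom_ext
      intro i
      simp)
    (by
      apply MvPolynomial.algHom_ext
      intro i
      simp)

/-- the setting without certificate -/
structure Pre (Λ : Set ℚ) (n : ℕ) (g : ℕ → P2) : Prop where
  sq : Squarefree (RR n g)
  exp : ∀ r : ℚ, PCExp (FF n g) r → 0 < r → r ∈ Λ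
  mul : ∀ j ∈ Finset.Icc 1 n, 2 ≤ j → ¬ IsUnit (g j) → 1 / (j : ℚ) ∈ Λ

variable {Λ : Set ℚ} {n : ℕ} {g : ℕ → P2}

lemma Pre.ctx (hC : Stmt_CERT) (h : Pre Λ n g) : Ctx Λ n g := ⟨h.sq, h.exp, h.mul, hC _ h.sq⟩

lemma FF_map (α : P2 ≃ₐ[ℂ] P2) : FF n (fun j => α (g j)) = α (FF n g) := by
  unfold FF; rw [map_prod]; simp only [map_pow]

lemma RR_map (α : P2 ≃ₐ[ℂ] P2) : RR n (fun j => α (g j)) = α (RR n g) := by
  unfold RR; rw [map_prod]

lemma Pre.map (α : P2 ≃ₐ[ℂ] P2) (h : Pre Λ n g) : Pre Λ n (fun j => α (g j)) := by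
  refine ⟨?_, ?_, ?_⟩
  · rw [RR_map]
    intro x hx
    have h1 : α.symm x * α.symm x ∣ RR n g := by
      have := map_dvd α.symm hx
      rwa [map_mul, AlgEquiv.symm_apply_apply] at this
    have h2 := (h.sq _ h1).map α
    rwa [AlgEquiv.apply_symm_apply] at h2
  · intro r hr hr0
    refine h.exp r ?_ hr0
    obtain ⟨β, hβ⟩ := hr
    refine ⟨α.trans β, ?_⟩
    rw [FF_map] at hβ
    exact hβ
  · intro j hj hj2 hu
    refine h.mul j hj hj2 fun hu' => hu (hu'.map α)

/-! ## In-forms in the direction (1, 1) -/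

lemma inF11_coeff {F : P2} {b : ℕ} (hb : b ≤ ordN 1 1 F) :
    (inF 1 1 F).coeff b = F.coeff (mon (ordN 1 1 F - b) b) := by
  have := inF_coeff le_rfl 1 (F := F) (d := mon (ordN 1 1 F - b) b)
    (by simp only [W, mon_zero, mon_one]; omega)
  rwa [mon_one] at this

lemma inF11_natDegree_le (F : P2) : (inF 1 1 F).natDegree ≤ ordN 1 1 F := by
  by_cases h0 : inF 1 1 F = 0
  · rw [h0]; simp
  · have h1 : (inF 1 1 F).coeff (inF 1 1 F).natDegree ≠ 0 := by
      rw [Polynomial.coeff_natDegree]; exact Polynomial.leadingCoeff_ne_zero.2 h0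
    obtain ⟨d, _, hW, hd⟩ := exists_of_inF_coeff_ne h1
    unfold W at hW
    omega

lemma swp_ne_zero {F : P2} (hF : F ≠ 0) : swp F ≠ 0 := by
  intro h
  apply hF
  rw [← swp_swp F, h, map_zero]

lemma ordN11_swp {F : P2} (hF : F ≠ 0) : ordN 1 1 (swp F) = ordN 1 1 F := by
  obtain ⟨A, B, hV⟩ := exists_vtx le_rfl 1 hF
  refine ordN_of_low le_rfl (low_swp (low_ordN le_rfl 1 F)) (d := mon B A) ?_ ?_
  · rw [mem_support_iff, coeff_swp]; exact hV.ne
  · rw [hV.ord le_rfl]; simp [add_comm]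

lemma inF11_swp {F : P2} (hF : F ≠ 0) : inF 1 1 (swp F) = (inF 1 1 F).reflect (ordN 1 1 F) := by
  ext b
  rw [Polynomial.coeff_reflect]
  by_cases hb : b ≤ ordN 1 1 F
  · rw [inF11_coeff (by rw [ordN11_swp hF]; exact hb), ordN11_swp hF, coeff_swp,
      Polynomial.revAt_le hb, inF11_coeff (Nat.sub_le _ _)]
    congr 2
    omega
  · push Not at hb
    rw [Polynomial.revAt_eq_self_of_lt hb]
    rw [Polynomial.coeff_eq_zero_of_natDegree_lt, Polynomial.coeff_eq_zero_of_natDegree_lt]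
    · exact lt_of_le_of_lt (inF11_natDegree_le F) hb
    · have := inF11_natDegree_le (swp F)
      rw [ordN11_swp hF] at this
      omega

lemma eval_reflect {e : Polynomial ℂ} {N : ℕ} (he : e.natDegree ≤ N) {x : ℂ} (hx : x ≠ 0) :
    (e.reflect N).eval x = 0 ↔ e.eval x⁻¹ = 0 := by
  have : Invertible (x⁻¹) := invertibleOfNonzero (inv_ne_zero hx)
  have := Polynomial.eval₂_reflect_eq_zero_iff (RingHom.id ℂ) (x⁻¹) N e he
  rw [invOf_eq_inv, inv_inv] at this
  exact this

/-- the shift `w ↦ w + λ s` -/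
noncomputable def lin (lam : ℂ) : Polynomial ℂ := Polynomial.C lam * Polynomial.X ^ 1

lemma lin_coeff_zero (lam : ℂ) : (lin lam).coeff 0 = 0 := by simp [lin]

lemma ordN11_lin (lam : ℂ) {F : P2} (hF : F ≠ 0) :
    ordN 1 1 (shift (lin lam) F) = ordN 1 1 F := by
  have h2 : tw 1 1 F ≠ 0 := fun h0 => hF (tw_injective le_rfl 1 (by rw [h0, map_zero]))
  unfold ordN lin
  rw [tw_shift_mono, (map_tr_trail lam h2).1]

lemma inF11_lin (lam : ℂ) {F : P2} (hF : F ≠ 0) :
    inF 1 1 (shift (lin lam) F) = (inF 1 1 F).comp (Polynomial.X + Polynomial.C lam) := by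
  have h2 : tw 1 1 F ≠ 0 := fun h0 => hF (tw_injective le_rfl 1 (by rw [h0, map_zero]))
  unfold inF lin
  rw [tw_shift_mono, (map_tr_trail lam h2).2, tr_apply]

/-- all roots equal -/
lemma mono_of_root {e : Polynomial ℂ} (he : e ≠ 0) (δ : ℂ) (h : ∀ x, e.eval x = 0 → x = δ) :
    ∃ c : ℂ, c ≠ 0 ∧ e.comp (Polynomial.X + Polynomial.C δ) =
      Polynomial.C c * Polynomial.X ^ e.natDegree := by
  have hm : e.rootMultiplicity δ = e.natDegree := by
    apply rootMult_eq_of_subset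
    intro x hx
    rw [Polynomial.mem_roots he] at hx
    exact (h x hx).symm
  obtain ⟨u, hu, hnd⟩ := Polynomial.exists_eq_pow_rootMultiplicity_mul_and_not_dvd e he δ
  rw [hm] at hu
  have hu0 : u ≠ 0 := by rintro rfl; exact hnd (dvd_zero _)
  have hdeg : e.natDegree = e.natDegree + u.natDegree := by
    conv_lhs => rw [hu]
    rw [Polynomial.natDegree_mul (pow_ne_zero _ (Polynomial.X_sub_C_ne_zero δ)) hu0]
    simp
  obtain ⟨c, hc⟩ := Polynomial.natDegree_eq_zero.1 (show u.natDegree = 0 by omega)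
  refine ⟨c, ?_, ?_⟩
  · rintro rfl; exact hu0 (by rw [← hc, map_zero])
  · conv_lhs => rw [hu]
    rw [← hc]
    simp only [Polynomial.mul_comp, Polynomial.pow_comp, Polynomial.sub_comp, Polynomial.X_comp,
      Polynomial.C_comp, add_sub_cancel_right]
    ring

/-- divisors of monomials -/
lemma mono_of_dvd {e : Polynomial ℂ} {c : ℂ} (hc : c ≠ 0) {b : ℕ}
    (h : e ∣ Polynomial.C c * Polynomial.X ^ b) :
    ∃ (c' : ℂ) (i : ℕ), c' ≠ 0 ∧ e = Polynomial.C c' * Polynomial.X ^ i := by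
  have h1 : e ∣ Polynomial.X ^ b := by
    have hu : IsUnit (Polynomial.C c : Polynomial ℂ) := Polynomial.isUnit_C.2 hc.isUnit
    exact (hu.dvd_mul_left).1 h
  obtain ⟨i, _, hi⟩ := (dvd_prime_pow Polynomial.prime_X b).1 h1
  obtain ⟨u, hu⟩ := hi.symm
  obtain ⟨c', hc', hc2⟩ := Polynomial.isUnit_iff.1 u.isUnit
  refine ⟨c', i, hc'.ne_zero, ?_⟩
  rw [← hu, ← hc2]; ring

end Pool.Agent.Mono.PC.TT
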