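import Pool.Agent.Work.Monodromy6.TI

/-! Phase 6, part T: the origin, generic position. -/

set_option autoImplicit false
set_option linter.unusedSimpArgs false
set_option linter.unusedVariables false

namespace Pool.Agent.Mono.PC.TT

open MvPolynomial

variable {Λ : Set ℚ} {n : ℕ} {g : ℕ → P2}

/-- the vertex on the axis `s = 0` -/
lemma vtx_axis {F : P2} (hc : F.coeff (mon 0 (ordN 1 1 F)) ≠ 0) :
    Vtx F 1 0 0 (ordN 1 1 F) := by
  refine ⟨hc, by intro d _; omega, ?_⟩
  intro d hd hlt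
  have := ordN_le le_rfl 1 hd
  unfold W at this
  omega

lemma GRdvd (n : ℕ) (g : ℕ → P2) : ∃ N, FF n g ∣ RR n g ^ N := ⟨n, FF_dvd_pow n g⟩

/-- generic position of the product -/
structure Gen (R : P2) : Prop where
  ne : R ≠ 0
  ax0 : R.coeff (mon 0 (ordN 1 1 R)) ≠ 0
  ax1 : (inF 1 1 R).coeff 0 ≠ 0

lemma Gen.transfer {R F : P2} (h : Gen R) (hF : F ≠ 0) (hFR : ∃ N, F ∣ R ^ N) : Gen F := by
  have hVR := vtx_axis h.ax0
  obtain ⟨N, S, hS⟩ := hFR
  have hS0 : S ≠ 0 := by rintro rfl; rw [mul_zero] at hS; exact pow_ne_zero N h.ne hS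
  refine ⟨hF, ?_, ?_⟩
  · obtain ⟨A, B, hV⟩ := exists_vtx le_rfl 0 hF
    obtain ⟨A', B', hV'⟩ := exists_vtx le_rfl 0 hS0
    have h1 := hV.mul le_rfl hV'
    rw [← hS] at h1
    obtain ⟨e1, e2⟩ := h1.unique le_rfl (hVR.pow le_rfl N)
    have hA : A = 0 := by omega
    subst hA
    have hord := ord_transfer (p2 := 1) (q2 := 1) le_rfl le_rfl hV hVR ⟨N, S, hS⟩ (by omega)
    rw [show ordN 1 1 F = B by omega]
    exact hV.ne
  · have h1 : inF 1 1 F ∣ (inF 1 1 R) ^ N := by
      have h2 : inF 1 1 F ∣ inF 1 1 (R ^ N) := inF_dvd ⟨S, hS⟩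
      have h3 : ∀ m : ℕ, inF 1 1 (R ^ m) = inF 1 1 R ^ m := by
        intro m
        induction m with
        | zero =>
          have := inF_C 1 1 1
          simpa using this
        | succ m ih => rw [pow_succ, inF_mul, ih, pow_succ]
      rwa [h3] at h2
    intro h0
    obtain ⟨T, hT⟩ := h1
    have h4 := congrArg (fun P => Polynomial.coeff P 0) hT
    simp only [Polynomial.mul_coeff_zero, h0, zero_mul] at h4
    rw [Polynomial.coeff_zero_eq_eval_zero, Polynomial.eval_pow,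
      ← Polynomial.coeff_zero_eq_eval_zero] at h4
    exact pow_ne_zero N h.ax1 h4

lemma Gen.natDegree {R : P2} (h : Gen R) : (inF 1 1 R).natDegree = ordN 1 1 R := by
  apply le_antisymm (inF11_natDegree_le R)
  apply Polynomial.le_natDegree_of_ne_zero
  rw [inF11_coeff le_rfl, Nat.sub_self]
  exact h.ax0

lemma Gen.trailing {R : P2} (h : Gen R) : (inF 1 1 R).natTrailingDegree = 0 := by
  have := Polynomial.natTrailingDegree_le_of_ne_zero h.ax1
  omega

/-- the first edge in generic position -/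
lemma gen_edge {F R : P2} (hF : Gen F) (hR : Gen R) (hRF : R ∣ F)
    (hR1 : 1 ≤ ordN 1 1 R) (ht : 2 ≤ (inF 1 1 R).roots.toFinset.card) :
    ∃ I : Polynomial ℂ, GoodNext F R 1 0 0 (ordN 1 1 F) 0 (ordN 1 1 R) 1 1 0 I ∧
      (inF 1 1 R).roots.toFinset ⊆ I.roots.toFinset ∧ I.natDegree = ordN 1 1 F := by
  classical
  have hVF := vtx_axis hF.ax0
  have hVR := vtx_axis hR.ax0
  have hF1 : ordN 1 1 R ≤ ordN 1 1 F := (vtx_le_of_dvd le_rfl hVF hVR hRF).2
  obtain ⟨I, hI1, hI2, hI3, hI4⟩ := isEdge_of (p2 := 1) (q2 := 1) le_rfl hVF (by omega) le_rfl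
    le_rfl (Nat.coprime_one_left 1) (by omega) (by rw [hF.trailing]; omega)
  rw [hF.trailing] at hI1 hI2 hI3
  have hFI : inF 1 1 F = I := by
    rw [hI3]; simp
  have heR0 := inF_ne_zero le_rfl 1 hR.ne
  have heF0 := inF_ne_zero le_rfl 1 hF.ne
  have hsub : (inF 1 1 R).roots.toFinset ⊆ I.roots.toFinset := by
    intro x hx
    rw [Multiset.mem_toFinset, Polynomial.mem_roots heR0] at hx
    rw [Multiset.mem_toFinset, ← hFI, Polynomial.mem_roots heF0]
    obtain ⟨S, hS⟩ := inF_dvd (p := 1) (q := 1) hRF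
    rw [Polynomial.IsRoot, hS, Polynomial.eval_mul, hx, zero_mul]
  refine ⟨I, ⟨by omega, hI1, hI2, hI4, hI3, hF.trailing.symm, by omega, by omega, ?_, ?_, ?_⟩,
    hsub, ?_⟩
  · intro lam hl
    rw [← hR.natDegree]
    refine lt_of_le_of_ne ?_ ?_
    · rw [← Polynomial.count_roots]
      exact (Multiset.count_le_card _ _).trans (Polynomial.card_roots' _)
    · intro heq
      rw [← Polynomial.count_roots] at heq
      have h1 : Multiset.count lam (inF 1 1 R).roots = Multiset.card (inF 1 1 R).roots := by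
        apply le_antisymm (Multiset.count_le_card _ _)
        rw [heq]
        exact Polynomial.card_roots' _
      rw [Multiset.count_eq_card] at h1
      have h2 : (inF 1 1 R).roots.toFinset ⊆ {lam} := by
        intro x hx
        rw [Finset.mem_singleton]
        exact (h1 x (Multiset.mem_toFinset.1 hx)).symm
      have := Finset.card_le_card h2
      rw [Finset.card_singleton] at this
      omega
  · rw [hR.trailing]; omega
  · have := Finset.card_le_card hsub
    omega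
  · omega

/-- three tangents -/
lemma level_three (hC : Ctx Λ n g) (hF : Gen (FF n g)) (hR : Gen (RR n g))
    (ht : 3 ≤ (inF 1 1 (RR n g)).roots.toFinset.card) : Good0 Λ (FF n g) := by
  have hR3 : 3 ≤ ordN 1 1 (RR n g) := by
    have h1 := Multiset.toFinset_card_le (inF 1 1 (RR n g)).roots
    have h2 := Polynomial.card_roots' (inF 1 1 (RR n g))
    rw [hR.natDegree] at h2
    omega
  obtain ⟨I, hgood, hsub, hdeg⟩ := gen_edge hF hR (RR_dvd_FF n g) (by omega) (by omega)
  have hVF := vtx_axis hF.ax0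
  have hVR := vtx_axis hR.ax0
  have hF3 : ordN 1 1 (RR n g) ≤ ordN 1 1 (FF n g) :=
    (vtx_le_of_dvd le_rfl hVF hVR (RR_dvd_FF n g)).2
  have hid : ∀ P : P2, chartMap 1 0 0 P = P := by
    intro P; rw [chartMap_one_zero, shift_zero]
  have hc : Chart 1 0 0 0 := Chart.base 0 (by simp)
  have hcore := edge_core hC hc (p := 1) (q := 0) (A := 0) (B := ordN 1 1 (FF n g)) (AR := 0)
    (BR := ordN 1 1 (RR n g)) (p2 := 1) (q2 := 1) (bR := 0) (I := I) le_rfl
    (by rw [hid]; exact hVF) (by rw [hid]; exact hVR) (by omega) (Or.inr le_rfl)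
    (by rw [hid, hid]; exact hgood) (by omega)
    (by
      unfold special
      have := Finset.card_le_card hsub
      omega)
    (fun {M H e Φ} hc {p q A B AR BR'} hp hF hR hlt heA hepq hN hr hr1 =>
      (region hC (BR' + 1) hc hp hF hR (by omega) heA hepq hN).2 hr hr1)
  rw [hid] at hcore
  obtain ⟨h1, h2, h3, h4⟩ := hcore
  refine Good0.edge (FF n g) 1 1 0 0 I hgood.edge ?_ h3 h4 ?_
  · rw [hdeg, one_mul, zero_add]
    exact h1
  · refine RB.fin0 _ 1 1 1 (ordN 1 1 (FF n g)) le_rfl (by omega) ?_ ?_ ?_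
    · rw [coeff_swp]; exact hF.ax0
    · rw [one_mul]; exact low_swp (low_ordN le_rfl 1 _)
    · have e : rate 1 (ordN 1 1 (FF n g)) 0 1 1 = rate (1 + 0) 0 (ordN 1 1 (FF n g)) 1 1 := by
        unfold rate; simp
      rw [e]; exact h1

/-- the vertex determined by the in-form -/
lemma vtx_of_mono {F : P2} (hF : F ≠ 0) {c : ℂ} (hc : c ≠ 0) {b : ℕ}
    (h : inF 1 1 F = Polynomial.C c * Polynomial.X ^ b) : Vtx F 1 1 (ordN 1 1 F - b) b := by
  have hb : b ≤ ordN 1 1 F := by
    have := inF11_natDegree_le F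
    rwa [h, Polynomial.natDegree_C_mul_X_pow b c hc] at this
  rw [vtx_iff le_rfl hF]
  refine ⟨by omega, ?_⟩
  rw [h]
  have h1 : (Polynomial.C c * Polynomial.X ^ b).coeff b ≠ 0 := by simpa using hc
  apply le_antisymm (Polynomial.natTrailingDegree_le_of_ne_zero h1)
  apply Polynomial.le_natTrailingDegree
  · intro h0; rw [h0] at h1; simp at h1
  · intro m hm
    rw [Polynomial.coeff_C_mul_X_pow, if_neg (by omega)]

/-- one tangent -/
lemma level_one (hC : Ctx Λ n g) (h2 : 2 ≤ ordN 1 1 (RR n g)) {c : ℂ} (hc : c ≠ 0)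
    (hin : inF 1 1 (RR n g) = Polynomial.C c * Polynomial.X ^ (ordN 1 1 (RR n g))) :
    Good0 Λ (FF n g) := by
  have hVR := vtx_of_mono hC.RR_ne hc hin
  rw [Nat.sub_self] at hVR
  obtain ⟨N, S, hS⟩ := GRdvd n g
  have hS0 : S ≠ 0 := by
    rintro rfl
    rw [mul_zero] at hS
    exact pow_ne_zero N hC.RR_ne hS
  obtain ⟨A, B, hVF⟩ := exists_vtx le_rfl 1 hC.FF_ne
  obtain ⟨A', B', hVS⟩ := exists_vtx le_rfl 1 hS0
  have h1 := hVF.mul le_rfl hVS
  rw [← hS] at h1
  obtain ⟨e1, e2⟩ := h1.unique le_rfl (hVR.pow le_rfl N)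
  have hA : A = 0 := by omega
  subst hA
  have hB := (vtx_le_of_dvd le_rfl hVF hVR (RR_dvd_FF n g)).2
  obtain ⟨a, b, ρ₀, hρ₀, hab⟩ := hC.cert
  obtain ⟨ψ, hψ, p2, q2, bR, I, hgood⟩ := key hρ₀ h2 ρ₀.natTrailingDegree
    (FF n g) (RR n g) 1 1 le_rfl hVF hVR (RR_dvd_FF n g) (GRdvd n g) ⟨a, b, hab⟩ (by omega)
  have hψ0 : ψ.coeff 0 = 0 := by
    by_contra hne
    have := hψ 0 (Polynomial.mem_support_iff.2 hne)
    omega
  have hc' : Chart 1 0 0 ψ := Chart.base ψ hψ0
  have hF' := hVF.shift le_rfl ψ hψ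
  have hR' := hVR.shift le_rfl ψ hψ
  rw [← chartMap_one_zero] at hF' hR'
  rw [← chartMap_one_zero, ← chartMap_one_zero] at hgood
  obtain ⟨hr1, hr2, hch, hnx⟩ := some_of_good hC hc' le_rfl hF' hR' h2 (by omega)
    (Or.inr le_rfl) hgood
    (fun {M H e Φ} hc {p q A B AR BR'} hp hF hR hlt heA hepq hN hr hr1 =>
      (region hC (BR' + 1) hc hp hF hR (by omega) heA hepq hN).2 hr hr1)
  refine Good0.coord _ ψ hψ0 ?_
  rw [← chartMap_one_zero]
  have hp2 := hgood.edge.hp
  have hq2 := hgood.edge.hq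
  refine Good0.edge _ p2 q2 0 bR I hgood.edge ?_ ?_ ?_ ?_
  · rw [hgood.hB]; exact hr1
  · intro lam hl hlam
    have := hch lam hl hlam
    rwa [show p2 * (1 + 0) + q2 = p2 + q2 by ring] at this
  · exact hnx
  · refine RB.fin0 _ 1 q2 p2 B hq2 (by omega) ?_ ?_ ?_
    · rw [coeff_swp]; exact hF'.ne
    · have h3 := low_ordN hp2 q2 (chartMap 1 0 ψ (FF n g))
      rw [hgood.ordG, mul_zero, zero_add] at h3
      exact low_swp h3
    · have e : rate 1 B 0 q2 p2 = rate (1 + 0) 0 B p2 q2 := by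
        unfold rate
        congr 2 <;> ring
      rw [e]; exact hr1

lemma chart_base_id (P : P2) : chartMap 1 0 0 P = P := by
  rw [chartMap_one_zero, shift_zero]

/-- two tangents, normal form -/
lemma level_two (hCERT : Stmt_CERT) (hP : Pre Λ n g) {AR BR : ℕ} {c : ℂ} (hc : c ≠ 0)
    (hAR : 1 ≤ AR) (hBR : 1 ≤ BR)
    (hVR : Vtx (RR n g) 1 1 AR BR)
    (hin : inF 1 1 (RR n g) = Polynomial.C c * Polynomial.X ^ BR)
    (hnode : ordN 1 1 (FF n g) = 2 → (1 : ℚ) ∈ Λ) :
    Good0 Λ (FF n g) := by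
  have hC := hP.ctx hCERT
  obtain ⟨A, B, hVF⟩ := exists_vtx le_rfl 1 hC.FF_ne
  obtain ⟨hA, hB⟩ := vtx_le_of_dvd le_rfl hVF hVR (RR_dvd_FF n g)
  -- the in-form of `F` is a monomial
  obtain ⟨N, hN⟩ := GRdvd n g
  have h1 : inF 1 1 (FF n g) ∣ Polynomial.C (c ^ N) * Polynomial.X ^ (BR * N) := by
    have h2 : inF 1 1 (FF n g) ∣ inF 1 1 (RR n g ^ N) := inF_dvd hN
    have h3 : ∀ m : ℕ, inF 1 1 (RR n g ^ m) = inF 1 1 (RR n g) ^ m := by
      intro m
      induction m with
      | zero =>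
        have := inF_C 1 1 1
        simpa using this
      | succ m ih => rw [pow_succ, inF_mul, ih, pow_succ]
    rw [h3, hin, mul_pow, ← map_pow, ← pow_mul] at h2
    exact h2
  obtain ⟨c', i, hc', hi⟩ := mono_of_dvd (pow_ne_zero N hc) h1
  have hVF' := vtx_of_mono hC.FF_ne hc' hi
  obtain ⟨eA, eB⟩ := hVF.unique le_rfl hVF'
  subst eB
  have hordF := hVF.ord le_rfl
  have hcc : c' = (FF n g).coeff (mon A B) := by
    have h3 := inF11_coeff (F := FF n g) (b := B) (by omega)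
    rw [hi, Polynomial.coeff_C_mul_X_pow, if_pos rfl, ← eA] at h3
    exact h3
  -- the swapped family
  have hPs := hP.map swpE
  have hCs := hPs.ctx hCERT
  have eFs : FF n (fun j => swpE (g j)) = swp (FF n g) := FF_map swpE
  have eRs : RR n (fun j => swpE (g j)) = swp (RR n g) := RR_map swpE
  have swpV : ∀ {P : P2} {a b : ℕ} {c : ℂ}, P ≠ 0 → c ≠ 0 → Vtx P 1 1 a b →
      inF 1 1 P = Polynomial.C c * Polynomial.X ^ b → Vtx (swp P) 1 1 b a := by
    intro P a b c hP0 hc0 hV hI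
    have ho := hV.ord le_rfl
    refine ⟨by rw [coeff_swp]; exact hV.ne, ?_, ?_⟩
    · intro d hd
      have h4 := hV.le _ (mem_support_swp.1 hd)
      simp only [mon_zero, mon_one] at h4
      omega
    · intro d hd hlt
      have h4 := hV.le _ (mem_support_swp.1 hd)
      simp only [mon_zero, mon_one] at h4
      by_contra hcon
      have h5 := inF_coeff le_rfl 1 (F := P) (d := mon (d 1) (d 0))
        (by simp only [W, mon_zero, mon_one]; omega)
      rw [mon_one, hI, Polynomial.coeff_C_mul_X_pow, if_neg (by omega)] at h5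
      exact (mem_support_iff.1 (mem_support_swp.1 hd)) h5.symm
  have hVFs := swpV hC.FF_ne hc' hVF hi
  have hVRs := swpV hC.RR_ne hc hVR hin
  have hb : Chart 1 0 0 0 := Chart.base 0 (by simp)
  have s1 := (region hC (BR + 1) hb (p := 1) (q := 1) (A := A) (B := B) (AR := AR) (BR := BR)
    le_rfl (by rw [chart_base_id]; exact hVF) (by rw [chart_base_id]; exact hVR) (by omega)
    (by omega) (Or.inr le_rfl) (by omega)).1 (by omega)
  have s2 := (region hCs (AR + 1) hb (p := 1) (q := 1) (A := B) (B := A) (AR := BR) (BR := AR)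
    le_rfl (by rw [chart_base_id, eFs]; exact hVFs) (by rw [chart_base_id, eRs]; exact hVRs)
    (by omega) (by omega) (Or.inr le_rfl) (by omega)).1 (by omega)
  rw [chart_base_id] at s1 s2
  rw [eFs] at s2
  obtain ⟨p', q', r1, n1, o1⟩ := s1
  obtain ⟨q'', p'', r2, n2, o2⟩ := s2
  rw [coeff_swp] at r2
  rw [← hcc] at r1 r2
  have hrs : rate 1 A B p'' q'' = rate (1 + 0) B A q'' p'' := by
    unfold rate
    congr 2 <;> ring
  refine Good0.two (FF n g) A B c' p' q' p'' q'' (by omega) (by omega) ?_ r1 r2 ?_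
  · have h3 := above_of_tw (q := 1) le_rfl hi (E := C c' * X 0 ^ A * X 1 ^ B)
      (by rw [tw_C_mul_X, hordF])
    rw [hordF, one_mul, one_mul] at h3
    exact h3
  · refine ⟨by rw [add_comm]; exact n2, n1, ?_⟩
    rw [hrs]
    rcases o1 with o1 | ⟨o1, o1', o1''⟩
    · rcases o2 with o2 | ⟨o2, o2', o2''⟩
      · exact Or.inl ⟨o2.1, o1.1⟩
      · exact Or.inr (Or.inr ⟨o2', o2, o2'', rfl, o1.1, o1.2.ne⟩)
    · rcases o2 with o2 | ⟨o2, o2', o2''⟩
      · exact Or.inr (Or.inl ⟨o1, o1', o1'', o2.1, o2.2.ne⟩)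
      · left
        subst o1 o1' o1'' o2 o2' o2''
        have h3 := hnode (by omega)
        constructor
        · have : rate (1 + 0) 1 1 0 1 = 1 := by unfold rate; simp
          rw [this]; exact h3
        · have : rate 1 1 1 0 1 = 1 := by unfold rate; simp
          rw [this]; exact h3

/-- the exponent of a node -/
lemma node_exp {F R : P2} (hF : Gen F) (hR : Gen R) (hRF : R ∣ F)
    (h2 : ordN 1 1 F = 2) (hR1 : 1 ≤ ordN 1 1 R) (ht : 2 ≤ (inF 1 1 R).roots.toFinset.card) :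
    GoodExp F 1 := by
  obtain ⟨I, hgood, hsub, hdeg⟩ := gen_edge hF hR hRF hR1 ht
  have hb : Chart 1 0 0 0 := Chart.base 0 (by simp)
  have hcard : I.roots.toFinset.card = 2 := by
    have h3 := Multiset.toFinset_card_le I.roots
    have h4 := Polynomial.card_roots' I
    have h5 := Finset.card_le_card hsub
    omega
  refine ⟨1, 0, 0, 0, 1, 1, 0, 0, I, hb, ?_, by omega, Or.inr ⟨rfl, rfl, rfl, rfl, by omega, hcard⟩,
    ?_⟩
  · rw [chart_base_id]; exact hgood.edge
  · unfold edgeN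
    rw [hdeg, h2]
    norm_num

end Pool.Agent.Mono.PC.TT
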