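import Pool.Agent.Work.Monodromy6.VREP

/-!
# Tools for the blocks VRAY and VF1 (helper43)
-/

set_option autoImplicit false
set_option linter.unusedSectionVars false

namespace Pool.Agent.Mono.PC

open MvPolynomial TS RO TS.VAAux TS.VPAux TS.VSAux RO.WS5Aux RO.UA RO.VGAux

namespace VRAux

/-! ## Evaluation -/

theorem aeval_mono (x : Fin 2 → PowerSeries ℂ) (d : Fin 2 →₀ ℕ) (c : ℂ) :
    aeval x (monomial d c) = PowerSeries.C c * (x 0 ^ d 0 * x 1 ^ d 1) := by
  rw [aeval_monomial, Finsupp.prod_fintype _ _ (fun i => pow_zero _), Fin.prod_univ_two]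
  rfl

theorem ev_mono (d : Fin 2 →₀ ℕ) (c : ℂ) (k : ℕ) (a : ℂ) (w : PowerSeries ℂ) :
    ev (monomial d c) k a w = PowerSeries.C c *
      ((PowerSeries.C a * PowerSeries.X ^ k) ^ d 0 * w ^ d 1) := aeval_mono _ d c

theorem ev_sum (G : P2) (k : ℕ) (a : ℂ) (w : PowerSeries ℂ) :
    ev G k a w = ∑ d ∈ G.support, ev (monomial d (G.coeff d)) k a w := by
  conv_lhs => rw [G.as_sum]
  rw [ev, map_sum]
  rfl

theorem ev_mul (G H : P2) (k : ℕ) (a : ℂ) (w : PowerSeries ℂ) :
    ev (G * H) k a w = ev G k a w * ev H k a w := map_mul _ _ _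

theorem ev_add (G H : P2) (k : ℕ) (a : ℂ) (w : PowerSeries ℂ) :
    ev (G + H) k a w = ev G k a w + ev H k a w := map_add _ _ _

theorem ev_pow (G : P2) (n k : ℕ) (a : ℂ) (w : PowerSeries ℂ) :
    ev (G ^ n) k a w = ev G k a w ^ n := map_pow _ _ _

theorem ev_X0 (k : ℕ) (a : ℂ) (w : PowerSeries ℂ) :
    ev (X 0) k a w = PowerSeries.C a * PowerSeries.X ^ k := by
  rw [ev, aeval_X]
  rfl

theorem ev_X1 (k : ℕ) (a : ℂ) (w : PowerSeries ℂ) : ev (X 1) k a w = w := by
  rw [ev, aeval_X]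
  rfl

theorem ev_C (c : ℂ) (k : ℕ) (a : ℂ) (w : PowerSeries ℂ) : ev (C c) k a w = PowerSeries.C c := by
  rw [ev, aeval_C]
  rfl

theorem ev_chart (p q : ℕ) (lam : ℂ) (G : P2) (k : ℕ) (c : ℂ) (w : PowerSeries ℂ) :
    ev (chart p q lam G) k c w = ev G (p * k) (c ^ p)
      (PowerSeries.C (c ^ q) * PowerSeries.X ^ (q * k) * (PowerSeries.C lam + w)) := by
  rw [ev, chart, MvPolynomial.comp_aeval_apply, ev]
  congr 2
  funext i
  fin_cases i
  · simp only [Fin.zero_eta, Matrix.cons_val_zero, map_pow, aeval_X]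
    rw [mul_pow, ← pow_mul, mul_comm k p]
  · simp only [Fin.mk_one, Matrix.cons_val_one, Matrix.cons_val_zero, map_mul, map_pow, map_add,
      aeval_X, aeval_C]
    rw [mul_pow, ← pow_mul, mul_comm k q]
    rfl

/-- all monomials are above the line -/
theorem ev_above {p q N : ℕ} {F : P2} (h : Above p q N F) (k : ℕ) (hk : 1 ≤ k) (a : ℂ)
    (w : PowerSeries ℂ) :
    PowerSeries.X ^ (N * k + 1) ∣ ev F (p * k) a (PowerSeries.X ^ (q * k) * w) := by
  rw [ev_sum]
  refine Finset.dvd_sum fun d hd => ?_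
  have h1 := h d hd
  rw [ev_mono]
  have e : PowerSeries.C (F.coeff d) * ((PowerSeries.C a * PowerSeries.X ^ (p * k)) ^ d 0 *
      (PowerSeries.X ^ (q * k) * w) ^ d 1) = PowerSeries.X ^ ((p * d 0 + q * d 1) * k) *
        (PowerSeries.C (F.coeff d) * PowerSeries.C a ^ d 0 * w ^ d 1) := by
    have e2 : (p * d 0 + q * d 1) * k = p * k * d 0 + q * k * d 1 := by ring
    rw [mul_pow, mul_pow, ← pow_mul, ← pow_mul, e2, pow_add]
    ring
  rw [e]
  refine Dvd.dvd.mul_right (pow_dvd_pow _ ?_) _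
  nlinarith

theorem ev_edge (p q aL bR : ℕ) (I : Polynomial ℂ) (k : ℕ) (a : ℂ) (w : PowerSeries ℂ) :
    ev (edgePart p q aL bR I) (p * k) a (PowerSeries.X ^ (q * k) * w) =
      PowerSeries.X ^ (edgeN p q aL bR I * k) *
        aeval (![PowerSeries.C a, w] : Fin 2 → PowerSeries ℂ) (edgePart p q aL bR I) := by
  rw [ev, edgePart, map_sum, map_sum, Finset.mul_sum]
  refine Finset.sum_congr rfl fun i hi => ?_
  have hi' : i ≤ I.natDegree := by
    have := Finset.mem_range.1 hi
    omega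
  obtain ⟨j, hj⟩ := Nat.exists_eq_add_of_le hi'
  simp only [map_mul, map_pow, aeval_X, aeval_C, Matrix.cons_val_zero, Matrix.cons_val_one]
  have e1 : I.natDegree - i = j := by omega
  have e2 : edgeN p q aL bR I * k = p * k * (aL + q * j) + q * k * (bR + p * i) := by
    rw [edgeN, hj]
    ring
  rw [e1, e2, mul_pow, mul_pow, ← pow_mul, ← pow_mul, pow_add PowerSeries.X (p * k * (aL + q * j))]
  ring

/-- the constant coefficient -/
theorem cc_aeval (a : ℂ) (w : PowerSeries ℂ) (F : P2) : PowerSeries.constantCoeff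
    (aeval (![PowerSeries.C a, w] : Fin 2 → PowerSeries ℂ) F) =
      eval ![a, PowerSeries.constantCoeff w] F := by
  induction F using MvPolynomial.induction_on with
  | C c => simp
  | add f g hf hg => rw [map_add, map_add, map_add, hf, hg]
  | mul_X f i hf =>
    rw [map_mul, map_mul, map_mul, hf, aeval_X, eval_X]
    congr 1
    fin_cases i
    · simp
    · simp

theorem eval_edge (p q aL bR : ℕ) (I : Polynomial ℂ) (a b : ℂ) (ha : a ≠ 0) :
    eval ![a, b] (edgePart p q aL bR I) =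
      a ^ (aL + q * I.natDegree) * b ^ bR * I.eval (b ^ p / a ^ q) := by
  rw [edgePart, map_sum, Polynomial.eval_eq_sum_range, Finset.mul_sum]
  refine Finset.sum_congr rfl fun i hi => ?_
  have hi' : i ≤ I.natDegree := by
    have := Finset.mem_range.1 hi
    omega
  obtain ⟨j, hj⟩ := Nat.exists_eq_add_of_le hi'
  simp only [map_mul, map_pow, eval_X, eval_C, Matrix.cons_val_zero, Matrix.cons_val_one]
  have e1 : I.natDegree - i = j := by omega
  rw [e1, div_pow, ← pow_mul, ← pow_mul, hj]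
  have h0 : a ^ (q * i) ≠ 0 := pow_ne_zero _ ha
  field_simp
  ring

/-- the leading coefficient of `G` on the region -/
theorem ev_lead {p q aL bR : ℕ} {I : Polynomial ℂ} {G : P2} (he : IsEdge G p q aL bR I) (k : ℕ)
    (hk : 1 ≤ k) (a : ℂ) (w : PowerSeries ℂ) (hw : ∀ j < q * k, PowerSeries.coeff j w = 0) :
    (∀ j < edgeN p q aL bR I * k, PowerSeries.coeff j (ev G (p * k) a w) = 0) ∧
    PowerSeries.coeff (edgeN p q aL bR I * k) (ev G (p * k) a w) =
      eval ![a, PowerSeries.coeff (q * k) w] (edgePart p q aL bR I) := by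
  obtain ⟨w', rfl⟩ := PowerSeries.X_pow_dvd_iff.2 hw
  obtain ⟨H, hH⟩ := ev_above he.above k hk a w'
  have hG : ev G (p * k) a (PowerSeries.X ^ (q * k) * w') =
      PowerSeries.X ^ (edgeN p q aL bR I * k) *
        (aeval (![PowerSeries.C a, w'] : Fin 2 → PowerSeries ℂ) (edgePart p q aL bR I) +
          PowerSeries.X * H) := by
    have h1 : G = edgePart p q aL bR I + (G - edgePart p q aL bR I) := by ring
    conv_lhs => rw [h1]
    rw [ev_add, ev_edge, hH]
    ring
  have h2 : PowerSeries.coeff (q * k) (PowerSeries.X ^ (q * k) * w') =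
      PowerSeries.constantCoeff w' := by
    have := PowerSeries.coeff_X_pow_mul w' (q * k) 0
    rw [zero_add] at this
    rw [this, PowerSeries.coeff_zero_eq_constantCoeff_apply]
  rw [hG, h2]
  constructor
  · intro j hj
    rw [PowerSeries.coeff_X_pow_mul', if_neg (by omega)]
  · rw [PowerSeries.coeff_X_pow_mul', if_pos le_rfl, Nat.sub_self,
      PowerSeries.coeff_zero_eq_constantCoeff_apply, map_add, cc_aeval, map_mul]
    simp

/-! ## Cylinders -/

section

variable {E : Type} [Finite E]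

theorem cy_NS (G : P2) {Q : Set (E ⊕ Unit → ℂ)} (hQ : Constructible Q) (k L m : ℕ) :
    Cy (NS G Q k L m) := by
  obtain ⟨N0, hN0⟩ := VREPAux.Cy_DD0 G hQ L m
  exact ⟨N0, fun N hN => VREPAux.Cy_NS G k L m N (hN0 N hN)⟩

end

end VRAux

end Pool.Agent.Mono.PC
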