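import Pool.Agent.Work.Monodromy.Interface6V
import Pool.Agent.Work.Monodromy5.VGA

/-!
# Block VREP (helper61): reparametrisation to `x = a t^k`
-/

set_option autoImplicit false
set_option linter.unusedSectionVars false

namespace Pool.Agent.Mono.PC

open MvPolynomial TS RO TS.VAAux TS.VPAux TS.VSAux RO.WS5Aux RO.UA RO.VGAux

namespace VREPAux

/-! ## Invariance -/

theorem sb_lead (r : ℕ) (t : ℂ) (m : ℕ) (G : PowerSeries ℂ)
    (h : ∀ j < m, PowerSeries.coeff j G = 0) :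
    (∀ j < m, PowerSeries.coeff j (sb r t G) = 0) ∧ (1 ≤ r →
      PowerSeries.coeff m (sb r t G) = PowerSeries.coeff m G) := by
  refine ⟨PowerSeries.X_pow_dvd_iff.1 (sb_dvd r t m (PowerSeries.X_pow_dvd_iff.2 h)), ?_⟩
  intro hr
  obtain ⟨G', hG⟩ := PowerSeries.X_pow_dvd_iff.2 h
  obtain ⟨H, hH⟩ := sb_near r t G'
  have h1 : sb r t G' = G' + PowerSeries.X ^ (r + 1) * H := by
    rw [← hH]
    ring
  rw [hG, map_mul, map_pow, sb_X, phi, mul_pow, h1, mul_assoc, PowerSeries.coeff_X_pow_mul',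
    PowerSeries.coeff_X_pow_mul', if_pos le_rfl, Nat.sub_self,
    PowerSeries.coeff_zero_eq_constantCoeff_apply, PowerSeries.coeff_zero_eq_constantCoeff_apply]
  have h0 : r ≠ 0 := by omega
  simp [h0]

theorem inv_van (r : ℕ) (hr : 1 ≤ r) (t : ℂ) (m : ℕ) (G : PowerSeries ℂ)
    (h : ∀ j < m, PowerSeries.coeff j G = 0) :
    ∀ j < m, PowerSeries.coeff j (UA.inv r hr t G) = 0 := by
  intro j hj
  have h1 := inv_congr r hr t m (x := G) (y := 0) (fun l hl => by rw [h l hl, map_zero]) j hj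
  rw [h1, map_zero, map_zero]

theorem van_iff (r : ℕ) (hr : 1 ≤ r) (t : ℂ) (m : ℕ) (G : PowerSeries ℂ) :
    (∀ j < m, PowerSeries.coeff j (sb r t G) = 0) ↔ ∀ j < m, PowerSeries.coeff j G = 0 := by
  constructor
  · intro h
    have h1 := inv_van r hr t m _ h
    rw [inv_sb] at h1
    exact h1
  · intro h
    exact (sb_lead r t m G h).1

section

variable {E : Type}

theorem lead_iff (Q : Set (E ⊕ Unit → ℂ)) (m : ℕ) (p : E → ℂ) (r : ℕ) (hr : 1 ≤ r) (t : ℂ)
    (G : PowerSeries ℂ) : Lead Q m p (sb r t G) ↔ Lead Q m p G := by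
  unfold Lead
  rw [van_iff r hr t m G]
  constructor
  · rintro ⟨h1, h2⟩
    refine ⟨h1, ?_⟩
    rw [(sb_lead r t m G h1).2 hr] at h2
    exact h2
  · rintro ⟨h1, h2⟩
    refine ⟨h1, ?_⟩
    rw [(sb_lead r t m G h1).2 hr]
    exact h2

end

/-! ## One more coefficient, inside an invariant set -/

section

variable {E ι : Type} [Fintype ι] {f : MvPolynomial ι ℂ}

theorem stepC (P : HodgeMeasure) [Finite E] {X : Set ℂ}
    {Q : Set (E ⊕ Bool → ℂ)} (hQ : QOk X true Q) {i : ℕ} (hi : 1 ≤ i) (e : ℕ)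
    (A : ℕ → MvPolynomial (E ⊕ Bool) ℂ) {D : Set ((E → ℂ) × (ι → PowerSeries ℂ))} (hD : Cy D)
    (hinv : ∀ (r : ℕ), 1 ≤ r → ∀ (t : ℂ) (p : E → ℂ) (x : ι → PowerSeries ℂ),
      (p, UA.act r t x) ∈ D ↔ (p, x) ∈ D) :
    vol P.rat xq (PD f Q i (e + 1) A ∩ D) = xq * vol P.rat xq (PD f Q i e A ∩ D) := by
  classical
  have hL := L_mul P
  obtain ⟨N0, hN0⟩ := hD
  set n := max (i + 1 + e + 1) N0 with hn
  have hn1 : i + 1 + e + 1 ≤ n := le_max_left _ _
  have hcC := hN0 n (le_max_right _ _)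
  have hcD := (cyl_PD f hQ.1 i (e + 1) A n (by omega)).inter hcC
  have hcB := (cyl_PD f hQ.1 i e A n (by omega)).inter hcC
  suffices H : P.rat.L * vol P.rat xq (PD f Q i (e + 1) A ∩ D) =
      vol P.rat xq (PD f Q i e A ∩ D) by
    rw [← H, ← mul_assoc, mul_comm xq, hL, one_mul]
  rw [vol_eq P.rat hL hcD, vol_eq P.rat hL hcB, ← mul_assoc]
  congr 1
  set K : ι → ℕ := fun _ => n with hK
  set S' : Set ((E ⊕ Unit) ⊕ (Σ i, Fin (K i)) → ℂ) := {v | ((fun p => v (Sum.inl (Sum.inl p))),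
    toArc K fun s => v (Sum.inr s)) ∈ PD f Q i (e + 1) A ∩ D} with hS'
  have hcS' : Constructible S' := by
    have h1 := Constructible.comap (fun a : E ⊕ (Σ i, Fin (K i)) =>
      ren1 E (Σ i, Fin (K i)) (Sum.inl a)) hcD.2
    exact h1
  have e2 : P.rat.val S' = P.rat.L * P.rat.val (sec K (PD f Q i (e + 1) A ∩ D)) := by
    have h1 := P.rat.val_prod_univ hcD.2 Unit
    rw [Fintype.card_unit, pow_one] at h1
    rw [mul_comm, ← h1]
    have h2 : Constructible {x : (E ⊕ (Σ i, Fin (K i))) ⊕ Unit → ℂ |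
        (fun i => x (Sum.inl i)) ∈ sec K (PD f Q i (e + 1) A ∩ D)} :=
      Constructible.comap Sum.inl hcD.2
    rw [← P.rat.reindex (ren1 E (Σ i, Fin (K i))) h2]
    rfl
  rw [← e2]
  have hdc : (i : ℂ) ≠ 0 := by
    have : i ≠ 0 := by omega
    exact_mod_cast this
  have harc : ∀ v : (E ⊕ Unit) ⊕ (Σ i, Fin (K i)) → ℂ, ∀ i, ∀ l < K i,
      PowerSeries.coeff l (toArc K (fun s => eval v (φA E (e + 1) K (Sum.inr s))) i) =
        PowerSeries.coeff l (UA.act (e + 1) (v (Sum.inl (Sum.inr ())))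
          (toArc K fun s => v (Sum.inr s)) i) := by
    intro v i l hl
    rw [coeff_toArc, dif_pos hl, UA.φA_inr]
  have hmem : ∀ v : (E ⊕ Unit) ⊕ (Σ i, Fin (K i)) → ℂ,
      (fun a => eval v (UA.φA E (e + 1) K a)) ∈ sec K (PD f Q i e A ∩ D) ↔
        ((fun p => v (Sum.inl (Sum.inl p))), UA.act (e + 1)
          (v (Sum.inl (Sum.inr ()))) (toArc K fun s => v (Sum.inr s))) ∈ PD f Q i e A ∩ D := by
    intro v
    have h1 := hcB.1 (fun p => eval v (UA.φA E (e + 1) K (Sum.inl p))) _ _ (harc v)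
    have h2 : (fun p => eval v (UA.φA E (e + 1) K (Sum.inl p))) =
        fun p => v (Sum.inl (Sum.inl p)) := by
      funext p
      rw [UA.φA, eval_X]
    change (((fun p => eval v (UA.φA E (e + 1) K (Sum.inl p))),
      toArc K (fun s => eval v (UA.φA E (e + 1) K (Sum.inr s)))) ∈ PD f Q i e A ∩ D) ↔ _
    rw [h1, h2]
  refine P.rat.map S' _ (UA.φA E (e + 1) K) hcS' hcB.2 ?_
  refine ⟨?_, ?_, ?_⟩
  · intro v hv
    rw [hmem]
    obtain ⟨hv', hvD⟩ : ((fun p => v (Sum.inl (Sum.inl p))), toArc K fun s => v (Sum.inr s)) ∈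
      PD f Q i (e + 1) A ∩ D := hv
    have h1 := (PD_data hQ hv').1
    rw [PD_succ] at hv'
    exact ⟨(PD_congr hi (UA.act_coeff i e hi _ _ h1).1).2 hv'.1,
      (hinv (e + 1) (by omega) _ _ _).2 hvD⟩
  · intro v hv v' hv' hvv
    have hp : (fun p => v (Sum.inl (Sum.inl p))) = fun p => v' (Sum.inl (Sum.inl p)) := by
      funext p
      have := congrFun hvv (Sum.inl p)
      simpa only [UA.φA, eval_X] using this
    set z := toArc K fun s => v (Sum.inr s) with hz
    set z' := toArc K fun s => v' (Sum.inr s) with hz'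
    set t := v (Sum.inl (Sum.inr ())) with ht
    set t' := v' (Sum.inl (Sum.inr ())) with ht'
    have hv1 : ((fun p => v (Sum.inl (Sum.inl p))), z) ∈ PD f Q i (e + 1) A := hv.1
    have hv1' : ((fun p => v' (Sum.inl (Sum.inl p))), z') ∈ PD f Q i (e + 1) A := hv'.1
    have hact : ∀ i, ∀ l < n, PowerSeries.coeff l (UA.act (e + 1) t z i) =
        PowerSeries.coeff l (UA.act (e + 1) t' z' i) := by
      intro i l hl
      have h4 := congrFun hvv (Sum.inr ⟨i, (⟨l, hl⟩ : Fin (K i))⟩)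
      simp only [UA.φA_inr] at h4
      exact h4
    have hH : ∀ l < n, PowerSeries.coeff l (aeval (UA.act (e + 1) t z) f) =
        PowerSeries.coeff l (aeval (UA.act (e + 1) t' z') f) :=
      GJetAux.aeval_congr _ n _ _ hact
    have hz1 := (PD_data hQ hv1).1
    have hz2 := (PD_data hQ hv1').1
    obtain ⟨a1, a3⟩ := UA.act_coeff i e hi t z hz1
    obtain ⟨a1', a3'⟩ := UA.act_coeff i e hi t' z' hz2
    have hF : ∀ l < i + 1 + e, PowerSeries.coeff l (aeval z f) =
        PowerSeries.coeff l (aeval z' f) := by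
      intro l hl
      rw [← a1 l hl, ← a1' l hl]
      exact hH l (by omega)
    have hdat : dat true i (aeval z f) = dat true i (aeval z' f) := by
      funext b
      rcases b with _ | _
      · exact hF i (by omega)
      · exact hF 0 (by omega)
    have h5 := (PD_succ.1 hv1).2
    have h5' := (PD_succ.1 hv1').2
    have h7 := (PD_data hQ hv1').2
    have h6 : PowerSeries.coeff i (aeval z f) = PowerSeries.coeff i (aeval z' f) :=
      hF i (by omega)
    have htt : t = t' := by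
      have h8 := hH (i + 1 + e) (by omega)
      rw [a3, a3', h5, h5', hp, hdat, h6] at h8
      have h9 := add_left_cancel h8
      exact mul_left_cancel₀ hdc (mul_right_cancel₀ h7 h9)
    rw [htt] at hact
    have hzz := UA.actI_congr (e + 1) (by omega) t' n _ _ hact
    rw [UA.actI_act (e + 1) (by omega), UA.actI_act (e + 1) (by omega)] at hzz
    funext i
    rcases i with (p | ⟨⟩) | s
    · exact congrFun hp p
    · exact htt
    · have h8 := hzz s.1 s.2 s.2.2
      rw [hz, hz', coeff_toArc_lt, coeff_toArc_lt] at h8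
      exact h8
  · intro y hy
    have hy1 : ((fun p => y (Sum.inl p)), toArc K fun s => y (Sum.inr s)) ∈ PD f Q i e A := hy.1
    have hyD : ((fun p => y (Sum.inl p)), toArc K fun s => y (Sum.inr s)) ∈ D := hy.2
    set z := toArc K fun s => y (Sum.inr s) with hz
    obtain ⟨h2, h3⟩ := PD_data hQ hy1
    set t : ℂ := (PowerSeries.coeff (i + 1 + e) (aeval z f) -
      eval (Sum.elim (fun p => y (Sum.inl p)) (dat true i (aeval z f))) (A e)) /
      (i * PowerSeries.coeff i (aeval z f)) with ht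
    have h4 := UA.cut_actI i e t z h2
    obtain ⟨a1, a3⟩ := UA.act_coeff i e hi t (UA.actI (e + 1) (by omega) t z) h4
    rw [UA.act_actI (e + 1) (by omega) t z] at a1 a3
    have h6 : i * t * PowerSeries.coeff i (aeval z f) =
        PowerSeries.coeff (i + 1 + e) (aeval z f) -
          eval (Sum.elim (fun p => y (Sum.inl p)) (dat true i (aeval z f))) (A e) := by
      have h3' : PowerSeries.coeff i (aeval z f) ≠ 0 := h3
      rw [ht]
      field_simp
    rw [← a1 i (by omega), h6] at a3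
    have hdat : dat true i (aeval (UA.actI (e + 1) (by omega) t z) f) =
        dat true i (aeval z f) := by
      funext b
      rcases b with _ | _
      · exact (a1 i (by omega)).symm
      · exact (a1 0 (by omega)).symm
    have h5 : ((fun p => y (Sum.inl p)), UA.actI (e + 1) (by omega) t z) ∈
        PD f Q i (e + 1) A := by
      rw [PD_succ]
      refine ⟨(PD_congr hi fun l hl => (a1 l hl).symm).2 hy1, ?_⟩
      rw [hdat]
      linear_combination -a3
    have h5D : ((fun p => y (Sum.inl p)), UA.actI (e + 1) (by omega) t z) ∈ D := by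
      rw [← hinv (e + 1) (by omega) t, UA.act_actI (e + 1) (by omega) t z]
      exact hyD
    set v : (E ⊕ Unit) ⊕ (Σ i, Fin (K i)) → ℂ := Sum.elim (Sum.elim (fun p => y (Sum.inl p))
      fun _ => t) fun s => PowerSeries.coeff (s.2 : ℕ) (UA.actI (e + 1) (by omega) t z s.1)
      with hv
    have hva : ∀ i, ∀ l < K i, PowerSeries.coeff l (toArc K (fun s => v (Sum.inr s)) i) =
        PowerSeries.coeff l (UA.actI (e + 1) (by omega) t z i) := by
      intro i l hl
      rw [coeff_toArc, dif_pos hl]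
      rfl
    refine ⟨v, ?_, ?_⟩
    · have h7 := hcD.1 (fun p => y (Sum.inl p)) _ _ hva
      change ((fun p => y (Sum.inl p)), toArc K fun s => v (Sum.inr s)) ∈
        PD f Q i (e + 1) A ∩ D
      rw [h7]
      exact ⟨h5, h5D⟩
    · funext i
      rcases i with p | s
      · simp only [UA.φA, eval_X]
        rfl
      · simp only [UA.φA_inr]
        have h8 := UA.act_congr (e + 1) t n _ _ hva s.1 s.2 s.2.2
        rw [UA.act_actI (e + 1) (by omega)] at h8
        exact h8.trans (coeff_toArc_lt K (fun s => y (Sum.inr s)) s.1 s.2)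

theorem steps (P : HodgeMeasure) [Finite E] {X : Set ℂ}
    {Q : Set (E ⊕ Bool → ℂ)} (hQ : QOk X true Q) {i : ℕ} (hi : 1 ≤ i) (e : ℕ)
    (A : ℕ → MvPolynomial (E ⊕ Bool) ℂ) {D : Set ((E → ℂ) × (ι → PowerSeries ℂ))} (hD : Cy D)
    (hinv : ∀ (r : ℕ), 1 ≤ r → ∀ (t : ℂ) (p : E → ℂ) (x : ι → PowerSeries ℂ),
      (p, UA.act r t x) ∈ D ↔ (p, x) ∈ D) :
    vol P.rat xq (PD f Q i e A ∩ D) = xq ^ e * vol P.rat xq (PD f Q i 0 A ∩ D) := by
  induction e with
  | zero => rw [pow_zero, one_mul]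
  | succ e ih => rw [stepC P hQ hi e A hD hinv, ih, pow_succ', mul_assoc]

end

section

variable {E : Type}

/-- the invariant set -/
def DD0 (F : P2) (Q : Set (E ⊕ Unit → ℂ)) (L m : ℕ) :
    Set ((E → ℂ) × (Fin 2 → PowerSeries ℂ)) :=
  {z | (∀ j < L, PowerSeries.coeff j (z.2 1) = 0) ∧ Lead Q m z.1 (aeval z.2 F)}

theorem DD0_inv (F : P2) (Q : Set (E ⊕ Unit → ℂ)) (L m : ℕ) (r : ℕ) (hr : 1 ≤ r) (t : ℂ)
    (p : E → ℂ) (x : Fin 2 → PowerSeries ℂ) : (p, UA.act r t x) ∈ DD0 F Q L m ↔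
      (p, x) ∈ DD0 F Q L m := by
  change ((∀ j < L, PowerSeries.coeff j (sb r t (x 1)) = 0) ∧
    Lead Q m p (aeval (UA.act r t x) F)) ↔ ((∀ j < L, PowerSeries.coeff j (x 1) = 0) ∧
      Lead Q m p (aeval x F))
  rw [UA.f_act, van_iff r hr t, lead_iff Q m p r hr t]

theorem Cy_DD0 [Finite E] (F : P2) {Q : Set (E ⊕ Unit → ℂ)} (hQ : Constructible Q) (L m : ℕ) :
    Cy (DD0 F Q L m) := by
  refine Cy.and (Cy.all_lt L fun j _ => Cy.zero (RF.arc 1 j)) (Cy.and (Cy.all_lt m fun j _ =>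
    Cy.zero (RF.coef F j)) (Cy.mem hQ fun s => ?_))
  rcases s with s | s
  · exact RF.par s
  · exact RF.coef F m

/-- `x_j = 0` for `j < k`, `x_k ≠ 0` -/
def QX (E : Type) : Set (E ⊕ Bool → ℂ) := {z | z (Sum.inr true) = 0 ∧ z (Sum.inr false) ≠ 0}

theorem QX_ok : QOk (Set.univ : Set ℂ) true (QX E) := by
  refine ⟨?_, fun z hz => ⟨trivial, fun _ => hz.2⟩⟩
  have h1 := Constructible.zero (X (Sum.inr true) : MvPolynomial (E ⊕ Bool) ℂ)
  have h2 := Constructible.ne (X (Sum.inr false) : MvPolynomial (E ⊕ Bool) ℂ)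
  simp only [eval_X] at h1 h2
  exact Constructible.and h1 h2

/-- `((p, a), w) ↦ (p, (a t^k, w))` -/
noncomputable def tN (k : ℕ) (z : (E ⊕ Unit → ℂ) × (Unit → PowerSeries ℂ)) :
    (E → ℂ) × (Fin 2 → PowerSeries ℂ) :=
  (fun e => z.1 (Sum.inl e), ![PowerSeries.C (z.1 (Sum.inr ())) * PowerSeries.X ^ k, z.2 ()])

/-- the polynomials for `tN` -/
noncomputable def pN (E : Type) (k N : ℕ) : E ⊕ (Σ _ : Fin 2, Fin N) →
    MvPolynomial ((E ⊕ Unit) ⊕ (Σ _ : Unit, Fin N)) ℂ :=
  Sum.elim (fun e => X (Sum.inl (Sum.inl e))) fun s => if s.1 = 0 then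
    (if (s.2 : ℕ) = k then X (Sum.inl (Sum.inr ())) else 0) else X (Sum.inr ⟨(), s.2⟩)

theorem coeff_CX (a : ℂ) (k j : ℕ) : PowerSeries.coeff j
    (PowerSeries.C a * PowerSeries.X ^ k : PowerSeries ℂ) = if j = k then a else 0 := by
  rw [PowerSeries.coeff_C_mul, PowerSeries.coeff_X_pow]
  split_ifs <;> simp

theorem trd_tN (k N : ℕ) (z : (E ⊕ Unit → ℂ) × (Unit → PowerSeries ℂ)) :
    CV.trd (fun _ => N) (tN k z).1 (tN k z).2 =
      fun a => eval (CV.trd (fun _ => N) z.1 z.2) (pN E k N a) := by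
  funext a
  rcases a with e | ⟨i, j⟩
  · simp only [pN, Sum.elim_inl, eval_X]
    rfl
  · by_cases hi : i = 0
    · subst hi
      simp only [pN, Sum.elim_inr, if_true]
      change PowerSeries.coeff (j : ℕ) (PowerSeries.C (z.1 (Sum.inr ())) * PowerSeries.X ^ k) = _
      rw [coeff_CX]
      split_ifs
      · rw [eval_X]
        rfl
      · rw [map_zero]
    · have hi1 : i = 1 := by omega
      subst hi1
      simp only [pN, Sum.elim_inr, if_neg hi, eval_X]
      rfl

theorem mem_sec_trd {ι : Type} {K : ι → ℕ} {S : Set ((E → ℂ) × (ι → PowerSeries ℂ))}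
    (hS : IsCyl K S) (z : (E → ℂ) × (ι → PowerSeries ℂ)) :
    CV.trd K z.1 z.2 ∈ sec K S ↔ z ∈ S := by
  refine CV.mem_trd (z := ((fun p => CV.trd K z.1 z.2 (Sum.inl p)),
    toArc K fun s => CV.trd K z.1 z.2 (Sum.inr s))) hS ?_
  exact CV.trd_toArc K (CV.trd K z.1 z.2)

theorem Cy_NS [Finite E] (F : P2) {Q : Set (E ⊕ Unit → ℂ)} (k L m N : ℕ)
    (hD : IsCyl (fun _ => N) (DD0 F Q L m)) : IsCyl (fun _ => N) (NS F Q k L m) := by
  have hmem : ∀ z : (E ⊕ Unit → ℂ) × (Unit → PowerSeries ℂ), z ∈ NS F Q k L m ↔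
      z.1 (Sum.inr ()) ≠ 0 ∧ tN k z ∈ DD0 F Q L m := fun z => Iff.rfl
  constructor
  · intro p x y h
    rw [hmem, hmem]
    refine and_congr Iff.rfl (CV.mem_trd hD ?_)
    rw [trd_tN, trd_tN]
    have : CV.trd (fun _ => N) p x = CV.trd (fun _ => N) p y := by
      funext a
      rcases a with e | s
      · rfl
      · exact h s.1 s.2 s.2.2
    rw [this]
  · have h1 : sec (fun _ => N) (NS F Q k L m) =
        {v | eval v (X (Sum.inl (Sum.inr ())) : MvPolynomial ((E ⊕ Unit) ⊕ (Σ _ : Unit, Fin N)) ℂ)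
          ≠ 0 ∧ (fun a => eval v (pN E k N a)) ∈ sec (fun _ => N) (DD0 F Q L m)} := by
      ext v
      change _ ∈ NS F Q k L m ↔ _
      rw [hmem]
      have h2 := trd_tN k N ((fun p => v (Sum.inl p)), toArc (fun _ => N) fun s => v (Sum.inr s))
      rw [CV.trd_toArc] at h2
      simp only [Set.mem_ofPred_eq, eval_X, ← h2]
      rw [mem_sec_trd hD]
    rw [h1]
    exact Constructible.and (Constructible.ne _) (Constructible.preimage _ hD.2)

end

end VREPAux

open VREPAux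

theorem stmt_VREP : Stmt_VREP := by
  intro P F E _ Q hQ k L m hk
  have hD := Cy_DD0 F hQ.1 L m
  have hD' := hD
  obtain ⟨N0, hN0⟩ := hD'
  set N := k + 1 + N0 with hN
  have hDN := hN0 N (by omega)
  -- the set with `e = N0` further coefficients zero
  have hs := steps (f := (X 0 : P2)) P (QX_ok (E := E)) hk N0 (fun _ => 0) hD
    (DD0_inv F Q L m)
  have e0 : PD (X 0 : P2) (QX E) k 0 (fun _ => 0) ∩ DD0 F Q L m =
      {z : (E → ℂ) × (Fin 2 → PowerSeries ℂ) |
        (∀ j < k, PowerSeries.coeff j (z.2 0) = 0) ∧ PowerSeries.coeff k (z.2 0) ≠ 0 ∧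
        (∀ j < L, PowerSeries.coeff j (z.2 1) = 0) ∧ Lead Q m z.1 (aeval z.2 F)} := by
    ext z
    simp only [PD, SD, Set.mem_inter_iff, Set.mem_ofPred_eq, aeval_X, QX, DD0, dat, ldc, cut,
      Sum.elim_inr, if_true, Bool.false_eq_true, if_false]
    constructor
    · rintro ⟨⟨⟨h1, h2, h3⟩, -⟩, h4, h5⟩
      refine ⟨fun j hj => ?_, h3, h4, h5⟩
      rcases Nat.eq_zero_or_pos j with h6 | h6
      · rw [h6]
        exact h2
      · exact h1 j h6 hj
    · rintro ⟨h1, h3, h4, h5⟩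
      exact ⟨⟨⟨fun l _ hl => h1 l hl, h1 0 (by omega), h3⟩, fun l hl => absurd hl
        (Nat.not_lt_zero l)⟩, h4, h5⟩
  rw [e0] at hs
  set S := PD (X 0 : P2) (QX E) k N0 (fun _ => 0) ∩ DD0 F Q L m with hS
  have hcS : IsCyl (fun _ => N) S :=
    (cyl_PD (X 0 : P2) (QX_ok (E := E)).1 k N0 (fun _ => 0) N (by omega)).inter hDN
  have hcN := Cy_NS F k L m N hDN
  have hmemS : ∀ z : (E → ℂ) × (Fin 2 → PowerSeries ℂ), z ∈ S ↔
      (∀ j < N, j ≠ k → PowerSeries.coeff j (z.2 0) = 0) ∧ PowerSeries.coeff k (z.2 0) ≠ 0 ∧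
        z ∈ DD0 F Q L m := by
    intro z
    simp only [hS, PD, SD, Set.mem_inter_iff, Set.mem_ofPred_eq, aeval_X, QX, dat, ldc, cut,
      Sum.elim_inr, if_true, Bool.false_eq_true, if_false, map_zero]
    constructor
    · rintro ⟨⟨⟨h1, h2, h3⟩, h6⟩, h4⟩
      refine ⟨fun j hj hjk => ?_, h3, h4⟩
      rcases Nat.eq_zero_or_pos j with h7 | h7
      · rw [h7]
        exact h2
      · rcases Nat.lt_or_ge j k with h8 | h8
        · exact h1 j h7 h8
        · have h9 := h6 (j - (k + 1)) (by omega)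
          rw [show k + 1 + (j - (k + 1)) = j by omega] at h9
          exact h9
    · rintro ⟨h1, h3, h4⟩
      exact ⟨⟨⟨fun l _ hl => h1 l (by omega) (by omega), h1 0 (by omega) (by omega), h3⟩,
        fun l hl => h1 (k + 1 + l) (by omega) (by omega)⟩, h4⟩
  have key := CV.vol_cvp P hcS hcN (tN k) (pN E k N) (fun z _ => trd_tN k N z) ?_ ?_ ?_
  · simp only [Finset.sum_const, Finset.card_univ, Fintype.card_fin, Fintype.card_unit,
      smul_eq_mul, one_mul] at key
    have hx : xq ≠ 0 := by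
      rw [xq]
      exact inv_ne_zero RatFunc.X_ne_zero
    rw [hs] at key
    change _ = xq ^ (k + 1) * vol P.rat xq (NS F Q k L m)
    have h1 : xq ^ N0 * xq ^ N ≠ 0 := mul_ne_zero (pow_ne_zero _ hx) (pow_ne_zero _ hx)
    refine mul_left_cancel₀ h1 ?_
    have h2 : xq ^ (2 * N) = xq ^ N0 * xq ^ N * xq ^ (k + 1) := by
      rw [← pow_add, ← pow_add]
      congr 1
      omega
    rw [h2] at key
    linear_combination key
  · intro z hz
    rw [hmemS]
    refine ⟨fun j _ hjk => ?_, ?_, hz.2⟩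
    · change PowerSeries.coeff j (PowerSeries.C (z.1 (Sum.inr ())) * PowerSeries.X ^ k) = 0
      rw [coeff_CX, if_neg hjk]
    · change PowerSeries.coeff k (PowerSeries.C (z.1 (Sum.inr ())) * PowerSeries.X ^ k) ≠ 0
      rw [coeff_CX, if_pos rfl]
      exact hz.1
  · intro z hz z' hz' h
    funext a
    rcases a with (e | ⟨⟩) | ⟨⟨⟩, j⟩
    · exact congrFun h (Sum.inl e)
    · have h1 := congrFun h (Sum.inr ⟨0, ⟨k, by omega⟩⟩)
      change PowerSeries.coeff k (PowerSeries.C (z.1 (Sum.inr ())) * PowerSeries.X ^ k) =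
        PowerSeries.coeff k (PowerSeries.C (z'.1 (Sum.inr ())) * PowerSeries.X ^ k) at h1
      rw [coeff_CX, coeff_CX, if_pos rfl, if_pos rfl] at h1
      exact h1
    · exact congrFun h (Sum.inr ⟨1, j⟩)
  · intro y hy
    obtain ⟨h1, h2, h3⟩ := (hmemS y).1 hy
    set z : (E ⊕ Unit → ℂ) × (Unit → PowerSeries ℂ) :=
      (Sum.elim y.1 (fun _ => PowerSeries.coeff k (y.2 0)), fun _ => y.2 1) with hz
    have e1 : CV.trd (fun _ => N) (tN k z).1 (tN k z).2 = CV.trd (fun _ => N) y.1 y.2 := by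
      funext a
      rcases a with e | ⟨i, j⟩
      · rfl
      · by_cases hi : i = 0
        · subst hi
          change PowerSeries.coeff (j : ℕ) (PowerSeries.C (PowerSeries.coeff k (y.2 0)) *
            PowerSeries.X ^ k) = PowerSeries.coeff (j : ℕ) (y.2 0)
          rw [coeff_CX]
          split_ifs with hj
          · rw [hj]
          · exact (h1 j j.2 hj).symm
        · have hi1 : i = 1 := by omega
          subst hi1
          rfl
    refine ⟨z, ⟨h2, ?_⟩, e1⟩
    exact (CV.mem_trd hDN e1).2 h3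

end Pool.Agent.Mono.PC
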